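import Pool.Agent.P.MP_b91a16_ag.HasVol

/-! Volumes of sets of arcs with prescribed orders. -/

open MvPolynomial

namespace Pool.Agent.P.MP_b91a16_ag

noncomputable section

variable {k : Type} [Field k]

theorem HasVol.elim_multi {κ α : Type} [DecidableEq κ] (s : Finset α) (c : α → κ)
    (E : MvPolynomial κ k) (D : α → MvPolynomial κ k)
    (hD : ∀ (K : Type) [Field K] [Algebra k K] (x : κ → K) (t : K), ∀ i ∈ s, ∀ j ∈ s,
      aeval (Function.update x (c i) t) (D j) = aeval x (D j))
    (hE : ∀ (K : Type) [Field K] [Algebra k K] (x : κ → K) (t : K), ∀ i ∈ s,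
      aeval (Function.update x (c i) t) E = aeval x E + (t - x (c i)) * aeval x (D i))
    {P : Pred k κ} {v : Mot k} (h : HasVol P v)
    (hP : ∀ (K : Type) [Field K] [Algebra k K] (x : κ → K) (t : K), ∀ i ∈ s,
      P K x → P K (Function.update x (c i) t))
    (hne : ∀ (K : Type) [Field K] [Algebra k K] (x : κ → K), P K x → ∃ i ∈ s, aeval x (D i) ≠ 0) :
    HasVol (k := k) (fun K _ _ x => P K x ∧ aeval x E = 0) (Linv k * v) := by
  classical
  induction s using Finset.induction_on generalizing P v with
  | empty =>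
    have h0 : v = 0 := h.unique (hasVol_false.congr fun K _ _ x =>
      ⟨False.elim, fun hx => by simpa using hne K x hx⟩)
    rw [h0, mul_zero]
    exact hasVol_false.congr fun K _ _ x => ⟨False.elim, fun hx => by simpa using hne K x hx.1⟩
  | insert i s hi ih =>
    obtain ⟨v₁, v₂, h₁, h₂, rfl⟩ := h.split (D i)
    have hi' := Finset.mem_insert_self i s
    have g₁ := ih (fun K _ _ x t j hj l hl =>
        hD K x t j (Finset.mem_insert_of_mem hj) l (Finset.mem_insert_of_mem hl))
      (fun K _ _ x t j hj => hE K x t j (Finset.mem_insert_of_mem hj)) h₁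
      (fun K _ _ x t j hj hx => ⟨hP K x t j (Finset.mem_insert_of_mem hj) hx.1, by
        rw [hD K x t j (Finset.mem_insert_of_mem hj) i hi']; exact hx.2⟩)
      (fun K _ _ x hx => by
        obtain ⟨j, hj, hj'⟩ := hne K x hx.1
        rcases Finset.mem_insert.1 hj with rfl | hj
        · exact absurd hx.2 hj'
        · exact ⟨j, hj, hj'⟩)
    have g₂ := h₂.elim (c i) E
      (fun K _ _ x t hx => ⟨hP K x t i hi' hx.1, by rw [hD K x t i hi' i hi']; exact hx.2⟩)
      (fun K _ _ x hx => by
        have hx2 := hx.2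
        refine ⟨x (c i) - aeval x E / aeval x (D i), ?_, fun t ht => ?_⟩
        · beta_reduce
          rw [hE K x _ i hi']
          field_simp
          ring
        · beta_reduce at ht
          rw [hE K x _ i hi'] at ht
          field_simp
          linear_combination ht)
    rw [mul_add]
    refine (g₁.union g₂ fun K _ _ x h1 h2 => h2.1.2 h1.1.2).congr fun K _ _ x => ?_
    tauto

variable {σ ι : Type} [Fintype σ] [DecidableEq σ] [Fintype ι] [DecidableEq ι]

def ser {R : Type} [CommRing R] (x : σ × ℕ → R) (j : σ) : PowerSeries R :=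
  PowerSeries.mk fun l => x (j, l)

def GG (u : ι → σ → ℕ) (a : ι → k) {R : Type} [CommRing R] [Algebra k R] (e : ι → ℕ)
    (y : σ → PowerSeries R) : PowerSeries R :=
  ∑ i, PowerSeries.C (algebraMap k R (a i)) * (PowerSeries.X ^ e i * ∏ j, y j ^ u i j)

variable (u : ι → σ → ℕ) (a : ι → k)

def EE (e : ι → ℕ) (p : ℕ) : MvPolynomial (σ × ℕ) k :=
  PowerSeries.coeff p (GG u a e (ser (X : σ × ℕ → MvPolynomial (σ × ℕ) k)))

omit [DecidableEq σ] [DecidableEq ι] in
theorem aeval_EE {K : Type} [CommRing K] [Algebra k K] (e : ι → ℕ) (p : ℕ) (y : σ × ℕ → K) :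
    aeval y (EE u a e p) = PowerSeries.coeff p (GG u a e (ser y)) := by
  have h1 : ∀ j, PowerSeries.map (aeval y : MvPolynomial (σ × ℕ) k →ₐ[k] K).toRingHom
      (ser (X : σ × ℕ → MvPolynomial (σ × ℕ) k) j) = ser y j := by
    intro j
    ext l
    simp [ser]
  have h2 : PowerSeries.map (aeval y : MvPolynomial (σ × ℕ) k →ₐ[k] K).toRingHom
      (GG u a e (ser (X : σ × ℕ → MvPolynomial (σ × ℕ) k))) = GG u a e (ser y) := by
    simp only [GG, map_sum, map_mul, map_pow, map_prod, PowerSeries.map_C, PowerSeries.map_X, h1]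
    simp
  rw [← h2, PowerSeries.coeff_map]
  rfl

omit [Fintype σ] in
theorem ser_update {K : Type} [CommRing K] (y : σ × ℕ → K) (j : σ) (l : ℕ) (t : K) :
    ser (Function.update y (j, l) t) =
      Function.update (ser y) j (ser y j + PowerSeries.X ^ l * PowerSeries.C (t - y (j, l))) := by
  funext j'
  by_cases hj : j' = j
  · subst hj
    rw [Function.update_self]
    ext p
    simp only [ser, PowerSeries.coeff_mk, map_add, PowerSeries.coeff_mul_C, PowerSeries.coeff_X_pow]
    by_cases hp : p = l
    · subst hp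
      simp
    · rw [Function.update_of_ne (by simpa using hp)]
      simp [hp]
  · rw [Function.update_of_ne hj]
    ext p
    simp only [ser, PowerSeries.coeff_mk]
    rw [Function.update_of_ne (by simp [hj])]

/-- The partial derivative of the face polynomial, evaluated at the leading coefficients. -/
def DD (I : Finset ι) (j : σ) : MvPolynomial (σ × ℕ) k :=
  ∑ i ∈ I, C (a i) * ((u i j : MvPolynomial (σ × ℕ) k) * X (j, 0) ^ (u i j - 1) *
    ∏ j' ∈ Finset.univ.erase j, X (j', 0) ^ u i j')

/-- The face polynomial, evaluated at the leading coefficients. -/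
def FF (I : Finset ι) : MvPolynomial (σ × ℕ) k :=
  ∑ i ∈ I, C (a i) * ∏ j, X (j, 0) ^ u i j

omit [DecidableEq ι] in
theorem coeff_GG_update {K : Type} [CommRing K] [Algebra k K] (e : ι → ℕ) (N : ℕ)
    (hN : ∀ i, N ≤ e i) (y : σ × ℕ → K) (j : σ) (l : ℕ) (hl : 0 < l) (t : K) (p : ℕ)
    (hp : p ≤ N + l) :
    PowerSeries.coeff p (GG u a e (ser (Function.update y (j, l) t))) =
      PowerSeries.coeff p (GG u a e (ser y)) + if p = N + l then
        (t - y (j, l)) * aeval y (DD u a (Finset.univ.filter fun i => e i = N) j) else 0 := by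
  rw [ser_update]
  set c := t - y (j, l)
  set z := ser y with hz
  have key : ∀ i, ∃ W : PowerSeries K,
      ∏ j', Function.update z j (z j + PowerSeries.X ^ l * PowerSeries.C c) j' ^ u i j' =
        ∏ j', z j' ^ u i j' + PowerSeries.X ^ l * W ∧
      PowerSeries.constantCoeff W = c * ((u i j : K) * y (j, 0) ^ (u i j - 1) *
        ∏ j' ∈ Finset.univ.erase j, y (j', 0) ^ u i j') := by
    intro i
    obtain ⟨r, hr⟩ := sq_dvd_add_pow_sub_sub (PowerSeries.X ^ l * PowerSeries.C c) (z j) (u i j)
    refine ⟨PowerSeries.C c * ((z j ^ (u i j - 1) * (u i j : PowerSeries K) +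
      PowerSeries.X ^ l * PowerSeries.C c * r) * ∏ j' ∈ Finset.univ.erase j, z j' ^ u i j'), ?_, ?_⟩
    · rw [← Finset.mul_prod_erase _ _ (Finset.mem_univ j),
        ← Finset.mul_prod_erase _ (fun j' => z j' ^ u i j') (Finset.mem_univ j),
        Function.update_self, Finset.prod_congr rfl fun j' hj' => by
          rw [Function.update_of_ne (Finset.ne_of_mem_erase hj')]]
      linear_combination (∏ j' ∈ Finset.univ.erase j, z j' ^ u i j') * hr
    · have h0 : ∀ j', PowerSeries.constantCoeff (z j') = y (j', 0) := fun j' => by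
        simp [hz, ser]
      simp [h0, hl.ne']
      ring
  choose W hW hW0 using key
  simp only [GG, hW, mul_add, Finset.sum_add_distrib, map_add, add_right_inj, map_sum,
    ← mul_assoc, ← pow_add]
  simp only [mul_assoc, PowerSeries.coeff_C_mul, PowerSeries.coeff_X_pow_mul']
  split_ifs with h
  · subst h
    simp only [DD, map_sum, Finset.mul_sum, Finset.sum_filter]
    refine Finset.sum_congr rfl fun i _ => ?_
    by_cases hi : e i = N
    · simp [hi, hW0]
      ring
    · have : ¬ e i + l ≤ N + l := by have := hN i; omega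
      simp [hi, this]
  · refine Finset.sum_eq_zero fun i _ => ?_
    have : ¬ e i + l ≤ p := by have := hN i; omega
    simp [this]

omit [DecidableEq σ] [DecidableEq ι] in
theorem coeff_GG_of_le {K : Type} [CommRing K] [Algebra k K] (e : ι → ℕ) (N : ℕ)
    (hN : ∀ i, N ≤ e i) (y : σ × ℕ → K) (p : ℕ) (hp : p ≤ N) :
    PowerSeries.coeff p (GG u a e (ser y)) =
      if p = N then aeval y (FF u a (Finset.univ.filter fun i => e i = N)) else 0 := by
  simp only [GG, map_sum, PowerSeries.coeff_C_mul, PowerSeries.coeff_X_pow_mul']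
  split_ifs with h
  · subst h
    simp only [FF, map_sum, Finset.sum_filter]
    refine Finset.sum_congr rfl fun i _ => ?_
    by_cases hi : e i = p
    · simp [hi, ser]
    · have : ¬ e i ≤ p := by have := hN i; omega
      simp [hi, this]
  · refine Finset.sum_eq_zero fun i _ => ?_
    have : ¬ e i ≤ p := by have := hN i; omega
    simp [this]

/-- The variables that occur in the monomials indexed by `I`. -/
def supp (I : Finset ι) : Finset σ := Finset.univ.filter fun j => ∃ i ∈ I, u i j ≠ 0

/-- Affine independence of the exponents, in dual form. -/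
def Dual : Prop :=
  ∀ i, ∃ (ξ : σ → ℚ) (ξ₀ : ℚ), ∀ i', ∑ j, ξ j * (u i' j : ℚ) + ξ₀ = if i' = i then 1 else 0

omit [Fintype ι] in
theorem nondeg [CharZero k] (hu : Dual u) (ha : ∀ i, a i ≠ 0) (I : Finset ι) (hI : I.Nonempty)
    {K : Type} [Field K] [Algebra k K] (y : σ × ℕ → K) (hy : ∀ j ∈ supp u I, y (j, 0) ≠ 0)
    (h0 : aeval y (FF u a I) = 0) : ∃ j ∈ supp u I, aeval y (DD u a I j) ≠ 0 := by
  have : CharZero K := charZero_of_injective_algebraMap (algebraMap k K).injective
  by_contra hcon
  push Not at hcon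
  let M : ι → K := fun i => algebraMap k K (a i) * ∏ j, y (j, 0) ^ u i j
  have h1 : ∑ i ∈ I, M i = 0 := by simpa [FF, M] using h0
  have h2 : ∀ j, ∑ i ∈ I, (u i j : K) * M i = 0 := by
    intro j
    by_cases hj : j ∈ supp u I
    · have h3 := hcon j hj
      simp only [DD, map_sum, map_mul, map_natCast, map_pow, aeval_X, map_prod, aeval_C] at h3
      rw [← mul_zero (y (j, 0)), ← h3, Finset.mul_sum]
      refine Finset.sum_congr rfl fun i _ => ?_
      simp only [M]
      rw [← Finset.mul_prod_erase _ _ (Finset.mem_univ j)]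
      rcases Nat.eq_zero_or_pos (u i j) with h | h
      · simp [h]
      · obtain ⟨d, hd⟩ : ∃ d, u i j = d + 1 := ⟨u i j - 1, by omega⟩
        rw [hd, Nat.add_sub_cancel]
        ring
    · refine Finset.sum_eq_zero fun i hi => ?_
      have : u i j = 0 := by
        by_contra h
        exact hj (Finset.mem_filter.2 ⟨Finset.mem_univ _, i, hi, h⟩)
      simp [this]
  obtain ⟨i, hi⟩ := hI
  obtain ⟨ξ, ξ₀, hξ⟩ := hu i
  have h3 : M i = ∑ i' ∈ I, (∑ j, (ξ j : K) * (u i' j : K) + (ξ₀ : K)) * M i' := by
    rw [Finset.sum_eq_single i]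
    · have := congrArg (fun q : ℚ => (q : K)) (hξ i)
      simp only [if_true] at this
      push_cast at this
      rw [this, one_mul]
    · intro i' _ hi'
      have := congrArg (fun q : ℚ => (q : K)) (hξ i')
      simp only [if_neg hi'] at this
      push_cast at this
      rw [this, zero_mul]
    · intro h
      exact absurd hi h
  have h4 : M i = 0 := by
    rw [h3]
    simp only [add_mul, Finset.sum_add_distrib, Finset.sum_mul, mul_assoc]
    rw [Finset.sum_comm]
    simp only [← Finset.mul_sum, h1, h2, mul_zero, Finset.sum_const_zero, add_zero]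
  refine mul_ne_zero ((map_ne_zero _).2 (ha i)) (Finset.prod_ne_zero_iff.2 fun j _ => ?_) h4
  rcases Nat.eq_zero_or_pos (u i j) with h | h
  · simp [h]
  · exact pow_ne_zero _ (hy j (Finset.mem_filter.2 ⟨Finset.mem_univ _, i, hi, h.ne'⟩))

end

end Pool.Agent.P.MP_b91a16_ag
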