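import Pool.Agent.P.MP_b91a16_ag.Defs

/-! Local Bernstein-Sato equations, Newton polyhedra, nondegeneracy and simpliciality. -/

namespace Pool.Agent.P.MP_b91a16_ag

noncomputable section

/-- `h b(s) f^s = P(s) f^(s+1)` for some polynomial `h` with `h(0) ≠ 0` and some
`P(s) = ∑ P_i s^i` in `D[s]`, as an identity of polynomials at every natural number `s = m`. -/
def LocalBernsteinEq {k : Type} [Field k] {n : ℕ} (f : MvPolynomial (Fin n) k)
    (b : Polynomial k) : Prop :=
  ∃ (h : MvPolynomial (Fin n) k) (d : ℕ) (P : Fin d → Module.End k (MvPolynomial (Fin n) k)),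
    h.coeff 0 ≠ 0 ∧ (∀ i, P i ∈ weyl k n) ∧
      ∀ m : ℕ, ∑ i, (m : k) ^ i.1 • P i (f ^ (m + 1)) = b.eval (m : k) • (h * f ^ m)

/-- The pairing of a weight vector with an exponent vector. -/
def pairing {n : ℕ} (w : Fin n → ℝ) (v : Fin n →₀ ℕ) : ℝ := ∑ j, w j * v j

/-- The Newton polyhedron: the convex hull of the orthants `v + ℝ^n_{≥ 0}`, `v` in the support. -/
def newton {k : Type} [Field k] {n : ℕ} (f : MvPolynomial (Fin n) k) : Set (Fin n → ℝ) :=
  convexHull ℝ {x | ∃ v ∈ f.support, ∀ j, (v j : ℝ) ≤ x j}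

open Classical in
/-- The sum of the terms of `f` of weight one. -/
def facePoly {k : Type} [Field k] {n : ℕ} (f : MvPolynomial (Fin n) k) (w : Fin n → ℝ) :
    MvPolynomial (Fin n) k :=
  ∑ v ∈ f.support.filter fun v => pairing w v = 1, MvPolynomial.monomial v (f.coeff v)

/-- `f` is nondegenerate: for every compact face of the Newton polyhedron, cut out by a positive
weight `w` with minimum one on the support, the face polynomial has no critical point in the
torus over the algebraic closure. -/
def Nondeg {k : Type} [Field k] {n : ℕ} (f : MvPolynomial (Fin n) k) : Prop :=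
  ∀ w : Fin n → ℝ, (∀ j, 0 < w j) → (∀ v ∈ f.support, 1 ≤ pairing w v) → (∃ v ∈ f.support, pairing w v = 1) →
    ∀ x : Fin n → AlgebraicClosure k, (∀ j, x j ≠ 0) →
      ∃ j, MvPolynomial.aeval x (MvPolynomial.pderiv j (facePoly f w)) ≠ 0

/-- The Newton polyhedron is simplicial: for every face cut out by a weight `w ≥ 0` that is at
least one on the support, the vertices of weight one and the unit vectors `e_j` with `w_j = 0`
are linearly independent. -/
def Simplicial {k : Type} [Field k] {n : ℕ} (f : MvPolynomial (Fin n) k) : Prop :=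
  ∀ w : Fin n → ℝ, (∀ j, 0 ≤ w j) → (∀ v ∈ f.support, 1 ≤ pairing w v) →
    LinearIndepOn ℝ id ({x ∈ (newton f).extremePoints ℝ | ∑ j, w j * x j = 1} ∪
      {x | ∃ j, w j = 0 ∧ x = Pi.single j 1})

end

end Pool.Agent.P.MP_b91a16_ag
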