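import Pool.Agent.P.MP_b91a16_ag.Bern
import Pool.Agent.P.MP_b91a16_ag.DefsLoc

/-! Transfer of a local Bernstein-Sato identity. -/

set_option linter.unusedSectionVars false

open MvPolynomial

namespace Pool.Agent.P.MP_b91a16_ag

noncomputable section

variable {k : Type} [Field k] [CharZero k] {n : ℕ}

theorem bern_closure_loc {f : MvPolynomial (Fin n) k} (hf : f ≠ 0) {b : Polynomial k}
    (hb : LocalBernsteinEq f b) (Q : ℕ → MvPolynomial (Fin n) (Polynomial k) → Prop)
    (h0 : Q 0 (lift f)) (hadd : ∀ K g g', Q K g → Q K g' → Q K (g + g'))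
    (hC : ∀ K p g, Q K g → Q K (C p * g)) (hX : ∀ K j g, Q K g → Q K (X j * g))
    (hf1 : ∀ K g, Q K g → Q (K + 1) (lift f * g))
    (hD : ∀ K j g, Q K g → Q (K + 1)
      (lift f * pderiv j g + C (Polynomial.X - (K : Polynomial k)) * g * pderiv j (lift f))) :
    ∃ K h, constantCoeff h ≠ 0 ∧ Q K (C b * lift h * lift f ^ K) := by
  let W : (ℕ → MvPolynomial (Fin n) k) → Prop := fun h =>
    ∃ K g, (∀ m : ℕ, h m * f ^ K = spec (m : k) g * f ^ m) ∧ Q K g
  have hpow : ∀ L K g, Q K g → Q (K + L) (lift f ^ L * g) := by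
    intro L K g hg
    induction L with
    | zero => simpa using hg
    | succ L ih =>
      have := hf1 _ _ ih
      rwa [← mul_assoc, ← pow_succ'] at this
  have Wadd : ∀ h h', W h → W h' → W fun m => h m + h' m := by
    rintro h h' ⟨K, g, e, q⟩ ⟨K', g', e', q'⟩
    refine ⟨K + K', lift f ^ K' * g + lift f ^ K * g', fun m => ?_,
      hadd _ _ _ (hpow _ _ _ q) (by rw [add_comm]; exact hpow _ _ _ q')⟩
    simp only [map_add, map_mul, map_pow, spec_lift]
    linear_combination f ^ K' * e m + f ^ K * e' m
  have WC : ∀ (p : Polynomial k) h, W h → W fun m => p.eval (m : k) • h m := by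
    rintro p h ⟨K, g, e, q⟩
    refine ⟨K, C p * g, fun m => ?_, hC _ _ _ q⟩
    beta_reduce
    rw [map_mul, spec_C, smul_eq_C_mul, mul_assoc, e m, mul_assoc]
  have W1 : W fun m => f ^ (m + 1) := ⟨0, lift f, fun m => by rw [spec_lift]; ring, h0⟩
  have Wzero : W fun _ => 0 := by simpa using WC 0 _ W1
  have Wop : ∀ P ∈ weyl k n, ∀ h, W h → W fun m => P (h m) := by
    intro P hP
    induction hP using Algebra.adjoin_induction with
    | mem P hP =>
      rintro h ⟨K, g, e, q⟩
      rcases hP with ⟨j, rfl⟩ | ⟨j, rfl⟩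
      · refine ⟨K, X j * g, fun m => ?_, hX _ _ _ q⟩
        beta_reduce
        rw [map_mul, spec_X, LinearMap.mulLeft_apply, mul_assoc, e m, mul_assoc]
      · refine ⟨K + 1, _, fun m => ?_, hD _ j _ q⟩
        have e1 := congrArg (fun z => f * pderiv j z) (e m)
        simp only [Derivation.leibniz, smul_eq_mul, mul_add] at e1
        rw [mul_left_comm f (h m), mul_left_comm f (spec _ g), mul_pderiv_pow,
          mul_pderiv_pow] at e1
        simp only [map_add, map_mul, spec_lift, spec_C, spec_pderiv,
          Polynomial.eval_X, map_sub, map_natCast]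
        change pderiv j (h m) * _ = _
        linear_combination e1 - (K * pderiv j f) * e m
    | algebraMap c =>
      intro h hh
      simpa [Algebra.algebraMap_eq_smul_one] using WC (Polynomial.C c) h hh
    | add P P' _ _ ih ih' =>
      intro h hh
      exact Wadd _ _ (ih h hh) (ih' h hh)
    | mul P P' _ _ ih ih' =>
      intro h hh
      exact ih _ (ih' h hh)
  obtain ⟨h, d, P, hh, hP, e⟩ := hb
  have Wsum : ∀ s : Finset (Fin d),
      W fun m => ∑ i ∈ s, (m : k) ^ i.1 • P i (f ^ (m + 1)) := by
    intro s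
    induction s using Finset.induction_on with
    | empty => simpa using Wzero
    | insert i s hi ih =>
      simp only [Finset.sum_insert hi]
      refine Wadd _ _ ?_ ih
      simpa using WC (Polynomial.X ^ i.1) _ (Wop _ (hP i) _ W1)
  obtain ⟨K, g, e', q⟩ := Wsum Finset.univ
  refine ⟨K, h, hh, ?_⟩
  have : g = C b * lift h * lift f ^ K := by
    refine eq_of_spec fun m => mul_right_cancel₀ (pow_ne_zero m hf) ?_
    rw [← e' m]
    beta_reduce
    rw [e m, map_mul, map_mul, map_pow, spec_lift, spec_lift, spec_C, smul_eq_C_mul]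
    ring
  rwa [← this]

theorem root_neg_one_loc {f : MvPolynomial (Fin n) k} (hf : f ≠ 0) (hf0 : constantCoeff f = 0)
    {b : Polynomial k} (hb : LocalBernsteinEq f b) : b.eval (-1) = 0 := by
  obtain ⟨K, h, hh, q, hq⟩ := bern_closure_loc hf hb (fun K g => f ^ (K + 1) ∣ spec (-1 : k) g)
    (by simp [spec_lift]) (fun K g g' h h' => by rw [map_add]; exact dvd_add h h')
    (fun K p g h => by rw [map_mul]; exact h.mul_left _)
    (fun K j g h => by rw [map_mul]; exact h.mul_left _)
    (fun K g h => by rw [map_mul, spec_lift, pow_succ']; exact mul_dvd_mul_left _ h)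
    (by
      rintro K j g ⟨q, hq⟩
      refine ⟨pderiv j q, ?_⟩
      simp only [map_add, map_mul, spec_lift, spec_C, spec_pderiv,
        Polynomial.eval_X, map_sub, map_natCast, hq, map_neg, map_one,
        Derivation.leibniz, smul_eq_mul, mul_add]
      rw [mul_left_comm f q, mul_pderiv_pow]
      push_cast
      ring)
  rw [map_mul, map_mul, map_pow, spec_lift, spec_lift, spec_C, pow_succ', mul_right_comm f] at hq
  have h1 := congrArg constantCoeff (mul_right_cancel₀ (pow_ne_zero K hf) hq)
  simpa [hf0, hh] using h1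

end

end Pool.Agent.P.MP_b91a16_ag
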