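import Pool.Agent.P.MP_b91a16_ag.Geom

/-! The gradient of a convex barrier on a maximal face, cut off to the unit cube. -/

set_option linter.unusedSectionVars false

open Filter Topology Real

namespace Pool.Agent.P.MP_b91a16_ag

noncomputable section

variable {σ ι : Type} [Fintype σ] [DecidableEq σ] [Fintype ι] [DecidableEq ι]
variable {u : ι → σ → ℕ} {Z Bs : Finset (σ ⊕ ι)} {a b : Bs → σ}

theorem sigmoid_gap {y C : ℝ} (hy : 0 ≤ y) (hC : 0 ≤ C) :
    C * sigmoid (-(y + (4 * C + 1))) ≤ sigmoid (-y) / 2 := by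
  simp only [sigmoid_def, neg_neg]
  have h1 : 1 ≤ exp y := one_le_exp hy
  have h2 : 4 * C + 1 + 1 ≤ exp (4 * C + 1) := add_one_le_exp _
  rw [exp_add, ← div_eq_mul_inv, inv_eq_one_div, div_div, div_le_div_iff₀ (by positivity)
    (by positivity)]
  nlinarith [mul_le_mul_of_nonneg_left h2 (exp_pos y).le]

theorem exists_gap {G : Type} [Fintype G] (Y : ℕ → Finset G) (hY : Monotone Y)
    (h1 : (Y 1).Nonempty) : ∃ l, 1 ≤ l ∧ l ≤ Fintype.card G ∧ Y (l + 1) ⊆ Y l := by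
  by_contra h
  push Not at h
  have : ∀ l, l ≤ Fintype.card G → l + 1 ≤ (Y (l + 1)).card := by
    intro l hl
    induction l with
    | zero => exact h1.card_pos
    | succ l ih =>
      exact (ih (by omega)).trans_lt
        (Finset.card_lt_card ⟨hY (Nat.le_succ _), h (l + 1) (by omega) hl⟩)
  exact absurd ((this _ le_rfl).trans (Finset.card_le_univ _)) (by omega)

variable (u Z) in
def thet (A Λ : ℝ) (c c' : σ) (ω : σ → ℝ) : ℝ :=
  Λ * ∑ g ∈ Zᶜ, lin u g (dir c' c) * sigmoid (-(A * zr u g ω))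

theorem th_swap (A Λ : ℝ) (c c' : σ) (ω : σ → ℝ) : thet u Z A Λ c' c ω = -thet u Z A Λ c c' ω := by
  simp only [thet, lin_dir, ← mul_neg, ← Finset.sum_neg_distrib]
  congr 1
  exact Finset.sum_congr rfl fun g _ => by ring

theorem exists_th (hP : Pairs u Z Bs a b) (hB : Bdd u Z) :
    ∃ η A Λ : ℝ, 0 < η ∧ 0 < A ∧ 0 < Λ ∧ ∀ ω, Near u η Z ω → (∃ g, g ∉ Z ∧ zr u g ω ≤ η) →
      ∃ x, (1 < thet u Z A Λ (a x) (b x) ω ∧ ∀ g, g ∉ Z → zr u g ω ≤ η → nn u g (a x) = 0) ∨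
        (1 < thet u Z A Λ (b x) (a x) ω ∧ ∀ g, g ∉ Z → zr u g ω ≤ η → nn u g (b x) = 0) := by
  classical
  obtain ⟨η, hη, -, hF⟩ := hB.exists_eta
  set m := Fintype.card (σ ⊕ ι)
  have ht := tot_nonneg (u := u)
  set η₁ := η / (m + 1) with hη₁
  have h1 : 0 < η₁ := by positivity
  have h2 : (m + 1) * η₁ = η := by rw [hη₁]; field_simp
  set A := (4 * tot u + 1) / η₁ with hA
  have h3 : 0 < A := by positivity
  have h4 : A * η₁ = 4 * tot u + 1 := by rw [hA]; field_simp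
  have h5 := sigmoid_pos (-(A * η))
  refine ⟨η₁, A, 2 / sigmoid (-(A * η)) + 1, h1, h3, by positivity, fun ω hω ⟨g₀, hg₀⟩ => ?_⟩
  let Y : ℕ → Finset (σ ⊕ ι) := fun l => Finset.univ.filter fun g => g ∉ Z ∧ zr u g ω ≤ l * η₁
  have hY : ∀ l g, g ∈ Y l ↔ g ∉ Z ∧ zr u g ω ≤ l * η₁ := by simp [Y]
  have hmono : Monotone Y := fun l l' h g hg => (hY _ _).2 ⟨((hY _ _).1 hg).1,
    ((hY _ _).1 hg).2.trans (mul_le_mul_of_nonneg_right (Nat.cast_le.2 h) h1.le)⟩
  have hne : (Y 1).Nonempty := ⟨g₀, (hY _ _).2 (by simpa using hg₀)⟩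
  obtain ⟨l, hl1, hl2, hl⟩ := exists_gap Y hmono hne
  have h6 : l * η₁ ≤ η := by
    rw [← h2]
    exact mul_le_mul_of_nonneg_right (by exact_mod_cast Nat.le_succ_of_le hl2) h1.le
  have h7 : η₁ ≤ η := le_trans (le_mul_of_one_le_left h1.le (by exact_mod_cast hl1)) h6
  have hface : Face u (Z ∪ Y l) := hF _ ω ⟨fun g => by linarith [hω.1 g], fun g hg => by
    rcases Finset.mem_union.1 hg with hg | hg
    · exact (hω.2 g hg).trans h7
    · exact ((hY _ _).1 hg).2.trans h6⟩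
  have key : ∀ c c', (∀ g ∈ Y l, nn u g c = 0) → (∃ g ∈ Y l, nn u g c' ≠ 0) →
      1 < thet u Z A (2 / sigmoid (-(A * η)) + 1) c c' ω ∧
        ∀ g, g ∉ Z → zr u g ω ≤ η₁ → nn u g c = 0 := by
    rintro c c' hc ⟨g', hg', hc'⟩
    refine ⟨?_, fun g hg hg' => hc g (hmono hl1 ((hY _ _).2 ⟨hg, by simpa using hg'⟩))⟩
    have e1 : sigmoid (-(A * (l * η₁))) ≤
        ∑ g ∈ Zᶜ, (nn u g c' : ℝ) * sigmoid (-(A * zr u g ω)) := by
      refine le_trans ?_ (Finset.single_le_sum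
        (f := fun g => (nn u g c' : ℝ) * sigmoid (-(A * zr u g ω)))
        (fun _ _ => mul_nonneg (Nat.cast_nonneg _) (sigmoid_nonneg _))
        (Finset.mem_compl.2 ((hY _ _).1 hg').1))
      refine le_trans (sigmoid_le (neg_le_neg (mul_le_mul_of_nonneg_left ((hY _ _).1 hg').2 h3.le)))
        (le_mul_of_one_le_left (sigmoid_nonneg _) ?_)
      exact_mod_cast Nat.one_le_iff_ne_zero.2 hc'
    have e2 : ∑ g ∈ Zᶜ, (nn u g c : ℝ) * sigmoid (-(A * zr u g ω)) ≤
        tot u * sigmoid (-(A * (l * η₁) + (4 * tot u + 1))) := by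
      refine le_trans ?_ (mul_le_mul_of_nonneg_right (sum_nn_le' c) (sigmoid_nonneg _))
      rw [Finset.sum_mul]
      refine le_trans (Finset.sum_le_sum fun g hg => ?_) (Finset.sum_le_sum_of_subset_of_nonneg
        (Finset.subset_univ _) fun _ _ _ => mul_nonneg (Nat.cast_nonneg _) (sigmoid_nonneg _))
      by_cases h : g ∈ Y l
      · simp [hc g h]
      · refine mul_le_mul_of_nonneg_left (sigmoid_le (neg_le_neg ?_)) (Nat.cast_nonneg _)
        have : ¬zr u g ω ≤ (l + 1 : ℕ) * η₁ := fun h' =>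
          h (hl ((hY _ _).2 ⟨Finset.mem_compl.1 hg, h'⟩))
        push_cast at this
        rw [← h4]
        nlinarith
    have e3 := sigmoid_gap (y := A * (l * η₁)) (by positivity) ht
    have e4 : sigmoid (-(A * η)) ≤ sigmoid (-(A * (l * η₁))) :=
      sigmoid_le (neg_le_neg (mul_le_mul_of_nonneg_left h6 h3.le))
    have e5 : sigmoid (-(A * η)) / 2 ≤
        ∑ g ∈ Zᶜ, lin u g (dir c' c) * sigmoid (-(A * zr u g ω)) := by
      simp only [lin_dir, sub_mul, Finset.sum_sub_distrib]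
      linarith
    refine lt_of_lt_of_le ?_ (mul_le_mul_of_nonneg_left e5 (by positivity))
    field_simp
    linarith
  obtain ⟨x, h | h⟩ := hP.lab (Y l) (hne.mono (hmono hl1)) (fun g hg => ((hY _ _).1 hg).1) hface
  · exact ⟨x, Or.inl (key _ _ h.1 h.2)⟩
  · exact ⟨x, Or.inr (key _ _ h.1 h.2)⟩

theorem exists_min (hB : Bdd u Z) (hF : Face u Z) {A Λ : ℝ} (hA : 0 < A) (hΛ : 0 < Λ) :
    ∃ ω, Near u 0 Z ω ∧ ∀ c c', (∀ g ∈ Z, nn u g c' = nn u g c) →
      (∀ g, g ∉ Z → zr u g ω = 0 → nn u g c = 0) → thet u Z A Λ c c' ω ≤ 0 := by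
  let φ : (σ → ℝ) → ℝ := fun ω => ∑ g ∈ Zᶜ, log (1 + exp (-(A * zr u g ω)))
  have hφ : Continuous φ := continuous_finsetSum _ fun g _ =>
    Continuous.log (by fun_prop) fun ω => by positivity
  obtain ⟨ω, h1, h2⟩ := (hB.isCompact zero_le_one).exists_isMinOn hF hφ.continuousOn
  refine ⟨ω, h1, fun c c' hc hc' => ?_⟩
  have hd : HasDerivAt (fun s : ℝ => φ (ω + s • dir c' c))
      (∑ g ∈ Zᶜ, -A * (lin u g (dir c' c) * sigmoid (-(A * zr u g ω)))) 0 := by
    refine HasDerivAt.fun_sum fun g _ => ?_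
    simp only [zr_add, map_smul, smul_eq_mul]
    refine ((((((hasDerivAt_id' (0 : ℝ)).mul_const (lin u g (dir c' c))).const_add
      (zr u g ω)).const_mul A).fun_neg.exp.const_add 1).log (by positivity)).congr_deriv ?_
    rw [← sigmoid_mul_rexp_neg, sigmoid_def]
    simp only [zero_mul, add_zero, one_mul]
    ring
  have hev : ∀ᶠ s in 𝓝[>] (0 : ℝ),
      0 ≤ s⁻¹ • (φ (ω + (0 + s) • dir c' c) - φ (ω + (0 : ℝ) • dir c' c)) := by
    have := move (v := dir c' c) h1.nonneg fun g hg => by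
      rw [lin_dir]
      by_cases h : g ∈ Z
      · simp [hc g h]
      · simp [hc' g h hg]
    filter_upwards [this, self_mem_nhdsWithin] with s hs hs'
    have h3 : Near u 0 Z (ω + s • dir c' c) := ⟨fun g => by simpa using hs.1 g, fun g hg => by
      simp [zr_add, lin_dir, hc g hg, h1.eq_zero hg]⟩
    have h4 : φ ω ≤ φ (ω + s • dir c' c) := h2 h3
    rw [zero_add, zero_smul, add_zero]
    exact smul_nonneg (inv_nonneg.2 (le_of_lt hs')) (sub_nonneg.2 h4)
  have := ge_of_tendsto hd.tendsto_slope_zero_right hev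
  rw [← Finset.mul_sum] at this
  exact mul_nonpos_of_nonneg_of_nonpos hΛ.le (by nlinarith)

variable (u Z a b) in
/-- A map to the unit cube with positive Jacobian that respects the labels near the boundary. -/
structure Chi (η L : ℝ) (χ : Bs → (σ → ℝ) → ℝ) (D : Bs → (σ → ℝ) → (σ → ℝ) →L[ℝ] ℝ) : Prop where
  pos : 0 < η
  der : ∀ x ω, HasFDerivAt (χ x) (D x ω) ω
  cont : ∀ x, Continuous (D x)
  bdd : ∀ x ω, ‖D x ω‖ ≤ L
  mem : ∀ x ω, 0 ≤ χ x ω ∧ χ x ω ≤ 1
  det : ∀ ω, 0 ≤ (Matrix.of fun x y => D x ω (dir (a y) (b y))).det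
  lab : ∀ ω, Near u η Z ω → (∃ g, g ∉ Z ∧ zr u g ω ≤ η) → ∃ x, D x ω = 0 ∧
    ((χ x ω = 1 ∧ ∀ g, g ∉ Z → zr u g ω ≤ η → nn u g (a x) = 0) ∨
      (χ x ω = 0 ∧ ∀ g, g ∉ Z → zr u g ω ≤ η → nn u g (b x) = 0))
  ex : ∃ ω, Near u 0 Z ω ∧ (∀ g, g ∉ Z → η < zr u g ω) ∧
    0 < (Matrix.of fun x y => D x ω (dir (a y) (b y))).det

theorem exists_chi (hP : Pairs u Z Bs a b) (hB : Bdd u Z) (hF : Face u Z) :
    ∃ η L χ D, Chi u Z a b η L χ D := by
  obtain ⟨η, A, Λ, hη, hA, hΛ, hlab⟩ := exists_th hP hB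
  obtain ⟨ω₀, h0, hmin⟩ := exists_min hB hF hA hΛ
  obtain ⟨C, hC, hC'⟩ := tau_one_bdd
  let s' : σ ⊕ ι → (σ → ℝ) → ℝ := fun g ω =>
    sigmoid (-(A * zr u g ω)) * (1 - sigmoid (-(A * zr u g ω)))
  have hs0 : ∀ g ω, 0 < s' g ω := fun g ω =>
    mul_pos (sigmoid_pos _) (sub_pos.2 (sigmoid_lt_one _))
  have hs1 : ∀ g ω, s' g ω ≤ 1 := fun g ω =>
    mul_le_one₀ (sigmoid_le_one _) (sub_nonneg.2 (sigmoid_le_one _))
      (by linarith [sigmoid_pos (-(A * zr u g ω))])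
  let ν : σ ⊕ ι → Bs → ℝ := fun g x => lin u g (dir (a x) (b x))
  let D : Bs → (σ → ℝ) → (σ → ℝ) →L[ℝ] ℝ := fun x ω =>
    (tau 1 (thet u Z A Λ (a x) (b x) ω) * (Λ * A)) • ∑ g ∈ Zᶜ, (ν g x * s' g ω) • lin u g
  let H : (σ → ℝ) → Matrix Bs Bs ℝ := fun ω =>
    Matrix.of fun x y => ∑ g ∈ Zᶜ, ν g x * s' g ω * ν g y
  have hdet : ∀ ω, (Matrix.of fun x y => D x ω (dir (a y) (b y))).det =
      (∏ x, tau 1 (thet u Z A Λ (a x) (b x) ω) * (Λ * A)) * (H ω).det := by
    intro ω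
    rw [← Matrix.det_mul_column]
    congr 1
    ext x y
    simp [D, H, ν]
  have hH : ∀ ω, (H ω).IsHermitian := fun ω => by
    ext x y
    simp only [H, Matrix.conjTranspose_apply, Matrix.of_apply, star_trivial]
    exact Finset.sum_congr rfl fun g _ => by ring
  have hq : ∀ ω (v : Bs → ℝ), star v ⬝ᵥ (H ω).mulVec v =
      ∑ g ∈ Zᶜ, s' g ω * (∑ x, ν g x * v x) ^ 2 := by
    intro ω v
    simp only [H, dotProduct, Matrix.mulVec, Matrix.of_apply, star_trivial, Finset.sum_mul,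
      Finset.mul_sum, sq]
    rw [Finset.sum_comm (s := Zᶜ)]
    refine Finset.sum_congr rfl fun x _ => ?_
    rw [Finset.sum_comm (s := Zᶜ)]
    exact Finset.sum_congr rfl fun y _ => Finset.sum_congr rfl fun g _ => by ring
  have hpd : ∀ ω, (H ω).PosDef := by
    intro ω
    refine Matrix.PosDef.of_dotProduct_mulVec_pos (hH ω) fun v hv => ?_
    obtain ⟨x, hx⟩ := Function.ne_iff.1 hv
    rw [hq]
    refine Finset.sum_pos' (fun g _ => mul_nonneg (hs0 g ω).le (sq_nonneg _))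
      ⟨Sum.inl (a x), Finset.mem_compl.2 fun h => ?_, mul_pos (hs0 _ ω) (sq_pos_of_ne_zero ?_)⟩
    · obtain ⟨i, hi⟩ := hP.inr x
      simpa [nn, hi] using hP.ha x _ h
    · have : ∀ y, ν (Sum.inl (a x)) y = if y = x then 1 else 0 := by
        intro y
        have e1 := hP.ha x _ (hP.sub y.2)
        have e2 := hP.ha y _ (hP.sub y.2)
        have e3 := hP.hb y _ (hP.sub y.2)
        simp only [ν, lin_dir, nn, Sum.elim_inl]
        by_cases h : y = x
        · simp [h, (hP.ne x).symm]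
        · rw [if_neg fun e => h (Subtype.ext e)] at e1
          rw [if_pos rfl] at e2 e3
          have e4 : a y ≠ a x := fun e => by rw [e, e1] at e2; exact zero_ne_one e2
          have e5 : b y ≠ a x := fun e => by rw [e, e1] at e3; exact zero_ne_one e3
          simp [h, e4, e5]
      simpa [this] using hx
  have hab : ∀ x, ∀ g ∈ Z, nn u g (b x) = nn u g (a x) := fun x g hg => by
    rw [hP.ha x g hg, hP.hb x g hg]
  refine ⟨η, ∑ x, C * (Λ * A) * ∑ g ∈ Zᶜ, |ν g x| * ‖lin u g‖,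
    fun x ω => tau 0 (thet u Z A Λ (a x) (b x) ω), D, hη, fun x ω => ?_, fun x => ?_,
    fun x ω => ?_, fun x ω => ⟨tau_zero_nonneg _, tau_zero_le_one _⟩, fun ω => ?_,
    fun ω h1 h2 => ?_, ω₀, h0, ?_⟩
  · have h1 : HasFDerivAt (thet u Z A Λ (a x) (b x))
        ((Λ * A) • ∑ g ∈ Zᶜ, (ν g x * s' g ω) • lin u g) ω := by
      refine ((HasFDerivAt.fun_sum (u := Zᶜ) fun g _ =>
        ((hasDerivAt_sigmoid (-(A * zr u g ω))).comp_hasFDerivAt ω
          ((zr_hasFDerivAt u g ω).const_mul A).fun_neg).const_mul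
            (lin u g (dir (b x) (a x)))).const_mul Λ).congr_fderiv ?_
      rw [mul_smul, Finset.smul_sum (r := A)]
      congr 1
      refine Finset.sum_congr rfl fun g _ => ?_
      ext v
      simp [ν, s', lin_dir]
      ring
    exact ((tau_hasDerivAt 0 _).comp_hasFDerivAt ω h1).congr_fderiv (by simp [D, mul_smul])
  · simp only [D, thet, s']
    have := continuous_sigmoid
    fun_prop
  · refine le_trans ?_ (Finset.single_le_sum
      (f := fun x => C * (Λ * A) * ∑ g ∈ Zᶜ, |ν g x| * ‖lin u g‖)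
      (fun _ _ => by positivity) (Finset.mem_univ x))
    rw [norm_smul, Real.norm_eq_abs, abs_of_nonneg (mul_nonneg (tau_one_nonneg _) (by positivity))]
    refine mul_le_mul (mul_le_mul_of_nonneg_right (hC' _) (by positivity))
      ((norm_sum_le _ _).trans (Finset.sum_le_sum fun g _ => ?_)) (norm_nonneg _) (by positivity)
    rw [norm_smul, Real.norm_eq_abs, abs_mul, abs_of_pos (hs0 g ω)]
    exact mul_le_mul_of_nonneg_right (mul_le_of_le_one_right (abs_nonneg _) (hs1 g ω))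
      (norm_nonneg _)
  · rw [hdet]
    exact mul_nonneg (Finset.prod_nonneg fun x _ => mul_nonneg (tau_one_nonneg _) (by positivity))
      (hpd ω).det_pos.le
  · obtain ⟨x, h | h⟩ := hlab ω h1 h2
    · refine ⟨x, ?_, Or.inl ⟨tau_zero_eq_one h.1.le, h.2⟩⟩
      simp [D, tau_succ_eq_zero 0 (h.1.trans_le (le_abs_self _))]
    · rw [th_swap] at h
      refine ⟨x, ?_, Or.inr ⟨tau_zero_eq_zero (by linarith [h.1]), h.2⟩⟩
      simp [D, tau_succ_eq_zero 0 (h.1.trans_le (neg_le_abs _))]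
  · have hdeep : ∀ g, g ∉ Z → η < zr u g ω₀ := by
      by_contra h
      push Not at h
      obtain ⟨x, h | h⟩ := hlab ω₀ (h0.mono hη.le subset_rfl) h
      · linarith [h.1, hmin _ _ (hab x) fun g hg e => h.2 g hg (e ▸ hη.le)]
      · linarith [h.1, hmin _ _ (fun g hg => (hab x g hg).symm) fun g hg e => h.2 g hg (e ▸ hη.le)]
    refine ⟨hdeep, ?_⟩
    rw [hdet]
    refine mul_pos (Finset.prod_pos fun x _ => mul_pos ?_ (by positivity)) (hpd _).det_pos
    have e1 := hmin _ _ (hab x) fun g hg e => absurd (e ▸ hdeep g hg) hη.not_gt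
    have e2 := hmin _ _ (fun g hg => (hab x g hg).symm) fun g hg e =>
      absurd (e ▸ hdeep g hg) hη.not_gt
    rw [th_swap] at e2
    rw [show thet u Z A Λ (a x) (b x) ω₀ = 0 by linarith]
    exact tau_one_pos

end

end Pool.Agent.P.MP_b91a16_ag
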