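import Pool.Agent.P.MP_b91a16_ag.Transfer

/-! Coordinates of lattice points with respect to the simplicial fan. -/

set_option linter.unusedSectionVars false

open Filter Topology

namespace Pool.Agent.P.MP_b91a16_ag

noncomputable section

namespace RA

variable {σ ι : Type} [Fintype σ] [DecidableEq σ] [Fintype ι] [DecidableEq ι]

abbrev EV (σ : Type) : Type := (Option σ → ℝ) × (σ → ℝ)

def rc : Pt σ →+ EV σ where
  toFun p := (fun o => p.1 o, fun j => p.2 j)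
  map_zero' := by ext <;> simp
  map_add' := fun p q => by ext <;> simp

variable (u : ι → σ → ℕ)

def WW : (σ ⊕ ι → ℝ) →ₗ[ℝ] EV σ where
  toFun e := (fun o => ∑ i, e (Sum.inr i) * hat u (Sum.inr i) o, fun j => e (Sum.inl j))
  map_add' := fun e e' => by ext <;> simp [add_mul, Finset.sum_add_distrib]
  map_smul' := fun c e => by ext <;> simp [mul_assoc, Finset.mul_sum]

def ev : (σ → ℝ) →ₗ[ℝ] EV σ where
  toFun ν := (fun o => o.elim 0 ν, 0)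
  map_add' := fun e e' => Prod.ext (funext fun o => by cases o <;> simp) (by simp)
  map_smul' := fun c e => Prod.ext (funext fun o => by cases o <;> simp) (by simp)

def tt (j : σ) : EV σ →ₗ[ℝ] ℝ where
  toFun x := x.1 (some j) + x.2 j
  map_add' := fun x y => by simp [add_add_add_comm]
  map_smul' := fun c x => by simp [mul_add]

def ld (d : σ → ℝ) : EV σ →ₗ[ℝ] ℝ := ∑ j, d j • tt j

def lv (ω : σ → ℝ) : EV σ →ₗ[ℝ] ℝ := ld ω - LinearMap.proj none ∘ₗ LinearMap.fst ℝ _ _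

theorem tt_WW (j : σ) (e : σ ⊕ ι → ℝ) : tt j (WW u e) = ∑ g, e g * nn u g j := by
  simp [tt, WW, Fintype.sum_sum_type, nn, hat, add_comm]

theorem tt_ev (j : σ) (ν : σ → ℝ) : tt j (ev ν) = ν j := by simp [tt, ev]

theorem ld_WW (d : σ → ℝ) (e : σ ⊕ ι → ℝ) : ld d (WW u e) = ∑ g, e g * lin u g d := by
  simp only [ld, LinearMap.sum_apply, LinearMap.smul_apply, tt_WW, smul_eq_mul, lin_apply,
    Finset.mul_sum]
  rw [Finset.sum_comm]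
  exact Finset.sum_congr rfl fun _ _ => Finset.sum_congr rfl fun _ _ => by ring

theorem ld_ev (d ν : σ → ℝ) : ld d (ev ν) = ∑ j, ν j * d j := by
  simp [ld, tt_ev, mul_comm]

theorem lv_WW (ω : σ → ℝ) (e : σ ⊕ ι → ℝ) : lv ω (WW u e) = ∑ g, e g * zr u g ω := by
  simp only [lv, LinearMap.sub_apply, ld_WW, zr, mul_sub, Finset.sum_sub_distrib]
  simp [WW, hat, Fintype.sum_sum_type]

theorem lv_ev (ω ν : σ → ℝ) : lv ω (ev ν) = ∑ j, ν j * ω j := by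
  simp only [lv, LinearMap.sub_apply, ld_ev]
  simp [ev]

theorem rc_sh (g : σ ⊕ ι) : rc (sh u g) = WW u (Pi.single g 1) := by
  rcases g with j | i
  · ext j' <;> simp [rc, sh, WW, Pi.single_apply]
  · ext j' <;> simp [rc, sh, WW, Pi.single_apply]

variable (V : Finset (σ ⊕ ι))

def Cn (e : σ ⊕ ι → ℝ) : Prop := (∀ g, 0 ≤ e g) ∧ ∀ g ∉ V, e g = 0

/-- `p + ρ` has the nonnegative coordinates `e`, `ν`. -/
def Rp (ρ : σ ⊕ ι → ℝ) (p : Pt σ) (e : σ ⊕ ι → ℝ) (ν : σ → ℝ) : Prop :=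
  Cn V e ∧ (∀ j, 0 ≤ ν j) ∧ rc p + WW u ρ = WW u e + ev ν

def Amb (ρ : σ ⊕ ι → ℝ) : Set (Pt σ) := {p | ∃ e ν, Rp u V ρ p e ν}

def KC (A : Set (Pt σ)) : Prop := ∀ p ∈ A, ∀ z ∈ Amb u V 0, p + z ∈ A

structure Geo : Prop where
  inl : ∀ j, Sum.inl j ∈ V
  s1 : ∀ i, sh u (Sum.inr i) ∈ Amb u V 0
  s2 : ∀ ω, (∀ g, 0 ≤ zr u g ω) → ∀ c : σ ⊕ ι → ℝ, (∀ g, c g ≠ 0 → g ∈ V ∧ zr u g ω = 0) →
    (∀ j, ∑ g, c g * nn u g j = 0) → c = 0

variable {u V} {ρ ρ' e e' : σ ⊕ ι → ℝ} {ν ν' ω : σ → ℝ} {p p' : Pt σ}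

theorem Cn.add (h : Cn V e) (h' : Cn V e') : Cn V (e + e') :=
  ⟨fun g => add_nonneg (h.1 g) (h'.1 g), fun g hg => by simp [h.2 g hg, h'.2 g hg]⟩

theorem Cn.mono {V' : Finset (σ ⊕ ι)} (h : Cn V e) (h' : V ⊆ V') : Cn V' e :=
  ⟨h.1, fun g hg => h.2 g fun h => hg (h' h)⟩

theorem Cn.mem (h : Cn V e) {g : σ ⊕ ι} (hg : e g ≠ 0) : g ∈ V := by
  by_contra h'
  exact hg (h.2 g h')

theorem cn_zero : Cn V 0 := ⟨fun _ => le_rfl, fun _ _ => rfl⟩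

theorem cn_single {g : σ ⊕ ι} (hg : g ∈ V) : Cn V (Pi.single g 1) :=
  ⟨fun g' => by rw [Pi.single_apply]; positivity, fun _ h => Pi.single_eq_of_ne (ne_of_mem_of_not_mem hg h).symm _⟩

theorem Rp.add (h : Rp u V ρ p e ν) (h' : Rp u V ρ' p' e' ν') :
    Rp u V (ρ + ρ') (p + p') (e + e') (ν + ν') :=
  ⟨h.1.add h'.1, fun j => add_nonneg (h.2.1 j) (h'.2.1 j), by
    simp only [map_add]
    linear_combination (norm := abel) h.2.2 + h'.2.2⟩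

theorem Rp.add' (h : Rp u V ρ p e ν) (h' : Rp u V 0 p' e' ν') :
    Rp u V ρ (p + p') (e + e') (ν + ν') := by simpa using h.add h'

theorem Rp.mono {V' : Finset (σ ⊕ ι)} (h : Rp u V ρ p e ν) (h' : V ⊆ V') : Rp u V' ρ p e ν :=
  ⟨h.1.mono h', h.2⟩

theorem rp_sh {g : σ ⊕ ι} (hg : g ∈ V) : Rp u V 0 (sh u g) (Pi.single g 1) 0 :=
  ⟨cn_single hg, fun _ => le_rfl, by simp [rc_sh]⟩

theorem rp_zero : Rp u V 0 0 0 0 := ⟨cn_zero, fun _ => le_rfl, by simp⟩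

theorem kc_amb : KC u V (Amb u V ρ) := fun _ ⟨_, _, h⟩ _ ⟨_, _, h'⟩ => ⟨_, _, h.add' h'⟩

theorem Geo.sh_mem (h : Geo u V) : ∀ g, sh u g ∈ Amb u V 0
  | Sum.inl j => ⟨_, _, rp_sh (h.inl j)⟩
  | Sum.inr i => h.s1 i

theorem Geo.closed (h : Geo u V) {A : Set (Pt σ)} (hA : KC u V A) : Closed u A :=
  fun p hp g => hA p hp _ (h.sh_mem g)

theorem tight_of_lv (hω : ∀ g, 0 ≤ zr u g ω) (he : ∀ g, 0 ≤ e g) (hν : ∀ j, 0 ≤ ν j)
    (h : lv ω (WW u e + ev ν) = 0) :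
    (∀ g, e g ≠ 0 → zr u g ω = 0) ∧ ∀ j, ν j ≠ 0 → zr u (Sum.inl j) ω = 0 := by
  have h1 : ∀ g ∈ Finset.univ, 0 ≤ e g * zr u g ω := fun g _ => mul_nonneg (he g) (hω g)
  have h2 : ∀ j ∈ Finset.univ, 0 ≤ ν j * ω j := fun j _ =>
    mul_nonneg (hν j) (zr_inl u j ω ▸ hω _)
  rw [map_add, lv_WW, lv_ev, add_eq_zero_iff_of_nonneg (Finset.sum_nonneg h1) (Finset.sum_nonneg h2),
    Finset.sum_eq_zero_iff_of_nonneg h1, Finset.sum_eq_zero_iff_of_nonneg h2] at h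
  exact ⟨fun g hg => (mul_eq_zero.1 (h.1 g (Finset.mem_univ g))).resolve_left hg,
    fun j hj => zr_inl u j ω ▸ (mul_eq_zero.1 (h.2 j (Finset.mem_univ j))).resolve_left hj⟩

theorem lv_eq_zero (h : ∀ g, e g ≠ 0 → zr u g ω = 0) : lv ω (WW u e) = 0 := by
  rw [lv_WW]
  refine Finset.sum_eq_zero fun g _ => ?_
  by_cases hg : e g = 0
  · rw [hg, zero_mul]
  · rw [h g hg, mul_zero]

theorem Geo.uniq (hG : Geo u V) (hω : ∀ g, 0 ≤ zr u g ω)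
    (h1 : ∀ g, e g ≠ 0 → g ∈ V ∧ zr u g ω = 0) (h2 : ∀ j, ν j ≠ 0 → zr u (Sum.inl j) ω = 0)
    (h : WW u e + ev ν = 0) : e = 0 ∧ ν = 0 := by
  have h3 : ∀ j, e (Sum.inl j) = 0 := fun j => by simpa [WW, ev] using congrFun (congrArg Prod.snd h) j
  have := hG.s2 ω hω (Sum.elim ν fun i => e (Sum.inr i)) (by
    rintro (j | i) hg
    · exact ⟨hG.inl j, h2 j hg⟩
    · exact h1 _ hg) fun j => by
      have := congrArg (tt j) h
      rw [map_add, tt_WW, tt_ev] at this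
      simpa [Fintype.sum_sum_type, nn, h3, add_comm] using this
  refine ⟨funext ?_, funext fun j => congrFun this (Sum.inl j)⟩
  rintro (j | i)
  · exact h3 j
  · exact congrFun this (Sum.inr i)

theorem Geo.rigid (hG : Geo u V) (h : Rp u V ρ p e ν) (h' : Rp u V ρ p e' 0)
    (hω : ∀ g, 0 ≤ zr u g ω) (ht : ∀ g, e' g ≠ 0 → zr u g ω = 0) : e = e' ∧ ν = 0 := by
  have e1 : WW u e + ev ν = WW u e' := by simpa using h.2.2.symm.trans h'.2.2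
  obtain ⟨h1, h2⟩ := tight_of_lv hω h.1.1 h.2.1 (by rw [e1, lv_eq_zero ht])
  have := hG.uniq (e := e - e') hω (fun g hg => by
    by_cases h3 : e g = 0
    · have : e' g ≠ 0 := fun h4 => hg (by simp [h3, h4])
      exact ⟨h'.1.mem this, ht g this⟩
    · exact ⟨h.1.mem h3, h1 g h3⟩) h2 (by rw [map_sub, ← e1]; abel)
  exact ⟨sub_eq_zero.1 this.1, this.2⟩

/-- Coordinates of a summand of a point that lies on a face. -/
theorem Geo.rigid' (hG : Geo u V) {ζ : σ ⊕ ι → ℝ} (h : Rp u V ρ p e ν) (hz : Rp u V 0 p' ζ ν')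
    (h' : Rp u V ρ (p + p') e' 0) (hω : ∀ g, 0 ≤ zr u g ω) (ht : ∀ g, e' g ≠ 0 → zr u g ω = 0) :
    e' = e + ζ ∧ ν = 0 ∧ ν' = 0 := by
  obtain ⟨h1, h2⟩ := hG.rigid (h.add' hz) h' hω ht
  exact ⟨h1.symm, (add_eq_zero_iff_of_nonneg h.2.1 hz.2.1).1 h2⟩

theorem ne_zero_add (he : ∀ g, 0 ≤ e g) (he' : ∀ g, 0 ≤ e' g) {g : σ ⊕ ι} :
    (e + e') g ≠ 0 ↔ e g ≠ 0 ∨ e' g ≠ 0 := by
  rw [Pi.add_apply, Ne, add_eq_zero_iff_of_nonneg (he g) (he' g), not_and_or]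

theorem Geo.zr_eq (hG : Geo u V) (g : σ ⊕ ι) : ∃ κ ν, Rp u V 0 (sh u g) κ ν ∧
    (∀ ω, zr u g ω = lv ω (WW u κ + ev ν)) ∧ ∀ d, lin u g d = ld d (WW u κ + ev ν) := by
  obtain ⟨κ, ν, h⟩ := hG.sh_mem g
  have := h.2.2
  rw [map_zero, add_zero, rc_sh] at this
  exact ⟨κ, ν, h, fun ω => by simp [← this, lv_WW, Pi.single_apply],
    fun ω => by simp [← this, ld_WW, Pi.single_apply]⟩

theorem Geo.nonneg (hG : Geo u V) (h : ∀ g ∈ V, 0 ≤ zr u g ω) (g : σ ⊕ ι) : 0 ≤ zr u g ω := by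
  obtain ⟨κ, ν, h1, h2, -⟩ := hG.zr_eq g
  rw [h2, map_add, lv_WW, lv_ev]
  refine add_nonneg (Finset.sum_nonneg fun g _ => ?_) (Finset.sum_nonneg fun j _ =>
    mul_nonneg (h1.2.1 j) (zr_inl u j ω ▸ h _ (hG.inl j)))
  by_cases hg : g ∈ V
  · exact mul_nonneg (h1.1.1 g) (h g hg)
  · simp [h1.1.2 g hg]

theorem Geo.go (hG : Geo u V) (hω : ∀ g, 0 ≤ zr u g ω) {d : σ → ℝ}
    (hd : ∀ g ∈ V, zr u g ω = 0 → 0 ≤ lin u g d) : ∃ s : ℝ, 0 < s ∧ (∀ g, 0 ≤ zr u g (ω + s • d)) ∧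
      ∀ g, zr u g (ω + s • d) = 0 → zr u g ω = 0 ∧ lin u g d = 0 := by
  obtain ⟨s, h1, h2⟩ := ((move (v := d) hω fun g hg => by
    obtain ⟨κ, ν, h1, h2, h3⟩ := hG.zr_eq g
    obtain ⟨h4, h5⟩ := tight_of_lv hω h1.1.1 h1.2.1 (h2 ω ▸ hg)
    rw [h3, map_add, ld_WW, ld_ev]
    refine add_nonneg (Finset.sum_nonneg fun g _ => ?_) (Finset.sum_nonneg fun j _ => ?_)
    · by_cases hg : κ g = 0
      · simp [hg]
      · exact mul_nonneg (h1.1.1 g) (hd g (h1.1.mem hg) (h4 g hg))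
    · by_cases hj : ν j = 0
      · simp [hj]
      · exact mul_nonneg (h1.2.1 j) (by simpa [lin_apply, nn] using hd _ (hG.inl j) (h5 j hj))).and
    self_mem_nhdsWithin).exists
  exact ⟨s, h2, h1⟩

theorem Geo.dual (hG : Geo u V) (hω : ∀ g, 0 ≤ zr u g ω) (r : σ ⊕ ι → ℝ) :
    ∃ d : σ → ℝ, ∀ g ∈ V, zr u g ω = 0 → lin u g d = r g := by
  obtain ⟨d, hd⟩ := prescribe (fun g j => (nn u g j : ℝ)) (V ∩ tight u ω) (fun c h1 h2 =>
    hG.s2 ω hω c (fun g hg => by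
      by_contra h
      exact hg (h1 g (by simpa [mem_tight] using h))) h2) r
  exact ⟨d, fun g hg hg' => by
    simpa [lin_apply, mul_comm] using hd g (Finset.mem_inter.2 ⟨hg, mem_tight.2 hg'⟩)⟩

theorem Geo.dualQ (hG : Geo u V) (hω : ∀ g, 0 ≤ zr u g ω) (r : σ ⊕ ι → ℚ) :
    ∃ ξ : σ → ℚ, ∀ g ∈ V, zr u g ω = 0 → ∑ j, ξ j * nn u g j = r g := by
  obtain ⟨d, hd⟩ := prescribe (fun g j => (nn u g j : ℚ)) (V ∩ tight u ω) (fun c h1 h2 => by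
    have := hG.s2 ω hω (fun g => c g) (fun g hg => by
      by_contra h
      exact hg (by simp [h1 g (by simpa [mem_tight] using h)])) fun j => by exact_mod_cast h2 j
    exact funext fun g => by simpa using congrFun this g) r
  exact ⟨d, fun g hg hg' => hd g (Finset.mem_inter.2 ⟨hg, mem_tight.2 hg'⟩)⟩

end RA

end

end Pool.Agent.P.MP_b91a16_ag
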