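import Pool.Agent.P.MP_b91a16_ag.Strata

/-! The coefficients of the motivic zeta function as finite sums over orders of arcs. -/

set_option linter.unusedSectionVars false

open MvPolynomial

namespace Pool.Agent.P.MP_b91a16_ag

noncomputable section

variable {k : Type} [Field k] {σ ι : Type} [Fintype σ] [DecidableEq σ] [Fintype ι] [DecidableEq ι]
variable (u : ι → σ → ℕ) (a : ι → k)

def fpoly : MvPolynomial σ k := ∑ i, C (a i) * ∏ j, X j ^ u i j

/-- Order of the `i`-th monomial along arcs of orders `w j + 1`. -/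
def oo (w : σ → ℕ) (i : ι) : ℕ := ∑ j, (w j + 1) * u i j

def XP (m : ℕ) : Pred k (σ × ℕ) := fun _ _ _ x =>
  ∀ p ≤ m, PowerSeries.coeff p (GG u a 0 fun j => PowerSeries.X * ser x j) =
    if p = m then 1 else 0

theorem GG_congr {K : Type} [CommRing K] [Algebra k K] (e : ι → ℕ) (N : ℕ)
    {y y' : σ → PowerSeries K} (h : ∀ j, PowerSeries.X ^ N ∣ y j - y' j) (p : ℕ) (hp : p < N) :
    PowerSeries.coeff p (GG u a e y) = PowerSeries.coeff p (GG u a e y') := by
  have h1 : ∀ j, Ideal.Quotient.mk (Ideal.span {(PowerSeries.X : PowerSeries K) ^ N}) (y j) =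
      Ideal.Quotient.mk _ (y' j) := fun j => Ideal.Quotient.eq.2 (Ideal.mem_span_singleton.2 (h j))
  have h2 : Ideal.Quotient.mk (Ideal.span {(PowerSeries.X : PowerSeries K) ^ N}) (GG u a e y) =
      Ideal.Quotient.mk _ (GG u a e y') := by
    simp only [GG, map_sum, map_mul, map_pow, map_prod, h1]
  have h3 := PowerSeries.X_pow_dvd_iff.1 (Ideal.mem_span_singleton.1 (Ideal.Quotient.eq.1 h2)) p hp
  rwa [map_sub, sub_eq_zero] at h3

theorem hasVol_XP {n : ℕ} (u : ι → Fin n → ℕ) (m : ℕ) :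
    HasVol (XP u a m) (algebraMap (K0 k) (Mot k)
      (cls k (MvPolynomial (Fin n × Fin m) k ⧸ contactIdeal (fpoly u a) m)) * Linv k ^ (m * n)) := by
  let e : Fin n × Fin m ↪ Fin n × ℕ := ⟨fun p => (p.1, p.2.1), fun p q h =>
    Prod.ext (Prod.mk.inj h).1 (Fin.ext (Prod.mk.inj h).2)⟩
  have h := (hasVol_quotient (k := k) fun p : Fin (m + 1) =>
    (MvPolynomial.aeval (jet k n m) (fpoly u a) - Polynomial.X ^ m).coeff p.1).comap e
  rw [Fintype.card_prod, Fintype.card_fin, Fintype.card_fin, mul_comm n m] at h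
  refine h.congr fun K _ _ x => ?_
  let Φ : Polynomial (MvPolynomial (Fin n × Fin m) k) →+* PowerSeries K :=
    Polynomial.coeToPowerSeries.ringHom.comp
      (Polynomial.mapRingHom (aeval (x ∘ e) : _ →ₐ[k] K).toRingHom)
  have hΦ : ∀ q p, aeval (x ∘ e) (Polynomial.coeff q p) = PowerSeries.coeff p (Φ q) := by
    intro q p
    simp [Φ]
  have h1 : Φ (MvPolynomial.aeval (jet k n m) (fpoly u a) - Polynomial.X ^ m) =
      GG u a 0 (fun j => Φ (jet k n m j)) - PowerSeries.X ^ m := by
    have hC : ∀ c : k, Φ (algebraMap k _ c) = PowerSeries.C (algebraMap k K c) := fun c => by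
      simp [Φ, Polynomial.algebraMap_apply]
    have hX : Φ Polynomial.X = PowerSeries.X := by simp [Φ]
    simp only [fpoly, GG, map_sub, map_sum, map_mul, map_pow, map_prod, aeval_C, aeval_X, hC, hX,
      Pi.zero_apply, pow_zero, one_mul]
  have h2 : ∀ j, PowerSeries.X ^ (m + 1) ∣ Φ (jet k n m j) - PowerSeries.X * ser x j := by
    intro j
    rw [PowerSeries.X_pow_dvd_iff]
    intro p hp
    rw [map_sub, ← hΦ, sub_eq_zero]
    simp only [jet, Polynomial.finsetSum_coeff, Polynomial.coeff_monomial]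
    rcases p with _ | p
    · simp
    · rw [Finset.sum_eq_single (⟨p, by omega⟩ : Fin m)]
      · simp only [if_true, aeval_X, PowerSeries.coeff_succ_X_mul, ser, PowerSeries.coeff_mk]
        rfl
      · intro l _ hl
        rw [if_neg]
        intro h
        exact hl (Fin.ext (by simpa using h))
      · simp
  simp only [hΦ, h1, map_sub, sub_eq_zero, PowerSeries.coeff_X_pow, XP]
  constructor
  · intro H p hp
    rw [← GG_congr u a 0 (m + 1) h2 p (by omega)]
    exact H ⟨p, by omega⟩
  · intro H p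
    rw [GG_congr u a 0 (m + 1) h2 p p.2]
    exact H p (by omega)

def lowSet (w : σ → ℕ) : Finset (σ × ℕ) :=
  (Finset.univ.sigma fun j => Finset.range (w j)).map (Equiv.sigmaEquivProd σ ℕ).toEmbedding

theorem mem_lowSet (w : σ → ℕ) (p : σ × ℕ) : p ∈ lowSet w ↔ p.2 < w p.1 := by
  simp [lowSet]

theorem card_lowSet (w : σ → ℕ) : (lowSet w).card = ∑ j, w j := by
  simp [lowSet]

def shiftEmb (w : σ → ℕ) : σ × ℕ ↪ σ × ℕ :=
  ⟨fun p => (p.1, p.2 + w p.1), fun p q h => by
    obtain ⟨h1, h2⟩ := Prod.mk.inj h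
    refine Prod.ext h1 ?_
    rw [h1] at h2
    omega⟩

@[simp] theorem shiftEmb_apply (w : σ → ℕ) (p : σ × ℕ) :
    shiftEmb w p = (p.1, p.2 + w p.1) := rfl

theorem GG_shift {K : Type} [CommRing K] [Algebra k K] (w : σ → ℕ) (x : σ × ℕ → K)
    (hx : ∀ p ∈ lowSet w, x p = 0) :
    GG u a 0 (fun j => PowerSeries.X * ser x j) = GG u a (oo u w) (ser (x ∘ shiftEmb w)) := by
  have h1 : ∀ j, PowerSeries.X * ser x j = PowerSeries.X ^ (w j + 1) * ser (x ∘ shiftEmb w) j := by
    intro j
    rw [pow_succ', mul_assoc]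
    congr 1
    ext p
    rw [PowerSeries.coeff_X_pow_mul']
    split_ifs with h
    · simp [ser, Nat.sub_add_cancel h]
    · simp only [ser, PowerSeries.coeff_mk]
      exact hx _ ((mem_lowSet w _).2 (by simpa using h))
  simp only [GG, h1, mul_pow, Finset.prod_mul_distrib, ← pow_mul, Finset.prod_pow_eq_pow_sum, oo,
    Pi.zero_apply, pow_zero, one_mul]

/-- The coordinates whose order is visible at level `m`. -/
def JJ (m : ℕ) (w : σ → ℕ) : Finset σ := Finset.univ.filter fun j => w j < m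

theorem hasVol_XP_sum (m : ℕ) (v : (σ → ℕ) → Mot k)
    (hv : ∀ w, (∀ j, w j ≤ m) → HasVol (YP u a (oo u w) (JJ m w) m) (v w)) :
    HasVol (XP u a m) (∑ w ∈ Fintype.piFinset fun _ : σ => Finset.range (m + 1),
      Linv k ^ (∑ j, w j) * v w) := by
  refine (hasVol_sum _ (fun w K _ _ x => YP u a (oo u w) (JJ m w) m K (x ∘ shiftEmb w) ∧
    ∀ p ∈ lowSet w, x p = 0) _ (fun w hw => ?_) ?_).congr fun K _ _ x => ?_
  · rw [← card_lowSet]
    refine ((hv w fun j => Nat.lt_succ_iff.1 (Finset.mem_range.1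
      (Fintype.mem_piFinset.1 hw j))).comap (shiftEmb w)).and_forall_zero _ ?_
    intro p hp K _ _ x c hx
    have : Function.update x p c ∘ shiftEmb w = x ∘ shiftEmb w := by
      funext q
      refine Function.update_of_ne ?_ _ _
      rintro rfl
      rw [mem_lowSet] at hp
      simp at hp
    rwa [this]
  · have aux : ∀ (K : Type) [Field K] [Algebra k K] (x : σ × ℕ → K) (w w' : σ → ℕ),
        (∀ j, w' j ≤ m) → YP u a (oo u w) (JJ m w) m K (x ∘ shiftEmb w) →
        (∀ p ∈ lowSet w', x p = 0) → ∀ j, w' j ≤ w j := by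
      intro K _ _ x w w' hw' h1 h2 j
      by_contra hlt
      push Not at hlt
      refine h1.1 j (Finset.mem_filter.2 ⟨Finset.mem_univ _, hlt.trans_le (hw' j)⟩) ?_
      exact h2 _ ((mem_lowSet w' _).2 (by simpa using hlt))
    intro K _ _ x w hw w' hw' h h'
    funext j
    exact le_antisymm
      (aux K x w' w (fun j => Nat.lt_succ_iff.1 (Finset.mem_range.1
        (Fintype.mem_piFinset.1 hw j))) h'.1 h.2 j)
      (aux K x w w' (fun j => Nat.lt_succ_iff.1 (Finset.mem_range.1
        (Fintype.mem_piFinset.1 hw' j))) h.1 h'.2 j)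
  · constructor
    · rintro ⟨w, -, h1, h2⟩
      unfold XP
      rw [GG_shift u a w x h2]
      exact h1.2
    · intro h
      classical
      have hex : ∀ j, ∃ l, l = m ∨ x (j, l) ≠ 0 := fun j => ⟨m, Or.inl rfl⟩
      let w : σ → ℕ := fun j => Nat.find (hex j)
      have hw : ∀ j, w j ≤ m := fun j => Nat.find_min' (hex j) (Or.inl rfl)
      have h2 : ∀ p ∈ lowSet w, x p = 0 := by
        intro p hp
        rw [mem_lowSet] at hp
        have := Nat.find_min (hex p.1) hp
        push Not at this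
        exact this.2
      refine ⟨w, Fintype.mem_piFinset.2 fun j => Finset.mem_range.2 (Nat.lt_succ_of_le (hw j)),
        ⟨fun j hj => ?_, ?_⟩, h2⟩
      · have h3 := (Finset.mem_filter.1 hj).2
        rcases Nat.find_spec (hex j) with h4 | h4
        · exact absurd h4 h3.ne
        · simpa using h4
      · unfold XP at h
        rwa [GG_shift u a w x h2] at h

theorem sum_weights {R : Type*} [CommRing R] (x : R) (m : ℕ) :
    ∑ w ∈ Fintype.piFinset fun _ : σ => Finset.range (m + 1),
      x ^ (∑ j, w j) * (1 - x) ^ (JJ m w).card = 1 := by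
  have h1 : ∀ w : σ → ℕ, x ^ (∑ j, w j) * (1 - x) ^ (JJ m w).card =
      ∏ j, (x ^ w j * if w j < m then 1 - x else 1) := by
    intro w
    rw [Finset.prod_mul_distrib, Finset.prod_pow_eq_pow_sum, Finset.prod_ite, Finset.prod_const,
      Finset.prod_const_one, mul_one, JJ]
  have h2 : ∑ l ∈ Finset.range (m + 1), (x ^ l * if l < m then 1 - x else 1) = 1 := by
    rw [Finset.sum_range_succ, if_neg (lt_irrefl m), Finset.sum_congr rfl fun l hl => by
      rw [if_pos (Finset.mem_range.1 hl)], ← Finset.sum_mul]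
    have := mul_neg_geom_sum x m
    linear_combination this
  simp only [h1]
  rw [← Finset.prod_univ_sum (fun _ : σ => Finset.range (m + 1))
    fun _ l => x ^ l * if l < m then 1 - x else 1]
  simp only [h2, Finset.prod_const_one]

/-- The set of monomials of order exactly `N`. -/
def II (w : σ → ℕ) (N : ℕ) : Finset ι := Finset.univ.filter fun i => oo u w i = N

theorem mem_JJ_of_le {m : ℕ} {w : σ → ℕ} {i : ι} (hi : oo u w i ≤ m) {j : σ} (hj : u i j ≠ 0) :
    j ∈ JJ m w := by
  have h1 : (w j + 1) * u i j ≤ oo u w i :=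
    Finset.single_le_sum (f := fun j => (w j + 1) * u i j) (fun _ _ => Nat.zero_le _)
      (Finset.mem_univ j)
  have h2 : w j + 1 ≤ (w j + 1) * u i j := Nat.le_mul_of_pos_right _ (Nat.pos_of_ne_zero hj)
  exact Finset.mem_filter.2 ⟨Finset.mem_univ _, by omega⟩

def rhs (m : ℕ) : Mot k :=
  Linv k ^ (m + 1) + ∑ N ∈ Finset.range (m + 1), Linv k ^ (m - N) *
    ∑ w ∈ Fintype.piFinset fun _ : σ => Finset.range (m + 1),
      if ∀ i, N ≤ oo u w i then Linv k ^ (∑ j, w j) *
        ((1 - Linv k) ^ (JJ m w \ supp u (II u w N)).card *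
          pp u a (II u w N) (if N = m then 1 else 0)) else 0

theorem contact_formula {n : ℕ} (u : ι → Fin n → ℕ)
    (hu : ∀ w i₀, (∀ i, oo u w i₀ ≤ oo u w i) → NDI u a (II u w (oo u w i₀))) (m : ℕ) :
    algebraMap (K0 k) (Mot k)
      (cls k (MvPolynomial (Fin n × Fin m) k ⧸ contactIdeal (fpoly u a) m)) * Linv k ^ (m * n) =
    rhs u a m := by
  rw [(hasVol_XP a u m).unique (hasVol_XP_sum u a m _ fun w _ =>
    hasVol_YP' u a (oo u w) (hu w) m (JJ m w) fun i hi j hj => mem_JJ_of_le u hi hj), rhs]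
  simp only [mul_add, Finset.sum_add_distrib, ← mul_assoc]
  rw [← Finset.sum_mul, sum_weights, one_mul, add_right_inj]
  simp only [Finset.mul_sum]
  rw [Finset.sum_comm]
  refine Finset.sum_congr rfl fun N _ => Finset.sum_congr rfl fun w _ => ?_
  simp only [II]
  split_ifs <;> ring

end

end Pool.Agent.P.MP_b91a16_ag
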