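import Pool.Agent.P.MP_b91a16_ag.Good

/-! Apex-free sets of monomials and the real generating series attached to them. -/

set_option linter.unusedSectionVars false

open MvPolynomial

namespace Pool.Agent.P.MP_b91a16_ag

noncomputable section

variable {σ ι : Type} [Fintype σ] [DecidableEq σ] [Fintype ι] [DecidableEq ι]
variable (u : ι → σ → ℕ)

theorem hasSum_of_eq {α : Type} {f g : α → ℝ} {c : ℝ} (h : HasSum f c) (e : ∀ y, g y = f y) :
    HasSum g c := (funext e : g = f) ▸ h

def ApexFree (R : Finset ι) : Prop := ∀ i ∈ R, ∀ j, u i j = 1 → ∃ i' ∈ R, i' ≠ i ∧ u i' j ≠ 0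

open Classical in
def core (I : Finset ι) : Finset ι := (I.powerset.filter (ApexFree u)).biUnion id

theorem mem_core {I : Finset ι} {i : ι} : i ∈ core u I ↔ ∃ R, R ⊆ I ∧ ApexFree u R ∧ i ∈ R := by
  simp [core, and_assoc]

theorem core_subset (I : Finset ι) : core u I ⊆ I := fun _ hi => by
  obtain ⟨R, h1, -, h2⟩ := (mem_core u).1 hi
  exact h1 h2

theorem core_eq_self {I : Finset ι} (h : ApexFree u I) : core u I = I :=
  (core_subset u I).antisymm fun _ hi => (mem_core u).2 ⟨I, le_rfl, h, hi⟩

theorem core_insert {I : Finset ι} {i : ι} {j : σ} (hij : u i j = 1) (hI : ∀ i' ∈ I, u i' j = 0) :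
    core u (insert i I) = core u I := by
  ext i₀
  rw [mem_core, mem_core]
  constructor
  · rintro ⟨R, h1, h2, h3⟩
    refine ⟨R, fun i' hi' => ?_, h2, h3⟩
    rcases Finset.mem_insert.1 (h1 hi') with rfl | h
    · obtain ⟨i'', h4, h5, h6⟩ := h2 _ hi' j hij
      exact absurd (hI i'' ((Finset.mem_insert.1 (h1 h4)).resolve_left h5)) h6
    · exact h
  · rintro ⟨R, h1, h2, h3⟩
    exact ⟨R, h1.trans (Finset.subset_insert _ _), h2, h3⟩

theorem exists_apex {I : Finset ι} (h : ¬ ApexFree u I) :
    ∃ (I' : Finset ι) (i : ι) (j : σ), i ∉ I' ∧ I = insert i I' ∧ u i j = 1 ∧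
      ∀ i' ∈ I', u i' j = 0 := by
  unfold ApexFree at h
  push Not at h
  obtain ⟨i, hi, j, hij, h⟩ := h
  exact ⟨I.erase i, i, j, Finset.notMem_erase _ _, (Finset.insert_erase hi).symm, hij,
    fun i' hi' => h i' (Finset.mem_of_mem_erase hi') (Finset.ne_of_mem_erase hi')⟩

theorem pp_core_aux {k : Type} [Field k] (a : ι → k) (ha : ∀ i, a i ≠ 0) (I : Finset ι) :
    ∃ e, (supp u I).card = (supp u (core u I)).card + (I \ core u I).card + e ∧
      ∀ d, pp u a I d =
        (-Linv k) ^ (I \ core u I).card * (1 - Linv k) ^ e * pp u a (core u I) d := by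
  induction I using Finset.strongInduction with
  | H I ih =>
  by_cases h : ApexFree u I
  · exact ⟨0, by simp [core_eq_self u h], fun d => by simp [core_eq_self u h]⟩
  · obtain ⟨I', i, j, hi, rfl, hij, hI⟩ := exists_apex u h
    obtain ⟨e, he, hp⟩ := ih I' (Finset.ssubset_insert hi)
    obtain ⟨e', he', hp'⟩ := pp_insert u a ha hi hij hI
    have hc : (insert i I' \ core u I').card = (I' \ core u I').card + 1 := by
      rw [Finset.insert_sdiff_of_notMem _ fun h => hi (core_subset u _ h),
        Finset.card_insert_of_notMem fun h => hi (Finset.mem_sdiff.1 h).1]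
    rw [core_insert u hij hI, hc]
    refine ⟨e + e', by omega, fun d => ?_⟩
    rw [hp', hp]
    ring

def ex (I : Finset ι) : ℕ := (supp u I).card - ((supp u (core u I)).card + (I \ core u I).card)

theorem card_supp_eq (I : Finset ι) :
    (supp u I).card = (supp u (core u I)).card + (I \ core u I).card + ex u I := by
  obtain ⟨e, he, -⟩ := pp_core_aux u (k := ℚ) (fun _ => 1) (fun _ => one_ne_zero) I
  unfold ex
  omega

theorem pp_core {k : Type} [Field k] (a : ι → k) (ha : ∀ i, a i ≠ 0) (I : Finset ι) (d : k) :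
    pp u a I d =
      (-Linv k) ^ (I \ core u I).card * (1 - Linv k) ^ ex u I * pp u a (core u I) d := by
  obtain ⟨e, he, hp⟩ := pp_core_aux u a ha I
  have : ex u I = e := by
    unfold ex
    omega
  rw [this, hp]

theorem exists_moebius (s : Finset ι → ℝ)
    (hs : ∀ (I : Finset ι) (i : ι) (j : σ), u i j = 1 → (∀ i' ∈ I, u i' j = 0) →
      s (insert i I) = s I) :
    ∃ μ : Finset ι → ℝ, (∀ I, s I = ∑ R ∈ I.powerset, μ R) ∧ ∀ R, ¬ ApexFree u R → μ R = 0 := by
  let μ : Finset ι → ℝ := Finset.strongInduction fun I ih =>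
    s I - ∑ R ∈ (I.powerset.erase I).attach, ih R.1 (by
      have := Finset.mem_erase.1 R.2
      exact lt_of_le_of_ne (Finset.mem_powerset.1 this.2) this.1)
  have hμ : ∀ I, s I = ∑ R ∈ I.powerset, μ R := by
    intro I
    have : μ I = s I - ∑ R ∈ I.powerset.erase I, μ R := by
      rw [← Finset.sum_attach]
      exact Finset.strongInduction_eq _ I
    rw [← Finset.add_sum_erase _ _ (Finset.mem_powerset_self I), this]
    ring
  refine ⟨μ, hμ, fun R => ?_⟩
  induction R using Finset.strongInduction with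
  | H R ih =>
  intro h
  obtain ⟨I, i, j, hi, rfl, hij, hI⟩ := exists_apex u h
  have h1 := hs I i j hij hI
  rw [hμ, hμ I, Finset.sum_powerset_insert hi, add_eq_left,
    ← Finset.add_sum_erase _ _ (Finset.mem_powerset_self I), Finset.sum_eq_zero, add_zero] at h1
  · exact h1
  · intro R' hR'
    obtain ⟨h2, h3⟩ := Finset.mem_erase.1 hR'
    rw [Finset.mem_powerset] at h3
    refine ih _ ?_ fun hfree => ?_
    · refine lt_of_le_of_ne (Finset.insert_subset_insert i h3) fun h => h2 ?_
      have := congrArg (·.erase i) h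
      simpa only [Finset.erase_insert hi, Finset.erase_insert fun h => hi (h3 h)] using this
    · obtain ⟨i', h4, h5, h6⟩ := hfree i (Finset.mem_insert_self _ _) j hij
      exact h6 (hI i' (h3 ((Finset.mem_insert.1 h4).resolve_left h5)))

def pR (x : ℝ) (R : Finset ι) : MvPolynomial (σ ⊕ ι) ℝ :=
  xZ (R.map Function.Embedding.inr) * ∏ i ∈ Rᶜ, (X (Sum.inr i) - C x)

theorem eta_pR (x : ℝ) (R : Finset ι) (w : σ → ℕ) (N : ℕ) :
    (-x) ^ R.card * eta (zz u w N) (pR x R) =
      if (∀ i, N ≤ oo u w i) ∧ R ⊆ II u w N then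
        (-x) ^ (II u w N).card * (1 - x) ^ (II u w N)ᶜ.card else 0 := by
  have e : (pR x R : MvPolynomial (σ ⊕ ι) ℝ) = monomial 0 1 *
      ∏ g ∈ Finset.univ.map Function.Embedding.inr,
        (C (Sum.elim (fun _ => 0) (fun i => if i ∈ R then 1 else -x) g) +
          C (Sum.elim (fun _ => 0) (fun i => if i ∈ R then (-1 : ℝ) else 1) g) * X g) := by
    rw [pR, xZ, Finset.prod_map, Finset.prod_map, ← Finset.prod_mul_prod_compl R]
    simp only [Function.Embedding.inr_apply, Sum.elim_inr]
    rw [show (monomial 0 1 : MvPolynomial (σ ⊕ ι) ℝ) = 1 from rfl, one_mul]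
    congr 1
    · exact Finset.prod_congr rfl fun i hi => by simp [hi, sub_eq_add_neg]
    · refine Finset.prod_congr rfl fun i hi => ?_
      simp only [if_neg (Finset.mem_compl.1 hi), map_neg, map_one]
      ring
  rw [e, eta_prod, Fintype.prod_sum_type]
  simp only [Finset.mem_map, Finset.mem_univ, Function.Embedding.inr_apply, true_and,
    reduceCtorEq, exists_false, if_false, Finsupp.coe_zero, Pi.zero_apply, Nat.cast_zero, zz,
    Sum.elim_inl, Nat.cast_nonneg, if_true, Finset.prod_const_one, one_mul, Sum.inr.injEq,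
    exists_eq, Sum.elim_inr, zero_add]
  split_ifs with h
  · obtain ⟨h1, h2⟩ := h
    rw [← Finset.card_sdiff_add_card_eq_card h2, pow_add, mul_comm ((-x) ^ (II u w N \ R).card),
      mul_assoc, ← Finset.prod_mul_prod_compl (II u w N), ← Finset.prod_sdiff h2]
    congr 1
    rw [← Finset.prod_const, ← Finset.prod_const, Finset.prod_eq_one (s := R), mul_one]
    · congr 1
      · refine Finset.prod_congr rfl fun i hi => ?_
        obtain ⟨h3, h4⟩ := Finset.mem_sdiff.1 hi
        have : oo u w i = N := (Finset.mem_filter.1 h3).2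
        simp [h4, this]
      · refine Finset.prod_congr rfl fun i hi => ?_
        have h3 : i ∉ II u w N := Finset.mem_compl.1 hi
        have h4 : oo u w i ≠ N := fun h => h3 (Finset.mem_filter.2 ⟨Finset.mem_univ _, h⟩)
        have h5 := h1 i
        rw [if_neg fun h => h3 (h2 h), if_neg fun h => h3 (h2 h), if_pos (by omega),
          if_pos (by omega)]
        ring
    · intro i hi
      have : oo u w i = N := (Finset.mem_filter.1 (h2 hi)).2
      simp [hi, this]
  · rw [mul_eq_zero]
    right
    rw [not_and_or] at h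
    by_cases h1 : ∀ i, N ≤ oo u w i
    · obtain ⟨i, hi, hi'⟩ := Finset.not_subset.1 (h.resolve_left (not_not.2 h1))
      have h4 : oo u w i ≠ N := fun h => hi' (Finset.mem_filter.2 ⟨Finset.mem_univ _, h⟩)
      have h5 := h1 i
      refine Finset.prod_eq_zero (Finset.mem_univ i) ?_
      rw [if_pos hi, if_pos hi, if_pos (by omega), if_pos (by omega)]
      ring
    · push Not at h1
      obtain ⟨i, hi⟩ := h1
      refine Finset.prod_eq_zero (Finset.mem_univ i) ?_
      rw [if_neg (show ¬ (0 : ℤ) ≤ _ by omega), if_neg (show ¬ (1 : ℤ) ≤ _ by omega)]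
      ring

/-- The summand of the series attached to the apex-free set `R`. -/
def th (x : ℝ) (R : Finset ι) (N : ℕ) (w : σ → ℕ) : ℝ :=
  if (∀ i, N ≤ oo u w i) ∧ core u (II u w N) = R then
    (-x) ^ (II u w N).card * (1 - x) ^ (II u w N)ᶜ.card else 0

theorem exists_series {x : ℝ} (h0 : 0 < x) (h1 : x < 1) {Al : ℕ × ℕ → Prop} (hR : RootHyp u Al)
    (R₀ : Finset ι) : ∃ F : PowerSeries ℝ,
      (∀ N, HasSum (fun w : σ → ℕ => x ^ (∑ j, w j) * th u x R₀ N w) (PowerSeries.coeff N F)) ∧
      ∃ D ∈ AlM x Al, (D : PowerSeries ℝ) * F ∈ PolyS := by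
  obtain ⟨μ, hμ, hμ0⟩ := exists_moebius u (fun I => if core u I = R₀ then 1 else 0)
    fun I i j hij hI => by rw [core_insert u hij hI]
  refine ⟨∑ R, (μ R * (-x) ^ R.card) • SS u x (pR x R), fun N => ?_, ?_⟩
  · have := hasSum_sum (s := Finset.univ) fun R _ =>
      (hasSum_SS u h0.le h1 (pR x R) N).mul_left (μ R * (-x) ^ R.card)
    simp only [map_sum, map_smul, smul_eq_mul]
    refine hasSum_of_eq this fun w => ?_
    have e : ∀ R, μ R * (-x) ^ R.card * (x ^ (∑ j, w j) * eta (zz u w N) (pR x R)) =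
        x ^ (∑ j, w j) * (μ R * ((-x) ^ R.card * eta (zz u w N) (pR x R))) := fun R => by ring
    simp only [e, eta_pR, ← Finset.mul_sum]
    congr 1
    unfold th
    by_cases h : ∀ i, N ≤ oo u w i
    · have h2 := hμ (II u w N)
      simp only [h, implies_true, true_and, mul_ite, mul_zero]
      rw [← Finset.sum_filter, ← Finset.sum_mul,
        show Finset.univ.filter (fun R => R ⊆ II u w N) = (II u w N).powerset by ext; simp, ← h2]
      split_ifs <;> simp
    · simp [h]
  · refine exists_AlM_of_forall fun m _ => Submodule.sum_mem _ fun R _ => ?_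
    by_cases h : ApexFree u R
    · have := good_main u (m := m) h0 h1 hR (R.map Function.Embedding.inr) Rᶜ (fun i j ha => by
        rw [Finset.mem_compl]
        intro hi
        obtain ⟨i', h2, h3, h4⟩ := h i hi j ha.2.1
        exact h4 (ha.2.2 i' (subset_cl u _ (Finset.mem_map_of_mem _ h2)) h3))
        (C (μ R * (-x) ^ R.card))
      rwa [← smul_eq_C_mul, map_smul] at this
    · rw [hμ0 R h, zero_mul, zero_smul]
      exact zero_mem _

theorem hasSum_cap_one {x : ℝ} (h0 : 0 ≤ x) (h1 : x < 1) {m b : ℕ} (hb : b ≤ m) :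
    HasSum (fun l => if min l m = b then x ^ l * (1 - x) else 0)
      (x ^ b * if b < m then 1 - x else 1) := by
  split_ifs with h
  · convert hasSum_ite_eq b (x ^ b * (1 - x)) using 1
    funext l
    by_cases hl : l = b
    · rw [hl, if_pos (by omega), if_pos rfl]
    · rw [if_neg (by omega), if_neg hl]
  · obtain rfl : b = m := by omega
    rw [← hasSum_nat_add_iff' b, Finset.sum_eq_zero fun l hl => if_neg (by
      rw [Finset.mem_range] at hl; omega)]
    have := (hasSum_geometric_of_lt_one h0 h1).mul_left (x ^ b * (1 - x))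
    rw [mul_assoc, mul_inv_cancel₀ (sub_pos.2 h1).ne'] at this
    rw [sub_zero]
    refine hasSum_of_eq this fun l => ?_
    rw [if_pos (by omega)]
    ring

theorem hasSum_cap {x : ℝ} (h0 : 0 ≤ x) (h1 : x < 1) (m : ℕ) (θ : (σ → ℕ) → ℝ)
    (hθ : ∀ w, θ w = θ fun j => min (w j) m) :
    HasSum (fun w : σ → ℕ => (1 - x) ^ Fintype.card σ * (x ^ (∑ j, w j) * θ w))
      (∑ w ∈ Fintype.piFinset fun _ : σ => Finset.range (m + 1),
        x ^ (∑ j, w j) * (1 - x) ^ (JJ m w).card * θ w) := by
  have h2 : ∀ b ∈ Fintype.piFinset fun _ : σ => Finset.range (m + 1),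
      HasSum (fun w : σ → ℕ => (∏ j, if min (w j) m = b j then x ^ w j * (1 - x) else 0) * θ b)
        (x ^ (∑ j, b j) * (1 - x) ^ (JJ m b).card * θ b) := by
    intro b hb
    have := (hasSum_prod_pi (fun j l => if min l m = b j then x ^ l * (1 - x) else 0) _
      (fun j l => by
        split_ifs
        · exact mul_nonneg (pow_nonneg h0 _) (sub_pos.2 h1).le
        · exact le_rfl)
      fun j => hasSum_cap_one h0 h1 (Nat.lt_succ_iff.1 (Finset.mem_range.1
        (Fintype.mem_piFinset.1 hb j)))).mul_right (θ b)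
    rwa [Finset.prod_mul_distrib, Finset.prod_pow_eq_pow_sum, Finset.prod_ite, Finset.prod_const,
      Finset.prod_const_one, mul_one] at this
  convert hasSum_sum h2 using 1
  funext w
  rw [Finset.sum_eq_single fun j => min (w j) m]
  · simp only [if_true, Finset.prod_mul_distrib, Finset.prod_pow_eq_pow_sum, Finset.prod_const,
      Finset.card_univ, ← hθ]
    ring
  · intro b _ hb
    obtain ⟨j, hj⟩ := Function.ne_iff.1 hb
    rw [Finset.prod_eq_zero (Finset.mem_univ j) (if_neg hj.symm), zero_mul]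
  · intro h
    exact absurd (Fintype.mem_piFinset.2 fun j => Finset.mem_range.2 (by omega)) h

theorem min_oo_cap (m : ℕ) (w : σ → ℕ) (i : ι) :
    min (oo u w i) (m + 1) = min (oo u (fun j => min (w j) m) i) (m + 1) := by
  by_cases h : ∃ j, u i j ≠ 0 ∧ m ≤ w j
  · obtain ⟨j, h1, h2⟩ := h
    have aux : ∀ w' : σ → ℕ, m ≤ w' j → m + 1 ≤ oo u w' i := fun w' hw' => by
      by_contra hlt
      have := (Finset.mem_filter.1 (mem_JJ_of_le u (m := m) (w := w') (i := i) (by omega) h1)).2
      omega
    have h3 := aux w h2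
    have h4 := aux (fun j => min (w j) m) (le_min h2 le_rfl)
    omega
  · push Not at h
    congr 1
    refine Finset.sum_congr rfl fun j _ => ?_
    by_cases hj : u i j = 0
    · simp [hj]
    · simp only [min_eq_left (h j hj).le]

theorem th_cap (x : ℝ) (R : Finset ι) {N m : ℕ} (hN : N ≤ m) (w : σ → ℕ) :
    th u x R N w = th u x R N fun j => min (w j) m := by
  have h1 : II u w N = II u (fun j => min (w j) m) N := by
    ext i
    have := min_oo_cap u m w i
    simp only [II, Finset.mem_filter, Finset.mem_univ, true_and]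
    omega
  have h2 : (∀ i, N ≤ oo u w i) ↔ ∀ i, N ≤ oo u (fun j => min (w j) m) i :=
    forall_congr' fun i => by
      have := min_oo_cap u m w i
      omega
  simp only [th, h1, h2]

end

end Pool.Agent.P.MP_b91a16_ag
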