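import Pool.Agent.P.MP_b91a16_ag.CvHens

/-! Common torus zeros of the linear blocks of a nondegenerate face polynomial. -/

set_option linter.unusedSectionVars false

open Filter

namespace Pool.Agent.P.MP_b91a16_ag

noncomputable section

namespace RA

open Cv

variable {k σ ι : Type} [Field k] [CharZero k] [Fintype σ] [DecidableEq σ] [Fintype ι]
  [DecidableEq ι]
variable (u : ι → σ → ℕ) (a : ι → k)

/-- Joint linearity of two sets of variables on a set of monomials. -/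
def PL (I : Finset ι) (S S' : Finset σ) : Prop :=
  ∀ i ∈ I, ∀ j ∈ S, ∀ j' ∈ S', u i j ≠ 0 → u i j' ≠ 0 → j = j' ∧ u i j = 1

def Nb (I : Finset ι) (S : Finset σ) : Finset ι := I.filter fun i => ∃ j ∈ S, u i j ≠ 0

def Nc (I : Finset ι) (S : Finset σ) : Finset ι := I.filter fun i => ∀ j ∈ S, u i j = 0

def uq (i : ι) (j : σ) : ℚ := u i j

/-- A deficient set of linear variables. -/
def Df (I : Finset ι) (S : Finset σ) : Prop :=
  S ⊆ supp u I ∧ PL u I S S ∧ rk (uq u) (Nb u I S) < 2 * S.card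

def HZ (I : Finset ι) (S : Finset σ) : Prop :=
  ∃ (K : Type) (_ : Field K) (ρ : k →+* K) (z : σ → K), (∀ j, z j ≠ 0) ∧
    ∀ l ∈ S, ∑ i ∈ Nb u I {l}, ρ (a i) * ∏ j, z j ^ u i j = 0

variable {u a} {I J : Finset ι} {S T S' T' : Finset σ} {i : ι}

theorem mem_Nb : i ∈ Nb u I S ↔ i ∈ I ∧ ∃ j ∈ S, u i j ≠ 0 := Finset.mem_filter

theorem mem_Nb1 {l : σ} : i ∈ Nb u I {l} ↔ i ∈ I ∧ u i l ≠ 0 := by simp [mem_Nb]

theorem mem_Nc : i ∈ Nc u I S ↔ i ∈ I ∧ ∀ j ∈ S, u i j = 0 := Finset.mem_filter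

theorem PL.mono (h : PL u I S S') (h1 : J ⊆ I) (h2 : T ⊆ S) (h3 : T' ⊆ S') : PL u J T T' :=
  fun i hi j hj j' hj' => h i (h1 hi) j (h2 hj) j' (h3 hj')

theorem PL.symm (h : PL u I S S') : PL u I S' S := fun i hi j hj j' hj' h1 h2 =>
  ⟨(h i hi j' hj' j hj h2 h1).1.symm, (h i hi j' hj' j hj h2 h1).1 ▸ (h i hi j' hj' j hj h2 h1).2⟩

theorem PL.eq (h : PL u I S S') (hi : i ∈ I) {l j : σ} (hl : l ∈ S) (h1 : u i l ≠ 0) (hj : j ∈ S') :
    u i j = if j = l then 1 else 0 := by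
  split_ifs with e
  · exact e ▸ (h i hi l hl j hj h1 (e ▸ h1)).2
  · exact by_contra fun h2 => e (h i hi l hl j hj h1 h2).1.symm

theorem PL.sum (h : PL u I S S) (hi : i ∈ I) :
    ∑ j ∈ S, (u i j : ℚ) = if i ∈ Nb u I S then 1 else 0 := by
  split_ifs with e
  · obtain ⟨-, l, hl, h1⟩ := mem_Nb.1 e
    simp +contextual [Finset.sum_congr rfl fun j hj => congrArg Nat.cast (h.eq hi hl h1 hj), hl]
  · exact Finset.sum_eq_zero fun j hj => by
      simpa using by_contra fun h1 => e (mem_Nb.2 ⟨hi, j, hj, h1⟩)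

theorem Fc.sub (hF : Fc u I) (η : Option σ → ℚ) (h : ∀ i ∈ I, 0 ≤ η ⬝ᵥ hv u i)
    (hJ : ∀ i, i ∈ J ↔ i ∈ I ∧ η ⬝ᵥ hv u i = 0) : Fc u J := by
  obtain ⟨ω, ⟨h1, h2, h3⟩, h4⟩ := hF
  obtain ⟨n, h5, h6, h7⟩ := ((ev_small _ (-η none) (neg_pos.2 h1)).and ((eventually_all.2 fun j =>
    ev_small _ (η (some j)) (h2 j)).and (eventually_all.2 fun i =>
      (eventually_imp_distrib_left (p := i ∉ I)).2 fun hi => ev_small _ (η ⬝ᵥ hv u i)
        ((h3 i).lt_of_ne' (mt (h4 i).2 hi))))).exists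
  have h8 : (0 : ℚ) < 1 / (n + 1) := by positivity
  have e : ∀ i, (ω + (1 / (n + 1) : ℚ) • η) ⬝ᵥ hv u i = ω ⬝ᵥ hv u i + 1 / (n + 1) * η ⬝ᵥ hv u i :=
    fun i => by rw [add_dotProduct, smul_dotProduct, smul_eq_mul]
  refine ⟨ω + (1 / (n + 1) : ℚ) • η, ⟨by simp at h5 ⊢; linarith, h6, fun i => ?_⟩, fun i => ?_⟩
  · rw [e]
    by_cases hi : i ∈ I
    exacts [add_nonneg (h3 i) (mul_nonneg h8.le (h i hi)), (h7 i hi).le]
  · rw [e, hJ]
    by_cases hi : i ∈ I
    · simp [hi, (h4 i).1 hi, Nat.cast_add_one_ne_zero]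
    · simp only [hi, false_and, false_iff]
      exact (h7 i hi).ne'

theorem Fc.nb (hF : Fc u I) (hP : PL u I S S) : Fc u (Nb u I S) := by
  have e : ∀ i ∈ I, (fun o => o.elim 1 fun j => if j ∈ S then -1 else 0) ⬝ᵥ hv u i =
      if i ∈ Nb u I S then 0 else 1 := fun i hi => by
    have := hP.sum hi
    simp only [dot_hv, Option.elim_none, Option.elim_some, ite_mul, neg_mul, one_mul, zero_mul,
      Finset.sum_ite_mem, Finset.univ_inter, Finset.sum_neg_distrib, this]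
    split_ifs <;> simp
  refine hF.sub _ (fun i hi => by rw [e i hi]; positivity) fun i => ⟨fun h => ?_, fun h => ?_⟩
  · simp [(mem_Nb.1 h).1, e, h]
  · simpa [e i h.1] using h.2

theorem Fc.nc (hF : Fc u I) (S : Finset σ) : Fc u (Nc u I S) := by
  have e : ∀ i, (fun o => o.elim 0 fun j => if j ∈ S then 1 else 0) ⬝ᵥ hv u i =
      ∑ j ∈ S, (u i j : ℚ) := fun i => by simp [dot_hv]
  refine hF.sub _ (fun i _ => by rw [e]; positivity) fun i => ?_
  rw [e, mem_Nc, Finset.sum_eq_zero_iff_of_nonneg fun _ _ => Nat.cast_nonneg _]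
  simp

theorem transv (hF : Fc u I) (hN : ND2 u a) (hP : PL u I S S) (hS : S ⊆ supp u I) {K : Type}
    [Field K] (ρ : k →+* K) {z : σ → K} (hz : ∀ j, z j ≠ 0) (c : σ → K) (h1 : ∀ l ∉ S, c l = 0)
    (h2 : ∀ o, ∑ l, c l * ∑ i ∈ Nb u I {l}, ρ (a i) * (∏ j, z j ^ u i j) * u i o = 0) : c = 0 := by
  classical
  by_contra h
  obtain ⟨l, hl⟩ := Function.ne_iff.1 h
  let T := Finset.univ.filter fun l => c l ≠ 0
  have hT : T ⊆ S := fun l hl => by_contra fun h => (Finset.mem_filter.1 hl).2 (h1 l h)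
  obtain ⟨i, h3, h4⟩ := (mem_supp u).1 (hS (hT (by simpa [T] using hl)))
  have hP' := hP.mono subset_rfl hT hT
  obtain ⟨r, g, h5⟩ := hN _ (hF.nb hP') ⟨i, mem_Nb.2 ⟨h3, l, by simpa [T] using hl, h4⟩⟩
  have := congrArg (MvPolynomial.eval₂Hom ρ fun j => (if j ∈ T then c j else 1) * z j) h5
  rw [map_sum, Finset.sum_eq_zero fun o _ => ?_, map_pow, map_prod] at this
  · refine pow_ne_zero r (Finset.prod_ne_zero_iff.2 fun j _ => ?_) this.symm
    by_cases hj : c j = 0 <;> simp [T, hj, hz j]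
  rw [map_mul, mul_eq_zero_of_right]
  rw [← h2 o, EU, map_sum]
  simp only [Nb, Finset.sum_filter, Finset.mul_sum]
  rw [Finset.sum_comm]
  refine Finset.sum_congr rfl fun i hi => ?_
  split_ifs with h6
  · obtain ⟨l, h6, h7⟩ := h6
    have h8 : ∀ j, j ≠ l → j ∈ T → u i j = 0 := fun j h h' => by simpa [h] using hP'.eq hi h6 h7 h'
    rw [Finset.sum_eq_single l (fun j _ hj => ?_) (by simp)]
    · simp only [map_mul, map_prod, map_pow, MvPolynomial.eval₂Hom_X', MvPolynomial.eval₂Hom_C,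
        mul_pow, Finset.prod_mul_distrib, map_natCast]
      rw [Finset.prod_eq_single l (fun j _ hj => by by_cases h : j ∈ T <;> simp [h, h8 j hj])
        (by simp), if_pos h6, (hP' i hi l h6 l h6 h7 h7).2, if_pos (by simpa using h7)]
      ring
    · by_cases h : c j = 0
      · simp [h]
      · simp [h8 j hj (by simpa [T] using h)]
  · refine (Finset.sum_eq_zero fun l _ => ?_).symm
    by_cases h : c l = 0
    · simp [h]
    · rw [if_neg fun h' => h6 ⟨l, by simpa [T] using h, by simpa using h'⟩, mul_zero]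

theorem Df.not_hz (hD : Df u I S) (hF : Fc u I) (hN : ND2 u a) : ¬HZ u a I S := by
  rintro ⟨K, _, ρ, z, hz, h⟩
  have := charZero_of_injective_ringHom ρ.injective
  choose f hf using fun l : S => (mem_supp u).1 (hD.1 l.2)
  let v : S ⊕ S → σ → K := Sum.elim (fun l o => u (f l) o) fun l o =>
    ∑ i ∈ Nb u I {l.1}, ρ (a i) * (∏ j, z j ^ u i j) * u i o
  have h1 : LinearIndependent K v := by
    refine Fintype.linearIndependent_iff.2 fun c hc => ?_
    have h2 : ∀ l, c (Sum.inl l) = 0 := fun l => by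
      have := congrFun hc l
      simp only [Fintype.sum_sum_type, Finset.sum_apply, Pi.smul_apply, v,
        Sum.elim_inl, Sum.elim_inr, smul_eq_mul, Pi.zero_apply] at this
      rw [Finset.sum_eq_zero (f := fun l' => c (Sum.inr l') * _) fun l' _ => ?_, add_zero,
        Finset.sum_eq_single l (fun l' _ hl => ?_) (by simp)] at this
      · simpa [hD.2.1.eq (hf l).1 l.2 (hf l).2 l.2] using this
      · simp [hD.2.1.eq (hf l').1 l'.2 (hf l').2 l.2, Subtype.ext_iff.not.1 hl.symm]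
      · rw [Finset.sum_congr rfl fun i hi => by
          rw [hD.2.1.eq (mem_Nb1.1 hi).1 l'.2 (mem_Nb1.1 hi).2 l.2], ← Finset.sum_mul, h l' l'.2]
        simp
    have h3 := transv hF hN hD.2.1 hD.1 ρ hz (fun l => if h : l ∈ S then c (Sum.inr ⟨l, h⟩) else 0)
      (fun l hl => dif_neg hl) fun o => by
        rw [← Finset.sum_subset (Finset.subset_univ S) fun l _ hl => by simp [hl],
          ← Finset.sum_coe_sort]
        simpa [h2, v] using congrFun hc o
    rintro (l | l)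
    exacts [h2 l, by simpa using congrFun h3 l]
  obtain ⟨g, -, h2, -⟩ := Submodule.exists_fun_fin_finrank_span_eq ℚ (uq u '' Nb u I S)
  have h3 : ∀ i ∈ Nb u I S, (fun o => (u i o : K)) ∈
      Submodule.span K (Set.range fun t o => (g t o : K)) := fun i hi => by
    obtain ⟨c, hc⟩ := (Submodule.mem_span_range_iff_exists_fun ℚ).1
      (h2 ▸ Submodule.subset_span (Set.mem_image_of_mem (uq u) hi))
    refine (Submodule.mem_span_range_iff_exists_fun K).2 ⟨fun t => c t, funext fun o => ?_⟩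
    simpa [uq] using congrArg (Rat.cast : ℚ → K) (congrFun hc o)
  have h4 : Submodule.span K (Set.range v) ≤ Submodule.span K (Set.range fun t o => (g t o : K)) := by
    refine Submodule.span_le.2 ?_
    rintro _ ⟨l | l, rfl⟩
    · exact h3 _ (mem_Nb.2 ⟨(hf l).1, l, l.2, (hf l).2⟩)
    · rw [show v (Sum.inr l) = ∑ i ∈ Nb u I {l.1}, (ρ (a i) * ∏ j, z j ^ u i j) • fun o => (u i o : K) by
        ext o
        simp [v]]
      exact sum_mem fun i hi => Submodule.smul_mem _ _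
        (h3 i (mem_Nb.2 ⟨(mem_Nb1.1 hi).1, l, l.2, (mem_Nb1.1 hi).2⟩))
  have h5 := (Submodule.finrank_mono h4).trans (finrank_range_le_card _)
  rw [finrank_span_eq_card h1] at h5
  have h6 := hD.2.2
  simp only [Fintype.card_sum, Fintype.card_coe, Fintype.card_fin, rk] at h5 h6
  omega

theorem lift_hz (hF : Fc u I) (hN : ND2 u a) (hP : PL u I S S) (γ : σ → ℤ)
    (h0 : ∀ i ∈ Nb u I S, 0 ≤ ∑ j, γ j * u i j)
    (hJ : ∀ i, i ∈ J ↔ i ∈ Nb u I S ∧ ∑ j, γ j * u i j = 0) (hS : S ⊆ supp u J) (h : HZ u a J S) :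
    HZ u a I S := by
  obtain ⟨K, _, ρ, ζ, h1, h2⟩ := h
  have e0 : ∀ i, (fun o => o.elim 0 fun j => (γ j : ℚ)) ⬝ᵥ hv u i = (∑ j, γ j * u i j : ℤ) :=
    fun i => by simp [dot_hv]
  have hF' : Fc u J := (hF.nb hP).sub _ (fun i hi => by rw [e0]; exact_mod_cast h0 i hi) fun i => by
    rw [e0, Int.cast_eq_zero, hJ]
  let b : ι → Polynomial K := fun i => .C (ρ (a i)) * .X ^ (∑ j, γ j * u i j).toNat
  have e : ∀ l ∈ S, ∀ F : ι → K,
      ∑ i ∈ Nb u I {l}, (b i).eval 0 * F i = ∑ i ∈ Nb u J {l}, ρ (a i) * F i := fun l hl F => by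
    have h3 : Nb u J {l} ⊆ Nb u I {l} := fun i hi =>
      mem_Nb1.2 ⟨(mem_Nb.1 ((hJ i).1 (mem_Nb1.1 hi).1).1).1, (mem_Nb1.1 hi).2⟩
    rw [← Finset.sum_subset h3 fun i hi hi' => ?_]
    · exact Finset.sum_congr rfl fun i hi => by simp [b, ((hJ i).1 (mem_Nb1.1 hi).1).2]
    · have h4 := mem_Nb.2 ⟨(mem_Nb1.1 hi).1, l, hl, (mem_Nb1.1 hi).2⟩
      have h5 := (h0 i h4).lt_of_ne' fun h => hi' (mem_Nb1.2 ⟨(hJ i).2 ⟨h4, h⟩, (mem_Nb1.1 hi).2⟩)
      simp [b, zero_pow (Int.pos_iff_toNat_pos.1 h5).ne']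
  obtain ⟨K', _, φ, z, h3, h4, h5⟩ := hensel (u := u) S (fun l => Nb u I {l}) (fun _ => b) h1
    (fun l hl => (e l hl _).trans (h2 l hl)) fun c hc hc' => transv hF' hN (hP.mono (fun i hi =>
      (mem_Nb.1 ((hJ i).1 hi).1).1) subset_rfl subset_rfl) hS ρ h1 c hc fun o => by
        rw [← hc' o]
        refine Finset.sum_congr rfl fun l _ => ?_
        by_cases hl : l ∈ S
        · simp only [mul_assoc, e l hl]
        · simp [hc l hl]
  have ht : φ .X ≠ 0 := (map_ne_zero_iff φ h3).2 Polynomial.X_ne_zero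
  refine ⟨K', inferInstance, φ.comp (Polynomial.C.comp ρ), fun j => φ .X ^ γ j * z j,
    fun j => mul_ne_zero (zpow_ne_zero _ ht) (h4 j), fun l hl => ?_⟩
  rw [← h5 l hl]
  refine Finset.sum_congr rfl fun i hi => ?_
  have : ∀ s : Finset σ, ∏ j ∈ s, (φ .X ^ γ j) ^ u i j = φ .X ^ ∑ j ∈ s, γ j * u i j := fun s => by
    induction s using Finset.induction_on with
    | empty => simp
    | insert j s hj ih =>
      rw [Finset.prod_insert hj, Finset.sum_insert hj, ih, zpow_add₀ ht, zpow_mul, zpow_natCast]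
  simp only [b, mul_pow, Finset.prod_mul_distrib, this, map_mul, map_pow, RingHom.comp_apply,
    mul_assoc]
  rw [← zpow_natCast, Int.toNat_of_nonneg (h0 i (mem_Nb.2 ⟨(mem_Nb1.1 hi).1, l, hl, (mem_Nb1.1 hi).2⟩))]

theorem gordan {Γ : Type} [LinearOrderedCommGroupWithZero Γ] (g : σ → Γ) (N : Finset ι)
    (h : ∀ i ∈ N, ∏ j, g j ^ u i j ≤ 1) : ∃ γ : σ → ℤ, ∀ i ∈ N, 0 ≤ ∑ j, γ j * u i j ∧
      (∑ j, γ j * u i j = 0 ↔ ∏ j, g j ^ u i j = 1) := by
  classical
  let J := N.filter fun i => ∏ j, g j ^ u i j = 1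
  obtain ⟨x, y, h1, h2, h3, h4⟩ := tucker (α := ι ⊕ ι) (Sum.elim
    (fun i => if i ∈ N then uq u i else 0) fun i => if i ∈ J then -uq u i else 0)
  obtain ⟨D, hD, h5⟩ := exists_den (Finset.univ.image x ∪ Finset.univ.image y)
  choose γ hγ using fun j => h5 (y j) (by simp)
  choose n hn using fun g => h5 (x g) (by simp)
  have hD' : (0 : ℚ) < D := by exact_mod_cast hD
  have e : ∀ i, ((∑ j, γ j * u i j : ℤ) : ℚ) = D * y ⬝ᵥ uq u i := fun i => by
    simp [hγ, dotProduct, Finset.mul_sum, uq, mul_assoc]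
  have h6 : ∀ g, ((n g).toNat : ℚ) = D * x g := fun g => by
    rw [← hn]
    exact_mod_cast Int.toNat_of_nonneg (by
      exact_mod_cast (hn g ▸ mul_nonneg hD'.le (h1 g) : (0 : ℚ) ≤ n g))
  have h7 : ∀ j, ∑ i ∈ N, u i j * (n (Sum.inl i)).toNat = ∑ i ∈ J, u i j * (n (Sum.inr i)).toNat :=
    fun j => by
      have := congrArg ((D : ℚ) * ·) (congrFun h2 j)
      simp only [Fintype.sum_sum_type, Sum.elim_inl, Sum.elim_inr, Finset.sum_apply, Pi.smul_apply,
        smul_eq_mul, Pi.zero_apply, mul_zero, mul_add, Finset.mul_sum, ← mul_assoc, ← h6] at this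
      simp only [ite_apply, Pi.zero_apply, mul_ite, mul_zero, Finset.sum_ite_mem, Finset.univ_inter,
        Pi.neg_apply, mul_neg, Finset.sum_neg_distrib, add_neg_eq_zero, uq] at this
      simp only [mul_comm (u _ j)]
      exact_mod_cast this
  have h8 : ∏ i ∈ N, (∏ j, g j ^ u i j) ^ (n (Sum.inl i)).toNat = 1 := by
    rw [← Finset.prod_eq_one (s := J) (f := fun i => (∏ j, g j ^ u i j) ^ (n (Sum.inr i)).toNat)
      fun i hi => by rw [(Finset.mem_filter.1 hi).2, one_pow]]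
    simp only [← Finset.prod_pow, ← pow_mul]
    rw [Finset.prod_comm, Finset.prod_comm (s := J)]
    simp only [Finset.prod_pow_eq_pow_sum, h7]
  refine ⟨γ, fun i hi => ?_⟩
  have h9 : 0 ≤ y ⬝ᵥ uq u i := by simpa [hi] using h3 (Sum.inl i)
  refine ⟨by exact_mod_cast e i ▸ mul_nonneg hD'.le h9, fun h10 => by_contra fun h11 => ?_,
    fun h10 => ?_⟩
  · have h12 : y ⬝ᵥ uq u i = 0 := by simpa [h10, hD.ne'] using e i
    have h13 : (n (Sum.inl i)).toNat ≠ 0 := fun h => by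
      have := h4 (Sum.inl i)
      simp [hi, h12, show x (Sum.inl i) = 0 by simpa [h, hD.ne'] using h6 (Sum.inl i)] at this
    rw [← Finset.mul_prod_erase _ _ hi] at h8
    exact (mul_lt_one_of_nonneg_of_lt_one_left zero_le (pow_lt_one₀ zero_le
      ((h i hi).lt_of_ne h11) h13) (Finset.prod_le_one' fun i hi => pow_le_one₀ zero_le
        (h i (Finset.mem_of_mem_erase hi)))).ne h8
  · have h11 : y ⬝ᵥ uq u i ≤ 0 := by simpa [J, hi, h10] using h3 (Sum.inr i)
    exact (Int.cast_eq_zero (α := ℚ)).1 ((e i).trans (by rw [le_antisymm h11 h9, mul_zero]))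

theorem PL.prod_scale (hP : PL u I S S) {l : σ} (hl : l ∈ S) (hi : i ∈ Nb u I {l}) {K : Type}
    [CommRing K] (d z : σ → K) :
    ∏ j, ((if j ∈ S then d j else 1) * z j) ^ u i j = d l * ∏ j, z j ^ u i j := by
  obtain ⟨h1, h2⟩ := mem_Nb1.1 hi
  simp only [mul_pow, Finset.prod_mul_distrib]
  rw [Finset.prod_eq_single l (fun j _ hj => by
    by_cases h : j ∈ S <;> simp [h, hP.eq h1 hl h2, hj]) (by simp), if_pos hl,
    (hP i h1 l hl l hl h2 h2).2, pow_one]

theorem hall_hz (hF : Fc u I) (hN : ND2 u a) (hP : PL u I S S)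
    (hH : ∀ T ⊆ S, 2 * T.card ≤ rk (uq u) (Nb u I T)) : HZ u a I S := by
  classical
  obtain ⟨f, hf, h1⟩ := rado (α := S × Bool) (uq u) (fun b => Nb u I {b.1.1}) fun T => by
    let T' := T.image fun b => b.1.1
    have h1 : T.card ≤ (T' ×ˢ (Finset.univ : Finset Bool)).card :=
      Finset.card_le_card_of_injOn (fun b => (b.1.1, b.2)) (fun b hb => Finset.mem_product.2
        ⟨Finset.mem_image_of_mem _ hb, Finset.mem_univ _⟩) fun b _ b' _ h =>
          Prod.ext (Subtype.ext (Prod.mk.inj h).1) (Prod.mk.inj h).2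
    have h2 := hH T' fun l hl => by
      obtain ⟨b, -, rfl⟩ := Finset.mem_image.1 hl
      exact b.1.2
    have h3 := rk_mono (uq u) (J := Nb u I T') (J' := T.biUnion fun b => Nb u I {b.1.1})
      fun i hi => by
        obtain ⟨h3, l, hl, h4⟩ := mem_Nb.1 hi
        obtain ⟨b, hb, rfl⟩ := Finset.mem_image.1 hl
        exact Finset.mem_biUnion.2 ⟨b, hb, mem_Nb1.2 ⟨h3, h4⟩⟩
    simp only [Finset.card_product, Finset.card_univ, Fintype.card_bool] at h1
    omega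
  let s : σ → ι → k := fun l i => if h : l ∈ S then
    (if i = f (⟨l, h⟩, true) then 1 else 0) - if i = f (⟨l, h⟩, false) then 1 else 0 else 0
  have e : ∀ (l : S) (F : ι → k), ∑ i ∈ Nb u I {l.1}, s l i * F i = F (f (l, true)) - F (f (l, false)) :=
    fun l F => by simp [s, sub_mul, hf (l, _)]
  obtain ⟨K, _, φ, z, h2, h3, h4⟩ := hensel (u := u) S (fun l => Nb u I {l})
    (fun l i => .C (a i) + .C (a i - s l i) * (.X - 1)) (ζ := 1) (by simp)
    (fun l hl => by simpa using e ⟨l, hl⟩ 1) fun c hc hc' => funext fun l => by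
      by_cases hl : l ∈ S
      · simpa using Fintype.linearIndependent_iff.1
          ((linearIndependent_algebraMap_comp_iff (S := k)).2 h1)
          (fun b => if b.2 then c b.1 else -c b.1) (funext fun o => by
            have := hc' o
            rw [← Finset.sum_subset (Finset.subset_univ S) fun l _ hl => by simp [hc l hl],
              ← Finset.sum_coe_sort] at this
            simpa [e, Fintype.sum_prod_type, uq, mul_sub, sub_eq_add_neg, mul_add] using this)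
          (⟨l, hl⟩, true)
      · exact hc l hl
  obtain ⟨O, h5, h6⟩ := Ideal.image_subset_nonunits_valuationSubring
    (Ideal.span {φ.rangeRestrict (.X - 1)}) (by
      rw [Ne, Ideal.span_singleton_eq_top, isUnit_iff_exists_inv]
      rintro ⟨⟨_, p, rfl⟩, h⟩
      have := congrArg (Polynomial.eval 1) (h2 (a₁ := (.X - 1) * p) (a₂ := 1) (by
        simpa using congrArg Subtype.val h))
      simp at this)
  obtain ⟨κ, _, π, ψ, h7, h8⟩ := exists_ac O
  let φ' : Polynomial k →+* O := φ.codRestrict O fun p => h5 ⟨p, rfl⟩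
  have h9 : π (φ' (.X - 1)) = 0 := h7 _ (O.mem_nonunits_iff.1 (h6 ⟨_, Ideal.subset_span rfl, rfl⟩))
  have hm : ∀ i, O.valuation (∏ j, z j ^ u i j) ≠ 0 := fun i =>
    O.valuation.ne_zero_iff.2 (Finset.prod_ne_zero_iff.2 fun j _ => pow_ne_zero _ (h3 j))
  have : ∀ l ∈ S, ∃ d : K, d ≠ 0 ∧ (∀ i ∈ Nb u I {l}, O.valuation (d * ∏ j, z j ^ u i j) ≤ 1) ∧
      ∃ i ∈ Nb u I {l}, O.valuation (d * ∏ j, z j ^ u i j) = 1 := fun l hl => by
    obtain ⟨i, hi, h⟩ := Finset.exists_max_image (Nb u I {l})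
      (fun i => O.valuation (∏ j, z j ^ u i j)) ⟨_, hf (⟨l, hl⟩, true)⟩
    refine ⟨_, inv_ne_zero (O.valuation.ne_zero_iff.1 (hm i)), fun i' hi' => ?_, i, hi, ?_⟩
    · rw [map_mul, map_inv₀]
      exact inv_mul_le_one_of_le₀ (h i' hi') zero_le
    · rw [map_mul, map_inv₀, inv_mul_cancel₀ (hm i)]
  choose! d d1 d2 d3 using this
  let z' : σ → K := fun j => (if j ∈ S then d j else 1) * z j
  have hz : ∀ j, z' j ≠ 0 := fun j => mul_ne_zero (by by_cases h : j ∈ S <;> simp [h, d1]) (h3 j)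
  have e1 : ∀ l ∈ S, ∀ i ∈ Nb u I {l}, ∏ j, z' j ^ u i j = d l * ∏ j, z j ^ u i j :=
    fun l hl i hi => hP.prod_scale hl hi d z
  have e2 : ∀ i, ∏ j, O.valuation (z' j) ^ u i j = O.valuation (∏ j, z' j ^ u i j) := by simp
  obtain ⟨γ, hγ⟩ := gordan (u := u) (fun j => O.valuation (z' j)) (Nb u I S) fun i hi => by
    obtain ⟨h10, l, hl, h11⟩ := mem_Nb.1 hi
    rw [e2, e1 l hl i (mem_Nb1.2 ⟨h10, h11⟩)]
    exact d2 l hl i (mem_Nb1.2 ⟨h10, h11⟩)
  simp only [e2] at hγ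
  refine lift_hz hF hN hP γ (fun i hi => (hγ i hi).1)
    (J := (Nb u I S).filter fun i => O.valuation (∏ j, z' j ^ u i j) = 1)
    (fun i => Finset.mem_filter.trans (and_congr_right fun hi => (hγ i hi).2.symm)) (fun l hl => ?_)
    ⟨κ, inferInstance, π.comp (φ'.comp Polynomial.C), fun j => ψ (Units.mk0 _ (hz j)),
      fun j => Units.ne_zero _, fun l hl => ?_⟩
  · obtain ⟨i, h10, h11⟩ := d3 l hl
    exact (mem_supp u).2 ⟨i, Finset.mem_filter.2 ⟨mem_Nb.2 ⟨(mem_Nb1.1 h10).1, l, hl,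
      (mem_Nb1.1 h10).2⟩, by rwa [e1 l hl i h10]⟩, (mem_Nb1.1 h10).2⟩
  have : ∀ i ∈ Nb u I {l}, ∃ y : O, y = ∏ j, z' j ^ u i j := fun i hi =>
    ⟨⟨_, O.mem_of_valuation_le_one _ (d2 l hl i hi)⟩, (e1 l hl i hi).symm⟩
  choose! y hy using this
  have h10 : ∑ i ∈ Nb u I {l}, φ' (.C (a i) + .C (a i - s l i) * (.X - 1)) * y i = 0 := by
    refine Subtype.ext ?_
    rw [ZeroMemClass.coe_zero, ← mul_zero (d l), ← h4 l hl, Finset.mul_sum,
      AddSubmonoidClass.coe_finsetSum]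
    exact Finset.sum_congr rfl fun i hi => by
      rw [MulMemClass.coe_mul, hy i hi, e1 l hl i hi, mul_left_comm]
      rfl
  rw [← map_zero π, ← h10, map_sum]
  refine (Finset.sum_congr rfl fun i hi => ?_).trans (Finset.sum_subset (fun i hi => mem_Nb1.2
    ⟨(mem_Nb.1 (Finset.mem_filter.1 (mem_Nb1.1 hi).1).1).1, (mem_Nb1.1 hi).2⟩) fun i hi hi' => ?_)
  · obtain ⟨h11, h12⟩ := mem_Nb1.1 hi
    obtain ⟨h13, h14⟩ := Finset.mem_filter.1 h11
    have h15 := hy i (mem_Nb1.2 ⟨(mem_Nb.1 h13).1, h12⟩)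
    rw [map_mul, ← h8 (y i) (∏ j, Units.mk0 _ (hz j) ^ u i j) (by simp [h15]) (by rwa [h15]),
      map_add, map_add, map_mul, map_mul, h9]
    simp
  · rw [map_mul, h7 (y i) ((O.valuation_le_one _).lt_of_ne fun h => hi' (mem_Nb1.2
      ⟨Finset.mem_filter.2 ⟨mem_Nb.2 ⟨(mem_Nb1.1 hi).1, l, hl, (mem_Nb1.1 hi).2⟩, hy i hi ▸ h⟩,
        (mem_Nb1.1 hi).2⟩)), mul_zero]

end RA

end

end Pool.Agent.P.MP_b91a16_ag
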