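import Pool.Agent.P.MP_b91a16_ag.CvSer

/-! Cancellation of the candidate poles that are not allowed, for convenient polynomials. -/

set_option linter.unusedSectionVars false

namespace Pool.Agent.P.MP_b91a16_ag

noncomputable section

namespace RA

open Cv

variable {σ ι : Type} [Fintype σ] [DecidableEq σ] [Fintype ι] [DecidableEq ι]
variable {u : ι → σ → ℕ} {x : ℝ} {θ : Finset ι → ℝ} {Al : ℕ × ℕ → Prop}

theorem dickson (B : ℤ) : ∃ N₀, ∀ N, N₀ ≤ N → ∀ w, (∀ g, 0 ≤ zz u w N g) →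
    ∃ v M, 0 < M ∧ InC u (At (zz u w N) B) v M := by
  let T : ℕ → Prop := fun N => ∃ w, (∀ g, 0 ≤ zz u w N g) ∧
    ∀ v M, 0 < M → ¬InC u (At (zz u w N) B) v M
  suffices {N | T N}.Finite by
    obtain ⟨M, hM⟩ := this.bddAbove
    refine ⟨M + 1, fun N hN w hw => by_contra fun h => ?_⟩
    have := hM (a := N) ⟨w, hw, fun v M h1 h2 => h ⟨v, M, h1, h2⟩⟩
    omega
  by_contra hinf
  obtain ⟨Nn, hmono, hmem⟩ : ∃ Nn : ℕ → ℕ, StrictMono Nn ∧ ∀ t, T (Nn t) :=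
    ⟨Nat.nth T, Nat.nth_strictMono hinf, Nat.nth_mem_of_infinite hinf⟩
  choose w hw hw' using hmem
  obtain ⟨s, t, hst, hle⟩ := wellQuasiOrdered_le (fun t p => (if p.2 then zz u (w t) (Nn t) p.1 else
    B + 1 - zz u (w t) (Nn t) p.1).toNat : ℕ → (σ ⊕ ι) × Bool → ℕ)
  have hle' : ∀ g, zz u (w s) (Nn s) g ≤ zz u (w t) (Nn t) g := fun g => by
    have := hle (g, true)
    have := hw s g
    have := hw t g
    simp only [if_true] at *
    omega
  have hN := hmono hst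
  have hw1 : w s + (w t - w s) = w t := funext fun j => by
    have := hle' (Sum.inl j)
    simp only [zz, Sum.elim_inl] at this
    simp only [Pi.add_apply, Pi.sub_apply]
    omega
  have hadd := zz_add u (w s) (w t - w s) (Nn s) (Nn t - Nn s)
  rw [hw1, Nat.add_sub_cancel' hN.le] at hadd
  refine hw' s (w t - w s) (Nn t - Nn s) (by omega) ⟨fun g => by
    have := hadd g; have := hle' g; omega, fun g hg => ?_⟩
  have := hadd g
  have := hle' g
  have := mem_At.1 hg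
  have := hle (g, false)
  simp only [Bool.false_eq_true, if_false] at this
  omega

variable (u Al) in
def RootHyp2 : Prop :=
  ∀ (Z : Finset (σ ⊕ ι)) (w₀ : σ → ℕ) (N₀ : ℕ), InC u Z w₀ N₀ → (∀ g, g ∉ Z → 0 < zl u w₀ N₀ g) →
    0 < N₀ → (∀ j, Sum.inl j ∉ Z) → (∀ w N, InC u Z w N → (∑ j, w j) * N₀ = (∑ j, w₀ j) * N) →
    Al (∑ j, w₀ j, N₀) ∨ ∃ S, MD u Z.toRight S ∧ ∀ T, MD u Z.toRight T → PL u Z.toRight S T

variable (u x Al) in
def Crit (m : Ideal (Polynomial ℝ)) (Y : Finset (σ ⊕ ι)) : Prop :=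
  ∀ w N, InC u Y w N → fac x (∑ j, w j, N) ∈ m ∧ ¬Al (∑ j, w j, N)

variable {m : Ideal (Polynomial ℝ)} [m.IsPrime] {Y Y' : Finset (σ ⊕ ι)}

theorem inC_anti (h : Y ⊆ Y') {w : σ → ℕ} {N : ℕ} (h' : InC u Y' w N) : InC u Y w N :=
  ⟨h'.1, fun g hg => h'.2 g (h hg)⟩

theorem Crit.good (hc : Conv u) (h0 : 0 < x) (h1 : x < 1) (hR : RootHyp2 u Al) (h : Crit u x Al m Y)
    {v : σ → ℕ} {M : ℕ} (hM : 0 < M) (hv : InC u Y v M) : (∀ j, Sum.inl j ∉ cl u Y) ∧
      (∀ l, ∃ i, Sum.inr i ∈ Y ∧ u i l ≠ 0) ∧ Gd u (cl u Y).toRight := by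
  have h2 : ∀ j, Sum.inl j ∉ cl u Y := fun j hj => by
    obtain ⟨i, -, h2⟩ := hc j
    have h3 := (mem_cl u).1 hj v M hv
    have h4 := hv.1 (Sum.inr i)
    simp only [zl, Sum.elim_inl, Sum.elim_inr] at h3 h4
    rw [Finset.sum_eq_zero fun j' _ => by by_cases e : j' = j <;> simp [e, h3, h2]] at h4
    omega
  have h3 : ∀ l, ∃ i, Sum.inr i ∈ Y ∧ u i l ≠ 0 := fun l => by_contra fun h3 => by
    push Not at h3
    have := (h (Pi.single l 1) 0 ⟨zl_single_nonneg u l, by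
      rintro (j | i) hg
      exacts [absurd (subset_cl u Y hg) (h2 j), by simp [zl_single_inr, h3 i hg]]⟩).1
    refine Ideal.IsPrime.ne_top ‹_› (m.eq_top_of_isUnit_mem this ?_)
    simpa [fac] using Polynomial.isUnit_C.2 (sub_pos.2 h1).ne'.isUnit
  refine ⟨h2, h3, fun l => (h3 l).elim fun i hi => (mem_supp u).2
    ⟨i, Finset.mem_toRight.2 (subset_cl u Y hi.1), hi.2⟩, ?_⟩
  obtain ⟨w₂, N₂, hv₂, hint⟩ := exists_interior u Y
  have hv₀ : InC u Y (w₂ + v) (N₂ + M) := ⟨fun g => by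
      rw [zl_add]; exact add_nonneg (hv₂.1 g) (hv.1 g),
    fun g hg => by rw [zl_add, hv₂.2 g hg, hv.2 g hg, add_zero]⟩
  refine (hR (cl u Y) _ _ ((inC_cl u).2 hv₀) (fun g hg => ?_) (by omega) h2
    fun w N hv => ratio_eq h0 h1 (h w N ((inC_cl u).1 hv)).1 (h _ _ hv₀).1).resolve_left (h _ _ hv₀).2
  rw [zl_add]
  exact add_pos_of_pos_of_nonneg (hint g hg) (hv.1 g)

variable (u) in
def kap : ℤ := ∑ i, ∑ j, (u i j : ℤ) + 1

theorem le_kap (i : ι) : ∑ j, (u i j : ℤ) < kap u := Int.lt_add_one_iff.2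
  (Finset.single_le_sum (f := fun i => ∑ j, (u i j : ℤ)) (fun _ _ => by positivity) (Finset.mem_univ i))

theorem one_le_kap : 1 ≤ kap u := le_add_of_nonneg_left (by positivity)

/-- Closeness in the supremum norm. -/
def Cs (ρ : ℤ) (w w' : σ → ℕ) : Prop := ∀ j, |(w j : ℤ) - w' j| ≤ ρ

theorem Cs.trans {ρ ρ' ρ'' : ℤ} {w w' w'' : σ → ℕ} (h : Cs ρ w w') (h' : Cs ρ' w' w'')
    (e : ρ + ρ' ≤ ρ'') : Cs ρ'' w w'' := fun j =>
  (abs_sub_le _ _ _).trans ((add_le_add (h j) (h' j)).trans e)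

theorem Cs.symm {ρ : ℤ} {w w' : σ → ℕ} (h : Cs ρ w w') : Cs ρ w' w := fun j =>
  abs_sub_comm (w j : ℤ) _ ▸ h j

theorem cs_single (w : σ → ℕ) (l : σ) : Cs 1 w (w + Pi.single l 1) := fun j => by
  by_cases e : j = l <;> simp [e]

theorem zz_sub (w w' : σ → ℕ) (N : ℕ) (i : ι) :
    zz u w N (Sum.inr i) - zz u w' N (Sum.inr i) = ∑ j, ((w j : ℤ) - w' j) * u i j := by
  simp [zz, oo, sub_mul, add_mul, Finset.sum_add_distrib]

theorem Cs.zz {ρ : ℤ} {w w' : σ → ℕ} (h : Cs ρ w w') (hρ : 0 ≤ ρ) (N : ℕ) (g : σ ⊕ ι) :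
    |zz u w N g - zz u w' N g| ≤ kap u * ρ := by
  rcases g with j | i
  · exact (h j).trans (le_mul_of_one_le_left hρ one_le_kap)
  · rw [zz_sub]
    refine (Finset.abs_sum_le_sum_abs _ _).trans (le_trans ?_
      (mul_le_mul_of_nonneg_right (le_kap i).le hρ))
    rw [Finset.sum_mul]
    refine Finset.sum_le_sum fun j _ => ?_
    rw [abs_mul, Nat.abs_cast, mul_comm]
    exact mul_le_mul_of_nonneg_left (h j) (Nat.cast_nonneg _)

theorem diam {N : ℕ} {b : ℤ} (hb : 0 ≤ b) {Ω : (σ → ℕ) → Prop} {lab : (σ → ℕ) → Finset σ}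
    (h1 : ∀ w, Ω w → (∀ g, 0 ≤ zz u w N g) ∧ ∀ l, ∃ i, zz u w N (Sum.inr i) ≤ b ∧ u i l ≠ 0)
    (h2 : ∀ w w', Ω w → Ω w' → Cs (4 * b + 8) w w' → ∀ i,
      zz u w N (Sum.inr i) ≤ b + kap u * (3 * b + 6) → PL u {i} (lab w) (lab w'))
    {St : (σ → ℕ) → (σ → ℕ) → Prop} (h3 : ∀ w w', St w w' → Ω w ∧ ∃ l, w' = w + Pi.single l 1 ∧
      ∃ v, Ω v ∧ Cs (b + 2) w v ∧ l ∈ lab v) {w₀ w : σ → ℕ} (h4 : Ω w₀)
    (h : Relation.ReflTransGen (fun w w' => St w w' ∨ St w' w) w₀ w) : Cs (b + 1) w₀ w := by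
  let L : σ → Prop := fun l => ∃ v, Ω v ∧ Cs (2 * b + 4) w₀ v ∧ l ∈ lab v
  have key : ∀ w w', Ω w → Ω w' → Cs (b + 2) w₀ w → (∀ j, ¬L j → w j = w' j) → ∀ l, L l →
      (w l : ℤ) - w' l ≤ b := by
    rintro w w' e1 e2 e3 e4 l ⟨v, e5, e6, e7⟩
    obtain ⟨i, e8, e9⟩ := (h1 w e1).2 l
    have e10 := (abs_le.1 ((e3.symm.trans e6 (ρ'' := 3 * b + 6) (by linarith)).zz (u := u)
      (by linarith) N (Sum.inr i))).1
    have e11 := fun v' e (e' : Cs (2 * b + 4) w₀ v') =>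
      h2 v v' e5 e (e6.symm.trans e' (by linarith)) i (by linarith)
    have := zz_sub (u := u) w w' N i
    rw [Finset.sum_eq_single l (fun j _ hj => ?_) (by simp),
      (e11 v e5 e6 i (by simp) l e7 l e7 e9 e9).2] at this
    · have := (h1 w' e2).1 (Sum.inr i)
      omega
    · by_cases e : L j
      · obtain ⟨v', e12, e13, e14⟩ := e
        simp [(e11 v' e12 e13).eq (Finset.mem_singleton_self i) e7 e9 e14, hj]
      · simp [e4 j e]
  suffices (∀ j, ¬L j → w j = w₀ j) ∧ Cs (b + 1) w₀ w from this.2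
  have e0 : Cs (b + 1) w₀ w₀ := fun j => by simpa using by linarith
  induction h with
  | refl => exact ⟨fun _ _ => rfl, e0⟩
  | @tail w w' _ h ih =>
    have aux : ∀ y l, Ω y → Cs (b + 2) w₀ y → (∀ j, ¬L j → y j = w₀ j) → L l →
        |(w₀ l : ℤ) - y l| ≤ b := fun y l e1 e2 e3 e4 => abs_le.2 ⟨by
      linarith [key y w₀ e1 h4 e2 e3 l e4], key w₀ y h4 e1 (fun j => (e0 j).trans (by linarith))
        (fun j hj => (e3 j hj).symm) l e4⟩
    rcases h with h | h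
    · obtain ⟨e1, l, rfl, v, e2, e3, e4⟩ := h3 _ _ h
      have e5 : L l := ⟨v, e2, ih.2.trans e3 (by linarith), e4⟩
      have e6 := aux w l e1 (fun j => (ih.2 j).trans (by linarith)) ih.1 e5
      refine ⟨fun j hj => by simp [show j ≠ l from fun e => hj (e ▸ e5), ih.1 j hj], fun j => ?_⟩
      by_cases e : j = l
      · simp only [e, Pi.add_apply, Pi.single_eq_same, abs_le] at e6 ⊢
        omega
      · simpa [e] using ih.2 j
    · obtain ⟨e1, l, rfl, v, e2, e3, e4⟩ := h3 _ _ h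
      have e7 : Cs (b + 2) w₀ w' := ih.2.trans (cs_single w' l).symm (by linarith)
      have e5 : L l := ⟨v, e2, e7.trans e3 (by linarith), e4⟩
      have e8 : ∀ j, ¬L j → w' j = w₀ j := fun j hj => by
        simpa [show j ≠ l from fun e => hj (e ▸ e5)] using ih.1 j hj
      refine ⟨e8, fun j => ?_⟩
      by_cases e : j = l
      · exact e ▸ (aux w' l e1 e7 e8 e5).trans (by linarith)
      · simpa [e] using ih.2 j

theorem exists_series2 (hc : Conv u) (h0 : 0 < x) (h1 : x < 1) (hR : RootHyp2 u Al)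
    (hθ : ∀ I, Rel u (x / (1 - x)) θ I) : ∃ F : PowerSeries ℝ,
      (∀ N, HasSum (fun w : σ → ℕ => x ^ (∑ j, w j) * th2 u θ N w) (PowerSeries.coeff N F)) ∧
      ∃ D ∈ AlM x Al, (D : PowerSeries ℝ) * F ∈ PolyS := by
  classical
  refine ⟨SF u x (ps θ), fun N => by simpa [ps_zz] using (bd_ps (θ := θ)).hasSum (u := u) h0.le h1 0 N,
    exists_AlM_of_forall fun m _ => ?_⟩
  have : ∀ Y, ¬Crit u x Al m Y → ∃ w N, InC u Y w N ∧ (fac x (∑ j, w j, N) ∉ m ∨ Al (∑ j, w j, N)) :=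
    fun Y h => by simpa only [Crit, not_forall, not_and_or, not_not, exists_prop] using h
  choose! v M hv hM using this
  let A := Finset.univ.filter fun Y => ¬Crit u x Al m Y
  let β := fun Y => zl u (v Y) (M Y)
  have hβ : ∀ Y ∈ A, ∀ g, 0 ≤ β Y g := fun Y hY => (hv Y (Finset.mem_filter.1 hY).2).1
  refine bd_ps.mem_RR h0.le h1 (A := A) (β := β) (fun Y hY => ⟨hβ Y hY, _, _, rfl,
    hM Y (Finset.mem_filter.1 hY).2⟩) (mem_RR_of_PolyS (mem_PolyS_iff.2 ?_))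
  let b : ℤ := ∑ g, ∑ Y ∈ A, β Y g
  have hA : ∀ g, 0 ≤ ∑ Y ∈ A, β Y g := fun g => Finset.sum_nonneg fun Y hY => hβ Y hY g
  have hb : 0 ≤ b := Finset.sum_nonneg fun g _ => hA g
  have hb' : ∀ T ⊆ A, ∀ g, ∑ Y ∈ T, β Y g ≤ b := fun T hT g =>
    (Finset.sum_le_sum_of_subset_of_nonneg hT fun Y hY _ => hβ Y hY g).trans
      (Finset.single_le_sum (fun g _ => hA g) (Finset.mem_univ g))
  have hκ := one_le_kap (u := u)
  have hκ' : 0 ≤ kap u * b := mul_nonneg (by linarith) hb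
  let δ := kap u * (4 * b + 8) + b
  have hδ : b ≤ δ := by simp only [δ]; nlinarith
  obtain ⟨B, lab, hlab⟩ := exists_lab (u := u) (fun Y => (cl u Y).toRight)
    (fun _ _ h => Finset.toRight_subset_toRight (cl_mono u h)) (hb.trans hδ)
  obtain ⟨N₀, hN₀⟩ := dickson (u := u) (max B δ)
  refine ⟨N₀, fun N hN => ?_⟩
  let Ω : (σ → ℕ) → Prop := fun w => (∀ g, 0 ≤ zz u w N g) ∧ Crit u x Al m (At (zz u w N) b)
  have sup : ∀ η w, QQ β A (ps η) (zz u w N) ≠ 0 → Ω w := fun η w h =>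
    ⟨(bd_ps.qq hβ).2 _ h, by_contra fun h' => h (QQ_eq_zero (Finset.mem_filter.2
      ⟨Finset.mem_univ _, h'⟩) hb' fun g hg => (hv _ h').2 g (mem_At.2 hg))⟩
  have mono : ∀ (z : σ ⊕ ι → ℤ) {t t'}, t ≤ t' → At z t ⊆ At z t' := fun z _ _ h =>
    At_mono (δ := 0) (by simp) (by linarith)
  have gd := fun w (h : Ω w) Y (h2 : At (zz u w N) b ⊆ Y) (h3 : Y ⊆ At (zz u w N) (max B δ)) =>
    (hN₀ N hN w h.1).elim fun v h4 => h4.elim fun M h4 => Crit.good hc h0 h1 hR (Y := Y)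
      (fun w N h5 => h.2 w N (inC_anti h2 h5)) h4.1 (inC_anti h3 h4.2)
  have g1 : ∀ w, Ω w → ∀ l, ∃ i, zz u w N (Sum.inr i) ≤ b ∧ u i l ≠ 0 := fun w h l =>
    ((gd w h _ subset_rfl (mono _ (hδ.trans (le_max_right _ _)))).2.1 l).imp fun i hi =>
      ⟨mem_At.1 hi.1, hi.2⟩
  have g2 := fun w w' (h : Ω w) (h' : Ω w') (e : Cs (4 * b + 8) w w') => hlab _ _
    (fun Y e e' => (gd w h Y ((mono _ hδ).trans e) (e'.trans (mono _ (le_max_left _ _)))).2.2)
    (fun Y e e' => (gd w' h' Y ((mono _ hδ).trans e) (e'.trans (mono _ (le_max_left _ _)))).2.2)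
    fun g => (e.zz (by linarith) N g).trans (le_add_of_nonneg_right hb)
  let St : (σ → ℕ) → (σ → ℕ) → Prop := fun w w' => Ω w ∧ ∃ l, w' = w + Pi.single l 1 ∧
    ∃ v, Ω v ∧ Cs (b + 2) w v ∧ l ∈ lab (zz u v N)
  let R : Setoid (σ → ℕ) := ⟨Relation.ReflTransGen fun w w' => St w w' ∨ St w' w,
    fun _ => .refl, fun h => (@Relation.ReflTransGen.stdSymm _ _ ⟨fun _ _ => Or.symm⟩).symm _ _ h,
    .trans⟩
  let s := Fintype.piFinset fun _ : σ => Finset.range (N + b.toNat + 1)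
  have hs : ∀ w, Ω w → w ∈ s ∧ ∀ l, w + Pi.single l 1 ∈ s := fun w h => by
    have : ∀ l, w l + 1 ≤ N + b.toNat := fun l => by
      obtain ⟨i, h2, h3⟩ := g1 w h l
      have := (Finset.mem_filter.1 (mem_JJ_of_le u (i := i) (w := w) le_rfl h3)).2
      simp only [zz, Sum.elim_inr] at h2
      omega
    simp only [s, Fintype.mem_piFinset, Finset.mem_range]
    refine ⟨fun j => by have := this j; omega, fun l j => ?_⟩
    have := this j
    by_cases e : j = l <;> simp [e] at this ⊢ <;> omega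
  rw [SF, PowerSeries.coeff_mk, tsum_eq_sum (s := s) fun w hw => by_contra fun h =>
    hw (hs w (sup _ w (right_ne_zero_of_mul h))).1]
  refine Finset.sum_cancels_of_partition_cancels R fun y _ => by_contra fun h => ?_
  obtain ⟨w₀, h2, h3⟩ := Finset.exists_ne_zero_of_sum_ne_zero h
  have h4 := sup _ w₀ (right_ne_zero_of_mul h3)
  have h5 : ∀ w ∈ s.filter (R · y), Cs (b + 1) w₀ w := fun w hw => diam hb (fun w h => ⟨h.1, g1 w h⟩)
    (fun w w' h h' e i hi => (g2 w w' h h' e).2.mono (Finset.singleton_subset_iff.2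
      (Finset.mem_toRight.2 (subset_cl u _ (mem_At.2 (by simp only [δ]; nlinarith))))) subset_rfl
      subset_rfl) (fun _ _ => id) h4 (R.trans (Finset.mem_filter.1 h2).2
        (R.symm (Finset.mem_filter.1 hw).2))
  refine h (class_sum (sub_pos.2 h1).ne' hθ hβ (g2 w₀ w₀ h4 h4 fun j => by
    simpa using by linarith).1 _ N (fun w hw T hT g hg => ?_) fun l hl η w hw => ?_)
  · have h6 : δ < zz u w₀ N g := not_le.1 fun h => by
      have := subset_cl u _ (mem_At.2 h)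
      rcases g with j | i
      exacts [(gd w₀ h4 _ (mono _ hδ) (mono _ (le_max_right _ _))).1 j this,
        hg i (Finset.mem_toRight.2 this) rfl]
    have h7 := (abs_le.1 ((h5 w hw).zz (u := u) (by linarith) N g)).2
    have h8 := hb' T hT g
    have h9 : kap u ≤ (zz u w N - ∑ Y ∈ T, β Y) g := by
      simp only [Pi.sub_apply, Finset.sum_apply, δ] at h6 ⊢
      nlinarith
    refine ⟨by linarith, fun l => le_trans ?_ h9⟩
    rcases g with j | i
    · rw [zl_single_inl]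
      split_ifs <;> linarith
    · exact (zl_single_inr u l i).trans_le ((Finset.single_le_sum (f := fun j => (u i j : ℤ))
        (fun _ _ => Nat.cast_nonneg _) (Finset.mem_univ l)).trans (le_kap i).le)
  · have h6 := sup _ w hw
    have h7 : Cs (b + 2) w w₀ → R w (w + Pi.single l 1) := fun e =>
      .single (Or.inl ⟨h6, l, rfl, w₀, h4, e, hl⟩)
    exact ⟨fun e => Finset.mem_filter.2 ⟨(hs w h6).2 l, R.trans (R.symm (h7 fun j =>
      ((h5 w e).symm j).trans (by linarith))) (Finset.mem_filter.1 e).2⟩, fun e => Finset.mem_filter.2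
        ⟨(hs w h6).1, R.trans (h7 ((cs_single w l).trans (h5 _ e).symm (by linarith)))
          (Finset.mem_filter.1 e).2⟩⟩

end RA

end

end Pool.Agent.P.MP_b91a16_ag
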