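import Mathlib

/-! Rational polyhedral cones, theorems of the alternative, generic points, Rado's theorem. -/

set_option linter.unusedSectionVars false

open Filter

namespace Pool.Agent.P.MP_b91a16_ag

noncomputable section

namespace Cv

variable {τ α : Type} [Fintype τ] [DecidableEq τ]

theorem weyl [DecidableEq α] (a : α → τ → ℚ) (s : Finset α) : ∃ Φ : Finset (τ → ℚ), ∀ b : τ → ℚ,
    (∃ x : α → ℚ, (∀ i, 0 ≤ x i) ∧ b = ∑ i ∈ s, x i • a i) ↔ ∀ l ∈ Φ, 0 ≤ l ⬝ᵥ b := by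
  classical
  induction s using Finset.induction_on with
  | empty =>
    refine ⟨Finset.univ.image (fun o => Pi.single o 1) ∪ Finset.univ.image (fun o => -Pi.single o 1),
      fun b => ⟨?_, fun h => ⟨0, fun _ => le_rfl, funext fun o => ?_⟩⟩⟩
    · rintro ⟨x, -, rfl⟩ l -
      simp
    · have h1 := h (Pi.single o 1) (by simp)
      have h2 := h (-Pi.single o 1) (by simp)
      simp only [single_one_dotProduct, neg_dotProduct, Left.nonneg_neg_iff] at h1 h2
      simpa using le_antisymm h2 h1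
  | insert i s hi ih =>
    obtain ⟨Φ, hΦ⟩ := ih
    refine ⟨Φ.filter (fun l => 0 ≤ l ⬝ᵥ a i) ∪ (((Φ ×ˢ Φ).filter fun p => 0 < p.1 ⬝ᵥ a i ∧
      p.2 ⬝ᵥ a i < 0).image fun p => (p.1 ⬝ᵥ a i) • p.2 - (p.2 ⬝ᵥ a i) • p.1), fun b => ⟨?_, fun h => ?_⟩⟩
    · rintro ⟨x, hx, rfl⟩ l hl
      have h1 := (hΦ _).1 ⟨x, hx, rfl⟩
      rw [Finset.sum_insert hi, dotProduct_add, dotProduct_smul, smul_eq_mul]
      rcases Finset.mem_union.1 hl with hl | hl
      · obtain ⟨h2, h3⟩ := Finset.mem_filter.1 hl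
        exact add_nonneg (mul_nonneg (hx i) h3) (h1 l h2)
      · obtain ⟨p, hp, rfl⟩ := Finset.mem_image.1 hl
        obtain ⟨h2, h3, h4⟩ := Finset.mem_filter.1 hp
        have h5 := h1 _ (Finset.mem_product.1 h2).1
        have h6 := h1 _ (Finset.mem_product.1 h2).2
        simp only [sub_dotProduct, smul_dotProduct, smul_eq_mul]
        nlinarith [mul_nonneg h3.le h6, mul_nonneg (neg_nonneg.2 h4.le) h5]
    · obtain ⟨t, ht, ht'⟩ := Finset.exists_max_image (insert 0 ((Φ.filter fun l => l ⬝ᵥ a i < 0).image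
        fun l => (l ⬝ᵥ b) / (l ⬝ᵥ a i))) id ⟨0, Finset.mem_insert_self _ _⟩
      have h0 : 0 ≤ t := ht' 0 (Finset.mem_insert_self _ _)
      obtain ⟨x, hx, e⟩ := (hΦ (b - t • a i)).2 fun l hl => by
        rw [dotProduct_sub, dotProduct_smul, smul_eq_mul, sub_nonneg]
        rcases lt_trichotomy (l ⬝ᵥ a i) 0 with h1 | h1 | h1
        · have := ht' _ (Finset.mem_insert_of_mem (Finset.mem_image_of_mem _
            (Finset.mem_filter.2 ⟨hl, h1⟩)))
          exact (div_le_iff_of_neg h1).1 this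
        · rw [h1, mul_zero]
          exact h l (Finset.mem_union_left _ (Finset.mem_filter.2 ⟨hl, h1.ge⟩))
        · rcases Finset.mem_insert.1 ht with rfl | ht
          · rw [zero_mul]
            exact h l (Finset.mem_union_left _ (Finset.mem_filter.2 ⟨hl, h1.le⟩))
          · obtain ⟨l', hl', rfl⟩ := Finset.mem_image.1 ht
            obtain ⟨h2, h3⟩ := Finset.mem_filter.1 hl'
            have := h _ (Finset.mem_union_right _ (Finset.mem_image_of_mem _ (Finset.mem_filter.2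
              ⟨Finset.mk_mem_product hl h2, h1, h3⟩)))
            simp only [sub_dotProduct, smul_dotProduct, smul_eq_mul] at this
            rw [div_mul_eq_mul_div, div_le_iff_of_neg h3]
            linarith
      refine ⟨Function.update x i t, fun j => ?_, ?_⟩
      · by_cases hj : j = i <;> simp [hj, h0, hx]
      · rw [Finset.sum_insert hi, Function.update_self, Finset.sum_congr rfl fun j hj => by
          rw [Function.update_of_ne (ne_of_mem_of_not_mem hj hi)], ← e]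
        abel

theorem tucker [Fintype α] [DecidableEq α] (a : α → τ → ℚ) : ∃ (x : α → ℚ) (y : τ → ℚ),
    (∀ i, 0 ≤ x i) ∧ ∑ i, x i • a i = 0 ∧ (∀ i, 0 ≤ y ⬝ᵥ a i) ∧ ∀ i, 0 < x i + y ⬝ᵥ a i := by
  obtain ⟨Φ, hΦ⟩ := weyl a Finset.univ
  have h1 : ∀ l ∈ Φ, ∀ i, 0 ≤ l ⬝ᵥ a i := fun l hl i => (hΦ _).1 ⟨Pi.single i 1, fun j => by
    rw [Pi.single_apply]; positivity, by simp [Pi.single_apply]⟩ l hl
  have : ∀ k, ∃ (x : α → ℚ) (y : τ → ℚ), (∀ i, 0 ≤ x i) ∧ ∑ i, x i • a i = 0 ∧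
      (∀ i, 0 ≤ y ⬝ᵥ a i) ∧ 0 < x k + y ⬝ᵥ a k := by
    intro k
    by_cases h : ∀ l ∈ Φ, 0 ≤ l ⬝ᵥ (-a k)
    · obtain ⟨x, hx, e⟩ := (hΦ _).2 h
      refine ⟨x + Pi.single k 1, 0, fun i => add_nonneg (hx i) (by rw [Pi.single_apply]; positivity),
        by simp [add_smul, Finset.sum_add_distrib, ← e, Pi.single_apply], by simp, ?_⟩
      have := hx k
      simp only [Pi.add_apply, Pi.single_eq_same, zero_dotProduct]
      linarith
    · push Not at h
      obtain ⟨l, hl, h⟩ := h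
      exact ⟨0, l, fun _ => le_rfl, by simp, h1 l hl, by simpa using h⟩
  choose x y h2 h3 h4 h5 using this
  refine ⟨∑ k, x k, ∑ k, y k, fun i => ?_, ?_, fun i => ?_, fun i => ?_⟩
  · rw [Finset.sum_apply]
    exact Finset.sum_nonneg fun k _ => h2 k i
  · simp only [Finset.sum_apply, Finset.sum_smul]
    rw [Finset.sum_comm]
    simp [h3]
  · rw [sum_dotProduct]
    exact Finset.sum_nonneg fun k _ => h4 k i
  · rw [Finset.sum_apply, sum_dotProduct, ← Finset.sum_add_distrib]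
    exact Finset.sum_pos' (fun k _ => add_nonneg (h2 k i) (h4 k i)) ⟨i, Finset.mem_univ _, h5 i⟩

theorem skew (M : τ → τ → ℚ) (hM : ∀ i j, M i j = -M j i) : ∃ w : τ → ℚ, (∀ i, 0 ≤ w i) ∧
    (∀ i, 0 ≤ M i ⬝ᵥ w) ∧ (∀ i, 0 < w i + M i ⬝ᵥ w) ∧ ∀ i, w i * (M i ⬝ᵥ w) = 0 := by
  obtain ⟨x, y, h1, h2, h3, h4⟩ := tucker (τ := τ) (α := τ ⊕ τ) (Sum.elim (fun i => Pi.single i 1) M)
  have h5 : ∀ i, M i ⬝ᵥ (fun j => x (Sum.inr j)) = x (Sum.inl i) := fun i => by
    have := congrFun h2 i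
    simp only [Fintype.sum_sum_type, Sum.elim_inl, Sum.elim_inr, Finset.sum_apply,
      Pi.smul_apply, Pi.single_apply, smul_eq_mul, mul_ite, mul_one, mul_zero, Finset.sum_ite_eq,
      Finset.mem_univ, if_true, Pi.zero_apply] at this
    rw [dotProduct, Finset.sum_congr rfl fun j _ => by rw [hM i j, neg_mul, mul_comm],
      Finset.sum_neg_distrib]
    linarith
  have h6 : ∀ i, 0 ≤ y i := fun i => by simpa using h3 (Sum.inl i)
  have h7 : ∀ i, 0 ≤ M i ⬝ᵥ y := fun i => by simpa [dotProduct_comm] using h3 (Sum.inr i)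
  have h8 : ∀ i, 0 ≤ (y + fun j => x (Sum.inr j)) i := fun i => add_nonneg (h6 i) (h1 _)
  have h9 : ∀ i, 0 ≤ M i ⬝ᵥ (y + fun j => x (Sum.inr j)) := fun i => by
    rw [dotProduct_add, h5]
    exact add_nonneg (h7 i) (h1 _)
  refine ⟨_, h8, h9, fun i => ?_, fun i => ?_⟩
  · have e1 := h4 (Sum.inl i)
    have e2 := h4 (Sum.inr i)
    simp only [Sum.elim_inl, Sum.elim_inr, dotProduct_comm y, single_one_dotProduct] at e1 e2
    rw [dotProduct_add, h5, Pi.add_apply]
    linarith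
  · generalize (y + fun j => x (Sum.inr j)) = w at h8 h9
    refine (Finset.sum_eq_zero_iff_of_nonneg fun i _ => mul_nonneg (h8 i) (h9 i)).1 ?_ i
      (Finset.mem_univ i)
    have : ∑ i, w i * (M i ⬝ᵥ w) = -∑ i, w i * (M i ⬝ᵥ w) := by
      simp only [dotProduct, Finset.mul_sum, ← Finset.sum_neg_distrib]
      rw [Finset.sum_comm]
      refine Finset.sum_congr rfl fun i _ => Finset.sum_congr rfl fun j _ => ?_
      rw [hM j i]
      ring
    linarith

theorem ev_small (c d : ℚ) (hc : 0 < c) : ∀ᶠ n : ℕ in atTop, 0 < c + (1 / (n + 1) : ℚ) * d := by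
  obtain ⟨N, hN⟩ := exists_nat_gt (|d| / c)
  refine eventually_atTop.2 ⟨N, fun n hn => ?_⟩
  have h1 : (N : ℚ) ≤ n := by exact_mod_cast hn
  have h2 : (0 : ℚ) < n + 1 := by positivity
  rw [div_lt_iff₀ hc] at hN
  rw [one_div, inv_mul_eq_div, ← sub_neg_eq_add, sub_pos, ← neg_div, div_lt_iff₀ h2]
  nlinarith [neg_abs_le d]

theorem exists_generic (U : Submodule ℚ (τ → ℚ)) (H : Finset (Submodule ℚ (τ → ℚ)))
    (O : Finset (τ → ℚ)) {q₀ : τ → ℚ} (h0 : q₀ ∈ U) (h1 : ∀ l ∈ O, 0 < l ⬝ᵥ q₀) :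
    ∃ q ∈ U, (∀ l ∈ O, 0 < l ⬝ᵥ q) ∧ ∀ h ∈ H, q ∈ h → U ≤ h := by
  classical
  obtain ⟨g, hg⟩ : ∃ g : U, ∀ h ∈ H, ¬U ≤ h → g.1 ∉ h := by
    have := Subspace.biUnion_ne_univ_of_top_notMem (k := ℚ) (E := U)
      (s := (H.filter fun h => ¬U ≤ h).image fun h => h.comap U.subtype) (by
        simp only [Finset.mem_image, Finset.mem_filter, not_exists, not_and, and_imp]
        exact fun h _ h2 h3 => h2 (Submodule.comap_subtype_eq_top.1 h3))
    obtain ⟨g, hg⟩ := (Set.ne_univ_iff_exists_notMem _).1 this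
    refine ⟨g, fun h h2 h3 h4 => hg ?_⟩
    exact Set.mem_biUnion (Finset.mem_coe.2 (Finset.mem_image_of_mem _
      (Finset.mem_filter.2 ⟨h2, h3⟩))) h4
  have h2 : ∀ h ∈ H, ∀ᶠ n : ℕ in atTop, q₀ + (1 / (n + 1) : ℚ) • g.1 ∈ h → U ≤ h := by
    intro h hh
    by_cases h3 : ∃ n : ℕ, q₀ + (1 / (n + 1) : ℚ) • g.1 ∈ h
    · obtain ⟨n, hn⟩ := h3
      refine (eventually_gt_atTop n).mono fun m hm h4 => by_contra fun h5 => hg h hh h5 ?_
      have h6 : (1 / (n + 1) - 1 / (m + 1) : ℚ) ≠ 0 := by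
        refine sub_ne_zero.2 (one_div_lt_one_div_of_lt (by positivity) ?_).ne'
        exact_mod_cast Nat.succ_lt_succ hm
      refine (h.smul_mem_iff h6).1 ?_
      convert sub_mem hn h4 using 1
      rw [sub_smul]
      abel
    · exact Eventually.of_forall fun n h4 => absurd ⟨n, h4⟩ h3
  obtain ⟨n, h3, h4⟩ := (((eventually_all_finset O).2 fun l hl =>
    ev_small _ (l ⬝ᵥ g.1) (h1 l hl)).and ((eventually_all_finset H).2 h2)).exists
  exact ⟨_, add_mem h0 (U.smul_mem _ g.2), fun l hl => by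
    simpa only [dotProduct_add, dotProduct_smul, smul_eq_mul] using h3 l hl, h4⟩

theorem exists_den (s : Finset ℚ) : ∃ D : ℕ, 0 < D ∧ ∀ r ∈ s, ∃ z : ℤ, (z : ℚ) = D * r := by
  refine ⟨∏ r ∈ s, r.den, Finset.prod_pos fun r _ => r.den_pos, fun r hr => ?_⟩
  classical
  rw [← Finset.mul_prod_erase _ _ hr]
  refine ⟨r.num * ∏ r ∈ s.erase r, (r.den : ℤ), ?_⟩
  push_cast
  rw [mul_right_comm, Rat.den_mul_eq_num]

theorem disc (Φ : Finset (τ → ℚ)) (c : τ → ℚ) : ∃ D : ℕ, 0 < D ∧ ∀ l ∈ Φ, ∀ p : τ → ℤ,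
    ∃ z : ℤ, (z : ℚ) = D * (l ⬝ᵥ fun o => c o + p o) := by
  classical
  obtain ⟨D, hD, h⟩ := exists_den (Φ.image (· ⬝ᵥ c) ∪ (Φ ×ˢ Finset.univ).image fun x => x.1 x.2)
  refine ⟨D, hD, fun l hl p => ?_⟩
  obtain ⟨z, hz⟩ := h _ (Finset.mem_union_left _ (Finset.mem_image_of_mem _ hl))
  choose z' hz' using fun o => h _ (Finset.mem_union_right _ (Finset.mem_image_of_mem _
    (Finset.mk_mem_product hl (Finset.mem_univ o))))
  refine ⟨z + ∑ o, z' o * p o, ?_⟩
  push_cast
  simp only [hz, hz', dotProduct, mul_add, Finset.sum_add_distrib, Finset.mul_sum, mul_assoc]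

/-- The rank of a finite family of vectors. -/
def rk {ι : Type} (x : ι → τ → ℚ) (J : Finset ι) : ℕ :=
  Module.finrank ℚ (Submodule.span ℚ (x '' J))

theorem rk_mono {ι : Type} (x : ι → τ → ℚ) {J J' : Finset ι} (h : J ⊆ J') : rk x J ≤ rk x J' :=
  Submodule.finrank_mono (Submodule.span_mono (Set.image_mono h))

theorem rk_submod {ι : Type} [DecidableEq ι] (x : ι → τ → ℚ) (J J' : Finset ι) :
    rk x (J ∪ J') + rk x (J ∩ J') ≤ rk x J + rk x J' := by
  unfold rk
  rw [← Submodule.finrank_sup_add_finrank_inf_eq (Submodule.span ℚ (x '' J)), Finset.coe_union, Set.image_union,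
    Submodule.span_union, add_le_add_iff_left]
  exact Submodule.finrank_mono (le_inf (Submodule.span_mono (Set.image_mono (by simp)))
    (Submodule.span_mono (Set.image_mono (by simp))))

theorem rado {ι : Type} [DecidableEq ι] [Fintype α] [DecidableEq α] (x : ι → τ → ℚ)
    (A : α → Finset ι) (h : ∀ T : Finset α, T.card ≤ rk x (T.biUnion A)) :
    ∃ f : α → ι, (∀ b, f b ∈ A b) ∧ LinearIndependent ℚ (x ∘ f) := by
  induction hn : ∑ b, (A b).card using Nat.strong_induction_on generalizing A with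
  | _ n ih =>
  by_cases h1 : ∀ b, (A b).card ≤ 1
  · have : ∀ b, ∃ i, A b = {i} := fun b => Finset.card_eq_one.1 (le_antisymm (h1 b) (by
      by_contra h2
      have := h {b}
      simp [Finset.card_eq_zero.1 (Nat.lt_one_iff.1 (not_le.1 h2)), rk] at this))
    choose f hf using this
    refine ⟨f, fun b => by simp [hf], linearIndependent_iff_card_le_finrank_span.2 ?_⟩
    have := h Finset.univ
    have e : x '' (Finset.univ.biUnion A : Finset ι) = Set.range (x ∘ f) := by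
      ext y
      simp [hf]
    rwa [Finset.card_univ, rk, e] at this
  push Not at h1
  obtain ⟨b, hb⟩ := h1
  obtain ⟨i, hi, i', hi', hne⟩ := Finset.one_lt_card.1 hb
  have key : ∀ i ∈ A b, (∃ f : α → ι, (∀ b, f b ∈ A b) ∧ LinearIndependent ℚ (x ∘ f)) ∨
      ∃ T : Finset α, b ∉ T ∧ rk x (T.biUnion A ∪ (A b).erase i) ≤ T.card := by
    intro i hi
    by_cases h2 : ∀ T : Finset α, T.card ≤ rk x (T.biUnion (Function.update A b ((A b).erase i)))
    · obtain ⟨f, h3, h4⟩ := ih _ (by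
        rw [← hn]
        refine Finset.sum_lt_sum (fun b' _ => ?_) ⟨b, Finset.mem_univ _, ?_⟩
        · by_cases e : b' = b
          · simp [e, Finset.card_erase_le]
          · simp [e]
        · simpa using Finset.card_erase_lt_of_mem hi) _ h2 rfl
      refine Or.inl ⟨f, fun b' => ?_, h4⟩
      have := h3 b'
      by_cases e : b' = b
      · subst e
        exact Finset.mem_of_mem_erase (by simpa using this)
      · simpa [e] using this
    · push Not at h2
      obtain ⟨T, hT⟩ := h2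
      have e : (T.erase b).biUnion (Function.update A b ((A b).erase i)) = (T.erase b).biUnion A :=
        Finset.biUnion_congr rfl fun b' hb' => Function.update_of_ne (Finset.ne_of_mem_erase hb') _ _
      by_cases hb : b ∈ T
      · refine Or.inr ⟨T.erase b, Finset.notMem_erase _ _, ?_⟩
        rw [← Finset.insert_erase hb, Finset.biUnion_insert, e, Function.update_self,
          Finset.card_insert_of_notMem (Finset.notMem_erase _ _), Finset.union_comm] at hT
        omega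
      · rw [Finset.erase_eq_of_notMem hb] at e
        exact absurd (h T) (by rw [← e]; omega)
  rcases key i hi with h2 | ⟨T, h2, h3⟩
  · exact h2
  rcases key i' hi' with h4 | ⟨T', h4, h5⟩
  · exact h4
  exfalso
  have h6 := rk_submod x (T.biUnion A ∪ (A b).erase i) (T'.biUnion A ∪ (A b).erase i')
  have h7 := (h (insert b (T ∪ T'))).trans (rk_mono x
    (J' := (T.biUnion A ∪ (A b).erase i) ∪ (T'.biUnion A ∪ (A b).erase i')) fun j hj => by
      simp only [Finset.mem_biUnion, Finset.mem_insert, Finset.mem_union, Finset.mem_erase] at hj ⊢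
      obtain ⟨c, rfl | hc | hc, hj⟩ := hj
      · by_cases e : j = i
        · exact Or.inr (Or.inr ⟨e ▸ hne, hj⟩)
        · exact Or.inl (Or.inr ⟨e, hj⟩)
      · exact Or.inl (Or.inl ⟨c, hc, hj⟩)
      · exact Or.inr (Or.inl ⟨c, hc, hj⟩))
  have h8 := (h (T ∩ T')).trans (rk_mono x
    (J' := (T.biUnion A ∪ (A b).erase i) ∩ (T'.biUnion A ∪ (A b).erase i')) fun j hj => by
      simp only [Finset.mem_biUnion, Finset.mem_inter, Finset.mem_union] at hj ⊢
      obtain ⟨c, hc, hj⟩ := hj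
      exact ⟨Or.inl ⟨c, hc.1, hj⟩, Or.inl ⟨c, hc.2, hj⟩⟩)
  rw [Finset.card_insert_of_notMem (by simp [h2, h4])] at h7
  have := Finset.card_union_add_card_inter T T'
  omega

end Cv

end

end Pool.Agent.P.MP_b91a16_ag
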