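import Pool.Agent.P.MP_b91a16_ag.Reidx
import Pool.Agent.P.MP_b91a16_ag.CvPoly

/-! Depth of conic modules over the faces of a nondegenerate Newton polyhedron. -/

set_option linter.unusedSectionVars false

open Filter

namespace Pool.Agent.P.MP_b91a16_ag

noncomputable section

namespace Kos

variable {Λ σ : Type} [CommRing Λ] {F : σ → Λ} {A B C : AddSubgroup Λ} {L : List σ}

theorem ex_neg {i : ℤ} (hi : i < 0) : Ex F L A B i := fun c hc _ => by
  rw [fam_eq_zero L i (Or.inl hi) c hc]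
  exact ⟨0, zero_mem _, by simp⟩

theorem ex_trans {i : ℤ} (h1 : C ≤ B) (h2 : B ≤ A) (h : Ex F L A B i) (h' : Ex F L B C i) :
    Ex F L A C i := by
  intro c hc hd
  obtain ⟨c', h3, h4⟩ := h c hc (fam_mono h1 L _ _ hd)
  obtain ⟨c'', h5, h6⟩ := h' _ h4 (by rwa [map_sub, dd_dd, sub_zero])
  exact ⟨c' + c'', add_mem h3 (fam_mono h2 L _ _ h5), by rwa [map_add, ← sub_sub]⟩

theorem ex_step [DecidableEq σ] (hA : ∀ l, ∀ x ∈ A, F l * x ∈ A) (hB : ∀ l, ∀ x ∈ B, F l * x ∈ B)
    {t : Λ} (hw : ∀ x ∈ A, t * x ∈ B → x ∈ B) (hn : Nil F L.toFinset A B t) {i : ℤ}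
    (h1 : Ex F L A (B ⊔ A.map (AddMonoidHom.mulLeft t)) (i - 1)) : Ex F L A B i := by
  obtain ⟨tA, tB, r, s, sA, sB, hs⟩ := hn
  have key : ∀ c ∈ fam A L i, (∃ c' ∈ fam A L (i - 1), t • c - dd F L c' ∈ fam B L i) →
      ∃ c' ∈ fam A L (i - 1), c - dd F L c' ∈ fam B L i := by
    rintro c hc ⟨c', hc', h⟩
    obtain ⟨c'', -, h2⟩ := h1 c' hc' (by
      rw [sub_add_cancel, show dd F L c' = t • c - (t • c - dd F L c') by abel]
      exact sub_mem (fam_smul (fun x hx => AddSubgroup.mem_sup_right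
        (AddSubgroup.mem_map.2 ⟨x, hx, rfl⟩)) L i c hc) (fam_mono le_sup_left L i _ h))
    obtain ⟨e, he, h3⟩ := fam_sup L _ _ h2
    have h4 := fam_dd hB L _ _ h3
    have h5 := fam_dd hA L _ _ he
    rw [sub_add_cancel] at h4 h5
    refine ⟨e, he, fam_cancel hw L i _ (sub_mem hc h5) ?_⟩
    have := add_mem h h4
    simp only [map_sub, map_smul, dd_dd] at this
    convert this using 1
    rw [smul_sub]
    abel
  intro c hc hd
  have hr : ∃ c' ∈ fam A L (i - 1), t ^ r • c - dd F L c' ∈ fam B L i := by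
    have : ∀ J ⊆ L.toFinset, ∃ c' ∈ fam A L (i - 1),
        (∑ l ∈ J, s l * F l) • c - dd F L c' ∈ fam B L i := by
      intro J hJ
      induction J using Finset.induction_on with
      | empty => exact ⟨0, zero_mem _, by simp⟩
      | insert l J hl ih' =>
        obtain ⟨c', hc', h⟩ := ih' ((Finset.subset_insert _ _).trans hJ)
        obtain ⟨h0, h2, h3⟩ := exists_htp (F := F) L l
          (List.mem_toFinset.1 (hJ (Finset.mem_insert_self _ _)))
        refine ⟨s l • h0 c + c', add_mem (fam_smul (sA l) L _ _ (h2 A _ _ (by simpa using hc)))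
          hc', ?_⟩
        have := add_mem (fam_smul (sB l) L _ _ (h2 B _ _ hd)) h
        convert this using 1
        rw [Finset.sum_insert hl, add_smul, mul_smul, ← h3 c, map_add, map_smul, smul_add]
        abel
    obtain ⟨c', hc', h⟩ := this _ subset_rfl
    refine ⟨c', hc', ?_⟩
    have := add_mem (fam_smul hs L i c hc) h
    convert this using 1
    rw [sub_smul]
    abel
  clear hs
  induction r with
  | zero => simpa using hr
  | succ r ih' =>
    refine ih' (key _ (fam_smul (fun x hx => ?_) L i c hc) (by rwa [← mul_smul, ← pow_succ']))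
    clear hr ih'
    induction r with
    | zero => simpa using hx
    | succ r ih'' => rw [pow_succ', mul_assoc]; exact tA _ ih''

theorem regular' {π : ℤ → Λ →+ Λ} {d₀ : ℤ} {a : σ} (hG : Grd F A B π d₀)
    (hA : ∀ l, ∀ x ∈ A, F l * x ∈ A) (hB : ∀ l, ∀ x ∈ B, F l * x ∈ B) (L' : List σ)
    (h : ∀ i < ((L' ++ a :: L).length : ℤ), Ex F (L' ++ a :: L) A B i) {x : Λ} (hx : x ∈ A)
    (h1 : F a * x ∈ Sm F A L ⊔ B) : x ∈ Sm F A L ⊔ B := by
  refine inj_of_ex ?_ hx h1
  induction L' with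
  | nil => exact h _ (by simp)
  | cons b L' ih =>
    exact ih fun i hi => ex_tail hG hA hB (h (i + 1) (by
      simp only [List.cons_append, List.length_cons] at hi ⊢
      omega))

end Kos

namespace RA

open Cv

variable {k σ ι : Type} [Field k] [CharZero k] [Fintype σ] [DecidableEq σ] [Fintype ι]
  [DecidableEq ι]
variable (u : ι → σ → ℕ) (a : ι → k)

def hv (i : ι) : Option σ → ℚ := fun o => hat u (Sum.inr i) o

/-- A weight that cuts out a compact face. -/
def Val (ω : Option σ → ℚ) : Prop :=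
  ω none < 0 ∧ (∀ j, 0 < ω (some j)) ∧ ∀ i, 0 ≤ ω ⬝ᵥ hv u i

def Fc (I : Finset ι) : Prop := ∃ ω, Val u ω ∧ ∀ i, i ∈ I ↔ ω ⬝ᵥ hv u i = 0

def ND2 : Prop := ∀ I, Fc u I → I.Nonempty →
  ∃ (r : ℕ) (h : σ → MvPolynomial σ k), ∑ l, h l * EU u a I l = (∏ j, MvPolynomial.X j) ^ r

def Dep (J : Finset σ) (D : Set (Pt σ)) (d : ℕ) : Prop :=
  ∀ A B, Closed u A → Closed u B → B ⊆ A → A \ B = D → ∀ L : List σ, L.toFinset = J →
    ∀ i : ℤ, i < d → Kos.Ex (Fl u a) L (sp k A).toAddSubgroup (sp k B).toAddSubgroup i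

variable {u a} {J : Finset σ} {D D' : Set (Pt σ)} {d : ℕ}

theorem qv_sh (c : Option σ → ℚ) (p : Pt σ) (i : ι) :
    qv c (p + sh u (Sum.inr i)) = qv c p + hv u i := funext fun o => by simp [qv_add, sh, hv]

theorem Dep.reg (h : Dep u a J D d) (hd : J.card ≤ d) {A B : Set (Pt σ)} (hA : Closed u A)
    (hB : Closed u B) (hBA : B ⊆ A) (hD : A \ B = D) {d₀ : ℤ} (h0 : ∀ p ∈ A, d₀ ≤ deg p) :
    Reg (fun l => LinearMap.mulLeft k (Fl u a l)) J (sp k A) (sp k B) := by
  intro I hI b hb hbI x hx h1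
  have e : ∀ L : List σ, Kos.Sm (Fl u a) (sp k A).toAddSubgroup L =
      (Im (fun l => LinearMap.mulLeft k (Fl u a l)) L.toFinset fun _ => sp k A).toAddSubgroup := by
    intro L
    induction L with
    | nil => rfl
    | cons a L ih =>
      rw [List.toFinset_cons, Im_insert, Kos.Sm, ih, Submodule.sup_toAddSubgroup]
      rfl
  have e2 : ((J \ insert b I).toList ++ b :: I.toList).toFinset = J := by
    simp only [List.toFinset_append, Finset.toList_toFinset, List.toFinset_cons]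
    exact Finset.sdiff_union_of_subset (Finset.insert_subset hb hI)
  have := Kos.regular' (F := Fl u a) (A := (sp k A).toAddSubgroup) (B := (sp k B).toAddSubgroup)
    (a := b) (L := I.toList) (π := fun e => (pi deg e).toAddMonoidHom) (d₀ := d₀)
    ⟨pi_Fl, fun _ _ => diag_mem _, fun _ _ => diag_mem _, pi_low h0, (gr_pi deg).fin⟩
    (fun l => hA.fx a _ _) (fun l => hB.fx a _ _) (J \ insert b I).toList
    (fun i hi => h A B hA hB hBA hD _ e2 i (by
      have := Finset.card_sdiff_add_card_eq_card (Finset.insert_subset hb hI)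
      rw [Finset.card_insert_of_notMem hbI] at this
      simp only [List.length_append, Finset.length_toList, List.length_cons] at hi
      omega)) hx (by rwa [e, Finset.toList_toFinset, ← Submodule.sup_toAddSubgroup])
  rwa [e, Finset.toList_toFinset, ← Submodule.sup_toAddSubgroup] at this

theorem dep_empty : Dep u a J ∅ d := fun A B _ _ _ h L _ i _ c hc _ =>
  ⟨0, zero_mem _, by
    simpa using Kos.fam_mono (sp_mono (k := k) (Set.sdiff_eq_empty.1 h)) L i c hc⟩

theorem Dep.union (h : Dep u a J D d) (h' : Dep u a J D' d) (h1 : ∀ p ∈ D', p ∉ D)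
    (h2 : ∀ p ∈ D', ∀ g, p + sh u g ∉ D) : Dep u a J (D ∪ D') d := by
  intro A B hA hB hBA hD L hL i hi
  have h3 : ∀ p, p ∈ D ∨ p ∈ D' ↔ p ∈ A ∧ p ∉ B := fun p => (Set.ext_iff.1 hD p).symm
  have h4 : Closed u (B ∪ D') := by
    rintro p (hp | hp) g
    · exact Or.inl (hB p hp g)
    · exact or_iff_not_imp_left.2 fun h5 =>
        ((h3 _).2 ⟨hA p ((h3 p).1 (Or.inr hp)).1 g, h5⟩).resolve_left (h2 p hp g)
  have h5 : B ∪ D' ⊆ A := Set.union_subset hBA fun p hp => ((h3 p).1 (Or.inr hp)).1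
  refine Kos.ex_trans (sp_mono (k := k) Set.subset_union_left) (sp_mono (k := k) h5)
    (h A _ hA h4 h5 (Set.ext fun p => ?_) L hL i hi)
    (h' _ B h4 hB Set.subset_union_left (Set.ext fun p => ?_) L hL i hi)
  · have := h3 p
    have := h1 p
    simp only [Set.mem_sdiff, Set.mem_union]
    tauto
  · have := h3 p
    simp only [Set.mem_sdiff, Set.mem_union]
    tauto

theorem dep_biUnion (V : Finset ℚ) (E : ℚ → Set (Pt σ))
    (hE : ∀ v ∈ V, ∀ v' ∈ V, ∀ p ∈ E v', ∀ g, p + sh u g ∈ E v → p ∈ E v)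
    (h : ∀ v ∈ V, Dep u a J {p | p ∈ E v ∧ ∀ v' ∈ V, v' < v → p ∉ E v'} d) :
    Dep u a J {p | ∃ v ∈ V, p ∈ E v} d := by
  induction V using Finset.induction_on_max with
  | empty => simpa using dep_empty
  | insert v V hv ih =>
    have h1 := Finset.mem_insert_self v V
    have h2 : ∀ {v'}, v' ∈ V → v' ∈ insert v V := Finset.mem_insert_of_mem
    convert (ih (fun v hv v' hv' => hE v (h2 hv) v' (h2 hv')) fun v' hv' => by
      convert h v' (h2 hv') using 3
      simp [(hv v' hv').not_gt]).union (h v h1) (fun p hp ⟨v', h3, h4⟩ =>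
        hp.2 v' (h2 h3) (hv v' h3) h4) fun p hp g ⟨v', h3, h4⟩ =>
        hp.2 v' (h2 h3) (hv v' h3) (hE v' (h2 h3) v h1 p hp.1 g h4) using 1
    ext p
    simp only [Finset.mem_insert, exists_eq_or_imp, Set.mem_union, Set.mem_ofPred_eq, forall_eq_or_imp,
      lt_irrefl, false_imp_iff, true_and]
    constructor
    · rintro (h3 | h3)
      · by_cases h4 : ∃ v' ∈ V, p ∈ E v'
        · exact Or.inl h4
        · exact Or.inr ⟨h3, fun v' h5 _ h6 => h4 ⟨v', h5, h6⟩⟩
      · exact Or.inl h3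
    · rintro (h3 | h3)
      exacts [Or.inr h3, Or.inl h3.1]

theorem fs_of_eu {I : Finset ι} {r : ℕ} {c : σ → MvPolynomial σ k}
    (h5 : ∑ l, c l * EU u a I l = (∏ j, MvPolynomial.X j) ^ r) :
    ∃ h : σ → Lm k σ, ∑ l, h l * FS u a (I.map Function.Embedding.inr) l = 1 := by
  let φ : MvPolynomial σ k →ₐ[k] Lm k σ := MvPolynomial.aeval fun j => ee (xm (Pi.single j 1) 0)
  have e1 : ∀ e : σ → ℕ, φ (∏ j, MvPolynomial.X j ^ e j) = ee (xm (fun j => e j) 0) := fun e => by
    simp only [φ, map_prod, map_pow, MvPolynomial.aeval_X, ee_pow]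
    have : ∀ (s : Finset σ) (f : σ → Pt σ), ∏ j ∈ s, (ee (f j) : Lm k σ) = ee (∑ j ∈ s, f j) := by
      intro s f
      induction s using Finset.induction_on with
      | empty => rfl
      | insert j s hj ih => rw [Finset.prod_insert hj, Finset.sum_insert hj, ih, ee_mul]
    rw [this]
    congr 1
    refine Prod.ext (funext fun o => ?_) (by simp [xm, Prod.snd_sum])
    cases o <;> simp [xm, Prod.fst_sum, Pi.single_apply]
  have e2 : ∀ l, FS u a (I.map Function.Embedding.inr) l = ee (xm 0 1) * φ (EU u a I l) := by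
    intro l
    rw [FS, Finset.sum_map, EU, map_sum, Finset.mul_sum]
    refine Finset.sum_congr rfl fun i _ => ?_
    rw [map_mul, e1, MvPolynomial.aeval_C, ← Algebra.smul_def, mul_smul_comm, ee_mul, xm_add]
    simp [ca, nn, sh_inr]
  refine ⟨fun l => ee (-(xm 0 1 + r • xm (fun _ => (1 : ℕ)) 0)) * φ (c l), ?_⟩
  have := congrArg φ h5
  simp only [map_sum, map_mul, map_pow] at this
  simp only [e2, mul_mul_mul_comm _ (φ _), ← Finset.mul_sum, this]
  rw [← ee_zero, show (∏ j, MvPolynomial.X j : MvPolynomial σ k) = ∏ j, MvPolynomial.X j ^ 1 by simp,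
    e1, ee_pow, ee_mul, ee_mul]
  congr 1
  abel

theorem ND2.nil (hN : ND2 u a) {I : Finset ι} (hI : Fc u I) (hI' : I.Nonempty) :
    ∃ (r : ℕ) (s : σ → Lm k σ), (∀ A, Closed u A → ∀ l, ∀ x ∈ sp k A, s l * x ∈ sp k A) ∧
      ee (∑ i ∈ I, sh u (Sum.inr i)) ^ r = ∑ l, s l * FS u a (I.map Function.Embedding.inr) l := by
  classical
  obtain ⟨r, c, hc⟩ := hN I hI hI'
  obtain ⟨h, hh⟩ := fs_of_eu hc
  set P := ∑ i ∈ I, sh u (Sum.inr i)
  let G : Set (Pt σ) := (fun i => sh u (Sum.inr i)) '' I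
  let Mo := AddSubmonoid.closure G
  let H := AddSubgroup.closure G
  have hP : ∀ s ⊆ I, ∑ i ∈ s, sh u (Sum.inr i) ∈ Mo := fun s hs =>
    sum_mem fun i hi => AddSubmonoid.subset_closure ⟨i, hs hi, rfl⟩
  let N : Submodule k (Lm k σ) :=
    { carrier := {x | ∀ᶠ M : ℕ in atTop, ee (M • P) * x ∈ sp k Mo}
      zero_mem' := Eventually.of_forall fun _ => by simp
      add_mem' := fun h h' => (h.and h').mono fun _ h => by rw [mul_add]; exact add_mem h.1 h.2
      smul_mem' := fun c _ h => h.mono fun _ h => by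
        rw [mul_smul_comm]; exact Submodule.smul_mem _ c h }
  have h1 : sp k H ≤ N := sp_le fun z hz => by
    obtain ⟨M, hM⟩ : ∃ M : ℕ, M • P + z ∈ Mo := by
      induction hz using AddSubgroup.closure_induction'' with
      | mem x hx => exact ⟨0, by simpa using AddSubmonoid.subset_closure hx⟩
      | neg_mem x hx =>
        obtain ⟨i, hi, rfl⟩ := hx
        refine ⟨1, ?_⟩
        convert hP (I.erase i) (Finset.erase_subset _ _) using 1
        rw [one_nsmul, ← sub_eq_add_neg, sub_eq_iff_eq_add, Finset.sum_erase_add _ _ hi]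
      | zero => exact ⟨0, by simp⟩
      | add x y _ _ hx hy =>
        obtain ⟨M, hM⟩ := hx
        obtain ⟨M', hM'⟩ := hy
        exact ⟨M + M', by rw [add_nsmul, add_add_add_comm]; exact add_mem hM hM'⟩
    refine (eventually_ge_atTop M).mono fun M' hM' => ?_
    obtain ⟨M', rfl⟩ := Nat.exists_eq_add_of_le' hM'
    rw [ee_mul, add_nsmul, add_assoc]
    exact ee_mem (add_mem (nsmul_mem (hP I subset_rfl) _) hM)
  let π : Module.End k (Lm k σ) := diag fun p => if p ∈ H then 1 else 0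
  have h10 : ∀ x, π x ∈ sp k H := fun x => sp_map π (fun p _ => by
    rw [diag_ee]
    split_ifs with h
    · simpa using ee_mem h
    · simp) (mem_sp_univ x)
  have h11 : ∑ l, π (h l) * FS u a (I.map Function.Embedding.inr) l = 1 := by
    have := congrArg π hh
    rw [map_sum, ← ee_zero, diag_ee, if_pos (zero_mem H), one_smul, ee_zero] at this
    rw [← this]
    refine Finset.sum_congr rfl fun l _ => ?_
    rw [mul_comm, mul_comm (h l)]
    refine (diag_mul_of_sp (H := H) (c := fun p => if p ∈ H then (1 : k) else 0) (fun z hz p =>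
      if_congr (add_mem_cancel_left hz) rfl rfl) (sum_mem fun g hg => ?_) _).symm
    obtain ⟨i, hi, rfl⟩ := Finset.mem_map.1 hg
    exact Submodule.smul_mem _ _ (ee_mem (AddSubgroup.subset_closure ⟨i, hi, rfl⟩))
  obtain ⟨M, hM⟩ := (eventually_all.2 fun l => h1 (h10 (h l))).exists
  refine ⟨M, fun l => ee (M • P) * π (h l), fun A hA l x hx => mul_mem_sp (fun z hz => ?_) (hM l) hx,
    by simp only [mul_assoc, ← Finset.mul_sum, h11, mul_one, ee_pow]⟩
  induction hz using AddSubmonoid.closure_induction with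
  | mem x hx =>
    obtain ⟨i, -, rfl⟩ := hx
    exact fun p hp => add_comm p _ ▸ hA p hp _
  | zero => simp
  | add x y _ _ hx hy => exact fun p hp => add_assoc x y p ▸ hx _ (hy p hp)

end RA

end

end Pool.Agent.P.MP_b91a16_ag
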