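import Pool.Agent.P.MP_b91a16_ag.DefsLoc

/-! Convenient polynomials. -/

namespace Pool.Agent.P.MP_b91a16_ag

/-- `f` is convenient: for every variable `x_j`, some power `x_j^a`, `a > 0`, occurs in `f`. -/
def Convenient {k : Type} [Field k] {n : ℕ} (f : MvPolynomial (Fin n) k) : Prop :=
  ∀ j : Fin n, ∃ a : ℕ, 0 < a ∧ f.coeff (Finsupp.single j a) ≠ 0

end Pool.Agent.P.MP_b91a16_ag
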