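import Pool.Agent.P.MP_b91a16_ag.CvCan
import Pool.Agent.P.MP_b91a16_ag.DefsConv

/-! The strong motivic monodromy conjecture for convenient nondegenerate polynomials. -/

set_option linter.unusedSectionVars false

open MvPolynomial

namespace Pool.Agent.P.MP_b91a16_ag

noncomputable section

namespace RA

open Cv

variable {k ι : Type} [Field k] [CharZero k] [Fintype ι] [DecidableEq ι] {n : ℕ}
  {u : ι → Fin n → ℕ} {a : ι → k}

theorem rootHyp2 (hc : Conv u) (hN : ND2 u a) (hn : Nonempty (Fin n)) (hf : fpoly u a ≠ 0) :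
    RootHyp2 u fun p => 0 < p.1 ∧ 0 < p.2 ∧
      ∀ b, LocalBernsteinEq (fpoly u a) b → b.eval (-(p.1 : k) / p.2) = 0 := by
  intro Z w₀ N₀ h0 h1 hN₀ hZ h2
  obtain ⟨lam, l1, l2, l3⟩ := exists_lam h0 h1 hN₀ h2
  obtain ⟨Φ, hΦ⟩ := exists_pol hc
  let ω : Option (Fin n) → ℚ := fun o => o.elim (-N₀) fun j => w₀ j
  have e : ∀ i, ω ⬝ᵥ hv u i = zl u w₀ N₀ (Sum.inr i) := fun i => by
    simp [dot_hv, ω, zl, neg_add_eq_sub]
  have hw : ∀ j, 0 < w₀ j := fun j => by simpa [zl] using h1 _ (hZ j)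
  have hω : Val u ω := ⟨by simpa [ω] using hN₀, fun j => by simpa [ω] using hw j, fun i => by
    rw [e]; exact_mod_cast h0.1 _⟩
  have hW : ∀ i, i ∈ Z.toRight ↔ ω ⬝ᵥ hv u i = 0 := fun i => by
    rw [e, Int.cast_eq_zero, Finset.mem_toRight]
    exact ⟨h0.2 _, fun h => by_contra fun h' => (h1 _ h').ne' h⟩
  have h3 : 0 < ∑ j, w₀ j := Finset.sum_pos (fun j _ => hw j) Finset.univ_nonempty
  have h4 : (∑ i, lam i • hv u i) none = ((∑ j, w₀ j : ℕ) : ℚ) / N₀ := by simp [l3]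
  obtain ⟨c, S', S₁, hD, h5, h6, h7⟩ := hΦ.exists_dt hω hW (β := ∑ i, lam i • hv u i)
    (fun j => by simpa using l2 j (hZ j)) (by rw [h4]; positivity) (sum_mem fun i _ => by
      by_cases hi : Sum.inr i ∈ Z
      · exact Submodule.smul_mem _ _ (Submodule.subset_span ⟨i, by simpa using hi, rfl⟩)
      · simp [l1 i hi])
  have hP : PL u Z.toRight S₁ S₁ := fun i hi j hj j' hj' e e' => ⟨by_contra fun h => e' (by
    simpa [Ne.symm h] using h7 j hj i hi e j' (hD.sub hj')), by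
      simpa using h7 j hj i hi e j (hD.sub hj)⟩
  by_cases hH : ∀ T ⊆ S₁, 2 * T.card ≤ rk (uq u) (Nb u Z.toRight T)
  · obtain ⟨K, _, ρ, z, hz, hz'⟩ := hall_hz ⟨ω, hω, hW⟩ hN hP hH
    let _ := ρ.toAlgebra
    refine Or.inl ⟨h3, hN₀, fun b hb => ?_⟩
    have := hD.root hN hz (fun l hl => by
      rw [← hz' l hl]
      refine Finset.sum_congr ?_ fun i _ => Algebra.smul_def _ _
      ext i
      simp only [Bl, Finset.mem_filter, Finset.mem_univ, true_and, ← hW, mem_Nb1]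
      exact and_congr_right fun hi => ⟨fun h => by simp [h l (hD.sub hl)], h7 l hl i hi⟩) hf hb
    simpa [h4, neg_div] using this
  · push Not at hH
    obtain ⟨T, h8, h9⟩ := hH
    obtain ⟨S, h10, h11⟩ := Df.exists_md ⟨fun j _ => by
      obtain ⟨i, -, hi⟩ := Finset.exists_ne_zero_of_sum_ne_zero ((l2 j (hZ j)).trans_ne one_ne_zero)
      exact (mem_supp u).2 ⟨i, Finset.mem_toRight.2 (by_contra fun h => hi (by simp [l1 i h])),
        by simpa using right_ne_zero_of_mul hi⟩, hP.mono subset_rfl h8 h8, h9⟩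
    exact Or.inr ⟨S, h11, fun T' h12 => h11.pl h12 h6 hD.ge (fun j => ⟨h5 j, hD.eq j⟩)
      (h10.trans h8) hD.sub h7⟩

theorem main2 (f : MvPolynomial (Fin n) k) (hf : f ≠ 0) (h0 : constantCoeff f = 0)
    (hN : Nondeg f) (hC : Convenient f) :
    ∃ S : Finset (ℕ × ℕ), zeta f ∈ poleRing k S ∧ ∀ p ∈ S, 0 < p.1 ∧ 0 < p.2 ∧
      ∀ b, LocalBernsteinEq f b → b.eval (-(p.1 : k) / p.2) = 0 := by
  classical
  let u : f.support → Fin n → ℕ := fun v j => v.1 j
  let a : f.support → k := fun v => coeff v.1 f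
  have em : ∀ (v : f.support) (c : k), C c * ∏ j, X j ^ u v j = monomial v.1 c := fun v c => by
    rw [monomial_eq, Finsupp.prod_fintype _ _ fun _ => pow_zero _]
  have e : fpoly u a = f := by
    conv_rhs => rw [f.as_sum, ← Finset.sum_coe_sort]
    exact Finset.sum_congr rfl fun v _ => em v _
  have ha : ∀ v, a v ≠ 0 := fun v => mem_support_iff.1 v.2
  have hu0 : ∀ v, ∃ j, u v j ≠ 0 := fun v => by
    by_contra h'
    push Not at h'
    have : v.1 = 0 := Finsupp.ext h'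
    exact ha v (by simp only [a, this]; exact h0)
  have ez : ∀ ω v, zr u (Sum.inr v) ω = pairing ω v.1 - 1 := fun ω v => by
    simp [zr_inr, pairing, u, mul_comm]
  have hP : NDP u a := by
    intro ω I h1 h2 h3 ⟨i, h4⟩
    have h5 : ∀ l, EU u a I l = X l * pderiv l (facePoly f ω) := fun l => by
      rw [facePoly, Finset.sum_filter, ← Finset.sum_coe_sort, map_sum, Finset.mul_sum, EU,
        ← Finset.univ_inter I, ← Finset.sum_ite_mem]
      refine Finset.sum_congr rfl fun v _ => ?_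
      rw [apply_ite (pderiv l), mul_ite, map_zero, mul_zero, X_mul_pderiv_monomial, em, smul_monomial]
      exact if_congr (by rw [h3, ez, sub_eq_zero]) (by simp [u, a, mul_comm]) rfl
    obtain ⟨r, hr⟩ : ∏ j, X j ∈ (Ideal.span (Set.range (EU u a I))).radical := by
      rw [← vanishingIdeal_zeroLocus_eq_radical (K := AlgebraicClosure k)]
      intro x hx
      by_contra h6
      have h7 : ∀ j, x j ≠ 0 := by simpa [Finset.prod_eq_zero_iff] using h6
      obtain ⟨j, hj⟩ := hN ω (fun j => (h2 j).symm.lt_of_le (zr_inl u j ω ▸ h1 _))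
        (fun v hv => by simpa [ez] using h1 (Sum.inr ⟨v, hv⟩))
        ⟨i, i.2, by simpa [ez, sub_eq_zero] using (h3 i).1 h4⟩ x h7
      exact hj (by simpa [h5, h7] using hx _ (Ideal.subset_span ⟨j, rfl⟩))
    exact ⟨r, Ideal.mem_span_range_iff_exists_fun.1 hr⟩
  have hN2 : ND2 u a := by
    rintro I ⟨ω, ⟨h1, h2, h3⟩, h4⟩
    have h5 : (0 : ℝ) < -ω none := by exact_mod_cast neg_pos.2 h1
    have h6 : ∀ j, (0 : ℝ) < ω (some j) / -ω none := fun j => div_pos (by exact_mod_cast h2 j) h5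
    have h7 : ∀ i, zr u (Sum.inr i) (fun j => ω (some j) / -ω none) =
        (ω ⬝ᵥ hv u i : ℚ) / -(ω none : ℝ) := fun i => by
      rw [eq_div_iff h5.ne', zr_inr, dot_hv, sub_mul, Finset.sum_mul]
      simp only [mul_assoc, div_mul_cancel₀ _ h5.ne']
      simp [mul_comm, add_comm]
    refine hP (fun j => ω (some j) / -ω none) I ?_ (fun j => (h6 j).ne') fun i => by
      rw [h7, h4, div_eq_zero_iff, or_iff_left h5.ne', Rat.cast_eq_zero]
    rintro (j | i)
    · exact zr_inl u j _ ▸ (h6 j).le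
    · exact h7 i ▸ div_nonneg (by exact_mod_cast h3 i) h5.le
  have hc : Conv u := fun j => by
    obtain ⟨d, h1, h2⟩ := hC j
    exact ⟨⟨_, mem_support_iff.2 h2⟩, by simpa [u] using h1.ne', fun j' h => by simp [u, h]⟩
  obtain ⟨S, h3, h4⟩ := zeta_mem2 hu0 hN2 (coeff_zeta u a hu0 (hP.ndi hu0))
    (fun x h1 h2 θ => exists_series2 hc h1 h2 (rootHyp2 hc hN2
      ((support_nonempty.2 hf).elim fun v hv => (hu0 ⟨v, hv⟩).nonempty) (e.symm ▸ hf)))
    ⟨one_pos, one_pos, fun b hb => by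
      simpa using root_neg_one_loc (f := fpoly u a) (e.symm ▸ hf) (e.symm ▸ h0) hb⟩
    fun p hp => hp.2.1
  rw [e] at h3 h4
  exact ⟨S, h4, h3⟩

end RA

end

end Pool.Agent.P.MP_b91a16_ag
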