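import Pool.Agent.P.MP_b91a16_ag.CvLP

/-! Lifting a transversal torus zero along a one parameter family, and angular components. -/

set_option linter.unusedSectionVars false

open Polynomial

namespace Pool.Agent.P.MP_b91a16_ag

noncomputable section

namespace RA

variable {σ ι : Type} [Fintype σ] [DecidableEq σ] [Fintype ι] [DecidableEq ι] {u : ι → σ → ℕ}

theorem sq_dvd_prod {R : Type} [CommRing R] (t : R) (ξ : σ → R) (n : σ → ℕ) (s : Finset σ) :
    t ^ 2 ∣ ∏ j ∈ s, (1 + t * ξ j) ^ n j - (1 + t * ∑ j ∈ s, n j * ξ j) := by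
  induction s using Finset.induction_on with
  | empty => simp
  | insert j s hj ih =>
    obtain ⟨c, hc⟩ := ih
    obtain ⟨d, hd⟩ := sq_dvd_add_pow_sub_sub (t * ξ j) 1 (n j)
    rw [Finset.prod_insert hj, Finset.sum_insert hj, sub_eq_iff_eq_add.1 hc]
    simp only [one_pow, one_mul, sub_sub] at hd
    rw [sub_eq_iff_eq_add.1 hd]
    generalize ∑ j ∈ s, n j * ξ j = e
    exact ⟨(ξ j ^ 2 * d * t ^ 2 + t * ξ j * n j + 1) * c + ξ j ^ 2 * d * (1 + t * e) + ξ j * n j * e,
      by ring⟩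

theorem hensel {κ : Type} [Field κ] (S : Finset σ) (A : σ → Finset ι) (b : σ → ι → κ[X])
    {ζ : σ → κ} (h0 : ∀ j, ζ j ≠ 0) (h1 : ∀ l ∈ S, ∑ i ∈ A l, (b l i).eval 0 * ∏ j, ζ j ^ u i j = 0)
    (h2 : ∀ c : σ → κ, (∀ l ∉ S, c l = 0) →
      (∀ o, ∑ l, c l * ∑ i ∈ A l, (b l i).eval 0 * (∏ j, ζ j ^ u i j) * u i o = 0) → c = 0) :
    ∃ (K : Type) (_ : Field K) (φ : κ[X] →+* K) (z : σ → K), Function.Injective φ ∧ (∀ j, z j ≠ 0) ∧
      ∀ l ∈ S, ∑ i ∈ A l, φ (b l i) * ∏ j, z j ^ u i j = 0 := by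
  have key : ∀ N : ℕ, ∃ z : σ → κ[X], (∀ j, (z j).eval 0 = ζ j) ∧
      ∀ l ∈ S, X ^ (N + 1) ∣ ∑ i ∈ A l, b l i * ∏ j, z j ^ u i j := by
    intro N
    induction N with
    | zero =>
      refine ⟨fun j => C (ζ j), by simp, fun l hl => ?_⟩
      rw [zero_add, pow_one, X_dvd_iff, coeff_zero_eq_eval_zero]
      simpa [eval_finsetSum, eval_prod] using h1 l hl
    | succ N ih =>
      obtain ⟨z, h3, h4⟩ := ih
      choose! e he using h4
      obtain ⟨ξ, hξ⟩ := prescribe _ S h2 fun l => -(e l).eval 0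
      refine ⟨fun j => z j * (1 + X ^ (N + 1) * C (ξ j)), by simp [h3], fun l hl => ?_⟩
      choose d hd using fun i => sq_dvd_prod (X ^ (N + 1)) (fun j => C (ξ j)) (u i) Finset.univ
      obtain ⟨g, hg⟩ : X ∣ e l + ∑ i ∈ A l, b l i * (∏ j, z j ^ u i j) * ∑ j, u i j * C (ξ j) := by
        rw [X_dvd_iff, coeff_zero_eq_eval_zero, eval_add, ← neg_eq_iff_add_eq_zero, ← hξ l hl]
        simp only [eval_finsetSum, eval_mul, eval_prod, eval_pow, h3, eval_natCast, eval_C,
          Finset.mul_sum]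
        rw [Finset.sum_comm]
        exact Finset.sum_congr rfl fun i _ => Finset.sum_congr rfl fun j _ => by ring
      refine ⟨g + X ^ N * ∑ i ∈ A l, b l i * (∏ j, z j ^ u i j) * d i, ?_⟩
      have h5 := he l hl
      simp only [mul_pow, Finset.prod_mul_distrib, fun i => sub_eq_iff_eq_add.1 (hd i)]
      have : ∀ i, b l i * ((∏ j, z j ^ u i j) * ((X ^ (N + 1)) ^ 2 * d i +
          (1 + X ^ (N + 1) * ∑ j, u i j * C (ξ j)))) = b l i * ∏ j, z j ^ u i j +
          X ^ (N + 1) * (b l i * (∏ j, z j ^ u i j) * ∑ j, u i j * C (ξ j)) +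
          (X ^ (N + 1)) ^ 2 * (b l i * (∏ j, z j ^ u i j) * d i) := fun i => by ring
      simp only [this, Finset.sum_add_distrib, ← Finset.mul_sum]
      linear_combination h5 + X ^ (N + 1) * hg
  choose z hz hz' using key
  let J : Ideal (MvPolynomial σ κ[X]) := Ideal.span ((fun l => ∑ i ∈ A l,
    MvPolynomial.C (b l i) * ∏ j, MvPolynomial.X j ^ u i j) '' S)
  let M : Submonoid (MvPolynomial σ κ[X]) :=
    { carrier := {q | ∃ p : κ[X], p ≠ 0 ∧ ∃ r : ℕ, q = MvPolynomial.C p * (∏ j, MvPolynomial.X j) ^ r}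
      one_mem' := ⟨1, one_ne_zero, 0, by simp⟩
      mul_mem' := by
        rintro _ _ ⟨p, h, r, rfl⟩ ⟨p', h', r', rfl⟩
        exact ⟨p * p', mul_ne_zero h h', r + r', by rw [map_mul]; ring⟩ }
  obtain ⟨P, hP, h3, h4⟩ := J.exists_le_prime_disjoint M (Set.disjoint_left.2 (by
    rintro _ h ⟨p, h3, r, rfl⟩
    have h4 : J ≤ (Ideal.span {X ^ (p.natDegree + 1)}).comap (MvPolynomial.eval (z p.natDegree)) :=
      Ideal.span_le.2 (by
        rintro _ ⟨l, hl, rfl⟩
        simpa [Ideal.mem_span_singleton] using hz' _ l hl)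
    have h5 := Ideal.mem_span_singleton.1 (h4 h)
    simp only [map_mul, MvPolynomial.eval_C, map_pow, map_prod, MvPolynomial.eval_X] at h5
    have h6 := prime_X.pow_dvd_of_dvd_mul_right _ (fun h6 => by
      have := X_dvd_iff.1 (prime_X.dvd_of_dvd_pow h6)
      rw [coeff_zero_eq_eval_zero, eval_prod, Finset.prod_eq_zero_iff] at this
      obtain ⟨j, -, hj⟩ := this
      exact h0 j (hz _ j ▸ hj)) h5
    simpa using natDegree_le_of_dvd h6 h3))
  let π := algebraMap (MvPolynomial σ κ[X]) P.ResidueField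
  have hπ : ∀ q, π q = 0 ↔ q ∈ P := fun q => Ideal.algebraMap_residueField_eq_zero
  refine ⟨_, inferInstance, π.comp MvPolynomial.C, fun j => π (MvPolynomial.X j),
    (injective_iff_map_eq_zero _).2 fun p hp => by_contra fun h => Set.disjoint_left.1 h4
      ((hπ _).1 hp) ⟨p, h, 0, by simp⟩, fun j h => Set.disjoint_left.1 h4
      (Ideal.mem_of_dvd _ (Finset.dvd_prod_of_mem MvPolynomial.X (Finset.mem_univ j)) ((hπ _).1 h))
      ⟨1, one_ne_zero, 1, by simp⟩, fun l hl => ?_⟩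
  simpa only [map_sum, map_mul, map_prod, map_pow, RingHom.comp_apply] using
    (hπ _).2 (h3 (Ideal.subset_span ⟨l, hl, rfl⟩))

theorem exists_ac {K : Type} [Field K] (O : ValuationSubring K) :
    ∃ (κ : Type) (_ : Field κ) (π : O →+* κ) (ψ : Kˣ →* κˣ),
      (∀ a : O, O.valuation a < 1 → π a = 0) ∧
        ∀ (a : O) (x : Kˣ), (x : K) = a → O.valuation a = 1 → (ψ x : κ) = π a := by
  let κ := AlgebraicClosure (IsLocalRing.ResidueField O)
  let _ : DivisibleBy (Additive κˣ) ℕ := divisibleByOfSMulRightSurj _ _ fun {n} hn x => by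
    obtain ⟨y, hy⟩ := IsAlgClosed.exists_pow_nat_eq (x.toMul : κ) (Nat.pos_of_ne_zero hn)
    have : y ≠ 0 := by
      rintro rfl
      exact x.toMul.ne_zero (by rw [← hy, zero_pow hn])
    exact ⟨Additive.ofMul (Units.mk0 y this), Additive.toMul.injective (Units.ext hy)⟩
  let _ := AddGroup.divisibleByIntOfDivisibleByNat (Additive κˣ)
  obtain ⟨ψ, hψ⟩ := (Module.Baer.of_divisible (Additive κˣ)).extension_property_addMonoidHom
    O.unitGroup.subtype.toAdditive Subtype.val_injective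
    ((Units.map (algebraMap _ κ).toMonoidHom).comp O.unitGroupToResidueFieldUnits).toAdditive
  refine ⟨κ, inferInstance, (algebraMap _ κ).comp (IsLocalRing.residue O), ψ.toMultiplicative,
    fun a ha => ?_, fun a x h1 h2 => ?_⟩
  · rw [RingHom.comp_apply, (IsLocalRing.residue_eq_zero_iff a).2 ((O.valuation_lt_one_iff a).2 ha),
      map_zero]
  · have := DFunLike.congr_fun hψ (Additive.ofMul ⟨x, (O.mem_unitGroup_iff x).2 (h1 ▸ h2)⟩)
    refine (congrArg (fun y : Additive κˣ => (y.toMul : κ)) this).trans ?_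
    exact congrArg ((algebraMap _ κ).comp (IsLocalRing.residue O)) (Subtype.ext h1)

end RA

end

end Pool.Agent.P.MP_b91a16_ag
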