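import Pool.Agent.P.MP_b91a16_ag.CvRoot

/-! The linear program attached to a critical face. -/

set_option linter.unusedSectionVars false

open Filter

namespace Pool.Agent.P.MP_b91a16_ag

noncomputable section

namespace RA

open Cv

variable {k σ ι : Type} [Field k] [CharZero k] [Fintype σ] [DecidableEq σ] [Fintype ι]
  [DecidableEq ι]
variable {u : ι → σ → ℕ} {Φ : Finset (Option σ → ℚ)} {β ω₀ : Option σ → ℚ}

@[simp] theorem hv_some (i : ι) (j : σ) : hv u i (some j) = u i j := rfl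

@[simp] theorem hv_none (i : ι) : hv u i none = 1 := Nat.cast_one

theorem dot_hv (l : Option σ → ℚ) (i : ι) : l ⬝ᵥ hv u i = l none + ∑ j, l (some j) * u i j := by
  simp [dotProduct]

variable (u) in
def Conv : Prop := ∀ j, ∃ i, u i j ≠ 0 ∧ ∀ j', j' ≠ j → u i j' = 0

theorem exists_pol (hc : Conv u) : ∃ Φ, Pol u Φ := by
  classical
  let g : ι ⊕ Option σ → Option σ → ℚ :=
    Sum.elim (hv u) fun o => Pi.single o (o.elim (-1) fun _ => 1)
  obtain ⟨Φ, hΦ⟩ := Cv.weyl g Finset.univ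
  have h1 : ∀ l ∈ Φ, ∀ x, 0 ≤ l ⬝ᵥ g x := fun l hl x => (hΦ _).1 ⟨Pi.single x 1, fun j => by
    rw [Pi.single_apply]; positivity, by simp [Pi.single_apply, -Fintype.sum_sum_type]⟩ l hl
  have h2 : ∀ l ∈ Φ, l none ≤ 0 := fun l hl => by simpa [g] using h1 l hl (Sum.inr none)
  have h3 : ∀ l ∈ Φ, ∀ j, 0 ≤ l (some j) := fun l hl j => by simpa [g] using h1 l hl (Sum.inr (some j))
  refine ⟨Φ.filter (· none < 0) ∪ Finset.univ.image RA.ex, fun l hl i => ?_, fun j => by simp,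
    fun l hl => ?_, fun y hy => ?_⟩
  · rcases Finset.mem_union.1 hl with hl | hl
    · exact h1 l (Finset.mem_filter.1 hl).1 (Sum.inl i)
    · obtain ⟨j, -, rfl⟩ := Finset.mem_image.1 hl
      rw [ex_dot]
      exact Nat.cast_nonneg _
  · rcases Finset.mem_union.1 hl with hl | hl
    · obtain ⟨h4, h5⟩ := Finset.mem_filter.1 hl
      refine Or.inr ⟨h5, fun j => (h3 l h4 j).lt_of_ne' fun h => ?_⟩
      obtain ⟨i, -, h6⟩ := hc j
      have := h1 l h4 (Sum.inl i)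
      rw [show g (Sum.inl i) = hv u i from rfl, dot_hv, Finset.sum_eq_zero fun j' _ => by
        by_cases e : j' = j <;> simp [e, h, h6]] at this
      linarith
    · obtain ⟨j, -, rfl⟩ := Finset.mem_image.1 hl
      exact Or.inl ⟨j, rfl⟩
  · obtain ⟨x, hx, e⟩ := (hΦ y).2 fun l hl => by
      rcases (h2 l hl).lt_or_eq with h | h
      · exact hy l (Finset.mem_union_left _ (Finset.mem_filter.2 ⟨hl, h⟩))
      · rw [dotProduct, Fintype.sum_option, h, zero_mul, zero_add]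
        exact Finset.sum_nonneg fun j _ => mul_nonneg (h3 l hl j) (ex_dot j y ▸ hy _ (by simp))
    refine ⟨fun i => x (Sum.inl i), fun o => x (Sum.inr o) * o.elim (-1) fun _ => 1, fun i => hx _,
      by simpa using hx _, fun j => by simpa using hx _, ?_⟩
    rw [e, Fintype.sum_sum_type]
    congr 1
    ext o
    simp [g, Finset.sum_apply, Pi.single_apply, -Fintype.sum_option]

theorem lp (W : Finset ι) (hW : ∀ j, ∃ i ∈ W, u i j ≠ 0) (b : σ → ℚ) :
    ∃ (κ : ι → ℚ) (lam : σ → ℚ), (∀ i, 0 ≤ κ i) ∧ (∀ j, 0 ≤ lam j) ∧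
      (∀ i ∈ W, ∑ j, lam j * u i j ≤ 1) ∧ (∀ i ∈ W, κ i ≠ 0 → ∑ j, lam j * u i j = 1) ∧
      (∀ j, b j ≤ ∑ i ∈ W, κ i * u i j) ∧ ∀ j, 0 < lam j ↔ ∑ i ∈ W, κ i * u i j = b j := by
  let N : W → Option σ → ℚ := fun i o => o.elim 1 fun j => -u i j
  let Bm : Option σ → Option σ → ℚ := fun o o' =>
    o.elim (o'.elim 0 b) fun j => o'.elim (-b j) fun _ => 0
  obtain ⟨w, h1, h2, h3, h4⟩ := skew (τ := W ⊕ Option σ)
    (Sum.elim (fun i => Sum.elim 0 (N i)) fun o => Sum.elim (fun i => -N i o) (Bm o)) (by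
      rintro (i | _ | j) (i' | _ | j') <;> simp [Bm])
  simp only [Sum.forall, Option.forall, dotProduct, Fintype.sum_sum_type, Fintype.sum_option,
    Sum.elim_inl, Sum.elim_inr, N, Bm, Option.elim_none, Option.elim_some, Pi.zero_apply, zero_mul,
    Finset.sum_const_zero, zero_add, one_mul, neg_mul, Finset.sum_neg_distrib, neg_neg,
    add_zero] at h1 h2 h3 h4
  have ht : 0 < w (Sum.inr none) := h1.2.1.lt_of_ne' fun h => by
    have h5 : ∀ j, w (Sum.inr (some j)) = 0 := fun j => by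
      obtain ⟨i, hi, h5⟩ := hW j
      have h6 := h2.1 ⟨i, hi⟩
      rw [h, zero_add, neg_nonneg] at h6
      have h7 : ∀ j ∈ Finset.univ, 0 ≤ (u i j : ℚ) * w (Sum.inr (some j)) := fun j _ =>
        mul_nonneg (Nat.cast_nonneg _) (h1.2.2 j)
      simpa [h5] using (Finset.sum_eq_zero_iff_of_nonneg h7).1
        (le_antisymm h6 (Finset.sum_nonneg h7)) j (Finset.mem_univ j)
    have h6 := h3.2.1
    simp only [h, h5, mul_zero, Finset.sum_const_zero] at h6
    linarith [Finset.sum_nonneg fun i (_ : i ∈ Finset.univ) => h1.1 i]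
  set t := w (Sum.inr none)
  have e1 : ∀ i, ∑ j, w (Sum.inr (some j)) / t * u i j = (∑ j, u i j * w (Sum.inr (some j))) / t :=
    fun i => by simp only [Finset.sum_div, mul_div_assoc, mul_comm]
  have e2 : ∀ j, ∑ i ∈ W, (if h : i ∈ W then w (Sum.inl ⟨i, h⟩) / t else 0) * u i j =
      (∑ i : W, u i j * w (Sum.inl i)) / t := fun j => by
    rw [← Finset.sum_coe_sort, Finset.sum_div]
    exact Finset.sum_congr rfl fun i _ => by rw [dif_pos i.2, div_mul_eq_mul_div, mul_comm]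
  refine ⟨fun i => if h : i ∈ W then w (Sum.inl ⟨i, h⟩) / t else 0,
    fun j => w (Sum.inr (some j)) / t, fun i => ?_, fun j => div_nonneg (h1.2.2 j) ht.le,
    fun i hi => ?_, fun i hi h => ?_, fun j => ?_, fun j => ?_⟩
  · beta_reduce
    split_ifs
    exacts [div_nonneg (h1.1 _) ht.le, le_rfl]
  · rw [e1, div_le_one ht]
    linarith [h2.1 ⟨i, hi⟩]
  · rw [e1, div_eq_one_iff_eq ht.ne']
    linarith [(mul_eq_zero.1 (h4.1 ⟨i, hi⟩)).resolve_left fun h' => h (by simp [hi, h'])]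
  · rw [e2, le_div_iff₀ ht]
    linarith [h2.2.2 j]
  · rw [e2, div_eq_iff ht.ne', div_pos_iff_of_pos_right ht]
    exact ⟨fun h => by linarith [(mul_eq_zero.1 (h4.2.2 j)).resolve_left h.ne'],
      fun h => by linarith [h3.2.2 j]⟩

theorem ev_eps (Φ : Finset (Option σ → ℚ)) (c v : Option σ → ℚ) : ∀ᶠ n : ℕ in atTop,
    ∀ l ∈ Φ, ∀ p : Pt σ, l ⬝ᵥ qv c p + (1 / (n + 1) : ℚ) * l ⬝ᵥ v = 0 → l ⬝ᵥ v = 0 := by
  obtain ⟨ε, h1, h2⟩ := exists_eps Φ c v
  refine (ev_small ε (-1) h1).mono fun n hn l hl p h => by_contra fun h3 => ?_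
  have h4 : (0 : ℚ) < 1 / (n + 1) := by positivity
  have := h2 l hl p fun h5 => mul_ne_zero h4.ne' h3 (by simpa only [h5, zero_add] using h)
  rw [eq_neg_of_add_eq_zero_left h, abs_neg, abs_mul, abs_of_pos h4] at this
  nlinarith [abs_nonneg (l ⬝ᵥ v)]

theorem Pol.exists_dt (hP : Pol u Φ) (hω : Val u ω₀) {W : Finset ι}
    (hW : ∀ i, i ∈ W ↔ ω₀ ⬝ᵥ hv u i = 0) (h1 : ∀ j, β (some j) = 1) (h2 : 0 < β none)
    (h3 : β ∈ Submodule.span ℚ (hv u '' W)) : ∃ c S' S₁, Dt u Φ β c ω₀ S' S₁ ∧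
      (∀ j, c (some j) = 1 → j ∈ S') ∧ c ∈ Submodule.span ℚ (hv u '' W) ∧
      ∀ l ∈ S₁, ∀ i ∈ W, u i l ≠ 0 → ∀ j ∈ S', u i j = if j = l then 1 else 0 := by
  classical
  have hW' : ∀ j, ∃ i ∈ W, u i j ≠ 0 := fun j => by
    by_contra h
    push Not at h
    simpa [ex_dot, h1] using dot_span (l := RA.ex j) (by
      rintro _ ⟨i, hi, rfl⟩
      simp [ex_dot, h i hi]) β h3
  let Ty : Finset ι × Finset σ → (σ → ℚ) → Prop := fun x lam => (∀ j, 0 ≤ lam j) ∧
    (∀ j, 0 < lam j ↔ j ∈ x.2) ∧ (∀ i ∈ W, ∑ j, lam j * u i j ≤ 1) ∧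
      ∀ i ∈ x.1, ∑ j, lam j * u i j = 1
  have : ∀ x, (∃ lam, Ty x lam) → ∃ lam, Ty x lam := fun _ h => h
  choose! Λ hΛ using this
  obtain ⟨n, hn⟩ := (eventually_all.2 fun x : (Finset ι × Finset σ) × σ =>
    (eventually_imp_distrib_left (p := Λ x.1 x.2 < 1)).2 fun h =>
      ev_small _ (-W.card) (sub_pos.2 h)).exists
  set η : ℚ := 1 / (n + 1)
  have hη : 0 < η := by positivity
  obtain ⟨κ, lam', k1, k2, k3, k4, k5, k6⟩ := lp W hW' fun j => 1 - η * ∑ i ∈ W, u i j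
  let S' := Finset.univ.filter fun j => 0 < lam' j
  obtain ⟨l1, l2, l3, l4⟩ := hΛ (W.filter (κ · ≠ 0), S') ⟨lam', k2, by simp [S'], k3, fun i hi =>
    k4 i (Finset.mem_filter.1 hi).1 (Finset.mem_filter.1 hi).2⟩
  have hn' := fun l => hn ((W.filter (κ · ≠ 0), S'), l)
  set lam := Λ (W.filter (κ · ≠ 0), S')
  simp only at l2 l4 hn'
  let c₀ : Option σ → ℚ := ∑ i ∈ W, (κ i + η) • hv u i
  have c1 : ∀ j, c₀ (some j) = ∑ i ∈ W, κ i * u i j + η * ∑ i ∈ W, u i j := fun j => by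
    simp [c₀, add_mul, Finset.sum_add_distrib, Finset.mul_sum]
  have c2 : ∀ j, j ∈ S' ↔ c₀ (some j) = 1 := fun j => by
    simp only [S', Finset.mem_filter, Finset.mem_univ, true_and, k6, c1, eq_sub_iff_add_eq]
  have c3 : ∀ j, 1 ≤ c₀ (some j) := fun j => by linarith [c1 j, k5 j]
  have c4 : c₀ none ≤ ∑ j, lam j + η * W.card := by
    have e1 : c₀ none = ∑ i ∈ W, κ i + η * W.card := by
      simp [c₀, Finset.sum_add_distrib, mul_comm]
    have e2 : ∑ i ∈ W, κ i = ∑ j, lam j * ∑ i ∈ W, κ i * u i j := by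
      simp only [Finset.mul_sum]
      rw [Finset.sum_comm]
      refine Finset.sum_congr rfl fun i hi => ?_
      by_cases h : κ i = 0
      · simp [h]
      · simp only [mul_left_comm _ (κ i), ← Finset.mul_sum, l4 i (Finset.mem_filter.2 ⟨hi, h⟩), mul_one]
    rw [e1, e2, add_le_add_iff_right]
    refine Finset.sum_le_sum fun j _ => ?_
    rcases (l1 j).lt_or_eq with h | h
    · have := (c2 j).1 ((l2 j).1 h)
      have h4 : (0 : ℚ) ≤ η * ∑ i ∈ W, u i j := by positivity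
      exact mul_le_of_le_one_right h.le (by linarith [c1 j])
    · simp [← h]
  have c5 : c₀ ∈ Submodule.span ℚ (hv u '' W) :=
    sum_mem fun i hi => Submodule.smul_mem _ _ (Submodule.subset_span ⟨i, hi, rfl⟩)
  have c6 : ∀ l ∈ Φ, 0 < l ⬝ᵥ c₀ ∨ ∀ y ∈ Submodule.span ℚ (hv u '' W), l ⬝ᵥ y = 0 := fun l hl => by
    refine or_iff_not_imp_left.2 fun h => dot_span ?_
    rintro _ ⟨i, hi, rfl⟩
    have e : ∀ i ∈ W, 0 ≤ (κ i + η) * l ⬝ᵥ hv u i := fun i _ =>
      mul_nonneg (add_nonneg (k1 i) hη.le) (hP.nn l hl i)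
    simp only [c₀, dotProduct_sum, dotProduct_smul, smul_eq_mul, not_lt] at h
    exact (mul_eq_zero.1 ((Finset.sum_eq_zero_iff_of_nonneg e).1 (le_antisymm h
      (Finset.sum_nonneg e)) i hi)).resolve_left (add_pos_of_nonneg_of_pos (k1 i) hη).ne'
  let U : Submodule ℚ (Option σ → ℚ) :=
    Submodule.span ℚ (hv u '' W) ⊓ Submodule.pi (S'.image some) fun _ => ⊥
  have hU : ∀ y, y ∈ U ↔ y ∈ Submodule.span ℚ (hv u '' W) ∧ ∀ j ∈ S', y (some j) = 0 := by
    simp [U, Submodule.mem_pi]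
  obtain ⟨w, w1, -, w2⟩ := exists_generic U (Φ.image fun l => LinearMap.ker (dotProductBilin ℚ ℚ l))
    ∅ (zero_mem _) (by simp)
  obtain ⟨w3, w4⟩ := (hU w).1 w1
  obtain ⟨m, ⟨m1, m2⟩, m3, m4⟩ := ((((eventually_all_finset Φ).2 fun l _ =>
    (eventually_imp_distrib_left (p := 0 < l ⬝ᵥ c₀)).2 fun h => ev_small _ (l ⬝ᵥ w) h).and
    (eventually_all.2 fun j => (eventually_imp_distrib_left (p := j ∉ S')).2 fun h =>
      ev_small _ (w (some j)) (sub_pos.2 ((c3 j).lt_of_ne' fun h' => h ((c2 j).2 h'))))).and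
    ((eventually_all.2 fun l => (eventually_imp_distrib_left (p := lam l < 1)).2 fun h =>
      ev_small _ (-w none) (hn' l h)).and (ev_eps Φ c₀ w))).exists
  set ε : ℚ := 1 / (m + 1)
  have c7 := add_mem c5 (Submodule.smul_mem _ ε w3)
  have c8 : ∀ j ∈ S', (c₀ + ε • w) (some j) = 1 := fun j hj => by simp [w4 j hj, (c2 j).1 hj]
  have c9 : ∀ j ∉ S', 1 < (c₀ + ε • w) (some j) := fun j hj => by
    have := m2 j hj
    simp only [Pi.add_apply, Pi.smul_apply, smul_eq_mul]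
    linarith
  refine ⟨c₀ + ε • w, S', S'.filter (1 ≤ lam ·), ⟨hP, hω, h1, h2, fun l hl => ?_, dot_span (by
    rintro _ ⟨i, hi, rfl⟩
    exact (hW i).1 hi) _ c7, fun j => ?_, c8, fun l hl _ p hp => ?_, fun l hl y y1 y2 y3 y4 => ?_,
    Finset.filter_subset _ _⟩, fun j hj => by_contra fun h => (c9 j h).ne' hj, c7,
    fun l hl i hi h j hj => ?_⟩
  · rcases c6 l hl with h | h
    · simpa only [dotProduct_add, dotProduct_smul, smul_eq_mul] using (m1 l hl h).le
    · exact (h _ c7).ge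
  · by_cases hj : j ∈ S'
    exacts [(c8 j hj).ge, (c9 j hj).le]
  · rw [qv_shift, dotProduct_add, dotProduct_smul, smul_eq_mul] at hp
    exact w2 _ (Finset.mem_image_of_mem _ hl) (m4 l hl p hp)
      ((hU _).2 ⟨sub_mem h3 c7, fun j hj => by rw [Pi.sub_apply, h1, c8 j hj, sub_self]⟩)
  · have e1 : lam l < 1 := by
      by_contra h
      exact hl (Finset.mem_filter.2 ⟨(l2 l).1 (one_pos.trans_le (not_lt.1 h)), not_lt.1 h⟩)
    have e2 : ∑ j, lam j * y (some j) ≤ y none := by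
      obtain ⟨κ', ν, e3, e4, e5, rfl⟩ := hP.gen y y1
      obtain ⟨rfl, e6⟩ := (hω.cone e3 e4 e5).2 y2
      simp only [add_zero, Finset.sum_apply, Pi.smul_apply, hv_some, hv_none, smul_eq_mul,
        Finset.mul_sum]
      rw [Finset.sum_comm]
      refine Finset.sum_le_sum fun i _ => ?_
      by_cases h : κ' i = 0
      · simp [h]
      · simp only [mul_left_comm _ (κ' i), ← Finset.mul_sum]
        exact mul_le_mul_of_nonneg_left (l3 i ((hW i).2 (e6 i h))) (e3 i)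
    have e3 : ∑ j ∈ Finset.univ.erase l, lam j ≤ ∑ j ∈ Finset.univ.erase l, lam j * y (some j) :=
      Finset.sum_le_sum fun j hj => by
        rcases (l1 j).lt_or_eq with h | h
        · exact le_mul_of_one_le_right h.le (y4 j ((l2 j).1 h) (Finset.ne_of_mem_erase hj))
        · simp [← h]
    have e4 := mul_nonneg (l1 l) (ex_dot l y ▸ y1 _ (hP.ex l))
    rw [← Finset.add_sum_erase _ _ (Finset.mem_univ l)] at e2 c4
    have := m3 l e1
    simp only [Pi.add_apply, Pi.smul_apply, smul_eq_mul] at y3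
    linarith
  · obtain ⟨e1, e2⟩ := Finset.mem_filter.1 hl
    have e3 := l3 i hi
    have e4 : (1 : ℚ) ≤ u i l := by exact_mod_cast Nat.one_le_iff_ne_zero.2 h
    have e5 : ∀ j ∈ Finset.univ.erase l, 0 ≤ lam j * u i j := fun j _ =>
      mul_nonneg (l1 j) (Nat.cast_nonneg _)
    have e6 := Finset.sum_nonneg e5
    rw [← Finset.add_sum_erase _ _ (Finset.mem_univ l)] at e3
    split_ifs with e
    · subst e
      exact_mod_cast le_antisymm (by nlinarith : (u i j : ℚ) ≤ 1) e4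
    · simpa [((l2 j).2 hj).ne'] using (Finset.sum_eq_zero_iff_of_nonneg e5).1
        (le_antisymm (by nlinarith) e6) j (by simp [e])

end RA

end

end Pool.Agent.P.MP_b91a16_ag
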