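import Pool.Agent.P.MP_b91a16_ag.CvRel

/-! A locally compatible choice of deficient sets. -/

set_option linter.unusedSectionVars false

namespace Pool.Agent.P.MP_b91a16_ag

noncomputable section

namespace RA

open Cv

variable {σ ι G : Type} [Fintype σ] [DecidableEq σ] [Fintype ι] [DecidableEq ι] [Fintype G]
  [DecidableEq G] {u : ι → σ → ℕ} {I J : Finset ι} {S : Finset σ}

theorem Df.anti (h : Df u I S) (h1 : J ⊆ I) (h2 : ∀ j, j ∈ supp u J) : Df u J S :=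
  ⟨fun j _ => h2 j, h.2.1.mono h1 subset_rfl subset_rfl,
    (rk_mono _ (Nb_mono h1 subset_rfl)).trans_lt h.2.2⟩

theorem supp_mono (h : J ⊆ I) : supp u J ⊆ supp u I := fun _ hj =>
  (mem_supp u).2 (((mem_supp u).1 hj).imp fun _ hi => ⟨h hi.1, hi.2⟩)

def At (z : G → ℤ) (t : ℤ) : Finset G := Finset.univ.filter fun g => z g ≤ t

theorem mem_At {z : G → ℤ} {t : ℤ} {g : G} : g ∈ At z t ↔ z g ≤ t := by simp [At]

theorem At_mono {z z' : G → ℤ} {t t' δ : ℤ} (h : ∀ g, z' g - z g ≤ δ) (h' : t + δ ≤ t') :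
    At z t ⊆ At z' t' := fun g hg => mem_At.2 (by linarith [mem_At.1 hg, h g])

variable (u) in
/-- A distinguished minimal deficient set exists. -/
def Gd (I : Finset ι) : Prop := (∀ j, j ∈ supp u I) ∧ ∃ S, MD u I S ∧ ∀ T, MD u I T → PL u I S T

theorem exists_lab (W : Finset G → Finset ι) (hW : Monotone W) {δ : ℤ} (hδ : 0 ≤ δ) :
    ∃ (B : ℤ) (lab : (G → ℤ) → Finset σ), ∀ z z', (∀ Y, At z δ ⊆ Y → Y ⊆ At z B → Gd u (W Y)) →
      (∀ Y, At z' δ ⊆ Y → Y ⊆ At z' B → Gd u (W Y)) → (∀ g, |z g - z' g| ≤ δ) →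
      Df u (W (At z δ)) (lab z) ∧ PL u (W (At z δ)) (lab z) (lab z') := by
  classical
  let B : ℤ := 3 * (2 ^ (Fintype.card G + 1) * δ)
  let P : ℕ → Finset G → (G → ℤ) → Prop := fun s Y z => s ≤ Y.card ∧ At z δ ⊆ Y ∧
    Y ⊆ At z (3 * (2 ^ s * δ)) ∧ ∀ Y, At z δ ⊆ Y → Y ⊆ At z B → Gd u (W Y)
  suffices ∀ s ≤ Fintype.card G + 1, ∃ L : Finset G → (G → ℤ) → Finset σ, ∀ Y z Y' z', P s Y z →
      P s Y' z' → (∀ g, |z g - z' g| ≤ δ) → Df u (W (Y ∪ Y')) (L Y z) ∧ Df u (W (Y ∪ Y')) (L Y' z') ∧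
        PL u (W (Y ∪ Y')) (L Y z) (L Y' z') by
    obtain ⟨L, hL⟩ := this 0 (Nat.zero_le _)
    have h0 : ∀ z : G → ℤ, At z δ ⊆ At z (3 * (2 ^ 0 * δ)) := fun z =>
      At_mono (δ := 0) (by simp) (by linarith)
    refine ⟨B, fun z => L (At z δ) z, fun z z' h1 h2 h3 => ⟨?_, ?_⟩⟩
    · simpa using (hL _ z _ z ⟨Nat.zero_le _, subset_rfl, h0 z, h1⟩ ⟨Nat.zero_le _, subset_rfl, h0 z, h1⟩
        (by simpa using fun _ => hδ)).1
    · exact (hL _ z _ z' ⟨Nat.zero_le _, subset_rfl, h0 z, h1⟩ ⟨Nat.zero_le _, subset_rfl, h0 z', h2⟩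
        h3).2.2.mono (hW Finset.subset_union_left) subset_rfl subset_rfl
  intro s hs
  induction hs using Nat.decreasingInduction with
  | self => exact ⟨fun _ _ => ∅, fun Y z _ _ h => absurd (h.1.trans (Finset.card_le_univ _)) (by omega)⟩
  | of_succ s hs ih =>
  obtain ⟨L, hL⟩ := ih
  have : ∀ I, Gd u I → ∃ S, MD u I S ∧ ∀ T, MD u I T → PL u I S T := fun _ h => h.2
  choose! S₀ s1 s2 using this
  have : ∀ I S, Df u I S → ∃ T ⊆ S, MD u I T := fun _ _ h => h.exists_md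
  choose! φ f1 f2 using this
  set τ : ℤ := 2 ^ s * δ with hτ
  have t1 : δ ≤ τ := le_mul_of_one_le_left hδ (one_le_pow₀ one_le_two)
  have t2 : 2 ^ (s + 1) * δ = 2 * τ := by rw [hτ]; ring
  have t3 : 3 * τ ≤ B := by
    have := mul_le_mul_of_nonneg_right (pow_le_pow_right₀ (one_le_two (α := ℤ)) hs.le) hδ
    linarith
  have mono : ∀ (z : G → ℤ) {t t'}, t ≤ t' → At z t ⊆ At z t' := fun z _ _ h =>
    At_mono (δ := 0) (by simp) (by linarith)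
  have gd : ∀ Y z, P s Y z → Gd u (W Y) := fun Y z h => h.2.2.2 Y h.2.1 (h.2.2.1.trans (mono z t3))
  have up : ∀ Y z t, P s Y z → 3 * τ ≤ t → t ≤ 6 * τ → At z t ≠ Y →
      Y ⊆ At z t ∧ P (s + 1) (At z t) z := fun Y z t h h1 h2 h3 => by
    have h4 := h.2.2.1.trans (mono z h1)
    exact ⟨h4, h.1.trans_lt (Finset.card_lt_card (h4.ssubset_of_ne h3.symm)), h.2.1.trans h4,
      mono z (by linarith), h.2.2.2⟩
  let lo : Finset G → (G → ℤ) → Prop := fun Y z => Y.card ≤ s ∧ At z (4 * τ) = Y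
  let L' : Finset G → (G → ℤ) → Finset σ := fun Y z => if lo Y z then
    (if At z (6 * τ) = Y then S₀ (W Y) else φ (W Y) (L (At z (6 * τ)) z))
    else L (if Y.card ≤ s then At z (4 * τ) else Y) z
  have hi : ∀ Y z, P s Y z → ¬lo Y z → ∃ Z, Y ⊆ Z ∧ P (s + 1) Z z ∧ L' Y z = L Z z ∧
      (Y.card ≤ s → Z = At z (4 * τ)) := fun Y z h h1 => by
    refine ⟨_, ?_, ?_, if_neg h1, fun h => if_pos h⟩ <;> split_ifs with h2
    exacts [(up Y z _ h (by linarith) (by linarith) fun h => h1 ⟨h2, h⟩).1, subset_rfl,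
      (up Y z _ h (by linarith) (by linarith) fun h => h1 ⟨h2, h⟩).2,
      ⟨by omega, h.2.1, h.2.2.1.trans (mono z (by linarith)), h.2.2.2⟩]
  have lw : ∀ Y z, P s Y z → lo Y z → MD u (W Y) (L' Y z) ∧ (At z (6 * τ) = Y ∧ L' Y z = S₀ (W Y) ∨
      ∃ Z, Y ⊆ Z ∧ P (s + 1) Z z ∧ L' Y z ⊆ L Z z) := fun Y z h h1 => by
    simp only [L', if_pos h1]
    split_ifs with h2
    · exact ⟨s1 _ (gd Y z h), Or.inl ⟨h2, rfl⟩⟩
    · obtain ⟨h3, h4⟩ := up Y z _ h (by linarith) le_rfl h2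
      have h5 := (hL _ z _ z h4 h4 (by simpa using fun _ => hδ)).1.anti
        (hW (h3.trans Finset.subset_union_left)) (gd Y z h).1
      exact ⟨f2 _ _ h5, Or.inr ⟨_, h3, h4, f1 _ _ h5⟩⟩
  have key : ∀ Y z Y' z', P s Y z → P s Y' z' → (∀ g, |z g - z' g| ≤ δ) → lo Y z →
      Df u (W (Y ∪ Y')) (L' Y z) ∧ Df u (W (Y ∪ Y')) (L' Y' z') ∧
        PL u (W (Y ∪ Y')) (L' Y z) (L' Y' z') := fun Y z Y' z' h h' h1 h2 => by
    obtain rfl : Y' = Y := Finset.eq_of_subset_of_card_le (h2.2 ▸ h'.2.2.1.trans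
      (At_mono (fun g => (abs_le.1 (h1 g)).2) (by linarith))) (h2.1.trans h'.1)
    rw [Finset.union_self]
    obtain ⟨h3, h4⟩ := lw _ z h h2
    by_cases h5 : lo Y' z'
    · obtain ⟨h6, h7⟩ := lw _ z' h' h5
      refine ⟨h3.1, h6.1, ?_⟩
      rcases h4 with ⟨-, h4⟩ | ⟨Z, e1, e2, e3⟩
      · exact h4 ▸ s2 _ (gd _ z h) _ h6
      rcases h7 with ⟨-, h7⟩ | ⟨Z', e4, e5, e6⟩
      · exact h7 ▸ (s2 _ (gd _ z h) _ h3).symm
      · exact (hL _ z _ z' e2 e5 h1).2.2.mono (hW (e1.trans Finset.subset_union_left)) e3 e6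
    · obtain ⟨Z', e4, e5, e6, e7⟩ := hi _ z' h' h5
      obtain ⟨Z, e1, e2, e3⟩ := h4.resolve_left fun h4 => h5 ⟨h2.1, Finset.Subset.antisymm
        (h4.1 ▸ At_mono (fun g => (abs_le.1 (h1 g)).2) (by linarith)) (e7 h2.1 ▸ e4)⟩
      obtain ⟨-, h6, h7⟩ := hL _ z _ z' e2 e5 h1
      have h8 := hW (e1.trans (Finset.subset_union_left (s₂ := Z')))
      exact ⟨h3.1, e6 ▸ h6.anti h8 (gd _ z h).1, e6 ▸ h7.mono h8 e3 subset_rfl⟩
  refine ⟨L', fun Y z Y' z' h h' h1 => ?_⟩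
  by_cases h2 : lo Y z
  · exact key Y z Y' z' h h' h1 h2
  by_cases h3 : lo Y' z'
  · obtain ⟨h4, h5, h6⟩ := key Y' z' Y z h' h (fun g => abs_sub_comm (z g) _ ▸ h1 g) h3
    exact Finset.union_comm Y Y' ▸ ⟨h5, h4, h6.symm⟩
  obtain ⟨Z, e1, e2, e3, -⟩ := hi Y z h h2
  obtain ⟨Z', e4, e5, e6, -⟩ := hi Y' z' h' h3
  obtain ⟨h4, h5, h6⟩ := hL _ z _ z' e2 e5 h1
  have h7 := hW (Finset.union_subset_union e1 e4)
  have h8 := fun j => supp_mono (hW (Finset.subset_union_left (s₂ := Y'))) ((gd Y z h).1 j)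
  exact e3 ▸ e6 ▸ ⟨h4.anti h7 h8, h5.anti h7 h8, h6.mono h7 subset_rfl subset_rfl⟩

end RA

end

end Pool.Agent.P.MP_b91a16_ag
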