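import Pool.Agent.P.MP_b91a16_ag.CvStruct

/-! The relation between exponential sums given by a deficient set of linear variables. -/

set_option linter.unusedSectionVars false

open MvPolynomial

namespace Pool.Agent.P.MP_b91a16_ag

noncomputable section

namespace RA

open Cv

variable {k σ ι : Type} [Field k] [CharZero k] [Fintype σ] [DecidableEq σ] [Fintype ι]
  [DecidableEq ι]
variable {u : ι → σ → ℕ} {a : ι → k} {I : Finset ι} {S U : Finset σ}

variable (u) in
def eu (I : Finset ι) (U : Finset σ) : ℕ := (supp u I \ (U ∪ supp u (Nc u I U))).card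

theorem disj_Nc : Disjoint U (supp u (Nc u I U)) := Finset.disjoint_left.2 fun j h h' => by
  obtain ⟨i, h1, h2⟩ := (mem_supp u).1 h'
  exact h2 ((mem_Nc.1 h1).2 j h)

theorem supp_Nc : supp u (Nc u I U) ⊆ supp u I := fun j h => by
  obtain ⟨i, h1, h2⟩ := (mem_supp u).1 h
  exact (mem_supp u).2 ⟨i, Nc_subset h1, h2⟩

theorem card_eu (h : U ⊆ supp u I) :
    (supp u I).card = eu u I U + U.card + (supp u (Nc u I U)).card := by
  rw [← Finset.card_sdiff_add_card_eq_card (Finset.union_subset h supp_Nc),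
    Finset.card_union_of_disjoint disj_Nc, eu, add_assoc]

theorem tvol_rel (hS : S ⊆ supp u I) (hP : PL u I S S) (hZ : ¬HZ u a I S) (d : k) :
    ∑ U ∈ S.powerset, Linv k ^ U.card * ((1 - Linv k) ^ eu u I U * tvol u a (Nc u I U) d) =
      Linv k * (1 - Linv k) ^ (supp u I \ S).card := by
  classical
  have hupd : ∀ (K : Type) [Field K] (y : σ × ℕ → K) (c : K) {j j' : σ}, j' ≠ j →
      Function.update y (j, 0) c (j', 0) = y (j', 0) := fun K _ y c j j' hj' =>
    Function.update_of_ne (by simpa using hj') _ _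
  have h1 := HasVol.elim_multi S (fun l => (l, 0)) (FF u a I - C d) (fun l => ∑ i ∈ Nb u I {l},
    C (a i) * ∏ j ∈ Finset.univ.erase l, X (j, 0) ^ u i j) (fun K _ _ y t l hl l' hl' => ?_)
    (fun K _ _ y t l hl => ?_) (hasVol_units (k := k) (supp u I \ S))
    (fun K _ _ y t l hl hy j hj => by
      rw [hupd K y t (ne_of_mem_of_not_mem hl (Finset.mem_sdiff.1 hj).2).symm]
      exact hy j hj) fun K _ _ y hy => by_contra fun h => hZ ⟨K, inferInstance, algebraMap k K,
        fun j => if j ∈ supp u I \ S then y (j, 0) else 1, fun j => by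
          beta_reduce
          split_ifs with h
          exacts [hy j h, one_ne_zero], fun l hl => ?_⟩
  · refine (hasVol_sum S.powerset (fun U K _ _ y => (TP u a (Nc u I U) d K y ∧
      ∀ j ∈ supp u I \ (U ∪ supp u (Nc u I U)), y (j, 0) ≠ 0) ∧ ∀ p ∈ U.map lev0, y p = 0) _
      (fun U hU => ?_) fun K _ _ y U hU U' hU' h h' => ?_).unique (h1.congr fun K _ _ y => ?_)
    · rw [← Finset.card_map lev0]
      refine ((hasVol_tvol u a _ d).and_units _ fun j hj K _ _ y c hy => TP_update u a _ d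
        (fun h => (Finset.mem_sdiff.1 hj).2 (Finset.mem_union_right _ h)) c hy).and_forall_zero _ ?_
      simp only [Finset.forall_mem_map]
      exact fun l hl K _ _ y c hy => ⟨TP_update u a _ d (Finset.disjoint_left.1 disj_Nc hl) c hy.1,
        fun j hj => by
          rw [lev0, Function.Embedding.coeFn_mk, hupd K y c (ne_of_mem_of_not_mem
            (Finset.mem_union_left _ hl) (Finset.mem_sdiff.1 hj).2).symm]
          exact hy.2 j hj⟩
    · have : ∀ U ∈ S.powerset, ∀ U' ∈ S.powerset, (TP u a (Nc u I U) d K y ∧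
          ∀ j ∈ supp u I \ (U ∪ supp u (Nc u I U)), y (j, 0) ≠ 0) → (∀ p ∈ U'.map lev0, y p = 0) →
          U' ⊆ U := fun U _ U' hU' h h' l hl => by_contra fun h2 => by
        have h3 := h' _ (Finset.mem_map_of_mem _ hl)
        by_cases h4 : l ∈ supp u (Nc u I U)
        exacts [h.1.1 l h4 h3, h.2 l (by simp [h2, h4, hS (Finset.mem_powerset.1 hU' hl)]) h3]
      exact (this U' hU' U hU h'.1 h.2).antisymm (this U hU U' hU' h.1 h'.2)
    · have e : ∀ U : Finset σ, (∀ l ∈ U, y (l, 0) = 0) →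
          aeval y (FF u a (Nc u I U)) = aeval y (FF u a I) := fun U hU => by
        rw [aeval_FF, aeval_FF]
        refine Finset.sum_subset Nc_subset fun i h2 h3 => ?_
        simp only [mem_Nc, h2, true_and, not_forall] at h3
        obtain ⟨l, h4, h5⟩ := h3
        rw [Finset.prod_eq_zero (Finset.mem_univ l) (by rw [hU l h4, zero_pow h5]), mul_zero]
      simp only [TP, map_sub, aeval_C, sub_eq_zero, Finset.forall_mem_map, Finset.mem_powerset]
      constructor
      · rintro ⟨h2, h3⟩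
        have h4 : ∀ j ∈ supp u I, j ∉ S.filter (fun l => y (l, 0) = 0) → y (j, 0) ≠ 0 := fun j h h' => by
          by_cases h4 : j ∈ S
          exacts [by simpa [h4] using h', h2 j (by simp [h, h4])]
        exact ⟨S.filter (fun l => y (l, 0) = 0), Finset.filter_subset _ _, ⟨⟨fun j hj => h4 j (supp_Nc hj)
          (Finset.disjoint_right.1 disj_Nc hj), (e _ fun l hl => (Finset.mem_filter.1 hl).2).trans h3⟩,
          fun j hj => h4 j (Finset.mem_sdiff.1 hj).1 fun h => (Finset.mem_sdiff.1 hj).2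
            (Finset.mem_union_left _ h)⟩, fun l hl => (Finset.mem_filter.1 hl).2⟩
      · rintro ⟨U, h2, ⟨⟨h3, h4⟩, h5⟩, h6⟩
        refine ⟨fun j hj => ?_, (e U h6).symm.trans h4⟩
        by_cases h : j ∈ supp u (Nc u I U)
        exacts [h3 j h, h5 j (by simpa [h, (Finset.mem_sdiff.1 hj).1] using
          fun h' => (Finset.mem_sdiff.1 hj).2 (h2 h'))]
  · simp only [map_sum, map_mul, map_prod, map_pow, aeval_X, aeval_C]
    refine Finset.sum_congr rfl fun i hi => congrArg _ (Finset.prod_congr rfl fun j hj => ?_)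
    by_cases h : j = l
    · simp [hP.eq (mem_Nb1.1 hi).1 hl' (mem_Nb1.1 hi).2 (h ▸ hl : j ∈ S), Finset.ne_of_mem_erase hj]
    · rw [hupd K y t h]
  · simp only [map_sub, aeval_C, aeval_FF, map_sum, Nb, Finset.sum_filter, Finset.mul_sum]
    rw [sub_add_eq_add_sub, ← Finset.sum_add_distrib, sub_left_inj]
    refine Finset.sum_congr rfl fun i hi => ?_
    rw [← Finset.mul_prod_erase _ _ (Finset.mem_univ l), ← Finset.mul_prod_erase _ _ (Finset.mem_univ l),
      Finset.prod_congr rfl fun j hj => by rw [hupd K y t (Finset.ne_of_mem_erase hj)]]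
    by_cases h : u i l = 0
    · simp [h]
    · simp [(hP i hi l hl l hl h h).2]
      ring
  · push Not at h
    rw [← h l hl]
    simp only [map_sum, map_mul, map_prod, map_pow, aeval_X, aeval_C]
    refine Finset.sum_congr rfl fun i hi => congrArg _ ?_
    obtain ⟨h2, h3⟩ := mem_Nb1.1 hi
    rw [← Finset.mul_prod_erase _ _ (Finset.mem_univ l), if_neg (by simp [hl]), one_pow, one_mul]
    refine Finset.prod_congr rfl fun j hj => ?_
    by_cases h4 : u i j = 0
    · simp [h4]
    · rw [if_pos (Finset.mem_sdiff.2 ⟨(mem_supp u).2 ⟨i, h2, h4⟩, fun h =>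
        Finset.ne_of_mem_erase hj (hP i h2 j h l hl h4 h3).1⟩)]

theorem pp_rel (hS : S ⊆ supp u I) (hP : PL u I S S) (hZ : ¬HZ u a I S) (d : k) :
    ∑ U ∈ S.powerset, Linv k ^ U.card * ((1 - Linv k) ^ eu u I U * pp u a (Nc u I U) d) = 0 := by
  have h0 := Finset.sum_pow_mul_eq_add_pow (Linv k) (1 - Linv k) S
  rw [add_sub_cancel, one_pow] at h0
  rw [← sub_eq_zero.2 (((tvol_rel hS hP hZ d).trans (mul_one _).symm).trans (congrArg _ h0.symm)),
    Finset.mul_sum, ← Finset.sum_sub_distrib]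
  refine Finset.sum_congr rfl fun U hU => ?_
  have h1 := card_eu ((Finset.mem_powerset.1 hU).trans hS)
  have h2 := Finset.card_sdiff_add_card_eq_card hS
  have h3 := Finset.card_le_card (Finset.mem_powerset.1 hU)
  rw [mul_mul_mul_comm (Linv k), ← pow_add, show (supp u I \ S).card + (S.card - U.card) =
    eu u I U + (supp u (Nc u I U)).card by omega, pp]
  ring

theorem exists_co : ∃ co : Finset ι → Finset ι → Polynomial ℤ,
    (∀ I, (∃ S, Df u I S) → ∃ S, MD u I S ∧ ∀ R, ∑ U ∈ S.powerset,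
      .X ^ U.card * ((1 - .X) ^ eu u I U * co (Nc u I U) R) = 0) ∧
    ∀ I, (¬∃ S, Df u I S) → ∀ R, co I R = if I = R then 1 else 0 := by
  classical
  have : ∀ I, (∃ S, Df u I S) → ∃ S, MD u I S := fun I ⟨S, h⟩ => h.exists_md.imp fun _ h => h.2
  choose S hS using this
  let co : Finset ι → Finset ι → Polynomial ℤ := Finset.strongInduction fun I ih R =>
    if h : ∃ S, Df u I S then -∑ U ∈ ((S I h).powerset.erase ∅).attach, .X ^ U.1.card *
      ((1 - .X) ^ eu u I U * ih (Nc u I U) (Nc_ssubset ((Finset.mem_powerset.1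
        (Finset.mem_of_mem_erase U.2)).trans (hS I h).1.1) (Finset.ne_of_mem_erase U.2)) R)
    else if I = R then 1 else 0
  refine ⟨co, fun I h => ⟨_, hS I h, fun R => ?_⟩, fun I h R =>
    (congrFun (Finset.strongInduction_eq _ I) R).trans (dif_neg h)⟩
  rw [← Finset.add_sum_erase _ _ (Finset.empty_mem_powerset _), ← Finset.sum_attach,
    add_eq_zero_iff_eq_neg]
  simpa [Nc_empty, eu] using (congrFun (Finset.strongInduction_eq _ I) R).trans (dif_pos h)

theorem fc_II (hu : ∀ i, ∃ j, u i j ≠ 0) {w : σ → ℕ} {N : ℕ} (h : ∀ i, N ≤ oo u w i) :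
    Fc u (II u w N) := by
  have e : ∀ (c d : ℚ) i, (fun o => o.elim c fun j => d * (w j + 1)) ⬝ᵥ hv u i = c + d * oo u w i :=
    fun c d i => by simp [dot_hv, oo, Finset.mul_sum, mul_assoc]
  rcases N.eq_zero_or_pos with rfl | hN
  · have : ∀ i, (1 : ℚ) ≤ oo u w i := fun i => by
      obtain ⟨j, hj⟩ := hu i
      exact_mod_cast (Nat.pos_of_ne_zero (mul_ne_zero (w j).succ_ne_zero hj)).trans_le
        (Finset.single_le_sum (f := fun j => (w j + 1) * u i j) (fun _ _ => Nat.zero_le _)
          (Finset.mem_univ j))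
    refine ⟨fun o => o.elim (-1) fun j => 2 * (w j + 1), ⟨by simp, fun j => by simp; positivity,
      fun i => by rw [e]; linarith [this i]⟩, fun i => ?_⟩
    rw [e, II, Finset.mem_filter, ← Nat.cast_inj (R := ℚ)]
    exact iff_of_false (fun h => by simpa [h.2, not_le.2] using this i) (by linarith [this i])
  · refine ⟨fun o => o.elim (-N) fun j => 1 * (w j + 1), ⟨by simpa using hN,
      fun j => by simp; positivity, fun i => by rw [e]; simpa using h i⟩, fun i => ?_⟩
    rw [e, neg_add_eq_zero]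
    simp [II, eq_comm]

variable (u) in
def th2 (θ : Finset ι → ℝ) (N : ℕ) (w : σ → ℕ) : ℝ := if ∀ i, N ≤ oo u w i then θ (II u w N) else 0

theorem th2_cap (θ : Finset ι → ℝ) {N m : ℕ} (hN : N ≤ m) (w : σ → ℕ) :
    th2 u θ N w = th2 u θ N fun j => min (w j) m := by
  have h1 : II u w N = II u (fun j => min (w j) m) N := by
    ext i
    have := min_oo_cap u m w i
    simp only [II, Finset.mem_filter, Finset.mem_univ, true_and]
    omega
  have h2 : (∀ i, N ≤ oo u w i) ↔ ∀ i, N ≤ oo u (fun j => min (w j) m) i :=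
    forall_congr' fun i => by
      have := min_oo_cap u m w i
      omega
  simp only [th2, h1, h2]

theorem exists_cc (hu : ∀ i, ∃ j, u i j ≠ 0) (hN : ND2 u a) {x : ℝ} (h0 : 0 < x) (h1 : x < 1) :
    ∃ (cc : Finset ι → ℕ → ℕ → Polynomial ℤ) (θ : Finset ι → Finset ι → ℝ),
      (∀ R I, Rel u (x / (1 - x)) (θ R) I) ∧
      (∀ R m N c, N ≤ m → HasSum (fun w : σ → ℕ => x ^ (∑ j, w j) * th2 u (θ R) N w) c →
        evR x (cc R m N) = (1 - x) ^ Fintype.card σ * c) ∧
      ∀ m N d, (∑ w ∈ Fintype.piFinset fun _ : σ => Finset.range (m + 1),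
        if ∀ i, N ≤ oo u w i then Linv k ^ (∑ j, w j) *
          ((1 - Linv k) ^ (JJ m w \ supp u (II u w N)).card * pp u a (II u w N) d) else 0) =
        ∑ R, pp u a R d * evM k (cc R m N) := by
  obtain ⟨co, c1, c2⟩ := exists_co (u := u)
  have h2 : 1 - x ≠ 0 := (sub_pos.2 h1).ne'
  have h3 : ∀ d I, Fc u I → pp u a I d = ∑ R, pp u a R d * evM k (co I R) := fun d I => by
    induction I using Finset.strongInduction with
    | H I ih =>
    intro hF
    by_cases h : ∃ S, Df u I S
    · obtain ⟨S, h3, h4⟩ := c1 I h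
      have h5 := pp_rel h3.1.1 h3.1.2.1 (h3.1.not_hz hF hN) d
      have h6 : ∑ U ∈ S.powerset, Linv k ^ U.card * ((1 - Linv k) ^ eu u I U *
          ∑ R, pp u a R d * evM k (co (Nc u I U) R)) = 0 := by
        simp only [Finset.mul_sum]
        rw [Finset.sum_comm]
        refine Finset.sum_eq_zero fun R _ => ?_
        rw [← mul_zero (pp u a R d), ← map_zero (evM k), ← h4 R, map_sum, Finset.mul_sum]
        exact Finset.sum_congr rfl fun U _ => by simp; ring
      rw [← Finset.add_sum_erase _ _ (Finset.empty_mem_powerset _)] at h5 h6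
      rw [Finset.sum_congr rfl fun U hU => by rw [ih _ (Nc_ssubset ((Finset.mem_powerset.1
        (Finset.mem_of_mem_erase hU)).trans h3.1.1) (Finset.ne_of_mem_erase hU)) (hF.nc U)]] at h5
      simpa [Nc_empty, eu] using add_right_cancel (h5.trans h6.symm)
    · simp [c2 I h, apply_ite]
  refine ⟨fun R m N => ∑ w ∈ Fintype.piFinset fun _ : σ => Finset.range (m + 1),
    if ∀ i, N ≤ oo u w i then .X ^ (∑ j, w j) *
      ((1 - .X) ^ (JJ m w \ supp u (II u w N)).card * co (II u w N) R) else 0,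
    fun R I => evR x (co I R) / (1 - x) ^ (supp u I).card, fun R => confl fun I h => ?_,
    fun R m N c hN hc => ?_, fun m N d => ?_⟩
  · obtain ⟨S, h4, h5⟩ := c1 I h
    refine ⟨S, h4, ?_⟩
    rw [← zero_div ((1 - x) ^ (supp u I).card), ← map_zero (evR x), ← h5 R, map_sum, Finset.sum_div]
    refine Finset.sum_congr rfl fun U hU => ?_
    rw [card_eu ((Finset.mem_powerset.1 hU).trans h4.1.1)]
    simp only [map_mul, map_pow, map_sub, map_one, AlgHom.toRingHom_eq_coe, RingHom.coe_coe,
      Polynomial.aeval_X, div_pow]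
    field_simp
    ring
  · rw [(hc.mul_left _).unique (hasSum_cap h0.le h1 m _ (th2_cap _ hN)), map_sum]
    refine Finset.sum_congr rfl fun w _ => ?_
    unfold th2
    split_ifs with h
    · have e1 : supp u (II u w N) ⊆ JJ m w := fun j hj => by
        obtain ⟨i, hi, h⟩ := (mem_supp u).1 hj
        exact mem_JJ_of_le u (((Finset.mem_filter.1 hi).2.trans_le hN)) h
      rw [← Finset.card_sdiff_add_card_eq_card e1]
      simp only [map_mul, map_pow, map_sub, map_one, AlgHom.toRingHom_eq_coe, RingHom.coe_coe,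
        Polynomial.aeval_X]
      field_simp
      ring
    · simp
  · simp only [map_sum, Finset.mul_sum]
    rw [Finset.sum_comm]
    refine Finset.sum_congr rfl fun w _ => ?_
    split_ifs with h
    · simp only [h3 d _ (fc_II hu h), Finset.mul_sum]
      exact Finset.sum_congr rfl fun R _ => by simp; ring
    · simp

theorem zeta_mem2 (hu : ∀ i, ∃ j, u i j ≠ 0) (hN : ND2 u a)
    {Z : PowerSeries (Mot k)} (hZ : ∀ m, PowerSeries.coeff m Z = rhs u a m) {Al : ℕ × ℕ → Prop}
    (hR : ∀ x : ℝ, 0 < x → x < 1 → ∀ θ, (∀ I, Rel u (x / (1 - x)) θ I) → ∃ F : PowerSeries ℝ,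
      (∀ N, HasSum (fun w : σ → ℕ => x ^ (∑ j, w j) * th2 u θ N w) (PowerSeries.coeff N F)) ∧
      ∃ D ∈ AlM x Al, (D : PowerSeries ℝ) * F ∈ PolyS)
    (h11 : Al (1, 1)) (hAl : ∀ p, Al p → 0 < p.2) :
    ∃ S : Finset (ℕ × ℕ), (∀ p ∈ S, Al p) ∧ Z ∈ poleRing k S := by
  obtain ⟨x, h0, h1, hx⟩ := exists_transcendental
  obtain ⟨cc, θ, c1, c2, c3⟩ := exists_cc hu hN h0 h1
  let Φ₀ : PowerSeries (Polynomial ℤ) := PowerSeries.mk fun m => Polynomial.X ^ (m + 1)
  let ΦP : Finset ι → PowerSeries (Polynomial ℤ) := fun R => PowerSeries.mk fun m => cc R m m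
  let ΦQ : Finset ι → PowerSeries (Polynomial ℤ) := fun R => PowerSeries.mk fun m =>
    ∑ N ∈ Finset.range m, Polynomial.X ^ (m - N) * cc R m N
  have hz : Z = PowerSeries.map (evM k) Φ₀ +
      ∑ R, (pp u a R 1 • PowerSeries.map (evM k) (ΦP R) +
        pp u a R 0 • PowerSeries.map (evM k) (ΦQ R)) := by
    ext m
    rw [hZ, rhs]
    simp only [c3, Finset.sum_range_succ, if_true, map_add, map_sum, map_smul,
      PowerSeries.coeff_map, PowerSeries.coeff_mk, Φ₀, ΦP, ΦQ, smul_eq_mul, Nat.sub_self, pow_zero,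
      one_mul, Finset.sum_add_distrib, map_mul, map_pow]
    simp only [AlgHom.toRingHom_eq_coe, RingHom.coe_coe, Polynomial.aeval_X, add_right_inj,
      Finset.mul_sum]
    rw [add_comm, add_right_inj, Finset.sum_comm]
    refine Finset.sum_congr rfl fun R _ => Finset.sum_congr rfl fun N hN => ?_
    rw [if_neg (Finset.mem_range.1 hN).ne]
    ring
  have hf : fac x (1, 1) ∈ AlM x Al := Submonoid.subset_closure ⟨_, h11, rfl⟩
  have hfac : ((fac x (1, 1) : Polynomial ℝ) : PowerSeries ℝ) =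
      1 - PowerSeries.C x * PowerSeries.X := by simp [fac]
  have g₀ := transfer (k := k) hx hAl Φ₀ ⟨_, hf, mem_PolyS_iff.2 ⟨1, fun N hN => by
    obtain ⟨N, rfl⟩ := Nat.exists_eq_add_of_le' hN
    rw [hfac, sub_mul, one_mul, mul_assoc, map_sub, PowerSeries.coeff_C_mul,
      PowerSeries.coeff_succ_X_mul]
    simp [Φ₀, pow_succ']⟩⟩
  have g₁ : ∀ R ∈ (Finset.univ : Finset (Finset ι)), ∃ S : Finset (ℕ × ℕ), (∀ p ∈ S, Al p) ∧
      pp u a R 1 • PowerSeries.map (evM k) (ΦP R) +
        pp u a R 0 • PowerSeries.map (evM k) (ΦQ R) ∈ poleRing k S := by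
    intro R _
    obtain ⟨F, hF, D, hD, hDF⟩ := hR x h0 h1 _ (c1 R)
    set κ := (1 - x) ^ Fintype.card σ with hκ
    have e : ∀ m N, N ≤ m → evR x (cc R m N) = κ * PowerSeries.coeff N F := fun m N hN =>
      c2 R m N _ hN (hF N)
    have eP : PowerSeries.map (evR x) (ΦP R) = κ • F := by
      ext m
      simp only [PowerSeries.coeff_map, ΦP, PowerSeries.coeff_mk, e m m le_rfl, map_smul,
        smul_eq_mul]
    have eQ : (1 - PowerSeries.C x * PowerSeries.X) * PowerSeries.map (evR x) (ΦQ R) =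
        (x * κ) • (PowerSeries.X * F) := by
      have c : ∀ m, PowerSeries.coeff m (PowerSeries.map (evR x) (ΦQ R)) =
          ∑ N ∈ Finset.range m, x ^ (m - N) * (κ * PowerSeries.coeff N F) := by
        intro m
        simp only [PowerSeries.coeff_map, ΦQ, PowerSeries.coeff_mk, map_sum, map_mul, map_pow]
        refine Finset.sum_congr rfl fun N hN => ?_
        rw [e m N (Finset.mem_range.1 hN).le]
        simp
      ext m
      rw [sub_mul, one_mul, mul_assoc, map_sub, PowerSeries.coeff_C_mul, map_smul, c]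
      rcases m with _ | m
      · simp
      · rw [PowerSeries.coeff_succ_X_mul, PowerSeries.coeff_succ_X_mul, c, Finset.sum_range_succ,
          Finset.mul_sum, Finset.sum_congr rfl fun N hN => by
            rw [show m + 1 - N = m - N + 1 by rw [Finset.mem_range] at hN; omega, pow_succ',
              mul_assoc]]
        simp only [Nat.add_sub_cancel_left, pow_one, smul_eq_mul]
        ring
    obtain ⟨S₁, hS₁, h₁⟩ := transfer (k := k) hx hAl (ΦP R) ⟨D, hD, by
      rw [eP, mul_smul_comm]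
      exact PolyS.smul_mem hDF _⟩
    obtain ⟨S₂, hS₂, h₂⟩ := transfer (k := k) hx hAl (ΦQ R) ⟨D * fac x (1, 1), mul_mem hD hf, by
      rw [Polynomial.coe_mul, mul_assoc, hfac, eQ, mul_smul_comm, mul_left_comm]
      refine PolyS.smul_mem (mul_mem ?_ hDF) _
      simpa using coe_mem_PolyS Polynomial.X⟩
    exact ⟨S₁ ∪ S₂, fun p hp => (Finset.mem_union.1 hp).elim (hS₁ p) (hS₂ p),
      add_mem (Subalgebra.smul_mem _ (poleRing_mono Finset.subset_union_left h₁) _)
        (Subalgebra.smul_mem _ (poleRing_mono Finset.subset_union_right h₂) _)⟩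
  obtain ⟨S₀, hS₀, h₀⟩ := g₀
  obtain ⟨S₁, hS₁, h₁⟩ := exists_finset_sum _ _ g₁
  refine ⟨S₀ ∪ S₁, fun p hp => (Finset.mem_union.1 hp).elim (hS₀ p) (hS₁ p), ?_⟩
  rw [hz]
  exact add_mem (poleRing_mono Finset.subset_union_left h₀)
    (poleRing_mono Finset.subset_union_right h₁)

end RA

end

end Pool.Agent.P.MP_b91a16_ag
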