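import Pool.Agent.P.MP_b91a16_ag.CvShell

/-! A common torus zero of the linear blocks forces a root of the Bernstein-Sato polynomial. -/

set_option linter.unusedSectionVars false

open Filter

namespace Pool.Agent.P.MP_b91a16_ag

noncomputable section

namespace RA

open Cv

variable {k σ ι : Type} [Field k] [CharZero k] [Fintype σ] [DecidableEq σ] [Fintype ι]
  [DecidableEq ι]
variable {u : ι → σ → ℕ} {a : ι → k} {Φ : Finset (Option σ → ℚ)} {β c ω₀ : Option σ → ℚ}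
  {S' S₁ : Finset σ} {A B : Set (Pt σ)}

theorem Pol.dep_top (hP : Pol u Φ) (hN : ND2 u a) (S : Finset σ) (Q : (Option σ → ℚ) → Prop)
    {q₀ : Option σ → ℚ} (h1 : ∀ j ∈ S, q₀ (some j) = 0) (h2 : ∀ j ∉ S, 0 < q₀ (some j))
    (hQ : ∀ l ∈ Φ, ∀ l' ∈ Φ, l none < 0 → l' none < 0 → Q l → ¬Q l' →
      0 < (l' none • l - l none • l') ⬝ᵥ q₀) (c : Option σ → ℚ) :
    Dep u a Sᶜ {p | p.2 = 0 ∧ (∀ l ∈ Φ, 0 ≤ l ⬝ᵥ qv c p) ∧ (∀ j ∈ S, qv c p (some j) = 0) ∧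
      ∃ l ∈ Φ, l none < 0 ∧ l ⬝ᵥ qv c p = 0 ∧ Q l} Sᶜ.card := by
  classical
  let U : Submodule ℚ (Option σ → ℚ) := Submodule.pi (S.image some) fun _ => ⊥
  have hU : ∀ y, y ∈ U ↔ ∀ j ∈ S, y (some j) = 0 := by simp [U, Submodule.mem_pi]
  have e : ∀ l : Option σ → ℚ, l ⬝ᵥ (-Pi.single none 1) = -l none := by simp
  refine Dep.congr (hP.shell' (Ψ := S.image RA.ex) (by simp [Finset.image_subset_iff, hP.ex]) U
    (p₀ := -Pi.single none 1) (q₀ := q₀) (Sᶜ.image RA.ex ∪ ((Φ ×ˢ Φ).filter fun x => x.1 none < 0 ∧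
      x.2 none < 0 ∧ Q x.1 ∧ ¬Q x.2).image fun x => x.2 none • x.1 - x.1 none • x.2) Q
    (fun y hy => (hU y).2 fun j hj => ex_dot j y ▸ hy.2 _ (Finset.mem_image_of_mem _ hj))
    (by simpa [ex_dot, hU] using fun j hj y hy => hy j hj) (by simp [hU]) ((hU _).2 h1) ?_ ?_ ?_ ?_
    (fun Ψ' _ _ h => by simpa [e] using h) ?_ (fun Ψ' h3 h4 => hP.depth hN _ Ψ' h3 fun l hl =>
      h4 (Finset.mem_image_of_mem _ (by simpa using hl))) c) fun p => ?_
  · intro l hl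
    rcases Finset.mem_union.1 hl with hl | hl
    · obtain ⟨j, hj, rfl⟩ := Finset.mem_image.1 hl
      exact ex_dot j q₀ ▸ h2 j (Finset.mem_compl.1 hj)
    · obtain ⟨x, hx, rfl⟩ := Finset.mem_image.1 hl
      obtain ⟨h3, h4, h5, h6, h7⟩ := Finset.mem_filter.1 hx
      exact hQ _ (Finset.mem_product.1 h3).1 _ (Finset.mem_product.1 h3).2 h4 h5 h6 h7
  · intro l hl
    rcases hP.ty l hl with ⟨j, rfl⟩ | h
    exacts [by simp [RA.ex], by simpa [e] using h.1.le]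
  · intro l hl h
    obtain ⟨j, rfl⟩ := (hP.ty l hl).resolve_right fun h' => by simp [e, h'.1.ne] at h
    by_cases hj : j ∈ S
    · exact Or.inr fun y hy => ex_dot j y ▸ (hU y).1 hy j hj
    · exact Or.inl (Finset.mem_union_left _ (Finset.mem_image_of_mem _ (Finset.mem_compl.2 hj)))
  · intro l hl l' hl' h3 h4 h5 h6
    refine Finset.mem_union_right _ (Finset.mem_image.2 ⟨(l, l'), Finset.mem_filter.2
      ⟨Finset.mk_mem_product hl hl', by simpa [e] using h3, by simpa [e] using h4, h5, h6⟩, ?_⟩)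
    simp only [e, neg_smul]
    abel
  · let f : Option (Sᶜ : Finset σ) → U := fun o => ⟨Pi.single (o.map Subtype.val) 1, (hU _).2 fun j hj => by
      rcases o with _ | ⟨j', hj'⟩
      · simp
      · simp [ne_of_mem_of_not_mem hj (Finset.mem_compl.1 hj')]⟩
    have : LinearIndependent ℚ f := LinearIndependent.of_comp U.subtype (by
      convert (Pi.basisFun ℚ (Option σ)).linearIndependent.comp _
        (Option.map_injective (Subtype.val_injective (p := (· ∈ Sᶜ)))) using 1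
      ext o
      simp [f])
    simpa [Finset.card_compl] using this.fintype_card_le_finrank
  · simp [Mc, Kc, e, ex_dot, and_assoc]

def St (d₀ : ℤ) (c : Option σ → ℚ) (P : (Option σ → ℚ) → Prop) : Set (Pt σ) :=
  {p | 0 ≤ p.2 ∧ d₀ ≤ p.1 none ∧ (p.2 = 0 → P (qv c p))}

variable {d₀ : ℤ} {P P' : (Option σ → ℚ) → Prop}

theorem ne_inl {p : Pt σ} (hp : 0 ≤ p.2) (j : σ) : (p + sh u (Sum.inl j)).2 ≠ 0 := fun h => by
  have h1 := congrFun h j
  have h2 := hp j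
  simp [sh] at h1 h2
  omega

theorem closed_St (h : ∀ y i, P y → P (y + hv u i)) : Closed u (St d₀ c P) := by
  rintro p ⟨h1, h2, h3⟩ g
  refine ⟨closed_pos p h1 g, ?_, fun h4 => ?_⟩
  · rcases g with j | i <;> simp [sh, hat]
    exacts [h2, by omega]
  · rcases g with j | i
    · exact absurd h4 (ne_inl h1 j)
    · exact qv_sh c p i ▸ h _ i (h3 (by simpa [sh] using h4))

theorem St_mono (h : ∀ p : Pt σ, P (qv c p) → P' (qv c p)) : St d₀ c P ⊆ St d₀ c P' :=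
  fun p hp => ⟨hp.1, hp.2.1, fun h' => h p (hp.2.2 h')⟩

theorem St_deg : ∀ p ∈ St d₀ c P, d₀ ≤ deg p := fun _ hp =>
  hp.2.1.trans (le_add_of_nonneg_right (Finset.sum_nonneg fun j _ => hp.1 j))

theorem St_sdiff {p : Pt σ} : p ∈ St d₀ c P \ St d₀ c P' ↔
    p.2 = 0 ∧ d₀ ≤ p.1 none ∧ P (qv c p) ∧ ¬P' (qv c p) := by
  constructor
  · rintro ⟨⟨h1, h2, h3⟩, h4⟩
    have : p.2 = 0 := by_contra fun h => h4 ⟨h1, h2, fun h' => absurd h' h⟩
    exact ⟨this, h2, h3 this, fun h => h4 ⟨h1, h2, fun _ => h⟩⟩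
  · rintro ⟨h1, h2, h3, h4⟩
    exact ⟨⟨h1.ge, h2, fun _ => h3⟩, fun h => h4 (h.2.2 h1)⟩

theorem def_Dl (hA : Closed u A) (hB : Closed u B) (h : B ⊆ A) :
    Def (pi deg) (fun l => LinearMap.mulLeft k (Fl u a l)) (Dl u a β) (sp k A) (sp k B) where
  gr := gr_pi deg
  hF := pi_Fl
  hD := fun l e x => by
    simpa [Dl, Op, Fl, dg, pi] using LinearMap.congr_fun (diag_comm _ _).eq x
  comm := fun _ _ => Op_comm u a β _ _ _ _
  pA := fun _ _ => diag_mem _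
  pB := fun _ _ => diag_mem _
  sA := fun _ => hA.op a β _ _
  sB := fun _ => hB.op a β _ _
  le := sp_mono h

theorem Op_ee' (l : Option σ → ℚ) (p : Pt σ) : Op u a β l 0 (ee p) =
    ((l ⬝ᵥ qv β p : ℚ) : k) • ee p +
      ∑ i, (a i * ((l ⬝ᵥ hv u i : ℚ) : k)) • ee (p + sh u (Sum.inr i)) := by
  rw [Op_ee, Fintype.sum_sum_type]
  simp only [cf, Sum.elim_inl, Pi.zero_apply, Rat.cast_zero, zero_smul, Finset.sum_const_zero,
    zero_add, Sum.elim_inr]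
  rfl

theorem op_mod (h : ∀ p ∈ A, ∀ j, p + sh u (Sum.inl j) ∈ B) (ξ : Option σ → ℚ) {x : Lm k σ}
    (hx : x ∈ sp k A) :
    Op u a β ξ 0 x - (ξ none : k) • Op u a β (Pi.single none 1) 0 x ∈ JJ' u a β A B := by
  have h1 := Op_add u a β (ext0 fun j => ξ (some j)) 0 (fun j => ξ (some j)) fun j => -ξ (some j)
  have h2 := Op_add u a β (ext0 (fun j => ξ (some j)) + 0) (ξ none • Pi.single none 1)
    ((fun j => ξ (some j)) + fun j => -ξ (some j)) (ξ none • 0)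
  rw [h1, Op_smul] at h2
  have h3 : Op u a β ξ 0 = _ := Eq.trans (by
    congr 1
    · ext (_ | j) <;> simp [ext0]
    · ext j
      simp) h2
  rw [h3, LinearMap.add_apply, LinearMap.smul_apply, add_sub_cancel_right, LinearMap.add_apply]
  refine add_mem (Op_ext0_mem _ hx) (Submodule.mem_sup_right (sp_map _ (fun p hp => ?_) hx))
  rw [Op_ee, Fintype.sum_sum_type]
  simp only [cf, Pi.zero_apply, zero_mul, Finset.sum_const_zero, Rat.cast_zero, zero_smul, zero_add,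
    Sum.elim_inr, mul_zero, add_zero]
  exact sum_mem fun j _ => Submodule.smul_mem _ _ (ee_mem (h p hp j))

theorem nil_of (hA : Closed u A) (hB : Closed u B) (h0 : ∀ p ∈ A, 0 ≤ p.2)
    (K : Finset (Option σ → ℚ)) (h1 : ∀ l ∈ K, l none ≠ 0 ∧ (∀ i, 0 ≤ l ⬝ᵥ hv u i) ∧
      ∀ p ∈ A, p.2 = 0 → 0 ≤ l ⬝ᵥ qv β p)
    (h2 : ∀ p ∈ A, (p.2 = 0 → ∀ l ∈ K, 0 < l ⬝ᵥ qv β p) → p ∈ B) (ξ : Option σ → ℚ) :
    ∃ r, ∀ x ∈ sp k A, (Op u a β ξ 0 ^ r) x ∈ JJ' u a β A B := by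
  classical
  have hy : ∀ p ∈ A, ∀ j, p + sh u (Sum.inl j) ∈ B := fun p hp j =>
    h2 _ (hA p hp _) fun h => absurd h (ne_inl (h0 p hp) j)
  have hJ := JJ_stab hA hB (Op_mem u a β ξ 0)
  have key : ∀ K' ⊆ K, ∀ x ∈ sp k A, (Op u a β ξ 0 ^ K'.card) x ∈
      sp k {p | p ∈ A ∧ (p.2 = 0 → ∀ l ∈ K', 0 < l ⬝ᵥ qv β p)} ⊔ JJ' u a β A B := by
    intro K' hK x hx
    induction K' using Finset.induction_on with
    | empty => exact Submodule.mem_sup_left (sp_map LinearMap.id (fun p hp => ee_mem (And.intro hp (by simp))) hx)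
    | insert l K' hl ih =>
      obtain ⟨h3, h4⟩ := Finset.insert_subset_iff.1 hK
      obtain ⟨h5, h6, h7⟩ := h1 l h3
      rw [Finset.card_insert_of_notMem hl, pow_succ', Module.End.mul_apply]
      refine map_sup _ (fun x hx => sp_map _ (fun p hp => ?_) hx)
        (fun x hx => Submodule.mem_sup_right (hJ x hx)) (ih h4)
      have h8 := sub_mem (op_mod (a := a) (β := β) hy ξ (ee_mem hp.1)) (Submodule.smul_mem _
        (ξ none / l none : k) (op_mod (a := a) (β := β) hy l (ee_mem hp.1)))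
      rw [smul_sub, smul_smul, div_mul_cancel₀ _ (Rat.cast_ne_zero.2 h5), sub_sub_sub_cancel_right]
        at h8
      rw [← sub_add_cancel (Op u a β ξ 0 (ee p)) _]
      refine add_mem (Submodule.mem_sup_right h8) (Submodule.mem_sup_left (Submodule.smul_mem _ _ ?_))
      rw [Op_ee']
      refine add_mem ?_ (sum_mem fun i _ => ?_)
      · by_cases h : l ⬝ᵥ qv β p = 0
        · simp [h]
        · exact Submodule.smul_mem _ _ (ee_mem ⟨hp.1, fun h9 => Finset.forall_mem_insert _ _ _ |>.2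
            ⟨(h7 p hp.1 h9).lt_of_ne' h, hp.2 h9⟩⟩)
      · by_cases h : l ⬝ᵥ hv u i = 0
        · simp [h]
        refine Submodule.smul_mem _ _ (ee_mem ⟨hA p hp.1 _, fun h9 l' hl' => ?_⟩)
        have h10 : p.2 = 0 := by simpa [sh] using h9
        rw [qv_sh, dotProduct_add]
        rcases Finset.mem_insert.1 hl' with rfl | hl'
        · exact add_pos_of_nonneg_of_pos (h7 p hp.1 h10) ((h6 i).lt_of_ne' h)
        · exact add_pos_of_pos_of_nonneg (hp.2 h10 l' hl') ((h1 l' (h4 hl')).2.1 i)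
  exact ⟨K.card, fun x hx => sup_le (c := JJ' u a β A B) ((sp_mono fun p hp => h2 p hp.1 hp.2).trans
    le_sup_right) le_rfl (key K subset_rfl x hx)⟩

theorem nil_cancel {M : Type} [AddCommGroup M] [Module k M] {N : Submodule k M}
    {v : Module.End k M} (hv : ∀ x ∈ N, v x ∈ N) {x : M} {r : ℕ} (h1 : (v ^ r) x ∈ N) {c : k}
    (hc : c ≠ 0) (h2 : v x - c • x ∈ N) : x ∈ N := by
  have : ∀ n : ℕ, (v ^ n) x - c ^ n • x ∈ N := by
    intro n
    induction n with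
    | zero => simp
    | succ n ih =>
      convert add_mem (hv _ ih) (N.smul_mem (c ^ n) h2) using 1
      simp only [pow_succ' v, pow_succ c, Module.End.mul_apply, map_sub, map_smul, smul_sub, smul_smul]
      abel
  exact (N.smul_mem_iff (pow_ne_zero r hc)).1 (by simpa using sub_mem h1 (this r))

theorem Pol.nonneg (hP : Pol u Φ) (hω : Val u ω₀) {y : Option σ → ℚ} (h : ∀ l ∈ Φ, 0 ≤ l ⬝ᵥ y) :
    0 ≤ ω₀ ⬝ᵥ y := by
  obtain ⟨κ, ν, h1, h2, h3, rfl⟩ := hP.gen y h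
  exact (hω.cone h1 h2 h3).1

theorem Pol.int (hP : Pol u Φ) (hω : Val u ω₀) {y : Option σ → ℚ} (h : ∀ l ∈ Φ, 0 ≤ l ⬝ᵥ y)
    (h' : ∀ l ∈ Φ, l none < 0 → 0 < l ⬝ᵥ y) : ω₀ ⬝ᵥ y ≠ 0 := fun h0 => by
  obtain ⟨n, hn⟩ := ((eventually_all_finset (Φ.filter (· none < 0))).2 fun l hl =>
    ev_small _ (l none) (h' l (Finset.mem_filter.1 hl).1 (Finset.mem_filter.1 hl).2)).exists
  have := hP.nonneg hω (y := y + Pi.single none (1 / (n + 1) : ℚ)) fun l hl => by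
    rw [dotProduct_add, dotProduct_single, mul_comm]
    rcases hP.ty l hl with ⟨j, rfl⟩ | h1
    · simpa [RA.ex] using h _ hl
    · exact (hn l (Finset.mem_filter.2 ⟨hl, h1.1⟩)).le
  rw [dotProduct_add, h0, dotProduct_single, zero_add] at this
  exact this.not_gt (mul_neg_of_neg_of_pos hω.1 (by positivity))

theorem Pol.none_nonneg (hP : Pol u Φ) {y l : Option σ → ℚ} (h : ∀ l ∈ Φ, 0 ≤ l ⬝ᵥ y) (hl : l ∈ Φ)
    (h1 : l none < 0) (h2 : l ⬝ᵥ y = 0) : 0 ≤ y none := by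
  have h3 := (hP.ty l hl).resolve_left (by rintro ⟨j, rfl⟩; simp [RA.ex] at h1)
  have := Finset.sum_nonneg (s := Finset.univ) fun j _ =>
    mul_nonneg (h3.2 j).le (ex_dot j y ▸ h _ (hP.ex j))
  rw [dotProduct, Fintype.sum_option] at h2
  nlinarith

variable (u Φ β c ω₀ S' S₁) in
structure Dt : Prop where
  pol : Pol u Φ
  val : Val u ω₀
  one : ∀ j, β (some j) = 1
  pos : 0 < β none
  cK : ∀ l ∈ Φ, 0 ≤ l ⬝ᵥ c
  cω : ω₀ ⬝ᵥ c = 0
  ge : ∀ j, 1 ≤ c (some j)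
  eq : ∀ j ∈ S', c (some j) = 1
  gen : ∀ l ∈ Φ, l none < 0 → ∀ p : Pt σ, l ⬝ᵥ qv c p = 0 → l ⬝ᵥ (β - c) = 0
  lam : ∀ l ∉ S₁, ∀ y : Option σ → ℚ, (∀ l ∈ Φ, 0 ≤ l ⬝ᵥ y) → ω₀ ⬝ᵥ y = 0 → y none = c none - 1 →
    ¬∀ j ∈ S', j ≠ l → 1 ≤ y (some j)
  sub : S₁ ⊆ S'

variable (Φ β c)

def dl : ℤ := -⌈β none + |c none|⌉

def PA (y : Option σ → ℚ) : Prop := ∃ s : ℚ, 0 ≤ s ∧ s ≤ 1 ∧ ∀ l ∈ Φ, 0 ≤ l ⬝ᵥ (y + s • (β - c))

def PB (y : Option σ → ℚ) : Prop :=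
  PA Φ β c y ∧ ∀ l ∈ Φ, l none < 0 → 0 ≤ l ⬝ᵥ (β - c) → 0 < l ⬝ᵥ (y + (β - c))

def PC (y : Option σ → ℚ) : Prop :=
  PA Φ β c y ∧ ∀ l ∈ Φ, l none < 0 → 0 < l ⬝ᵥ (β - c) → 0 < l ⬝ᵥ (y + (β - c))

def Ab' (T : Finset σ) : Set (Pt σ) := St (dl β c) c fun y => (∀ l ∈ Φ, 0 ≤ l ⬝ᵥ y) ∧
  ((∀ l ∈ Φ, l none < 0 → 0 < l ⬝ᵥ y) ∨ ∀ j ∈ T, 1 ≤ y (some j))

def Bs' (S : Finset σ) : Set (Pt σ) := St (dl β c) c fun y => (∀ l ∈ Φ, 0 ≤ l ⬝ᵥ y) ∧
  ((∀ l ∈ Φ, l none < 0 → 0 < l ⬝ᵥ y) ∨ ∃ j ∈ S, 1 ≤ y (some j))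

variable {Φ β c}

theorem qv_eq (p : Pt σ) : qv β p = qv c p + (β - c) := by rw [← qv_shift, add_sub_cancel]

theorem qv_zero : qv c 0 = c := funext fun o => by simp [qv]

theorem dl_le (h : 0 < β none) {K : ℤ} (h1 : 0 ≤ β none + K ∨ 0 ≤ c none + K) : dl β c ≤ K := by
  have h2 := Int.le_ceil (β none + |c none|)
  have : ((dl β c : ℤ) : ℚ) ≤ K := by
    rw [dl, Int.cast_neg]
    rcases h1 with h1 | h1 <;> linarith [abs_nonneg (c none), le_abs_self (c none)]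
  exact_mod_cast this

theorem PA.add (hP : Pol u Φ) (y : Option σ → ℚ) (i : ι) (h : PA Φ β c y) : PA Φ β c (y + hv u i) :=
  h.imp fun s h => ⟨h.1, h.2.1, fun l hl => by
    rw [add_right_comm, dotProduct_add]
    exact add_nonneg (h.2.2 l hl) (hP.nn l hl i)⟩

theorem PA.nonneg {y l : Option σ → ℚ} (h : PA Φ β c y) (hl : l ∈ Φ) (h1 : 0 ≤ l ⬝ᵥ (β - c)) :
    0 ≤ l ⬝ᵥ (y + (β - c)) := by
  obtain ⟨s, h2, h3, h4⟩ := h
  have := h4 l hl
  simp only [dotProduct_add, dotProduct_smul, smul_eq_mul] at this ⊢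
  nlinarith

theorem Pol.add_pos (hP : Pol u Φ) {l y z : Option σ → ℚ} (hl : l ∈ Φ) (i : ι)
    (h : 0 < l ⬝ᵥ (y + z)) : 0 < l ⬝ᵥ (y + hv u i + z) := by
  rw [add_right_comm, dotProduct_add]
  exact add_pos_of_pos_of_nonneg h (hP.nn l hl i)

theorem Pol.cA (hP : Pol u Φ) : Closed u (St d₀ c (PA Φ β c)) := closed_St (PA.add hP)

theorem Pol.cB (hP : Pol u Φ) : Closed u (St d₀ c (PB Φ β c)) :=
  closed_St fun y i h => ⟨h.1.add hP y i, fun l h1 h2 h3 => hP.add_pos h1 i (h.2 l h1 h2 h3)⟩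

theorem Pol.cC (hP : Pol u Φ) : Closed u (St d₀ c (PC Φ β c)) :=
  closed_St fun y i h => ⟨h.1.add hP y i, fun l h1 h2 h3 => hP.add_pos h1 i (h.2 l h1 h2 h3)⟩

theorem le_hv (y : Option σ → ℚ) (i : ι) (o : Option σ) : y o ≤ (y + hv u i) o :=
  le_add_of_nonneg_right (Nat.cast_nonneg _)

theorem Pol.cAb (hP : Pol u Φ) (T : Finset σ) : Closed u (Ab' Φ β c T) :=
  closed_St fun y i h => ⟨fun l hl => dotProduct_add l _ _ ▸ add_nonneg (h.1 l hl) (hP.nn l hl i),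
    h.2.imp (fun h l h1 h2 => dotProduct_add l _ _ ▸ add_pos_of_pos_of_nonneg (h l h1 h2)
      (hP.nn l h1 i)) fun h j hj => (h j hj).trans (le_hv y i _)⟩

theorem Pol.cBs (hP : Pol u Φ) (T : Finset σ) : Closed u (Bs' Φ β c T) :=
  closed_St fun y i h => ⟨fun l hl => dotProduct_add l _ _ ▸ add_nonneg (h.1 l hl) (hP.nn l hl i),
    h.2.imp (fun h l h1 h2 => dotProduct_add l _ _ ▸ add_pos_of_pos_of_nonneg (h l h1 h2)
      (hP.nn l h1 i)) fun h => h.imp fun _ hj => ⟨hj.1, hj.2.trans (le_hv y i _)⟩⟩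

theorem Dt.zle (h : Dt u Φ β c ω₀ S' S₁) (j : σ) : (β - c) (some j) ≤ 0 := by
  simpa [h.one] using h.ge j

theorem Dt.zero_Ab (h : Dt u Φ β c ω₀ S' S₁) : 0 ∈ Ab' Φ β c S' :=
  ⟨le_rfl, dl_le h.pos (Or.inl (by simpa using h.pos.le)), fun _ => by
    rw [qv_zero]
    exact ⟨h.cK, Or.inr fun j _ => h.ge j⟩⟩

theorem Ab'_anti {T T' : Finset σ} (h : T ⊆ T') : Ab' Φ β c T' ⊆ Ab' Φ β c T :=
  St_mono fun _ hp => ⟨hp.1, hp.2.imp_right fun h' j hj => h' j (h hj)⟩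

theorem Ab'_sub : Ab' Φ β c ∅ ⊆ St (dl β c) c (PC Φ β c) := St_mono fun p hp =>
  ⟨⟨0, le_rfl, zero_le_one, by simpa using hp.1⟩, fun l h1 _ h3 => by
    rw [dotProduct_add]
    exact add_pos_of_nonneg_of_pos (hp.1 l h1) h3⟩

theorem Dt.step1 (h : Dt u Φ β c ω₀ S' S₁) (hN : ND2 u a)
    (h1 : ee 0 ∈ JJ' u a β (St (dl β c) c (PA Φ β c)) (St (dl β c) c (PB Φ β c))) :
    ee 0 ∈ JJ' u a β (St (dl β c) c (PC Φ β c)) (St (dl β c) c (PB Φ β c)) := by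
  classical
  have hP := h.pol
  have hD := def_Dl (a := a) (β := β) (hP.cA (d₀ := dl β c) (c := c) (β := β)) hP.cC
    (St_mono fun _ h => h.1)
  obtain ⟨n, hn⟩ := ((eventually_all_finset ((Φ ×ˢ Φ).filter fun x => x.1 none < 0 ∧ x.2 none < 0 ∧
    0 < x.1 ⬝ᵥ (β - c) ∧ ¬0 < x.2 ⬝ᵥ (β - c))).2 fun x hx => ev_small
      ((x.2 none • x.1 - x.1 none • x.2) ⬝ᵥ (-(β - c))) ((x.2 none • x.1 - x.1 none • x.2) ⬝ᵥ 1) (by
        obtain ⟨-, h2, h3, h4, h5⟩ := Finset.mem_filter.1 hx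
        simp only [dotProduct_neg, sub_dotProduct, smul_dotProduct, smul_eq_mul]
        nlinarith)).exists
  have hR := hD.reg ((hP.dep_top hN ∅ (fun l => 0 < l ⬝ᵥ (β - c))
    (q₀ := -(β - c) + (1 / (n + 1) : ℚ) • 1) (by simp) (fun j _ => by
      have := h.zle j
      have : (0 : ℚ) < 1 / (n + 1) := by positivity
      simp only [Pi.add_apply, Pi.neg_apply, Pi.smul_apply, Pi.one_apply, smul_eq_mul]
      linarith) (fun l h2 l' h3 h4 h5 h6 h7 => by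
        simpa only [dotProduct_add, dotProduct_smul, smul_eq_mul] using hn (l, l')
          (Finset.mem_filter.2 ⟨Finset.mk_mem_product h2 h3, h4, h5, h6, h7⟩)) β).reg le_rfl
    hP.cA hP.cC (St_mono fun _ h => h.1) (Set.ext fun p => ?_) St_deg) (pi_low St_deg)
  · obtain ⟨x, h2, y, h3, h4⟩ := Submodule.mem_sup.1 h1
    refine Submodule.mem_sup.2 ⟨x, hR.inter hD.comm hD.sA hD.sB (by simp) h2 ?_, y, h3, h4⟩
    rw [← eq_sub_iff_add_eq.2 h4.symm.symm |>.symm]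
    exact sub_mem (ee_mem (Ab'_sub (Ab'_anti (Finset.empty_subset _) h.zero_Ab)))
      (sp_mono (St_mono fun p hp => ⟨hp.1, fun l h1 h2 h3 => hp.2 l h1 h2 h3.le⟩) h3)
  rw [St_sdiff, Set.mem_ofPred_eq, qv_eq (β := β) (c := c)]
  refine and_congr_right fun _ => ⟨fun ⟨_, h2, h3⟩ => ?_, fun ⟨h2, _, l, h3, h4, h5, h6⟩ => ⟨?_,
    ⟨1, zero_le_one, le_rfl, by simpa using h2⟩, fun h7 => (h7.2 l h3 h4 h6).ne' h5⟩⟩
  · obtain ⟨l, h4, h5, h6, h7⟩ : ∃ l ∈ Φ, l none < 0 ∧ 0 < l ⬝ᵥ (β - c) ∧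
        l ⬝ᵥ (qv c p + (β - c)) ≤ 0 := by
      by_contra h4
      push Not at h4
      exact h3 ⟨h2, h4⟩
    refine ⟨?_, by simp, l, h4, h5, le_antisymm h7 (h2.nonneg h4 h6.le), h6⟩
    obtain ⟨s, h8, h9, h10⟩ := h2
    have := h10 l h4
    simp only [dotProduct_add, dotProduct_smul, smul_eq_mul] at this h7
    obtain rfl : s = 1 := by nlinarith
    simpa using h10
  · refine dl_le h.pos (Or.inl ?_)
    rw [← qv_eq] at h2 h5
    exact hP.none_nonneg h2 h3 h4 h5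

theorem Dt.step2 (h : Dt u Φ β c ω₀ S' S₁)
    (h1 : ee 0 ∈ JJ' u a β (St (dl β c) c (PC Φ β c)) (St (dl β c) c (PB Φ β c))) :
    ee 0 ∈ JJ' u a β (Ab' Φ β c ∅) (Bs' Φ β c ∅) := by
  classical
  have hP := h.pol
  have hA := hP.cAb (β := β) (c := c) ∅
  have hB := hP.cBs (β := β) (c := c) ∅
  have hnil := nil_of (a := a) (β := β) hA hB (fun p hp => hp.1)
    (Φ.filter fun l => l none < 0 ∧ l ⬝ᵥ (β - c) = 0) (fun l hl => by
      obtain ⟨h2, h3, h4⟩ := Finset.mem_filter.1 hl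
      exact ⟨h3.ne, hP.nn l h2, fun p hp h5 => by
        simpa [qv_eq (β := β) (c := c), dotProduct_add, h4] using (hp.2.2 h5).1 l h2⟩)
    fun p hp h2 => ⟨hp.1, hp.2.1, fun h3 => ⟨(hp.2.2 h3).1, Or.inl fun l h4 h5 =>
      ((hp.2.2 h3).1 l h4).lt_of_ne' fun h6 => by
        have h7 := h.gen l h4 h5 p h6
        simpa [qv_eq (β := β) (c := c), dotProduct_add, h7, h6] using
          h2 h3 l (Finset.mem_filter.2 ⟨h4, h5, h7⟩)⟩⟩
  have hU : ∀ v ∈ UU u a β (Ab' Φ β c ∅) (Bs' Φ β c ∅), ∀ w ∈ UU u a β (Ab' Φ β c ∅) (Bs' Φ β c ∅),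
      Commute v w := fun _ hv _ hw => PP_comm hv.1 hw.1
  let N := sat _ hU (sp k (Ab' Φ β c ∅)) fun _ hv => hv.2.1
  obtain ⟨M, hM0, hM⟩ := exists_den ((Φ ×ˢ Finset.univ).image fun x => x.1 ⬝ᵥ hv u x.2)
  have hM' : (0 : ℚ) < M := by exact_mod_cast hM0
  let K := Φ.filter fun l => l none < 0 ∧ 0 < l ⬝ᵥ (β - c)
  have key : ∀ n, ∀ p ∈ St (dl β c) c (PC Φ β c), ∑ l ∈ K, ⌈M * -(l ⬝ᵥ qv c p)⌉₊ = n →
      ee p ∈ N := by
    intro n
    induction n using Nat.strong_induction_on with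
    | _ n ih =>
    intro p hp hn
    by_cases h2 : p ∈ Ab' Φ β c ∅
    · exact ⟨1, one_mem _, ee_mem h2⟩
    obtain ⟨h3, -, h4, h5⟩ := St_sdiff.1 ⟨hp, h2⟩
    obtain ⟨l, h6, h7⟩ : ∃ l ∈ Φ, l ⬝ᵥ qv c p < 0 := by simpa using h5
    have h8 : 0 < l ⬝ᵥ (β - c) := by
      obtain ⟨s, h8, h9, h10⟩ := h4.1
      have := h10 l h6
      simp only [dotProduct_add, dotProduct_smul, smul_eq_mul] at this
      by_contra h
      nlinarith
    have h9 : l none < 0 := ((hP.ty l h6).resolve_left (by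
      rintro ⟨j, rfl⟩
      exact (ex_dot j _ ▸ h8).not_ge (h.zle j))).1
    have h10 := (h4.2 l h6 h9 h8).ne'
    rw [← qv_eq] at h10
    have h11 := sub_mem (Op_mem u a β l 0) ((PP u a β).algebraMap_mem ((l ⬝ᵥ qv β p : ℚ) : k))
    obtain ⟨v, h12, h13⟩ : (Op u a β l 0 - algebraMap k (Module.End k (Lm k σ))
        ((l ⬝ᵥ qv β p : ℚ) : k)) (ee p) ∈ N := by
      rw [LinearMap.sub_apply, Op_ee', Module.algebraMap_end_apply, add_sub_cancel_left]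
      refine sum_mem fun i _ => ?_
      by_cases h : l ⬝ᵥ hv u i = 0
      · simp [h]
      refine N.smul_mem _ (ih _ ?_ _ (hP.cC p hp _) rfl)
      rw [← hn]
      refine Finset.sum_lt_sum (fun l' hl' => Nat.ceil_mono ?_)
        ⟨l, Finset.mem_filter.2 ⟨h6, h9, h8⟩, ?_⟩ <;> rw [qv_sh, dotProduct_add]
      · nlinarith [hP.nn l' (Finset.mem_filter.1 hl').1 i]
      · obtain ⟨z, hz⟩ := hM _ (Finset.mem_image_of_mem _ (Finset.mk_mem_product h6 (Finset.mem_univ i)))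
        have h14 : (0 : ℚ) < z := hz ▸ mul_pos hM' ((hP.nn l h6 i).lt_of_ne' h)
        have h15 : (1 : ℚ) ≤ z := by exact_mod_cast (show (0 : ℤ) < z by exact_mod_cast h14)
        refine (Nat.ceil_mono (b := M * -(l ⬝ᵥ qv c p) - 1) (by simp only at hz; linarith)).trans_lt ?_
        have := Nat.ceil_pos.2 (mul_pos hM' (neg_pos.2 h7))
        rw [Nat.ceil_sub_one]
        omega
    refine ⟨_, mul_mem h12 ⟨h11, PP_stab (hA.op a β) h11, fun x hx h14 => ?_⟩, h13⟩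
    obtain ⟨r, hr⟩ := hnil l
    exact nil_cancel (JJ_stab hA hB (Op_mem u a β l 0)) (hr x hx) (Rat.cast_ne_zero.2 h10) h14
  have h2 : JJ' u a β (St (dl β c) c (PC Φ β c)) (St (dl β c) c (PB Φ β c)) ≤
      sat _ hU _ fun v hv => JJ_stab hA hB hv.1 :=
    sup_le (Im_le.2 fun l hl x hx => by
      obtain ⟨v, h2, h3⟩ := sp_le (fun p hp => key _ p hp rfl) hx
      refine ⟨v, h2, ?_⟩
      rw [← Module.End.mul_apply, (PP_comm h2.1 (w := Dl u a β l) (Op_mem u a β _ _)).eq]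
      exact Submodule.mem_sup_left (mem_Im hl h3))
      fun x hx => by
        obtain ⟨v, h2, h3⟩ := sp_le (fun p hp => key _ p hp rfl) (sp_mono (St_mono fun p hp =>
          ⟨hp.1, fun l h1 h2 h3 => hp.2 l h1 h2 h3.le⟩) hx)
        have h4 := Submodule.mem_inf.2 ⟨h3, PP_stab (hP.cB.op a β) h2.1 x hx⟩
        rw [sp_inf] at h4
        refine ⟨v, h2, Submodule.mem_sup_right (sp_mono (fun p hp => ?_) h4)⟩
        refine ⟨hp.1.1, hp.1.2.1, fun h5 =>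
          ⟨(hp.1.2.2 h5).1, Or.inl fun l h6 h7 => ((hp.1.2.2 h5).1 l h6).lt_of_ne' fun h8 => ?_⟩⟩
        have h9 := h.gen l h6 h7 p h8
        simpa [dotProduct_add, h8, h9] using (hp.2.2.2 h5).2 l h6 h7 h9.ge
  obtain ⟨v, h3, h4⟩ := h2 h1
  exact h3.2.2 _ (ee_mem (Ab'_anti (Finset.empty_subset _) h.zero_Ab)) h4

theorem Dt.step3 (h : Dt u Φ β c ω₀ S' S₁) (hN : ND2 u a)
    (h1 : ee 0 ∈ JJ' u a β (Ab' Φ β c ∅) (Bs' Φ β c ∅)) :
    ee 0 ∈ Im (fun l => LinearMap.mulLeft k (Fl u a l)) Finset.univ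
      (fun l => sp k (Ab' Φ β c (S'.erase l))) ⊔ sp k (Bs' Φ β c ∅) := by
  have hP := h.pol
  have hBA : ∀ S, Bs' Φ β c S ⊆ Ab' Φ β c ∅ := fun S => St_mono fun _ hp => ⟨hp.1, by simp⟩
  have hR : ∀ S ⊆ S', Reg (fun l => LinearMap.mulLeft k (Fl u a l)) Sᶜ (sp k (Ab' Φ β c ∅))
      (sp k (Bs' Φ β c S)) := fun S hS => (hP.dep_top hN S (fun _ => True)
        (q₀ := fun o => o.elim 0 fun j => if j ∈ S then 0 else 1) (fun j hj => if_pos hj)
        (fun j hj => by simp [hj]) (by simp) c).reg le_rfl (hP.cAb ∅) (hP.cBs S) (hBA S)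
        (Set.ext fun p => by
    rw [Ab', Bs', St_sdiff, Set.mem_ofPred_eq]
    refine and_congr_right fun _ => ⟨fun ⟨_, h2, h3⟩ => ⟨h2.1, ?_⟩, fun ⟨h2, h3, l, h4, h5, h6, _⟩ =>
      ⟨dl_le h.pos (Or.inr (hP.none_nonneg h2 h4 h5 h6)), ⟨h2, by simp⟩, ?_⟩⟩
    · simp only [not_and, not_or, not_forall, not_lt, not_exists, not_le] at h3
      obtain ⟨⟨l, h4, h5, h6⟩, h7⟩ := h3 h2.1
      refine ⟨fun j hj => ?_, l, h4, h5, le_antisymm h6 (h2.1 l h4), trivial⟩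
      have h8 := h7 j hj
      have h9 := ex_dot j _ ▸ h2.1 _ (hP.ex j)
      rw [qv, h.eq j (hS hj)] at h8 h9 ⊢
      norm_cast at h8 h9 ⊢
      omega
    · rintro ⟨-, h7 | ⟨j, h7, h8⟩⟩
      exacts [(h7 l h4 h5).ne' h6, by norm_num [h3 j h7] at h8]) St_deg
  have hW : Walls (fun l => LinearMap.mulLeft k (Fl u a l)) Finset.univ S'
      (fun T => sp k (Ab' Φ β c T)) fun S => sp k (Bs' Φ β c S) :=
    { comm := fun _ _ => LinearMap.ext fun _ => mul_left_comm _ _ _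
      le := fun T => sp_mono (Ab'_anti (Finset.empty_subset T))
      up := fun T _ l x hx => sp_map _ (fun p hp => by
        rw [LinearMap.mulLeft_apply, Fl_mul]
        refine sum_mem fun g _ => ?_
        by_cases hg : nn u g l = 0
        · simp [hg]
        have h2 := hP.cAb _ p hp g
        refine Submodule.smul_mem _ _ (ee_mem ⟨h2.1, h2.2.1, fun h3 => ⟨(h2.2.2 h3).1,
          (h2.2.2 h3).2.imp_right fun h4 j hj => ?_⟩⟩)
        by_cases h5 : j = l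
        · rcases g with j' | i
          · exact absurd h3 (ne_inl hp.1 j')
          have h6 := ex_dot l _ ▸ (hp.2.2 (by simpa [sh] using h3)).1 _ (hP.ex l)
          have h7 : (1 : ℚ) ≤ hv u i (some l) := by
            simpa [hv, hat] using Nat.one_le_iff_ne_zero.2 hg
          rw [qv_sh, h5, Pi.add_apply]
          linarith
        · exact h4 j (Finset.mem_erase.2 ⟨h5, hj⟩)) hx
      sB := fun S l => (hP.cBs S).fx a _ _
      mono := fun S j => sp_mono (St_mono fun _ hp => ⟨hp.1, hp.2.imp_right fun h =>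
        h.imp fun j h => ⟨Finset.mem_insert_of_mem h.1, h.2⟩⟩)
      wall := fun S j hj => sp_mono (St_mono fun _ hp => ⟨hp.1, hp.2.imp_right fun h =>
        ⟨j, hj, h j (by simp)⟩⟩)
      anti := fun _ _ h => sp_mono (Ab'_anti h)
      cut := fun S T j => by
        rw [sp_inf, ← sp_union]
        refine sp_mono fun p hp => or_iff_not_imp_right.2 fun h2 => ?_
        obtain ⟨h3, -, h4, h5⟩ := St_sdiff.1 ⟨hp.2, h2⟩
        refine ⟨hp.1.1, hp.1.2.1, fun _ => ⟨h4.1, (hp.1.2.2 h3).2.imp_right fun h6 =>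
          Finset.forall_mem_insert _ _ _ |>.2 ⟨?_, h6⟩⟩⟩
        obtain ⟨j', h7, h8⟩ := h4.2.resolve_left fun h => h5 ⟨h4.1, Or.inl h⟩
        exact (Finset.mem_insert.1 h7).resolve_right (fun h => h5 ⟨h4.1, Or.inr ⟨j', h, h8⟩⟩) ▸ h8
      reg := hR }
  refine hW.main _ ∅ (by simp) _ subset_rfl le_rfl _ (by simp) _
    (Submodule.mem_sup_left (ee_mem h.zero_Ab)) ((def_Dl (hP.cAb ∅) (hP.cBs ∅) (hBA ∅)).gr_mem ?_
      (e := 0) h1 (by simp [pi_ee]))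
  simpa using hR ∅ (Finset.empty_subset _)

variable (u ω₀ S') in
def Bl (l : σ) : Finset ι :=
  Finset.univ.filter fun i => ω₀ ⬝ᵥ hv u i = 0 ∧ ∀ j ∈ S', u i j = if j = l then 1 else 0

theorem Dt.nz (h : Dt u Φ β c ω₀ S' S₁) (hN : ND2 u a) {K : Type} [Field K] [Algebra k K]
    {z : σ → K} (hz : ∀ j, z j ≠ 0) (hz' : ∀ l ∈ S₁, ∑ i ∈ Bl u ω₀ S' l, a i • ∏ j, z j ^ u i j = 0) :
    ee 0 ∉ JJ' u a β (St (dl β c) c (PA Φ β c)) (St (dl β c) c (PB Φ β c)) := by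
  classical
  intro h0
  replace h0 := h.step3 hN (h.step2 (h.step1 hN h0))
  have hP := h.pol
  let Adm : Pt σ → Prop := fun p => p.2 = 0 ∧ p.1 none = 0 ∧ ω₀ ⬝ᵥ qv c p = 0 ∧
    ∀ j ∈ S', p.1 (some j) = 0
  let θ : Pt σ → K := fun p => if Adm p then ∏ j, z j ^ p.1 (some j) else 0
  have h3 : (lin' θ : Lm k σ →ₗ[k] K) (ee 0) = 0 := by
    refine (sup_le (c := LinearMap.ker (lin' θ)) (Im_le.2 fun l _ x hx => sp_map
      (N := ⊥) (lin' θ ∘ₗ LinearMap.mulLeft k (Fl u a l)) (fun p hp => ?_) hx) (sp_le fun p hp =>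
        (lin'_ee θ p).trans (if_neg fun h1 => hP.int h.val (hp.2.2 h1.1).1
          (by simpa using (hp.2.2 h1.1).2) h1.2.2.1))) h0
    simp only [LinearMap.comp_apply, LinearMap.mulLeft_apply, Fl_mul, map_sum, map_add, map_smul, lin'_ee,
      Submodule.mem_bot, Fintype.sum_sum_type]
    rw [Finset.sum_eq_zero fun j _ => by
      simp only [θ, Adm, ne_inl hp.1 j, false_and, if_false, smul_zero], zero_add]
    by_cases h4 : ∃ i, u i l ≠ 0 ∧ Adm (p + sh u (Sum.inr i))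
    swap
    · refine Finset.sum_eq_zero fun i _ => ?_
      by_cases h5 : u i l = 0
      · simp [nn, h5]
      · simp only [θ, if_neg fun h => h4 ⟨i, h5, h⟩, smul_zero]
    obtain ⟨i₀, h4, h5, h6, h7, h8⟩ := h4
    have h9 : p.2 = 0 := by simpa [sh] using h5
    obtain ⟨h10, h11⟩ := hp.2.2 h9
    have h12 : ω₀ ⬝ᵥ qv c p = 0 := by
      rw [qv_sh, dotProduct_add] at h7
      linarith [hP.nonneg h.val h10, h.val.2.2 i₀]
    replace h11 := h11.resolve_left fun h' => hP.int h.val h10 h' h12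
    have h13 : p.1 none = -1 := by simpa [sh, hat, add_eq_zero_iff_eq_neg] using h6
    have h14 : l ∈ S₁ := by_contra fun h' => h.lam l h' _ h10 h12 (by simp [qv, h13, sub_eq_add_neg])
      fun j h1 h2 => h11 j (Finset.mem_erase.2 ⟨h2, h1⟩)
    have h15 : ∀ j ∈ S', p.1 (some j) = if j = l then -1 else 0 := fun j hj => by
      have e1 := h8 j hj
      simp only [sh, hat, nn, Sum.elim_inr, Prod.fst_add, Pi.add_apply, Option.elim_some] at e1
      split_ifs with e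
      · have e2 := ex_dot j _ ▸ h10 _ (hP.ex j)
        rw [qv, h.eq j hj] at e2
        norm_cast at e2
        subst e
        omega
      · have e2 := h11 j (Finset.mem_erase.2 ⟨e, hj⟩)
        rw [qv, h.eq j hj] at e2
        norm_cast at e2
        omega
    rw [← smul_zero (∏ j, z j ^ p.1 (some j)), ← hz' l h14, Bl, Finset.sum_filter, Finset.smul_sum]
    refine Finset.sum_congr rfl fun i _ => ?_
    have : Adm (p + sh u (Sum.inr i)) ↔ ω₀ ⬝ᵥ hv u i = 0 ∧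
        ∀ j ∈ S', u i j = if j = l then 1 else 0 := by
      simp only [Adm, qv_sh, dotProduct_add, h12, zero_add]
      simp only [sh, hat, nn, Sum.elim_inr, Prod.fst_add, Pi.add_apply, Option.elim_some,
        Prod.snd_add, h9, add_zero, Option.elim_none, h13, true_and, Nat.cast_one, neg_add_cancel]
      refine and_congr_right fun _ => forall₂_congr fun j hj => ?_
      rw [h15 j hj]
      split_ifs <;> omega
    simp only [θ, this]
    split_ifs with h16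
    · simp only [ca, nn, Sum.elim_inr, h16.2 l (h.sub h14), if_true, Nat.cast_one, mul_one, sh,
        Prod.fst_add, Pi.add_apply, hat, Option.elim_some, zpow_add₀ (hz _), zpow_natCast,
        Finset.prod_mul_distrib, smul_eq_mul, mul_smul_comm]
    · simp
  rw [lin'_ee] at h3
  simp [θ, Adm, qv_zero, h.cω] at h3

theorem Dt.root {n : ℕ} {u : ι → Fin n → ℕ} {Φ : Finset (Option (Fin n) → ℚ)}
    {β c ω₀ : Option (Fin n) → ℚ} {S' S₁ : Finset (Fin n)} (h : Dt u Φ β c ω₀ S' S₁) (hN : ND2 u a)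
    {K : Type} [Field K] [Algebra k K] {z : Fin n → K} (hz : ∀ j, z j ≠ 0)
    (hz' : ∀ l ∈ S₁, ∑ i ∈ Bl u ω₀ S' l, a i • ∏ j, z j ^ u i j = 0) (hf : fpoly u a ≠ 0) {b : Polynomial k}
    (hb : LocalBernsteinEq (fpoly u a) b) : b.eval (-(β none : k)) = 0 := by
  classical
  have hP := h.pol
  have hpos : ∀ l ∈ Φ, ∀ m : Fin n → ℤ, 0 ≤ m → 0 ≤ ∑ j, l (some j) * m j := fun l hl m hm =>
    Finset.sum_nonneg fun j _ => mul_nonneg (by
      rcases hP.ty l hl with ⟨j', rfl⟩ | h'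
      exacts [by rw [RA.ex, Pi.single_apply]; positivity, (h'.2 j).le]) (by exact_mod_cast hm j)
  have hq : ∀ (l : Option (Fin n) → ℚ) (p : Pt (Fin n)), l ⬝ᵥ qv c p =
      l ⬝ᵥ c + (l none * p.1 none + ∑ j, l (some j) * p.1 (some j)) := fun l p => by
    simp only [dotProduct, qv, mul_add, Finset.sum_add_distrib, Fintype.sum_option]
  refine Setup.root (Zs := ∅) ⟨hP.cA, hP.cB, ?_, nil_of hP.cA hP.cB (fun p hp => hp.1)
    (Φ.filter fun l => l none < 0 ∧ 0 ≤ l ⬝ᵥ (β - c)) (fun l hl => ?_) fun p hp h1 =>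
      ⟨hp.1, hp.2.1, fun h2 => ⟨hp.2.2 h2, fun l h3 h4 h5 => qv_eq (β := β) (c := c) p ▸ h1 h2 l
        (Finset.mem_filter.2 ⟨h3, h4, h5⟩)⟩⟩, fun j _ => h.one j, h.pos,
    ⟨{p | 0 ≤ p.2 ∧ (p.2 = 0 → ∀ l ∈ Φ, l none < 0 → 0 ≤ l ⬝ᵥ (β - c) →
      0 < l ⬝ᵥ (qv c p + (β - c)))}, fun p hp i => ⟨closed_pos p hp.1 _, fun h1 l h2 h3 h4 =>
        qv_sh c p i ▸ hP.add_pos h2 i (hp.2 (by simpa [sh] using h1) l h2 h3 h4)⟩, fun p hp => hp.1,
      fun p hp hp' => ⟨hp'.1, hp'.2.1, fun h1 => ⟨hp'.2.2 h1, hp.2 h1⟩⟩, fun m => ⟨fun j => ?_,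
        fun h1 l h2 h3 h4 => ?_⟩⟩,
    St_mono (fun _ h => h.1) (Ab'_sub (Ab'_anti (Finset.empty_subset _) h.zero_Ab)),
    fun m h1 h2 => ⟨le_rfl, dl_le h.pos (Or.inl (by simpa [xm] using h.pos.le)), fun _ =>
      ⟨⟨0, le_rfl, zero_le_one, fun l hl => ?_⟩, fun l h3 h4 h5 => ?_⟩⟩, h.nz hN hz hz'⟩ hf hb
  · rintro p hp ⟨κ, h1, h2⟩
    have h3 : qv β p = ∑ i, κ i • hv u i := funext fun o => by simp [h2, hv]
    refine ⟨hp, dl_le h.pos (Or.inl ?_), fun _ => ⟨1, zero_le_one, le_rfl, fun l hl => ?_⟩⟩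
    · exact (Finset.sum_nonneg fun i _ => mul_nonneg (h1 i) (Nat.cast_nonneg _)).trans (h2 none).ge
    · rw [one_smul, ← qv_eq, h3, dotProduct_sum]
      exact Finset.sum_nonneg fun i _ => by simpa using mul_nonneg (h1 i) (hP.nn l hl i)
  · obtain ⟨h1, h2, h3⟩ := Finset.mem_filter.1 hl
    exact ⟨h2.ne, hP.nn l h1, fun p hp h4 => qv_eq (β := β) (c := c) p ▸ (hp.2.2 h4).nonneg h1 h3⟩
  · simp only [pt, xm, Prod.snd_add, add_zero, Pi.zero_apply]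
    positivity
  · have := hpos l h2 m fun j => by simpa [pt, xm] using congrFun h1 j
    have h5 := h.cK l h2
    rw [dotProduct_add, hq]
    simp only [pt, xm, Prod.fst_add, Pi.add_apply, Option.elim_none, Option.elim_some, Pi.zero_apply,
      add_zero, zero_add, Int.cast_neg, Int.cast_one]
    linarith
  · have := hpos l hl m h1
    rw [zero_smul, add_zero, hq]
    simpa [xm] using add_nonneg (h.cK l hl) this
  · obtain ⟨j, hj⟩ := Function.ne_iff.1 h2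
    have h6 := (hP.ty l h3).resolve_left (by rintro ⟨j, rfl⟩; simp [RA.ex] at h4)
    have : 0 < ∑ j, l (some j) * m j := Finset.sum_pos' (fun j _ => mul_nonneg (h6.2 j).le
      (by exact_mod_cast h1 j)) ⟨j, Finset.mem_univ _, mul_pos (h6.2 j)
        (by exact_mod_cast (h1 j).lt_of_ne' hj)⟩
    have h7 := h.cK l h3
    rw [dotProduct_add, hq]
    simp only [xm, Option.elim_none, Option.elim_some, Int.cast_zero]
    linarith

end RA

end

end Pool.Agent.P.MP_b91a16_ag
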