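import Pool.Agent.P.MP_b91a16_ag.CvLab

/-! Generating series of functions of the slack vector, and telescoping along linear variables. -/

set_option linter.unusedSectionVars false

namespace Pool.Agent.P.MP_b91a16_ag

noncomputable section

namespace RA

open Cv

variable {σ ι : Type} [Fintype σ] [DecidableEq σ] [Fintype ι] [DecidableEq ι]
variable {u : ι → σ → ℕ} {x : ℝ} {θ : Finset ι → ℝ} {z z' : σ ⊕ ι → ℤ} {ψ : (σ ⊕ ι → ℤ) → ℝ}
  {W : Finset ι} {S T : Finset σ} {α : Type} [DecidableEq α] {β : α → σ ⊕ ι → ℤ} {A : Finset α}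

def Tz (z : σ ⊕ ι → ℤ) : Finset ι := Finset.univ.filter fun i => z (Sum.inr i) = 0

theorem mem_Tz {i : ι} : i ∈ Tz z ↔ z (Sum.inr i) = 0 := by simp [Tz]

def ps (θ : Finset ι → ℝ) (z : σ ⊕ ι → ℤ) : ℝ := if ∀ g, 0 ≤ z g then θ (Tz z) else 0

theorem ps_zz (w : σ → ℕ) (N : ℕ) : ps θ (zz u w N) = th2 u θ N w := by
  refine if_congr (by simp [zz]) (congrArg _ ?_) rfl
  ext i
  simp [Tz, zz, II, sub_eq_zero]

theorem ps_congr (h : ∀ g, z g = z' g ∨ 0 < z g ∧ 0 < z' g) : ps θ z = ps θ z' := by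
  refine if_congr (forall_congr' fun g => by have := h g; omega) (congrArg _ ?_) rfl
  ext i
  have := h (Sum.inr i)
  simp only [mem_Tz]
  omega

variable (u x) in
def SF (ψ : (σ ⊕ ι → ℤ) → ℝ) : PowerSeries ℝ :=
  PowerSeries.mk fun N => ∑' w : σ → ℕ, x ^ (∑ j, w j) * ψ (zz u w N)

def Bd (ψ : (σ ⊕ ι → ℤ) → ℝ) : Prop := (∃ M, ∀ z, |ψ z| ≤ M) ∧ ∀ z, ψ z ≠ 0 → ∀ g, 0 ≤ z g

theorem bd_ps : Bd (ps θ : (σ ⊕ ι → ℤ) → ℝ) := by
  refine ⟨⟨∑ I, |θ I|, fun z => ?_⟩, fun z h => by_contra fun h' => h (if_neg h')⟩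
  unfold ps
  split_ifs
  · exact Finset.single_le_sum (f := fun I => |θ I|) (fun _ _ => abs_nonneg _) (Finset.mem_univ _)
  · simpa using Finset.sum_nonneg fun _ _ => abs_nonneg _

theorem Bd.hasSum (h : Bd ψ) (h0 : 0 ≤ x) (h1 : x < 1) (γ : σ ⊕ ι → ℤ) (N : ℕ) :
    HasSum (fun w : σ → ℕ => x ^ (∑ j, w j) * ψ (zz u w N - γ))
      (PowerSeries.coeff N (SF u x fun z => ψ (z - γ))) := by
  obtain ⟨⟨M, h⟩, -⟩ := h
  rw [SF, PowerSeries.coeff_mk]
  refine (Summable.of_norm_bounded ((summable_pow_sum h0 h1).mul_right M) fun w => ?_).hasSum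
  rw [Real.norm_eq_abs, abs_mul, abs_of_nonneg (pow_nonneg h0 _)]
  exact mul_le_mul_of_nonneg_left (h _) (pow_nonneg h0 _)

theorem Bd.shift (h : Bd ψ) (w' : σ → ℕ) (N' : ℕ) : (SF u x fun z => ψ (z - zl u w' N')) -
    PowerSeries.C (x ^ ∑ j, w' j) * PowerSeries.X ^ N' * SF u x ψ ∈ PolyS := by
  refine mem_PolyS_iff.2 ⟨N', fun N hN => ?_⟩
  obtain ⟨N, rfl⟩ := Nat.exists_eq_add_of_le' hN
  rw [map_sub, mul_assoc, PowerSeries.coeff_C_mul, PowerSeries.coeff_X_pow_mul, SF, SF,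
    PowerSeries.coeff_mk, PowerSeries.coeff_mk, sub_eq_zero, ← tsum_mul_left,
    ← (add_left_injective w').tsum_eq]
  · refine tsum_congr fun w => ?_
    rw [show zz u (w + w') (N + N') - zl u w' N' = zz u w N from funext fun g => by simp [zz_add]]
    simp only [Pi.add_apply, Finset.sum_add_distrib, pow_add]
    ring
  · intro w hw
    refine ⟨w - w', funext fun j => ?_⟩
    have h1 := h.2 _ (right_ne_zero_of_mul hw) (Sum.inl j)
    simp only [zz, zl, Sum.elim_inl, Pi.sub_apply] at h1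
    simp only [Pi.add_apply, Pi.sub_apply]
    omega

def QQ (β : α → σ ⊕ ι → ℤ) (A : Finset α) (ψ : (σ ⊕ ι → ℤ) → ℝ) (z : σ ⊕ ι → ℤ) : ℝ :=
  ∑ T ∈ A.powerset, (-1) ^ T.card * ψ (z - ∑ Y ∈ T, β Y)

theorem QQ_insert {Y : α} (h : Y ∉ A) :
    QQ β (insert Y A) ψ z = QQ β A ψ z - QQ β A ψ (z - β Y) := by
  rw [QQ, Finset.sum_powerset_insert h, QQ, QQ, sub_eq_add_neg (∑ _ ∈ _, _), ← Finset.sum_neg_distrib,
    add_right_inj]
  exact Finset.sum_congr rfl fun T hT => by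
    have := mt (fun h' => Finset.mem_powerset.1 hT h') h
    rw [Finset.card_insert_of_notMem this, Finset.sum_insert this, sub_sub]
    ring

theorem Bd.qq (h : Bd ψ) (hβ : ∀ Y ∈ A, ∀ g, 0 ≤ β Y g) : Bd (QQ β A ψ) := by
  obtain ⟨⟨M, h1⟩, h2⟩ := h
  refine ⟨⟨∑ T ∈ A.powerset, M, fun z => (Finset.abs_sum_le_sum_abs _ _).trans
    (Finset.sum_le_sum fun T _ => by simpa [abs_mul] using h1 _)⟩, fun z h g => ?_⟩
  obtain ⟨T, h3, h4⟩ := Finset.exists_ne_zero_of_sum_ne_zero h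
  have := h2 _ (right_ne_zero_of_mul h4) g
  rw [Pi.sub_apply, Finset.sum_apply, sub_nonneg] at this
  exact (Finset.sum_nonneg fun Y hY => hβ Y (Finset.mem_powerset.1 h3 hY) g).trans this

theorem Bd.mem_RR {Al : ℕ × ℕ → Prop} {m : Ideal (Polynomial ℝ)} [m.IsPrime] (h : Bd ψ)
    (h0 : 0 ≤ x) (h1 : x < 1) (hβ : ∀ Y ∈ A, (∀ g, 0 ≤ β Y g) ∧ ∃ w N, β Y = zl u w N ∧
      (fac x (∑ j, w j, N) ∉ m ∨ Al (∑ j, w j, N))) (hQ : SF u x (QQ β A ψ) ∈ RR x Al m) :
    SF u x ψ ∈ RR x Al m := by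
  induction A using Finset.induction_on with
  | empty => simpa [show QQ β ∅ ψ = ψ from funext fun z => by simp [QQ]] using hQ
  | insert Y A hY ih =>
    have h2 := fun Y hY => hβ Y (Finset.mem_insert_of_mem hY)
    have h3 := h.qq fun Y hY => (h2 Y hY).1
    obtain ⟨-, w, N, h4, h5⟩ := hβ Y (Finset.mem_insert_self _ _)
    refine ih h2 (mem_RR_of_fac h5 ?_)
    convert add_mem hQ (mem_RR_of_PolyS (h3.shift (u := u) (x := x) w N)) using 1
    have : SF u x (QQ β (insert Y A) ψ) = SF u x (QQ β A ψ) -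
        SF u x fun z => QQ β A ψ (z - zl u w N) := by
      ext n
      have := (h3.hasSum (u := u) h0 h1 0 n).sub (h3.hasSum (u := u) h0 h1 (zl u w N) n)
      simp only [sub_zero, ← mul_sub, ← h4, ← QQ_insert hY] at this
      rw [map_sub, ← h4, ← this.tsum_eq, SF, PowerSeries.coeff_mk]
    simp only [this, fac, Polynomial.coe_sub, Polynomial.coe_one, Polynomial.coe_mul,
      Polynomial.coe_C, Polynomial.coe_pow, Polynomial.coe_X]
    ring

theorem QQ_eq_zero {b : ℤ} {Y : α} (hY : Y ∈ A) (hβ : ∀ T ⊆ A, ∀ g, ∑ Y ∈ T, β Y g ≤ b)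
    (h : ∀ g, z g ≤ b → β Y g = 0) : QQ β A (ps θ) z = 0 := by
  rw [← Finset.insert_erase hY, QQ_insert (Finset.notMem_erase _ _), sub_eq_zero]
  refine Finset.sum_congr rfl fun T hT => congrArg _ (ps_congr fun g => ?_)
  have h1 := Finset.mem_powerset.1 hT
  have h2 := hβ _ (h1.trans (Finset.erase_subset _ _)) g
  have h3 := hβ _ (Finset.insert_subset hY (h1.trans (Finset.erase_subset _ _))) g
  rw [Finset.sum_insert fun h => Finset.notMem_erase _ _ (h1 h)] at h3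
  have := h g
  simp only [Pi.sub_apply, Finset.sum_apply]
  omega

variable (u) in
def PS (r : ℝ) (θ : Finset ι → ℝ) (S : Finset σ) (I : Finset ι) : ℝ :=
  if S ⊆ supp u I then ES u r θ S I else 0

variable (u) in
def Loc (W : Finset ι) (z : σ ⊕ ι → ℤ) : Prop :=
  ∀ g, (∀ i ∈ W, g ≠ Sum.inr i) → 0 < z g ∧ ∀ l, zl u (Pi.single l 1) 0 g ≤ z g

theorem Loc.sub (h : Loc u W z) : Tz z ⊆ W := fun i hi => by_contra fun h' =>
  (h (Sum.inr i) fun _ h e => h' (Sum.inr.inj e ▸ h)).1.ne' (mem_Tz.1 hi)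

theorem ps_step (hx : 1 - x ≠ 0) (hL : Loc u W z) (hP : PL u W T T) {l : σ} (h1 : insert l S ⊆ T)
    (h2 : l ∉ S) : ps (PS u (x / (1 - x)) θ S) z = (1 - x)⁻¹ *
      (ps (fun I => PS u (x / (1 - x)) θ S (Nc u I {l})) (z - zl u (Pi.single l 1) 0) -
        x * ps (fun I => PS u (x / (1 - x)) θ S (Nc u I {l})) z) +
      ps (PS u (x / (1 - x)) θ (insert l S)) z := by
  have h3 := zl_single_nonneg u l
  by_cases h4 : ∀ g, 0 ≤ z g
  swap
  · simp only [ps, if_neg h4, if_neg fun h : ∀ g, 0 ≤ (z - zl u (Pi.single l 1) 0) g =>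
      h4 fun g => (h3 g).trans (sub_nonneg.1 (h g))]
    simp
  simp only [ps, if_pos h4]
  by_cases h5 : l ∈ supp u (Tz z)
  · obtain ⟨i, h6, h7⟩ := (mem_supp u).1 h5
    rw [if_neg fun h => h7 (by simpa [zl_single_inr, mem_Tz.1 h6] using h (Sum.inr i))]
    have : S ⊆ supp u (Nc u (Tz z) {l}) ↔ S ⊆ supp u (Tz z) := ⟨fun h => h.trans supp_Nc,
      (hP.mono hL.sub subset_rfl subset_rfl).subset_supp ((Finset.subset_insert _ _).trans h1)
        (by simpa using h1 (Finset.mem_insert_self _ _)) (by simpa using h2)⟩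
    simp only [PS, this, Finset.insert_subset_iff, h5, true_and, ES_insert h2]
    split_ifs
    · field_simp
      ring
    · simp
  · have h6 : ∀ g, 0 ≤ (z - zl u (Pi.single l 1) 0) g := fun g => sub_nonneg.2 (by
      by_cases h : ∀ i ∈ W, g ≠ Sum.inr i
      · exact (hL g h).2 l
      push Not at h
      obtain ⟨i, h, rfl⟩ := h
      rw [zl_single_inr]
      by_cases h' : u i l = 0
      · simpa [h'] using h4 _
      · have := h1 (Finset.mem_insert_self _ _)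
        have := (h4 _).lt_of_ne' fun h => h5 ((mem_supp u).2 ⟨i, mem_Tz.2 h, h'⟩)
        rw [(hP i h l ‹_› l ‹_› h' h').2]
        omega)
    have h7 : Nc u (Tz (z - zl u (Pi.single l 1) 0)) {l} = Nc u (Tz z) {l} := by
      ext i
      simp only [mem_Nc, mem_Tz, Finset.mem_singleton, forall_eq, Pi.sub_apply, zl_single_inr]
      exact and_congr_left fun h => by simp [h]
    rw [if_pos h6, h7, Nc_eq (by simpa using h5), PS.eq_1 _ _ _ (insert l S),
      if_neg fun h => h5 (h (Finset.mem_insert_self _ _))]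
    field_simp
    ring

theorem class_sum (hx : 1 - x ≠ 0) (hθ : ∀ I, Rel u (x / (1 - x)) θ I)
    (hβ : ∀ Y ∈ A, ∀ g, 0 ≤ β Y g) (hD : Df u W S) (C : Finset (σ → ℕ)) (N : ℕ)
    (hL : ∀ w ∈ C, ∀ T ⊆ A, Loc u W (zz u w N - ∑ Y ∈ T, β Y))
    (hC : ∀ l ∈ S, ∀ η w, QQ β A (ps η) (zz u w N) ≠ 0 → (w ∈ C ↔ w + Pi.single l 1 ∈ C)) :
    ∑ w ∈ C, x ^ (∑ j, w j) * QQ β A (ps θ) (zz u w N) = 0 := by
  have key : ∀ S' ⊆ S, ∑ w ∈ C, x ^ (∑ j, w j) * QQ β A (ps θ) (zz u w N) =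
      ∑ w ∈ C, x ^ (∑ j, w j) * QQ β A (ps (PS u (x / (1 - x)) θ S')) (zz u w N) := by
    intro S' hS'
    induction S' using Finset.induction_on with
    | empty => rw [show PS u (x / (1 - x)) θ ∅ = θ from funext fun I => by simp [PS, ES, Nc_empty]]
    | insert l S' hl ih =>
      rw [ih ((Finset.subset_insert _ _).trans hS')]
      set η := fun I => PS u (x / (1 - x)) θ S' (Nc u I {l})
      have h1 : ∑ w ∈ C, x ^ (∑ j, w j) * QQ β A (ps η) (zz u w N - zl u (Pi.single l 1) 0) =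
          ∑ w ∈ C, x ^ (∑ j, w j) * (x * QQ β A (ps η) (zz u w N)) := by
        have e : ∀ w, zz u (w + Pi.single l 1) N - zl u (Pi.single l 1) 0 = zz u w N := fun w =>
          funext fun g => by simpa [sub_eq_iff_eq_add] using zz_add u w (Pi.single l 1) N 0 g
        have h1 := hC l (hS' (Finset.mem_insert_self _ _)) η
        rw [Finset.sum_congr_of_eq_on_inter (s₂ := C.image (· + Pi.single l 1))
          (fun w h2 h3 => by_contra fun h4 => ?_) (fun w h2 h3 => by_contra fun h4 => ?_)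
          fun _ _ _ => rfl, Finset.sum_image (add_left_injective _).injOn]
        · refine Finset.sum_congr rfl fun w _ => ?_
          simp [e, Finset.sum_add_distrib, pow_succ, mul_assoc]
        · have h5 := (bd_ps.qq hβ).2 _ (right_ne_zero_of_mul h4) (Sum.inl l)
          obtain ⟨w, rfl⟩ : ∃ w', w = w' + Pi.single l 1 := ⟨w - Pi.single l 1, funext fun j => by
            simp only [Pi.sub_apply, zl_single_inl, if_true, zz, Sum.elim_inl] at h5
            by_cases e : j = l <;> simp [e]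
            omega⟩
          exact h3 (Finset.mem_image_of_mem _ ((h1 w (e w ▸ right_ne_zero_of_mul h4)).2 h2))
        · obtain ⟨w, h5, rfl⟩ := Finset.mem_image.1 h2
          exact h3 ((h1 w (e w ▸ right_ne_zero_of_mul h4)).1 h5)
      rw [← add_zero (∑ w ∈ C, _ * QQ β A (ps (PS u _ θ (insert l S'))) _), ← mul_zero (1 - x)⁻¹,
        ← sub_eq_zero.2 h1, ← Finset.sum_sub_distrib, Finset.mul_sum, ← Finset.sum_add_distrib]
      refine Finset.sum_congr rfl fun w hw => ?_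
      simp only [QQ, Finset.mul_sum, ← Finset.sum_sub_distrib, ← Finset.sum_add_distrib]
      refine Finset.sum_congr rfl fun T hT => ?_
      rw [ps_step hx (hL w hw T (Finset.mem_powerset.1 hT)) hD.2.1 hS' hl, sub_right_comm]
      ring
  rw [key S subset_rfl]
  refine Finset.sum_eq_zero fun w hw => mul_eq_zero_of_right _ (Finset.sum_eq_zero fun T hT =>
    mul_eq_zero_of_right _ (ite_eq_right_iff.2 fun _ => ite_eq_right_iff.2 fun h => ?_))
  have := (hL w hw T (Finset.mem_powerset.1 hT)).sub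
  exact hθ _ S (hD.2.1.mono this subset_rfl subset_rfl) (by
    rw [Finset.inter_eq_left.2 h]
    exact (rk_mono _ (Nb_mono this subset_rfl)).trans_lt hD.2.2)

end RA

end

end Pool.Agent.P.MP_b91a16_ag
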