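import Pool.Agent.P.MP_b91a16_ag.CvDepth

/-! Line shellings of cones and the depth of conic modules. -/

set_option linter.unusedSectionVars false

open Filter

namespace Pool.Agent.P.MP_b91a16_ag

noncomputable section

namespace RA

open Cv

variable {k σ ι : Type} [Field k] [CharZero k] [Fintype σ] [DecidableEq σ] [Fintype ι]
  [DecidableEq ι]
variable (u : ι → σ → ℕ) (a : ι → k) (Φ : Finset (Option σ → ℚ))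

def ex (j : σ) : Option σ → ℚ := Pi.single (some j) 1

theorem ex_dot (j : σ) (y : Option σ → ℚ) : ex j ⬝ᵥ y = y (some j) := by simp [ex]

structure Pol : Prop where
  nn : ∀ l ∈ Φ, ∀ i, 0 ≤ l ⬝ᵥ hv u i
  ex : ∀ j, ex j ∈ Φ
  ty : ∀ l ∈ Φ, (∃ j, l = RA.ex j) ∨ (l none < 0 ∧ ∀ j, 0 < l (some j))
  gen : ∀ y : Option σ → ℚ, (∀ l ∈ Φ, 0 ≤ l ⬝ᵥ y) → ∃ (κ : ι → ℚ) (ν : Option σ → ℚ),
    (∀ i, 0 ≤ κ i) ∧ ν none ≤ 0 ∧ (∀ j, 0 ≤ ν (some j)) ∧ y = ∑ i, κ i • hv u i + ν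

def Kc (Ψ : Finset (Option σ → ℚ)) : Set (Option σ → ℚ) :=
  {y | (∀ l ∈ Φ, 0 ≤ l ⬝ᵥ y) ∧ ∀ l ∈ Ψ, l ⬝ᵥ y = 0}

def Mc (Ψ : Finset (Option σ → ℚ)) (c : Option σ → ℚ) : Set (Pt σ) :=
  {p | p.2 = 0 ∧ qv c p ∈ Kc Φ Ψ}

def It (Ψ : Finset (Option σ → ℚ)) : Finset ι := Finset.univ.filter fun i => ∀ l ∈ Ψ, l ⬝ᵥ hv u i = 0

def Sp (Ψ : Finset (Option σ → ℚ)) : Submodule ℚ (Option σ → ℚ) :=
  Submodule.span ℚ (hv u '' It u Ψ)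

variable {u a Φ} {Ψ : Finset (Option σ → ℚ)} {J : Finset σ} {d : ℕ}

theorem Dep.congr {D D' : Set (Pt σ)} (h : Dep u a J D d) (e : ∀ p, p ∈ D' ↔ p ∈ D) :
    Dep u a J D' d := (Set.ext e : D' = D) ▸ h

theorem mem_It {i : ι} : i ∈ It u Ψ ↔ ∀ l ∈ Ψ, l ⬝ᵥ hv u i = 0 := by simp [It]

theorem dot_span {l : Option σ → ℚ} {s : Set (Option σ → ℚ)} (h : ∀ y ∈ s, l ⬝ᵥ y = 0) :
    ∀ y ∈ Submodule.span ℚ s, l ⬝ᵥ y = 0 := fun y hy => by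
  induction hy using Submodule.span_induction with
  | mem y hy => exact h y hy
  | zero => simp
  | add y z _ _ h1 h2 => simp [h1, h2]
  | smul c y _ h1 => simp [h1]

theorem Val.cone {ω : Option σ → ℚ} (hω : Val u ω) {κ : ι → ℚ} {ν : Option σ → ℚ}
    (h1 : ∀ i, 0 ≤ κ i) (h2 : ν none ≤ 0) (h3 : ∀ j, 0 ≤ ν (some j)) :
    0 ≤ ω ⬝ᵥ (∑ i, κ i • hv u i + ν) ∧ (ω ⬝ᵥ (∑ i, κ i • hv u i + ν) = 0 →
      ν = 0 ∧ ∀ i, κ i ≠ 0 → ω ⬝ᵥ hv u i = 0) := by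
  have h4 : ∀ i ∈ Finset.univ, 0 ≤ κ i * (ω ⬝ᵥ hv u i) := fun i _ => mul_nonneg (h1 i) (hω.2.2 i)
  have h5 : ∀ o ∈ Finset.univ, 0 ≤ ω o * ν o := by
    rintro (_ | j) -
    exacts [mul_nonneg_of_nonpos_of_nonpos hω.1.le h2, mul_nonneg (hω.2.1 j).le (h3 j)]
  have h6 := Finset.sum_nonneg h4
  have h7 := Finset.sum_nonneg h5
  simp only [dotProduct_add, dotProduct_sum, dotProduct_smul, smul_eq_mul]
  refine ⟨add_nonneg h6 h7, fun h => ⟨funext fun o => ?_, fun i hi => ?_⟩⟩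
  · refine (mul_eq_zero.1 ((Finset.sum_eq_zero_iff_of_nonneg h5).1
      (le_antisymm (by rw [← dotProduct]; linarith) h7) o (Finset.mem_univ o))).resolve_left ?_
    rcases o with _ | j
    exacts [hω.1.ne, (hω.2.1 j).ne']
  · refine (mul_eq_zero.1 ((Finset.sum_eq_zero_iff_of_nonneg h4).1
      (le_antisymm ?_ h6) i (Finset.mem_univ i))).resolve_left hi
    rw [dotProduct.eq_1 ω ν] at h
    linarith

theorem Pol.face (hP : Pol u Φ) (h1 : Ψ ⊆ Φ) (h2 : ∃ l ∈ Ψ, l none < 0) :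
    Val u (∑ l ∈ Ψ, l) ∧ ∀ i, i ∈ It u Ψ ↔ (∑ l ∈ Ψ, l) ⬝ᵥ hv u i = 0 := by
  obtain ⟨l₀, h2, h3⟩ := h2
  have h4 := (hP.ty l₀ (h1 h2)).resolve_left (by rintro ⟨j, rfl⟩; simp [RA.ex] at h3)
  refine ⟨⟨?_, fun j => ?_, fun i => ?_⟩, fun i => ?_⟩
  · rw [Finset.sum_apply]
    refine Finset.sum_neg' (fun l hl => ?_) ⟨l₀, h2, h3⟩
    rcases hP.ty l (h1 hl) with ⟨j, rfl⟩ | h
    exacts [by simp [RA.ex], h.1.le]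
  · rw [Finset.sum_apply]
    refine Finset.sum_pos' (fun l hl => ?_) ⟨l₀, h2, h4.2 j⟩
    rcases hP.ty l (h1 hl) with ⟨j, rfl⟩ | h
    exacts [by rw [RA.ex, Pi.single_apply]; positivity, (h.2 j).le]
  · rw [sum_dotProduct]
    exact Finset.sum_nonneg fun l hl => hP.nn l (h1 hl) i
  · rw [sum_dotProduct, Finset.sum_eq_zero_iff_of_nonneg fun l hl => hP.nn l (h1 hl) i, mem_It]

theorem Pol.le_sp (hP : Pol u Φ) (h1 : Ψ ⊆ Φ) (h2 : ∃ l ∈ Ψ, l none < 0) :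
    ∀ y ∈ Kc Φ Ψ, y ∈ Sp u Ψ := by
  intro y hy
  obtain ⟨h3, h4⟩ := hP.face h1 h2
  obtain ⟨κ, ν, h5, h6, h7, rfl⟩ := hP.gen y hy.1
  obtain ⟨rfl, h8⟩ := (h3.cone h5 h6 h7).2 (by
    rw [sum_dotProduct]
    exact Finset.sum_eq_zero hy.2)
  rw [add_zero]
  refine sum_mem fun i _ => ?_
  by_cases h : κ i = 0
  · simp [h]
  · exact Submodule.smul_mem _ _ (Submodule.subset_span ⟨i, (h4 i).2 (h8 i h), rfl⟩)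

theorem qv_shift (c v : Option σ → ℚ) (p : Pt σ) : qv (c + v) p = qv c p + v :=
  funext fun o => by simp [qv, add_right_comm]

theorem dead {p : Pt σ} (hp : p.2 = 0) {g : σ ⊕ ι} (h : (p + sh u g).2 = 0) :
    ∃ i, g = Sum.inr i := by
  rcases g with j | i
  · simpa [hp, sh] using congrFun h j
  · exact ⟨i, rfl⟩

theorem exists_eps (Φ : Finset (Option σ → ℚ)) (c v : Option σ → ℚ) : ∃ ε : ℚ, 0 < ε ∧
    ∀ l ∈ Φ, ∀ p : Pt σ, l ⬝ᵥ qv c p ≠ 0 → ε * |l ⬝ᵥ v| < |l ⬝ᵥ qv c p| := by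
  obtain ⟨D, hD, h⟩ := disc Φ c
  have hD' : (0 : ℚ) < D := by exact_mod_cast hD
  obtain ⟨n, hn⟩ := ((eventually_all_finset Φ).2 fun l _ =>
    ev_small (1 / D) (-|l ⬝ᵥ v|) (by positivity)).exists
  refine ⟨1 / (n + 1), by positivity, fun l hl p hp => ?_⟩
  obtain ⟨z, hz⟩ := h l hl p.1
  change _ = _ * (l ⬝ᵥ qv c p) at hz
  have h1 : z ≠ 0 := by
    rintro rfl
    exact mul_ne_zero hD'.ne' hp (by simpa using hz.symm)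
  have h2 : (1 : ℚ) ≤ |(z : ℚ)| := by exact_mod_cast Int.one_le_abs h1
  rw [hz, abs_mul, abs_of_pos hD', ← div_le_iff₀' hD'] at h2
  linarith [hn l hl]

theorem Pol.shell (hP : Pol u Φ) (hΨ : Ψ ⊆ Φ) {p₀ q : Option σ → ℚ} (Q : (Option σ → ℚ) → Prop)
    (h0 : ∀ l ∈ Φ, 0 ≤ l ⬝ᵥ p₀) (h1 : ∀ l ∈ Ψ, l ⬝ᵥ p₀ = 0 ∧ l ⬝ᵥ q = 0)
    (h2 : ∀ l ∈ Φ, l ⬝ᵥ p₀ = 0 → 0 ≤ l ⬝ᵥ q)
    (hQ : ∀ l ∈ Φ, ∀ l' ∈ Φ, 0 < l ⬝ᵥ p₀ → 0 < l' ⬝ᵥ p₀ → Q l →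
      l' ⬝ᵥ q / l' ⬝ᵥ p₀ ≤ l ⬝ᵥ q / l ⬝ᵥ p₀ → Q l')
    (g1 : ∀ l ∈ Φ, ∀ l' ∈ Φ, 0 < l ⬝ᵥ p₀ → 0 < l' ⬝ᵥ p₀ → l' ⬝ᵥ q / l' ⬝ᵥ p₀ = l ⬝ᵥ q / l ⬝ᵥ p₀ →
      ∀ y ∈ Kc Φ Ψ, l ⬝ᵥ y = 0 → l' ⬝ᵥ y = 0)
    (hc : ∀ Ψ' ⊆ Φ, Ψ ⊆ Ψ' → (∃ l ∈ Ψ', 0 < l ⬝ᵥ p₀) → ∃ l ∈ Ψ', l none < 0)
    (g2 : ∀ Ψ' ⊆ Φ, Ψ ⊆ Ψ' → (∃ l ∈ Ψ', l none < 0) → ∀ r : ℚ, q - r • p₀ ∈ Sp u Ψ' → ∀ c,
      Dep u a J (Mc Φ Ψ' c) d) (c : Option σ → ℚ) :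
    Dep u a J {p | p ∈ Mc Φ Ψ c ∧ ∃ l ∈ Φ, 0 < l ⬝ᵥ p₀ ∧ l ⬝ᵥ qv c p = 0 ∧ Q l} d := by
  classical
  let V := (Φ.filter fun l => 0 < l ⬝ᵥ p₀ ∧ Q l).image fun l => l ⬝ᵥ q / l ⬝ᵥ p₀
  have hV : ∀ v, v ∈ V ↔ ∃ l ∈ Φ, 0 < l ⬝ᵥ p₀ ∧ Q l ∧ l ⬝ᵥ q / l ⬝ᵥ p₀ = v := by
    simp [V, and_assoc]
  refine Dep.congr (dep_biUnion V (fun v => {p | p ∈ Mc Φ Ψ c ∧ ∃ l ∈ Φ, 0 < l ⬝ᵥ p₀ ∧
    l ⬝ᵥ qv c p = 0 ∧ l ⬝ᵥ q / l ⬝ᵥ p₀ = v}) ?_ ?_) fun p => ?_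
  rotate_right
  · constructor
    · rintro ⟨h3, l, h4, h5, h6, h7⟩
      exact ⟨_, (hV _).2 ⟨l, h4, h5, h7, rfl⟩, h3, l, h4, h5, h6, rfl⟩
    · rintro ⟨v, h3, h4, l, h5, h6, h7, h8⟩
      obtain ⟨l', h9, h10, h11, h12⟩ := (hV v).1 h3
      exact ⟨h4, l, h5, h6, h7, hQ l' h9 l h5 h10 h6 h11 (h8.trans h12.symm).le⟩
  · rintro v - v' - p ⟨h3, -⟩ g ⟨h4, l, h5, h6, h7, h8⟩
    obtain ⟨i, rfl⟩ := dead h3.1 h4.1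
    refine ⟨h3, l, h5, h6, ?_, h8⟩
    rw [qv_sh, dotProduct_add] at h7
    linarith [h3.2.1 l h5, hP.nn l h5 i]
  intro r hr
  obtain ⟨l₀, e1, e2, e3, e4⟩ := (hV r).1 hr
  let Ψ' := Ψ ∪ Φ.filter fun l => 0 < l ⬝ᵥ p₀ ∧ l ⬝ᵥ q / l ⬝ᵥ p₀ = r
  have hΨ' : Ψ' ⊆ Φ := Finset.union_subset hΨ (Finset.filter_subset _ _)
  have hl₀ : l₀ ∈ Ψ' := Finset.mem_union_right _ (Finset.mem_filter.2 ⟨e1, e2, e4⟩)
  obtain ⟨ε, hε, hε'⟩ := exists_eps Φ c (q - r • p₀)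
  have hv : ∀ l, l ⬝ᵥ (q - r • p₀) = l ⬝ᵥ q - r * l ⬝ᵥ p₀ := fun l => by simp
  have hv0 : ∀ l ∈ Ψ', l ⬝ᵥ (q - r • p₀) = 0 := fun l hl => by
    rw [hv]
    rcases Finset.mem_union.1 hl with hl | hl
    · simp [h1 l hl]
    · obtain ⟨-, h3, h4⟩ := Finset.mem_filter.1 hl
      rw [← h4, div_mul_cancel₀ _ h3.ne', sub_self]
  have hneg : ∀ l ∈ Φ, l ⬝ᵥ (q - r • p₀) < 0 ↔ 0 < l ⬝ᵥ p₀ ∧ l ⬝ᵥ q / l ⬝ᵥ p₀ < r := fun l hl => by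
    rw [hv, sub_neg]
    rcases (h0 l hl).lt_or_eq with h | h
    · simp [h, div_lt_iff₀ h]
    · simpa [← h] using h2 l hl h.symm
  have key : ∀ p, (p ∈ {p | p ∈ Mc Φ Ψ c ∧ ∃ l ∈ Φ, 0 < l ⬝ᵥ p₀ ∧ l ⬝ᵥ qv c p = 0 ∧
      l ⬝ᵥ q / l ⬝ᵥ p₀ = r} ∧ ∀ v' ∈ V, v' < r → p ∉ {p | p ∈ Mc Φ Ψ c ∧ ∃ l ∈ Φ, 0 < l ⬝ᵥ p₀ ∧
        l ⬝ᵥ qv c p = 0 ∧ l ⬝ᵥ q / l ⬝ᵥ p₀ = v'}) ↔
      p ∈ Mc Φ Ψ' (c + ε • (q - r • p₀)) ∧ qv c p ∈ Kc Φ Ψ' := by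
    intro p
    simp only [Mc, Kc, qv_shift, Set.mem_ofPred_eq, dotProduct_add, dotProduct_smul, smul_eq_mul]
    constructor
    · rintro ⟨⟨⟨h3, h4⟩, l, h5, h6, h7, h8⟩, h9⟩
      have h10 : ∀ l ∈ Ψ', l ⬝ᵥ qv c p = 0 := fun l' hl' => (Finset.mem_union.1 hl').elim (h4.2 l')
        fun h => by
          obtain ⟨h10, h11, h12⟩ := Finset.mem_filter.1 h
          exact g1 l h5 l' h10 h6 h11 (h12.trans h8.symm) _ h4 h7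
      refine ⟨⟨h3, fun l' hl' => ?_, fun l' hl' => by simp [h10 l' hl', hv0 l' hl']⟩, h4.1, h10⟩
      by_cases h11 : l' ⬝ᵥ (q - r • p₀) < 0
      · obtain ⟨h12, h13⟩ := (hneg l' hl').1 h11
        have := hε' l' hl' p fun h => h9 _ ((hV _).2 ⟨l', hl', h12,
          hQ l₀ e1 l' hl' e2 h12 e3 (h13.trans_eq e4.symm).le, rfl⟩) h13 ⟨⟨h3, h4⟩, l', hl', h12, h, rfl⟩
        rw [abs_of_neg h11, abs_of_nonneg (h4.1 l' hl')] at this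
        linarith
      · exact add_nonneg (h4.1 l' hl') (mul_nonneg hε.le (not_lt.1 h11))
    · rintro ⟨⟨h3, h4, -⟩, h5, h6⟩
      refine ⟨⟨⟨h3, h5, fun l hl => h6 l (Finset.mem_union_left _ hl)⟩, l₀, e1, e2, h6 _ hl₀, e4⟩, ?_⟩
      rintro v' - h7 ⟨-, l, h8, h9, h10, rfl⟩
      have := mul_neg_of_pos_of_neg hε ((hneg l h8).2 ⟨h9, h7⟩)
      linarith [h4 l h8]
  have key2 : ∀ p ∈ Mc Φ Ψ' (c + ε • (q - r • p₀)), qv c p ∈ Kc Φ Ψ' := by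
    intro p ⟨_, h3, h4⟩
    simp only [qv_shift, dotProduct_add, dotProduct_smul, smul_eq_mul] at h3 h4
    refine ⟨fun l hl => by_contra fun h => ?_, fun l hl => by simpa [hv0 l hl] using h4 l hl⟩
    have := hε' l hl p (not_le.1 h).ne
    rw [abs_of_neg (not_le.1 h)] at this
    nlinarith [h3 l hl, le_abs_self (l ⬝ᵥ (q - r • p₀))]
  have e : _ = Mc Φ Ψ' (c + ε • (q - r • p₀)) :=
    Set.ext fun p => (key p).trans (and_iff_left_of_imp (key2 p))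
  refine e ▸ ?_
  rcases (Mc Φ Ψ' (c + ε • (q - r • p₀))).eq_empty_or_nonempty with h | ⟨p, hp⟩
  · exact h ▸ dep_empty
  have hc' := hc Ψ' hΨ' Finset.subset_union_left ⟨l₀, hl₀, e2⟩
  refine g2 Ψ' hΨ' Finset.subset_union_left hc' r (((Sp u Ψ').smul_mem_iff hε.ne').1 ?_) _
  simpa [qv_shift] using sub_mem (hP.le_sp hΨ' hc' _ hp.2) (hP.le_sp hΨ' hc' _ (key2 p hp))

theorem Pol.shell' (hP : Pol u Φ) (hΨ : Ψ ⊆ Φ) (U : Submodule ℚ (Option σ → ℚ))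
    {p₀ q₀ : Option σ → ℚ} (O : Finset (Option σ → ℚ)) (Q : (Option σ → ℚ) → Prop)
    (hU : ∀ y ∈ Kc Φ Ψ, y ∈ U) (hU' : ∀ l ∈ Ψ, ∀ y ∈ U, l ⬝ᵥ y = 0) (hp : p₀ ∈ U) (hq : q₀ ∈ U)
    (hO : ∀ l ∈ O, 0 < l ⬝ᵥ q₀) (h0 : ∀ l ∈ Φ, 0 ≤ l ⬝ᵥ p₀)
    (h2 : ∀ l ∈ Φ, l ⬝ᵥ p₀ = 0 → l ∈ O ∨ ∀ y ∈ U, l ⬝ᵥ y = 0)
    (hQ : ∀ l ∈ Φ, ∀ l' ∈ Φ, 0 < l ⬝ᵥ p₀ → 0 < l' ⬝ᵥ p₀ → Q l → ¬Q l' →
      (l ⬝ᵥ p₀) • l' - (l' ⬝ᵥ p₀) • l ∈ O)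
    (hc : ∀ Ψ' ⊆ Φ, Ψ ⊆ Ψ' → (∃ l ∈ Ψ', 0 < l ⬝ᵥ p₀) → ∃ l ∈ Ψ', l none < 0)
    (hd : d + 1 ≤ Module.finrank ℚ U)
    (ih : ∀ Ψ' ⊆ Φ, Ψ ⊆ Ψ' → (∃ l ∈ Ψ', l none < 0) → d ≤ Module.finrank ℚ (Sp u Ψ') → ∀ c,
      Dep u a J (Mc Φ Ψ' c) d) (c : Option σ → ℚ) :
    Dep u a J {p | p ∈ Mc Φ Ψ c ∧ ∃ l ∈ Φ, 0 < l ⬝ᵥ p₀ ∧ l ⬝ᵥ qv c p = 0 ∧ Q l} d := by
  classical
  obtain ⟨q, e1, e2, e3⟩ := exists_generic U ((Φ ×ˢ Φ).image (fun x => LinearMap.ker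
    (dotProductBilin ℚ ℚ ((x.1 ⬝ᵥ p₀) • x.2 - (x.2 ⬝ᵥ p₀) • x.1))) ∪
      Φ.powerset.image fun Ψ' => Sp u Ψ' ⊔ ℚ ∙ p₀) O hq hO
  refine hP.shell hΨ (q := q) Q h0 (fun l hl => ⟨hU' l hl _ hp, hU' l hl _ e1⟩)
    (fun l hl h => (h2 l hl h).elim (fun h => (e2 l h).le) fun h => (h q e1).ge)
    (fun l hl l' hl' h3 h4 h5 h6 => by_contra fun h7 => ?_) (fun l hl l' hl' h3 h4 h5 y h6 h7 => ?_)
    hc (fun Ψ' h3 h4 h5 r h6 => ih Ψ' h3 h4 h5 ?_) c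
  · have := e2 _ (hQ l hl l' hl' h3 h4 h5 h7)
    rw [div_le_div_iff₀ h4 h3] at h6
    simp only [sub_dotProduct, smul_dotProduct, smul_eq_mul] at this
    linarith
  · have := e3 _ (Finset.mem_union_left _ (Finset.mem_image_of_mem _ (Finset.mk_mem_product hl hl')))
      (by
        rw [div_eq_div_iff h4.ne' h3.ne'] at h5
        simp only [LinearMap.mem_ker, dotProductBilin_apply_apply, sub_dotProduct, smul_dotProduct,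
          smul_eq_mul]
        linarith) (hU y h6)
    simpa [h7, h3.ne'] using this
  · have h7 := Submodule.finrank_mono (e3 _ (Finset.mem_union_right _ (Finset.mem_image_of_mem _
      (Finset.mem_powerset.2 h3))) (Submodule.mem_sup.2 ⟨_, h6, r • p₀,
        Submodule.smul_mem _ _ (Submodule.mem_span_singleton_self _), by abel⟩))
    have h8 := Submodule.finrank_add_le_finrank_add_finrank (Sp u Ψ') (ℚ ∙ p₀)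
    have h9 : Module.finrank ℚ (ℚ ∙ p₀) ≤ 1 := by
      have := finrank_span_finset_le_card (R := ℚ) {p₀}
      rwa [Set.finrank, Finset.coe_singleton] at this
    omega

theorem Pol.depth (hP : Pol u Φ) (hN : ND2 u a) (d : ℕ) : ∀ Ψ ⊆ Φ, (∀ l ∉ J, RA.ex l ∈ Ψ) →
    (∃ l ∈ Ψ, l none < 0) → d ≤ Module.finrank ℚ (Sp u Ψ) → ∀ c, Dep u a J (Mc Φ Ψ c) d := by
  induction d with
  | zero => exact fun _ _ _ _ _ _ _ _ _ _ _ _ _ _ i hi => Kos.ex_neg hi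
  | succ d ih =>
  intro Ψ hΨ hJ hc hd c A B hA hB hBA hD L hL i hi
  classical
  obtain ⟨hω, hI⟩ := hP.face hΨ hc
  have hne : (It u Ψ).Nonempty := by
    by_contra h
    rw [Sp, Finset.not_nonempty_iff_eq_empty.1 h, Finset.coe_empty, Set.image_empty,
      Submodule.span_empty, finrank_bot] at hd
    omega
  obtain ⟨r, s, hs, hr⟩ := hN.nil ⟨_, hω, hI⟩ hne
  set P := ∑ i ∈ It u Ψ, sh u (Sum.inr i) with hPdef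
  set p₀ := ∑ i ∈ It u Ψ, hv u i with hp₀
  have hM : ∀ p, p ∈ Mc Φ Ψ c ↔ p ∈ A ∧ p ∉ B := fun p => (Set.ext_iff.1 hD p).symm
  have hcl : ∀ {A}, Closed u A → ∀ p ∈ A, P + p ∈ A := fun hA =>
    Finset.sum_induction _ (fun z => ∀ p ∈ _, z + p ∈ _)
      (fun x y hx hy p hp => add_assoc x y p ▸ hx _ (hy p hp)) (by simp)
      fun i _ p hp => add_comm p _ ▸ hA p hp _
  have hqP : ∀ p, qv c (P + p) = qv c p + p₀ := fun p => funext fun o => by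
    simp [qv, hPdef, hp₀, Prod.fst_sum, sh, hv, add_comm, add_assoc]
  have hP2 : P.2 = 0 := by simp [hPdef, Prod.snd_sum, sh]
  have h0 : ∀ l ∈ Φ, 0 ≤ l ⬝ᵥ p₀ := fun l hl => by
    rw [hp₀, dotProduct_sum]
    exact Finset.sum_nonneg fun i _ => hP.nn l hl i
  have h1 : ∀ l ∈ Φ, l ⬝ᵥ p₀ = 0 → ∀ y ∈ Sp u Ψ, l ⬝ᵥ y = 0 := fun l hl h => dot_span (by
    rintro _ ⟨i, hi, rfl⟩
    rw [hp₀, dotProduct_sum, Finset.sum_eq_zero_iff_of_nonneg fun i _ => hP.nn l hl i] at h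
    exact h i hi)
  have h2 : ∀ l ∈ Ψ, ∀ y ∈ Sp u Ψ, l ⬝ᵥ y = 0 := fun l hl => dot_span (by
    rintro _ ⟨i, hi, rfl⟩
    exact mem_It.1 hi l hl)
  have h3 : p₀ ∈ Sp u Ψ := sum_mem fun i hi => Submodule.subset_span ⟨i, hi, rfl⟩
  have hmul : ∀ {A}, Closed u A → ∀ x ∈ sp k A, ee P * x ∈ sp k A := fun hA x hx =>
    mul_mem_sp (C := {P}) (by rintro _ rfl; exact hcl hA) (ee_mem rfl) hx
  refine Kos.ex_step (t := ee P) (fun l => hA.fx a _ _) (fun l => hB.fx a _ _)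
    (fun x hx h => cancel_sp (fun p hp h => by_contra fun h' => ?_) hx h)
    ⟨hmul hA, hmul hB, r, s, hs A hA, hs B hB, fun x hx => ?_⟩ ?_
  · obtain ⟨h4, h5, h6⟩ := (hM p).2 ⟨hp, h'⟩
    refine ((hM (P + p)).1 ⟨by simp [hP2, h4], fun l hl => ?_, fun l hl => ?_⟩).2 h <;>
      rw [hqP, dotProduct_add]
    exacts [add_nonneg (h5 l hl) (h0 l hl), by rw [h6 l hl, h2 l hl _ h3, add_zero]]
  · rw [hr, hL, ← Finset.sum_subset (Finset.subset_univ J) fun l _ hl => ?_, ← Finset.sum_sub_distrib,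
      Finset.sum_mul]
    · refine sum_mem fun l _ => ?_
      rw [← mul_sub, mul_assoc, Fl_eq, FS, FS, ← Finset.sum_sdiff (Finset.subset_univ
        ((It u Ψ).map Function.Embedding.inr)), sub_add_cancel_right, neg_mul, Finset.sum_mul]
      refine hs B hB _ _ (neg_mem (sum_mem fun g' hg' => ?_))
      rw [smul_mul_assoc]
      refine Submodule.smul_mem _ _ (mul_mem_sp (C := {sh u g'}) ?_ (ee_mem rfl) hx)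
      rintro _ rfl p hp
      rw [add_comm]
      by_cases hp' : p ∈ B
      · exact hB p hp' g'
      by_contra h5
      have h6 := (hM p).2 ⟨hp, hp'⟩
      have h7 := (hM _).2 ⟨hA p hp g', h5⟩
      obtain ⟨i, rfl⟩ := dead h6.1 h7.1
      refine (Finset.mem_sdiff.1 hg').2 (Finset.mem_map_of_mem _ (mem_It.2 fun l hl => ?_))
      simpa [qv_sh, h6.2.2 l hl] using h7.2.2 l hl
    · rw [FS, Finset.sum_eq_zero fun g' hg' => ?_, mul_zero]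
      obtain ⟨i, hi, rfl⟩ := Finset.mem_map.1 hg'
      have := mem_It.1 hi _ (hJ l hl)
      simp only [ex_dot, hv, hat, Option.elim_some, Nat.cast_eq_zero] at this
      simp [this]
  rw [sp_shift]
  obtain ⟨D, hD0, hD1⟩ := disc Φ c
  have hD' : (0 : ℚ) < D := by exact_mod_cast hD0
  let V := ((Φ ×ˢ Finset.range (⌈D * ∑ l ∈ Φ, l ⬝ᵥ p₀⌉₊)).image
    fun x => (x.2 / D : ℚ) / (x.1 ⬝ᵥ p₀)).filter (· < 1)
  have hV : ∀ l ∈ Φ, ∀ p ∈ Mc Φ Ψ c, l ⬝ᵥ qv c p < l ⬝ᵥ p₀ → l ⬝ᵥ qv c p / l ⬝ᵥ p₀ ∈ V := by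
    intro l hl p hp h
    have h4 := hp.2.1 l hl
    obtain ⟨z, hz⟩ := hD1 l hl p.1
    change _ = _ * (l ⬝ᵥ qv c p) at hz
    lift z to ℕ using by exact_mod_cast hz ▸ mul_nonneg hD'.le h4
    refine Finset.mem_filter.2 ⟨Finset.mem_image.2 ⟨(l, z), Finset.mk_mem_product hl
      (Finset.mem_range.2 (Nat.lt_ceil.2 ?_)), ?_⟩, (div_lt_one (h4.trans_lt h)).2 h⟩
    · rw [Int.cast_natCast] at hz
      rw [hz]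
      exact mul_lt_mul_of_pos_left (h.trans_le (Finset.single_le_sum h0 hl)) hD'
    · rw [Int.cast_natCast] at hz
      simp only [hz, mul_div_cancel_left₀ _ hD'.ne']
  refine dep_biUnion (d := d) (J := J) V (fun v => {p | p ∈ Mc Φ Ψ c ∧ ∃ l ∈ Φ, 0 < l ⬝ᵥ p₀ ∧
    l ⬝ᵥ qv c p ≤ v * l ⬝ᵥ p₀}) ?_ (fun v hv => ?_) A _ hA ?_ ?_ (Set.ext fun p => ?_) L hL _
    (by push_cast at hi; omega)
  · rintro v - v' - p ⟨h4, -⟩ g ⟨h5, l, h6, h7, h8⟩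
    obtain ⟨i, rfl⟩ := dead h4.1 h5.1
    refine ⟨h4, l, h6, h7, ?_⟩
    rw [qv_sh, dotProduct_add] at h8
    linarith [hP.nn l h6 i]
  · have hv1 : v < 1 := (Finset.mem_filter.1 hv).2
    have hv0 : 0 ≤ v := by
      obtain ⟨x, hx, rfl⟩ := Finset.mem_image.1 (Finset.mem_filter.1 hv).1
      exact div_nonneg (by positivity) (h0 _ (Finset.mem_product.1 hx).1)
    refine Dep.congr (hP.shell' hΨ (Sp u Ψ) ∅ (fun _ => True) (hP.le_sp hΨ hc) h2 h3 (zero_mem _) (by simp) h0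
      (fun l hl h => Or.inr (h1 l hl h)) (by simp) (fun Ψ' _ h _ => hc.imp fun l h' => ⟨h h'.1, h'.2⟩) hd
      (fun Ψ' h4 h5 => ih Ψ' h4 fun l hl => h5 (hJ l hl)) (c + -v • p₀)) fun p => ?_
    simp only [Mc, Kc, qv_shift, Set.mem_ofPred_eq, dotProduct_add, dotProduct_smul, smul_eq_mul]
    constructor
    · rintro ⟨⟨⟨h4, h5⟩, l, h6, h7, h8⟩, h9⟩
      have h10 : ∀ l ∈ Φ, 0 ≤ l ⬝ᵥ qv c p + -v * l ⬝ᵥ p₀ := fun l hl => by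
        by_contra h
        have h10 := h5.1 l hl
        have h11 : 0 < l ⬝ᵥ p₀ := (h0 l hl).lt_of_ne fun e => by simp [← e, h10] at h
        exact h9 _ (hV l hl p ⟨h4, h5⟩ (by nlinarith)) ((div_lt_iff₀ h11).2 (by linarith))
          ⟨⟨h4, h5⟩, l, hl, h11, (div_mul_cancel₀ _ h11.ne').ge⟩
      exact ⟨⟨h4, h10, fun l hl => by simp [h5.2 l hl, h2 l hl _ h3]⟩, l, h6, h7,
        by linarith [h10 l h6], trivial⟩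
    · rintro ⟨⟨h4, h5, h6⟩, l, h7, h8, h9, -⟩
      refine ⟨⟨⟨h4, fun l hl => by nlinarith [h5 l hl, h0 l hl], fun l hl => by
        simpa [h2 l hl _ h3] using h6 l hl⟩, l, h7, h8, by linarith⟩, ?_⟩
      rintro v' - h10 ⟨-, l, h11, h12, h13⟩
      nlinarith [h5 l h11]
  · rintro p (hp | ⟨p, hp, rfl⟩) g
    exacts [Or.inl (hB p hp g), Or.inr ⟨_, hA p hp g, (add_assoc _ _ _).symm⟩]
  · rintro p (hp | ⟨p, hp, rfl⟩)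
    exacts [hBA hp, hcl hA p hp]
  · rw [Set.mem_sdiff, Set.mem_union, not_or, ← and_assoc, ← hM]
    constructor
    · rintro ⟨h4, h5⟩
      obtain ⟨l, hl, h6⟩ : ∃ l ∈ Φ, l ⬝ᵥ qv c p < l ⬝ᵥ p₀ := by
        by_contra h
        push Not at h
        have e := hqP (p - P)
        rw [add_sub_cancel] at e
        refine h5 ⟨p - P, ((hM _).1 ⟨by simp [hP2, h4.1], fun l hl => ?_, fun l hl => ?_⟩).1, by simp⟩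
        · simpa [e] using h l hl
        · simpa [e, h2 l hl _ h3] using h4.2.2 l hl
      have h7 := (h4.2.1 l hl).trans_lt h6
      exact ⟨_, hV l hl p h4 h6, h4, l, hl, h7, (div_mul_cancel₀ _ h7.ne').ge⟩
    · rintro ⟨v, h4, h5, l, h6, h7, h8⟩
      refine ⟨h5, ?_⟩
      rintro ⟨p, hp, rfl⟩
      have h9 := ((hM p).2 ⟨hp, fun h => ((hM _).1 h5).2 (hcl hB p h)⟩).2.1 l h6
      have h10 : v < 1 := (Finset.mem_filter.1 h4).2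
      simp only [hqP, dotProduct_add] at h8
      nlinarith

end RA

end

end Pool.Agent.P.MP_b91a16_ag
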