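import Pool.Agent.P.MP_b91a16_ag.CvBern

/-! The structure of minimal deficient sets and the confluence of their relations. -/

set_option linter.unusedSectionVars false

namespace Pool.Agent.P.MP_b91a16_ag

noncomputable section

namespace RA

open Cv

variable {σ ι : Type} [Fintype σ] [DecidableEq σ] [Fintype ι] [DecidableEq ι]
variable {u : ι → σ → ℕ} {I J J' : Finset ι} {S T S' Q R C V : Finset σ} {i : ι}

theorem rk_add (hJ : J' ⊆ J) (P : Finset σ) (h0 : ∀ i ∈ J', ∀ j ∈ P, u i j = 0)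
    (h1 : ∀ ξ : σ → ℚ, (∀ j ∉ P, ξ j = 0) → (∀ i ∈ J, ∑ j, ξ j * u i j = 0) → ξ = 0) :
    rk (uq u) J' + P.card ≤ rk (uq u) J := by
  let W := Submodule.span ℚ (uq u '' J)
  let f : W →ₗ[ℚ] (P → ℚ) := LinearMap.funLeft ℚ ℚ Subtype.val ∘ₗ W.subtype
  have h2 : LinearMap.range f = ⊤ := eq_top_iff.2 fun q _ => by
    rcases exists_xi (fun i (j : P) => uq u i j) J q with ⟨ξ, h3, h4⟩ | ⟨r, h3, h4⟩
    · have := h1 (fun j => if h : j ∈ P then ξ ⟨j, h⟩ else 0) (fun j hj => dif_neg hj) fun i hi => by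
        rw [← Finset.sum_subset (Finset.subset_univ P) fun j _ hj => by simp [hj],
          ← Finset.sum_coe_sort]
        simpa [uq] using h3 i hi
      exact absurd (Finset.sum_eq_zero fun j _ => by
        rw [show ξ j = 0 by simpa using congrFun this j, zero_mul]) h4
    · refine ⟨⟨∑ i, r i • uq u i, sum_mem fun i _ => ?_⟩, funext fun j => by simp [f, h4]⟩
      by_cases hi : i ∈ J
      · exact Submodule.smul_mem _ _ (Submodule.subset_span ⟨i, hi, rfl⟩)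
      · simp [h3 i hi]
  have h3 : Submodule.span ℚ (uq u '' J') ≤ (LinearMap.ker f).map W.subtype := Submodule.span_le.2 (by
    rintro _ ⟨i, hi, rfl⟩
    exact ⟨⟨_, Submodule.subset_span ⟨i, hJ hi, rfl⟩⟩, funext fun j => by
      simp [f, uq, h0 i hi j j.2], rfl⟩)
  have h4 := f.finrank_range_add_finrank_ker
  have h5 := (Submodule.finrank_mono h3).trans (Submodule.finrank_map_le _ _)
  rw [h2, finrank_top, Module.finrank_fintype_fun_eq_card, Fintype.card_coe] at h4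
  unfold rk
  linarith

theorem Nb_mono (h : J ⊆ I) (h' : T ⊆ S) : Nb u J T ⊆ Nb u I S := fun _ hi =>
  mem_Nb.2 ⟨h (mem_Nb.1 hi).1, (mem_Nb.1 hi).2.imp fun _ hj => ⟨h' hj.1, hj.2⟩⟩

theorem Nc_subset : Nc u I S ⊆ I := Finset.filter_subset _ _

theorem Nc_ssubset (h : V ⊆ supp u I) (h' : V ≠ ∅) : Nc u I V ⊂ I := by
  obtain ⟨j, hj⟩ := Finset.nonempty_iff_ne_empty.2 h'
  obtain ⟨i, h1, h2⟩ := (mem_supp u).1 (h hj)
  exact Finset.filter_ssubset.2 ⟨i, h1, fun h => h2 (h j hj)⟩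

theorem Nc_eq (h : Disjoint T (supp u I)) : Nc u I T = I := Finset.filter_eq_self.2 fun i hi _ hj =>
  by_contra fun h' => Finset.disjoint_left.1 h hj ((mem_supp u).2 ⟨i, hi, h'⟩)

theorem Nc_Nc : Nc u (Nc u I S) T = Nc u I (S ∪ T) := by
  ext i
  simp only [mem_Nc, Finset.mem_union, or_imp, forall_and, and_assoc]

theorem PL.subset_supp (h : PL u I T T) (hS : S ⊆ T) (hV : V ⊆ T) (hd : Disjoint S V)
    (h1 : S ⊆ supp u I) : S ⊆ supp u (Nc u I V) := fun l hl => by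
  obtain ⟨i, h2, h3⟩ := (mem_supp u).1 (h1 hl)
  exact (mem_supp u).2 ⟨i, mem_Nc.2 ⟨h2, fun j hj => by_contra fun h4 =>
    Finset.disjoint_left.1 hd hl ((h i h2 l (hS hl) j (hV hj) h3 h4).1 ▸ hj)⟩, h3⟩

theorem PL.union (h : PL u I S S) (h' : PL u I T T) (h'' : PL u I S T) : PL u I (S ∪ T) (S ∪ T) := by
  intro i hi j hj j' hj'
  rcases Finset.mem_union.1 hj with hj | hj <;> rcases Finset.mem_union.1 hj' with hj' | hj'
  exacts [h i hi j hj j' hj', h'' i hi j hj j' hj', h''.symm i hi j hj j' hj', h' i hi j hj j' hj']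

theorem PL.dot (h : PL u I S S) (hi : i ∈ I) (hR : R ⊆ S) {r : σ} (hr : r ∈ R) (h1 : u i r ≠ 0)
    (ξ : σ → ℚ) : ∑ j ∈ R, ξ j * u i j = ξ r := by
  simp +contextual [Finset.sum_congr rfl fun j hj => congrArg (fun n : ℕ => ξ j * n)
    (h.eq hi (hR hr) h1 (hR hj)), hr]

variable (u) in
/-- A minimal deficient set. -/
def MD (I : Finset ι) (S : Finset σ) : Prop := Df u I S ∧ ∀ T ⊂ S, ¬Df u I T

theorem MD.le (h : MD u I S) (hT : T ⊂ S) : 2 * T.card ≤ rk (uq u) (Nb u I T) :=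
  not_lt.1 fun h' => h.2 T hT ⟨hT.1.trans h.1.1, h.1.2.1.mono subset_rfl hT.1 hT.1, h'⟩

theorem Df.exists_md (h : Df u I S) : ∃ T ⊆ S, MD u I T := by
  classical
  obtain ⟨T, h1, h2⟩ := Finset.exists_min_image (S.powerset.filter (Df u I)) Finset.card
    ⟨S, by simpa using h⟩
  simp only [Finset.mem_filter, Finset.mem_powerset] at h1 h2
  exact ⟨T, h1.1, h1.2, fun T' h3 h4 => (h2 T' ⟨h3.1.trans h1.1, h4⟩).not_gt (Finset.card_lt_card h3)⟩

variable (u) in
/-- A connected component of the incompatibility graph of two sets of linear variables. -/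
structure Cmp (I : Finset ι) (S S' R C : Finset σ) : Prop where
  hR : R ⊆ S \ S'
  hC : C ⊆ S' \ S
  cl : ∀ i ∈ I, ∀ j ∈ S, ∀ j' ∈ S', u i j ≠ 0 → u i j' ≠ 0 → (j ∈ R ↔ j' ∈ C)
  edge : ∃ i ∈ I, ∃ j ∈ R, ∃ j' ∈ C, u i j ≠ 0 ∧ u i j' ≠ 0
  con : ∀ ξ : σ → ℚ, (∀ j ∉ R ∪ C, ξ j = 0) → (∃ j ∈ R ∪ C, ξ j = 0) →
    (∀ i ∈ Nb u I R ∩ Nb u I C, ∑ j, ξ j * u i j = 0) → ξ = 0

theorem Cmp.symm (h : Cmp u I S S' R C) : Cmp u I S' S C R :=
  ⟨h.hC, h.hR, fun i hi j hj j' hj' h1 h2 => (h.cl i hi j' hj' j hj h2 h1).symm,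
    h.edge.imp fun _ ⟨h1, j, h2, j', h3, h4, h5⟩ => ⟨h1, j', h3, j, h2, h5, h4⟩,
    fun ξ => Finset.union_comm R C ▸ Finset.inter_comm (Nb u I R) _ ▸ h.con ξ⟩

theorem Cmp.sub (h : Cmp u I S S' R C) : R ⊆ S := h.hR.trans Finset.sdiff_subset

theorem Cmp.dis (h : Cmp u I S S' R C) : Disjoint S C :=
  Finset.disjoint_right.2 fun _ hj => (Finset.mem_sdiff.1 (h.hC hj)).2

theorem exists_cmp (hS : PL u I S S) (hS' : PL u I S' S') (h : ¬PL u I S S') :
    ∃ R C, Cmp u I S S' R C := by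
  classical
  simp only [PL, not_forall] at h
  obtain ⟨i₀, h1, r, h2, c, h3, h4, h5, h6⟩ := h
  have h7 : r ∉ S' := fun h => h6 (hS' i₀ h1 r h c h3 h4 h5)
  let Cl : Finset σ → Prop := fun P => (r ∈ P ∧ ∀ j ∈ P, (j ∈ S ↔ j ∉ S')) ∧
    ∀ i ∈ I, ∀ j ∈ S, ∀ j' ∈ S', u i j ≠ 0 → u i j' ≠ 0 → (j ∈ P ↔ j' ∈ P)
  obtain ⟨P, h8, h9⟩ := Finset.exists_min_image (Finset.univ.filter Cl) Finset.card
    ⟨Finset.univ.filter fun j => j ∈ S ↔ j ∉ S', by
      simp only [Cl, Finset.mem_filter, Finset.mem_univ, true_and]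
      refine ⟨⟨by simp [h2, h7], fun _ => id⟩, fun i hi j hj j' hj' e e' => ?_⟩
      simp only [hj, hj', true_iff, not_true, iff_false]
      exact not_congr ⟨fun h => (hS' i hi j h j' hj' e e').1 ▸ hj, fun h =>
        (hS i hi j hj j' h e e').1 ▸ hj'⟩⟩
  simp only [Finset.mem_filter, Finset.mem_univ, true_and] at h8 h9
  obtain ⟨⟨h10, h11⟩, h12⟩ := h8
  have e : P ∩ S ∪ P ∩ S' = P := by
    ext j
    have := h11 j
    simp only [Finset.mem_union, Finset.mem_inter]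
    tauto
  refine ⟨P ∩ S, P ∩ S', fun j hj => ?_, fun j hj => ?_, fun i hi j hj j' hj' e e' => by
    simpa [hj, hj'] using h12 i hi j hj j' hj' e e', ⟨i₀, h1, r, by simp [h10, h2], c, by
      simpa [h3] using (h12 i₀ h1 r h2 c h3 h4 h5).1 h10, h4, h5⟩, fun ξ e1 e2 e3 => ?_⟩
  · simpa [(Finset.mem_inter.1 hj).2] using h11 j (Finset.mem_inter.1 hj).1
  · simpa [(Finset.mem_inter.1 hj).2] using h11 j (Finset.mem_inter.1 hj).1
  have h13 : ∀ i ∈ I, ∀ j ∈ S, ∀ j' ∈ S', u i j ≠ 0 → u i j' ≠ 0 → j ∈ P → (ξ j = 0 ↔ ξ j' = 0) := by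
    intro i hi j hj j' hj' e4 e5 e6
    have e7 := Finset.mem_inter.2 ⟨e6, hj⟩
    have e8 := Finset.mem_inter.2 ⟨(h12 i hi j hj j' hj' e4 e5).1 e6, hj'⟩
    have := e3 i (Finset.mem_inter.2 ⟨mem_Nb.2 ⟨hi, j, e7, e4⟩, mem_Nb.2 ⟨hi, j', e8, e5⟩⟩)
    rw [← Finset.sum_subset (Finset.subset_univ _) fun j _ hj => by rw [e1 j hj, zero_mul],
      Finset.sum_union (Finset.disjoint_left.2 fun j e e' => (h11 j (Finset.mem_inter.1 e).1).1
        (Finset.mem_inter.1 e).2 (Finset.mem_inter.1 e').2), hS.dot hi Finset.inter_subset_right e7 e4,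
      hS'.dot hi Finset.inter_subset_right e8 e5] at this
    rw [eq_neg_of_add_eq_zero_left this, neg_eq_zero]
  rw [e] at e1 e2
  have h14 : ∀ j ∈ P, (ξ j = 0 ↔ ξ r = 0) := by
    rw [← Finset.filter_eq_self]
    refine Finset.eq_of_subset_of_card_le (Finset.filter_subset _ _) (h9 _ ⟨⟨by simp [h10],
      fun j hj => h11 j (Finset.mem_filter.1 hj).1⟩, fun i hi j hj j' hj' e4 e5 => ?_⟩)
    simp only [Finset.mem_filter, ← h12 i hi j hj j' hj' e4 e5]
    exact and_congr_right fun h => by rw [h13 i hi j hj j' hj' e4 e5 h]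
  obtain ⟨j₀, e4, e5⟩ := e2
  exact funext fun j => by_cases (fun h => (h14 j h).2 ((h14 j₀ e4).1 e5)) (e1 j)

theorem Cmp.card (h : Cmp u I S S' R C) (hS : MD u I S) :
    C.card ≤ R.card ∧ (¬Nb u I R ⊆ Nb u I C → C.card < R.card) := by
  obtain ⟨-, -, r, hr, -⟩ := h.edge
  have h1 := hS.le (Finset.sdiff_ssubset h.sub ⟨r, hr⟩)
  have h2 := hS.1.2.2
  have h3 := Finset.card_sdiff_add_card_eq_card h.sub
  have h4 := Finset.card_union_of_disjoint (h.dis.mono_left h.sub)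
  have h5 : ∀ i ∈ Nb u I (S \ R), ∀ j ∈ R ∪ C, u i j = 0 := fun i hi j hj => by_contra fun h5 => by
    obtain ⟨h6, l, h7, h8⟩ := mem_Nb.1 hi
    obtain ⟨h7, h9⟩ := Finset.mem_sdiff.1 h7
    rcases Finset.mem_union.1 hj with hj | hj
    · exact h9 ((hS.1.2.1 i h6 l h7 j (h.sub hj) h8 h5).1 ▸ hj)
    · exact h9 ((h.cl i h6 l h7 j (h.symm.sub hj) h8 h5).2 hj)
  have h6 : Nb u I R ∩ Nb u I C ⊆ Nb u I S := Finset.inter_subset_left.trans (Nb_mono subset_rfl h.sub)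
  have h7 := Finset.mem_union_left C hr
  refine ⟨?_, fun h8 => ?_⟩
  · have := rk_add (Nb_mono subset_rfl Finset.sdiff_subset) ((R ∪ C).erase r)
      (fun i hi j hj => h5 i hi j (Finset.mem_of_mem_erase hj)) fun ξ e1 e2 =>
        h.con ξ (fun j hj => e1 j (mt Finset.mem_of_mem_erase hj)) ⟨r, h7, e1 r (by simp)⟩
          fun i hi => e2 i (h6 hi)
    have := Finset.card_erase_add_one h7
    omega
  · obtain ⟨i, h9, h10⟩ := Finset.not_subset.1 h8
    obtain ⟨h11, l, h12, h13⟩ := mem_Nb.1 h9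
    have := rk_add (Nb_mono subset_rfl Finset.sdiff_subset) (R ∪ C) h5 fun ξ e1 e2 =>
      h.con ξ e1 ⟨l, Finset.mem_union_left C h12, by
        have := e2 i (Nb_mono subset_rfl h.sub h9)
        rwa [← Finset.sum_subset (Finset.subset_univ R) fun j _ hj => ?_,
          hS.1.2.1.dot h11 h.sub h12 h13] at this
        by_cases e : j ∈ C
        · simp [show u i j = 0 from by_contra fun h => h10 (mem_Nb.2 ⟨h11, j, e, h⟩)]
        · simp [e1 j (by simp [hj, e])]⟩ fun i hi => e2 i (h6 hi)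
    omega

theorem Cmp.eq (h : Cmp u I S S' R C) (hS : MD u I S) (hS' : MD u I S') :
    R.card = C.card ∧ Nb u I R = Nb u I C := by
  have h1 := h.card hS
  have h2 := h.symm.card hS'
  exact ⟨h2.1.antisymm h1.1, Finset.Subset.antisymm (by_contra fun h => (h1.2 h).not_ge h2.1)
    (by_contra fun h => (h2.2 h).not_ge h1.1)⟩

variable (u) in
/-- The relation attached to a set of linear variables. -/
def ES (r : ℝ) (θ : Finset ι → ℝ) (S : Finset σ) (I : Finset ι) : ℝ :=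
  ∑ U ∈ S.powerset, r ^ U.card * θ (Nc u I U)

variable {r : ℝ} {θ : Finset ι → ℝ}

theorem Nc_empty : Nc u I ∅ = I := Nc_eq (Finset.disjoint_empty_left _)

theorem ES_insert {l : σ} (h : l ∉ S) :
    ES u r θ (insert l S) I = ES u r θ S I + r * ES u r θ S (Nc u I {l}) := by
  rw [ES, Finset.sum_powerset_insert h, ES, ES, Finset.mul_sum, add_right_inj]
  exact Finset.sum_congr rfl fun U hU => by
    rw [Finset.card_insert_of_notMem fun h' => h (Finset.mem_powerset.1 hU h'), Nc_Nc, pow_succ',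
      mul_assoc, Finset.insert_eq]

theorem ES_union (h : Disjoint S T) : ES u r θ (S ∪ T) I = ES u r (ES u r θ S) T I := by
  induction T using Finset.induction_on generalizing I with
  | empty => simp [ES, Nc_empty]
  | insert l T hl ih =>
    rw [Finset.disjoint_insert_right] at h
    rw [Finset.union_insert, ES_insert (by simp [hl, h.1]), ES_insert hl, ih h.2, ih h.2]

theorem ES_const (h : Disjoint T (supp u I)) : ES u r θ T I = (1 + r) ^ T.card * θ I := by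
  rw [ES, ← Finset.prod_const, Finset.prod_one_add, Finset.sum_mul]
  exact Finset.sum_congr rfl fun U hU => by
    rw [Nc_eq (h.mono_left (Finset.mem_powerset.1 hU)), Finset.prod_const]

variable (u r θ) in
def Rel (I : Finset ι) : Prop :=
  ∀ S, PL u I S S → rk (uq u) (Nb u I S) < 2 * (S ∩ supp u I).card → ES u r θ S I = 0

theorem ES_ext (ih : ∀ J ⊂ I, Rel u r θ J) (hT : T ⊆ supp u I) (hP : PL u I T T) (hS : S ⊆ T)
    (hD : Df u I S) : ES u r θ T I = ES u r θ S I := by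
  rw [← Finset.union_sdiff_of_subset hS, ES_union Finset.disjoint_sdiff, ES,
    Finset.sum_eq_single_of_mem ∅ (by simp) fun V h1 h2 => ?_]
  · simp [Nc_empty]
  have h3 := (Finset.mem_powerset.1 h1).trans Finset.sdiff_subset
  rw [ih _ (Nc_ssubset (h3.trans hT) h2) S (hD.2.1.mono Nc_subset subset_rfl subset_rfl), mul_zero]
  rw [Finset.inter_eq_left.2 (hP.subset_supp hS h3
    (Finset.disjoint_sdiff.mono_right (Finset.mem_powerset.1 h1)) hD.1)]
  exact (rk_mono _ (Nb_mono Nc_subset subset_rfl)).trans_lt hD.2.2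

theorem Cmp.mid (ih : ∀ J ⊂ I, Rel u r θ J) (h : Cmp u I S S' R C) (hS' : MD u I S')
    (e : Nb u I R = Nb u I C) (hD : Df u I (Q ∪ R)) (hP : PL u I (Q ∪ C) (Q ∪ C))
    (hQ : Disjoint Q C) (h1 : V ⊆ C) (h2 : V ≠ ∅) (h3 : V ≠ C) :
    ES u r θ (Q ∪ R) (Nc u I V) = 0 := by
  have h4 := h1.trans h.symm.sub
  have h5 := hP.subset_supp Finset.subset_union_left (h1.trans Finset.subset_union_right)
    (hQ.mono_right h1) (Finset.subset_union_left.trans hD.1)
  refine ih _ (Nc_ssubset (h4.trans hS'.1.1) h2) _ (hD.2.1.mono Nc_subset subset_rfl subset_rfl) ?_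
  have h6 := Finset.card_sdiff_add_card_inter (Q ∪ R) (supp u (Nc u I V))
  rw [Finset.union_sdiff_distrib, Finset.sdiff_eq_empty_iff_subset.2 h5, Finset.empty_union] at h6
  have h7 : Disjoint (R \ supp u (Nc u I V)) C := h.dis.mono_left (Finset.sdiff_subset.trans h.sub)
  have h8 := Finset.card_union_of_disjoint (h7.mono_right h1)
  have h9 : ∀ J, Nb u I C ⊆ J → ∀ J' ⊆ J, J' ⊆ Nc u I V →
      rk (uq u) J' + (R \ supp u (Nc u I V) ∪ V).card ≤ rk (uq u) J := fun J e1 J' e2 e3 =>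
    rk_add e2 _ (fun i hi j hj => (Finset.mem_union.1 hj).elim (fun hj => by_contra fun h =>
      (Finset.mem_sdiff.1 hj).2 ((mem_supp u).2 ⟨i, e3 hi, h⟩)) ((mem_Nc.1 (e3 hi)).2 j))
      fun ξ e4 e5 => h.con ξ (fun j hj => e4 j fun h => hj
        (Finset.union_subset_union Finset.sdiff_subset h1 h)) (by
          obtain ⟨c, e6, e7⟩ := Finset.exists_of_ssubset (h1.ssubset_of_ne h3)
          exact ⟨c, Finset.mem_union_right _ e6, e4 c (by
            simp only [Finset.mem_union, e7, or_false]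
            exact Finset.disjoint_right.1 h7 e6)⟩) fun i hi => e5 i (e1 (Finset.mem_inter.1 hi).2)
  have h10 := h9 _ (Nb_mono subset_rfl h.symm.sub) (Nb u I (S' \ V))
    (Nb_mono subset_rfl Finset.sdiff_subset) fun i hi => by
      obtain ⟨e1, l, e2, e3⟩ := mem_Nb.1 hi
      obtain ⟨e2, e4⟩ := Finset.mem_sdiff.1 e2
      exact mem_Nc.2 ⟨e1, fun j hj => by_contra fun h =>
        e4 ((hS'.1.2.1 i e1 l e2 j (h4 hj) e3 h).1 ▸ hj)⟩
  have h11 := h9 _ (e ▸ Nb_mono subset_rfl (Finset.subset_union_right (s₁ := Q)))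
    (Nb u (Nc u I V) (Q ∪ R)) (Nb_mono Nc_subset subset_rfl) (Finset.filter_subset _ _)
  have h12 := hS'.le (Finset.sdiff_ssubset h4 (Finset.nonempty_iff_ne_empty.2 h2))
  have h13 := Finset.card_sdiff_add_card_eq_card h4
  have h14 := hS'.1.2.2
  have h15 := hD.2.2
  omega

theorem ES_two (hC : C ≠ ∅) (h : ∀ V ⊆ C, V ≠ ∅ → V ≠ C → θ (Nc u I V) = 0) :
    ES u r θ C I = θ I + r ^ C.card * θ (Nc u I C) := by
  rw [ES, Finset.sum_eq_add_of_mem ∅ C (by simp) (by simp) hC.symm fun V h1 h2 => by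
    rw [h V (Finset.mem_powerset.1 h1) h2.1 h2.2, mul_zero]]
  simp [Nc_empty]

theorem confl (h0 : ∀ I, (∃ S, Df u I S) → ∃ S, MD u I S ∧ ES u r θ S I = 0) (I : Finset ι) :
    Rel u r θ I := by
  induction I using Finset.strongInduction with
  | H I ih =>
  suffices ∀ S, Df u I S → ES u r θ S I = 0 by
    intro S h1 h2
    rw [← Finset.sdiff_union_inter S (supp u I), Finset.union_comm,
      ES_union (Finset.disjoint_sdiff_inter _ _).symm, ES_const Finset.sdiff_disjoint,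
      this _ ⟨Finset.inter_subset_right, h1.mono subset_rfl Finset.inter_subset_left
        Finset.inter_subset_left, (rk_mono _ (Nb_mono subset_rfl Finset.inter_subset_left)).trans_lt
          h2⟩, mul_zero]
  intro S hS
  obtain ⟨S₀, h1, h2⟩ := h0 I ⟨S, hS⟩
  induction hn : (S \ S₀).card using Nat.strong_induction_on generalizing S with
  | _ n ih' =>
  obtain ⟨S₁, h3, h4⟩ := hS.exists_md
  rw [ES_ext ih hS.1 hS.2.1 h3 h4.1]
  by_cases h5 : PL u I S₁ S₀
  · have h6 := Finset.union_subset h4.1.1 h1.1.1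
    have h7 := h4.1.2.1.union h1.1.2.1 h5
    rw [← ES_ext ih h6 h7 Finset.subset_union_left h4.1, ES_ext ih h6 h7 Finset.subset_union_right h1.1,
      h2]
  obtain ⟨R, C, h⟩ := exists_cmp h4.1.2.1 h1.1.2.1 h5
  obtain ⟨e1, e2⟩ := h.eq h4 h1
  have e3 : S₁ \ R ∪ R = S₁ := Finset.sdiff_union_of_subset h.sub
  have d1 : Disjoint (S₁ \ R) C := h.dis.mono_left Finset.sdiff_subset
  have d2 : Disjoint R C := h.dis.mono_left h.sub
  have h6 : Df u I (S₁ \ R ∪ C) := by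
    refine ⟨Finset.union_subset (Finset.sdiff_subset.trans h4.1.1) (h.symm.sub.trans h1.1.1),
      (h4.1.2.1.mono subset_rfl Finset.sdiff_subset Finset.sdiff_subset).union
        (h1.1.2.1.mono subset_rfl h.symm.sub h.symm.sub) fun i hi j hj j' hj' e e' => absurd
          ((h.cl i hi j (Finset.mem_sdiff.1 hj).1 j' (h.symm.sub hj') e e').2 hj')
          (Finset.mem_sdiff.1 hj).2, ?_⟩
    rw [Finset.card_union_of_disjoint d1, ← e1, Finset.card_sdiff_add_card_eq_card h.sub]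
    refine (rk_mono _ fun i hi => ?_).trans_lt h4.1.2.2
    obtain ⟨h6, j, h7, h8⟩ := mem_Nb.1 hi
    rcases Finset.mem_union.1 h7 with h7 | h7
    · exact mem_Nb.2 ⟨h6, j, (Finset.mem_sdiff.1 h7).1, h8⟩
    · exact Nb_mono subset_rfl h.sub (e2 ▸ mem_Nb.2 ⟨h6, j, h7, h8⟩)
  obtain ⟨-, -, j, h7, j', h8, -⟩ := h.edge
  have h9 := ih' _ (hn ▸ Finset.card_lt_card ⟨fun l hl => by
    have := fun h' : l ∈ C => h.symm.sub h'
    have := @h3 l
    simp only [Finset.mem_sdiff, Finset.mem_union] at *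
    tauto, fun h' => by
      have := h' (Finset.sdiff_subset_sdiff h3 subset_rfl (h.hR h7))
      simp [h7, Finset.disjoint_left.1 d2 h7] at this⟩) _ h6 rfl
  have h10 := ES_two (u := u) (r := r) (θ := ES u r θ (S₁ \ R ∪ R)) (Finset.ne_empty_of_mem h8)
    fun V => h.mid ih h1 e2 (e3.symm ▸ h4.1) h6.2.1 d1
  have h11 := ES_two (u := u) (r := r) (θ := ES u r θ (S₁ \ R ∪ C)) (Finset.ne_empty_of_mem h7)
    fun V => h.symm.mid ih h4 e2.symm h6 (e3.symm ▸ h4.1.2.1) Finset.sdiff_disjoint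
  have e4 : Nc u I C = Nc u I R := by
    ext i
    have := congrArg (i ∉ ·) e2
    simp only [mem_Nb, mem_Nc, not_and, not_exists, not_not, eq_iff_iff] at this ⊢
    tauto
  have d3 : ∀ T, Disjoint T (supp u (Nc u I T)) := fun T => Finset.disjoint_left.2 fun j h h' => by
    obtain ⟨i, h1, h2⟩ := (mem_supp u).1 h'
    exact h2 ((mem_Nc.1 h1).2 j h)
  rw [← ES_union (Finset.disjoint_union_left.2 ⟨d1, d2⟩), e4,
    ES_union (I := Nc u I R) Finset.sdiff_disjoint, ES_const (d3 R), e3] at h10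
  rw [← ES_union (Finset.disjoint_union_left.2 ⟨Finset.sdiff_disjoint, d2.symm⟩),
    ES_union (I := Nc u I R) d1, ES_const (I := Nc u I R) (e4 ▸ d3 C), Finset.union_right_comm, e3, h10, h9, e1] at h11
  linarith

theorem MD.pl {S₁ : Finset σ} (hS : MD u I S) (hT : MD u I T) {c : Option σ → ℚ}
    (h1 : c ∈ Submodule.span ℚ (hv u '' I)) (h2 : ∀ j, 1 ≤ c (some j))
    (h3 : ∀ j, c (some j) = 1 ↔ j ∈ S') (h4 : S ⊆ S₁) (h5 : S₁ ⊆ S')
    (h6 : ∀ l ∈ S₁, ∀ i ∈ I, u i l ≠ 0 → ∀ j ∈ S', u i j = if j = l then 1 else 0) : PL u I S T := by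
  by_contra h7
  obtain ⟨R, C, h⟩ := exists_cmp hS.1.2.1 hT.1.2.1 h7
  obtain ⟨e1, e2⟩ := h.eq hS hT
  have h8 := dot_span (l := ∑ j ∈ R, RA.ex j - ∑ j ∈ C, RA.ex j) (by
    rintro _ ⟨i, hi, rfl⟩
    simp only [sub_dotProduct, sum_dotProduct, ex_dot, hv_some, e2,
      (hS.1.2.1.mono subset_rfl h.sub h.sub).sum hi,
      (hT.1.2.1.mono subset_rfl h.symm.sub h.symm.sub).sum hi, sub_self]) c h1
  simp only [sub_dotProduct, sum_dotProduct, ex_dot] at h8
  rw [Finset.sum_congr rfl fun j hj => (h3 j).2 (h5 (h4 (h.sub hj))), Finset.sum_const, e1,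
    ← Finset.sum_const, sub_eq_zero, Finset.sum_eq_sum_iff_of_le fun j _ => h2 j] at h8
  obtain ⟨i, h9, j, h10, j', h11, h12, h13⟩ := h.edge
  refine h13 ((h6 j (h4 (h.sub h10)) i h9 h12 j' ((h3 j').1 (h8 j' h11).symm)).trans (if_neg ?_))
  rintro rfl
  exact Finset.disjoint_left.1 h.dis (h.sub h10) h11

end RA

end

end Pool.Agent.P.MP_b91a16_ag
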