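import Mathlib

/-!
Definitions for the motivic monodromy conjecture: the Grothendieck ring of varieties, the local
motivic zeta function of a polynomial at the origin, and Bernstein-Sato functional equations.
-/

open CategoryTheory AlgebraicGeometry

namespace Pool.Agent.P.MP_b91a16_ag

noncomputable section

/-- A `k`-variety: a separated `k`-scheme of finite type. -/
structure Var (k : Type) [Field k] where
  X : Scheme.{0}
  str : X ⟶ Spec (CommRingCat.of k)
  finiteType : LocallyOfFiniteType str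
  quasiCompact : QuasiCompact str
  separated : IsSeparated str

/-- Isomorphic varieties have the same class. -/
def relIso (k : Type) [Field k] : Set (MvPolynomial (Var k) ℤ) :=
  {r | ∃ (V W : Var k) (e : V.X ≅ W.X), e.hom ≫ W.str = V.str ∧
      r = MvPolynomial.X V - MvPolynomial.X W}

/-- `[X] = [Z] + [U]` for a closed subscheme `Z` with open complement `U`. -/
def relCut (k : Type) [Field k] : Set (MvPolynomial (Var k) ℤ) :=
  {r | ∃ (V Z U : Var k) (i : Z.X ⟶ V.X) (j : U.X ⟶ V.X), i ≫ V.str = Z.str ∧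
      j ≫ V.str = U.str ∧ IsClosedImmersion i ∧ IsOpenImmersion j ∧
      IsCompl (Set.range i) (Set.range j) ∧
      r = MvPolynomial.X V - MvPolynomial.X Z - MvPolynomial.X U}

/-- `[X ×ₖ Y] = [X] [Y]`. -/
def relProd (k : Type) [Field k] : Set (MvPolynomial (Var k) ℤ) :=
  {r | ∃ (V W P : Var k) (p : P.X ⟶ V.X) (q : P.X ⟶ W.X), IsPullback p q V.str W.str ∧
      p ≫ V.str = P.str ∧ r = MvPolynomial.X P - MvPolynomial.X V * MvPolynomial.X W}

/-- `[Spec k] = 1`. -/
def relOne (k : Type) [Field k] : Set (MvPolynomial (Var k) ℤ) :=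
  {r | ∃ V : Var k, IsIso V.str ∧ r = MvPolynomial.X V - 1}

/-- The relations of the Grothendieck ring of `k`-varieties, inside the free commutative ring on
all `k`-varieties. -/
def relations (k : Type) [Field k] : Set (MvPolynomial (Var k) ℤ) :=
  relIso k ∪ relCut k ∪ relProd k ∪ relOne k

/-- The Grothendieck ring `K₀(Var_k)`. -/
abbrev K0 (k : Type) [Field k] : Type 1 :=
  MvPolynomial (Var k) ℤ ⧸ Ideal.span (relations k)

/-- The affine variety `Spec A` of a finitely generated `k`-algebra `A`. -/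
def affineVar (k A : Type) [Field k] [CommRing A] [Algebra k A] [Algebra.FiniteType k A] :
    Var k where
  X := Spec (CommRingCat.of A)
  str := Spec.map (CommRingCat.ofHom (algebraMap k A))
  finiteType := (HasRingHomProperty.Spec_iff (P := @LocallyOfFiniteType)).2
    (RingHom.finiteType_algebraMap.2 inferInstance)
  quasiCompact := inferInstance
  separated := inferInstance

/-- The class `[Spec A]` in `K₀(Var_k)`. -/
def cls (k A : Type) [Field k] [CommRing A] [Algebra k A] [Algebra.FiniteType k A] : K0 k :=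
  Ideal.Quotient.mk _ (MvPolynomial.X (affineVar k A))

/-- The ring `M_k = K₀(Var_k)[L⁻¹]`, where `L = [Spec k[x]]`. -/
abbrev Mot (k : Type) [Field k] : Type 1 :=
  Localization.Away (cls k (Polynomial k))

/-- The element `L⁻¹` of `M_k`. -/
def Linv (k : Type) [Field k] : Mot k :=
  IsLocalization.Away.invSelf (cls k (Polynomial k))

/-- The `j`-th coordinate `a_{j,1} t + ⋯ + a_{j,m} t^m` of the universal `m`-jet of affine
`n`-space centred at the origin. -/
def jet (k : Type) [Field k] (n m : ℕ) (j : Fin n) :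
    Polynomial (MvPolynomial (Fin n × Fin m) k) :=
  ∑ l : Fin m, Polynomial.monomial (l.1 + 1) (MvPolynomial.X (j, l))

/-- The ideal of the scheme `X_{m,1,0}` of `m`-jets `ψ` with `ψ(0) = 0` and
`f(ψ) ≡ t^m mod t^(m+1)`. -/
def contactIdeal {k : Type} [Field k] {n : ℕ} (f : MvPolynomial (Fin n) k) (m : ℕ) :
    Ideal (MvPolynomial (Fin n × Fin m) k) :=
  Ideal.span (Set.range fun p : Fin (m + 1) =>
    (MvPolynomial.aeval (jet k n m) f - Polynomial.X ^ m).coeff p.1)

/-- The class `[X_{m,1,0}]` in `K₀(Var_k)`. -/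
def contactClass {k : Type} [Field k] {n : ℕ} (f : MvPolynomial (Fin n) k) (m : ℕ) : K0 k :=
  cls k (MvPolynomial (Fin n × Fin m) k ⧸ contactIdeal f m)

/-- The series `∑_{m ≥ 1} c_m x^{mn} T^m`. -/
def series {R M : Type 1} [CommRing R] [CommRing M] [Algebra R M] (c : ℕ → R) (x : M) (n : ℕ) :
    PowerSeries M :=
  PowerSeries.mk fun m => if m = 0 then 0 else algebraMap R M (c m) * x ^ (m * n)

/-- The local motivic zeta function `Z_{f,0}(T) = ∑_{m ≥ 1} [X_{m,1,0}] L^{-mn} T^m`. -/
def zeta {k : Type} [Field k] {n : ℕ} (f : MvPolynomial (Fin n) k) : PowerSeries (Mot k) :=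
  series (contactClass f) (Linv k) n

/-- `Z` lies in the subring `M[T, 1/(1 - x^a T^b)]_{(a,b) ∈ S}` of `M[[T]]`. -/
def InPoleRing {M : Type 1} [CommRing M] (x : M) (S : Finset (ℕ × ℕ)) (Z : PowerSeries M) :
    Prop :=
  Z ∈ Algebra.adjoin M ({PowerSeries.X} ∪
    {g | ∃ p ∈ S, g * (1 - PowerSeries.C (x ^ p.1) * PowerSeries.X ^ p.2) = 1})

/-- The Weyl algebra of polynomial differential operators on affine `n`-space. -/
def weyl (k : Type) [Field k] (n : ℕ) :
    Subalgebra k (Module.End k (MvPolynomial (Fin n) k)) :=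
  Algebra.adjoin k
    (Set.range (fun j : Fin n => LinearMap.mulLeft k (MvPolynomial.X j)) ∪
      Set.range (fun j : Fin n => (MvPolynomial.pderiv j).toLinearMap))

/-- `b(s) f^s = P(s) f^(s+1)` for some `P(s) = ∑ P_i s^i` in `D[s]`, as an identity of
polynomials at every natural number `s = m`. -/
def BernsteinEq {k : Type} [Field k] {n : ℕ} (f : MvPolynomial (Fin n) k) (b : Polynomial k) :
    Prop :=
  ∃ (d : ℕ) (P : Fin d → Module.End k (MvPolynomial (Fin n) k)), (∀ i, P i ∈ weyl k n) ∧
    ∀ m : ℕ, ∑ i, (m : k) ^ i.1 • P i (f ^ (m + 1)) = b.eval (m : k) • f ^ m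

end

end Pool.Agent.P.MP_b91a16_ag
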