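import Pool.Agent.P.MP_b91a16_ag.Func

/-! The self-intersection number of a maximal face does not vanish. -/

set_option linter.unusedSectionVars false

open Filter Topology MeasureTheory

namespace Pool.Agent.P.MP_b91a16_ag

noncomputable section

variable {σ ι : Type} [Fintype σ] [DecidableEq σ] [Fintype ι] [DecidableEq ι]
variable {u : ι → σ → ℕ} {Z Bs : Finset (σ ⊕ ι)} {a b : Bs → σ}
variable {η L ε : ℝ} {χ : Bs → (σ → ℝ) → ℝ} {D : Bs → (σ → ℝ) → (σ → ℝ) →L[ℝ] ℝ}

variable (a b χ ε) in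
def Psi (t : Bs → ℝ) (ω : σ → ℝ) : σ → ℝ :=
  ω + ∑ x, (ε * t x) • (Pi.single (b x) 1 + χ x ω • dir (a x) (b x))

variable (u a b χ) in
def wt (g : σ ⊕ ι) (x : Bs) (ω : σ → ℝ) : ℝ :=
  nn u g (b x) + χ x ω * (nn u g (a x) - nn u g (b x))

variable (a b D ε) in
def Jac (t : Bs → ℝ) (ω : σ → ℝ) : ℝ :=
  (1 + Matrix.of fun x y => t x * (ε * D x ω (dir (a y) (b y)))).det

theorem zr_Psi (g : σ ⊕ ι) (t : Bs → ℝ) (ω : σ → ℝ) :
    zr u g (Psi a b ε χ t ω) = zr u g ω + ε * ∑ x, t x * wt u a b χ g x ω := by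
  simp [Psi, zr_add, wt, lin_single, lin_dir, Finset.mul_sum, mul_assoc, mul_add]

theorem norm_dir_le (c c' : σ) : ‖dir c c'‖ ≤ 2 := by
  refine (norm_sub_le _ _).trans ?_
  simp only [Pi.norm_single, norm_one]
  norm_num

theorem Chi.sum_wt_le (h : Chi u Z a b η L χ D) (g : σ ⊕ ι) {t : Bs → ℝ} (ht : ‖t‖ ≤ 1)
    (ω : σ → ℝ) : |∑ x, t x * wt u a b χ g x ω| ≤ Fintype.card Bs * tot u := by
  refine (Finset.abs_sum_le_sum_abs _ _).trans ?_
  rw [← Finset.card_univ, ← nsmul_eq_mul]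
  refine Finset.sum_le_card_nsmul _ _ _ fun x _ => ?_
  have h1 : |t x| ≤ 1 := (norm_le_pi_norm t x).trans ht
  have h2 := h.mem x ω
  have h3 := nn_le (u := u) g (a x)
  have h4 := nn_le (u := u) g (b x)
  have h5 : (0 : ℝ) ≤ nn u g (a x) := Nat.cast_nonneg _
  have h6 : (0 : ℝ) ≤ nn u g (b x) := Nat.cast_nonneg _
  have h7 : |wt u a b χ g x ω| ≤ tot u := by
    rw [wt, abs_le]
    constructor <;> nlinarith [h2.1, h2.2]
  rw [abs_mul]
  exact (mul_le_of_le_one_left (abs_nonneg _) h1).trans h7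

theorem Chi.change (h : Chi u Z a b η L χ D) (hε : 0 < ε)
    (h1 : ε * (Fintype.card Bs * (|L| * 2)) < 1 / 2) {t : Bs → ℝ} (ht : ‖t‖ ≤ 1)
    (hJ : ∀ ω, 0 < Jac a b ε D t ω) (f : (σ → ℝ) → ℝ) :
    ∫ ω, f ω = ∫ ω, Jac a b ε D t ω * f (Psi a b ε χ t ω) := by
  have hd : ∀ ω, HasFDerivAt (Psi a b ε χ t) (ContinuousLinearMap.id ℝ (σ → ℝ) +
      ∑ x, ((ε * t x) • D x ω).smulRight (dir (a x) (b x))) ω := by
    intro ω
    refine ((hasFDerivAt_id ω).fun_add (HasFDerivAt.fun_sum (u := Finset.univ) fun x _ =>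
      ((((h.der x ω).smul_const (dir (a x) (b x))).const_add (Pi.single (b x) 1)).fun_const_smul
        (ε * t x)))).congr_fderiv ?_
    ext v j
    simp [mul_assoc]
  have hap : ApproximatesLinearOn (Psi a b ε χ t)
      (ContinuousLinearEquiv.refl ℝ (σ → ℝ) : (σ → ℝ) →L[ℝ] (σ → ℝ)) Set.univ (1 / 2) := by
    intro ω _ ω' _
    have e : Psi a b ε χ t ω - Psi a b ε χ t ω' -
        (ContinuousLinearEquiv.refl ℝ (σ → ℝ) : (σ → ℝ) →L[ℝ] (σ → ℝ)) (ω - ω') =
        ∑ x, (ε * t x * (χ x ω - χ x ω')) • dir (a x) (b x) := by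
      simp only [Psi, smul_add, Finset.sum_add_distrib, mul_sub, sub_smul, Finset.sum_sub_distrib,
        smul_smul, ContinuousLinearEquiv.coe_refl, ContinuousLinearMap.id_apply]
      abel
    rw [e]
    refine (norm_sum_le _ _).trans (le_trans (Finset.sum_le_card_nsmul _ _
      (ε * (|L| * ‖ω - ω'‖) * 2) fun x _ => ?_) ?_)
    · have h2 : ‖χ x ω - χ x ω'‖ ≤ |L| * ‖ω - ω'‖ :=
        Convex.norm_image_sub_le_of_norm_hasFDerivWithin_le (s := Set.univ)
          (fun y _ => (h.der x y).hasFDerivWithinAt)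
          (fun y _ => (h.bdd x y).trans (le_abs_self L)) convex_univ trivial trivial
      have h3 : ‖t x‖ ≤ 1 := (norm_le_pi_norm t x).trans ht
      rw [norm_smul, norm_mul, norm_mul, Real.norm_of_nonneg hε.le]
      refine mul_le_mul ?_ (norm_dir_le _ _) (norm_nonneg _) (by positivity)
      exact mul_le_mul (mul_le_of_le_one_right hε.le h3) h2 (norm_nonneg _) hε.le
    · rw [nsmul_eq_mul, Finset.card_univ]
      push_cast
      nlinarith [norm_nonneg (ω - ω')]
  have hc : Subsingleton (σ → ℝ) ∨ (1 / 2 : NNReal) <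
      ‖((ContinuousLinearEquiv.refl ℝ (σ → ℝ)).symm : (σ → ℝ) →L[ℝ] (σ → ℝ))‖₊⁻¹ := by
    rcases subsingleton_or_nontrivial (σ → ℝ) with h | h
    · exact Or.inl h
    · refine Or.inr ?_
      simp only [ContinuousLinearEquiv.refl_symm, ContinuousLinearEquiv.coe_refl,
        ContinuousLinearMap.nnnorm_id]
      norm_num
  have := integral_image_eq_integral_abs_det_fderiv_smul volume MeasurableSet.univ
    (fun ω _ => (hd ω).hasFDerivWithinAt) (hap.injOn hc) f
  rw [Set.image_univ, (hap.surjective hc).range_eq, Measure.restrict_univ] at this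
  rw [this]
  refine integral_congr_ae (Eventually.of_forall fun ω => ?_)
  have e : (1 + Matrix.of fun x y => ((ε * t x) • D x ω) (dir (a y) (b y))).det =
      Jac a b ε D t ω := by
    simp [Jac, mul_assoc, mul_left_comm]
  simp only [det_id_add, e, abs_of_pos (hJ ω), smul_eq_mul]

variable (Z Bs) in
def bst : σ ⊕ ι → ℕ := fun g => (if g ∈ Z then 1 else 0) + if g ∈ Bs then 1 else 0

theorem Fi_Psi (hP : Pairs u Z Bs a b) (hε : 0 < ε) (t : Bs → ℝ) (ω : σ → ℝ) :
    Fi u Bs ε (bst Z Bs) (t, Psi a b ε χ t ω) = (∏ g ∈ Z, tau 1 (zr u g ω / ε)) *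
      ((∏ x, tau 2 (t x)) * ∏ g ∈ Zᶜ, tau 0 (zr u g (Psi a b ε χ t ω) / ε)) := by
  have e1 : ∀ g ∈ Z, ∀ x, wt u a b χ g x ω = if g = x.1 then 1 else 0 := fun g hg x => by
    simp [wt, hP.ha x g hg, hP.hb x g hg]
  have e2 : ∀ x : Bs, zr u x.1 (Psi a b ε χ t ω) / ε - t x = zr u x.1 ω / ε := by
    intro x
    simp only [zr_Psi, e1 _ (hP.sub x.2), ← Subtype.ext_iff, mul_ite, mul_one, mul_zero,
      Finset.sum_ite_eq, Finset.mem_univ, if_true]
    field_simp
    ring
  have e3 : ∀ g ∈ Z \ Bs, zr u g (Psi a b ε χ t ω) = zr u g ω := by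
    intro g hg
    obtain ⟨h1, h2⟩ := Finset.mem_sdiff.1 hg
    have : ∀ x : Bs, g ≠ x.1 := fun x e => h2 (e ▸ x.2)
    simp [zr_Psi, e1 g h1, this]
  rw [Fi, ← Finset.prod_mul_prod_compl Z, ← Finset.prod_sdiff hP.sub, ← Finset.prod_sdiff hP.sub,
    ← Finset.prod_coe_sort Bs, ← Finset.prod_coe_sort Bs]
  have e4 : ∏ g ∈ Z \ Bs, tau (bst Z Bs g) (zt u Bs ε g (t, Psi a b ε χ t ω)) =
      ∏ g ∈ Z \ Bs, tau 1 (zr u g ω / ε) := Finset.prod_congr rfl fun g hg => by
    obtain ⟨h1, h2⟩ := Finset.mem_sdiff.1 hg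
    simp [bst, zt, h1, h2, e3 g hg]
  have e5 : ∏ x : Bs, tau (bst Z Bs x.1) (zt u Bs ε x.1 (t, Psi a b ε χ t ω)) =
      ∏ x, tau 2 (t x) := Finset.prod_congr rfl fun x _ => by
    simp [bst, zt, hP.sub x.2]
  have e6 : ∏ g ∈ Zᶜ, tau (bst Z Bs g) (zt u Bs ε g (t, Psi a b ε χ t ω)) =
      ∏ g ∈ Zᶜ, tau 0 (zr u g (Psi a b ε χ t ω) / ε) := Finset.prod_congr rfl fun g hg => by
    have h1 := Finset.mem_compl.1 hg
    have h2 : g ∉ Bs := fun h => h1 (hP.sub h)
    simp [bst, zt, h1, h2]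
  simp only [e2, e4, e5, e6]
  ring

theorem eventually_mul_lt (C : ℝ) {δ : ℝ} (hδ : 0 < δ) : ∀ᶠ ε in 𝓝[>] (0 : ℝ), ε * C < δ :=
  (ContinuousAt.eventually_lt (f := fun ε => ε * C) (g := fun _ => δ) (by fun_prop) (by fun_prop)
    (by simpa using hδ)).filter_mono nhdsWithin_le_nhds

theorem Ji_ne_zero (hP : Pairs u Z Bs a b) (hB : Bdd u Z) (hF : Face u Z) :
    ∀ᶠ ε in 𝓝[>] (0 : ℝ), Ji u Bs ε (bst Z Bs) ≠ 0 := by
  obtain ⟨η, L, χ, D, h⟩ := exists_chi hP hB hF
  obtain ⟨δ, hδ, hdet⟩ := exists_det_pos Bs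
  filter_upwards [self_mem_nhdsWithin, eventually_mul_lt (|L| * 2) hδ,
    eventually_mul_lt (Fintype.card Bs * (|L| * 2)) (show (0 : ℝ) < 1 / 2 by norm_num),
    eventually_mul_lt (Fintype.card Bs * tot u + 2) h.pos,
    eventually_mul_lt (Fintype.card Bs * tot u + 2) zero_lt_one] with ε hε h1 h2 h3 h4
  replace hε : 0 < ε := hε
  have hN : 0 ≤ ε * (Fintype.card Bs * tot u) := by
    have := tot_nonneg (u := u)
    positivity
  have hχ : ∀ x, Continuous (χ x) := fun x =>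
    continuous_iff_continuousAt.2 fun ω => (h.der x ω).continuousAt
  have hD := h.cont
  have hZ : ∀ g ∈ Z, bst Z Bs g ≠ 0 := fun g hg => by simp [bst, hg]
  have hsh : ∀ g t ω, ‖t‖ ≤ 1 → |zr u g (Psi a b ε χ t ω) - zr u g ω| ≤
      ε * (Fintype.card Bs * tot u) := fun g t ω ht => by
    rw [zr_Psi, add_sub_cancel_left, abs_mul, abs_of_pos hε]
    exact mul_le_mul_of_nonneg_left (h.sum_wt_le g ht ω) hε.le
  have hPsi : Continuous fun p : (Bs → ℝ) × (σ → ℝ) => Psi a b ε χ p.1 p.2 := by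
    unfold Psi
    fun_prop
  have hJac : Continuous fun p : (Bs → ℝ) × (σ → ℝ) => Jac a b ε D p.1 p.2 := by
    refine Continuous.matrix_det (continuous_const.add (continuous_matrix fun x y => ?_))
    simp only [Matrix.of_apply]
    fun_prop
  let H : (Bs → ℝ) × (σ → ℝ) → ℝ := fun p =>
    Jac a b ε D p.1 p.2 * Fi u Bs ε (bst Z Bs) (p.1, Psi a b ε χ p.1 p.2)
  have hHi : Integrable H (volume.prod volume) := by
    refine integrable_of_near hB (hJac.mul ((Fi_continuous _ _ _ _).comp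
      (continuous_fst.prodMk hPsi))) fun p hp => ?_
    obtain ⟨h5, h6⟩ := Fi_support hε hZ hP.sub (right_ne_zero_of_mul hp)
    refine ⟨h5, fun g => ?_, fun g hg => ?_⟩
    · linarith [h6.1 g, (abs_le.1 (hsh g p.1 p.2 h5)).2]
    · linarith [h6.2 g hg, (abs_le.1 (hsh g p.1 p.2 h5)).1]
  have e1 : Ji u Bs ε (bst Z Bs) = ∫ ω, ∫ t, H (t, ω) := by
    rw [← integral_prod_symm H hHi, integral_prod H hHi, Ji]
    refine (integral_prod _ (Fi_integrable hε (by linarith) hZ hP.sub hB)).trans ?_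
    refine integral_congr_ae (Eventually.of_forall fun t => ?_)
    by_cases ht : ‖t‖ ≤ 1
    · refine h.change hε h2 ht (fun ω => hdet _ fun x y => ?_) _
      have h5 : |t x| ≤ 1 := (norm_le_pi_norm t x).trans ht
      have h6 : |D x ω (dir (a y) (b y))| ≤ |L| * 2 :=
        ((D x ω).le_opNorm _).trans (mul_le_mul ((h.bdd x ω).trans (le_abs_self L))
          (norm_dir_le _ _) (norm_nonneg _) (abs_nonneg _))
      rw [abs_mul, abs_mul, abs_of_pos hε]
      exact ((mul_le_of_le_one_left (by positivity) h5).trans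
        (mul_le_mul_of_nonneg_left h6 hε.le)).trans_lt h1
    · have : ∀ ω, Fi u Bs ε (bst Z Bs) (t, ω) = 0 := fun ω => by
        by_contra h'
        exact ht (Fi_support hε hZ hP.sub h').1
      simp [H, this]
  let W : (σ → ℝ) → ℝ := fun ω => ∏ g ∈ Z, tau 1 (zr u g ω / ε)
  let Φ : (σ → ℝ) → (Bs → ℝ) → ℝ := fun ω t =>
    (∏ g ∈ Zᶜ, tau 0 (zr u g (Psi a b ε χ t ω) / ε)) * Jac a b ε D t ω
  let M : (σ → ℝ) → Matrix Bs Bs ℝ := fun ω => Matrix.of fun x y => D x ω (dir (a y) (b y))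
  have e2 : ∀ ω, ∫ t, H (t, ω) = W ω * ∫ t, (∏ x, tau 2 (t x)) * Φ ω t := by
    intro ω
    rw [← integral_const_mul]
    refine integral_congr_ae (Eventually.of_forall fun t => ?_)
    simp only [H, W, Φ, Fi_Psi hP hε]
    ring
  have hone : ∀ g t ω, ‖t‖ ≤ 1 → η < zr u g ω → tau 0 (zr u g (Psi a b ε χ t ω) / ε) = 1 :=
    fun g t ω ht hg => tau_zero_eq_one <| by
      rw [le_div_iff₀ hε]
      linarith [(abs_le.1 (hsh g t ω ht)).1]
  have e3 : ∀ ω, (∀ g, g ∉ Z → η < zr u g ω) → ∫ t, (∏ x, tau 2 (t x)) * Φ ω t =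
      (-1) ^ Fintype.card Bs * (ε ^ Fintype.card Bs * (M ω).det) := by
    intro ω hω
    rw [← Matrix.det_smul, ← integral_det]
    refine integral_congr_ae (Eventually.of_forall fun t => ?_)
    by_cases h' : ∏ y, tau 2 (t y) = 0
    · simp only [h', zero_mul]
    · have ht := norm_le_of_prod_ne (l := fun _ => 2) (fun _ => two_ne_zero) h'
      simp only [Φ]
      rw [Finset.prod_eq_one fun g hg => hone g t ω ht (hω g (Finset.mem_compl.1 hg)), one_mul]
      rfl
  have e4 : ∀ ω, W ω ≠ 0 → (∃ g, g ∉ Z ∧ zr u g ω ≤ η) →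
      ∫ t, (∏ x, tau 2 (t x)) * Φ ω t = 0 := by
    intro ω hW hω
    have h5 : ∀ g ∈ Z, |zr u g ω| ≤ η := fun g hg => by
      have := abs_le_of_tau_ne one_ne_zero (Finset.prod_ne_zero_iff.1 hW g hg)
      rw [abs_div, abs_of_pos hε, div_le_one hε] at this
      linarith
    by_cases h6 : ∀ g, -η ≤ zr u g ω
    · obtain ⟨x, h7, h8⟩ := h.lab ω ⟨h6, fun g hg => (abs_le.1 (h5 g hg)).2⟩ hω
      refine integral_indep ?_ x fun t ht => ?_
      · have h9 : Continuous fun t => Psi a b ε χ t ω := hPsi.comp (Continuous.prodMk_left ω)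
        exact Continuous.mul (by fun_prop) (hJac.comp (Continuous.prodMk_left ω))
      have ht' : ‖Function.update t x 0‖ ≤ 1 := (pi_norm_le_iff_of_nonneg zero_le_one).2 fun y => by
        by_cases e : y = x
        · simp [e]
        · simpa [e] using (norm_le_pi_norm t y).trans ht
      simp only [Φ]
      congr 1
      · refine Finset.prod_congr rfl fun g hg => ?_
        rcases lt_or_ge η (zr u g ω) with h9 | h9
        · rw [hone g _ ω ht h9, hone g _ ω ht' h9]
        · have h10 : wt u a b χ g x ω = 0 := by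
            rcases h8 with h8 | h8 <;> simp [wt, h8.1, h8.2 g (Finset.mem_compl.1 hg) h9]
          rw [zr_Psi, zr_Psi]
          congr 4
          refine Finset.sum_congr rfl fun y _ => ?_
          by_cases e : y = x <;> simp [e, h10]
      · unfold Jac
        congr 3
        ext y y'
        by_cases e : y = x <;> simp [e, h7]
    · push Not at h6
      obtain ⟨g, hg⟩ := h6
      have hgZ : g ∉ Z := fun h' => by linarith [(abs_le.1 (h5 g h')).1]
      refine integral_eq_zero_of_ae (Eventually.of_forall fun t => ?_)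
      by_cases h' : ∏ y, tau 2 (t y) = 0
      · simp only [h', zero_mul, Pi.zero_apply]
      · have ht := norm_le_of_prod_ne (l := fun _ => 2) (fun _ => two_ne_zero) h'
        have : tau 0 (zr u g (Psi a b ε χ t ω) / ε) = 0 := tau_zero_eq_zero <| by
          rw [div_le_iff₀ hε]
          linarith [(abs_le.1 (hsh g t ω ht)).2]
        simp only [Φ]
        rw [Finset.prod_eq_zero (Finset.mem_compl.2 hgZ) this]
        simp
  have hW : ∀ ω, 0 ≤ W ω := fun ω => Finset.prod_nonneg fun _ _ => tau_one_nonneg _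
  have e5 : ∀ ω, (∀ g, g ∉ Z → η < zr u g ω) → (-1) ^ Fintype.card Bs * ∫ t, H (t, ω) =
      W ω * (ε ^ Fintype.card Bs * (M ω).det) := by
    intro ω hω
    rw [e2, e3 ω hω, mul_left_comm, ← mul_assoc ((-1 : ℝ) ^ _), ← mul_pow]
    simp
  have hpos : 0 < ∫ ω, (-1) ^ Fintype.card Bs * ∫ t, H (t, ω) := by
    rw [integral_pos_iff_support_of_nonneg _ (hHi.integral_prod_right.const_mul _)]
    · obtain ⟨ω₀, h5, h6, h7⟩ := h.ex
      have hM : Continuous fun ω => (M ω).det :=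
        Continuous.matrix_det (continuous_matrix fun x y => by
          simp only [M, Matrix.of_apply]
          fun_prop)
      have h8 : ∀ᶠ ω in 𝓝 ω₀, 0 < W ω * (ε ^ Fintype.card Bs * (M ω).det) := by
        refine ContinuousAt.eventually_lt continuousAt_const (by fun_prop)
          (mul_pos (Finset.prod_pos fun g hg => ?_) (mul_pos (by positivity) h7))
        simpa [h5.eq_zero hg] using tau_one_pos
      have h9 : ∀ᶠ ω in 𝓝 ω₀, ∀ g, g ∉ Z → η < zr u g ω :=
        eventually_all.2 fun g => eventually_all.2 fun hg =>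
          ContinuousAt.eventually_lt continuousAt_const (by fun_prop) (h6 g hg)
      refine Measure.measure_pos_of_mem_nhds _ (x := ω₀) ?_
      filter_upwards [h8, h9] with ω h8 h9
      rw [Function.mem_support, e5 ω h9]
      exact h8.ne'
    · intro ω
      by_cases hω : ∀ g, g ∉ Z → η < zr u g ω
      · simp only [Pi.zero_apply, e5 ω hω]
        exact mul_nonneg (hW ω) (mul_nonneg (by positivity) (h.det ω))
      · push Not at hω
        by_cases h0 : W ω = 0
        · simp [e2, h0]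
        · simp only [e2, e4 ω h0 hω, mul_zero, Pi.zero_apply, le_refl]
  intro h0
  rw [integral_const_mul, ← e1, h0, mul_zero] at hpos
  exact lt_irrefl _ hpos

end

end Pool.Agent.P.MP_b91a16_ag
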