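import Pool.Agent.P.MP_b91a16_ag.Reidx

/-! The strong motivic monodromy conjecture for simplicial nondegenerate polynomials. -/

set_option linter.unusedSectionVars false

open MvPolynomial

namespace Pool.Agent.P.MP_b91a16_ag

noncomputable section

namespace RA

variable {k σ ι : Type} [Field k] [CharZero k] [Fintype σ] [DecidableEq σ] [Fintype ι]
  [DecidableEq ι]

/-- The polyhedron spanned by the exponents indexed by `U`. -/
def Pe (v : ι → σ → ℝ) (U : Finset ι) : Set (σ → ℝ) :=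
  {x | ∃ κ : ι → ℝ, (∀ i, 0 ≤ κ i) ∧ (∀ i ∉ U, κ i = 0) ∧ ∑ i, κ i = 1 ∧ ∑ i, κ i • v i ≤ x}

variable {v : ι → σ → ℝ} {U : Finset ι}

theorem convex_Pe : Convex ℝ (Pe v U) := by
  rintro x ⟨κ, h1, h2, h3, h4⟩ y ⟨κ', h5, h6, h7, h8⟩ s t hs ht hst
  refine ⟨s • κ + t • κ', fun i => add_nonneg (mul_nonneg hs (h1 i)) (mul_nonneg ht (h5 i)),
    fun i hi => by simp [h2 i hi, h6 i hi], by
      simp [Finset.sum_add_distrib, ← Finset.mul_sum, h3, h7, hst], ?_⟩
  simpa [add_smul, Finset.sum_add_distrib, mul_smul, ← Finset.smul_sum] using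
    add_le_add (smul_le_smul_of_nonneg_left h4 hs) (smul_le_smul_of_nonneg_left h8 ht)

theorem self_mem_Pe {i : ι} (hi : i ∈ U) : v i ∈ Pe v U :=
  ⟨Pi.single i 1, fun i' => by rw [Pi.single_apply]; positivity,
    fun _ h => Pi.single_eq_of_ne (ne_of_mem_of_not_mem hi h).symm _, by simp,
    by simp [Pi.single_apply]⟩

theorem exists_vertices (v : ι → σ → ℝ) : ∃ U : Finset ι, (∀ i, v i ∈ Pe v U) ∧
    ∀ i ∈ U, v i ∈ (convexHull ℝ {x | ∃ i, v i ≤ x}).extremePoints ℝ := by
  classical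
  obtain ⟨U, h1, h2⟩ := Finset.exists_min_image (Finset.univ.filter fun U => ∀ i, v i ∈ Pe v U)
    Finset.card ⟨Finset.univ, by simp [self_mem_Pe]⟩
  replace h1 := (Finset.mem_filter.1 h1).2
  have h3 : convexHull ℝ {x | ∃ i, v i ≤ x} ⊆ Pe v U := convexHull_min (fun x ⟨i, hi⟩ =>
    (h1 i).imp fun _ h => ⟨h.1, h.2.1, h.2.2.1, h.2.2.2.trans hi⟩) convex_Pe
  have key : ∀ i ∈ U, ∀ κ : ι → ℝ, (∀ i, 0 ≤ κ i) → (∀ i ∉ U, κ i = 0) → ∑ i, κ i = 1 →
      ∑ i, κ i • v i ≤ v i → 1 ≤ κ i := by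
    intro i hi κ h4 h5 h6 h7
    by_contra h8
    have h9 : 0 < 1 - κ i := sub_pos.2 (not_le.1 h8)
    have h10 : v i ∈ Pe v (U.erase i) := by
      refine ⟨(1 - κ i)⁻¹ • (κ - Pi.single i (κ i)), fun i' => mul_nonneg (inv_nonneg.2 h9.le) ?_,
        fun i' hi' => ?_, by simp [← Finset.mul_sum, h6, h9.ne'], ?_⟩
      · by_cases e : i' = i <;> simp [e, h4]
      · by_cases e : i' = i
        · simp [e]
        · simp [e, h5 i' fun h => hi' (Finset.mem_erase.2 ⟨e, h⟩)]
      · simp only [Pi.smul_apply, smul_eq_mul, mul_smul, ← Finset.smul_sum, Pi.sub_apply, sub_smul,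
          Finset.sum_sub_distrib]
        rw [inv_smul_le_iff_of_pos h9]
        simpa [Pi.single_apply, sub_smul] using h7
    refine (h2 (U.erase i) (Finset.mem_filter.2 ⟨Finset.mem_univ _, fun i' => ?_⟩)).not_gt
      (Finset.card_erase_lt_of_mem hi)
    obtain ⟨μ, e1, e2, e3, e4⟩ := h1 i'
    have : ∑ i ∈ U, μ i • v i ∈ Pe v (U.erase i) := convex_Pe.sum_mem (fun i _ => e1 i)
      (by rwa [Finset.sum_subset (Finset.subset_univ U) fun i _ => e2 i]) fun i' hi' => by
        by_cases e : i' = i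
        exacts [e ▸ h10, self_mem_Pe (Finset.mem_erase.2 ⟨e, hi'⟩)]
    rw [Finset.sum_subset (Finset.subset_univ U) fun i _ h => by simp [e2 i h]] at this
    exact this.imp fun _ h => ⟨h.1, h.2.1, h.2.2.1, h.2.2.2.trans e4⟩
  refine ⟨U, h1, fun i hi => mem_extremePoints_iff_left.2 ⟨subset_convexHull ℝ _ ⟨i, le_rfl⟩, ?_⟩⟩
  rintro x hx y hy ⟨s, t, hs, ht, hst, e⟩
  obtain ⟨κ, h4, h5, h6, h7⟩ := h3 hx
  obtain ⟨κ', h8, h9, h10, h11⟩ := h3 hy
  have h12 := key i hi (s • κ + t • κ')
    (fun i => add_nonneg (mul_nonneg hs.le (h4 i)) (mul_nonneg ht.le (h8 i)))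
    (fun i hi => by simp [h5 i hi, h9 i hi])
    (by simp [Finset.sum_add_distrib, ← Finset.mul_sum, h6, h10, hst]) (by
      simpa [add_smul, Finset.sum_add_distrib, mul_smul, ← Finset.smul_sum, e] using add_le_add
        (smul_le_smul_of_nonneg_left h7 hs.le) (smul_le_smul_of_nonneg_left h11 ht.le))
  have hle : ∀ κ : ι → ℝ, (∀ i, 0 ≤ κ i) → ∑ i, κ i = 1 → κ i ≤ 1 ∧
      (1 ≤ κ i → ∑ i, κ i • v i = v i) := fun κ h h' => by
    have h1 := h' ▸ Finset.single_le_sum (fun i _ => h i) (Finset.mem_univ i)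
    refine ⟨h1, fun h2 => ?_⟩
    rw [← Finset.add_sum_erase _ _ (Finset.mem_univ i)] at h' ⊢
    have h3 := Finset.sum_nonneg (s := Finset.univ.erase i) fun i _ => h i
    rw [Finset.sum_eq_zero fun i' hi' => by
      rw [(Finset.sum_eq_zero_iff_of_nonneg fun i _ => h i).1 (by linarith) i' hi', zero_smul],
      le_antisymm h1 h2, one_smul, add_zero]
  simp only [Pi.add_apply, Pi.smul_apply, smul_eq_mul] at h12
  have h13 := (hle κ h4 h6).1
  have h14 := (hle κ' h8 h10).1
  rw [(hle κ h4 h6).2 (by nlinarith)] at h7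
  rw [(hle κ' h8 h10).2 (by nlinarith)] at h11
  funext j
  have := congrFun e j
  simp only [Pi.add_apply, Pi.smul_apply, smul_eq_mul] at this
  have h15 : v i j ≤ x j := h7 j
  have h16 : v i j ≤ y j := h11 j
  have h17 : (s + t) * v i j = v i j := by rw [hst, one_mul]
  nlinarith

theorem main {n : ℕ} (f : MvPolynomial (Fin n) k) (hf : f ≠ 0) (h0 : constantCoeff f = 0)
    (hN : Nondeg f) (hS : Simplicial f) :
    ∃ S : Finset (ℕ × ℕ), zeta f ∈ poleRing k S ∧ ∀ p ∈ S, 0 < p.1 ∧ 0 < p.2 ∧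
      ∀ b, LocalBernsteinEq f b → b.eval (-(p.1 : k) / p.2) = 0 := by
  classical
  let u : f.support → Fin n → ℕ := fun v j => v.1 j
  let a : f.support → k := fun v => coeff v.1 f
  have em : ∀ (v : f.support) (c : k), C c * ∏ j, X j ^ u v j = monomial v.1 c := fun v c => by
    rw [monomial_eq, Finsupp.prod_fintype _ _ fun _ => pow_zero _]
  have e : fpoly u a = f := by
    conv_rhs => rw [f.as_sum, ← Finset.sum_coe_sort]
    exact Finset.sum_congr rfl fun v _ => em v _
  have : Nonempty f.support := (support_nonempty.2 hf).to_subtype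
  have ha : ∀ v, a v ≠ 0 := fun v => mem_support_iff.1 v.2
  have hu : Function.Injective u := fun v v' h => Subtype.ext (Finsupp.ext (congrFun h))
  have hu0 : ∀ v, ∃ j, u v j ≠ 0 := fun v => by
    by_contra h'
    push Not at h'
    have : v.1 = 0 := Finsupp.ext h'
    exact ha v (by simp only [a, this]; exact h0)
  have ez : ∀ ω v, zr u (Sum.inr v) ω = pairing ω v.1 - 1 := fun ω v => by
    simp [zr_inr, pairing, u, mul_comm]
  have hP : NDP u a := by
    intro ω I h1 h2 h3 ⟨i, h4⟩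
    have h5 : ∀ l, EU u a I l = X l * pderiv l (facePoly f ω) := fun l => by
      rw [facePoly, Finset.sum_filter, ← Finset.sum_coe_sort, map_sum, Finset.mul_sum, EU,
        ← Finset.univ_inter I, ← Finset.sum_ite_mem]
      refine Finset.sum_congr rfl fun v _ => ?_
      rw [apply_ite (pderiv l), mul_ite, map_zero, mul_zero, X_mul_pderiv_monomial, em, smul_monomial]
      exact if_congr (by rw [h3, ez, sub_eq_zero]) (by simp [u, a, mul_comm]) rfl
    obtain ⟨r, hr⟩ : ∏ j, X j ∈ (Ideal.span (Set.range (EU u a I))).radical := by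
      rw [← vanishingIdeal_zeroLocus_eq_radical (K := AlgebraicClosure k)]
      intro x hx
      by_contra h6
      have h7 : ∀ j, x j ≠ 0 := by simpa [Finset.prod_eq_zero_iff] using h6
      obtain ⟨j, hj⟩ := hN ω (fun j => (h2 j).symm.lt_of_le (zr_inl u j ω ▸ h1 _))
        (fun v hv => by simpa [ez] using h1 (Sum.inr ⟨v, hv⟩))
        ⟨i, i.2, by simpa [ez, sub_eq_zero] using (h3 i).1 h4⟩ x h7
      exact hj (by simpa [h5, h7] using hx _ (Ideal.subset_span ⟨j, rfl⟩))
    exact ⟨r, Ideal.mem_span_range_iff_exists_fun.1 hr⟩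
  obtain ⟨U, h1, h2⟩ := exists_vertices fun v j => (u v j : ℝ)
  let V : Finset (Fin n ⊕ f.support) := Finset.univ.disjSum U
  have hG : Geo u V :=
    { inl := fun j => by simp [V]
      s1 := fun i => by
        obtain ⟨κ, h3, h4, h5, h6⟩ := h1 i
        refine ⟨Sum.elim 0 κ, (fun j => (u i j : ℝ)) - ∑ i, κ i • fun j => (u i j : ℝ),
          ⟨by rintro (j | i) <;> simp [h3], by
            rintro (j | i)
            exacts [by simp, by simpa [V] using h4 i]⟩,
          fun j => sub_nonneg.2 (h6 j), Prod.ext (funext fun o => ?_) (funext fun j => ?_)⟩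
        · cases o <;> simp [rc, sh, WW, ev, hat, nn, h5, -Finset.univ_eq_attach]
        · simp [rc, sh, WW, ev]
      s2 := fun ω h3 c h4 h5 => by
        have e1 : ∀ j, (fun j' => (nn u (Sum.inl j) j' : ℝ)) = Pi.single j 1 := fun j => by
          ext j'
          simp [nn, Pi.single_apply]
        have h6 := ((hS ω (fun j => zr_inl u j ω ▸ h3 _) fun v hv => by
          simpa [ez] using h3 (Sum.inr ⟨v, hv⟩)).mono ?_).comp_of_image
          (s := {g | g ∈ V ∧ zr u g ω = 0}) (f := fun g j => (nn u g j : ℝ)) ?_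
        · have := linearIndepOn_iff.1 h6 (Finsupp.equivFunOnFinite.symm c)
            (fun g hg => h4 g (by simpa using hg)) (by
              rw [Finsupp.linearCombination_apply, Finsupp.sum_fintype _ _ (by simp)]
              exact funext fun j => by simpa using h5 j)
          exact funext fun g => by simpa using DFunLike.congr_fun this g
        · rintro _ ⟨j | i, ⟨h6, h7⟩, rfl⟩
          · exact Or.inr ⟨j, zr_inl u j ω ▸ h7, e1 j⟩
          · refine Or.inl ⟨?_, by simpa [zr_inr, sub_eq_zero, mul_comm, nn] using h7⟩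
            convert h2 i (by simpa [V] using h6) using 3
            · simp [newton, u, Pi.le_def]
            · rfl
        · have e2 : ∀ j i, zr u (Sum.inl j) ω = 0 → zr u (Sum.inr i) ω = 0 →
              (fun j' => (nn u (Sum.inl j) j' : ℝ)) ≠ fun j' => (nn u (Sum.inr i) j' : ℝ) := by
            intro j i h6 h7 h8
            simp only [zr, lin_apply, fun j' => congrFun h8 j', Sum.elim_inl, Sum.elim_inr] at h6 h7
            linarith
          rintro (j | i) h6 (j' | i') h7 h8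
          · simpa [nn] using congrFun h8 j
          · exact absurd h8 (e2 _ _ h6.2 h7.2)
          · exact absurd h8.symm (e2 _ _ h7.2 h6.2)
          · exact congrArg _ (hu (funext fun j => by simpa [nn] using congrFun h8 j)) }
  let c := Function.Embedding.subtype fun i => ∃ κ, Rp u V 0 (sh u (Sum.inr i)) κ 0
  have hc : ∀ i, (∃ i', c i' = i) ↔ ∃ κ, Rp u V 0 (sh u (Sum.inr i)) κ 0 := fun i => by simp [c]
  obtain ⟨S, h3, h4⟩ := zeta_mem' (fun i => u (c i)) (fun i => a (c i)) (fun i => ha _)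
    (Z := zeta (fpoly u a)) (fun m => (coeff_zeta u a hu0 (hP.ndi hu0) m).trans
      (rhs_eq c (fun w N h i => (hG.oo_le (fun i hi => h ⟨i, _, rp_sh hi⟩) i).imp_right
        fun h' h'' => (hc i).2 (h' h'')) m))
    (hG.rootHyp hP.nd hu ha (e.symm ▸ hf) c hc) ⟨one_pos, one_pos, fun b hb => by
      simpa using root_neg_one_loc (f := fpoly u a) (e.symm ▸ hf) (e.symm ▸ h0) hb⟩
    fun p hp => hp.2.1
  rw [e] at h3 h4
  exact ⟨S, h4, h3⟩

end RA

end

end Pool.Agent.P.MP_b91a16_ag
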