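import Pool.Agent.P.MP_b91a16_ag.Chi

/-! Smooth intersection numbers of the facets of the polyhedron. -/

set_option linter.unusedSectionVars false

open Filter Topology MeasureTheory

namespace Pool.Agent.P.MP_b91a16_ag

noncomputable section

variable {σ ι : Type} [Fintype σ] [DecidableEq σ] [Fintype ι] [DecidableEq ι]
variable (u : ι → σ → ℕ) (Bs : Finset (σ ⊕ ι)) (ε : ℝ)

def zt (g : σ ⊕ ι) (p : (Bs → ℝ) × (σ → ℝ)) : ℝ :=
  if h : g ∈ Bs then p.1 ⟨g, h⟩ else zr u g p.2 / ε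

def Fi (β : σ ⊕ ι → ℕ) (p : (Bs → ℝ) × (σ → ℝ)) : ℝ :=
  (∏ x : Bs, tau 1 (zr u x.1 p.2 / ε - p.1 x)) * ∏ g, tau (β g) (zt u Bs ε g p)

def Ji (β : σ ⊕ ι → ℕ) : ℝ := ∫ p, Fi u Bs ε β p

@[fun_prop] theorem zt_continuous (g : σ ⊕ ι) : Continuous (zt u Bs ε g) := by
  unfold zt
  split_ifs <;> fun_prop

@[fun_prop] theorem Fi_continuous (β : σ ⊕ ι → ℕ) : Continuous (Fi u Bs ε β) := by
  unfold Fi
  fun_prop

variable {u Bs ε}

theorem Fi_support (hε : 0 < ε) {β : σ ⊕ ι → ℕ} {Y : Finset (σ ⊕ ι)} (hY : ∀ g ∈ Y, β g ≠ 0)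
    (hB : Bs ⊆ Y) {p : (Bs → ℝ) × (σ → ℝ)} (hp : Fi u Bs ε β p ≠ 0) :
    ‖p.1‖ ≤ 1 ∧ Near u (2 * ε) Y p.2 := by
  obtain ⟨h1, h2⟩ := mul_ne_zero_iff.1 hp
  replace h1 := fun x => abs_le.1
    (abs_le_of_tau_ne one_ne_zero (Finset.prod_ne_zero_iff.1 h1 x (Finset.mem_univ _)))
  replace h2 := fun g => Finset.prod_ne_zero_iff.1 h2 g (Finset.mem_univ _)
  have h3 : ∀ x : Bs, |p.1 x| ≤ 1 := fun x => by
    simpa [zt] using abs_le_of_tau_ne (hY _ (hB x.2)) (h2 x.1)
  refine ⟨(pi_norm_le_iff_of_nonneg zero_le_one).2 h3, fun g => ?_, fun g hg => ?_⟩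
  · rw [← neg_mul, ← le_div_iff₀ hε]
    by_cases h : g ∈ Bs
    · linarith [(h1 ⟨g, h⟩).1, (abs_le.1 (h3 ⟨g, h⟩)).1]
    · have := neg_one_le_of_tau_ne _ (h2 g)
      rw [zt, dif_neg h] at this
      linarith
  · rw [← div_le_iff₀ hε]
    by_cases h : g ∈ Bs
    · linarith [(h1 ⟨g, h⟩).2, (abs_le.1 (h3 ⟨g, h⟩)).2]
    · have := (abs_le.1 (abs_le_of_tau_ne (hY g hg) (h2 g))).2
      rw [zt, dif_neg h] at this
      linarith

theorem integrable_of_near {Y : Finset (σ ⊕ ι)} (hb : Bdd u Y) {H : (Bs → ℝ) × (σ → ℝ) → ℝ}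
    (hc : Continuous H) (h : ∀ p, H p ≠ 0 → ‖p.1‖ ≤ 1 ∧ Near u 1 Y p.2) : Integrable H :=
  hc.integrable_of_hasCompactSupport (HasCompactSupport.intro
    ((isCompact_closedBall (0 : Bs → ℝ) 1).prod (hb.isCompact le_rfl)) fun p hp => by
      by_contra h'
      exact hp ⟨mem_closedBall_zero_iff.2 (h p h').1, (h p h').2⟩)

theorem Fi_integrable (hε : 0 < ε) (hε' : 2 * ε ≤ 1) {β : σ ⊕ ι → ℕ} {Y : Finset (σ ⊕ ι)}
    (hY : ∀ g ∈ Y, β g ≠ 0) (hB : Bs ⊆ Y) (hb : Bdd u Y) : Integrable (Fi u Bs ε β) :=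
  integrable_of_near hb (Fi_continuous u Bs ε β) fun _ hp =>
    ⟨(Fi_support hε hY hB hp).1, (Fi_support hε hY hB hp).2.mono hε' subset_rfl⟩

theorem Ji_rel (hε : 0 < ε) (hε' : 2 * ε ≤ 1) {β : σ ⊕ ι → ℕ} {Y : Finset (σ ⊕ ι)}
    (hY : ∀ g ∈ Y, β g ≠ 0) (hB : Bs ⊆ Y) (hb : Bdd u Y) (j : σ) :
    ∑ g, (nn u g j : ℝ) * Ji u Bs ε (β + Pi.single g 1) = 0 := by
  have hi : ∀ g, Integrable fun p => (nn u g j : ℝ) * Fi u Bs ε (β + Pi.single g 1) p := fun g =>
    (Fi_integrable hε hε' (fun g' hg' => by simp [hY g' hg']) hB hb).const_mul _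
  simp only [Ji, ← integral_const_mul]
  rw [← integral_finsetSum _ fun g _ => hi g]
  have : (volume : Measure ((Bs → ℝ) × (σ → ℝ))).IsAddHaarMeasure :=
    Measure.prod.instIsAddHaarMeasure _ _
  let v : (Bs → ℝ) × (σ → ℝ) := (fun x => nn u x.1 j, Pi.single j ε)
  refine integral_eq_zero_of_hasLineDerivAt (v := v)
    (Fi_integrable hε hε' hY hB hb) (integrable_finsetSum _ fun g _ => hi g) fun p => ?_
  have e1 : ∀ (s : ℝ) g, zr u g (p.2 + s • Pi.single j ε) / ε = zr u g p.2 / ε + s * nn u g j := by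
    intro s g
    rw [zr_add, map_smul, lin_single, smul_eq_mul]
    field_simp
  have e2 : ∀ (s : ℝ) g, zt u Bs ε g (p + s • v) =
      zt u Bs ε g p + s * nn u g j := by
    intro s g
    unfold zt
    split_ifs
    · simp [v]
    · simp [v, e1]
  have e3 : ∀ s : ℝ, Fi u Bs ε β (p + s • v) =
      (∏ x : Bs, tau 1 (zr u x.1 p.2 / ε - p.1 x)) *
        ∏ g, tau (β g) (zt u Bs ε g p + s * nn u g j) := by
    intro s
    simp only [Fi, e2]
    simp [v, e1]
  unfold HasLineDerivAt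
  simp only [e3]
  refine ((HasDerivAt.fun_finsetProd (u := Finset.univ) fun g _ =>
    (tau_hasDerivAt (β g) _).comp (0 : ℝ)
      (((hasDerivAt_id' (0 : ℝ)).mul_const (nn u g j : ℝ)).const_add
        (zt u Bs ε g p))).const_mul _).congr_deriv ?_
  rw [Finset.mul_sum]
  refine Finset.sum_congr rfl fun g _ => ?_
  rw [Fi, ← Finset.mul_prod_erase _ _ (Finset.mem_univ g)]
  have : ∏ g' ∈ Finset.univ.erase g, tau ((β + Pi.single g 1 : σ ⊕ ι → ℕ) g') (zt u Bs ε g' p) =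
      ∏ g' ∈ Finset.univ.erase g, tau (β g') (zt u Bs ε g' p) :=
    Finset.prod_congr rfl fun g' hg' => by simp [Finset.ne_of_mem_erase hg']
  rw [this]
  simp only [Pi.add_apply, Pi.single_eq_same, Function.comp_apply, zero_mul, add_zero, one_mul,
    smul_eq_mul]
  ring

theorem integral_det {B : Type} [Fintype B] [DecidableEq B] (N : Matrix B B ℝ) :
    ∫ t : B → ℝ, (∏ x, tau 2 (t x)) * (1 + Matrix.of fun x y => t x * N x y).det =
      (-1) ^ Fintype.card B * N.det := by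
  have e : ∀ t : B → ℝ, (∏ x, tau 2 (t x)) * (1 + Matrix.of fun x y => t x * N x y).det =
      ∑ π : Equiv.Perm B, (Equiv.Perm.sign π : ℤ) *
        ∏ x, ((1 : Matrix B B ℝ) x (π x) * tau 2 (t x) + N x (π x) * (t x * tau 2 (t x))) := by
    intro t
    rw [← Matrix.det_transpose, Matrix.det_apply', Finset.mul_sum]
    refine Finset.sum_congr rfl fun π _ => ?_
    rw [mul_left_comm, ← Finset.prod_mul_distrib]
    congr 1
    refine Finset.prod_congr rfl fun x _ => ?_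
    simp only [Matrix.transpose_apply, Matrix.add_apply, Matrix.of_apply]
    ring
  have hi : ∀ c d : ℝ, Integrable fun s => c * tau 2 s + d * (s * tau 2 s) := fun c d =>
    ((tau_integrable 1).const_mul c).add ((integrable_mul_tau 1).const_mul d)
  simp only [e]
  rw [integral_finsetSum _ fun π _ => (Integrable.fintype_prod
    (f := fun x s => (1 : Matrix B B ℝ) x (π x) * tau 2 s + N x (π x) * (s * tau 2 s))
    fun x => hi _ _).const_mul _, ← Matrix.det_transpose, Matrix.det_apply', Finset.mul_sum]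
  refine Finset.sum_congr rfl fun π _ => ?_
  rw [integral_const_mul, integral_fintype_prod_volume_eq_prod
    (fun x s => (1 : Matrix B B ℝ) x (π x) * tau 2 s + N x (π x) * (s * tau 2 s)), mul_left_comm]
  congr 1
  rw [← Finset.card_univ, ← Finset.prod_const, ← Finset.prod_mul_distrib]
  refine Finset.prod_congr rfl fun x _ => ?_
  rw [integral_add ((tau_integrable 1).const_mul _) ((integrable_mul_tau 1).const_mul _),
    integral_const_mul, integral_const_mul, integral_tau_two, integral_mul_tau_two]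
  simp

theorem norm_le_of_prod_ne {B : Type} [Fintype B] {l : B → ℕ} (hl : ∀ x, l x ≠ 0) {t : B → ℝ}
    (h : ∏ x, tau (l x) (t x) ≠ 0) : ‖t‖ ≤ 1 :=
  (pi_norm_le_iff_of_nonneg zero_le_one).2 fun x =>
    abs_le_of_tau_ne (hl x) (Finset.prod_ne_zero_iff.1 h x (Finset.mem_univ _))

theorem integral_indep {B : Type} [Fintype B] [DecidableEq B] {Φ : (B → ℝ) → ℝ}
    (hc : Continuous Φ) (x : B) (h : ∀ t, ‖t‖ ≤ 1 → Φ t = Φ (Function.update t x 0)) :
    ∫ t : B → ℝ, (∏ y, tau 2 (t y)) * Φ t = 0 := by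
  have hi : ∀ l : B → ℕ, (∀ y, l y ≠ 0) →
      Integrable fun t : B → ℝ => (∏ y, tau (l y) (t y)) * Φ (Function.update t x 0) := by
    intro l hl
    refine Continuous.integrable_of_hasCompactSupport (by fun_prop) (HasCompactSupport.intro
      (isCompact_closedBall (0 : B → ℝ) 1) fun t ht => ?_)
    by_contra h'
    exact ht (mem_closedBall_zero_iff.2 (norm_le_of_prod_ne hl (left_ne_zero_of_mul h')))
  have e : ∀ t : B → ℝ, (∏ y, tau 2 (t y)) * Φ t =
      (∏ y, tau 2 (t y)) * Φ (Function.update t x 0) := by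
    intro t
    by_cases h' : ∏ y, tau 2 (t y) = 0
    · simp [h']
    · rw [← h t (norm_le_of_prod_ne (l := fun _ => 2) (fun _ => two_ne_zero) h')]
  simp only [e]
  refine integral_eq_zero_of_hasLineDerivAt (v := Pi.single x 1)
    (hi (Function.update (fun _ => 2) x 1) fun y => ?_) (hi (fun _ => 2) fun _ => two_ne_zero)
    fun t => ?_
  · by_cases h : y = x <;> simp [h]
  have e1 : ∀ s : ℝ, (∏ y, tau (Function.update (fun _ => 2) x 1 y)
      ((t + s • Pi.single x 1 : B → ℝ) y)) * Φ (Function.update (t + s • Pi.single x 1) x 0) =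
      tau 1 (t x + s) * ((∏ y ∈ Finset.univ.erase x, tau 2 (t y)) *
        Φ (Function.update t x 0)) := by
    intro s
    rw [← Finset.mul_prod_erase _ _ (Finset.mem_univ x), mul_assoc]
    congr 2
    · simp
    · simp
    · exact Finset.prod_congr rfl fun y hy => by simp [Finset.ne_of_mem_erase hy]
    · congr 1
      ext y
      by_cases h : y = x <;> simp [h]
  unfold HasLineDerivAt
  simp only [e1]
  refine (((tau_hasDerivAt 1 _).comp (0 : ℝ)
    ((hasDerivAt_id' (0 : ℝ)).const_add (t x))).mul_const _).congr_deriv ?_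
  rw [← Finset.mul_prod_erase _ _ (Finset.mem_univ x)]
  simp [mul_assoc]

theorem det_id_add {B : Type} [Fintype B] [DecidableEq B] (E : B → (σ → ℝ) →L[ℝ] ℝ)
    (v : B → σ → ℝ) :
    (ContinuousLinearMap.id ℝ (σ → ℝ) + ∑ x, (E x).smulRight (v x)).det =
      (1 + Matrix.of fun x y => E x (v y)).det := by
  let P : Matrix σ B ℝ := Matrix.of fun j x => v x j
  let Q : Matrix B σ ℝ := Matrix.of fun x j => E x (Pi.single j 1)
  have e1 : LinearMap.toMatrix' ((ContinuousLinearMap.id ℝ (σ → ℝ) +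
      ∑ x, (E x).smulRight (v x) : (σ → ℝ) →L[ℝ] (σ → ℝ)) : (σ → ℝ) →ₗ[ℝ] (σ → ℝ)) =
      1 + P * Q := by
    ext j j'
    simp [P, Q, Matrix.mul_apply, Matrix.one_apply, Pi.single_apply, mul_comm]
  have e2 : Q * P = Matrix.of fun x y => E x (v y) := by
    ext x y
    simp only [P, Q, Matrix.mul_apply, Matrix.of_apply]
    conv_rhs => rw [← Finset.univ_sum_single (v y), map_sum]
    refine Finset.sum_congr rfl fun j _ => ?_
    rw [mul_comm, ← smul_eq_mul, ← map_smul, ← Pi.single_smul', smul_eq_mul, mul_one]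
  rw [ContinuousLinearMap.det, ← LinearMap.det_toMatrix', e1, Matrix.det_one_add_mul_comm, e2]

theorem exists_det_pos (B : Type) [Fintype B] [DecidableEq B] :
    ∃ δ : ℝ, 0 < δ ∧ ∀ N : B → B → ℝ, (∀ x y, |N x y| < δ) → 0 < (1 + Matrix.of N).det := by
  have h : ∀ᶠ N : B → B → ℝ in 𝓝 0, 0 < (1 + Matrix.of N).det :=
    ContinuousAt.eventually_lt continuousAt_const
      (Continuous.matrix_det (continuous_const.add continuous_id)).continuousAt (by simp)
  obtain ⟨δ, h1, h2⟩ := Metric.eventually_nhds_iff.1 h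
  refine ⟨δ, h1, fun N hN => h2 ?_⟩
  rw [dist_zero_right, pi_norm_lt_iff h1]
  exact fun x => (pi_norm_lt_iff h1).2 (hN x)

end

end Pool.Agent.P.MP_b91a16_ag
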