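import Pool.Agent.P.MP_b91a16_ag.GKos

/-! Depth of monomial subquotients of a group algebra. -/

set_option linter.unusedSectionVars false

open Filter

namespace Pool.Agent.P.MP_b91a16_ag

noncomputable section

namespace RB

open RA Cv Kos

variable {G R γ σ : Type} [AddCommGroup G] [CommRing R] [Fintype γ] [DecidableEq γ] [DecidableEq σ]
variable (sh : γ → G) (co : γ → σ → R)

def Cd (A : Set G) : Prop := ∀ p ∈ A, ∀ g, p + sh g ∈ A

def FI (I : Finset γ) (l : σ) : AddMonoidAlgebra R G := ∑ g ∈ I, co g l • ee (sh g)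

abbrev sa (R : Type) [CommRing R] (A : Set G) : AddSubgroup (AddMonoidAlgebra R G) :=
  (sp R A).toAddSubgroup

def Dep (U : Submonoid (AddMonoidAlgebra R G)) (L : List σ) (D : Set G) (d : ℕ) : Prop :=
  ∀ A B, Cd sh A → Cd sh B → B ⊆ A → A \ B = D → ∀ i : ℤ, i < d →
    ExL U (FI sh co Finset.univ) L (sa R A) (sa R B) i

def Pres (U : Submonoid (AddMonoidAlgebra R G)) : Prop :=
  ∀ h ∈ U, ∀ A, Cd sh A → ∀ x ∈ sp R A, h * x ∈ sp R A

open Classical in
def pD (R : Type) [CommRing R] (D : Set G) : AddMonoidAlgebra R G →+ AddMonoidAlgebra R G :=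
  (diag fun p => if p ∈ D then (1 : R) else 0).toAddMonoidHom

variable {sh co} {U : Submonoid (AddMonoidAlgebra R G)} {L : List σ} {A B D D' : Set G} {d : ℕ}
  {i : ℤ}

theorem pres_bot : Pres sh (⊥ : Submonoid (AddMonoidAlgebra R G)) := fun h hh _ _ x hx => by
  rwa [Submonoid.mem_bot.1 hh, one_mul]

theorem FI_mul (I : Finset γ) (l : σ) (p : G) :
    FI sh co I l * ee p = ∑ g ∈ I, co g l • ee (p + sh g) := by
  simp only [FI, Finset.sum_mul, smul_mul_assoc, ee_mul, add_comm p]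

theorem fi_mem {I : Finset γ} (h : ∀ p ∈ A, ∀ g ∈ I, p + sh g ∈ B) (l : σ) :
    ∀ x ∈ sp R A, FI sh co I l * x ∈ sp R B := fun _ hx =>
  sp_map (LinearMap.mulLeft R (FI sh co I l)) (fun p hp => by
    rw [LinearMap.mulLeft_apply, FI_mul]
    exact sum_mem fun g hg => Submodule.smul_mem _ _ (ee_mem (h p hp g hg))) hx

theorem Cd.fi (h : Cd sh A) (I : Finset γ) (l : σ) : ∀ x ∈ sp R A, FI sh co I l * x ∈ sp R A :=
  fi_mem (fun p hp g _ => h p hp g) l

theorem Cd.sum (h : Cd sh A) (I : Finset γ) : ∀ p ∈ A, ∑ g ∈ I, sh g + p ∈ A :=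
  Finset.sum_induction _ (fun z => ∀ p ∈ A, z + p ∈ A)
    (fun x y hx hy p hp => add_assoc x y p ▸ hx _ (hy p hp)) (by simp)
    fun i _ p hp => add_comm p _ ▸ h p hp _

theorem ee_mul_mem {t : G} (h : ∀ p ∈ A, t + p ∈ B) : ∀ x ∈ sp R A, ee t * x ∈ sp R B :=
  fun _ hx => mul_mem_sp (C := {t}) (by rintro _ rfl; exact h) (ee_mem rfl) hx

theorem pD_mem (D : Set G) (x : AddMonoidAlgebra R G) : pD R D x ∈ sp R D :=
  sp_map (diag _) (fun p _ => by
    rw [diag_ee]
    split_ifs with h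
    · simpa using ee_mem h
    · simp) (mem_sp_univ x)

theorem sub_pD (h : ∀ p ∈ A, p ∉ D → p ∈ B) : ∀ x ∈ sp R A, x - pD R D x ∈ sp R B := fun _ hx =>
  sp_map (LinearMap.id - diag _) (fun p hp => by
    rw [LinearMap.sub_apply, diag_ee]
    split_ifs with h'
    · simp
    · simpa using ee_mem (h p hp h')) hx

theorem pD_zero (h : ∀ p ∈ B, p ∉ D) : ∀ x ∈ sp R B, pD R D x = 0 := fun _ hx =>
  (Submodule.mem_bot R).1 (sp_map (diag _) (fun p hp => by
    rw [diag_ee, if_neg (h p hp), zero_smul]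
    exact zero_mem _) hx)

theorem pD_mul {H : AddSubgroup G} {z : AddMonoidAlgebra R G} (hz : z ∈ sp R H)
    (x : AddMonoidAlgebra R G) : pD R H (z * x) = z * pD R H x := by
  classical
  refine diag_mul_of_sp (fun z hz p => ?_) hz x
  simp only [SetLike.mem_coe, add_mem_cancel_left hz]

theorem pj_pD (D : Set G) {c : KK (AddMonoidAlgebra R G) L} (hc : c ∈ fam (sa R A) L i) :
    pj (pD R D) L c ∈ fam (sa R D) L i := pj_mem (fun x _ => pD_mem D x) L i c hc

theorem sub_pj_pD (hD : A \ B = D) {c : KK (AddMonoidAlgebra R G) L} (hc : c ∈ fam (sa R A) L i) :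
    c - pj (pD R D) L c ∈ fam (sa R B) L i :=
  sub_pj (sub_pD fun _ hp h => by_contra fun h' => h (hD ▸ ⟨hp, h'⟩)) L i c hc

theorem pj_pD_zero (hD : A \ B = D) {c : KK (AddMonoidAlgebra R G) L}
    (hc : c ∈ fam (sa R B) L i) : pj (pD R D) L c = 0 :=
  pj_zero (pD_zero fun _ hp h => (hD ▸ h).2 hp) L i c hc

theorem dep_of_pair (hU : Pres sh U) (hA : Cd sh A) (hB : Cd sh B) (hD : A \ B = D)
    (h : ∀ i : ℤ, i < d → ExL U (FI sh co Finset.univ) L (sa R A) (sa R B) i) :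
    Dep sh co U L D d := by
  intro A' B' hA' hB' _ hD' i hi c hc hd
  have h1 : ∀ {A B : Set G}, A \ B = D → sa R D ≤ sa R A := fun h => sp_mono (h ▸ Set.sdiff_subset)
  have h2 := fam_mono (h1 hD) L i _ (pj_pD D hc)
  have h3 := pj_pD_zero hD' (fam_dd (hB'.fi (co := co) Finset.univ) L i _ (sub_pj_pD hD' hc))
  rw [map_sub, map_sub, pj_pD_zero hD' hd, zero_sub, neg_eq_zero] at h3
  obtain ⟨s, hs, c', h4, h5⟩ := h i hi _ h2 (by
    simpa [h3] using sub_pj_pD hD (fam_dd (hA.fi (co := co) Finset.univ) L i _ h2))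
  have h6 := fam_mono (h1 hD') L _ _ (pj_pD D h4)
  have h7 := fam_dd (hA'.fi (co := co) Finset.univ) L _ _ h6
  have h8 := pj_pD_zero hD (fam_dd (hB.fi (co := co) Finset.univ) L _ _ (sub_pj_pD hD h4))
  have h9 := pj_pD_zero hD' (fam_smul (hU s hs _ hB') L i _ (sub_pj_pD hD' hc))
  have h10 := pj_pD_zero hD h5
  rw [sub_add_cancel] at h7
  refine ⟨s, hs, _, h6, ?_⟩
  have := sub_pj_pD hD' (sub_mem (fam_smul (hU s hs _ hA') L i c hc) h7)
  rw [smul_sub, map_sub, sub_eq_zero] at h9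
  rw [map_sub, map_sub, sub_eq_zero] at h8
  rw [map_sub, sub_eq_zero] at h10
  rwa [map_sub, h9, ← h8, h10, sub_self, sub_zero] at this

theorem Dep.congr (h : Dep sh co U L D d) (e : ∀ p, p ∈ D' ↔ p ∈ D) : Dep sh co U L D' d :=
  (Set.ext e : D' = D) ▸ h

theorem Dep.mono {d' : ℕ} (h : Dep sh co U L D d) (e : d' ≤ d) : Dep sh co U L D d' :=
  fun A B h1 h2 h3 h4 i hi => h A B h1 h2 h3 h4 i (by omega)

theorem Dep.le {U' : Submonoid (AddMonoidAlgebra R G)} (h : Dep sh co U L D d) (e : U ≤ U') :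
    Dep sh co U' L D d := fun A B h1 h2 h3 h4 i hi c hc hd =>
  (h A B h1 h2 h3 h4 i hi c hc hd).imp fun _ h => ⟨e h.1, h.2⟩

theorem dep_zero : Dep sh co U L D 0 := fun _ _ _ _ _ _ _ hi => (ex_neg hi).exL

theorem dep_empty : Dep sh co U L ∅ d := fun A B _ _ _ h i _ c hc _ =>
  ⟨1, one_mem _, 0, zero_mem _, by
    simpa using fam_mono (sp_mono (k := R) (Set.sdiff_eq_empty.1 h)) L i c hc⟩

theorem Dep.union (hU : Pres sh U) (h : Dep sh co U L D d) (h' : Dep sh co U L D' d)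
    (h1 : ∀ p ∈ D', p ∉ D) (h2 : ∀ p ∈ D', ∀ g, p + sh g ∉ D) : Dep sh co U L (D ∪ D') d := by
  intro A B hA hB hBA hD i hi
  have h3 : ∀ p, p ∈ D ∨ p ∈ D' ↔ p ∈ A ∧ p ∉ B := fun p => (Set.ext_iff.1 hD p).symm
  have h4 : Cd sh (B ∪ D') := by
    rintro p (hp | hp) g
    · exact Or.inl (hB p hp g)
    · exact or_iff_not_imp_left.2 fun h5 =>
        ((h3 _).2 ⟨hA p ((h3 p).1 (Or.inr hp)).1 g, h5⟩).resolve_left (h2 p hp g)
  have h5 : B ∪ D' ⊆ A := Set.union_subset hBA fun p hp => ((h3 p).1 (Or.inr hp)).1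
  refine exL_trans (sp_mono (k := R) Set.subset_union_left) (sp_mono (k := R) h5)
    (fun s hs => hU s hs _ hA) (fun s hs => hU s hs _ hB)
    (h A _ hA h4 h5 (Set.ext fun p => ?_) i hi)
    (h' _ B h4 hB Set.subset_union_left (Set.ext fun p => ?_) i hi)
  · have := h3 p
    have := h1 p
    simp only [Set.mem_sdiff, Set.mem_union]
    tauto
  · have := h3 p
    simp only [Set.mem_sdiff, Set.mem_union]
    tauto

theorem dep_biUnion (hU : Pres sh U) (V : Finset ℚ) (E : ℚ → Set G)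
    (hE : ∀ v ∈ V, ∀ v' ∈ V, ∀ p ∈ E v', ∀ g, p + sh g ∈ E v → p ∈ E v)
    (h : ∀ v ∈ V, Dep sh co U L {p | p ∈ E v ∧ ∀ v' ∈ V, v' < v → p ∉ E v'} d) :
    Dep sh co U L {p | ∃ v ∈ V, p ∈ E v} d := by
  induction V using Finset.induction_on_max with
  | empty => simpa using dep_empty
  | insert v V hv ih =>
    have h1 := Finset.mem_insert_self v V
    have h2 : ∀ {v'}, v' ∈ V → v' ∈ insert v V := Finset.mem_insert_of_mem
    convert (ih (fun v hv v' hv' => hE v (h2 hv) v' (h2 hv')) fun v' hv' => by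
      convert h v' (h2 hv') using 3
      simp [(hv v' hv').not_gt]).union hU (h v h1) (fun p hp ⟨v', h3, h4⟩ =>
        hp.2 v' (h2 h3) (hv v' h3) h4) fun p hp g ⟨v', h3, h4⟩ =>
        hp.2 v' (h2 h3) (hv v' h3) (hE v' (h2 h3) v h1 p hp.1 g h4) using 1
    ext p
    simp only [Finset.mem_insert, exists_eq_or_imp, Set.mem_union, Set.mem_ofPred_eq, forall_eq_or_imp,
      lt_irrefl, false_imp_iff, true_and]
    constructor
    · rintro (h3 | h3)
      · by_cases h4 : ∃ v' ∈ V, p ∈ E v'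
        · exact Or.inl h4
        · exact Or.inr ⟨h3, fun v' h5 _ h6 => h4 ⟨v', h5, h6⟩⟩
      · exact Or.inl h3
    · rintro (h3 | h3)
      exacts [Or.inr h3, Or.inl h3.1]

theorem dep_reg {J : Finset σ} (h : ∀ L : List σ, L.toFinset = J → Dep sh co ⊥ L D J.card)
    (hA : Cd sh A) (hB : Cd sh B) (hBA : B ⊆ A) (hD : A \ B = D) {deg : G →+ ℤ}
    (h1 : ∀ l, FI sh co Finset.univ l ∈ sp R {p | deg p = 1}) {d₀ : ℤ} (h0 : ∀ p ∈ A, d₀ ≤ deg p) :
    Reg (fun l => LinearMap.mulLeft R (FI sh co Finset.univ l)) J (sp R A) (sp R B) := by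
  intro I hI b hb hbI x hx h2
  have e : ∀ L : List σ, Sm (FI sh co Finset.univ) (sa R A) L = (Im (fun l => LinearMap.mulLeft R
      (FI sh co Finset.univ l)) L.toFinset fun _ => sp R A).toAddSubgroup := by
    intro L
    induction L with
    | nil => rfl
    | cons a L ih =>
      rw [List.toFinset_cons, Im_insert, Sm, ih, Submodule.sup_toAddSubgroup]
      rfl
  have e2 : ((J \ insert b I).toList ++ b :: I.toList).toFinset = J := by
    simp only [List.toFinset_append, Finset.toList_toFinset, List.toFinset_cons]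
    exact Finset.sdiff_union_of_subset (Finset.insert_subset hb hI)
  have := regular' (F := FI sh co Finset.univ) (A := sa R A) (B := sa R B)
    (a := b) (L := I.toList) (π := fun e => (pi deg e).toAddMonoidHom) (d₀ := d₀)
    ⟨fun l => pi_mul (h1 l), fun _ _ => diag_mem _, fun _ _ => diag_mem _, pi_low h0, (gr_pi deg).fin⟩
    (hA.fi _) (hB.fi _) (J \ insert b I).toList
    (fun i hi => exL_bot.1 (h _ e2 A B hA hB hBA hD i (by
      have := Finset.card_sdiff_add_card_eq_card (Finset.insert_subset hb hI)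
      rw [Finset.card_insert_of_notMem hbI] at this
      simp only [List.length_append, Finset.length_toList, List.length_cons] at hi
      omega))) hx (by rwa [e, Finset.toList_toFinset, ← Submodule.sup_toAddSubgroup])
  rwa [e, Finset.toList_toFinset, ← Submodule.sup_toAddSubgroup] at this

theorem ex_coset {F : σ → AddMonoidAlgebra R G} {H H₀ : AddSubgroup G} (h0 : H ≤ H₀)
    (hF : ∀ l, F l ∈ sp R H) (h : Ex F L (sa R H₀) ⊥ i) (p₀ : G) :
    Ex F L (sa R {p | p - p₀ ∈ H}) ⊥ i := fun c hc hd => by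
  have h1 : (ee (-p₀) : AddMonoidAlgebra R G) • c ∈ fam (sa R H) L i :=
    fam_smul (ee_mul_mem fun p hp => by rwa [neg_add_eq_sub]) L i c hc
  obtain ⟨c', h2, h3⟩ := h _ (fam_mono (sp_mono (k := R) h0) L i _ h1) (by
    rw [map_smul, fam_bot _ _ _ hd, smul_zero]
    exact zero_mem _)
  have h4 := congrArg (pj (pD R H) L) (sub_eq_zero.1 (fam_bot _ _ _ h3))
  rw [pj_id (fun x hx => (sub_eq_zero.1 ((Submodule.mem_bot R).1 (sp_le (A := ∅) (by simp)
    (sub_pD (fun p h h' => h' h) x hx)))).symm) L i _ h1, pj_dd fun l => pD_mul (hF l)] at h4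
  refine ⟨(ee p₀ : AddMonoidAlgebra R G) • pj (pD R H) L c', fam_smul (ee_mul_mem fun p hp => by
    simpa using hp) L _ _ (pj_pD _ h2), ?_⟩
  rw [map_smul, ← h4, smul_smul, ee_mul, add_neg_cancel, ee_zero, one_smul, sub_self]
  exact zero_mem _

end RB

end

end Pool.Agent.P.MP_b91a16_ag
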