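import Pool.Agent.P.MP_b91a16_ag.GTrans

/-! The fan of the Newton polyhedron completed by virtual vertices on the coordinate axes. -/

set_option linter.unusedSectionVars false

open Filter

namespace Pool.Agent.P.MP_b91a16_ag

noncomputable section

namespace RB

open RA Cv Kos

variable {R σ ι : Type} [CommRing R] [Fintype σ] [DecidableEq σ] [Fintype ι] [DecidableEq ι]

section

variable (u : ι → σ → ℕ) (x : σ → ℚ) (Φ : Finset (Option σ → ℚ)) (v : Option σ → ℚ)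

def vx (j : σ) : Option σ → ℚ := fun o => o.elim (x j) (Pi.single j 1)

def hw : σ ⊕ ι → Option σ → ℚ := Sum.elim (vx x) (hv u)

def Cc (y : Option σ → ℚ) : Prop := ∃ (κ : ι → ℚ) (ν : Option σ → ℚ),
  (∀ i, 0 ≤ κ i) ∧ ν none ≤ 0 ∧ (∀ j, 0 ≤ ν (some j)) ∧ y = ∑ i, κ i • hv u i + ν

def ww (c : Option σ → ℚ) (p : Pt σ) : Option σ → ℚ := qv c p + ∑ j, (p.2 j : ℚ) • vx x j

def vF : Fan (Pt σ) (σ ⊕ ι) ((Option σ → ℚ) × (σ → ℚ)) (Option σ) :=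
  ⟨sh u, ((Int.castAddHom ℚ).compLeft _).prodMap ((Int.castAddHom ℚ).compLeft _),
    LinearMap.id.coprod (Fintype.linearCombination ℚ (vx x)), {z | Cc u z.1 ∧ 0 ≤ z.2}, Φ,
    fun Ψ => ∃ l ∈ Ψ, l none < 0⟩

structure Pol' : Prop where
  nn : ∀ l ∈ Φ, ∀ g, 0 ≤ l ⬝ᵥ hw u x g
  ex : ∀ j, RA.ex j ∈ Φ
  ty : ∀ l ∈ Φ, (∃ j, l = RA.ex j) ∨ (l none < 0 ∧ ∀ j, 0 < l (some j))
  gen : ∀ y : Option σ → ℚ, (∀ l ∈ Φ, 0 ≤ l ⬝ᵥ y) → ∃ (κ : σ ⊕ ι → ℚ) (ν : ℚ),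
    (∀ g, 0 ≤ κ g) ∧ 0 ≤ ν ∧ y = ∑ g, κ g • hw u x g - Pi.single none ν
  free : ∀ l ∈ Φ, l none < 0 → ∀ ζ₀ : σ → ℚ, ∃ ζ, (∀ j, l ⬝ᵥ vx x j = 0 → ζ j = ζ₀ j) ∧
    (∀ i, l ⬝ᵥ hv u i = 0 → ext0 ζ ⬝ᵥ hv u i = 0) ∧ (l ⬝ᵥ v = 0 → ext0 ζ ⬝ᵥ v = 0)

end

variable {u : ι → σ → ℕ} {x : σ → ℚ} {Φ Ψ : Finset (Option σ → ℚ)} {v c l q : Option σ → ℚ}
  {a : ι → R}

theorem vF_pi (z : (Option σ → ℚ) × (σ → ℚ)) : (vF u x Φ).π z = z.1 + ∑ j, z.2 j • vx x j := rfl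

theorem vF_ww (p : Pt σ) : (vF u x Φ).π ((c, 0) + (vF u x Φ).ρ p) = ww x c p := by
  rw [vF_pi]
  simp only [Prod.snd_add, zero_add]
  rfl

theorem vF_inl (j : σ) : (vF u x Φ).ρ ((vF u x Φ).sh (.inl j)) = (0, Pi.single j 1) :=
  Prod.ext (funext fun o => by simp [vF, sh]) (funext fun o => by simp [vF, sh, Pi.single_apply])

theorem vF_inr (i : ι) : (vF u x Φ).ρ ((vF u x Φ).sh (.inr i)) = (hv u i, 0) :=
  Prod.ext (funext fun o => by simp [vF, sh, hv]) (funext fun o => by simp [vF, sh])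

theorem vF_sh (g : σ ⊕ ι) : (vF u x Φ).π ((vF u x Φ).ρ ((vF u x Φ).sh g)) = hw u x g := by
  rcases g with j | i <;> simp [vF_inl, vF_inr, vF_pi, hw, Pi.single_apply]

theorem ww_sh (p : Pt σ) (g : σ ⊕ ι) : ww x c (p + sh u g) = ww x c p + hw u x g := by
  have := Fan.pi_sh (F := vF u x ∅) (c, 0) p g
  rwa [vF_ww, vF_ww, vF_sh] at this

theorem ww_shift (p : Pt σ) : ww x (c + v) p = ww x c p + v := by
  rw [ww, ww, qv_shift, add_right_comm]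

theorem hw_some (g : σ ⊕ ι) (j : σ) : hw u x g (some j) = nn u g j := by
  rcases g with j' | i <;> simp [hw, vx, nn, Pi.single_apply]

theorem ext0_vx (ζ : σ → ℚ) (j : σ) : ext0 ζ ⬝ᵥ vx x j = ζ j := by
  simp [dotProduct, ext0, vx, Pi.single_apply]

theorem Cc.add {q' : Option σ → ℚ} (h : Cc u q) (h' : Cc u q') : Cc u (q + q') := by
  obtain ⟨κ, ν, h1, h2, h3, rfl⟩ := h
  obtain ⟨κ', ν', h4, h5, h6, rfl⟩ := h'
  exact ⟨κ + κ', ν + ν', fun i => add_nonneg (h1 i) (h4 i), add_nonpos h2 h5,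
    fun j => add_nonneg (h3 j) (h6 j), by simp [add_smul, Finset.sum_add_distrib, add_add_add_comm]⟩

theorem cc_hv (i : ι) : Cc u (hv u i) := ⟨Pi.single i 1, 0, fun j => by
  rw [Pi.single_apply]; positivity, le_rfl, fun _ => le_rfl, by simp [Pi.single_apply]⟩

theorem Cc.sh {p : Pt σ} (h : Cc u (qv c p + v)) (g : σ ⊕ ι) : Cc u (qv c (p + sh u g) + v) := by
  rcases g with j | i
  · rwa [show qv c (p + RA.sh u (.inl j)) = qv c p from funext fun o => by simp [qv, RA.sh]]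
  · rw [qv_sh, add_right_comm]
    exact h.add (cc_hv i)

theorem Cc.nonneg (h : Cc u q) (h0 : l none ≤ 0) (h1 : ∀ j, 0 ≤ l (some j))
    (h2 : ∀ i, 0 ≤ l ⬝ᵥ hv u i) : 0 ≤ l ⬝ᵥ q := by
  obtain ⟨κ, ν, h3, h4, h5, rfl⟩ := h
  rw [dotProduct_add, dotProduct_sum, dotProduct, Fintype.sum_option]
  exact add_nonneg (Finset.sum_nonneg fun i _ => by simpa using mul_nonneg (h3 i) (h2 i))
    (add_nonneg (mul_nonneg_of_nonpos_of_nonpos h0 h4) (Finset.sum_nonneg fun j _ =>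
      mul_nonneg (h1 j) (h5 j)))

theorem Cc.some (h : Cc u q) (j : σ) : 0 ≤ q (some j) :=
  ex_dot j q ▸ h.nonneg (by simp [RA.ex]) (fun j' => by rw [RA.ex, Pi.single_apply]; positivity)
    fun i => by simp [ex_dot]

theorem Cc.kill (h : Cc u q) (hl : Val u l) (h0 : l ⬝ᵥ q = 0) :
    q ∈ Submodule.span ℚ (hv u '' {i | l ⬝ᵥ hv u i = 0}) := by
  obtain ⟨κ, ν, h3, h4, h5, rfl⟩ := h
  obtain ⟨rfl, h6⟩ := (hl.cone h3 h4 h5).2 h0
  rw [add_zero]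
  refine sum_mem fun i _ => ?_
  by_cases h : κ i = 0
  · simp [h]
  · exact Submodule.smul_mem _ _ (Submodule.subset_span ⟨i, h6 i h, rfl⟩)

theorem Cc.kill' (h : Cc u q) (hl : Val u l) (h0 : l ⬝ᵥ q = 0) {ξ : Option σ → ℚ}
    (h1 : ∀ i, l ⬝ᵥ hv u i = 0 → ξ ⬝ᵥ hv u i = 0) : ξ ⬝ᵥ q = 0 :=
  dot_span (by rintro _ ⟨i, hi, rfl⟩; exact h1 i hi) _ (h.kill hl h0)

theorem Pol'.val (hP : Pol' u x Φ v) (hl : l ∈ Φ) (h : l none < 0) : Val u l :=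
  ⟨h, ((hP.ty l hl).resolve_left (by rintro ⟨j, rfl⟩; simp [RA.ex] at h)).2,
    fun i => hP.nn l hl (.inr i)⟩

theorem Pol'.le (hP : Pol' u x Φ v) (hl : l ∈ Φ) : l none ≤ 0 ∧ ∀ j, 0 ≤ l (some j) := by
  rcases hP.ty l hl with ⟨j, rfl⟩ | h
  exacts [⟨by simp [RA.ex], fun j => by rw [RA.ex, Pi.single_apply]; positivity⟩,
    ⟨h.1.le, fun j => (h.2 j).le⟩]

theorem Pol'.cc (hP : Pol' u x Φ v) (hl : l ∈ Φ) (h : Cc u q) : 0 ≤ l ⬝ᵥ q :=
  h.nonneg (hP.le hl).1 (hP.le hl).2 fun i => hP.nn l hl (.inr i)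

theorem Pol'.ys (hP : Pol' u x Φ v) (hl : l ∈ Φ) {y : σ → ℚ} (hy : 0 ≤ y) :
    0 ≤ l ⬝ᵥ ∑ j, y j • vx x j ∧ (l ⬝ᵥ ∑ j, y j • vx x j = 0 → ∀ j, y j ≠ 0 → l ⬝ᵥ vx x j = 0) := by
  have h1 : ∀ j ∈ Finset.univ, 0 ≤ y j * l ⬝ᵥ vx x j := fun j _ =>
    mul_nonneg (hy j) (hP.nn l hl (.inl j))
  simp only [dotProduct_sum, dotProduct_smul, smul_eq_mul]
  exact ⟨Finset.sum_nonneg h1, fun h j hj => (mul_eq_zero.1
    ((Finset.sum_eq_zero_iff_of_nonneg h1).1 h j (Finset.mem_univ j))).resolve_left hj⟩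

theorem Pol'.dec (hP : Pol' u x Φ v) (hl : l ∈ Φ) {κ : σ ⊕ ι → ℚ} {ν : ℚ} (h1 : ∀ g, 0 ≤ κ g)
    (h2 : 0 ≤ ν) (h : l ⬝ᵥ (∑ g, κ g • hw u x g - Pi.single none ν) = 0) :
    l none * ν = 0 ∧ ∀ g, κ g ≠ 0 → l ⬝ᵥ hw u x g = 0 := by
  have h3 : ∀ g ∈ Finset.univ, 0 ≤ κ g * l ⬝ᵥ hw u x g := fun g _ => mul_nonneg (h1 g) (hP.nn l hl g)
  have h4 := Finset.sum_nonneg h3
  have h5 := mul_nonpos_of_nonpos_of_nonneg (hP.le hl).1 h2
  simp only [dotProduct_sub, dotProduct_sum, dotProduct_smul, smul_eq_mul, dotProduct_single] at h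
  exact ⟨by linarith, fun g hg => (mul_eq_zero.1 ((Finset.sum_eq_zero_iff_of_nonneg h3).1
    (by linarith) g (Finset.mem_univ g))).resolve_left hg⟩

theorem Pol'.uniq (hP : Pol' u x Φ v) (hl : l ∈ Φ) (h0 : l none < 0) {y : σ → ℚ}
    (h1 : ∀ l ∈ Φ, 0 ≤ l ⬝ᵥ (q + ∑ j, y j • vx x j)) (h2 : l ⬝ᵥ (q + ∑ j, y j • vx x j) = 0)
    (h3 : ∀ j, y j ≠ 0 → l ⬝ᵥ vx x j = 0) (h4 : ∀ ζ, (∀ i, l ⬝ᵥ hv u i = 0 → ext0 ζ ⬝ᵥ hv u i = 0) →
      (l ⬝ᵥ v = 0 → ext0 ζ ⬝ᵥ v = 0) → ext0 ζ ⬝ᵥ q = 0) : Cc u q ∧ 0 ≤ y := by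
  obtain ⟨κ, ν, h5, h6, h7⟩ := hP.gen _ h1
  obtain ⟨h8, h9⟩ := hP.dec hl h5 h6 (h7 ▸ h2)
  rw [(mul_eq_zero.1 h8).resolve_left h0.ne, Pi.single_zero, sub_zero, Fintype.sum_sum_type] at h7
  obtain rfl : y = fun j => κ (.inl j) := funext fun j => by
    by_cases hj : l ⬝ᵥ vx x j = 0
    swap
    · rw [by_contra (mt (h3 j) hj), by_contra (mt (h9 (.inl j)) hj)]
    obtain ⟨ζ, e1, e2, e3⟩ := hP.free l hl h0 (Pi.single j 1)
    have e4 : ∀ y : σ → ℚ, (∀ j, y j ≠ 0 → l ⬝ᵥ vx x j = 0) → ∑ j, y j * ζ j = y j := fun y hy => by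
      rw [Finset.sum_eq_single j (fun j' _ h => ?_) (by simp), e1 j hj, Pi.single_eq_same, mul_one]
      by_cases h' : y j' = 0
      · simp [h']
      · simp [e1 j' (hy j' h'), h]
    have := congrArg (ext0 ζ ⬝ᵥ ·) h7
    simp only [dotProduct_add, h4 ζ e2 e3, dotProduct_sum, dotProduct_smul, smul_eq_mul, hw,
      Sum.elim_inl, Sum.elim_inr, ext0_vx, zero_add] at this
    rwa [e4 y h3, e4 _ fun j => h9 (.inl j), Finset.sum_eq_zero fun i _ => ?_, add_zero] at this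
    by_cases h : κ (.inr i) = 0
    · simp [h]
    · simp [e2 i (h9 _ h)]
  exact ⟨⟨fun i => κ (.inr i), 0, fun i => h5 _, le_rfl, fun _ => le_rfl, by
    simpa [hw, add_comm q] using h7⟩, fun j => h5 _⟩

theorem Pol'.ok (hP : Pol' u x Φ v) : (vF u x Φ).Ok where
  add := by
    rintro z ⟨h1, h2⟩ (j | i)
    · exact vF_inl (u := u) j ▸ ⟨by simpa using h1, add_nonneg h2 (Pi.single_nonneg.2 zero_le_one)⟩
    · exact vF_inr (x := x) i ▸ ⟨h1.add (cc_hv i), by simpa using h2⟩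
  nn := fun z hz l hl => by
    rw [vF_pi, dotProduct_add]
    exact add_nonneg (hP.cc hl hz.1) (hP.ys hl hz.2).1
  nng := fun g l hl => vF_sh g ▸ hP.nn l hl g
  disc := fun c => by
    classical
    obtain ⟨D, hD, h⟩ := exists_den (Φ.image (· ⬝ᵥ (vF u x Φ).π c) ∪ ((Φ ×ˢ Finset.univ).image
      (fun y => y.1 y.2) ∪ (Φ ×ˢ Finset.univ).image fun y => y.1 ⬝ᵥ vx x y.2))
    refine ⟨D, hD, fun l hl p => ?_⟩
    obtain ⟨z, hz⟩ := h _ (Finset.mem_union_left _ (Finset.mem_image_of_mem _ hl))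
    choose z' hz' using fun o => h _ (Finset.mem_union_right _ (Finset.mem_union_left _
      (Finset.mem_image_of_mem _ (Finset.mk_mem_product hl (Finset.mem_univ o)))))
    choose z'' hz'' using fun o => h _ (Finset.mem_union_right _ (Finset.mem_union_right _
      (Finset.mem_image_of_mem _ (Finset.mk_mem_product hl (Finset.mem_univ o)))))
    refine ⟨z + (∑ o, z' o * p.1 o + ∑ j, z'' j * p.2 j), ?_⟩
    rw [map_add, dotProduct_add, vF_pi (vF u x Φ |>.ρ p), dotProduct_add, dotProduct_sum]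
    push_cast
    simp only [hz, hz', hz'', mul_add, Finset.mul_sum, mul_assoc, dotProduct_smul, smul_eq_mul,
      dotProduct.eq_1 l ((vF u x Φ).ρ p).1, mul_comm (l ⬝ᵥ vx x _)]
    rfl
  lift := by
    rintro Ψ hΨ ⟨l, h1, h2⟩ z h3 h4
    have : (∀ j, l ⬝ᵥ vx x j ≠ 0 → z.2 j = 0) ∧ ∀ ζ,
        (∀ i, l ⬝ᵥ hv u i = 0 → ext0 ζ ⬝ᵥ hv u i = 0) → ext0 ζ ⬝ᵥ z.1 = 0 := by
      clear h4
      induction h3 using Submodule.span_induction with
      | mem z hz =>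
        obtain ⟨g, hg, rfl⟩ := hz
        have := vF_sh (u := u) (x := x) (Φ := Φ) g ▸ Fan.mem_It.1 hg l h1
        rcases g with j | i
        · exact ⟨fun j' h => by simp [vF_inl, show j' ≠ j from fun e => h (e ▸ this)],
            by simp [vF_inl]⟩
        · exact ⟨by simp [vF_inr], fun ζ h => by simpa [vF_inr] using h i this⟩
      | zero => simp
      | add y z _ _ h1 h2 => exact ⟨fun j h => by simp [h1.1 j h, h2.1 j h], fun ζ h => by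
          simp [h1.2 ζ h, h2.2 ζ h]⟩
      | smul c y _ h1 => exact ⟨fun j h => by simp [h1.1 j h], fun ζ h => by simp [h1.2 ζ h]⟩
    exact hP.uniq (hΨ h1) h2 h4 (Fan.dot_Sh' h1 z h3) (fun j => not_imp_comm.1 (this.1 j))
      fun ζ h _ => this.2 ζ h
  le := by
    rintro Ψ hΨ ⟨l, h1, h2⟩ ⟨q, y⟩ ⟨h3, h4⟩ h5
    have h6 := fun l hl => (add_eq_zero_iff_of_nonneg (hP.cc (hΨ hl) h3) (hP.ys (hΨ hl) h4).1).1
      ((dotProduct_add l _ _).symm.trans (h5 l hl))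
    obtain ⟨κ, ν, e1, e2, e3, rfl⟩ := h3
    obtain ⟨rfl, -⟩ := ((hP.val (hΨ h1) h2).cone e1 e2 e3).2 (h6 l h1).1
    rw [show (∑ i, κ i • hv u i + 0, y) = ∑ g, Sum.elim y κ g • (vF u x Φ).ρ ((vF u x Φ).sh g) by
      ext <;> simp [vF_inl, vF_inr, Prod.fst_sum, Prod.snd_sum, Pi.single_apply]]
    refine sum_mem fun g _ => ?_
    by_cases h : Sum.elim y κ g = 0
    · simp [h]
    refine Submodule.smul_mem _ _ (Fan.sh_mem (Fan.mem_It.2 fun l hl => ?_))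
    rw [vF_sh]
    rcases g with j | i
    · exact (hP.ys (hΨ hl) h4).2 (h6 l hl).2 j h
    · exact (hP.dec (hΨ hl) (κ := Sum.elim 0 κ) (by simpa using e1) le_rfl (by
        simpa [hw] using (h6 l hl).1)).2 (.inr i) h
  le' := by
    rintro Ψ hΨ ⟨l, h1, h2⟩ y h3 h4
    obtain ⟨κ, ν, h5, h6, rfl⟩ := hP.gen y h3
    rw [(mul_eq_zero.1 (hP.dec (hΨ h1) h5 h6 (h4 l h1)).1).resolve_left h2.ne, Pi.single_zero,
      sub_zero]
    refine sum_mem fun g _ => ?_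
    by_cases h : κ g = 0
    · simp [h]
    exact Submodule.smul_mem _ _ ⟨_, Fan.sh_mem (Fan.mem_It.2 fun l hl =>
      vF_sh g ▸ (hP.dec (hΨ hl) h5 h6 (h4 l hl)).2 g h), vF_sh g⟩

theorem Pol'.hT (qk : ℚ →+* R) (hP : Pol' u x Φ v) (hN : ND3 u a) {L : List σ} (hΨ : Ψ ⊆ Φ)
    (h1 : ∃ l ∈ Ψ, l none < 0) (h2 : ∀ j ∉ L.toFinset, RA.ex j ∈ Ψ) (i : ℤ)
    (hi : i < Module.finrank ℚ ((vF u x Φ).Sp Ψ)) : ∃ H : AddSubgroup (Pt σ),
      (∀ p, (vF u x Φ).ρ p ∈ (vF u x Φ).Sh Ψ → p ∈ H) ∧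
        Ex (FI (sh u) (coR u a) ((vF u x Φ).It Ψ)) L (sa R H) ⊥ i := by
  classical
  obtain ⟨l, h1, h3⟩ := h1
  have h4 : ∀ g, g ∈ (vF u x Φ).It Ψ ↔ ∀ l ∈ Ψ, l ⬝ᵥ hw u x g = 0 := fun g => by
    simp only [Fan.mem_It, vF_sh]
  have h5 : ∀ g ∈ (vF u x Φ).It Ψ, ∀ j ∉ L.toFinset, MP_b91a16_ag.nn u g j = 0 := fun g hg j hj => by
    simpa [ex_dot, hw_some] using (h4 g).1 hg _ (h2 j hj)
  by_cases h : ∃ j, Sum.inl j ∈ (vF u x Φ).It Ψ
  · obtain ⟨j, hj⟩ := h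
    obtain ⟨ζ, e1, e2, -⟩ := hP.free l (hΨ h1) h3 (Pi.single j 1)
    refine ⟨⊤, fun _ _ => trivial, ?_⟩
    have := ex_unit (F := FI (sh u) (coR u a) ((vF u x Φ).It Ψ)) (L := L) (i := i)
      (fun o => qk (ζ o) • ee (-sh u (.inl j))) (by
        rw [Finset.sum_subset (Finset.subset_univ _) fun o _ ho => by
          rw [FI, Finset.sum_eq_zero fun g hg => by simp [coR, h5 g hg o ho], mul_zero]]
        simp only [smul_mul_assoc, ← mul_smul_comm, ← Finset.mul_sum, FI, Finset.smul_sum, smul_smul]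
        rw [Finset.sum_comm, Finset.sum_eq_single_of_mem _ hj fun g hg hg' => ?_]
        · simp [coR, MP_b91a16_ag.nn, e1 j ((h4 _).1 hj l h1), ee_mul, ee_zero]
        rw [← Finset.sum_smul]
        rcases g with j' | i
        · simp [coR, MP_b91a16_ag.nn, e1 j' ((h4 _).1 hg l h1), show j' ≠ j from fun e => hg' (e ▸ rfl)]
        · have := congrArg (fun r => a i * qk r) (e2 i ((h4 _).1 hg l h1))
          simp only [dot_hv, ext0, Option.elim_none, Option.elim_some, zero_add, map_sum, map_mul,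
            map_natCast, Finset.mul_sum, map_zero, mul_zero, mul_left_comm (a i)] at this
          simp [coR, MP_b91a16_ag.nn, this])
    convert this using 1
    exact eq_top_iff.2 fun x _ => mem_sp_univ x
  push Not at h
  have h6 : (vF u x Φ).It Ψ = ((vF u x Φ).It Ψ).toRight.map Function.Embedding.inr := by
    ext (j | i) <;> simp [h]
  generalize hI : ((vF u x Φ).It Ψ).toRight = I at h6
  have h7 : ∀ i, i ∈ I ↔ ∀ l ∈ Ψ, l ⬝ᵥ hv u i = 0 := fun i => hI ▸ Finset.mem_toRight.trans (h4 _)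
  have h8 : (fun g => (vF u x Φ).ρ ((vF u x Φ).sh g)) '' (vF u x Φ).It Ψ =
      LinearMap.inl ℚ _ _ '' (hv u '' I) := by
    simp [h6, Set.image_image, vF_inr]
  have h9 := (hP.val (hΨ h1) h3).2.1
  obtain ⟨H, e1, e2⟩ := hN I ⟨∑ l ∈ Ψ, l, ⟨by
      rw [Finset.sum_apply]
      exact Finset.sum_neg' (fun l hl => (hP.le (hΨ hl)).1) ⟨l, h1, h3⟩, fun j => by
      rw [Finset.sum_apply]
      exact Finset.sum_pos' (fun l hl => (hP.le (hΨ hl)).2 j) ⟨l, h1, h9 j⟩, fun i => by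
      rw [sum_dotProduct]
      exact Finset.sum_nonneg fun l hl => hP.nn l (hΨ hl) (.inr i)⟩, fun i => by
      rw [sum_dotProduct, h7]
      exact (Finset.sum_eq_zero_iff_of_nonneg fun l hl => hP.nn l (hΨ hl) (.inr i)).symm⟩ L
    (fun j hj => by_contra fun h => by
      obtain ⟨i, e1, e2⟩ := (mem_supp u).1 hj
      exact e2 (h5 (.inr i) ((h4 _).2 ((h7 i).1 e1)) j h)) i (by
      rwa [Fan.Sp, Fan.Sh, h8, Submodule.map_span, Set.image_image, show (fun y => (vF u x Φ).π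
        (LinearMap.inl ℚ _ _ y)) = id from funext fun y => by simp [vF_pi], Set.image_id] at hi)
  refine ⟨H, fun p hp => ?_, h6 ▸ e2⟩
  rw [Fan.Sh, h8, ← Submodule.map_span] at hp
  obtain ⟨y, e3, e4⟩ := hp
  exact e1 p (funext fun j => Int.cast_eq_zero.1 (congrFun (congrArg Prod.snd e4) j).symm)
    ((show y = fun o => (p.1 o : ℚ) from congrArg Prod.fst e4) ▸ e3)

theorem Pol'.dep_top (qk : ℚ →+* R) (hP : Pol' u x Φ v) (hN : ND3 u a) (S : Finset σ)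
    (Q : (Option σ → ℚ) → Prop) {q₀ : Option σ → ℚ} (h1 : ∀ j ∈ S, q₀ (some j) = 0)
    (h2 : ∀ j ∉ S, 0 < q₀ (some j)) (hQ : ∀ l ∈ Φ, ∀ l' ∈ Φ, l none < 0 → l' none < 0 → Q l → ¬Q l' →
      0 < (l' none • l - l none • l') ⬝ᵥ q₀) (c : Option σ → ℚ) (L : List σ) (hL : L.toFinset = Sᶜ) :
    Dep (sh u) (coR u a) ⊥ L {p | (Cc u (qv c p) ∧ 0 ≤ p.2) ∧ (∀ j ∈ S, ww x c p (some j) = 0) ∧
      ∃ l ∈ Φ, l none < 0 ∧ l ⬝ᵥ ww x c p = 0 ∧ Q l} Sᶜ.card := by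
  classical
  let U : Submodule ℚ (Option σ → ℚ) := Submodule.pi (S.image some) fun _ => ⊥
  have hU : ∀ y, y ∈ U ↔ ∀ j ∈ S, y (some j) = 0 := by simp [U, Submodule.mem_pi]
  have e : ∀ l : Option σ → ℚ, l ⬝ᵥ (-Pi.single none 1) = -l none := by simp
  have e' : ∀ Ψ : Finset (Option σ → ℚ), (∃ l ∈ Ψ, 0 < l ⬝ᵥ (-Pi.single none 1)) →
    ∃ l ∈ Ψ, l none < 0 := by simp
  refine Dep.congr (hP.ok.shell' pres_bot (Ψ := S.image RA.ex)
    (Finset.image_subset_iff.2 fun j _ => hP.ex j) U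
    (p₀ := -Pi.single none 1) (q₀ := q₀) (Sᶜ.image RA.ex ∪ ((Φ ×ˢ Φ).filter fun x => x.1 none < 0 ∧
      x.2 none < 0 ∧ Q x.1 ∧ ¬Q x.2).image fun x => x.2 none • x.1 - x.1 none • x.2) Q
    (fun y _ hy => (hU _).2 fun j hj => (ex_dot j _).symm.trans (hy _ (Finset.mem_image_of_mem _ hj)))
    (by simpa [ex_dot, hU] using fun j hj y hy => hy j hj) (by simp [hU]) ((hU _).2 h1) ?_ ?_ ?_ ?_
    (fun Ψ' _ _ => e' Ψ') (fun Ψ' h3 h4 h5 h6 => hP.ok.depth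
      (fun Ψ => (∃ l ∈ Ψ, l none < 0) ∧ S.image RA.ex ⊆ Ψ)
      (fun Ψ Ψ' _ h h' => ⟨h'.1.imp fun _ h' => ⟨h h'.1, h'.2⟩, h'.2.trans h⟩) (fun _ _ h => h.1)
      (fun Ψ h h' => hP.hT qk hN h h'.1 fun j hj => h'.2 (Finset.mem_image_of_mem _
        (by simpa [hL] using hj))) _ Ψ' h3 ⟨e' _ h5, h4⟩ ?_) (c, 0)) fun p => ?_
  · intro l hl
    rcases Finset.mem_union.1 hl with hl | hl
    · obtain ⟨j, hj, rfl⟩ := Finset.mem_image.1 hl
      exact ex_dot j q₀ ▸ h2 j (Finset.mem_compl.1 hj)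
    · obtain ⟨x, hx, rfl⟩ := Finset.mem_image.1 hl
      obtain ⟨h3, h4, h5, h6, h7⟩ := Finset.mem_filter.1 hx
      exact hQ _ (Finset.mem_product.1 h3).1 _ (Finset.mem_product.1 h3).2 h4 h5 h6 h7
  · exact fun l hl => by simpa [e] using (hP.le hl).1
  · intro l hl h
    obtain ⟨j, rfl⟩ := (hP.ty l hl).resolve_right fun h' => by simp [e, h'.1.ne] at h
    by_cases hj : j ∈ S
    · exact Or.inr fun y hy => ex_dot j y ▸ (hU y).1 hy j hj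
    · exact Or.inl (Finset.mem_union_left _ (Finset.mem_image_of_mem _ (Finset.mem_compl.2 hj)))
  · intro l hl l' hl' h3 h4 h5 h6
    refine Finset.mem_union_right _ (Finset.mem_image.2 ⟨(l, l'), Finset.mem_filter.2
      ⟨Finset.mk_mem_product hl hl', by simpa [e] using h3, by simpa [e] using h4, h5, h6⟩, ?_⟩)
    simp only [e, neg_smul]
    abel
  · let f : Option (Sᶜ : Finset σ) → U := fun o => ⟨Pi.single (o.map Subtype.val) 1, (hU _).2 fun j hj => by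
      rcases o with _ | ⟨j', hj'⟩
      · simp
      · simp [ne_of_mem_of_not_mem hj (Finset.mem_compl.1 hj')]⟩
    have : LinearIndependent ℚ f := LinearIndependent.of_comp U.subtype (by
      convert (Pi.basisFun ℚ (Option σ)).linearIndependent.comp _
        (Option.map_injective (Subtype.val_injective (p := (· ∈ Sᶜ)))) using 1
      ext o
      simp [f])
    have h7 := this.fintype_card_le_finrank.trans (Fan.finrank_le_succ h6)
    simpa [Finset.card_compl] using h7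
  · simp only [Fan.Mc, vF_ww, e, Set.mem_ofPred_eq, Finset.forall_mem_image, ex_dot, neg_pos]
    exact and_assoc.symm.trans (and_congr_left' (and_congr_left' (and_congr Iff.rfl
      (forall_congr' fun j => by simp [vF]))))

end RB

end

end Pool.Agent.P.MP_b91a16_ag
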