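import Pool.Agent.P.MP_b91a16_ag.GZeta

/-! The strong motivic monodromy conjecture for nondegenerate polynomials. -/

set_option linter.unusedSectionVars false

open MvPolynomial

namespace Pool.Agent.P.MP_b91a16_ag

noncomputable section

namespace RB

open RA Cv

variable {k ι : Type} [Field k] [CharZero k] [Fintype ι] [DecidableEq ι] {n : ℕ}
  {u : ι → Fin n → ℕ} {a : ι → k}

theorem rootHyp3 (hN : ND2 u a) (hn : Nonempty ι) (hf : fpoly u a ≠ 0) :
    RootHyp3 u fun p => 0 < p.1 ∧ 0 < p.2 ∧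
      ∀ b, LocalBernsteinEq (fpoly u a) b → b.eval (-(p.1 : k) / p.2) = 0 := by
  classical
  intro Z w₀ N₀ h0 h1 hN₀ h2
  obtain ⟨lam, l1, l2, l3⟩ := exists_lam h0 h1 hN₀ h2
  let E := Equiv.sumCompl fun j : Fin n => Sum.inl j ∉ Z
  have eu : ∀ i j, uS E u i j = u i j.1 := fun _ _ => rfl
  let ω : Option (Fin n) → ℚ := fun o => o.elim (-N₀) fun j => w₀ j
  let ω₀ : Option {j // Sum.inl j ∉ Z} → ℚ := fun o => o.elim (-N₀) fun j => w₀ j.1
  have e : ∀ i, ω ⬝ᵥ hv u i = zl u w₀ N₀ (Sum.inr i) := fun i => by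
    simp [dot_hv, ω, zl, neg_add_eq_sub]
  have e₀ : ∀ i, ω₀ ⬝ᵥ hv (uS E u) i = ω ⬝ᵥ hv u i := fun i => by
    simp only [dot_hv, ω, ω₀, Option.elim_none, Option.elim_some, eu]
    rw [← Fintype.sum_subtype_add_sum_subtype (fun j : Fin n => Sum.inl j ∉ Z),
      Finset.sum_eq_zero (s := (Finset.univ : Finset {j // ¬Sum.inl j ∉ Z})) fun j _ => by
        have := h0.2 _ (not_not.1 j.2)
        simp only [zl, Sum.elim_inl, Nat.cast_eq_zero] at this
        simp [this], add_zero]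
  have hw : ∀ j, Sum.inl j ∉ Z → 0 < w₀ j := fun j hj => by simpa [zl] using h1 _ hj
  have hW : ∀ i, i ∈ Z.toRight ↔ ω ⬝ᵥ hv u i = 0 := fun i => by
    rw [e, Int.cast_eq_zero, Finset.mem_toRight]
    exact ⟨h0.2 _, fun h => by_contra fun h' => (h1 _ h').ne' h⟩
  have hS : Sem u ω Z.toLeft Z.toRight := ⟨by simpa [ω] using hN₀, fun j => ⟨by simp [ω], fun h =>
    Finset.mem_toLeft.2 (by_contra fun h' => (hw j h').ne' (by simpa [ω] using h))⟩, fun i =>
      ⟨by rw [e]; exact_mod_cast h0.1 _, hW i⟩⟩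
  have hω : Val (uS E u) ω₀ := ⟨hS.neg, fun j => by simpa [ω₀] using hw j j.2, fun i =>
    (hS.mon i).1.trans_eq (e₀ i).symm⟩
  have hW₀ : ∀ i, i ∈ Z.toRight ↔ ω₀ ⬝ᵥ hv (uS E u) i = 0 := fun i => by rw [e₀, hW]
  have h3 : 0 < ∑ j, w₀ j := Nat.pos_of_ne_zero fun h => hn.elim fun i => by
    have := h0.1 (Sum.inr i)
    simp only [zl, Sum.elim_inr, fun j => Finset.sum_eq_zero_iff.1 h j (Finset.mem_univ j)] at this
    simp at this
    omega
  have h4 : (∑ i, lam i • hv (uS E u) i) none = ((∑ j, w₀ j : ℕ) : ℚ) / N₀ := by simp [l3]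
  obtain ⟨x, Φ, c, S', S₁, hD, h5, ⟨κ, k1, k2⟩, h7⟩ := exists_dt hω hW₀
    (β := ∑ i, lam i • hv (uS E u) i) (fun j => by simpa [eu] using l2 j j.2)
    (by rw [h4]; positivity) (sum_mem fun i _ => by
      by_cases hi : Sum.inr i ∈ Z
      · exact Submodule.smul_mem _ _ (Submodule.subset_span ⟨i, by simpa using hi, rfl⟩)
      · simp [l1 i hi])
  have k3 : ∀ j, c (some j) = ∑ i ∈ Z.toRight, κ i * u i j.1 := fun j => by simp [k2, eu]
  have hm : ∀ j ∈ S₁.map (.subtype _), ∃ l ∈ S₁, l.1 = j := fun j hj => Finset.mem_map.1 hj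
  have hP : PL u Z.toRight (S₁.map (.subtype _)) (S₁.map (.subtype _)) := fun i hi j hj j' hj' e e' => by
    obtain ⟨l, hl, rfl⟩ := hm j hj
    obtain ⟨l', hl', rfl⟩ := hm j' hj'
    exact ⟨by_contra fun h => e' ((h7 l hl i hi e l' (hD.sub hl')).trans (if_neg fun h' =>
      h (congrArg Subtype.val h').symm)), (h7 l hl i hi e l (hD.sub hl)).trans (if_pos rfl)⟩
  by_cases hH : ∃ I ⊆ Z.toRight, Fc u I ∧
      ∀ T ⊆ S₁.map (.subtype _), 2 * T.card ≤ rk (uq u) (Nb u I T)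
  · obtain ⟨I, h8, h9, h10⟩ := hH
    obtain ⟨K, _, ρ, z, hz, hq, hz'⟩ := lift_hz' h9 hN h8 hP (fun l hl => by_contra fun h => by
      have := h10 {l} (by simpa using hl)
      rw [Finset.eq_empty_of_forall_notMem (s := Nb u I {l}) fun i hi =>
        h ((mem_supp u).2 ⟨i, mem_Nb1.1 hi⟩), rk, Finset.coe_empty, Set.image_empty,
        Submodule.span_empty, finrank_bot] at this
      simp at this) (hall_hz h9 hN (hP.mono h8 subset_rfl subset_rfl) h10)
    obtain ⟨ρ', hρ⟩ := exists_rho (ι := ι) E ρ hz hq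
    let _ := ρ'.toAlgebra
    refine Or.inl ⟨h3, hN₀, fun b hb => ?_⟩
    have := (hD.setup (k := k) (nd3 E hN) (z := fun j => z (E (.inl j))) (fun j => hz _) fun l hl => by
      rw [← hz' l (Finset.mem_map_of_mem _ hl)]
      refine Finset.sum_congr ?_ fun i _ => (Algebra.smul_def _ _).trans (hρ u a i)
      ext i
      simp only [Bl, Finset.mem_filter, Finset.mem_univ, true_and, ← hW₀, mem_Nb1]
      exact and_congr_right fun hi => ⟨fun h => by simp [← eu, h l (hD.sub hl)],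
        h7 l hl i hi⟩).root' E hf hb
    simpa [h4, neg_div] using this
  · push Not at hH
    obtain ⟨S, h10, h11⟩ := Dg.exists_mg (J := Z.toLeft) ⟨Finset.disjoint_left.2 fun j hj => by
      obtain ⟨l, -, rfl⟩ := hm j hj
      exact mt Finset.mem_toLeft.1 l.2, hP, hH⟩
    refine Or.inr ⟨S, h11, fun T hT => h11.pl hS hT k1 (fun j hj => ?_) fun i hi r hr j hj e1 e2 e3 => ?_⟩
    · obtain ⟨l, hl, rfl⟩ := hm j (h10 hj)
      exact k3 l ▸ hD.eq l (hD.sub hl)
    · obtain ⟨l, hl, rfl⟩ := hm r (h10 hr)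
      have := mt Finset.mem_toLeft.2 hj
      rw [← k3 ⟨j, this⟩]
      exact (hD.ge _).lt_of_ne' fun h => e3 ((h7 l hl i hi e2 _ (h5 _ h)).trans (if_neg fun h' =>
        e1 (congrArg Subtype.val h')))

theorem main3 (f : MvPolynomial (Fin n) k) (hf : f ≠ 0) (h0 : constantCoeff f = 0)
    (hN : Nondeg f) :
    ∃ S : Finset (ℕ × ℕ), zeta f ∈ poleRing k S ∧ ∀ p ∈ S, 0 < p.1 ∧ 0 < p.2 ∧
      ∀ b, LocalBernsteinEq f b → b.eval (-(p.1 : k) / p.2) = 0 := by
  classical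
  let u : f.support → Fin n → ℕ := fun v j => v.1 j
  let a : f.support → k := fun v => coeff v.1 f
  have em : ∀ (v : f.support) (c : k), C c * ∏ j, X j ^ u v j = monomial v.1 c := fun v c => by
    rw [monomial_eq, Finsupp.prod_fintype _ _ fun _ => pow_zero _]
  have e : fpoly u a = f := by
    conv_rhs => rw [f.as_sum, ← Finset.sum_coe_sort]
    exact Finset.sum_congr rfl fun v _ => em v _
  have ha : ∀ v, a v ≠ 0 := fun v => mem_support_iff.1 v.2
  have hu0 : ∀ v, ∃ j, u v j ≠ 0 := fun v => by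
    by_contra h'
    push Not at h'
    have : v.1 = 0 := Finsupp.ext h'
    exact ha v (by simp only [a, this]; exact h0)
  have ez : ∀ ω v, zr u (Sum.inr v) ω = pairing ω v.1 - 1 := fun ω v => by
    simp [zr_inr, pairing, u, mul_comm]
  have hP : NDP u a := by
    intro ω I h1 h2 h3 ⟨i, h4⟩
    have h5 : ∀ l, EU u a I l = X l * pderiv l (facePoly f ω) := fun l => by
      rw [facePoly, Finset.sum_filter, ← Finset.sum_coe_sort, map_sum, Finset.mul_sum, EU,
        ← Finset.univ_inter I, ← Finset.sum_ite_mem]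
      refine Finset.sum_congr rfl fun v _ => ?_
      rw [apply_ite (pderiv l), mul_ite, map_zero, mul_zero, X_mul_pderiv_monomial, em, smul_monomial]
      exact if_congr (by rw [h3, ez, sub_eq_zero]) (by simp [u, a, mul_comm]) rfl
    obtain ⟨r, hr⟩ : ∏ j, X j ∈ (Ideal.span (Set.range (EU u a I))).radical := by
      rw [← vanishingIdeal_zeroLocus_eq_radical (K := AlgebraicClosure k)]
      intro x hx
      by_contra h6
      have h7 : ∀ j, x j ≠ 0 := by simpa [Finset.prod_eq_zero_iff] using h6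
      obtain ⟨j, hj⟩ := hN ω (fun j => (h2 j).symm.lt_of_le (zr_inl u j ω ▸ h1 _))
        (fun v hv => by simpa [ez] using h1 (Sum.inr ⟨v, hv⟩))
        ⟨i, i.2, by simpa [ez, sub_eq_zero] using (h3 i).1 h4⟩ x h7
      exact hj (by simpa [h5, h7] using hx _ (Ideal.subset_span ⟨j, rfl⟩))
    exact ⟨r, Ideal.mem_span_range_iff_exists_fun.1 hr⟩
  have hN2 : ND2 u a := by
    rintro I ⟨ω, ⟨h1, h2, h3⟩, h4⟩
    have h5 : (0 : ℝ) < -ω none := by exact_mod_cast neg_pos.2 h1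
    have h6 : ∀ j, (0 : ℝ) < ω (some j) / -ω none := fun j => div_pos (by exact_mod_cast h2 j) h5
    have h7 : ∀ i, zr u (Sum.inr i) (fun j => ω (some j) / -ω none) =
        (ω ⬝ᵥ hv u i : ℚ) / -(ω none : ℝ) := fun i => by
      rw [eq_div_iff h5.ne', zr_inr, dot_hv, sub_mul, Finset.sum_mul]
      simp only [mul_assoc, div_mul_cancel₀ _ h5.ne']
      simp [mul_comm, add_comm]
    refine hP (fun j => ω (some j) / -ω none) I ?_ (fun j => (h6 j).ne') fun i => by
      rw [h7, h4, div_eq_zero_iff, or_iff_left h5.ne', Rat.cast_eq_zero]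
    rintro (j | i)
    · exact zr_inl u j _ ▸ (h6 j).le
    · exact h7 i ▸ div_nonneg (by exact_mod_cast h3 i) h5.le
  obtain ⟨S, h3, h4⟩ := zeta_mem2 hu0 hN2 (coeff_zeta u a hu0 (hP.ndi hu0))
    (fun x h1 h2 θ => exists_series3 h1 h2 (rootHyp3 hN2
      ((support_nonempty.2 hf).elim fun v hv => ⟨⟨v, hv⟩⟩) (e.symm ▸ hf)))
    ⟨one_pos, one_pos, fun b hb => by
      simpa using root_neg_one_loc (f := fpoly u a) (e.symm ▸ hf) (e.symm ▸ h0) hb⟩
    fun p hp => hp.2.1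
  rw [e] at h3 h4
  exact ⟨S, h4, h3⟩

end RB

end

end Pool.Agent.P.MP_b91a16_ag
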