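import Pool.Agent.P.MP_b91a16_ag.GLP

/-! Lifting a torus zero from a compact face to an arc through the origin. -/

set_option linter.unusedSectionVars false

open Polynomial

namespace Pool.Agent.P.MP_b91a16_ag

noncomputable section

namespace RB

open RA Cv

variable {k σ ϑ τ ι : Type} [Field k] [CharZero k] [Fintype σ] [DecidableEq σ] [Fintype ϑ]
  [DecidableEq ϑ] [Fintype τ] [DecidableEq τ] [Fintype ι] [DecidableEq ι] {u : ι → σ → ℕ}
  {a : ι → k} {I W : Finset ι} {S : Finset σ}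

theorem hensel' {κ : Type} [Field κ] (S : Finset σ) (A : σ → Finset ι) (b : σ → ι → κ[X])
    {ζ : σ → κ} (h1 : ∀ l ∈ S, ∑ i ∈ A l, (b l i).eval 0 * ∏ j, ζ j ^ u i j = 0)
    (h2 : ∀ c : σ → κ, (∀ l ∉ S, c l = 0) →
      (∀ o, ∑ l, c l * ∑ i ∈ A l, (b l i).eval 0 * (∏ j, ζ j ^ u i j) * u i o = 0) → c = 0) :
    ∃ (K : Type) (_ : Field K) (π : MvPolynomial σ κ[X] →+* K), π (.C X) ≠ 0 ∧
      (∀ q, MvPolynomial.eval₂Hom (evalRingHom 0) ζ q ≠ 0 → π q ≠ 0) ∧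
      ∀ l ∈ S, ∑ i ∈ A l, π (.C (b l i)) * ∏ j, π (.X j) ^ u i j = 0 := by
  have key : ∀ N : ℕ, ∃ z : σ → κ[X], (∀ j, (z j).eval 0 = ζ j) ∧
      ∀ l ∈ S, X ^ (N + 1) ∣ ∑ i ∈ A l, b l i * ∏ j, z j ^ u i j := by
    intro N
    induction N with
    | zero =>
      refine ⟨fun j => C (ζ j), by simp, fun l hl => ?_⟩
      rw [zero_add, pow_one, X_dvd_iff, coeff_zero_eq_eval_zero]
      simpa [eval_finsetSum, eval_prod] using h1 l hl
    | succ N ih =>
      obtain ⟨z, h3, h4⟩ := ih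
      choose! e he using h4
      obtain ⟨ξ, hξ⟩ := prescribe _ S h2 fun l => -(e l).eval 0
      refine ⟨fun j => z j * (1 + X ^ (N + 1) * C (ξ j)), by simp [h3], fun l hl => ?_⟩
      choose d hd using fun i => sq_dvd_prod (X ^ (N + 1)) (fun j => C (ξ j)) (u i) Finset.univ
      obtain ⟨g, hg⟩ : X ∣ e l + ∑ i ∈ A l, b l i * (∏ j, z j ^ u i j) * ∑ j, u i j * C (ξ j) := by
        rw [X_dvd_iff, coeff_zero_eq_eval_zero, eval_add, ← neg_eq_iff_add_eq_zero, ← hξ l hl]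
        simp only [eval_finsetSum, eval_mul, eval_prod, eval_pow, h3, eval_natCast, eval_C,
          Finset.mul_sum]
        rw [Finset.sum_comm]
        exact Finset.sum_congr rfl fun i _ => Finset.sum_congr rfl fun j _ => by ring
      refine ⟨g + X ^ N * ∑ i ∈ A l, b l i * (∏ j, z j ^ u i j) * d i, ?_⟩
      have h5 := he l hl
      simp only [mul_pow, Finset.prod_mul_distrib, fun i => sub_eq_iff_eq_add.1 (hd i)]
      have : ∀ i, b l i * ((∏ j, z j ^ u i j) * ((X ^ (N + 1)) ^ 2 * d i +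
          (1 + X ^ (N + 1) * ∑ j, u i j * C (ξ j)))) = b l i * ∏ j, z j ^ u i j +
          X ^ (N + 1) * (b l i * (∏ j, z j ^ u i j) * ∑ j, u i j * C (ξ j)) +
          (X ^ (N + 1)) ^ 2 * (b l i * (∏ j, z j ^ u i j) * d i) := fun i => by ring
      simp only [this, Finset.sum_add_distrib, ← Finset.mul_sum]
      linear_combination h5 + X ^ (N + 1) * hg
  choose z hz hz' using key
  let J : Ideal (MvPolynomial σ κ[X]) := Ideal.span ((fun l => ∑ i ∈ A l,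
    MvPolynomial.C (b l i) * ∏ j, MvPolynomial.X j ^ u i j) '' S)
  let M : Submonoid (MvPolynomial σ κ[X]) :=
    { carrier := {q | ∃ p, MvPolynomial.eval₂Hom (evalRingHom 0) ζ p ≠ 0 ∧ ∃ r : ℕ,
        q = MvPolynomial.C X ^ r * p}
      one_mem' := ⟨1, by simp, 0, by simp⟩
      mul_mem' := by
        rintro _ _ ⟨p, h, r, rfl⟩ ⟨p', h', r', rfl⟩
        exact ⟨p * p', map_mul (MvPolynomial.eval₂Hom _ ζ) p p' ▸ mul_ne_zero h h', r + r', by ring⟩ }
  obtain ⟨P, hP, h3, h4⟩ := J.exists_le_prime_disjoint M (Set.disjoint_left.2 (by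
    rintro _ h ⟨p, h3, r, rfl⟩
    have h4 : J ≤ (Ideal.span {X ^ (r + 1)}).comap (MvPolynomial.eval (z r)) :=
      Ideal.span_le.2 (by
        rintro _ ⟨l, hl, rfl⟩
        simpa [Ideal.mem_span_singleton] using hz' _ l hl)
    have h5 := Ideal.mem_span_singleton.1 (h4 h)
    rw [map_mul, map_pow, MvPolynomial.eval_C, pow_succ, mul_dvd_mul_iff_left
      (pow_ne_zero _ X_ne_zero), X_dvd_iff, coeff_zero_eq_eval_zero] at h5
    exact h3 ((RingHom.congr_fun (MvPolynomial.ringHom_ext (by simp) (by simp [hz]) :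
      MvPolynomial.eval₂Hom (evalRingHom 0) ζ = (evalRingHom 0).comp (MvPolynomial.eval (z r))) p).trans
        h5)))
  let π := algebraMap (MvPolynomial σ κ[X]) P.ResidueField
  have hπ : ∀ q, π q = 0 ↔ q ∈ P := fun q => Ideal.algebraMap_residueField_eq_zero
  refine ⟨_, inferInstance, π, fun h => Set.disjoint_left.1 h4 ((hπ _).1 h) ⟨1, by simp, 1, by simp⟩,
    fun q hq h => Set.disjoint_left.1 h4 ((hπ _).1 h) ⟨q, hq, 0, by simp⟩, fun l hl => ?_⟩
  simpa only [map_sum, map_mul, map_prod, map_pow] using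
    (hπ _).2 (h3 (Ideal.subset_span ⟨l, hl, rfl⟩))

theorem fc_nat (hF : Fc u I) : ∃ (g : σ → ℕ) (N : ℕ) (d : ι → ℕ), (∀ j, g j ≠ 0) ∧ N ≠ 0 ∧
    ∀ i, ∑ j, g j * u i j = N + d i ∧ (i ∈ I ↔ d i = 0) := by
  obtain ⟨ω, ⟨h1, h2, h3⟩, h4⟩ := hF
  obtain ⟨D, hD, h5⟩ := exists_den (Finset.univ.image ω)
  choose γ hγ using fun o => h5 (ω o) (by simp)
  have hD' : (0 : ℚ) < D := by exact_mod_cast hD
  have e1 : ∀ j, 0 < γ (some j) := fun j => by exact_mod_cast hγ _ ▸ mul_pos hD' (h2 j)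
  have e2 : γ none < 0 := by exact_mod_cast hγ _ ▸ mul_neg_of_pos_of_neg hD' h1
  have e3 : ∀ i, ((γ none + ∑ j, γ (some j) * u i j : ℤ) : ℚ) = D * ω ⬝ᵥ hv u i := fun i => by
    simp [hγ, dot_hv, mul_add, Finset.mul_sum, mul_assoc]
  refine ⟨fun j => (γ (some j)).toNat, (-γ none).toNat, fun i =>
    (γ none + ∑ j, γ (some j) * u i j).toNat, fun j => (Int.pos_iff_toNat_pos.1 (e1 j)).ne', by omega, fun i => ?_⟩
  have e4 : 0 ≤ γ none + ∑ j, γ (some j) * u i j := by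
    exact_mod_cast e3 i ▸ mul_nonneg hD'.le (h3 i)
  refine ⟨?_, (h4 i).trans ?_⟩
  · zify
    simp only [Int.toNat_of_nonneg (e1 _).le, Int.toNat_of_nonneg e4,
      Int.toNat_of_nonneg (neg_pos.2 e2).le, neg_add_cancel_left]
  · rw [← mul_eq_zero_iff_left hD'.ne', ← e3, Int.cast_eq_zero]
    beta_reduce
    omega

theorem lift_hz' (hF : Fc u I) (hN : ND2 u a) (hW : I ⊆ W) (hP : PL u W S S) (hS : S ⊆ supp u I)
    (h : HZ u a I S) : ∃ (K : Type) (_ : Field K) (ρ : k →+* K) (z : σ → K), (∀ j, z j ≠ 0) ∧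
      (∀ q, MvPolynomial.constantCoeff q ≠ 0 → MvPolynomial.eval₂Hom ρ z q ≠ 0) ∧
      ∀ l ∈ S, ∑ i ∈ Nb u W {l}, ρ (a i) * ∏ j, z j ^ u i j = 0 := by
  obtain ⟨K, _, ρ, ζ, h1, h2⟩ := h
  obtain ⟨g, N, d, e1, -, e2⟩ := fc_nat hF
  let b : ι → Polynomial K := fun i => .C (ρ (a i)) * .X ^ d i
  have e : ∀ l, ∀ F : ι → K,
      ∑ i ∈ Nb u W {l}, (b i).eval 0 * F i = ∑ i ∈ Nb u I {l}, ρ (a i) * F i := fun l F => by
    rw [← Finset.sum_subset (Nb_mono hW subset_rfl) fun i hi hi' => ?_]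
    · exact Finset.sum_congr rfl fun i hi => by simp [b, (e2 i).2.1 (mem_Nb1.1 hi).1]
    · simp [b, zero_pow fun h => hi' (mem_Nb1.2 ⟨(e2 i).2.2 h, (mem_Nb1.1 hi).2⟩)]
  obtain ⟨K', _, π, h3, h4, h5⟩ := hensel' (u := u) S (fun l => Nb u W {l}) (fun _ => b)
    (fun l hl => (e l _).trans (h2 l hl)) fun c hc hc' => transv hF hN
      (hP.mono hW subset_rfl subset_rfl) hS ρ h1 c hc fun o => by
        simpa only [mul_assoc, e] using hc' o
  let ψ : MvPolynomial σ k →+* MvPolynomial σ K[X] := MvPolynomial.eval₂Hom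
    (MvPolynomial.C.comp (Polynomial.C.comp ρ)) fun j => .C X ^ g j * .X j
  refine ⟨K', inferInstance, (π.comp ψ).comp MvPolynomial.C, fun j => π (.C X) ^ g j * π (.X j),
    fun j => mul_ne_zero (pow_ne_zero _ h3) (h4 _ (by simpa using h1 j)), fun q hq => ?_,
    fun l hl => ?_⟩
  · refine ne_of_eq_of_ne (RingHom.congr_fun (MvPolynomial.ringHom_ext (by simp) (by simp [ψ]) :
      _ = π.comp ψ) q) (h4 _ (ne_of_eq_of_ne (RingHom.congr_fun (MvPolynomial.ringHom_ext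
        (by simp [ψ]) (by simp [ψ, e1]) : (MvPolynomial.eval₂Hom (evalRingHom 0) ζ).comp ψ =
          ρ.comp MvPolynomial.constantCoeff) q) ((map_ne_zero ρ).2 hq)))
  · rw [← mul_zero (π (.C X) ^ N), ← h5 l hl, Finset.mul_sum]
    refine Finset.sum_congr rfl fun i _ => ?_
    simp only [mul_pow, Finset.prod_mul_distrib, ← pow_mul, Finset.prod_pow_eq_pow_sum, (e2 i).1, b]
    simp [ψ, pow_add]
    ring

theorem exists_rho (e : σ ⊕ ϑ ≃ τ) {K : Type} [Field K] (ρ : k →+* K) {z : τ → K} (h1 : ∀ j, z j ≠ 0)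
    (h2 : ∀ q, MvPolynomial.constantCoeff q ≠ 0 → MvPolynomial.eval₂Hom ρ z q ≠ 0) :
    ∃ ρ' : RL k ϑ →+* K, ∀ (u : ι → τ → ℕ) (a : ι → k) i,
      ρ' (aR e u a i) * ∏ j, z (e (.inl j)) ^ uS e u i j = ρ (a i) * ∏ j, z j ^ u i j := by
  let φ : MvPolynomial ϑ k →+* K := MvPolynomial.eval₂Hom ρ fun t => z (e (.inr t))
  have h3 : ∀ q : MM k ϑ, IsUnit (φ q) := fun q => (Submonoid.closure_le (S :=
    (IsUnit.submonoid K).comap φ)).2 (by
      rintro _ (⟨t, rfl⟩ | h)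
      · exact Ne.isUnit (by simpa [φ] using h1 _)
      · exact Ne.isUnit (by
          simpa [φ, MvPolynomial.eval₂_rename, Function.comp_def] using h2 (MvPolynomial.rename (fun t => e (.inr t)) _)
            (by rwa [MvPolynomial.constantCoeff_rename]))) q.2
  refine ⟨IsLocalization.lift h3, fun u a i => ?_⟩
  rw [aR, Algebra.smul_def, IsScalarTower.algebraMap_apply k (MvPolynomial ϑ k), map_mul,
    IsLocalization.lift_eq, map_prod, ← e.prod_comp, Fintype.prod_sum_type]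
  simp only [map_pow, XU_coe, IsLocalization.lift_eq]
  simp [φ, uS, mul_left_comm, mul_comm]

end RB

end

end Pool.Agent.P.MP_b91a16_ag
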