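import Pool.Agent.P.MP_b91a16_ag.CvCan

/-! More lemmas on the relative Koszul complex. -/

set_option linter.unusedSectionVars false

open Filter

namespace Pool.Agent.P.MP_b91a16_ag

noncomputable section

namespace Kos

variable {Λ Λ' σ σ' : Type} [CommRing Λ] [CommRing Λ'] {F F' : σ → Λ} {A B C : AddSubgroup Λ}
  {L : List σ} {i : ℤ} {a : σ}

theorem ex_step'' (hA : ∀ l, ∀ x ∈ A, F l * x ∈ A) (hB : ∀ l, ∀ x ∈ B, F l * x ∈ B) {t : Λ}
    (tA : ∀ x ∈ A, t * x ∈ A) (hw : ∀ x ∈ A, t * x ∈ B → x ∈ B)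
    (hn : ∀ c ∈ fam A L i, dd F L c ∈ fam B L (i + 1) →
      ∃ r : ℕ, ∃ c' ∈ fam A L (i - 1), t ^ r • c - dd F L c' ∈ fam B L i)
    (h1 : Ex F L A (B ⊔ A.map (AddMonoidHom.mulLeft t)) (i - 1)) : Ex F L A B i := by
  have key : ∀ c ∈ fam A L i, (∃ c' ∈ fam A L (i - 1), t • c - dd F L c' ∈ fam B L i) →
      ∃ c' ∈ fam A L (i - 1), c - dd F L c' ∈ fam B L i := by
    rintro c hc ⟨c', hc', h⟩
    obtain ⟨c'', -, h2⟩ := h1 c' hc' (by
      rw [sub_add_cancel, show dd F L c' = t • c - (t • c - dd F L c') by abel]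
      exact sub_mem (fam_smul (fun x hx => AddSubgroup.mem_sup_right
        (AddSubgroup.mem_map.2 ⟨x, hx, rfl⟩)) L i c hc) (fam_mono le_sup_left L i _ h))
    obtain ⟨e, he, h3⟩ := fam_sup L _ _ h2
    have h4 := fam_dd hB L _ _ h3
    have h5 := fam_dd hA L _ _ he
    rw [sub_add_cancel] at h4 h5
    refine ⟨e, he, fam_cancel hw L i _ (sub_mem hc h5) ?_⟩
    have := add_mem h h4
    simp only [map_sub, map_smul, dd_dd] at this
    convert this using 1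
    rw [smul_sub]
    abel
  intro c hc hd
  obtain ⟨r, hr⟩ := hn c hc hd
  induction r with
  | zero => simpa using hr
  | succ r ih' =>
    refine ih' (key _ (fam_smul (fun x hx => ?_) L i c hc) (by rwa [← mul_smul, ← pow_succ']))
    clear hr ih'
    induction r with
    | zero => simpa using hx
    | succ r ih'' => rw [pow_succ', mul_assoc]; exact tA _ ih''

theorem dd_sub (h : ∀ l, ∀ x ∈ A, (F l - F' l) * x ∈ B) (L : List σ) (i : ℤ) (c : KK Λ L)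
    (hc : c ∈ fam A L i) : dd F L c - dd F' L c ∈ fam B L (i + 1) := by
  induction L generalizing i with
  | nil => exact sub_self (0 : KK Λ []) ▸ zero_mem _
  | cons a L ih =>
    obtain ⟨x, y, rfl⟩ := ex_pr c
    rw [dd_pr, dd_pr, pr_sub, mem_pr]
    refine ⟨ih _ _ (mem_pr.1 hc).1, ?_⟩
    have := sub_mem (fam_smul (h a) L i x (mem_pr.1 hc).1)
      (sub_add_cancel i 1 ▸ ih _ _ (mem_pr.1 hc).2)
    rw [add_sub_cancel_right]
    convert this using 1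
    rw [sub_smul]
    abel

theorem fam_ev {t : Λ} (h : ∀ x ∈ A, ∀ᶠ r : ℕ in atTop, t ^ r * x ∈ B) (L : List σ) (i : ℤ)
    (c : KK Λ L) (hc : c ∈ fam A L i) : ∀ᶠ r : ℕ in atTop, t ^ r • c ∈ fam B L i := by
  induction L generalizing i with
  | nil =>
    exact (h _ (mem_nil.1 hc).1).mono fun r hr => mem_nil.2
      ⟨hr, (mem_nil.1 hc).2.imp_right fun h => by simp [h]⟩
  | cons a L ih =>
    obtain ⟨x, y, rfl⟩ := ex_pr c
    exact ((ih _ _ (mem_pr.1 hc).1).and (ih _ _ (mem_pr.1 hc).2)).mono fun r hr => mem_pr.2 hr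

theorem fam_inf (L : List σ) (i : ℤ) (c : KK Λ L) (h : c ∈ fam A L i) (h' : c ∈ fam B L i) :
    c ∈ fam (A ⊓ B) L i := by
  induction L generalizing i with
  | nil => exact mem_nil.2 ⟨⟨(mem_nil.1 h).1, (mem_nil.1 h').1⟩, (mem_nil.1 h).2⟩
  | cons a L ih =>
    obtain ⟨x, y, rfl⟩ := ex_pr c
    exact mem_pr.2 ⟨ih _ _ (mem_pr.1 h).1 (mem_pr.1 h').1, ih _ _ (mem_pr.1 h).2 (mem_pr.1 h').2⟩

theorem sub_pj {π : Λ →+ Λ} (h : ∀ x ∈ A, x - π x ∈ B) (L : List σ) (i : ℤ) (c : KK Λ L)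
    (hc : c ∈ fam A L i) : c - pj π L c ∈ fam B L i := by
  induction L generalizing i with
  | nil => exact mem_nil.2 ⟨h _ (mem_nil.1 hc).1, (mem_nil.1 hc).2.imp_right fun h => by simp [h]⟩
  | cons a L ih =>
    obtain ⟨x, y, rfl⟩ := ex_pr c
    exact mem_pr.2 ⟨ih _ _ (mem_pr.1 hc).1, ih _ _ (mem_pr.1 hc).2⟩

theorem pj_zero {π : Λ →+ Λ} (h : ∀ x ∈ A, π x = 0) (L : List σ) (i : ℤ) (c : KK Λ L)
    (hc : c ∈ fam A L i) : pj π L c = 0 :=
  fam_bot L i _ (pj_mem (fun x hx => AddSubgroup.mem_bot.2 (h x hx)) L i c hc)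

theorem pj_id {π : Λ →+ Λ} (h : ∀ x ∈ A, π x = x) (L : List σ) (i : ℤ) (c : KK Λ L)
    (hc : c ∈ fam A L i) : pj π L c = c :=
  (sub_eq_zero.1 (fam_bot L i _ (sub_pj (fun x hx => by simp [h x hx]) L i c hc))).symm

theorem pj_smul' {π π' : Λ →+ Λ} {z z' : Λ} (h : ∀ x ∈ A, π' (z * x) = z' * π x) (L : List σ)
    (i : ℤ) (c : KK Λ L) (hc : c ∈ fam A L i) : pj π' L (z • c) = z' • pj π L c := by
  induction L generalizing i with
  | nil => exact h c (mem_nil.1 hc).1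
  | cons a L ih =>
    obtain ⟨x, y, rfl⟩ := ex_pr c
    rw [pr_smul, pj_pr, pj_pr, pr_smul, ih _ _ (mem_pr.1 hc).1, ih _ _ (mem_pr.1 hc).2]

theorem pj_dd' {π π' : Λ →+ Λ} (h : ∀ l, ∀ x ∈ A, π' (F l * x) = F' l * π x) (L : List σ)
    (i : ℤ) (c : KK Λ L) (hc : c ∈ fam A L i) : pj π' L (dd F L c) = dd F' L (pj π L c) := by
  induction L generalizing i with
  | nil => exact map_zero π'
  | cons a L ih =>
    obtain ⟨x, y, rfl⟩ := ex_pr c
    rw [dd_pr, pj_pr, pj_pr, dd_pr, map_sub, ih _ _ (mem_pr.1 hc).1, ih _ _ (mem_pr.1 hc).2,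
      pj_smul' (h a) L i x (mem_pr.1 hc).1]

theorem htp_sum [DecidableEq σ] (s : σ → Λ) (J : Finset σ) (hJ : J ⊆ L.toFinset) :
    ∃ h : KK Λ L →ₗ[Λ] KK Λ L, (∀ A : AddSubgroup Λ, (∀ l, ∀ x ∈ A, s l * x ∈ A) →
      ∀ i c, c ∈ fam A L (i + 1) → h c ∈ fam A L i) ∧
      ∀ c, dd F L (h c) + h (dd F L c) = (∑ l ∈ J, s l * F l) • c := by
  induction J using Finset.induction_on with
  | empty => exact ⟨0, fun _ _ _ _ _ => zero_mem _, by simp⟩
  | insert l J hl ih =>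
    obtain ⟨h, h1, h2⟩ := ih ((Finset.subset_insert _ _).trans hJ)
    obtain ⟨h', h3, h4⟩ := exists_htp (F := F) L l
      (List.mem_toFinset.1 (hJ (Finset.mem_insert_self _ _)))
    refine ⟨s l • h' + h, fun A hA i c hc => add_mem (fam_smul (hA l) L _ _ (h3 A i c hc))
      (h1 A hA i c hc), fun c => ?_⟩
    rw [Finset.sum_insert hl, add_smul, mul_smul, ← h4, ← h2]
    simp only [LinearMap.add_apply, LinearMap.smul_apply, map_add, map_smul, smul_add]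
    abel

theorem ex_unit [DecidableEq σ] (s : σ → Λ) (h : ∑ l ∈ L.toFinset, s l * F l = 1) :
    Ex F L ⊤ ⊥ i := fun c hc hd => by
  obtain ⟨h', h1, h2⟩ := htp_sum (F := F) s _ subset_rfl
  refine ⟨h' c, h1 ⊤ (by simp) _ _ (by simpa using hc), ?_⟩
  have := h2 c
  rw [h, fam_bot _ _ _ hd, map_zero, add_zero, one_smul] at this
  rw [this, sub_self]
  exact zero_mem _

theorem ex_red [DecidableEq σ] (s : σ → Λ)
    (h : ∀ x ∈ A, (F a - ∑ l ∈ L.toFinset, s l * F l) * x ∈ B)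
    (hA : ∀ l, ∀ x ∈ A, s l * x ∈ A) (hB : ∀ l, ∀ x ∈ B, s l * x ∈ B)
    (h1 : Ex F (a :: L) A B i) : Ex F L A B i := fun c hc hd => by
  obtain ⟨h', h2, h3⟩ := htp_sum (F := F) s _ subset_rfl
  obtain ⟨c', h4, h5⟩ := h1 (pr a c (h' c)) (mem_pr.2 ⟨hc, h2 A hA _ _ (by simpa using hc)⟩) (by
    rw [dd_pr, mem_pr, add_sub_cancel_right]
    refine ⟨hd, ?_⟩
    have := add_mem (fam_smul h L i c hc) (h2 B hB _ _ hd)
    rwa [sub_smul, ← h3, sub_add, add_sub_cancel_right] at this)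
  obtain ⟨x, y, rfl⟩ := ex_pr c'
  exact ⟨x, (mem_pr.1 h4).1, (mem_pr.1 h5).1⟩

/-- Exactness after inverting the elements of `U`. -/
def ExL (U : Submonoid Λ) (F : σ → Λ) (L : List σ) (A B : AddSubgroup Λ) (i : ℤ) : Prop :=
  ∀ c ∈ fam A L i, dd F L c ∈ fam B L (i + 1) →
    ∃ h ∈ U, ∃ c' ∈ fam A L (i - 1), h • c - dd F L c' ∈ fam B L i

variable {U : Submonoid Λ}

theorem Ex.exL (h : Ex F L A B i) : ExL U F L A B i := fun c hc hd =>
  ⟨1, one_mem _, by simpa using h c hc hd⟩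

theorem exL_bot : ExL ⊥ F L A B i ↔ Ex F L A B i := ⟨fun h c hc hd => by
  obtain ⟨s, h1, h2⟩ := h c hc hd
  simpa [Submonoid.mem_bot.1 h1] using h2, Ex.exL⟩

theorem exL_trans (h1 : C ≤ B) (h2 : B ≤ A) (hA : ∀ h ∈ U, ∀ x ∈ A, h * x ∈ A)
    (hC : ∀ h ∈ U, ∀ x ∈ C, h * x ∈ C) (h : ExL U F L A B i) (h' : ExL U F L B C i) :
    ExL U F L A C i := by
  intro c hc hd
  obtain ⟨s, hs, c', h3, h4⟩ := h c hc (fam_mono h1 L _ _ hd)
  obtain ⟨s', hs', c'', h5, h6⟩ := h' _ h4 (by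
    rw [map_sub, dd_dd, sub_zero, map_smul]
    exact fam_smul (hC s hs) L _ _ hd)
  refine ⟨s' * s, mul_mem hs' hs, s' • c' + c'', add_mem (fam_smul (hA s' hs') L _ _ h3)
    (fam_mono h2 L _ _ h5), ?_⟩
  rwa [map_add, ← sub_sub, map_smul, mul_smul, ← smul_sub]

def km (φ : Λ →+ Λ') (e : σ' → σ) : ∀ L : List σ', KK Λ (L.map e) →+ KK Λ' L
  | [] => φ
  | _ :: L => AddMonoidHom.prodMap (km φ e L) (km φ e L)

theorem km_pr (φ : Λ →+ Λ') (e : σ' → σ) (a : σ') {L : List σ'} (x y : KK Λ (L.map e)) :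
    km φ e (a :: L) (pr (e a) x y) = pr a (km φ e L x) (km φ e L y) := rfl

variable (φ : Λ →+* Λ') (e : σ' → σ)

theorem km_smul (z : Λ) (L : List σ') (c : KK Λ (L.map e)) :
    km φ.toAddMonoidHom e L (z • c) = φ z • km φ.toAddMonoidHom e L c := by
  induction L with
  | nil => exact map_mul φ z c
  | cons a L ih =>
    obtain ⟨x, y, rfl⟩ := ex_pr (a := e a) c
    exact (km_pr _ e a _ _).trans (by rw [ih, ih]; rfl)

theorem km_dd (L : List σ') (c : KK Λ (L.map e)) : km φ.toAddMonoidHom e L (dd F _ c) =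
    dd (fun l => φ (F (e l))) L (km φ.toAddMonoidHom e L c) := by
  induction L with
  | nil => exact map_zero φ
  | cons a L ih =>
    obtain ⟨x, y, rfl⟩ := ex_pr (a := e a) c
    refine (km_pr _ e a (dd F _ x) (F (e a) • x - dd F _ y)).trans ?_
    rw [map_sub, ih, ih, km_smul]
    rfl

variable {A' : AddSubgroup Λ'}

theorem km_mem (hA : ∀ x ∈ A, φ x ∈ A') (L : List σ') (i : ℤ) (c : KK Λ (L.map e))
    (hc : c ∈ fam A (L.map e) i) : km φ.toAddMonoidHom e L c ∈ fam A' L i := by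
  induction L generalizing i with
  | nil =>
    obtain h | rfl := (mem_nil.1 hc).2
    · exact mem_nil.2 ⟨hA _ (mem_nil.1 hc).1, Or.inl h⟩
    · exact mem_nil.2 ⟨hA _ (mem_nil.1 hc).1, Or.inr (map_zero φ)⟩
  | cons a L ih =>
    obtain ⟨x, y, rfl⟩ := ex_pr (a := e a) c
    exact mem_pr.2 ⟨ih _ _ (mem_pr.1 hc).1, ih _ _ (mem_pr.1 hc).2⟩

theorem km_inj (hφ : Function.Injective φ) (L : List σ') (c : KK Λ (L.map e))
    (hc : km φ.toAddMonoidHom e L c = 0) : c = 0 := by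
  induction L with
  | nil => exact hφ (hc.trans (map_zero φ).symm)
  | cons a L ih =>
    obtain ⟨x, y, rfl⟩ := ex_pr (a := e a) c
    rw [ih x (congrArg Prod.fst hc), ih y (congrArg Prod.snd hc)]
    rfl

theorem km_surj (hA : ∀ s ∈ U, ∀ x ∈ A, s * x ∈ A)
    (hs : ∀ y ∈ A', ∃ s ∈ U, ∃ x ∈ A, φ x = φ s * y) (L : List σ') (i : ℤ) (c : KK Λ' L)
    (hc : c ∈ fam A' L i) :
    ∃ s ∈ U, ∃ c' ∈ fam A (L.map e) i, km φ.toAddMonoidHom e L c' = φ s • c := by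
  induction L generalizing i with
  | nil =>
    obtain h | rfl := (mem_nil.1 hc).2
    · obtain ⟨s, h1, x, h2, h3⟩ := hs c (mem_nil.1 hc).1
      exact ⟨s, h1, x, mem_nil.2 ⟨h2, Or.inl h⟩, h3⟩
    · exact ⟨1, one_mem _, 0, zero_mem _, by simp⟩
  | cons a L ih =>
    obtain ⟨x, y, rfl⟩ := ex_pr c
    obtain ⟨s, h1, x', h2, h3⟩ := ih _ _ (mem_pr.1 hc).1
    obtain ⟨s', h4, y', h5, h6⟩ := ih _ _ (mem_pr.1 hc).2
    refine ⟨s * s', mul_mem h1 h4, pr (e a) (s' • x') (s • y'), mem_pr.2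
      ⟨fam_smul (hA _ h4) _ _ _ h2, fam_smul (hA _ h1) _ _ _ h5⟩, (km_pr _ e a _ _).trans ?_⟩
    rw [km_smul, km_smul, h3, h6, pr_smul, map_mul, smul_smul, smul_smul, mul_comm (φ s')]

theorem ex_km (hφ : Function.Injective φ) (hA : ∀ s ∈ U, ∀ x ∈ A, s * x ∈ A)
    (hA' : ∀ x ∈ A, φ x ∈ A') (hU : ∀ s ∈ U, ∃ v, v * φ s = 1 ∧ ∀ y ∈ A', v * y ∈ A')
    (hs : ∀ y ∈ A', ∃ s ∈ U, ∃ x ∈ A, φ x = φ s * y) {L : List σ'}
    (h : ExL U F (L.map e) A ⊥ i) : Ex (fun l => φ (F (e l))) L A' ⊥ i := fun c hc hd => by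
  obtain ⟨s, h1, c', h2, h3⟩ := km_surj φ e hA hs L i c hc
  obtain ⟨s', h4, c'', h5, h6⟩ := h c' h2 (by
    rw [km_inj φ e hφ L (dd F _ c') (by rw [km_dd, h3, map_smul, fam_bot _ _ _ hd, smul_zero])]
    exact zero_mem _)
  obtain ⟨v, hv, hv'⟩ := hU _ (mul_mem h4 h1)
  have := congrArg (km φ.toAddMonoidHom e L) (sub_eq_zero.1 (fam_bot _ _ _ h6))
  rw [km_smul, h3, km_dd, smul_smul, ← map_mul] at this
  refine ⟨v • km φ.toAddMonoidHom e L c'', fam_smul hv' _ _ _ (km_mem φ e hA' L _ _ h5), ?_⟩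
  rw [map_smul, ← this, smul_smul, hv, one_smul, sub_self]
  exact zero_mem _

end Kos

end

end Pool.Agent.P.MP_b91a16_ag
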