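import Pool.Agent.P.MP_b91a16_ag.GRoot

/-! The linear program attached to a critical face, and the choice of the virtual vertices. -/

set_option linter.unusedSectionVars false

open Filter

namespace Pool.Agent.P.MP_b91a16_ag

noncomputable section

namespace RB

open RA Cv

variable {σ ι α τ : Type} [Fintype σ] [DecidableEq σ] [Fintype ι] [DecidableEq ι] [Fintype α]
  [DecidableEq α] [Fintype τ] [DecidableEq τ]

theorem dot_sp {l : τ → ℚ} {s : Set (τ → ℚ)} (h : ∀ y ∈ s, l ⬝ᵥ y = 0) :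
    ∀ y ∈ Submodule.span ℚ s, l ⬝ᵥ y = 0 :=
  (Submodule.span_le (p := LinearMap.ker (dotProductBilin ℚ ℚ l))).2 h

theorem dual_gen (a : α → τ → ℚ) (U : Submodule ℚ (τ → ℚ)) : ∃ Φ : Finset (τ → ℚ),
    (∀ φ ∈ Φ, (∀ i, 0 ≤ φ ⬝ᵥ a i) ∧ ∀ y ∈ U, φ ⬝ᵥ y = 0) ∧ ∀ l, (∀ i, 0 ≤ l ⬝ᵥ a i) →
      (∀ y ∈ U, l ⬝ᵥ y = 0) → ∃ μ : (τ → ℚ) → ℚ, (∀ φ, 0 ≤ μ φ) ∧ l = ∑ φ ∈ Φ, μ φ • φ := by
  classical
  obtain ⟨g, h1, h2, -⟩ := Submodule.exists_fun_fin_finrank_span_eq ℚ (U : Set (τ → ℚ))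
  let b := Sum.elim a (Sum.elim g (-g))
  obtain ⟨Φ, hΦ⟩ := Cv.weyl b Finset.univ
  obtain ⟨Y, hY⟩ := Cv.weyl id Φ
  have h3 : ∀ φ ∈ Φ, ∀ i, 0 ≤ φ ⬝ᵥ b i := fun φ h i => (hΦ _).1 ⟨Pi.single i 1, fun j => by
    rw [Pi.single_apply]; positivity, by simp [Pi.single_apply, -Fintype.sum_sum_type]⟩ φ h
  refine ⟨Φ, fun φ h => ⟨fun i => h3 φ h (.inl i), fun y hy => dot_sp (s := Set.range g) ?_ y
    (h2.ge (Submodule.subset_span hy))⟩, fun l h4 h5 => (hY l).2 fun y hy => ?_⟩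
  · rintro _ ⟨t, rfl⟩
    exact le_antisymm (by simpa [b] using h3 φ h (.inr (.inr t))) (h3 φ h (.inr (.inl t)))
  obtain ⟨x, h6, rfl⟩ := (hΦ y).2 fun φ h => dotProduct_comm y φ ▸ (hY φ).1 ⟨Pi.single φ 1,
    fun j => by rw [Pi.single_apply]; positivity, by simp [Pi.single_apply, h]⟩ y hy
  rw [dotProduct_comm, dotProduct_sum]
  refine Finset.sum_nonneg fun i _ => ?_
  rw [dotProduct_smul]
  refine mul_nonneg (h6 i) ?_
  rcases i with i | t | t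
  exacts [h4 i, (h5 _ (h1 t)).ge, by simp [b, h5 _ (h1 t)]]

theorem presc2 (G : Submodule ℚ (σ → ℚ)) (T : σ → Prop) (h : ∀ g ∈ G, (∀ j, ¬T j → g j = 0) → g = 0)
    (ζ₀ : σ → ℚ) : ∃ ζ : σ → ℚ, (∀ j, T j → ζ j = ζ₀ j) ∧ ∀ g ∈ G, ζ ⬝ᵥ g = 0 := by
  classical
  let f : ({j // T j} → ℚ) →ₗ[ℚ] (σ → ℚ) :=
    LinearMap.pi fun j => if h : T j then LinearMap.proj ⟨j, h⟩ else 0
  have e : ∀ y j, f y j = if h : T j then y ⟨j, h⟩ else 0 := fun y j => by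
    simp only [f, LinearMap.pi_apply]
    split_ifs <;> rfl
  obtain ⟨ψ, hψ⟩ := (G.mkQ ∘ₗ f).exists_leftInverse_of_injective (LinearMap.ker_eq_bot'.2
    fun y hy => funext fun j => by
      simpa [e, j.2] using congrFun (h _ ((Submodule.Quotient.mk_eq_zero G).1 hy) fun j hj => by
        simp [e, hj]) j)
  let φ := dotProductBilin ℚ ℚ (fun j : {j // T j} => ζ₀ j) ∘ₗ ψ ∘ₗ G.mkQ
  refine ⟨fun j => φ (Pi.single j 1), fun j hj => ?_, fun g hg => ?_⟩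
  · beta_reduce
    rw [show Pi.single j 1 = f (Pi.single ⟨j, hj⟩ 1) from funext fun j' => by
      by_cases h : T j' <;> simp [e, h, Pi.single_apply, Subtype.ext_iff]
      rintro rfl
      exact h hj]
    simpa [φ] using congrArg ((fun j : {j // T j} => ζ₀ j) ⬝ᵥ ·)
      (LinearMap.congr_fun hψ (Pi.single ⟨j, hj⟩ 1))
  · have : φ g = 0 := by simp [φ, (Submodule.Quotient.mk_eq_zero G).2 hg]
    rw [← this, LinearMap.pi_apply_eq_sum_univ φ g]
    exact Finset.sum_congr rfl fun o _ => by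
      rw [smul_eq_mul, mul_comm]
      exact congrArg (g o * φ ·) (funext fun o' => by simp [Pi.single_apply, eq_comm])

variable {u : ι → σ → ℕ} {β ω₀ : Option σ → ℚ}

theorem dot_vx (l : Option σ → ℚ) (x : σ → ℚ) (j : σ) : l ⬝ᵥ vx x j = l none * x j + l (some j) := by
  simp [dotProduct, vx, Pi.single_apply]

theorem exists_pol' (u : ι → σ → ℕ) {x : σ → ℚ} (hx : ∀ j, 0 < x j) : ∃ Φ, ∀ v,
    (∀ l ∈ Φ, l none < 0 → ∀ ζ₀ : σ → ℚ, ∃ ζ, (∀ j, l ⬝ᵥ vx x j = 0 → ζ j = ζ₀ j) ∧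
      (∀ i, l ⬝ᵥ hv u i = 0 → ext0 ζ ⬝ᵥ hv u i = 0) ∧ (l ⬝ᵥ v = 0 → ext0 ζ ⬝ᵥ v = 0)) →
    Pol' u x Φ v := by
  classical
  let g : Option (σ ⊕ ι) → Option σ → ℚ := fun o => o.elim (-Pi.single none 1) (hw u x)
  obtain ⟨Φ, hΦ⟩ := Cv.weyl g Finset.univ
  have h1 : ∀ l ∈ Φ, ∀ x, 0 ≤ l ⬝ᵥ g x := fun l hl x => (hΦ _).1 ⟨Pi.single x 1, fun j => by
    rw [Pi.single_apply]; positivity, by simp [Pi.single_apply, -Fintype.sum_option]⟩ l hl
  have h2 : ∀ l ∈ Φ, l none ≤ 0 := fun l hl => by simpa [g] using h1 l hl none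
  have h3 : ∀ l ∈ Φ, ∀ j, 0 ≤ l none * x j + l (some j) := fun l hl j =>
    dot_vx l x j ▸ h1 l hl (some (.inl j))
  refine ⟨Φ.filter (· none < 0) ∪ Finset.univ.image RA.ex, fun v hv => ⟨fun l hl i => ?_,
    fun j => by simp, fun l hl => ?_, fun y hy => ?_, hv⟩⟩
  · rcases Finset.mem_union.1 hl with hl | hl
    · exact h1 l (Finset.mem_filter.1 hl).1 (some i)
    · obtain ⟨j, -, rfl⟩ := Finset.mem_image.1 hl
      rw [ex_dot, hw_some]
      exact Nat.cast_nonneg _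
  · rcases Finset.mem_union.1 hl with hl | hl
    · obtain ⟨h4, h5⟩ := Finset.mem_filter.1 hl
      exact Or.inr ⟨h5, fun j => by nlinarith [h3 l h4 j, hx j]⟩
    · obtain ⟨j, -, rfl⟩ := Finset.mem_image.1 hl
      exact Or.inl ⟨j, rfl⟩
  · obtain ⟨z, hz, e⟩ := (hΦ y).2 fun l hl => by
      rcases (h2 l hl).lt_or_eq with h | h
      · exact hy l (Finset.mem_union_left _ (Finset.mem_filter.2 ⟨hl, h⟩))
      · rw [dotProduct, Fintype.sum_option, h, zero_mul, zero_add]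
        exact Finset.sum_nonneg fun j _ => mul_nonneg (by simpa [h] using h3 l hl j)
          (ex_dot j y ▸ hy _ (by simp))
    refine ⟨fun i => z (some i), z none, fun i => hz _, hz _, ?_⟩
    rw [e, Fintype.sum_option]
    simp [g, ← Pi.single_smul, neg_add_eq_sub, -Fintype.sum_sum_type]

theorem near_aux (u : ι → σ → ℕ) (β : Option σ → ℚ) (U : Submodule ℚ (Option σ → ℚ)) :
    ∀ᶠ n : ℕ in atTop, ∀ x : σ → ℚ, (∀ j, 0 < x j ∧ x j < 1 / (n + 1)) → ∀ l, l none < 0 →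
      (∀ i, 0 ≤ l ⬝ᵥ hv u i) → (∀ j, 0 ≤ l (some j)) → 0 ≤ l ⬝ᵥ β → (∀ y ∈ U, l ⬝ᵥ y = 0) →
      ∃ m : Option σ → ℚ, (∀ i, 0 ≤ m ⬝ᵥ hv u i) ∧ (∀ j, 0 ≤ m (some j)) ∧
        (∀ j, l ⬝ᵥ vx x j = 0 → m (some j) = 0) ∧ m none < m ⬝ᵥ β ∧
        (∀ i, l ⬝ᵥ hv u i = 0 → m ⬝ᵥ hv u i = 0) ∧ ∀ y ∈ U, m ⬝ᵥ y = 0 := by
  classical
  obtain ⟨Φ, h1, h2⟩ := dual_gen (Sum.elim (hv u) RA.ex) U
  have h3 : ∀ φ ∈ Φ, ∀ j, 0 ≤ φ (some j) := fun φ h j => by simpa [RA.ex] using (h1 φ h).1 (.inr j)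
  refine ((eventually_all_finset Φ).2 fun φ h => eventually_all.2 fun j =>
    (eventually_imp_distrib_left (p := φ (some j) ≠ 0)).2 fun h' => ev_small _
      (-((Φ.card + 1) * |φ ⬝ᵥ β - φ none|)) ((h3 φ h j).lt_of_ne' h')).mono
    fun n hn x hx l e1 e2 e3 e4 e5 => ?_
  obtain ⟨μ, h4, h5⟩ := h2 l (by simpa [RA.ex, e2] using e3) e5
  let P : (Option σ → ℚ) → Prop := fun φ => ∀ j, l ⬝ᵥ vx x j = 0 → φ (some j) = 0
  have h6 : ∀ (s : Finset (Option σ → ℚ)) y, (∑ φ ∈ s, μ φ • φ) ⬝ᵥ y = ∑ φ ∈ s, μ φ * φ ⬝ᵥ y :=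
    fun s y => by simp [sum_dotProduct]
  have h7 : ∀ φ ∈ Φ, ∀ i, 0 ≤ μ φ * φ ⬝ᵥ hv u i := fun φ h i =>
    mul_nonneg (h4 φ) ((h1 φ h).1 (.inl i))
  refine ⟨∑ φ ∈ Φ.filter P, μ φ • φ, fun i => h6 _ _ ▸ Finset.sum_nonneg fun φ h =>
    h7 φ (Finset.mem_filter.1 h).1 i, fun j => ?_, fun j hj => ?_, ?_, fun i hi => h6 _ _ ▸
      Finset.sum_eq_zero fun φ h => (Finset.sum_eq_zero_iff_of_nonneg fun φ h => h7 φ h i).1
        (by rwa [← h6, ← h5]) φ (Finset.mem_filter.1 h).1, fun y hy => h6 _ _ ▸ Finset.sum_eq_zero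
          fun φ h => by rw [(h1 φ (Finset.mem_filter.1 h).1).2 y hy, mul_zero]⟩
  · rw [Finset.sum_apply]
    exact Finset.sum_nonneg fun φ h => mul_nonneg (h4 φ) (h3 φ (Finset.mem_filter.1 h).1 j)
  · rw [Finset.sum_apply]
    exact Finset.sum_eq_zero fun φ h => by simp [(Finset.mem_filter.1 h).2 j hj]
  have h8 : ∑ φ ∈ Φ.filter (¬P ·), (Φ.card + 1) * (μ φ * (φ ⬝ᵥ β - φ none)) ≤ Φ.card * -l none := by
    refine (Finset.sum_le_card_nsmul _ _ (-l none) fun φ h => ?_).trans ?_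
    · obtain ⟨h8, h9⟩ := Finset.mem_filter.1 h
      simp only [P, not_forall] at h9
      obtain ⟨j, h9, h10⟩ := h9
      have h11 : μ φ * φ (some j) ≤ l (some j) := by
        rw [h5, Finset.sum_apply]
        exact Finset.single_le_sum (f := fun φ => (μ φ • φ) (some j))
          (fun φ h => mul_nonneg (h4 φ) (h3 φ h j)) h8
      have h12 := mul_le_mul_of_nonneg_right (hx j).2.le (show 0 ≤ (Φ.card + 1) * |φ ⬝ᵥ β - φ none|
        by positivity)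
      have h13 := mul_le_mul_of_nonneg_left (le_abs_self (φ ⬝ᵥ β - φ none))
        (show 0 ≤ x j * (Φ.card + 1) from mul_nonneg (hx j).1.le (by positivity))
      have h14 := mul_le_mul_of_nonneg_left (show x j * (Φ.card + 1) * (φ ⬝ᵥ β - φ none) ≤ φ (some j)
        by linarith [hn φ h8 j h10]) (h4 φ)
      rw [dot_vx] at h9
      exact le_of_mul_le_mul_left (by linarith) (hx j).1
    · rw [nsmul_eq_mul]
      exact mul_le_mul_of_nonneg_right (by exact_mod_cast Finset.card_filter_le _ _) (by linarith)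
  have h9 : l ⬝ᵥ β - l none = ∑ φ ∈ Φ, μ φ * (φ ⬝ᵥ β - φ none) := by
    conv_lhs => rw [h5, h6, Finset.sum_apply]
    simp [mul_sub]
  rw [← Finset.sum_filter_add_sum_filter_not Φ P] at h9
  rw [← Finset.mul_sum] at h8
  rw [h6, Finset.sum_apply, ← sub_pos, ← Finset.sum_sub_distrib]
  simp only [Pi.smul_apply, smul_eq_mul, ← mul_sub]
  have h10 : (0 : ℚ) ≤ Φ.card := Nat.cast_nonneg _
  nlinarith

theorem free_aux (u : ι → σ → ℕ) (U : Submodule ℚ (Option σ → ℚ)) {ε : ℚ} (hε : 0 < ε) :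
    ∃ x : σ → ℚ, (∀ j, 0 < x j ∧ x j < ε) ∧ ∀ l, l none < 0 → ∀ ζ₀ : σ → ℚ, ∃ ζ,
      (∀ j, l ⬝ᵥ vx x j = 0 → ζ j = ζ₀ j) ∧ (∀ i, l ⬝ᵥ hv u i = 0 → ext0 ζ ⬝ᵥ hv u i = 0) ∧
        ((∀ y ∈ U, l ⬝ᵥ y = 0) → ∀ y ∈ U, ext0 ζ ⬝ᵥ y = 0) := by
  classical
  let G : Finset ι × Finset σ × Prop → Submodule ℚ (Option σ → ℚ) := fun z =>
    Submodule.span ℚ (hv u '' z.1) ⊔ if z.2.2 then U else ⊥
  let Rl : Finset ι × Finset σ × Prop → (Option σ → ℚ) → Prop := fun z t =>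
    t ∈ G z ∧ (∀ j ∉ z.2.1, t (some j) = 0) ∧ t ∘ some ≠ 0
  have : ∀ z, (∃ t, Rl z t) → ∃ t, Rl z t := fun _ h => h
  choose! t ht using this
  obtain ⟨q, -, h1, h2⟩ := exists_generic ⊤ (Finset.univ.image fun z => LinearMap.ker
    (dotProductBilin ℚ ℚ (t z))) (Finset.univ.image (fun o => Pi.single o (o.elim (-1) fun _ => 1)) ∪
      Finset.univ.image fun j => -vx (fun _ => ε) j) (q₀ := fun o => o.elim (-1) fun _ => ε / 2) trivial (by
    simp only [Finset.mem_union, Finset.mem_image, Finset.mem_univ, true_and]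
    rintro _ (⟨_ | j, rfl⟩ | ⟨j, rfl⟩) <;> simp [dotProduct_comm (vx _ _), dot_vx, hε])
  have h3 : q none < 0 := by
    simpa using h1 _ (Finset.mem_union_left _ (Finset.mem_image_of_mem _ (Finset.mem_univ none)))
  refine ⟨fun j => q (some j) / -q none, fun j => ⟨div_pos ?_ (neg_pos.2 h3),
    (div_lt_iff₀ (neg_pos.2 h3)).2 ?_⟩, fun l hl ζ₀ => ?_⟩
  · simpa using h1 _ (Finset.mem_union_left _ (Finset.mem_image_of_mem _ (Finset.mem_univ (some j))))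
  · have := h1 _ (Finset.mem_union_right _ (Finset.mem_image_of_mem _ (Finset.mem_univ j)))
    rw [neg_dotProduct, dotProduct_comm, dot_vx] at this
    linarith
  let z : Finset ι × Finset σ × Prop := (Finset.univ.filter fun i => l ⬝ᵥ hv u i = 0,
    Finset.univ.filter fun j => l ⬝ᵥ vx (fun j => q (some j) / -q none) j = 0, ∀ y ∈ U, l ⬝ᵥ y = 0)
  obtain ⟨ζ, h4, h5⟩ := presc2 ((G z).map (LinearMap.funLeft ℚ ℚ some))
    (fun j => l ⬝ᵥ vx (fun j => q (some j) / -q none) j = 0) (by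
      rintro _ ⟨g, e1, rfl⟩ e2
      by_contra e3
      obtain ⟨e4, e5, e6⟩ := ht z ⟨g, e1, fun j hj => e2 j (by simpa [z] using hj), e3⟩
      have e7 : l ⬝ᵥ t z = 0 := (sup_le (c := LinearMap.ker (dotProductBilin ℚ ℚ l))
        (Submodule.span_le.2 (by rintro _ ⟨i, hi, rfl⟩; simpa [z] using hi)) (by
          split_ifs with h
          exacts [h, bot_le])) e4
      have e8 : l none * (t z ⬝ᵥ q) = q none * l ⬝ᵥ t z := by
        simp only [dotProduct, Fintype.sum_option, mul_add, Finset.mul_sum]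
        refine congrArg₂ _ (by ring) (Finset.sum_congr rfl fun j _ => ?_)
        by_cases h : j ∈ z.2.1
        · have := (Finset.mem_filter.1 h).2
          rw [dot_vx, add_eq_zero_iff_neg_eq] at this
          rw [← this]
          field_simp [h3.ne]
        · simp [e5 j h]
      rw [e7, mul_zero, mul_eq_zero, or_iff_right hl.ne] at e8
      have e9 := h2 _ (Finset.mem_image_of_mem _ (Finset.mem_univ z)) e8
      exact e6 (funext fun j => by simpa using e9 (Submodule.mem_top (x := Pi.single (some j) 1)))) ζ₀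
  have h6 : ∀ g ∈ G z, ext0 ζ ⬝ᵥ g = 0 := fun g hg => by
    simpa [dotProduct, ext0] using h5 _ ⟨g, hg, rfl⟩
  exact ⟨ζ, h4, fun i hi => h6 _ (Submodule.mem_sup_left (Submodule.subset_span
    ⟨i, by simpa [z] using hi, rfl⟩)), fun h y hy => h6 _ (Submodule.mem_sup_right (by
      rwa [if_pos h]))⟩

theorem ev_ne (A B : ℚ) : ∀ᶠ n : ℕ in atTop, A + (1 / (n + 1) : ℚ) * B = 0 → B = 0 := by
  by_cases h : A = 0
  · exact Eventually.of_forall fun n => by simp [h, Nat.cast_add_one_ne_zero]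
  refine (ev_small _ (-|B|) (abs_pos.2 h)).mono fun n hn h' => absurd hn ?_
  rw [eq_neg_of_add_eq_zero_left h', abs_neg, abs_mul, abs_of_pos (by positivity)]
  simp

theorem exists_dt (hω : Val u ω₀) {W : Finset ι} (hW : ∀ i, i ∈ W ↔ ω₀ ⬝ᵥ hv u i = 0)
    (h1 : ∀ j, β (some j) = 1) (h2 : 0 < β none) (h3 : β ∈ Submodule.span ℚ (hv u '' W)) :
    ∃ x Φ c S' S₁, Dt u x Φ β c ω₀ S' S₁ ∧ (∀ j, c (some j) = 1 → j ∈ S') ∧
      (∃ κ : ι → ℚ, (∀ i ∈ W, 0 < κ i) ∧ c = ∑ i ∈ W, κ i • hv u i) ∧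
      ∀ l ∈ S₁, ∀ i ∈ W, u i l ≠ 0 → ∀ j ∈ S', u i j = if j = l then 1 else 0 := by
  classical
  have hW' : ∀ j, ∃ i ∈ W, u i j ≠ 0 := fun j => by
    by_contra h
    push Not at h
    simpa [ex_dot, h1] using dot_span (l := RA.ex j) (by
      rintro _ ⟨i, hi, rfl⟩
      simp [ex_dot, h i hi]) β h3
  let Ty : Finset ι × Finset σ → (σ → ℚ) → Prop := fun x lam => (∀ j, 0 ≤ lam j) ∧
    (∀ j, 0 < lam j ↔ j ∈ x.2) ∧ (∀ i ∈ W, ∑ j, lam j * u i j ≤ 1) ∧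
      ∀ i ∈ x.1, ∑ j, lam j * u i j = 1
  have : ∀ x, (∃ lam, Ty x lam) → ∃ lam, Ty x lam := fun _ h => h
  choose! Λ hΛ using this
  obtain ⟨n, hn⟩ := (eventually_all.2 fun x : (Finset ι × Finset σ) × σ =>
    (eventually_imp_distrib_left (p := Λ x.1 x.2 < 1)).2 fun h =>
      ev_small _ (-W.card) (sub_pos.2 h)).exists
  set η : ℚ := 1 / (n + 1)
  have hη : 0 < η := by positivity
  obtain ⟨κ, lam', k1, k2, k3, k4, k5, k6⟩ := lp W hW' fun j => 1 - η * ∑ i ∈ W, u i j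
  let S' := Finset.univ.filter fun j => 0 < lam' j
  obtain ⟨l1, l2, l3, l4⟩ := hΛ (W.filter (κ · ≠ 0), S') ⟨lam', k2, by simp [S'], k3, fun i hi =>
    k4 i (Finset.mem_filter.1 hi).1 (Finset.mem_filter.1 hi).2⟩
  have hn' := fun l => hn ((W.filter (κ · ≠ 0), S'), l)
  set lam := Λ (W.filter (κ · ≠ 0), S')
  simp only at l2 l4 hn'
  let c₀ : Option σ → ℚ := ∑ i ∈ W, (κ i + η) • hv u i
  have c1 : ∀ j, c₀ (some j) = ∑ i ∈ W, κ i * u i j + η * ∑ i ∈ W, u i j := fun j => by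
    simp [c₀, add_mul, Finset.sum_add_distrib, Finset.mul_sum]
  have c2 : ∀ j, j ∈ S' ↔ c₀ (some j) = 1 := fun j => by
    simp only [S', Finset.mem_filter, Finset.mem_univ, true_and, k6, c1, eq_sub_iff_add_eq]
  have c3 : ∀ j, 1 ≤ c₀ (some j) := fun j => by linarith [c1 j, k5 j]
  have c4 : c₀ none ≤ ∑ j, lam j + η * W.card := by
    have e1 : c₀ none = ∑ i ∈ W, κ i + η * W.card := by
      simp [c₀, Finset.sum_add_distrib, mul_comm]
    have e2 : ∑ i ∈ W, κ i = ∑ j, lam j * ∑ i ∈ W, κ i * u i j := by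
      simp only [Finset.mul_sum]
      rw [Finset.sum_comm]
      refine Finset.sum_congr rfl fun i hi => ?_
      by_cases h : κ i = 0
      · simp [h]
      · simp only [mul_left_comm _ (κ i), ← Finset.mul_sum, l4 i (Finset.mem_filter.2 ⟨hi, h⟩), mul_one]
    rw [e1, e2, add_le_add_iff_right]
    refine Finset.sum_le_sum fun j _ => ?_
    rcases (l1 j).lt_or_eq with h | h
    · have := (c2 j).1 ((l2 j).1 h)
      have h4 : (0 : ℚ) ≤ η * ∑ i ∈ W, u i j := by positivity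
      exact mul_le_of_le_one_right h.le (by linarith [c1 j])
    · simp [← h]
  have c5 : c₀ ∈ Submodule.span ℚ (hv u '' W) :=
    sum_mem fun i hi => Submodule.smul_mem _ _ (Submodule.subset_span ⟨i, hi, rfl⟩)
  let U : Submodule ℚ (Option σ → ℚ) :=
    Submodule.span ℚ (hv u '' W) ⊓ Submodule.pi (S'.image some) fun _ => ⊥
  have hU : ∀ y, y ∈ U ↔ y ∈ Submodule.span ℚ (hv u '' W) ∧ ∀ j ∈ S', y (some j) = 0 := by
    simp [U, Submodule.mem_pi]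
  obtain ⟨n₀, ⟨x1, x2⟩, x3⟩ := (((near_aux u β ⊥).and (near_aux u β U)).and (eventually_all.2
    fun j => ev_small _ (ω₀ none) (hω.2.1 j))).exists
  obtain ⟨x, x4, x5⟩ := free_aux u U (ε := 1 / (n₀ + 1)) (by positivity)
  obtain ⟨Φ, hP⟩ := exists_pol' u fun j => (x4 j).1
  obtain ⟨w, w1, -, w2⟩ := exists_generic U (Φ.image fun l => LinearMap.ker (dotProductBilin ℚ ℚ l))
    ∅ (zero_mem _) (by simp)
  replace w2 : ∀ l ∈ Φ, l ⬝ᵥ w = 0 → ∀ y ∈ U, l ⬝ᵥ y = 0 := fun l hl =>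
    w2 _ (Finset.mem_image_of_mem _ hl)
  obtain ⟨w3, w4⟩ := (hU w).1 w1
  obtain ⟨r, hr⟩ := (Submodule.mem_span_image_finset_iff_exists_fun' ℚ).1 w3
  obtain ⟨ε', e1, e2⟩ := (hP 0 fun l _ h ζ₀ => (x5 l h ζ₀).imp fun _ h =>
    ⟨h.1, h.2.1, by simp⟩).ok.eps (c₀, 0) w
  obtain ⟨m, ⟨m1, m2⟩, m3, m4, m5⟩ := (((eventually_all.2 fun i => ev_small _ (r i)
    (add_pos_of_nonneg_of_pos (k1 i) hη)).and
    (eventually_all.2 fun j => (eventually_imp_distrib_left (p := j ∉ S')).2 fun h =>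
      ev_small _ (w (some j)) (sub_pos.2 ((c3 j).lt_of_ne' fun h' => h ((c2 j).2 h'))))).and
    ((eventually_all.2 fun l => (eventually_imp_distrib_left (p := lam l < 1)).2 fun h =>
      ev_small _ (-w none) (hn' l h)).and ((ev_small ε' (-1) e1).and ((eventually_all_finset Φ).2
        fun l _ => ev_ne (l ⬝ᵥ (c₀ - β)) (l ⬝ᵥ w))))).exists
  set ε : ℚ := 1 / (m + 1)
  have hε : 0 < ε := by positivity
  have c6 : c₀ + ε • w = ∑ i ∈ W, (κ i + η + ε * r i) • hv u i := by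
    simp only [c₀, ← hr, Finset.smul_sum, ← Finset.sum_add_distrib, add_smul, mul_smul]
  have c7 := add_mem c5 (Submodule.smul_mem _ ε w3)
  have c8 : ∀ j ∈ S', (c₀ + ε • w) (some j) = 1 := fun j hj => by simp [w4 j hj, (c2 j).1 hj]
  have c9 : ∀ j ∉ S', 1 < (c₀ + ε • w) (some j) := fun j hj => by
    have := m2 j hj
    simp only [Pi.add_apply, Pi.smul_apply, smul_eq_mul]
    linarith
  have c10 : β - (c₀ + ε • w) ∈ U :=
    (hU _).2 ⟨sub_mem h3 c7, fun j hj => by rw [Pi.sub_apply, h1, c8 j hj, sub_self]⟩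
  have c11 : ∀ l ∈ Φ, l ⬝ᵥ (β - (c₀ + ε • w)) = 0 → ∀ y ∈ U, l ⬝ᵥ y = 0 := fun l hl h =>
    w2 l hl (m5 l hl (by
      simp only [dotProduct_sub, dotProduct_add, dotProduct_smul, smul_eq_mul] at h ⊢
      linarith))
  replace hP := hP (β - (c₀ + ε • w)) fun l hl h ζ₀ => (x5 l h ζ₀).imp fun _ h =>
    ⟨h.1, h.2.1, fun h' => h.2.2 (c11 l hl h') _ c10⟩
  refine ⟨x, Φ, c₀ + ε • w, S', S'.filter (1 ≤ lam ·), ⟨hP, hω, fun j => ?_, h1, h2,
    ⟨fun i => if i ∈ W then κ i + η + ε * r i else 0, 0, fun i => by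
      beta_reduce
      split_ifs
      exacts [(m1 i).le, le_rfl], le_rfl, fun _ => le_rfl, by simp [c6]⟩, dot_span (by
    rintro _ ⟨i, hi, rfl⟩
    exact (hW i).1 hi) _ c7, fun j => ?_, c8, fun l hl _ p hp => ?_, fun l hl h h' => ?_,
    fun l hl y y1 y2 y3 y4 => ?_, Finset.filter_subset _ _⟩,
    fun j hj => by_contra fun h => (c9 j h).ne' hj, ⟨_, fun i _ => m1 i, c6⟩,
    fun l hl i hi h j hj => ?_⟩
  · rw [dot_vx]
    nlinarith [x3 j, (x4 j).2, hω.1]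
  · by_cases hj : j ∈ S'
    exacts [(c8 j hj).ge, (c9 j hj).le]
  · rw [ww_shift, dotProduct_add, dotProduct_smul, smul_eq_mul] at hp
    refine w2 l hl (by_contra fun h => ?_) _ c10
    have := e2 l hl p fun h5 => mul_ne_zero hε.ne' h (by simpa only [← vF_ww (u := u) (Φ := Φ), h5,
      zero_add] using hp)
    rw [vF_ww, eq_neg_of_add_eq_zero_left hp, abs_neg, abs_mul, abs_of_pos hε] at this
    nlinarith [abs_nonneg (l ⬝ᵥ w)]
  · have := hP.val hl h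
    by_cases h4 : l ⬝ᵥ (β - (c₀ + ε • w)) = 0
    · exact (x2 x x4 l h this.2.2 (hP.le hl).2 h' (c11 l hl h4)).imp fun m h =>
        ⟨h.1, h.2.1, h.2.2.1, h.2.2.2.1, h.2.2.2.2.1, fun _ => h.2.2.2.2.2 _ c10⟩
    · exact (x1 x x4 l h this.2.2 (hP.le hl).2 h' (by simp)).imp fun m h =>
        ⟨h.1, h.2.1, h.2.2.1, h.2.2.2.1, h.2.2.2.2.1, fun h => absurd h h4⟩
  · have e1 : lam l < 1 := by
      by_contra h
      exact hl (Finset.mem_filter.2 ⟨(l2 l).1 (one_pos.trans_le (not_lt.1 h)), not_lt.1 h⟩)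
    have e2 : ∑ j, lam j * y (some j) ≤ y none := by
      obtain ⟨κ', ν, e3, e4, e5, rfl⟩ := y1
      obtain ⟨rfl, e6⟩ := (hω.cone e3 e4 e5).2 y2
      simp only [add_zero, Finset.sum_apply, Pi.smul_apply, hv_some, hv_none, smul_eq_mul,
        Finset.mul_sum]
      rw [Finset.sum_comm]
      refine Finset.sum_le_sum fun i _ => ?_
      by_cases h : κ' i = 0
      · simp [h]
      · simp only [mul_left_comm _ (κ' i), ← Finset.mul_sum]
        exact mul_le_mul_of_nonneg_left (l3 i ((hW i).2 (e6 i h))) (e3 i)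
    have e3 : ∑ j ∈ Finset.univ.erase l, lam j ≤ ∑ j ∈ Finset.univ.erase l, lam j * y (some j) :=
      Finset.sum_le_sum fun j hj => by
        rcases (l1 j).lt_or_eq with h | h
        · exact le_mul_of_one_le_right h.le (y4 j ((l2 j).1 h) (Finset.ne_of_mem_erase hj))
        · simp [← h]
    have e4 := mul_nonneg (l1 l) (y1.some l)
    rw [← Finset.add_sum_erase _ _ (Finset.mem_univ l)] at e2 c4
    have := m3 l e1
    simp only [Pi.add_apply, Pi.smul_apply, smul_eq_mul] at y3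
    linarith
  · obtain ⟨e1, e2⟩ := Finset.mem_filter.1 hl
    have e3 := l3 i hi
    have e4 : (1 : ℚ) ≤ u i l := by exact_mod_cast Nat.one_le_iff_ne_zero.2 h
    have e5 : ∀ j ∈ Finset.univ.erase l, 0 ≤ lam j * u i j := fun j _ =>
      mul_nonneg (l1 j) (Nat.cast_nonneg _)
    have e6 := Finset.sum_nonneg e5
    rw [← Finset.add_sum_erase _ _ (Finset.mem_univ l)] at e3
    split_ifs with e
    · subst e
      exact_mod_cast le_antisymm (by nlinarith : (u i j : ℚ) ≤ 1) e4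
    · simpa [((l2 j).2 hj).ne'] using (Finset.sum_eq_zero_iff_of_nonneg e5).1
        (le_antisymm (by nlinarith) e6) j (by simp [e])

end RB

end

end Pool.Agent.P.MP_b91a16_ag
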