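import Pool.Agent.P.MP_b91a16_ag.GNak

/-! Depth of the face ideals of a nondegenerate polynomial along a coordinate subspace. -/

set_option linter.unusedSectionVars false

open Filter MvPolynomial

namespace Pool.Agent.P.MP_b91a16_ag

noncomputable section

namespace RB

open RA Cv Kos

variable {k σ ϑ τ ι γ : Type} [Field k] [CharZero k] [Fintype σ] [DecidableEq σ] [Fintype ϑ]
  [DecidableEq ϑ] [Fintype τ] [DecidableEq τ] [Fintype ι] [DecidableEq ι] [Fintype γ] [DecidableEq γ]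

def cF (sh : γ → τ → ℤ) (Φ : Finset (τ → ℚ)) : Fan (τ → ℤ) γ (τ → ℚ) τ :=
  ⟨sh, (Int.castAddHom ℚ).compLeft τ, LinearMap.id, {y | ∀ l ∈ Φ, 0 ≤ l ⬝ᵥ y}, Φ, fun _ => True⟩

theorem exists_cF (sh : γ → τ → ℤ) : ∃ Φ, (cF sh Φ).Ok ∧ ∀ y ∈ (cF sh Φ).Ch,
    ∃ x : γ → ℚ, (∀ g, 0 ≤ x g) ∧ ∀ o, y o = ∑ g, x g * sh g o := by
  obtain ⟨Φ, hΦ⟩ := Cv.weyl (fun g o => (sh g o : ℚ)) Finset.univ
  have h1 : ∀ g, ∀ l ∈ Φ, 0 ≤ l ⬝ᵥ fun o => (sh g o : ℚ) := fun g => (hΦ _).1 ⟨Pi.single g 1,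
    fun j => by rw [Pi.single_apply]; positivity, by simp [Pi.single_apply]⟩
  have h2 : ∀ Ψ ⊆ Φ, ∀ y, (∀ l ∈ Φ, 0 ≤ l ⬝ᵥ y) → (∀ l ∈ Ψ, l ⬝ᵥ y = 0) → y ∈ (cF sh Φ).Sh Ψ := by
    intro Ψ h y h2 h3
    obtain ⟨x, hx, rfl⟩ := (hΦ y).2 h2
    refine sum_mem fun g _ => ?_
    by_cases hg : x g = 0
    · simp [hg]
    refine Submodule.smul_mem _ _ (Fan.sh_mem (F := cF sh Φ) (Fan.mem_It.2 fun l hl => ?_))
    have := h3 l hl
    simp only [dotProduct_sum, dotProduct_smul, smul_eq_mul] at this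
    exact (mul_eq_zero.1 ((Finset.sum_eq_zero_iff_of_nonneg fun g _ => mul_nonneg (hx g)
      (h1 g l (h hl))).1 this g (Finset.mem_univ g))).resolve_left hg
  exact ⟨Φ, ⟨fun x hx g l hl => dotProduct_add l _ _ ▸ add_nonneg (hx l hl) (h1 g l hl),
    fun _ h => h, h1, fun c => disc Φ c, fun _ _ _ _ _ h => h, fun Ψ h _ => h2 Ψ h,
    fun Ψ h _ y h3 h4 => ⟨y, h2 Ψ h y h3 h4, rfl⟩⟩, fun y hy => ((hΦ y).2 hy).imp fun x hx =>
      ⟨hx.1, fun o => by simpa using congrFun hx.2 o⟩⟩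

theorem fc_of_semi {u : ι → τ → ℕ} {ω η : Option τ → ℚ} {J : Finset ι} (h1 : ω none < 0)
    (h2 : ∀ j, 0 ≤ ω (some j) ∧ (ω (some j) = 0 → 0 < η (some j)))
    (h3 : ∀ i, 0 ≤ ω ⬝ᵥ hv u i ∧ (ω ⬝ᵥ hv u i = 0 → 0 ≤ η ⬝ᵥ hv u i))
    (hJ : ∀ i, i ∈ J ↔ ω ⬝ᵥ hv u i = 0 ∧ η ⬝ᵥ hv u i = 0) : Fc u J := by
  obtain ⟨n, h5, h6, h7⟩ := ((ev_small _ (-η none) (neg_pos.2 h1)).and ((eventually_all.2 fun j =>
    (eventually_imp_distrib_left (p := ω (some j) ≠ 0)).2 fun hj => ev_small _ (η (some j))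
      ((h2 j).1.lt_of_ne' hj)).and (eventually_all.2 fun i =>
      (eventually_imp_distrib_left (p := ω ⬝ᵥ hv u i ≠ 0)).2 fun hi => ev_small _ (η ⬝ᵥ hv u i)
        ((h3 i).1.lt_of_ne' hi)))).exists
  have h8 : (0 : ℚ) < 1 / (n + 1) := by positivity
  have e : ∀ i, (ω + (1 / (n + 1) : ℚ) • η) ⬝ᵥ hv u i = ω ⬝ᵥ hv u i + 1 / (n + 1) * η ⬝ᵥ hv u i :=
    fun i => by rw [add_dotProduct, smul_dotProduct, smul_eq_mul]
  refine ⟨ω + (1 / (n + 1) : ℚ) • η, ⟨by simp at h5 ⊢; linarith, fun j => ?_, fun i => ?_⟩,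
    fun i => ?_⟩
  · by_cases hj : ω (some j) = 0
    · simpa [hj] using mul_pos h8 ((h2 j).2 hj)
    · exact h6 j hj
  · rw [e]
    by_cases hi : ω ⬝ᵥ hv u i = 0
    exacts [add_nonneg (h3 i).1 (mul_nonneg h8.le ((h3 i).2 hi)), (h7 i hi).le]
  · rw [e, hJ]
    by_cases hi : ω ⬝ᵥ hv u i = 0
    · simp [hi, Nat.cast_add_one_ne_zero]
    · simp only [hi, false_and, false_iff]
      exact (h7 i hi).ne'

variable (e : σ ⊕ ϑ ≃ τ) (u : ι → τ → ℕ) (a : ι → k)

def uS (i : ι) (j : σ) : ℕ := u i (e (.inl j))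

def et (t : ϑ) : Option τ → ℤ := Pi.single (some (e (.inr t))) 1

def shL (I : Finset ι) : ϑ ⊕ ι → Option τ → ℤ :=
  Sum.elim (et e) fun i => if i ∈ I then (sh u (.inr i)).1 else 0

variable (k) in
def ph0 : MvPolynomial ϑ k →ₐ[k] AddMonoidAlgebra k (Option τ → ℤ) := aeval fun t => ee (et e t)

def ex0 (ω : Option σ → ℚ) : Option τ → ℚ :=
  fun o => o.elim (ω none) fun j => Sum.elim (fun j => ω (some j)) 0 (e.symm j)

theorem ex0_dot (ω : Option σ → ℚ) (y : Option τ → ℚ) :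
    ex0 e ω ⬝ᵥ y = ω none * y none + ∑ j, ω (some j) * y (some (e (.inl j))) := by
  simp [dotProduct, ex0, ← e.sum_comp]

theorem ex0_hv (ω : Option σ → ℚ) (i : ι) : ex0 e ω ⬝ᵥ hv u i = ω ⬝ᵥ hv (uS e u) i := by
  rw [ex0_dot]
  simp [dot_hv, uS]

theorem ph0_mem {A : Set (Option τ → ℤ)} (h : ∀ p ∈ A, ∀ t, et e t + p ∈ A) (q : MvPolynomial ϑ k) :
    ∀ x ∈ sp k A, ph0 k e q * x ∈ sp k A := by
  induction q using MvPolynomial.induction_on with
  | C c => exact fun x hx => by rw [ph0, aeval_C, ← Algebra.smul_def]; exact Submodule.smul_mem _ c hx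
  | add p q hp hq => exact fun x hx => by rw [map_add, add_mul]; exact add_mem (hp x hx) (hq x hx)
  | mul_X p t hp =>
    intro x hx
    rw [map_mul, mul_assoc, ph0, aeval_X]
    exact hp _ (ee_mul_mem (fun p hp => h p hp t) x hx)

theorem ph0_prod (n : ϑ → ℕ) : ph0 k e (∏ t, X t ^ n t) = ee (∑ t, n t • et e t) := by
  simp only [ph0, map_prod, map_pow, aeval_X, ee_pow]
  induction (Finset.univ : Finset ϑ) using Finset.induction_on with
  | empty => rfl
  | insert j s hj ih => rw [Finset.prod_insert hj, Finset.sum_insert hj, ih, ee_mul]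

theorem sum_et (n : ϑ → ℤ) (o : Option τ) :
    (∑ t, n t • et e t) o = o.elim 0 fun j => Sum.elim 0 n (e.symm j) := by
  rcases o with _ | j
  · simp [et]
  · obtain ⟨j | j, rfl⟩ := e.surjective j <;> simp [et, Pi.single_apply]

variable (k) in
def U0 : Submonoid (AddMonoidAlgebra k (Option τ → ℤ)) :=
  (MonoidHom.mker (constantCoeff : MvPolynomial ϑ k →+* k)).map (ph0 k e)

variable {u a}

theorem dep_loc (hN : ND2 u a) {I : Finset ι} (hI : Fc (uS e u) I) (L : List σ) :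
    ∃ Φ, (cF (shL e u I) Φ).Ok ∧ Dep (shL e u I) ((cF (shL e u I) Φ).cq (Sum.elim 0 a)) (U0 k e)
      (L.map fun j => some (e (.inl j))) ((cF (shL e u I) Φ).Mc ∅ 0)
      ((cF (shL e u I) Φ).rr ∅ (L.map fun j => some (e (.inl j)))) := by
  classical
  obtain ⟨Φ, hF, hΦ⟩ := exists_cF (shL e u I)
  refine ⟨Φ, hF, ?_⟩
  set F := cF (shL e u I) Φ with hFd
  set L' := L.map fun j => some (e (.inl j))
  let deg : (Option τ → ℤ) →+ ℤ := Pi.evalAddMonoidHom _ none
  have v1 : ∀ t, F.π (F.ρ (F.sh (.inl t))) = Pi.single (some (e (.inr t))) 1 := fun t =>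
    funext fun o => by simp [hFd, cF, shL, et, Pi.single_apply]
  have v2 : ∀ i, F.π (F.ρ (F.sh (.inr i))) = if i ∈ I then hv u i else 0 := fun i =>
    funext fun o => by by_cases h : i ∈ I <;> simp [hFd, cF, shL, h, sh, hv]
  have h1 : ∀ l, FI F.sh (F.cq (Sum.elim 0 a)) Finset.univ l ∈ sp k {p | deg p = 1} := fun l => by
    refine sum_mem ?_
    rintro (t | i) -
    · simp [Fan.cq]
    · by_cases h : i ∈ I
      · exact Submodule.smul_mem _ _ (ee_mem (by simp [deg, hFd, cF, shL, h, sh, hat]))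
      · simp [Fan.cq, v2, h]
  have h2 : ∀ g o, 0 ≤ shL e u I g o := by
    rintro (t | i) o
    · simp only [shL, et, Sum.elim_inl, Pi.single_apply]
      positivity
    · by_cases h : i ∈ I <;> simp [shL, h, sh]
  have h0 : ∀ c, ∀ p ∈ F.Mc ∅ c, ∀ o, -⌈c o⌉ ≤ p o := fun c p hp o => by
    obtain ⟨x, h3, h4⟩ := hΦ _ hp.1
    have : 0 ≤ c o + p o := (Finset.sum_nonneg fun g _ => mul_nonneg (h3 g)
      (by exact_mod_cast h2 g o)).trans (h4 o).ge
    exact_mod_cast (show -(⌈c o⌉ : ℚ) ≤ p o by linarith [Int.le_ceil (c o)])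
  obtain ⟨ω, ⟨w1, w2, w3⟩, w4⟩ := hI
  have h3 : ∀ Ψ ⊆ Φ, (∀ t, Sum.inl t ∉ F.It Ψ) → ∀ c, Dep F.sh (F.cq (Sum.elim 0 a)) ⊥ L'
      (F.Mc Ψ c) (F.rr Ψ L') := by
    intro Ψ hΨ hc c
    have : ∀ M : List (Option τ), Dep F.sh (F.cq (Sum.elim 0 a)) ⊥ (M ++ L') (F.Mc Ψ c)
        (F.rr Ψ (M ++ L')) → Dep F.sh (F.cq (Sum.elim 0 a)) ⊥ L' (F.Mc Ψ c) (F.rr Ψ L') := by
      intro M
      induction M with
      | nil => exact id
      | cons o M ih => exact fun h => ih (hF.drop hΨ h1 (fun p hp => h0 c p hp none) h)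
    refine this Finset.univ.toList (hF.depth (fun Ψ => ∀ t, Sum.inl t ∉ F.It Ψ)
      (fun Ψ Ψ' _ e1 e2 t h => e2 t (Fan.mem_It.2 fun l hl => Fan.mem_It.1 h l (e1 hl)))
      (fun _ _ _ => trivial) (fun Ψ hΨ hc i hi => ⟨⊤, fun _ _ => trivial, ?_⟩) _ Ψ hΨ hc
      (Submodule.finrank_map_le _ _) c)
    let I' := I.filter fun i => Sum.inr i ∈ F.It Ψ
    rcases I'.eq_empty_or_nonempty with h | h
    · refine ex_neg (hi.trans_eq ?_)
      rw [Nat.cast_eq_zero, Submodule.finrank_eq_zero, eq_bot_iff, Fan.Sp, Submodule.map_le_iff_le_comap]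
      refine Submodule.span_le.2 ?_
      rintro _ ⟨t | i, hg, rfl⟩
      · exact absurd hg (hc t)
      · exact (v2 i).trans (if_neg fun h' => Finset.filter_eq_empty_iff.1 h h' hg)
    have e1 : ∀ g, 0 ≤ (∑ l ∈ Ψ, l) ⬝ᵥ F.π (F.ρ (F.sh g)) ∧
        (g ∈ F.It Ψ ↔ (∑ l ∈ Ψ, l) ⬝ᵥ F.π (F.ρ (F.sh g)) = 0) := fun g => by
      rw [sum_dotProduct, Finset.sum_eq_zero_iff_of_nonneg fun l hl => hF.nng g l (hΨ hl)]
      exact ⟨Finset.sum_nonneg fun l hl => hF.nng g l (hΨ hl), Fan.mem_It⟩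
    obtain ⟨r, q, e2⟩ := hN I' (fc_of_semi (ω := ex0 e ω) (η := ∑ l ∈ Ψ, l) w1 (fun j => by
      obtain ⟨j | t, rfl⟩ := e.surjective j
      · simpa [ex0, (w2 j).ne'] using (w2 j).le
      · simpa [ex0, v1] using (e1 (.inl t)).1.lt_of_ne' fun h => hc t ((e1 _).2.2 h))
      (fun i => by
        rw [ex0_hv]
        exact ⟨w3 i, fun h => by simpa [v2, (w4 i).2 h] using (e1 (.inr i)).1⟩)
      fun i => by
        rw [ex0_hv, ← w4, Finset.mem_filter, (e1 _).2, v2]
        exact and_congr_right fun h => by rw [if_pos h]) h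
    obtain ⟨s, hs⟩ := fs_of_eu e2
    let ψ := AddMonoidAlgebra.mapDomainRingHom k (AddMonoidHom.fst (Option τ → ℤ) (τ → ℤ))
    have e3 : ∀ j, FI F.sh (F.cq (Sum.elim 0 a)) (F.It Ψ) (some j) =
        ψ (FS u a (I'.map Function.Embedding.inr) j) := fun j => by
      rw [FS, map_sum, FI, Finset.sum_map]
      refine (Finset.sum_subset (s₁ := I'.map Function.Embedding.inr) (fun g hg => ?_)
        fun g h4 h5 => ?_).symm.trans ((Finset.sum_map _ _ _).trans
          (Finset.sum_congr rfl fun i hi => ?_))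
      · obtain ⟨i, hi, rfl⟩ := Finset.mem_map.1 hg
        exact (Finset.mem_filter.1 hi).2
      · rcases g with t | i
        · exact absurd h4 (hc t)
        · simp [Fan.cq, v2, show i ∉ I from fun h => h5 (Finset.mem_map_of_mem _
            (Finset.mem_filter.2 ⟨h, h4⟩))]
      · have := (Finset.mem_filter.1 hi).1
        simp only [Fan.cq, Function.Embedding.inr_apply, v2, this, if_true]
        simp [ψ, ee, ca, nn, hFd, cF, shL, this]
    have := ex_unit (F := FI F.sh (F.cq (Sum.elim 0 a)) (F.It Ψ)) (L := Finset.univ.toList ++ L')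
      (i := i) (fun o => o.elim 0 fun j => ψ (s j)) (by
        rw [show ((Finset.univ : Finset (Option τ)).toList ++ L').toFinset = Finset.univ by simp,
          Fintype.sum_option]
        simpa [e3] using congrArg ψ hs)
    convert this using 1
    exact eq_top_iff.2 fun x _ => mem_sp_univ x
  have hm : ∀ s, s ∈ U0 k e ↔ ∃ r ∈ (RingHom.ker (constantCoeff : MvPolynomial ϑ k →+* k)).map
      (ph0 k e).rangeRestrict, s = 1 + r.1 := fun s => by
    simp only [U0, Submonoid.mem_map, MonoidHom.mem_mker, Ideal.mem_map_iff_of_surjective _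
      (ph0 k e).rangeRestrict_surjective, RingHom.mem_ker]
    exact ⟨fun ⟨q, h, h'⟩ => ⟨_, ⟨q - 1, by simp [h], rfl⟩, by simp [← h']⟩,
      fun ⟨_, ⟨q, h, rfl⟩, h'⟩ => ⟨1 + q, by simp [h], by simp [h']⟩⟩
  have := isNoetherianRing_of_surjective _ _ (ph0 k e).rangeRestrict.toRingHom
    (ph0 k e).rangeRestrict_surjective
  suffices ∀ n, ∀ Ψ ⊆ Φ, (Finset.univ.filter fun t => Sum.inl t ∈ F.It Ψ).card = n → ∀ c,
      Dep F.sh (F.cq (Sum.elim 0 a)) (U0 k e) L' (F.Mc Ψ c) (F.rr Ψ L') from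
    this _ ∅ (Finset.empty_subset _) rfl 0
  intro n
  induction n using Nat.strong_induction_on with
  | _ n ih =>
  intro Ψ hΨ hn c
  by_cases hc : ∀ t, Sum.inl t ∉ F.It Ψ
  · exact (h3 Ψ hΨ hc c).le bot_le
  push Not at hc
  obtain ⟨t, ht⟩ := hc
  refine hF.thick hΨ (fun _ => trivial) hm (deg := deg) ?_ h1 (fun p hp => h0 c p hp none)
    (fun d => ?_) ht (Ideal.mem_map_of_mem _ (show X t ∈ _ by simp [RingHom.mem_ker]))
    (aeval_X _ t) fun Ψ' e1 e2 e3 e4 c => (ih _ (hn ▸ Finset.card_lt_card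
      ⟨fun t h => by
        simpa using Fan.mem_It.2 fun l hl => Fan.mem_It.1 (Finset.mem_filter.1 h).2 l (e2 hl),
      fun h => e3 (by simpa using @h t (by simpa using ht))⟩) Ψ' e1 rfl c).mono ?_
  · rintro ⟨_, q, rfl⟩
    have := ph0_mem e (A := deg.ker) (fun p hp t => by simpa [deg, et] using hp) q 1
      (ee_mem (zero_mem _))
    exact ⟨by rwa [mul_one] at this, fun A hA => ph0_mem e (fun p hp t => add_comm p _ ▸ hA p hp (.inl t)) q⟩
  · let K : ℤ := ∑ i, ∑ o, (sh u (.inr i)).1 o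
    let M : ℤ := ∑ o, |⌈c o⌉| + ∑ o, |⌈(c none + d) * K - c o⌉| + |d|
    refine ⟨Submodule.span _ (ee '' (Finset.Icc (fun _ => -M) fun _ => M : Finset (Option τ → ℤ))),
      Submodule.fg_span ((Finset.finite_toSet _).image _), fun x hx =>
        (Submodule.restrictScalars_mem k _ _).1 (sp_le (fun p h4 => ?_) hx)⟩
    obtain ⟨h4, h5⟩ := h4
    have h6 : ∀ o, |⌈c o⌉| ≤ ∑ o, |⌈c o⌉| := fun o =>
      Finset.single_le_sum (f := fun o => |⌈c o⌉|) (fun _ _ => abs_nonneg _) (Finset.mem_univ o)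
    have h7 : ∀ o, |⌈(c none + d) * K - c o⌉| ≤ ∑ o, |⌈(c none + d) * K - c o⌉| := fun o =>
      Finset.single_le_sum (f := fun o => |⌈(c none + d) * K - c o⌉|) (fun _ _ => abs_nonneg _)
        (Finset.mem_univ o)
    have h8 : ∀ o, -M ≤ p o := fun o => by
      linarith [h0 c p h4 o, h6 o, h7 o, le_abs_self ⌈c o⌉, abs_nonneg d,
        abs_nonneg ⌈(c none + d) * K - c o⌉]
    have h9 : ee p = ph0 k e (∏ t, X t ^ (p (some (e (.inr t))) + M).toNat) *
        ee (p - ∑ t, (p (some (e (.inr t))) + M) • et e t) := by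
      rw [ph0_prod, ee_mul]
      simp only [← natCast_zsmul, Int.toNat_of_nonneg (neg_le_iff_add_nonneg.1 (h8 _)), add_sub_cancel]
    rw [h9, Submodule.restrictScalars_mem]
    refine Submodule.smul_mem _ (⟨_, _, rfl⟩ : (ph0 k e).range) (Submodule.subset_span
      ⟨_, Finset.mem_coe.2 (Finset.mem_Icc.2 (forall_and.1 fun o => ?_)), rfl⟩)
    rw [Pi.sub_apply, sum_et]
    have h10 : p none = d := h5
    rcases o with _ | j
    · exact ⟨by simpa using h8 none, by
        simpa using by linarith [le_abs_self d, (abs_nonneg _).trans (h6 none), (abs_nonneg _).trans (h7 none)]⟩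
    obtain ⟨j | t, rfl⟩ := e.surjective j
    swap
    · simpa using by linarith [abs_nonneg d, (abs_nonneg _).trans (h6 none), (abs_nonneg _).trans (h7 none)]
    refine ⟨by simpa using h8 _, ?_⟩
    obtain ⟨x, e1, e2⟩ := hΦ _ h4.1
    have e3 : c (some (e (.inl j))) + p (some (e (.inl j))) ≤ (c none + d) * K := by
      rw [← h10]
      refine (e2 _).trans_le (le_of_le_of_eq ?_ (congrArg (· * (K : ℚ)) (e2 none)).symm)
      rw [Finset.sum_mul]
      refine Finset.sum_le_sum ?_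
      rintro (t | i) -
      · simp [shL, et]
      by_cases h : i ∈ I
      · simp only [shL, Sum.elim_inr, h, if_true, mul_assoc]
        refine mul_le_mul_of_nonneg_left ?_ (e1 _)
        have : ∀ i o, 0 ≤ (sh u (.inr i)).1 o := fun i o => by simp [sh]
        rw [show (sh u (.inr i)).1 none = 1 by simp [sh, hat], Int.cast_one, one_mul, Int.cast_le]
        exact (Finset.single_le_sum (fun o _ => this i o) (Finset.mem_univ _)).trans
          (Finset.single_le_sum (f := fun i => ∑ o, (sh u (.inr i)).1 o)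
            (fun i _ => Finset.sum_nonneg fun o _ => this i o) (Finset.mem_univ i))
      · simp [shL, h]
    have e4 : p (some (e (.inl j))) ≤ ⌈(c none + d) * K - c (some (e (.inl j)))⌉ := by
      exact_mod_cast (le_sub_iff_add_le'.2 e3).trans (Int.le_ceil _)
    have e5 := le_abs_self ⌈(c none + d) * K - c (some (e (.inl j)))⌉
    simpa using by linarith [h7 (some (e (.inl j))), abs_nonneg d, (abs_nonneg _).trans (h6 none)]
  · refine Submodule.finrank_mono ((Submodule.map_mono e4).trans ?_)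
    rw [Submodule.map_sup, sup_le_iff, Submodule.map_span, Set.image_singleton, v1,
      Submodule.span_singleton_le_iff_mem]
    refine ⟨le_rfl, ?_⟩
    convert Submodule.zero_mem _
    ext o
    by_cases h : o = some (e (.inr t)) <;> simp [res_apply, L', h]

variable (k ϑ) in
def MM : Submonoid (MvPolynomial ϑ k) := Submonoid.closure (Set.range X ∪ {q | constantCoeff q ≠ 0})

variable (k ϑ) in
abbrev RL : Type := Localization (MM k ϑ)

variable (k) in
def XU (t : ϑ) : (RL k ϑ)ˣ :=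
  (IsLocalization.map_units (RL k ϑ) (⟨X t, Submonoid.subset_closure (Or.inl ⟨t, rfl⟩)⟩ : MM k ϑ)).unit

theorem XU_coe (t : ϑ) : (XU k t : RL k ϑ) = algebraMap (MvPolynomial ϑ k) _ (X t) := rfl

variable (u a) in
def aR (i : ι) : RL k ϑ := a i • ∏ t, (XU k t : RL k ϑ) ^ u i (e (.inr t))

def rs : (Option τ → ℤ) →+ Pt σ :=
  AddMonoidHom.mk' (fun p => (fun o => p (o.map fun j => e (.inl j)), 0)) fun _ _ => by ext <;> simp

def lf : Pt σ →+ (Option τ → ℤ) :=
  AddMonoidHom.mk' (fun p o => o.elim (p.1 none) fun j => Sum.elim (fun j => p.1 (some j)) 0 (e.symm j))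
    fun _ _ => funext fun o => by
      rcases o with _ | j
      · rfl
      · obtain ⟨j | j, rfl⟩ := e.surjective j <;> simp

theorem lf_rs (p : Option τ → ℤ) : lf e (rs e p) + ∑ t, p (some (e (.inr t))) • et e t = p :=
  funext fun o => by
    rw [Pi.add_apply, sum_et]
    rcases o with _ | j
    · simp [lf, rs]
    · obtain ⟨j | j, rfl⟩ := e.surjective j <;> simp [lf, rs]

variable (k) in
def ph : AddMonoidAlgebra k (Option τ → ℤ) →ₐ[k] AddMonoidAlgebra (RL k ϑ) (Pt σ) :=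
  AddMonoidAlgebra.lift k _ _
    { toFun := fun p => (∏ t, XU k t ^ p.toAdd (some (e (.inr t)))).1 • ee (rs e p.toAdd)
      map_one' := by simp [ee_zero]
      map_mul' := fun p q => by
        simp [zpow_add, Finset.prod_mul_distrib, ← ee_mul, smul_smul, mul_comm] }

theorem ph_ee (p : Option τ → ℤ) :
    ph k e (ee p) = (∏ t, XU k t ^ p (some (e (.inr t)))).1 • ee (rs e p) :=
  (AddMonoidAlgebra.lift_single _ _ _).trans (one_smul _ _)

theorem ph_ph0 (q : MvPolynomial ϑ k) :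
    ph k e (ph0 k e q) = algebraMap (RL k ϑ) _ (algebraMap _ (RL k ϑ) q) := by
  have : (ph k e).comp (ph0 k e) = (IsScalarTower.toAlgHom k (RL k ϑ) _).comp
      (IsScalarTower.toAlgHom k _ (RL k ϑ)) := algHom_ext fun t => by
    have : rs e (et e t) = 0 := Prod.ext (funext fun o => by cases o <;> simp [rs, et]) rfl
    rw [AlgHom.comp_apply, ph0, aeval_X, ph_ee, this, ee_zero, Finset.prod_eq_single t
      (fun t' _ h => by simp [et, h]) (by simp)]
    simp [et, XU_coe, ← Algebra.algebraMap_eq_smul_one]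
  exact DFunLike.congr_fun this q

theorem MM_le : MM k ϑ ≤ nonZeroDivisors _ := Submonoid.closure_le.2 (by
  rintro _ (⟨t, rfl⟩ | h)
  exacts [mem_nonZeroDivisors_of_ne_zero (X_ne_zero t),
    mem_nonZeroDivisors_of_ne_zero fun h' => h (by simp [h'])])

theorem ph_inj : Function.Injective (ph k e) := by
  let χ : AddMonoidAlgebra (MvPolynomial ϑ k) (Pt σ) →+* AddMonoidAlgebra k (Option τ → ℤ) :=
    AddMonoidAlgebra.liftNCRingHom (ph0 k e).toRingHom
      { toFun := fun p => ee (lf e p.toAdd)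
        map_one' := by simp [ee_zero]
        map_mul' := fun p q => by simp [ee_mul] } fun _ _ => Commute.all _ _
  let ι' := AddMonoidAlgebra.mapRingHom (Pt σ) (algebraMap (MvPolynomial ϑ k) (RL k ϑ))
  have key : ∀ x, ∀ᶠ N : ℕ in atTop, ∃ y, χ y = ee (∑ t, N • et e t) * x ∧
      ι' y = ph k e (ee (∑ t, N • et e t) * x) := fun x => by
    induction x using AddMonoidAlgebra.induction_linear with
    | zero => exact Eventually.of_forall fun _ => ⟨0, by simp⟩
    | add x y hx hy =>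
      exact (hx.and hy).mono fun N ⟨⟨y, h1, h2⟩, y', h3, h4⟩ => ⟨y + y', by simp [*, mul_add]⟩
    | single p c =>
      refine (eventually_all.2 fun t => tendsto_natCast_atTop_atTop.eventually_ge_atTop
        (-p (some (e (.inr t))))).mono fun N hN => ?_
      have h1 : ee (∑ t, N • et e t) * AddMonoidAlgebra.single p c = ph0 k e (C c *
          ∏ t, X t ^ (p (some (e (.inr t))) + N).toNat) * ee (lf e (rs e p)) := by
        rw [map_mul, ph0_prod, mul_assoc, ee_mul, ph0, aeval_C, ← Algebra.smul_def,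
          show AddMonoidAlgebra.single p c = c • ee p by simp [ee], mul_smul_comm, ee_mul]
        simp only [← natCast_zsmul, Int.toNat_of_nonneg (neg_le_iff_add_nonneg'.1 (hN _)), add_smul,
          Finset.sum_add_distrib]
        rw [add_right_comm, add_comm _ (lf e _), lf_rs, add_comm]
      refine ⟨AddMonoidAlgebra.single (rs e p) (C c * ∏ t, X t ^ (p (some (e (.inr t))) + N).toNat),
        h1 ▸ AddMonoidAlgebra.liftNCRingHom_single _ _ _ _ _, ?_⟩
      have h2 : rs e (lf e (rs e p)) = rs e p := Prod.ext (funext fun o => by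
        cases o <;> simp [rs, lf]) rfl
      rw [h1, map_mul (ph k e), ph_ph0, ph_ee, h2, ← Algebra.smul_def]
      simp [ι', lf, ee]
  refine (injective_iff_map_eq_zero _).2 fun x hx => ?_
  obtain ⟨N, y, h1, h2⟩ := (key x).exists
  rw [map_mul, hx, mul_zero] at h2
  rw [AddMonoidAlgebra.map_injective _ (IsLocalization.injective (RL k ϑ) MM_le)
    (h2.trans (map_zero ι').symm), map_zero] at h1
  simpa [← mul_assoc, ee_mul, ee_zero] using congrArg (ee (-∑ t, N • et e t) * ·) h1.symm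

section

variable {R : Type} [CommRing R] (u : ι → σ → ℕ) (a : ι → R)

def coR (g : σ ⊕ ι) (l : σ) : R := Sum.elim (fun _ => 1) a g * nn u g l

def ND3 : Prop := ∀ I, Fc u I → ∀ L : List σ, supp u I ⊆ L.toFinset → ∀ i : ℤ, i < rk (hv u) I →
  ∃ H : AddSubgroup (Pt σ), (∀ p : Pt σ, p.2 = 0 →
    (fun o => (p.1 o : ℚ)) ∈ Submodule.span ℚ (hv u '' I) → p ∈ H) ∧
      Ex (FI (sh u) (coR u a) (I.map Function.Embedding.inr)) L (sa R H) ⊥ i

end

theorem nd3 (hN : ND2 u a) : ND3 (uS e u) (aR e u a) := by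
  classical
  intro I hI L hL i hi
  obtain ⟨Φ, hF, hD⟩ := dep_loc e hN hI L
  set F := cF (shL e u I) Φ with hFd
  have v0 : ∀ g, F.ρ (F.sh g) ∈ F.Sh ∅ := fun g => Fan.sh_mem (Fan.mem_It.2 (by simp))
  have v1 : ∀ t, F.ρ (F.sh (.inl t)) = Pi.single (some (e (.inr t))) 1 := fun t =>
    funext fun o => by simp [hFd, cF, shL, et, Pi.single_apply]
  have v2 : ∀ i, F.ρ (F.sh (.inr i)) = if i ∈ I then hv u i else 0 := fun i =>
    funext fun o => by by_cases h : i ∈ I <;> simp [hFd, cF, shL, h, sh, hv]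
  obtain ⟨ω, ⟨w1, -, -⟩, w4⟩ := hI
  have h1 : rk (hv (uS e u)) I ≤ F.rr ∅ (L.map fun j => some (e (.inl j))) := by
    let g : (Option τ → ℚ) →ₗ[ℚ] (Option σ → ℚ) := LinearMap.pi fun o => o.elim
      (-(ω none)⁻¹ • ∑ j, ω (some j) • LinearMap.proj (some (e (.inl j))))
      fun j => LinearMap.proj (some (e (.inl j)))
    refine (Submodule.finrank_mono (Submodule.span_le.2 ?_)).trans (Submodule.finrank_map_le g _)
    rintro _ ⟨i, hi, rfl⟩
    have h1 : ∀ j, res (L.map fun j => some (e (.inl j))).toFinset (hv u i) (some (e (.inl j))) =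
        uS e u i j := fun j => by
      rw [res_apply]
      split_ifs with h
      · rfl
      · exact (Nat.cast_eq_zero.2 (by_contra fun h' => h (by
          simpa using hL ((mem_supp _).2 ⟨i, hi, h'⟩)))).symm
    refine ⟨_, ⟨hv u i, ⟨_, v0 (.inr i), (v2 i).trans (if_pos hi)⟩, rfl⟩, funext fun o => ?_⟩
    have h2 := (w4 i).1 hi
    rw [dot_hv, add_eq_zero_iff_neg_eq] at h2
    rcases o with _ | j <;> simp [g, h1, ← h2, w1.ne]
  let H₀ := (F.Sh ∅).toAddSubgroup.comap F.ρ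
  let H := (Submodule.span ℚ (hv (uS e u) '' I)).toAddSubgroup.comap
    (((Int.castAddHom ℚ).compLeft _).comp (AddMonoidHom.fst _ _)) ⊓
      (AddMonoidHom.snd (Option σ → ℤ) (σ → ℤ)).ker
  have h2 : ∀ q, ∀ x ∈ sp k H₀, ph0 k e q * x ∈ sp k H₀ :=
    ph0_mem e fun p hp t => add_mem (v0 (.inl t)) hp
  refine ⟨H, fun p h h' => ⟨h', h⟩, ?_⟩
  rw [show FI (sh (uS e u)) (coR (uS e u) (aR e u a)) (I.map Function.Embedding.inr) = fun j =>
    (ph k e).toRingHom (FI F.sh (F.cq (Sum.elim 0 a)) Finset.univ (some (e (.inl j)))) from ?_]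
  refine ex_km _ _ (U := (MM k ϑ).map (ph0 k e)) (A := sa k H₀) (ph_inj e)
    (fun _ ⟨q, _, h⟩ => h ▸ h2 q) (fun x hx => sp_map (N := (sp (RL k ϑ) H).restrictScalars k)
      (ph k e).toLinearMap (fun p hp => ?_) hx) ?_ (fun y hy => ?_) fun c hc hd => ?_
  rotate_right
  · funext j
    simp only [FI, Finset.sum_map, map_sum, Fintype.sum_sum_type, AlgHom.toRingHom_eq_coe,
      RingHom.coe_coe, map_smul, Fan.cq, Sum.elim_inl, Pi.zero_apply, zero_mul, zero_smul,
      Finset.sum_const_zero, zero_add, v2, ph_ee]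
    refine (Finset.sum_congr rfl fun i hi => ?_).trans (Finset.sum_subset (Finset.subset_univ I)
      fun i _ hi => by simp [hi, hFd, cF])
    have : rs e (sh u (.inr i)).1 = sh (uS e u) (.inr i) := Prod.ext (funext fun o => by
      cases o <;> simp [rs, sh, hat, nn, uS]) rfl
    simp only [hi, hFd, cF, shL, Sum.elim_inr, if_true, this, ← smul_assoc]
    simp [coR, aR, sh, hat, nn, uS, mul_smul, Nat.cast_smul_eq_nsmul, mul_comm]
  · rw [AlgHom.toLinearMap_apply, ph_ee, Submodule.restrictScalars_mem]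
    refine Submodule.smul_mem _ _ (ee_mem ⟨?_, rfl⟩)
    refine (Submodule.span_le (p := (Submodule.span ℚ (hv (uS e u) '' I)).comap
      (LinearMap.funLeft ℚ ℚ (Option.map fun j => e (.inl j))))).2 ?_ hp
    rintro _ ⟨t | i, -, rfl⟩
    · exact (Submodule.mem_comap).2 (by
        convert Submodule.zero_mem _
        ext o
        cases o <;> simp [v1])
    · by_cases h : i ∈ I
      · exact Submodule.subset_span ⟨i, h, funext fun o => by cases o <;> simp [v2, h, uS]⟩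
      · simp [v2, h]
  · rintro _ ⟨q, hq, rfl⟩
    obtain ⟨v, hv⟩ := IsLocalization.map_units (RL k ϑ) (⟨q, hq⟩ : MM k ϑ)
    refine ⟨algebraMap (RL k ϑ) _ v⁻¹.1, ?_, fun y hy => Algebra.smul_def v⁻¹.1 y ▸
      Submodule.smul_mem _ _ hy⟩
    refine (congrArg _ (ph_ph0 e q)).trans ?_
    rw [← show v.1 = algebraMap _ _ q from hv, ← map_mul, Units.inv_mul, map_one]
  · have h3 : ∀ p ∈ H, lf e p ∈ H₀ ∧ ph k e (ee (lf e p)) = ee p := fun p hp => by
      have h3 : rs e (lf e p) = p := Prod.ext (funext fun o => by cases o <;> simp [rs, lf]) hp.2.symm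
      refine ⟨?_, by rw [ph_ee, h3]; simp [lf]⟩
      let g : (Option σ → ℚ) →ₗ[ℚ] (Option τ → ℚ) := LinearMap.pi fun o => o.elim
        (LinearMap.proj none) fun j => Sum.elim (fun j => LinearMap.proj (some j)) 0 (e.symm j)
      have : g ((Int.castAddHom ℚ).compLeft _ p.1) ∈ F.Sh ∅ := by
        refine (Submodule.span_le (p := (F.Sh ∅).comap g)).2 ?_ hp.1
        rintro _ ⟨i, hi, rfl⟩
        convert sub_mem (v0 (.inr i)) (sum_mem fun t (_ : t ∈ Finset.univ) =>
          Submodule.smul_mem _ (u i (e (.inr t)) : ℚ) (v0 (.inl t))) using 1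
        simp only [SetLike.mem_coe, Submodule.mem_comap]
        congr! 1
        ext (_ | j)
        · simp [g, v1, v2, show i ∈ I from hi]
        · obtain ⟨j | j, rfl⟩ := e.surjective j <;>
            simp [g, v1, v2, show i ∈ I from hi, Pi.single_apply, uS]
      convert this using 1
      simp only [H₀, AddSubgroup.mem_comap, Submodule.mem_toAddSubgroup]
      congr! 1
      ext (_ | j)
      · rfl
      · obtain ⟨j | j, rfl⟩ := e.surjective j <;> simp [g, hFd, cF, lf]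
    rw [Submodule.mem_toAddSubgroup, sp_eq] at hy
    simp only [AlgHom.toRingHom_eq_coe, RingHom.coe_coe]
    induction hy using Submodule.span_induction with
    | mem y hy =>
      obtain ⟨p, hp, rfl⟩ := hy
      exact ⟨1, one_mem _, _, ee_mem (h3 p hp).1, by simpa using (h3 p hp).2⟩
    | zero => exact ⟨1, one_mem _, 0, zero_mem _, by simp⟩
    | add y z _ _ hy hz =>
      obtain ⟨_, ⟨q, hq, rfl⟩, x, h4, h5⟩ := hy
      obtain ⟨_, ⟨q', hq', rfl⟩, x', h6, h7⟩ := hz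
      refine ⟨_, ⟨_, mul_mem hq hq', rfl⟩, _, add_mem (h2 q' x h4) (h2 q x' h6), ?_⟩
      rw [map_add, map_mul, map_mul, h5, h7, map_mul, map_mul]
      ring
    | smul r y _ hy =>
      obtain ⟨_, ⟨q, hq, rfl⟩, x, h4, h5⟩ := hy
      obtain ⟨⟨g, s⟩, h6⟩ := IsLocalization.surj (MM k ϑ) r
      refine ⟨_, ⟨_, mul_mem hq s.2, rfl⟩, _, h2 g x h4, ?_⟩
      rw [map_mul, h5, map_mul, map_mul, ph_ph0 e g, ph_ph0 e s.1, ← h6, map_mul, Algebra.smul_def r y]
      ring
  · change Dep F.sh _ _ _ _ _ at hD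
    obtain ⟨r, h3⟩ := (fam_ev (B := sa k (F.Mc ∅ 0)) (fun x hx => hF.ev_mem (Finset.empty_subset _)
      trivial 0 x (sp_mono (fun p hp => by rw [Set.mem_ofPred_eq, zero_add]; exact hp) hx)) _ _ c hc).exists
    obtain ⟨_, ⟨q, hq, rfl⟩, c', h4, h5⟩ := hD _ ∅ (hF.can (Finset.empty_subset _) 0).1
      (fun _ => False.elim) (Set.empty_subset _) (Set.sdiff_empty) i (hi.trans_le (by exact_mod_cast h1))
      _ h3 (by rw [map_smul, fam_bot _ _ _ hd, smul_zero]; exact zero_mem _)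
    have h6 : -(r • ∑ g ∈ F.It ∅, F.sh g) ∈ H₀ :=
      neg_mem (nsmul_mem (show _ ∈ H₀ from Fan.sum_mem_Sh subset_rfl) r)
    refine ⟨_, ⟨q, Submonoid.subset_closure (Or.inr (ne_of_eq_of_ne hq one_ne_zero)), rfl⟩,
      (ee (-(r • ∑ g ∈ F.It ∅, F.sh g)) : AddMonoidAlgebra k _) • c', fam_smul (ee_mul_mem
        (B := H₀) fun p hp => add_mem h6 (show F.ρ p ∈ F.Sh ∅ from zero_add (F.ρ p) ▸
          ((hF.mem_Mc (Finset.empty_subset _) trivial).1 hp).1)) _ _ _ h4, ?_⟩
    rw [map_smul, ← sub_eq_zero.1 (fam_bot _ _ _ (fam_mono (sp_le (N := ⊥) (by simp)) _ _ _ h5)),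
      smul_comm (ee _), smul_smul (ee _), ee_pow, ee_mul, neg_add_cancel, ee_zero, one_smul, sub_self]
    exact zero_mem _

end RB

end

end Pool.Agent.P.MP_b91a16_ag
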