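import Pool.Agent.P.MP_b91a16_ag.GShell

/-! Nakayama's lemma for graded Koszul complexes, and shortening of the list of operators. -/

set_option linter.unusedSectionVars false

open Filter

namespace Pool.Agent.P.MP_b91a16_ag

noncomputable section

namespace Kos

variable {k Λ σ : Type} [CommRing k] [CommRing Λ] [Algebra k Λ] {F : σ → Λ} {A B : AddSubgroup Λ}
  {L : List σ} {i : ℤ} {S : Subalgebra k Λ}

theorem fam_fg {N : Submodule S Λ} (h : N.FG) (hA : ∀ x ∈ A, x ∈ N) (L : List σ) (i : ℤ) :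
    ∃ N' : Submodule S (KK Λ L), N'.FG ∧ ∀ c ∈ fam A L i, c ∈ N' := by
  induction L generalizing i with
  | nil => exact ⟨N, h, fun c hc => hA c (mem_nil.1 hc).1⟩
  | cons a L ih =>
    obtain ⟨N₁, h1, h2⟩ := ih i
    obtain ⟨N₂, h3, h4⟩ := ih (i - 1)
    exact ⟨N₁.prod N₂, h1.prod h3, fun c hc => ⟨h2 _ hc.1, h4 _ hc.2⟩⟩

theorem ex_nak [IsNoetherianRing S] {m : Ideal S} {U : Submonoid Λ}
    (hU : ∀ s, s ∈ U ↔ ∃ r ∈ m, s = 1 + r) {t : S} (ht : t ∈ m) {π : ℤ → Λ →+ Λ} {d₀ : ℤ}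
    (hG : Grd F A B π d₀) (h0 : ∀ e x, π e (π e x) = π e x)
    (h1 : ∀ e (s : S) x, π e (s * x) = s * π e x) (sA : ∀ s : S, ∀ x ∈ A, s * x ∈ A)
    (sB : ∀ s : S, ∀ x ∈ B, s * x ∈ B) (hB : ∀ l, ∀ x ∈ B, F l * x ∈ B)
    (hw : ∀ x ∈ A, t * x ∈ B → x ∈ B)
    (hfg : ∀ e, ∃ N : Submodule S Λ, N.FG ∧ ∀ x ∈ A, π e x ∈ N)
    (h : ExL U F L A (B ⊔ A.map (AddMonoidHom.mulLeft (t : Λ))) i) (hA : ∀ l, ∀ x ∈ A, F l * x ∈ A) :
    ExL U F L A B i := by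
  let N : Submodule S (KK Λ L) :=
    { carrier := {c | ∃ c' ∈ fam A L (i - 1), c - dd F L c' ∈ fam B L i}
      zero_mem' := ⟨0, zero_mem _, by simp⟩
      add_mem' := fun ⟨x, h1, h2⟩ ⟨y, h3, h4⟩ => ⟨x + y, add_mem h1 h3, by
        rw [map_add, add_sub_add_comm]; exact add_mem h2 h4⟩
      smul_mem' := fun s _ ⟨x, h1, h2⟩ => ⟨s.1 • x, fam_smul (sA s) L _ _ h1, by
        rw [map_smul, Subalgebra.smul_def, ← smul_sub]; exact fam_smul (sB s) L _ _ h2⟩ }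
  have key : ∀ e, ∃ s ∈ U, ∀ c ∈ fam A L i, dd F L c ∈ fam B L (i + 1) → s • pj (π e) L c ∈ N := by
    intro e
    have h2 : A.map (π e) ≤ A := by
      rintro _ ⟨x, hx, rfl⟩
      exact hG.memA e x hx
    let P : Submodule S (KK Λ L) :=
      { carrier := {c | c ∈ fam (A.map (π e)) L i ∧ dd F L c ∈ fam B L (i + 1)}
        zero_mem' := ⟨zero_mem _, by simp⟩
        add_mem' := fun h1 h2 => ⟨add_mem h1.1 h2.1, by rw [map_add]; exact add_mem h1.2 h2.2⟩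
        smul_mem' := fun s _ h => ⟨fam_smul (z := s.1) (by
          rintro _ ⟨x, hx, rfl⟩
          exact ⟨_, sA s x hx, h1 e s x⟩) L _ _ h.1, by
          rw [Subalgebra.smul_def, map_smul]; exact fam_smul (sB s) L _ _ h.2⟩ }
    have h3 : ∀ c ∈ fam A L i, dd F L c ∈ fam B L (i + 1) → pj (π e) L c ∈ P := fun c hc hd =>
      ⟨pj_mem (fun x hx => AddSubgroup.mem_map_of_mem _ hx) L i c hc, pj_dd (fun l => hG.mul l e) L c ▸
        pj_mem (hG.memB _) L _ _ hd⟩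
    obtain ⟨N₀, h4, h5⟩ := hfg e
    obtain ⟨N₁, h6, h7⟩ := fam_fg (A := A.map (π e)) h4 (by
      rintro _ ⟨x, hx, rfl⟩
      exact h5 x hx) L i
    obtain ⟨r, h8, h9⟩ := Submodule.exists_sub_one_mem_and_smul_le_of_fg_of_le_sup (I := m) (N := N)
      (h6.of_le (S := P) fun c hc => h7 c hc.1) le_rfl fun c hc => by
        have e1 := fam_mono h2 L i c hc.1
        obtain ⟨s, e2, c', e3, e4⟩ := h c e1 (fam_mono le_sup_left L _ _ hc.2)
        obtain ⟨r, e5, rfl⟩ := (hU s).1 e2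
        obtain ⟨y, e6, e7⟩ := fam_sup L i _ e4
        have e8 : dd F L y ∈ fam B L (i + 1) := fam_cancel hw L _ _ (fam_dd hA L i y e6) (by
          have := sub_mem (add_mem hc.2 (fam_smul (sB r) L _ _ hc.2)) (fam_dd hB L i _ e7)
          simpa [dd_dd, add_smul] using this)
        have e9 := pj_mem (hG.memB e) L i _ e7
        rw [map_sub, map_sub, ← sub_add_cancel e 1, pj_dd (fun l => hG.mul l (e - 1)), sub_add_cancel,
          pj_smul (h1 e t), add_smul, one_smul, map_add, pj_smul (h1 e r), pj_id (A := A.map (π e)) (by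
            rintro _ ⟨x, -, rfl⟩
            exact h0 e x) L i c hc.1] at e9
        refine Submodule.mem_sup.2 ⟨c + r • c - t • pj (π e) L y, ⟨_, pj_mem (hG.memA (e - 1)) L _ _ e3,
          by rwa [sub_right_comm]⟩, t • pj (π e) L y - r • c, sub_mem (Submodule.smul_mem_smul ht
            (h3 y e6 e8)) (Submodule.smul_mem_smul e5 hc), by abel⟩
    exact ⟨r, (hU _).2 ⟨_, h8, by simp⟩, fun c hc hd => h9 (Submodule.smul_mem_pointwise_smul _ _ _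
      (h3 c hc hd))⟩
  choose s hs hs' using key
  intro c hc hd
  obtain ⟨T, hT⟩ := pj_fin hG.fin L c
  classical
  refine ⟨∏ e ∈ T, s e, prod_mem fun e _ => hs e, show _ ∈ N from ?_⟩
  rw [← hT T subset_rfl, Finset.smul_sum]
  refine sum_mem fun e he => ?_
  rw [← Finset.prod_erase_mul _ _ he, mul_smul]
  obtain ⟨r, -, h2⟩ := (hU (∏ e ∈ T.erase e, s e)).1 (prod_mem fun e _ => hs e)
  rw [h2, add_smul, one_smul]
  exact add_mem (hs' e c hc hd) (N.smul_mem r (hs' e c hc hd))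

end Kos

namespace RB

open RA Cv Kos

variable {G k γ E τ : Type} [AddCommGroup G] [Field k] [CharZero k] [Fintype γ] [DecidableEq γ]
  [AddCommGroup E] [Module ℚ E] [Fintype τ] [DecidableEq τ]

def res (J : Finset τ) : (τ → ℚ) →ₗ[ℚ] (τ → ℚ) :=
  LinearMap.pi fun o => if o ∈ J then LinearMap.proj o else 0

theorem res_apply (J : Finset τ) (y : τ → ℚ) (o : τ) : res J y o = if o ∈ J then y o else 0 := by
  rw [res, LinearMap.pi_apply]
  split_ifs <;> rfl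

theorem finrank_map_lt {V W : Type} [AddCommGroup V] [Module ℚ V] [AddCommGroup W] [Module ℚ W]
    (f : V →ₗ[ℚ] W) (S : Submodule ℚ V) [Module.Finite ℚ S] {x : V} (h1 : x ∈ S) (h2 : x ≠ 0)
    (h3 : f x = 0) : Module.finrank ℚ (S.map f) < Module.finrank ℚ S := by
  rw [← (f.domRestrict S).finrank_range_add_finrank_ker, LinearMap.range_domRestrict,
    lt_add_iff_pos_right, Nat.pos_iff_ne_zero, Ne, Submodule.finrank_eq_zero]
  exact fun h => h2 (congrArg Subtype.val ((Submodule.eq_bot_iff _).1 h ⟨x, h1⟩ h3))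

namespace Fan

variable (F : Fan G γ E τ)

def cq (b : γ → k) (g : γ) (o : τ) : k := b g * (F.π (F.ρ (F.sh g)) o : ℚ)

def rr (Ψ : Finset (τ → ℚ)) (L : List τ) : ℕ := Module.finrank ℚ ((F.Sp Ψ).map (res L.toFinset))

variable {F} {Ψ : Finset (τ → ℚ)} {L : List τ} {b : γ → k} {c : E} {deg : G →+ ℤ}

theorem Ok.can (hF : F.Ok) (hΨ : Ψ ⊆ F.Φ) (c : E) : Cd F.sh (F.Mc ∅ c) ∧
    Cd F.sh (F.Mc ∅ c \ F.Mc Ψ c) ∧ F.Mc ∅ c \ (F.Mc ∅ c \ F.Mc Ψ c) = F.Mc Ψ c ∧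
      ∀ p ∈ F.Mc ∅ c, ∀ g ∉ F.It Ψ, p + F.sh g ∈ F.Mc ∅ c \ F.Mc Ψ c := by
  have h1 : Cd F.sh (F.Mc ∅ c) := fun p hp g =>
    ⟨by rw [map_add, ← add_assoc]; exact hF.add _ hp.1 g, by simp⟩
  have h2 : ∀ p ∈ F.Mc ∅ c, ∀ g, p + F.sh g ∈ F.Mc Ψ c → p ∈ F.Mc Ψ c ∧ g ∈ F.It Ψ :=
    fun p hp g h => by
      have := fun l hl => (add_eq_zero_iff_of_nonneg (hF.nn _ hp.1 l (hΨ hl))
        (hF.nng g l (hΨ hl))).1 (by rw [← dotProduct_add, ← pi_sh]; exact h.2 l hl)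
      exact ⟨⟨hp.1, fun l hl => (this l hl).1⟩, mem_It.2 fun l hl => (this l hl).2⟩
  exact ⟨h1, fun p hp g => ⟨h1 p hp.1 g, fun h => hp.2 (h2 p hp.1 g h).1⟩,
    Set.sdiff_sdiff_cancel_left fun p hp => ⟨hp.1, by simp⟩,
    fun p hp g hg => ⟨h1 p hp g, fun h => hg (h2 p hp g h).2⟩⟩

theorem Ok.drop (hF : F.Ok) (hΨ : Ψ ⊆ F.Φ) {a : τ}
    (h1 : ∀ l, FI F.sh (F.cq b) Finset.univ l ∈ sp k {p | deg p = 1}) {d₀ : ℤ}
    (h0 : ∀ p ∈ F.Mc ∅ c, d₀ ≤ deg p)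
    (h : Dep F.sh (F.cq b) ⊥ (a :: L) (F.Mc Ψ c) (F.rr Ψ (a :: L))) :
    Dep F.sh (F.cq b) ⊥ L (F.Mc Ψ c) (F.rr Ψ L) := by
  obtain ⟨h2, h3, h4, h5⟩ := hF.can hΨ c
  replace h := fun i hi => exL_bot.1 (h _ _ h2 h3 Set.sdiff_subset h4 i hi)
  have e : (F.Sp Ψ).map (res L.toFinset) =
      ((F.Sp Ψ).map (res (a :: L).toFinset)).map (res L.toFinset) := by
    rw [← Submodule.map_comp]
    congr 1
    refine LinearMap.ext fun y => funext fun o => ?_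
    by_cases ho : o ∈ L <;> simp [res_apply, ho]
  refine dep_of_pair pres_bot h2 h3 h4 fun i hi => Ex.exL ?_
  rcases exists_xi (fun o g => if g ∈ F.It Ψ then F.π (F.ρ (F.sh g)) o else 0) L.toFinset
    (fun g => if g ∈ F.It Ψ then F.π (F.ρ (F.sh g)) a else 0) with ⟨ξ, h6, h7⟩ | ⟨r, h6, h7⟩
  · have e1 : ∀ o, (F.π (∑ g ∈ F.It Ψ, ξ g • F.ρ (F.sh g))) o =
        ∑ g, ξ g * if g ∈ F.It Ψ then F.π (F.ρ (F.sh g)) o else 0 := fun o => by simp
    have := finrank_map_lt (res L.toFinset) ((F.Sp Ψ).map (res (a :: L).toFinset))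
      ⟨_, ⟨_, sum_mem fun g hg => Submodule.smul_mem _ (ξ g) (sh_mem hg), rfl⟩, rfl⟩
      (fun h => h7 (by rw [← e1]; simpa [res_apply] using congrFun h a))
      (funext fun o => by
        rw [res_apply, res_apply, e1]
        split_ifs with h h' <;> simp only [Pi.zero_apply]
        exact h6 o h)
    refine ex_tail (π := fun e => (pi deg e).toAddMonoidHom) (d₀ := d₀) ⟨fun l => pi_mul (h1 l),
      fun _ _ => diag_mem _, fun _ _ => diag_mem _, pi_low h0, (gr_pi deg).fin⟩ (h2.fi _) (h3.fi _)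
      (h (i + 1) ?_)
    rw [rr, e] at hi
    rw [rr]
    omega
  · refine ex_red (fun o => algebraMap k _ (r o)) (fun x hx => ?_)
      (fun l x hx => Algebra.smul_def (r l : k) x ▸ Submodule.smul_mem _ _ hx)
      (fun l x hx => Algebra.smul_def (r l : k) x ▸ Submodule.smul_mem _ _ hx)
      (h i (hi.trans_le (by rw [rr, e]; exact_mod_cast Submodule.finrank_map_le _ _)))
    simp only [FI, ← Algebra.smul_def, Finset.smul_sum, smul_smul]
    rw [Finset.sum_comm, ← Finset.sum_sub_distrib, Finset.sum_mul]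
    refine sum_mem fun g _ => ?_
    rw [← Finset.sum_smul, ← sub_smul, smul_mul_assoc]
    by_cases hg : g ∈ F.It Ψ
    · have := congrArg (fun x : ℚ => b g * (x : k)) (h7 g)
      rw [← Finset.sum_subset (Finset.subset_univ L.toFinset) fun o _ ho => by
        rw [h6 o ho, zero_mul]] at this
      simp only [hg, if_true, Rat.cast_sum, Rat.cast_mul, Finset.mul_sum, mul_left_comm (b g)] at this
      simp [cq, this]
    · exact Submodule.smul_mem _ _ (ee_mul_mem (fun p hp => add_comm p _ ▸ h5 p hp g hg) x hx)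

theorem Ok.thick (hF : F.Ok) (hΨ : Ψ ⊆ F.Φ) (hc : ∀ Ψ', F.Good Ψ') {σ : Type} [DecidableEq σ]
    {co : γ → σ → k} {L : List σ} {S : Subalgebra k (AddMonoidAlgebra k G)} [IsNoetherianRing S]
    {m : Ideal S} {U : Submonoid (AddMonoidAlgebra k G)} (hU : ∀ s, s ∈ U ↔ ∃ r ∈ m, s = 1 + r)
    (hS : ∀ s : S, s.1 ∈ sp k deg.ker ∧ ∀ A, Cd F.sh A → ∀ x ∈ sp k A, s * x ∈ sp k A)
    (h1 : ∀ l, FI F.sh co Finset.univ l ∈ sp k {p | deg p = 1}) {d₀ : ℤ}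
    (h0 : ∀ p ∈ F.Mc ∅ c, d₀ ≤ deg p)
    (hfg : ∀ e, ∃ N : Submodule S (AddMonoidAlgebra k G), N.FG ∧
      ∀ x ∈ sp k (F.Mc ∅ c ∩ {p | deg p = e}), x ∈ N)
    {g : γ} (hg : g ∈ F.It Ψ) {t : S} (ht : t ∈ m) (ht' : t.1 = ee (F.sh g)) {d : ℕ}
    (ih : ∀ Ψ' ⊆ F.Φ, Ψ ⊆ Ψ' → g ∉ F.It Ψ' → F.Sp Ψ ≤ F.Sp Ψ' ⊔ ℚ ∙ F.π (F.ρ (F.sh g)) → ∀ c,
      Dep F.sh co U L (F.Mc Ψ' c) d) : Dep F.sh co U L (F.Mc Ψ c) d := by
  obtain ⟨h2, h3, h4, -⟩ := hF.can hΨ c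
  have hP : Pres F.sh U := fun s hs A hA x hx => by
    obtain ⟨r, -, rfl⟩ := (hU s).1 hs
    rw [add_mul, one_mul]
    exact add_mem hx ((hS r).2 A hA x hx)
  obtain ⟨h5, h6, h7, h8⟩ := hF.sub_eq hΨ (hc Ψ) (Finset.singleton_subset_iff.2 hg) h2 h3
    Set.sdiff_subset h4
  have h9 := hF.layers hP hΨ (Finset.singleton_subset_iff.2 hg) (fun Ψ' _ _ => hc Ψ')
    (fun Ψ' e1 e2 e3 e4 => ih Ψ' e1 e2 (fun h => e3.elim fun l hl => hl.2.ne' (by
      simpa using mem_It.1 h l hl.1)) (by simpa using e4)) c _ _ h2 h6 h7 h8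
  rw [Finset.sum_singleton] at h5 h9
  refine dep_of_pair hP h2 h3 h4 fun i hi => ex_nak hU ht (π := fun e => (pi deg e).toAddMonoidHom)
    (d₀ := d₀) ⟨fun l => pi_mul (h1 l), fun _ _ => diag_mem _, fun _ _ => diag_mem _, pi_low h0,
      (gr_pi deg).fin⟩ (fun e x => ((gr_pi deg).orth e e x).trans (if_pos rfl))
    (fun e s x => diag_mul_of_sp (fun h hh p => by rw [map_add, show deg h = 0 from hh, zero_add])
      (hS s).1 x) (fun s => (hS s).2 _ h2) (fun s => (hS s).2 _ h3) (h3.fi _)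
    (fun x hx => ht' ▸ cancel_sp h5 hx) (fun e => (hfg e).imp fun N h => ⟨h.1, fun x hx => h.2 _ ?_⟩)
    (by rw [ht', sp_shift]; exact h9 i hi) (h2.fi _)
  refine sp_map (pi deg e) (fun p hp => ?_) hx
  rw [pi_ee]
  split_ifs with h
  exacts [ee_mem ⟨hp, h⟩, zero_mem _]

end Fan

end RB

end

end Pool.Agent.P.MP_b91a16_ag
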