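import Pool.Agent.P.MP_b91a16_ag.GLoc

/-! The twisted Euler operators on the Laurent module over a ring of parameters. -/

set_option linter.unusedSectionVars false

namespace Pool.Agent.P.MP_b91a16_ag

noncomputable section

namespace RB

open RA Cv

abbrev LR (R σ : Type) [CommRing R] : Type := AddMonoidAlgebra R (Pt σ)

variable {k R σ ι : Type} [Field k] [CharZero k] [CommRing R] [Algebra k R] [Fintype σ]
  [DecidableEq σ] [Fintype ι] [DecidableEq ι]

section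

variable (k) (u : ι → σ → ℕ) (a : ι → R) (β : Option σ → ℚ)

def cq (ξ : Option σ → ℚ) (η : σ → ℚ) : σ ⊕ ι → ℚ := Sum.elim η fun i => ξ ⬝ᵥ hv u i

def cb : σ ⊕ ι → R := Sum.elim (fun _ => 1) a

def dg (ξ : Option σ → ℚ) : Module.End R (LR R σ) :=
  diag fun p => algebraMap k R ((ξ ⬝ᵥ qv β p : ℚ) : k)

def FX (ξ : Option σ → ℚ) (η : σ → ℚ) : LR R σ := ∑ g, (cq u ξ η g : k) • cb a g • ee (sh u g)

def Op (ξ : Option σ → ℚ) (η : σ → ℚ) : Module.End R (LR R σ) :=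
  dg k β ξ + LinearMap.mulLeft R (FX k u a ξ η)

def Dl (j : σ) : Module.End R (LR R σ) := Op k u a β (Pi.single (some j) 1) (Pi.single j 1)

def PP : Subalgebra k (Module.End R (LR R σ)) :=
  Algebra.adjoin k (Set.range fun x : (Option σ → ℚ) × (σ → ℚ) => Op k u a β x.1 x.2)

def JJ' (A B : Set (Pt σ)) : Submodule R (LR R σ) :=
  Im (Dl k u a β) Finset.univ (fun _ => sp R A) ⊔ sp R B

theorem dg_ee (ξ : Option σ → ℚ) (p : Pt σ) :
    dg k β ξ (ee p : LR R σ) = ((ξ ⬝ᵥ qv β p : ℚ) : k) • ee p := by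
  rw [dg, diag_ee, algebraMap_smul]

theorem FX_mul (ξ : Option σ → ℚ) (η : σ → ℚ) (p : Pt σ) :
    FX k u a ξ η * ee p = ∑ g, (cq u ξ η g : k) • cb a g • ee (p + sh u g) := by
  simp only [FX, Finset.sum_mul, smul_mul_assoc, ee_mul, add_comm p]

theorem Op_ee (ξ : Option σ → ℚ) (η : σ → ℚ) (p : Pt σ) : Op k u a β ξ η (ee p) =
    ((ξ ⬝ᵥ qv β p : ℚ) : k) • ee p + ∑ g, (cq u ξ η g : k) • cb a g • ee (p + sh u g) := by
  simp only [Op, LinearMap.add_apply, dg_ee, LinearMap.mulLeft_apply, FX_mul]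

theorem qv_add' (p p' : Pt σ) : qv β (p + p') = qv β p + fun o => (p'.1 o : ℚ) :=
  funext (qv_add β p p')

theorem dg_mul (ξ : Option σ → ℚ) (p : Pt σ) (x : LR R σ) : dg k β ξ (ee p * x) =
    ee p * dg k β ξ x + ((ξ ⬝ᵥ fun o => (p.1 o : ℚ) : ℚ) : k) • (ee p * x) := by
  have : dg k β ξ ∘ₗ LinearMap.mulLeft R (ee p) = LinearMap.mulLeft R (ee p) ∘ₗ dg k β ξ +
      ((ξ ⬝ᵥ fun o => (p.1 o : ℚ) : ℚ) : k) • LinearMap.mulLeft R (ee p) := hom_ext fun p' => by
    simp only [LinearMap.comp_apply, LinearMap.mulLeft_apply, ee_mul, dg_ee,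
      LinearMap.add_apply, LinearMap.smul_apply, mul_smul_comm, ← add_smul, add_comm p p', qv_add',
      dotProduct_add, Rat.cast_add]
  exact LinearMap.congr_fun this x

theorem Op_mul (ξ : Option σ → ℚ) (η : σ → ℚ) (p : Pt σ) (x : LR R σ) :
    Op k u a β ξ η (ee p * x) =
      ee p * Op k u a β ξ η x + ((ξ ⬝ᵥ fun o => (p.1 o : ℚ) : ℚ) : k) • (ee p * x) := by
  simp only [Op, LinearMap.add_apply, dg_mul, LinearMap.mulLeft_apply, mul_add]
  rw [mul_left_comm]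
  abel

theorem dot_sh (ξ : Option σ → ℚ) (g : σ ⊕ ι) :
    (ξ ⬝ᵥ fun o => ((sh u g).1 o : ℚ)) = cq u ξ 0 g := by
  rcases g with j | i
  · simp [sh, cq, dotProduct]
  · rfl

theorem Op_comm (ξ ξ' : Option σ → ℚ) (η η' : σ → ℚ) :
    Commute (Op k u a β ξ η) (Op k u a β ξ' η') := by
  have key : ∀ (ξ ξ' : Option σ → ℚ) (η' : σ → ℚ) (x : LR R σ), dg k β ξ (FX k u a ξ' η' * x) =
      FX k u a ξ' η' * dg k β ξ x +
        (∑ g, ((cq u ξ 0 g : k) * cq u ξ' 0 g) • cb a g • ee (sh u g)) * x := by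
    intro ξ ξ' η' x
    simp only [FX, Finset.sum_mul, map_sum, smul_mul_assoc, LinearMap.map_smul_of_tower, map_smul,
      dg_mul, smul_add, Finset.sum_add_distrib, add_right_inj, dot_sh]
    refine Finset.sum_congr rfl ?_
    rintro (j | i) -
    · simp [cq]
    · rw [smul_comm (cb a _), smul_smul, mul_comm]
      simp only [cq, Sum.elim_inr]
  refine LinearMap.ext fun x => ?_
  have : dg k β ξ (dg k β ξ' x) = dg k β ξ' (dg k β ξ x) := by
    simp only [dg, ← Module.End.mul_apply]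
    rw [(diag_comm _ _).eq]
  simp only [Op, Module.End.mul_apply, LinearMap.add_apply, LinearMap.mulLeft_apply, key, mul_add,
    this]
  rw [mul_left_comm (FX k u a ξ η)]
  simp only [mul_comm (cq u ξ 0 _ : k)]
  abel

theorem Op_add (ξ ξ' : Option σ → ℚ) (η η' : σ → ℚ) :
    Op k u a β (ξ + ξ') (η + η') = Op k u a β ξ η + Op k u a β ξ' η' := hom_ext fun p => by
  have : ∀ g, cq u (ξ + ξ') (η + η') g = cq u ξ η g + cq u ξ' η' g := by
    rintro (j | i) <;> simp [cq]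
  simp only [LinearMap.add_apply, Op_ee, this, add_dotProduct, Finset.sum_add_distrib,
    Rat.cast_add, add_smul]
  abel

theorem Op_smul (c : ℚ) (ξ : Option σ → ℚ) (η : σ → ℚ) :
    Op k u a β (c • ξ) (c • η) = (c : k) • Op k u a β ξ η := hom_ext fun p => by
  have : ∀ g, cq u (c • ξ) (c • η) g = c * cq u ξ η g := by
    rintro (j | i) <;> simp [cq]
  simp only [LinearMap.smul_apply, Op_ee, this, smul_dotProduct, smul_eq_mul, Rat.cast_mul,
    smul_add, Finset.smul_sum, mul_smul]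

theorem Op_zero : Op k u a β 0 0 = 0 := by simpa using Op_smul k u a β 0 0 0

theorem Op_ext0 (ξ : σ → ℚ) : Op k u a β (ext0 ξ) ξ = ∑ j, (ξ j : k) • Dl k u a β j := by
  have : ∀ s : Finset σ, Op k u a β (∑ j ∈ s, ξ j • Pi.single (some j) 1)
      (∑ j ∈ s, ξ j • Pi.single j 1) = ∑ j ∈ s, (ξ j : k) • Dl k u a β j := by
    intro s
    induction s using Finset.induction_on with
    | empty => simpa using Op_zero k u a β
    | insert j s hj ih => simp only [Finset.sum_insert hj, Op_add, Op_smul, ih, Dl]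
  rw [← this]
  congr 1
  · ext (_ | j) <;> simp [ext0, Pi.single_apply]
  · ext j
    simp [Pi.single_apply]

theorem Op_y (j : σ) (x : LR R σ) :
    Op k u a β 0 (Pi.single j 1) x = ee (sh u (Sum.inl j)) * x := by
  have : Op k u a β 0 (Pi.single j 1) = LinearMap.mulLeft R (ee (sh u (Sum.inl j))) :=
    hom_ext fun p => by
      simp [Op_ee, cq, cb, Pi.single_apply, ee_mul, add_comm, apply_ite]
  rw [this]
  rfl

theorem FX_Dl (l : σ) :
    FX k u a (Pi.single (some l) 1) (Pi.single l 1) = FI (sh u) (coR u a) Finset.univ l := by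
  refine Finset.sum_congr rfl ?_
  rintro (j | i) -
  · by_cases h : l = j <;> simp [cq, cb, coR, nn, eq_comm, h]
  · simp [cq, cb, coR, nn, mul_comm (a i), mul_smul, Nat.cast_smul_eq_nsmul]

theorem Op_mem (ξ : Option σ → ℚ) (η : σ → ℚ) : Op k u a β ξ η ∈ PP k u a β :=
  Algebra.subset_adjoin ⟨(ξ, η), rfl⟩

end

variable {u : ι → σ → ℕ} {a : ι → R} {β : Option σ → ℚ} {A B : Set (Pt σ)}

theorem Cd.op (h : Cd (sh u) A) (ξ : Option σ → ℚ) (η : σ → ℚ) :
    ∀ x ∈ sp R A, Op k u a β ξ η x ∈ sp R A := fun _ hx => sp_map _ (fun p hp => by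
  rw [Op_ee]
  exact add_mem (Submodule.smul_of_tower_mem _ _ (ee_mem hp)) (sum_mem fun g _ =>
    Submodule.smul_of_tower_mem _ _ (Submodule.smul_mem _ _ (ee_mem (h p hp g))))) hx

theorem PP_comm {v w : Module.End R (LR R σ)} (hv : v ∈ PP k u a β) (hw : w ∈ PP k u a β) :
    Commute v w :=
  Algebra.commute_of_mem_adjoin_of_forall_mem_commute hw fun _ ⟨_, hx⟩ =>
    (Algebra.commute_of_mem_adjoin_of_forall_mem_commute hv fun _ ⟨_, hy⟩ =>
      hx ▸ hy ▸ Op_comm k u a β _ _ _ _).symm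

theorem PP_stab {N : Submodule R (LR R σ)} (h : ∀ ξ η, ∀ x ∈ N, Op k u a β ξ η x ∈ N)
    {v : Module.End R (LR R σ)} (hv : v ∈ PP k u a β) : ∀ x ∈ N, v x ∈ N := by
  induction hv using Algebra.adjoin_induction with
  | mem v hv =>
    obtain ⟨x, rfl⟩ := hv
    exact h _ _
  | algebraMap c => exact fun x hx => N.smul_of_tower_mem c hx
  | add v w _ _ hv hw => exact fun x hx => add_mem (hv x hx) (hw x hx)
  | mul v w _ _ hv hw => exact fun x hx => hv _ (hw x hx)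

theorem JJ_stab (hA : Cd (sh u) A) (hB : Cd (sh u) B) {v : Module.End R (LR R σ)}
    (hv : v ∈ PP k u a β) : ∀ x ∈ JJ' k u a β A B, v x ∈ JJ' k u a β A B :=
  fun _ hx => map_sup v (fun _ hx => map_Im v (fun l hl x hx => by
    rw [← Module.End.mul_apply, (PP_comm hv (w := Dl k u a β l) (Op_mem k u a β _ _)).eq]
    exact Submodule.mem_sup_left (mem_Im hl (PP_stab hA.op hv x hx))) hx)
    (fun x hx => Submodule.mem_sup_right (PP_stab hB.op hv x hx)) hx

theorem Op_ext0_mem (ξ : σ → ℚ) {x : LR R σ} (hx : x ∈ sp R A) :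
    Op k u a β (ext0 ξ) ξ x ∈ JJ' k u a β A B := by
  rw [Op_ext0, LinearMap.sum_apply]
  exact sum_mem fun j _ => Submodule.smul_of_tower_mem _ (ξ j : k)
    (Submodule.mem_sup_left (mem_Im (F := Dl k u a β) (Finset.mem_univ j) hx))

variable (k u a β A B) in
structure Setup : Prop where
  cA : Cd (sh u) A
  cB : Cd (sh u) B
  cone : ∀ p : Pt σ, 0 ≤ p.2 → (∃ c : ι → ℚ, (∀ i, 0 ≤ c i) ∧
    ∀ o, qv β p o = ∑ i, c i * hat u (Sum.inr i) o) → p ∈ A
  nil : ∀ ξ, ∃ r, ∀ x ∈ sp R A, (Op k u a β ξ 0 ^ r) x ∈ JJ' k u a β A B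
  one : ∀ j, β (some j) = 1
  pos : 0 < β none
  base : ∃ C : Set (Pt σ), (∀ p ∈ C, ∀ i, p + sh u (Sum.inr i) ∈ C) ∧ (∀ p ∈ C, 0 ≤ p.2) ∧
    (∀ p ∈ C, p ∈ A → p ∈ B) ∧ ∀ m, pt ∅ m + xm 0 (-1) ∈ C
  zero : (0 : Pt σ) ∈ A
  loc : ∀ m : σ → ℤ, 0 ≤ m → m ≠ 0 → xm m 0 ∈ B
  nz : ee 0 ∉ JJ' k u a β A B

variable (k u a β A B) in
def UU : Submonoid (Module.End R (LR R σ)) where
  carrier := {v | v ∈ PP k u a β ∧ ((∀ x ∈ sp R A, v x ∈ sp R A) ∧
    ∀ x ∈ sp R A, v x ∈ JJ' k u a β A B → x ∈ JJ' k u a β A B)}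
  one_mem' := ⟨one_mem _, fun _ h => h, fun _ _ h => h⟩
  mul_mem' := fun hv hw => ⟨mul_mem hv.1 hw.1, fun x hx => hv.2.1 _ (hw.2.1 x hx),
    fun x hx h => hw.2.2 x hx (hv.2.2 _ (hw.2.1 x hx) h)⟩

theorem unit_mem (hA : Cd (sh u) A) (hB : Cd (sh u) B) {ξ : Option σ → ℚ}
    (h : ∃ r, ∀ x ∈ sp R A, (Op k u a β ξ 0 ^ r) x ∈ JJ' k u a β A B) {ψ : Module.End R (LR R σ)}
    (hψ : ψ ∈ PP k u a β) {c : k} (hc : c ≠ 0) :
    algebraMap k _ c + ψ * Op k u a β ξ 0 ∈ UU k u a β A B := by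
  have h1 := mul_mem hψ (Op_mem k u a β ξ 0)
  have h2 := add_mem ((PP k u a β).algebraMap_mem c) h1
  refine ⟨h2, PP_stab hA.op h2, fun x hx h3 => ?_⟩
  obtain ⟨r, hr⟩ := h
  have h4 : ∀ n : ℕ, (-c) ^ n • x - ((ψ * Op k u a β ξ 0) ^ n) x ∈ JJ' k u a β A B := by
    intro n
    induction n with
    | zero => simp
    | succ n ih =>
      have := sub_mem (JJ_stab hA hB h1 _ ih) (Submodule.smul_of_tower_mem _ ((-c) ^ n) h3)
      convert this using 1
      simp only [pow_succ', Module.End.mul_apply, LinearMap.add_apply, map_sub,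
        LinearMap.map_smul_of_tower, Module.algebraMap_end_apply, smul_add, smul_smul, neg_mul,
        neg_smul, mul_comm c]
      abel
  have h5 : ((ψ * Op k u a β ξ 0) ^ r) x ∈ JJ' k u a β A B := by
    rw [(PP_comm hψ (Op_mem k u a β ξ 0)).mul_pow]
    exact JJ_stab hA hB (pow_mem hψ r) _ (hr x hx)
  have := Submodule.smul_of_tower_mem _ ((-c) ^ r)⁻¹ (add_mem (h4 r) h5)
  rwa [sub_add_cancel, smul_smul, inv_mul_cancel₀ (pow_ne_zero _ (neg_ne_zero.2 hc)),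
    one_smul] at this

theorem unit_ee (ξ : Option σ → ℚ) (p : Pt σ) :
    (algebraMap k (Module.End R (LR R σ)) (-((ξ ⬝ᵥ qv β p : ℚ) : k)) + 1 * Op k u a β ξ 0) (ee p) =
      ∑ i, ((ξ ⬝ᵥ hv u i : ℚ) : k) • a i • ee (p + sh u (Sum.inr i)) := by
  rw [one_mul, LinearMap.add_apply, Op_ee, Module.algebraMap_end_apply, neg_smul,
    neg_add_cancel_left]
  simp [cq, cb]

def Setup.NN (h : Setup k u a β A B) : Submodule R (LR R σ) :=
  sat (UU k u a β A B) (fun _ hv _ hw => PP_comm hv.1 hw.1) (JJ' k u a β A B)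
    fun _ hv => JJ_stab h.cA h.cB hv.1

theorem Setup.le_NN (h : Setup k u a β A B) : JJ' k u a β A B ≤ h.NN := fun _ hx =>
  ⟨1, one_mem _, hx⟩

theorem Setup.NN_stab (h : Setup k u a β A B) {v : Module.End R (LR R σ)} (hv : v ∈ PP k u a β)
    {x : LR R σ} (hx : x ∈ h.NN) : v x ∈ h.NN := by
  obtain ⟨w, hw, hx⟩ := hx
  refine ⟨w, hw, ?_⟩
  rw [← Module.End.mul_apply, (PP_comm hw.1 hv).eq]
  exact JJ_stab h.cA h.cB hv _ hx

theorem Setup.NN_cancel (h : Setup k u a β A B) {v : Module.End R (LR R σ)}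
    (hv : v ∈ UU k u a β A B) {x : LR R σ} (hx : v x ∈ h.NN) : x ∈ h.NN := by
  obtain ⟨w, hw, hx⟩ := hx
  exact ⟨w * v, mul_mem hw hv, hx⟩

theorem Setup.mov (h : Setup k u a β A B) {C : Set (Pt σ)}
    (hC : ∀ p ∈ C, ∀ i, p + sh u (Sum.inr i) ∈ C) (hC' : ∀ p ∈ C, 0 ≤ p.2)
    (N : Submodule R (LR R σ)) (hN : ∀ v ∈ UU k u a β A B, ∀ x, v x ∈ N → x ∈ N)
    (hA : ∀ p ∈ C, p ∈ A → ee p ∈ N) : ∀ p ∈ C, ee p ∈ N := by
  refine moving (fun i => sh u (Sum.inr i)) N hC fun p hp I => ?_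
  rcases exists_xi (fun i o => (hat u (Sum.inr i) o : ℚ)) I (qv β p) with
    ⟨ξ, h1, h2⟩ | ⟨r, h1, h2⟩
  · refine Or.inl fun h3 => hN _ (unit_mem h.cA h.cB (h.nil ξ) (one_mem _)
      (c := -((ξ ⬝ᵥ qv β p : ℚ) : k)) (neg_ne_zero.2 (Rat.cast_ne_zero.2 h2))) _ ?_
    rw [unit_ee]
    refine sum_mem fun i _ => ?_
    by_cases hi : i ∈ I
    · rw [show ξ ⬝ᵥ hv u i = 0 from h1 i hi, Rat.cast_zero, zero_smul]
      exact zero_mem _
    · exact N.smul_of_tower_mem _ (N.smul_mem _ (h3 i hi))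
  · obtain ⟨M, hM⟩ := exists_nat_ge (∑ i, |r i|)
    refine Or.inr ⟨M, fun c hc => ?_⟩
    have h3 := closed_sum _ hC p hp c
    refine hA _ h3 (h.cone _ (hC' _ h3) ⟨fun i => r i + c i, fun i => ?_, fun o => ?_⟩)
    · by_cases hi : i ∈ I
      · have h4 : (M : ℚ) ≤ c i := by exact_mod_cast hc i hi
        have := Finset.single_le_sum (f := fun i => |r i|) (fun _ _ => abs_nonneg _)
          (Finset.mem_univ i)
        linarith [neg_abs_le (r i)]
      · simp [h1 i hi]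
    · rw [qv_add, h2, sum_sh]
      simp [add_mul, Finset.sum_add_distrib]

theorem cd_pos : Cd (sh u) {p : Pt σ | 0 ≤ p.2} := closed_pos

theorem Setup.dl_mem (h : Setup k u a β A B) (j : σ) {x : LR R σ}
    (hx : x ∈ sp R {p : Pt σ | 0 ≤ p.2}) : Dl k u a β j x ∈ h.NN :=
  sp_map _ (h.mov (fun p hp i => closed_pos p hp _) (fun _ hp => hp) (h.NN.comap (Dl k u a β j))
    (fun v hv x hx => h.NN_cancel hv (by
      rw [← Module.End.mul_apply, (PP_comm hv.1 (w := Dl k u a β j) (Op_mem k u a β _ _)).eq]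
      exact hx))
    fun p _ hp => h.le_NN (Submodule.mem_sup_left (mem_Im (Finset.mem_univ j) (ee_mem hp)))) hx

variable (k u a β) in
def sop : Module.End R (LR R σ) := Op k u a β (Pi.single none 1) 0 - algebraMap k _ (β none : k)

theorem sop_mem : sop k u a β ∈ PP k u a β :=
  sub_mem (Op_mem k u a β _ _) ((PP k u a β).algebraMap_mem _)

theorem aeval_sop_mem (p : Polynomial k) : Polynomial.aeval (sop k u a β) p ∈ PP k u a β :=
  Algebra.adjoin_le (S := PP k u a β) (Set.singleton_subset_iff.2 sop_mem)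
    (Polynomial.aeval_mem_adjoin_singleton k _)

theorem comm_aeval {φ : Module.End R (LR R σ)} (h : Commute φ (sop k u a β)) (p : Polynomial k) :
    Commute φ (Polynomial.aeval (sop k u a β) p) :=
  Algebra.commute_of_mem_adjoin_of_forall_mem_commute (Polynomial.aeval_mem_adjoin_singleton k _)
    fun _ hb => hb ▸ h

theorem comm_sop {z : LR R σ} (hz : z ∈ sp R {p : Pt σ | p.1 none = 0}) :
    Commute (LinearMap.mulLeft R z) (sop k u a β) := by
  refine LinearMap.ext fun x => (sp_le (N := LinearMap.eqLocus (LinearMap.mulRight R (sop k u a β x))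
    (sop k u a β ∘ₗ LinearMap.mulRight R x)) fun p hp => ?_) hz
  simp [LinearMap.mem_eqLocus, sop, Op_mul, show p.1 none = 0 from hp, mul_sub]

theorem Setup.unit' (h : Setup k u a β A B) {q : Polynomial k} (hq : q.eval (-(β none : k)) ≠ 0) :
    Polynomial.aeval (sop k u a β) q ∈ UU k u a β A B := by
  obtain ⟨r, hr⟩ := Polynomial.X_sub_C_dvd_sub_C_eval (p := q) (a := -(β none : k))
  have := unit_mem h.cA h.cB (h.nil (Pi.single none 1)) (aeval_sop_mem r) hq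
  convert this using 1
  rw [sub_eq_iff_eq_add.1 hr, mul_comm]
  simp [sop, add_comm]

end RB

end

end Pool.Agent.P.MP_b91a16_ag
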