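import Pool.Agent.P.MP_b91a16_ag.GFan

/-! A common torus zero of the linear blocks forces a root of the Bernstein-Sato polynomial. -/

set_option linter.unusedSectionVars false

open Filter

namespace Pool.Agent.P.MP_b91a16_ag

noncomputable section

namespace RB

open RA Cv

variable {k R σ ι : Type} [Field k] [CharZero k] [CommRing R] [Algebra k R] [Fintype σ]
  [DecidableEq σ] [Fintype ι] [DecidableEq ι]
variable {u : ι → σ → ℕ} {a : ι → R} {x : σ → ℚ} {Φ : Finset (Option σ → ℚ)}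
  {β c ω₀ l v : Option σ → ℚ} {S' S₁ : Finset σ} {A B : Set (Pt σ)} {p : Pt σ}

theorem def_Dl (hA : Cd (sh u) A) (hB : Cd (sh u) B) (h : B ⊆ A) :
    Def (RA.pi deg) (fun l => LinearMap.mulLeft R (FI (sh u) (coR u a) Finset.univ l)) (Dl k u a β)
      (sp R A) (sp R B) where
  gr := gr_pi deg
  hF := fun _ => pi_mul (sum_mem fun g _ => Submodule.smul_mem _ _ (ee_mem (deg_sh g)))
  hD := fun l e x => by
    simpa [Dl, Op, FX_Dl, dg, RA.pi] using LinearMap.congr_fun (diag_comm _ _).eq x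
  comm := fun _ _ => Op_comm k u a β _ _ _ _
  pA := fun _ _ => diag_mem _
  pB := fun _ _ => diag_mem _
  sA := fun _ => hA.op _ _
  sB := fun _ => hB.op _ _
  le := sp_mono h

theorem Pol'.pos_sh (hP : Pol' u x Φ v) (hl : l ∈ Φ) (h : 0 < l ⬝ᵥ ww x c p) (g : σ ⊕ ι) :
    0 < l ⬝ᵥ ww x c (p + sh u g) := by
  rw [ww_sh, dotProduct_add]
  exact add_pos_of_pos_of_nonneg h (hP.nn l hl g)

theorem nil_of (hP : Pol' u x Φ v) (hA : Cd (sh u) A) (hB : Cd (sh u) B)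
    (K : Finset (Option σ → ℚ)) (h1 : ∀ l ∈ K, l ∈ Φ ∧ l none < 0 ∧ ∀ p ∈ A, 0 ≤ l ⬝ᵥ ww x β p ∧
      (l ⬝ᵥ ww x β p = 0 → ∀ ξ, (∀ i, l ⬝ᵥ hv u i = 0 → ξ ⬝ᵥ hv u i = 0) →
        (l ⬝ᵥ v = 0 → ξ ⬝ᵥ v = 0) → ξ ⬝ᵥ qv β p = 0))
    (h2 : ∀ p ∈ A, (∀ l ∈ K, 0 < l ⬝ᵥ ww x β p) → p ∈ B) (ξ : Option σ → ℚ) :
    ∃ r, ∀ y ∈ sp R A, (Op k u a β ξ 0 ^ r) y ∈ JJ' k u a β A B := by
  classical
  have hJ := JJ_stab hA hB (Op_mem k u a β ξ 0)
  have key : ∀ K' ⊆ K, ∀ y ∈ sp R A, (Op k u a β ξ 0 ^ K'.card) y ∈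
      sp R {p | p ∈ A ∧ ∀ l ∈ K', 0 < l ⬝ᵥ ww x β p} ⊔ JJ' k u a β A B := by
    intro K' hK y hy
    induction K' using Finset.induction_on with
    | empty => exact Submodule.mem_sup_left (sp_mono (fun p hp => And.intro hp (by simp)) hy)
    | insert l K' hl ih =>
      obtain ⟨h3, h4⟩ := Finset.insert_subset_iff.1 hK
      obtain ⟨h5, h6, h7⟩ := h1 l h3
      rw [Finset.card_insert_of_notMem hl, pow_succ', Module.End.mul_apply]
      refine map_sup _ (fun y hy => sp_map _ (fun p hp => ?_) hy)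
        (fun y hy => Submodule.mem_sup_right (hJ y hy)) (ih h4)
      obtain ⟨h8, h9⟩ := h7 p hp.1
      rcases h8.lt_or_eq with h8 | h8
      · refine Submodule.mem_sup_left (Cd.op (fun p hp g => ?_) _ _ _ (ee_mem ?_))
        exacts [⟨hA p hp.1 g, fun l hl => hP.pos_sh (h1 l (hK hl)).1 (hp.2 l hl) g⟩,
          ⟨hp.1, Finset.forall_mem_insert _ _ _ |>.2 ⟨h8, hp.2⟩⟩]
      obtain ⟨ζ, e1, e2, e3⟩ := hP.free l h5 h6 fun j => ξ (some j) - ξ none / l none * l (some j)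
      set ξ' := (ξ none / l none) • l + ext0 ζ with hξ
      have e4 := Op_add k u a β ξ' (ext0 fun j => (ξ - ξ') (some j)) (-fun j => (ξ - ξ') (some j))
        fun j => (ξ - ξ') (some j)
      rw [neg_add_cancel, show ξ' + ext0 (fun j => (ξ - ξ') (some j)) = ξ from funext fun o => by
        rcases o with _ | j <;> simp [hξ, ext0, h6.ne]] at e4
      rw [e4, LinearMap.add_apply, Op_ee, h9 h8.symm ξ' (fun i h => by simp [hξ, h, e2 i h])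
        (fun h => by simp [hξ, h, e3 h]), Rat.cast_zero, zero_smul, zero_add]
      refine add_mem (Submodule.mem_sup_left (sum_mem fun g _ => ?_))
        (Submodule.mem_sup_right (Op_ext0_mem _ (ee_mem hp.1)))
      rcases (hP.nn l h5 g).lt_or_eq with h | h
      · refine Submodule.smul_of_tower_mem _ _ (Submodule.smul_mem _ _ (ee_mem ⟨hA p hp.1 g,
          Finset.forall_mem_insert _ _ _ |>.2 ⟨?_, fun l hl => hP.pos_sh (h1 l (h4 hl)).1 (hp.2 l hl) g⟩⟩))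
        rwa [ww_sh, dotProduct_add, ← h8, zero_add]
      · rcases g with j | i
        · simp [cq, hξ, ext0, e1 j h.symm]
        · simp [cq, hξ, e2 i h.symm, show l ⬝ᵥ hv u i = 0 from h.symm]
  exact ⟨K.card, fun x hx => sup_le (c := JJ' k u a β A B) ((sp_mono fun p hp => h2 p hp.1 hp.2).trans
    le_sup_right) le_rfl (key K subset_rfl x hx)⟩

variable (u x Φ β c ω₀ S' S₁) in
structure Dt : Prop where
  pol : Pol' u x Φ (β - c)
  val : Val u ω₀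
  vxn : ∀ j, 0 ≤ ω₀ ⬝ᵥ vx x j
  one : ∀ j, β (some j) = 1
  pos : 0 < β none
  cK : Cc u c
  cω : ω₀ ⬝ᵥ c = 0
  ge : ∀ j, 1 ≤ c (some j)
  eq : ∀ j ∈ S', c (some j) = 1
  gen : ∀ l ∈ Φ, l none < 0 → ∀ p : Pt σ, l ⬝ᵥ ww x c p = 0 → l ⬝ᵥ (β - c) = 0
  near : ∀ l ∈ Φ, l none < 0 → 0 ≤ l ⬝ᵥ β → ∃ m : Option σ → ℚ, (∀ i, 0 ≤ m ⬝ᵥ hv u i) ∧
    (∀ j, 0 ≤ m (some j)) ∧ (∀ j, l ⬝ᵥ vx x j = 0 → m (some j) = 0) ∧ m none < m ⬝ᵥ β ∧
      (∀ i, l ⬝ᵥ hv u i = 0 → m ⬝ᵥ hv u i = 0) ∧ (l ⬝ᵥ (β - c) = 0 → m ⬝ᵥ (β - c) = 0)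
  lam : ∀ l ∉ S₁, ∀ y : Option σ → ℚ, Cc u y → ω₀ ⬝ᵥ y = 0 → y none = c none - 1 →
    ¬∀ j ∈ S', j ≠ l → 1 ≤ y (some j)
  sub : S₁ ⊆ S'

section

variable (u x Φ β c)

def SA : Set (Pt σ) := {p | (0 ≤ p.2 ∧ dl β c ≤ p.1 none) ∧
  ∃ s : ℚ, 0 ≤ s ∧ s ≤ 1 ∧ Cc u (qv c p + s • (β - c))}

def SB (r : ℚ → Prop) : Set (Pt σ) :=
  {p | p ∈ SA u β c ∧ ∀ l ∈ Φ, l none < 0 → r (l ⬝ᵥ (β - c)) → 0 < l ⬝ᵥ ww x β p}

def S0 (r : (Option σ → ℚ) → Prop) : Set (Pt σ) := {p | ((0 ≤ p.2 ∧ dl β c ≤ p.1 none) ∧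
  Cc u (qv c p)) ∧ ((∀ l ∈ Φ, l none < 0 → 0 < l ⬝ᵥ ww x c p) ∨ r (ww x c p))}

abbrev Ab (T : Finset σ) : Set (Pt σ) := S0 u x Φ β c fun y => ∀ j ∈ T, 1 ≤ y (some j)

abbrev Bs (S : Finset σ) : Set (Pt σ) := S0 u x Φ β c fun y => ∃ j ∈ S, 1 ≤ y (some j)

end

theorem st_sh {d : ℤ} (h : 0 ≤ p.2 ∧ d ≤ p.1 none) (g : σ ⊕ ι) :
    0 ≤ (p + sh u g).2 ∧ d ≤ (p + sh u g).1 none := by
  refine ⟨closed_pos p h.1 g, ?_⟩
  rcases g with j | i <;> simp [sh, hat]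
  exacts [h.2, by omega]

theorem st_deg {d : ℤ} (h : 0 ≤ p.2 ∧ d ≤ p.1 none) : d ≤ deg p :=
  h.2.trans (le_add_of_nonneg_right (Finset.sum_nonneg fun j _ => h.1 j))

theorem cd_SA : Cd (sh u) (SA u β c) := fun _ ⟨h1, s, h2, h3, h4⟩ g => ⟨st_sh h1 g, s, h2, h3, h4.sh g⟩

theorem Pol'.cB (hP : Pol' u x Φ v) (r : ℚ → Prop) : Cd (sh u) (SB u x Φ β c r) := fun p hp g =>
  ⟨cd_SA p hp.1 g, fun l h1 h2 h3 => hP.pos_sh h1 (hp.2 l h1 h2 h3) g⟩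

theorem le_hw (y : Option σ → ℚ) (g : σ ⊕ ι) (j : σ) : y (some j) ≤ (y + hw u x g) (some j) :=
  le_add_of_nonneg_right (hw_some g j ▸ Nat.cast_nonneg _)

theorem Pol'.c0 (hP : Pol' u x Φ v) {r : (Option σ → ℚ) → Prop} (h : ∀ y g, r y → r (y + hw u x g)) :
    Cd (sh u) (S0 u x Φ β c r) := fun p hp g => ⟨⟨st_sh hp.1.1 g, by
      simpa using Cc.sh (v := 0) (by simpa using hp.1.2) g⟩, hp.2.imp
        (fun h l h1 h2 => hP.pos_sh h1 (h l h1 h2) g) fun h' => ww_sh p g ▸ h _ g h'⟩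

theorem Pol'.cAb (hP : Pol' u x Φ v) (T : Finset σ) : Cd (sh u) (Ab u x Φ β c T) :=
  hP.c0 fun y g h j hj => (h j hj).trans (le_hw y g j)

theorem Pol'.cBs (hP : Pol' u x Φ v) (T : Finset σ) : Cd (sh u) (Bs u x Φ β c T) :=
  hP.c0 fun y g h => h.imp fun j hj => ⟨hj.1, hj.2.trans (le_hw y g j)⟩

theorem ww_eq (p : Pt σ) : ww x β p = ww x c p + (β - c) := by rw [← ww_shift, add_sub_cancel]

theorem cast_nonneg' (h : 0 ≤ p.2) : (0 : σ → ℚ) ≤ fun j => (p.2 j : ℚ) := fun j =>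
  Int.cast_nonneg (h j)

theorem Pol'.ww_nonneg (hP : Pol' u x Φ v) (hl : l ∈ Φ) (h : 0 ≤ p.2) (h' : Cc u (qv c p)) :
    0 ≤ l ⬝ᵥ ww x c p ∧ (l ⬝ᵥ ww x c p = 0 → l ⬝ᵥ qv c p = 0) := by
  have h1 := hP.cc hl h'
  have h2 := (hP.ys hl (cast_nonneg' h)).1
  rw [ww, dotProduct_add]
  exact ⟨add_nonneg h1 h2, fun h => by linarith⟩

theorem Pol'.key (hP : Pol' u x Φ v) (hp : p ∈ SA u β c) (hl : l ∈ Φ) (h0 : l none < 0)
    (h1 : 0 ≤ l ⬝ᵥ (β - c)) : 0 ≤ l ⬝ᵥ ww x β p ∧ (l ⬝ᵥ ww x β p = 0 →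
      (∀ j, p.2 j ≠ 0 → l ⬝ᵥ vx x j = 0) ∧ (l ⬝ᵥ (β - c) ≠ 0 → Cc u (qv β p)) ∧
      ∀ ξ, (∀ i, l ⬝ᵥ hv u i = 0 → ξ ⬝ᵥ hv u i = 0) →
        (l ⬝ᵥ (β - c) = 0 → ξ ⬝ᵥ (β - c) = 0) → ξ ⬝ᵥ qv β p = 0) := by
  obtain ⟨h2, s, h3, h4, h5⟩ := hp
  have e : qv β p = qv c p + s • (β - c) + (1 - s) • (β - c) := by
    rw [add_assoc, ← add_smul, add_sub_cancel, one_smul, ← qv_eq]
  have h6 := hP.cc hl h5
  obtain ⟨h7, h8⟩ := hP.ys hl (cast_nonneg' h2.1)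
  have h9 := mul_nonneg (sub_nonneg.2 h4) h1
  rw [ww, e, dotProduct_add, dotProduct_add l (_ + _), dotProduct_smul, smul_eq_mul]
  refine ⟨by positivity, fun h => ?_⟩
  have h10 := mul_eq_zero.1 (show (1 - s) * l ⬝ᵥ (β - c) = 0 by linarith)
  refine ⟨fun j hj => h8 (by linarith) j (by simpa using hj), fun h => by
    rwa [h10.resolve_right h, zero_smul, add_zero], fun ξ e1 e2 => ?_⟩
  rw [dotProduct_add, h5.kill' (hP.val hl h0) (by linarith) e1, dotProduct_smul, smul_eq_mul, zero_add]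
  exact mul_eq_zero.2 (h10.imp_right e2)

theorem Cc.none_nonneg {q : Option σ → ℚ} (h : Cc u q) (hl : Val u l) (h0 : l ⬝ᵥ q = 0) :
    0 ≤ q none := by
  have := Finset.sum_nonneg (s := Finset.univ) fun j _ => mul_nonneg (hl.2.1 j).le (h.some j)
  rw [dotProduct, Fintype.sum_option] at h0
  nlinarith [hl.1]

theorem Dt.zle (h : Dt u x Φ β c ω₀ S' S₁) (j : σ) : (β - c) (some j) ≤ 0 := by
  simpa [h.one] using h.ge j

theorem ww_zero : ww x c 0 = c := by simp [ww, qv_zero]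

theorem Dt.zero_Ab (h : Dt u x Φ β c ω₀ S' S₁) (T : Finset σ) : 0 ∈ Ab u x Φ β c T :=
  ⟨⟨⟨le_rfl, dl_le h.pos (Or.inl (by simpa using h.pos.le))⟩, by rw [qv_zero]; exact h.cK⟩,
    Or.inr fun j _ => by rw [ww_zero]; exact h.ge j⟩

theorem S0_mono {r r' : (Option σ → ℚ) → Prop} (h : ∀ y, r y → r' y) :
    S0 u x Φ β c r ⊆ S0 u x Φ β c r' := fun _ hp => ⟨hp.1, hp.2.imp_right (h _)⟩

theorem S0_sub {r : (Option σ → ℚ) → Prop} : S0 u x Φ β c r ⊆ SA u β c := fun p hp =>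
  ⟨hp.1.1, 0, le_rfl, zero_le_one, by simpa using hp.1.2⟩

theorem Pol'.Ab_sub (hP : Pol' u x Φ v) {r : (Option σ → ℚ) → Prop} :
    S0 u x Φ β c r ⊆ SB u x Φ β c (0 < ·) := fun p hp => ⟨S0_sub hp, fun l h1 _ h3 => by
  rw [ww_eq (c := c), dotProduct_add]
  exact add_pos_of_nonneg_of_pos (hP.ww_nonneg h1 hp.1.1.1 hp.1.2).1 h3⟩

theorem FI_deg (l : σ) : FI (sh u) (coR u a) Finset.univ l ∈ sp R {p | deg p = 1} :=
  sum_mem fun g _ => Submodule.smul_mem _ _ (ee_mem (deg_sh g))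

theorem Dt.step1 (h : Dt u x Φ β c ω₀ S' S₁) (hN : ND3 u a)
    (h1 : ee 0 ∈ JJ' k u a β (SA u β c) (SB u x Φ β c (0 ≤ ·))) :
    ee 0 ∈ JJ' k u a β (SB u x Φ β c (0 < ·)) (SB u x Φ β c (0 ≤ ·)) := by
  classical
  have hP := h.pol
  have hD := def_Dl (k := k) (a := a) (β := β) cd_SA (hP.cB (β := β) (c := c) (0 < ·)) fun _ h => h.1
  obtain ⟨n, hn⟩ := ((eventually_all_finset ((Φ ×ˢ Φ).filter fun x => x.1 none < 0 ∧ x.2 none < 0 ∧
    0 < x.1 ⬝ᵥ (β - c) ∧ ¬0 < x.2 ⬝ᵥ (β - c))).2 fun x hx => ev_small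
      ((x.2 none • x.1 - x.1 none • x.2) ⬝ᵥ (-(β - c))) ((x.2 none • x.1 - x.1 none • x.2) ⬝ᵥ 1) (by
        obtain ⟨-, h2, h3, h4, h5⟩ := Finset.mem_filter.1 hx
        simp only [dotProduct_neg, sub_dotProduct, smul_dotProduct, smul_eq_mul]
        nlinarith)).exists
  have hR := hD.reg (dep_reg (hP.dep_top ((algebraMap k R).comp (Rat.castHom k)) hN ∅
    (fun l => 0 < l ⬝ᵥ (β - c)) (q₀ := -(β - c) + (1 / (n + 1) : ℚ) • 1) (by simp) (fun j _ => by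
      have := h.zle j
      have : (0 : ℚ) < 1 / (n + 1) := by positivity
      simp only [Pi.add_apply, Pi.neg_apply, Pi.smul_apply, Pi.one_apply, smul_eq_mul]
      linarith) (fun l h2 l' h3 h4 h5 h6 h7 => by
        simpa only [dotProduct_add, dotProduct_smul, smul_eq_mul] using hn (l, l')
          (Finset.mem_filter.2 ⟨Finset.mk_mem_product h2 h3, h4, h5, h6, h7⟩)) β)
    cd_SA (hP.cB _) (fun _ h => h.1) (Set.ext fun p => ?_) FI_deg fun _ hp => st_deg hp.1)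
    (pi_low fun _ hp => st_deg hp.1)
  · obtain ⟨x, h2, y, h3, h4⟩ := Submodule.mem_sup.1 h1
    refine Submodule.mem_sup.2 ⟨x, hR.inter hD.comm hD.sA hD.sB (by simp) h2 ?_, y, h3, h4⟩
    rw [← eq_sub_iff_add_eq.2 h4.symm.symm |>.symm]
    exact sub_mem (ee_mem (hP.Ab_sub (h.zero_Ab ∅)))
      (sp_mono (fun p hp => And.intro hp.1 fun l h1 h2 h3 => hp.2 l h1 h2 h3.le) h3)
  refine ⟨fun ⟨h2, h3⟩ => ?_, fun ⟨h2, _, l, h3, h4, h5, h6⟩ => ⟨⟨⟨h2.2, dl_le h.pos (Or.inl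
    (h2.1.none_nonneg (hP.val h3 h4) ((hP.ww_nonneg h3 h2.2 h2.1).2 h5)))⟩, 1, zero_le_one, le_rfl, by
      rw [one_smul, ← qv_eq]; exact h2.1⟩, fun h7 => (h7.2 l h3 h4 h6).ne' h5⟩⟩
  obtain ⟨l, h4, h5, h6, h7⟩ : ∃ l ∈ Φ, l none < 0 ∧ 0 < l ⬝ᵥ (β - c) ∧ l ⬝ᵥ ww x β p ≤ 0 := by
    by_contra h4
    push Not at h4
    exact h3 ⟨h2, h4⟩
  obtain ⟨h8, h9⟩ := hP.key h2 h4 h5 h6.le
  exact ⟨⟨(h9 (h7.antisymm h8)).2.1 h6.ne', h2.1.1⟩, by simp, l, h4, h5, h7.antisymm h8, h6⟩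

theorem exists_cc' (u : ι → σ → ℕ) :
    ∃ Φ₀ : Finset (Option σ → ℚ), ∀ y, Cc u y ↔ ∀ l ∈ Φ₀, 0 ≤ l ⬝ᵥ y := by
  obtain ⟨Φ, hΦ⟩ := Cv.weyl (α := ι ⊕ Option σ)
    (Sum.elim (hv u) fun o => Pi.single o (o.elim (-1) fun _ => 1)) Finset.univ
  refine ⟨Φ, fun y => (hΦ y).symm.trans ⟨fun ⟨x, hx, e⟩ => ⟨fun i => x (.inl i),
    fun o => x (.inr o) * o.elim (-1) fun _ => 1, fun i => hx _, by simpa using hx _,
    fun j => by simpa using hx _, ?_⟩, fun ⟨κ, ν, h1, h2, h3, e⟩ => ⟨Sum.elim κ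
      fun o => ν o * o.elim (-1) fun _ => 1, ?_, ?_⟩⟩ |>.symm⟩
  · rw [e, Fintype.sum_sum_type]
    congr 1
    ext o
    simp [Finset.sum_apply, Pi.single_apply, -Fintype.sum_option]
  · rintro (i | _ | j) <;> simp [h1, h2, h3]
  · rw [e, Fintype.sum_sum_type]
    congr 1
    ext (_ | j) <;> simp [Finset.sum_apply, Pi.single_apply]

theorem Dt.bad (h : Dt u x Φ β c ω₀ S' S₁) (hp : p ∈ SB u x Φ β c (0 < ·))
    (hp' : p ∉ SB u x Φ β c (0 ≤ ·)) :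
    ∃ s : ℚ, 0 ≤ s ∧ s < 1 ∧ Cc u (qv c p + s • (β - c)) := by
  have hP := h.pol
  obtain ⟨l, h1, h2, h3, h4⟩ : ∃ l ∈ Φ, l none < 0 ∧ 0 ≤ l ⬝ᵥ (β - c) ∧ l ⬝ᵥ ww x β p ≤ 0 := by
    by_contra h4
    push Not at h4
    exact hp' ⟨hp.1, h4⟩
  have h5 : l ⬝ᵥ (β - c) = 0 := h3.eq_of_not_lt' fun h => (hp.2 l h1 h2 h).not_ge h4
  obtain ⟨h6, h7⟩ := hP.key hp.1 h1 h2 h3
  obtain ⟨h8, -, h9⟩ := h7 (h4.antisymm h6)
  obtain ⟨h10, s, h11, h12, h13⟩ := hp.1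
  rcases h12.lt_or_eq with h12 | rfl
  · exact ⟨s, h11, h12, h13⟩
  rw [one_smul, ← qv_eq] at h13
  obtain ⟨n, hn⟩ := ((eventually_all_finset Φ).2 fun l _ => (eventually_imp_distrib_left
    (p := l ⬝ᵥ ww x β p ≠ 0)).2 fun h => ev_small _ (-(l ⬝ᵥ (β - c)))
      ((hP.ww_nonneg ‹_› h10.1 h13).1.lt_of_ne' h)).exists
  have e1 : (0 : ℚ) < 1 / (n + 1) := by positivity
  have e2 : qv c p + (1 - 1 / (n + 1) : ℚ) • (β - c) = qv β p - (1 / (n + 1) : ℚ) • (β - c) := by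
    rw [qv_eq (β := β) (c := c), sub_smul, one_smul, add_sub_assoc]
  have e3 : ∀ l : Option σ → ℚ, l ⬝ᵥ (qv β p - (1 / (n + 1) : ℚ) • (β - c) + ∑ j, (p.2 j : ℚ) • vx x j) =
      l ⬝ᵥ ww x β p - 1 / (n + 1) * l ⬝ᵥ (β - c) := fun l => by
    rw [ww, sub_add_eq_add_sub, dotProduct_sub, dotProduct_smul, smul_eq_mul]
  refine ⟨1 - 1 / (n + 1), sub_nonneg.2 ((div_le_one (by positivity)).2 (by simp)), by linarith,
    e2 ▸ (hP.uniq h1 h2 (y := fun j => p.2 j) (fun l hl => ?_) (by rw [e3, h4.antisymm h6, h5]; simp)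
      (fun j hj => h8 j (by simpa using hj)) fun ζ e4 e5 => by
        rw [dotProduct_sub, h9 _ e4 e5, dotProduct_smul, e5 h5]; simp).1⟩
  rw [e3]
  by_cases e4 : l ⬝ᵥ ww x β p = 0
  · rw [e4, zero_sub, neg_nonneg]
    refine mul_nonpos_of_nonneg_of_nonpos e1.le ?_
    rcases hP.ty l hl with ⟨j, rfl⟩ | e5
    exacts [ex_dot j _ ▸ h.zle j, not_lt.1 fun h => (hp.2 l hl e5.1 h).ne' e4]
  · linarith [hn l hl e4]

theorem Dt.step2 (h : Dt u x Φ β c ω₀ S' S₁)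
    (h1 : ee 0 ∈ JJ' k u a β (SB u x Φ β c (0 < ·)) (SB u x Φ β c (0 ≤ ·))) :
    ee 0 ∈ JJ' k u a β (Ab u x Φ β c ∅) (Bs u x Φ β c ∅) := by
  classical
  have hP := h.pol
  have hA := hP.cAb (β := β) (c := c) ∅
  have hB := hP.cBs (β := β) (c := c) ∅
  have hB' := hP.cB (β := β) (c := c) (0 ≤ ·)
  have hAB : ∀ p ∈ Ab u x Φ β c ∅, (∀ l ∈ Φ, l none < 0 → l ⬝ᵥ (β - c) = 0 → 0 < l ⬝ᵥ ww x β p) →
      p ∈ Bs u x Φ β c ∅ := fun p hp h2 => ⟨hp.1, Or.inl fun l h4 h5 =>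
    (hP.ww_nonneg h4 hp.1.1.1 hp.1.2).1.lt_of_ne' fun h6 => by
      have h7 := h.gen l h4 h5 p h6
      simpa [ww_eq (β := β) (c := c), dotProduct_add, h7, h6] using h2 l h4 h5 h7⟩
  have hnil := nil_of (k := k) (a := a) (β := β) hP hA hB
    (Φ.filter fun l => l none < 0 ∧ l ⬝ᵥ (β - c) = 0) (fun l hl => by
      obtain ⟨h2, h3, h4⟩ := Finset.mem_filter.1 hl
      exact ⟨h2, h3, fun p hp => (hP.key (S0_sub hp) h2 h3 h4.ge).imp_right fun h h' => (h h').2.2⟩)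
    fun p hp h2 => hAB p hp fun l h3 h4 h5 => h2 l (Finset.mem_filter.2 ⟨h3, h4, h5⟩)
  have hU : ∀ v ∈ UU k u a β (Ab u x Φ β c ∅) (Bs u x Φ β c ∅),
      ∀ w ∈ UU k u a β (Ab u x Φ β c ∅) (Bs u x Φ β c ∅), Commute v w :=
    fun _ hv _ hw => PP_comm hv.1 hw.1
  have hX : Cd (sh u) (Ab u x Φ β c ∅ ∪ SB u x Φ β c (0 ≤ ·)) := fun p hp g =>
    hp.imp (hA p · g) (hB' p · g)
  let N := sat _ hU (sp R (Ab u x Φ β c ∅ ∪ SB u x Φ β c (0 ≤ ·))) fun _ hv => PP_stab hX.op hv.1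
  obtain ⟨Φ₀, hΦ⟩ := exists_cc' u
  have h0 := fun i => (hΦ _).1 (cc_hv i)
  obtain ⟨M, hM0, hM⟩ := exists_den ((Φ₀ ×ˢ Finset.univ).image fun x => x.1 ⬝ᵥ hv u x.2)
  have hM' : (0 : ℚ) < M := by exact_mod_cast hM0
  have key : ∀ n, ∀ p ∈ SB u x Φ β c (0 < ·), ∑ l ∈ Φ₀, ⌈M * -(l ⬝ᵥ qv c p)⌉₊ = n → ee p ∈ N := by
    intro n
    induction n using Nat.strong_induction_on with
    | _ n ih =>
    intro p hp hn
    by_cases h2 : p ∈ Ab u x Φ β c ∅ ∪ SB u x Φ β c (0 ≤ ·)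
    · exact ⟨1, one_mem _, ee_mem h2⟩
    obtain ⟨l, h6, h7⟩ : ∃ l ∈ Φ₀, l ⬝ᵥ qv c p < 0 := by
      by_contra h3
      push Not at h3
      exact h2 (Or.inl ⟨⟨hp.1.1, (hΦ _).2 h3⟩, by simp⟩)
    obtain ⟨s, h3, h4, h5⟩ := h.bad hp fun h => h2 (Or.inr h)
    have h10 : l ⬝ᵥ qv β p ≠ 0 := fun h => by
      have := (hΦ _).1 h5 l h6
      simp only [qv_eq (β := β) (c := c), dotProduct_add, dotProduct_smul, smul_eq_mul] at this h
      nlinarith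
    obtain ⟨v, h12, h13⟩ : ∑ i, ((l ⬝ᵥ hv u i : ℚ) : k) • a i • ee (p + sh u (Sum.inr i)) ∈ N := by
      refine sum_mem fun i _ => ?_
      by_cases h : l ⬝ᵥ hv u i = 0
      · simp [h]
      refine N.smul_of_tower_mem _ (N.smul_mem _ (ih _ ?_ _ (hP.cB _ p hp _) rfl))
      rw [← hn]
      refine Finset.sum_lt_sum (fun l' hl' => Nat.ceil_mono ?_) ⟨l, h6, ?_⟩ <;>
        rw [qv_sh, dotProduct_add]
      · nlinarith [h0 i l' hl']
      · obtain ⟨z, hz⟩ := hM _ (Finset.mem_image_of_mem _ (Finset.mk_mem_product h6 (Finset.mem_univ i)))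
        have h14 : (0 : ℚ) < z := hz ▸ mul_pos hM' ((h0 i l h6).lt_of_ne' h)
        have h15 : (1 : ℚ) ≤ z := by exact_mod_cast (show (0 : ℤ) < z by exact_mod_cast h14)
        refine (Nat.ceil_mono (b := M * -(l ⬝ᵥ qv c p) - 1) (by simp only at hz; linarith)).trans_lt ?_
        have := Nat.ceil_pos.2 (mul_pos hM' (neg_pos.2 h7))
        rw [Nat.ceil_sub_one]
        omega
    rw [← unit_ee (β := β)] at h13
    exact ⟨_, mul_mem h12 (unit_mem hA hB (hnil l) (one_mem _)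
      (neg_ne_zero.2 (Rat.cast_ne_zero.2 h10))), h13⟩
  have h2 : JJ' k u a β (SB u x Φ β c (0 < ·)) (SB u x Φ β c (0 ≤ ·)) ≤
      sat _ hU _ fun v hv => JJ_stab hA hB' hv.1 :=
    sup_le (Im_le.2 fun l hl y hy => by
      obtain ⟨v, h2, h3⟩ := sp_le (fun p hp => key _ p hp rfl) hy
      refine ⟨v, h2, ?_⟩
      rw [← Module.End.mul_apply, (PP_comm h2.1 (w := Dl k u a β l) (Op_mem k u a β _ _)).eq]
      rw [sp_union] at h3
      exact map_sup (Dl k u a β l) (fun y hy => Submodule.mem_sup_left (mem_Im hl hy))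
        (fun y hy => Submodule.mem_sup_right (hB'.op _ _ y hy)) h3)
      fun y hy => ⟨1, one_mem _, Submodule.mem_sup_right hy⟩
  obtain ⟨v, h3, h4⟩ := h2 h1
  have h5 := ee_mem (k := R) (h.zero_Ab ∅)
  obtain ⟨y, h6, z, h7, h8⟩ := Submodule.mem_sup.1 h4
  refine h3.2.2 _ h5 (Submodule.mem_sup.2 ⟨y, h6, z, ?_, h8⟩)
  have h9 := Submodule.mem_inf.2 ⟨eq_sub_of_add_eq' h8 ▸ sub_mem (h3.2.1 _ h5)
    (Stab.im_le (F := Dl k u a β) (fun _ => hA.op _ _) h6), h7⟩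
  rw [sp_inf] at h9
  exact sp_mono (fun p hp => hAB p hp.1 fun l e1 e2 e3 => hp.2.2 l e1 e2 e3.ge) h9

theorem ww_some (j : σ) : ww x c p (some j) = c (some j) + (p.1 (some j) + p.2 j : ℤ) := by
  simp [ww, qv, vx, Pi.single_apply, add_assoc]

theorem Dt.step3 (h : Dt u x Φ β c ω₀ S' S₁) (hN : ND3 u a)
    (h1 : ee 0 ∈ JJ' k u a β (Ab u x Φ β c ∅) (Bs u x Φ β c ∅)) :
    ee 0 ∈ Im (fun l => LinearMap.mulLeft R (FI (sh u) (coR u a) Finset.univ l)) Finset.univ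
      (fun l => sp R (Ab u x Φ β c (S'.erase l))) ⊔ sp R (Bs u x Φ β c ∅) := by
  have hP := h.pol
  have hBA : ∀ S, Bs u x Φ β c S ⊆ Ab u x Φ β c ∅ := fun S => S0_mono (by simp)
  have h0 : ∀ p : Pt σ, 0 ≤ p.2 → Cc u (qv c p) → ∀ j, 0 ≤ ww x c p (some j) := fun p h2 h3 j =>
    (hP.ww_nonneg (hP.ex j) h2 h3).1.trans_eq (ex_dot j _)
  have hR : ∀ S ⊆ S', Reg (fun l => LinearMap.mulLeft R (FI (sh u) (coR u a) Finset.univ l)) Sᶜ
      (sp R (Ab u x Φ β c ∅)) (sp R (Bs u x Φ β c S)) := fun S hS => dep_reg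
      (hP.dep_top ((algebraMap k R).comp (Rat.castHom k)) hN S (fun _ => True)
        (q₀ := fun o => o.elim 0 fun j => if j ∈ S then 0 else 1) (fun j hj => if_pos hj)
        (fun j hj => by simp [hj]) (by simp) c) (hP.cAb ∅) (hP.cBs S) (hBA S)
        (Set.ext fun p => by
    refine ⟨fun ⟨h2, h3⟩ => ⟨⟨h2.1.2, h2.1.1.1⟩, ?_⟩, fun ⟨h2, h3, l, h4, h5, h6, _⟩ =>
      ⟨⟨⟨⟨h2.2, dl_le h.pos (Or.inr (h2.1.none_nonneg (hP.val h4 h5)
        ((hP.ww_nonneg h4 h2.2 h2.1).2 h6)))⟩, h2.1⟩, by simp⟩, ?_⟩⟩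
    · have h4 := not_or.1 fun h => h3 ⟨h2.1, h⟩
      push Not at h4
      obtain ⟨⟨l, h4, h5, h6⟩, h7⟩ := h4
      refine ⟨fun j hj => ?_, l, h4, h5, h6.antisymm (hP.ww_nonneg h4 h2.1.1.1 h2.1.2).1, trivial⟩
      have h8 := h7 j hj
      have h9 := h0 p h2.1.1.1 h2.1.2 j
      rw [ww_some, h.eq j (hS hj)] at h8 h9 ⊢
      norm_cast at h8 h9 ⊢
      omega
    · rintro ⟨-, h7 | ⟨j, h7, h8⟩⟩
      exacts [(h7 l h4 h5).ne' h6, by norm_num [h3 j h7] at h8]) FI_deg fun _ hp => st_deg hp.1.1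
  have hW : Walls (fun l => LinearMap.mulLeft R (FI (sh u) (coR u a) Finset.univ l)) Finset.univ S'
      (fun T => sp R (Ab u x Φ β c T)) fun S => sp R (Bs u x Φ β c S) :=
    { comm := fun _ _ => LinearMap.ext fun _ => mul_left_comm _ _ _
      le := fun T => sp_mono (S0_mono (by simp))
      up := fun T _ l x hx => sp_map _ (fun p hp => by
        rw [LinearMap.mulLeft_apply, FI_mul]
        refine sum_mem fun g _ => ?_
        by_cases hg : nn u g l = 0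
        · simp [coR, hg]
        have h2 := hP.cAb _ p hp g
        refine Submodule.smul_mem _ _ (ee_mem ⟨h2.1, h2.2.imp_right fun h4 j hj => ?_⟩)
        by_cases h5 : j = l
        · have h7 : (1 : ℚ) ≤ nn u g l := by exact_mod_cast Nat.one_le_iff_ne_zero.2 hg
          rw [ww_sh, h5, Pi.add_apply, hw_some]
          linarith [h0 p hp.1.1.1 hp.1.2 l]
        · exact h4 j (Finset.mem_erase.2 ⟨h5, hj⟩)) hx
      sB := fun S l => (hP.cBs S).fi _ _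
      mono := fun S j => sp_mono (S0_mono fun _ h =>
        h.imp fun j h => ⟨Finset.mem_insert_of_mem h.1, h.2⟩)
      wall := fun S j hj => sp_mono (S0_mono fun _ h => ⟨j, hj, h j (by simp)⟩)
      anti := fun _ _ h => sp_mono (S0_mono fun _ h' j hj => h' j (h hj))
      cut := fun S T j => by
        rw [sp_inf, ← sp_union]
        refine sp_mono fun p hp => or_iff_not_imp_right.2 fun h2 => ⟨hp.1.1, hp.1.2.imp_right fun h6 =>
          Finset.forall_mem_insert _ _ _ |>.2 ⟨?_, h6⟩⟩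
        obtain ⟨j', h7, h8⟩ := hp.2.2.resolve_left fun h => h2 ⟨hp.1.1, Or.inl h⟩
        exact (Finset.mem_insert.1 h7).resolve_right (fun h => h2 ⟨hp.1.1, Or.inr ⟨j', h, h8⟩⟩) ▸ h8
      reg := hR }
  refine hW.main _ ∅ (by simp) _ subset_rfl le_rfl _ (by simp) _
    (Submodule.mem_sup_left (ee_mem (h.zero_Ab _))) ((def_Dl (hP.cAb ∅) (hP.cBs ∅) (hBA ∅)).gr_mem ?_
      (e := 0) h1 (by simp [pi_ee]))
  simpa using hR ∅ (Finset.empty_subset _)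

theorem Dt.int (h : Dt u x Φ β c ω₀ S' S₁) {y : Option σ → ℚ} (h1 : Cc u y)
    (h' : ∀ l ∈ Φ, l none < 0 → 0 < l ⬝ᵥ y) : ω₀ ⬝ᵥ y ≠ 0 := fun h0 => by
  have hP := h.pol
  obtain ⟨n, hn⟩ := ((eventually_all_finset (Φ.filter (· none < 0))).2 fun l hl =>
    ev_small _ (l none) (h' l (Finset.mem_filter.1 hl).1 (Finset.mem_filter.1 hl).2)).exists
  obtain ⟨κ, ν, h2, h3, h4⟩ := hP.gen (y + Pi.single none (1 / (n + 1) : ℚ)) fun l hl => by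
    rw [dotProduct_add, dotProduct_single, mul_comm]
    rcases hP.ty l hl with ⟨j, rfl⟩ | h2
    · simpa [RA.ex] using h1.some j
    · exact (hn l (Finset.mem_filter.2 ⟨hl, h2.1⟩)).le
  have := congrArg (ω₀ ⬝ᵥ ·) h4
  simp only [dotProduct_add, h0, dotProduct_single, dotProduct_sub, dotProduct_sum, dotProduct_smul,
    smul_eq_mul] at this
  have h5 : 0 ≤ ∑ g, κ g * ω₀ ⬝ᵥ hw u x g := Finset.sum_nonneg fun g _ => mul_nonneg (h2 g) (by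
    rcases g with j | i
    exacts [h.vxn j, h.val.2.2 i])
  have h6 : (0 : ℚ) < 1 / (n + 1) := by positivity
  nlinarith [h.val.1]

theorem Dt.nz (h : Dt u x Φ β c ω₀ S' S₁) (hN : ND3 u a) {K : Type} [Field K] [Algebra R K]
    {z : σ → K} (hz : ∀ j, z j ≠ 0) (hz' : ∀ l ∈ S₁, ∑ i ∈ Bl u ω₀ S' l, a i • ∏ j, z j ^ u i j = 0) :
    ee 0 ∉ JJ' k u a β (SA u β c) (SB u x Φ β c (0 ≤ ·)) := by
  classical
  intro h0
  replace h0 := h.step3 hN (h.step2 (h.step1 hN h0))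
  have hP := h.pol
  have hy : ∀ p : Pt σ, p.2 = 0 → ww x c p = qv c p := fun p hp => by simp [ww, hp]
  let Adm : Pt σ → Prop := fun p => p.2 = 0 ∧ p.1 none = 0 ∧ ω₀ ⬝ᵥ qv c p = 0 ∧
    ∀ j ∈ S', p.1 (some j) = 0
  let θ : Pt σ → K := fun p => if Adm p then ∏ j, z j ^ p.1 (some j) else 0
  have h3 : (lin' θ : LR R σ →ₗ[R] K) (ee 0) = 0 := by
    refine (sup_le (c := LinearMap.ker (lin' θ)) (Im_le.2 fun l _ x hx => sp_map (N := ⊥)
      (lin' θ ∘ₗ LinearMap.mulLeft R (FI (sh u) (coR u a) Finset.univ l)) (fun p hp => ?_) hx)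
      (sp_le fun p hp => (lin'_ee θ p).trans (if_neg fun h1 => h.int hp.1.2
          (by simpa [hy p h1.1] using hp.2) h1.2.2.1))) h0
    simp only [LinearMap.comp_apply, LinearMap.mulLeft_apply, FI_mul, map_sum, map_add, map_smul,
      lin'_ee, Submodule.mem_bot, Fintype.sum_sum_type]
    rw [Finset.sum_eq_zero fun j _ => by
      simp only [θ, Adm, ne_inl hp.1.1.1 j, false_and, if_false, smul_zero], zero_add]
    by_cases h4 : ∃ i, u i l ≠ 0 ∧ Adm (p + sh u (Sum.inr i))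
    swap
    · refine Finset.sum_eq_zero fun i _ => ?_
      by_cases h5 : u i l = 0
      · simp [coR, nn, h5]
      · simp only [θ, if_neg fun h => h4 ⟨i, h5, h⟩, smul_zero]
    obtain ⟨i₀, h4, h5, h6, h7, h8⟩ := h4
    have h9 : p.2 = 0 := by simpa [sh] using h5
    obtain ⟨⟨-, h10⟩, h11⟩ := hp
    rw [hy p h9] at h11
    have h12 : ω₀ ⬝ᵥ qv c p = 0 := by
      rw [qv_sh, dotProduct_add] at h7
      linarith [h10.nonneg h.val.1.le (fun j => (h.val.2.1 j).le) h.val.2.2, h.val.2.2 i₀]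
    replace h11 := h11.resolve_left fun h' => h.int h10 h' h12
    have h13 : p.1 none = -1 := by simpa [sh, hat, add_eq_zero_iff_eq_neg] using h6
    have h14 : l ∈ S₁ := by_contra fun h' => h.lam l h' _ h10 h12 (by simp [qv, h13, sub_eq_add_neg])
      fun j h1 h2 => h11 j (Finset.mem_erase.2 ⟨h2, h1⟩)
    have h15 : ∀ j ∈ S', p.1 (some j) = if j = l then -1 else 0 := fun j hj => by
      have e1 := h8 j hj
      simp only [sh, hat, nn, Sum.elim_inr, Prod.fst_add, Pi.add_apply, Option.elim_some] at e1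
      split_ifs with e
      · have e2 := h10.some j
        rw [qv, h.eq j hj] at e2
        norm_cast at e2
        subst e
        omega
      · have e2 := h11 j (Finset.mem_erase.2 ⟨e, hj⟩)
        rw [qv, h.eq j hj] at e2
        norm_cast at e2
        omega
    rw [← smul_zero (∏ j, z j ^ p.1 (some j)), ← hz' l h14, Bl, Finset.sum_filter, Finset.smul_sum]
    refine Finset.sum_congr rfl fun i _ => ?_
    have : Adm (p + sh u (Sum.inr i)) ↔ ω₀ ⬝ᵥ hv u i = 0 ∧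
        ∀ j ∈ S', u i j = if j = l then 1 else 0 := by
      simp only [Adm, qv_sh, dotProduct_add, h12, zero_add]
      simp only [sh, hat, nn, Sum.elim_inr, Prod.fst_add, Pi.add_apply, Option.elim_some,
        Prod.snd_add, h9, add_zero, Option.elim_none, h13, true_and, Nat.cast_one, neg_add_cancel]
      refine and_congr_right fun _ => forall₂_congr fun j hj => ?_
      rw [h15 j hj]
      split_ifs <;> omega
    simp only [θ, this]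
    split_ifs with h16
    · simp only [coR, nn, Sum.elim_inr, h16.2 l (h.sub h14), if_true, Nat.cast_one, mul_one, sh,
        Prod.fst_add, Pi.add_apply, hat, Option.elim_some, zpow_add₀ (hz _), zpow_natCast,
        Finset.prod_mul_distrib, smul_eq_mul, mul_smul_comm]
    · simp
  rw [lin'_ee] at h3
  simp [θ, Adm, qv_zero, h.cω] at h3

theorem Dt.setup (h : Dt u x Φ β c ω₀ S' S₁) (hN : ND3 u a) {K : Type} [Field K] [Algebra R K]
    {z : σ → K} (hz : ∀ j, z j ≠ 0) (hz' : ∀ l ∈ S₁, ∑ i ∈ Bl u ω₀ S' l, a i • ∏ j, z j ^ u i j = 0) :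
    Setup k u a β (SA u β c) (SB u x Φ β c (0 ≤ ·)) := by
  classical
  have hP := h.pol
  have h0 : ∀ l ∈ Φ, 0 ≤ l ⬝ᵥ (β - c) → 0 ≤ l ⬝ᵥ β := fun l h1 h2 => by
    simpa using add_nonneg (hP.cc h1 h.cK) h2
  choose! M m1 m2 m3 m4 m5 m6 using h.near
  have hq : ∀ (c l : Option σ → ℚ) (p : Pt σ), l ⬝ᵥ qv c p =
      l ⬝ᵥ c + (l none * p.1 none + ∑ j, l (some j) * p.1 (some j)) := fun c l p => by
    simp only [dotProduct, qv, mul_add, Finset.sum_add_distrib, Fintype.sum_option]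
  refine ⟨cd_SA, hP.cB _, ?_, nil_of hP cd_SA (hP.cB _)
    (Φ.filter fun l => l none < 0 ∧ 0 ≤ l ⬝ᵥ (β - c)) (fun l hl => ?_) fun p hp h1 =>
      ⟨hp, fun l h3 h4 h5 => h1 l (Finset.mem_filter.2 ⟨h3, h4, h5⟩)⟩, h.one, h.pos,
    ⟨{p | 0 ≤ p.2 ∧ ∀ l ∈ Φ, l none < 0 → 0 ≤ l ⬝ᵥ (β - c) → (∀ j, p.2 j ≠ 0 → l ⬝ᵥ vx x j = 0) →
      0 < M l ⬝ᵥ qv β p}, fun p hp i => ⟨closed_pos p hp.1 _, fun l h2 h3 h4 h5 => by
        rw [qv_sh, dotProduct_add]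
        exact add_pos_of_pos_of_nonneg (hp.2 l h2 h3 h4 (by simpa [sh] using h5))
          (m1 l h2 h3 (h0 l h2 h4) i)⟩, fun p hp => hp.1,
      fun p hp hp' => ⟨hp', fun l h2 h3 h4 => (hP.key hp' h2 h3 h4).1.lt_of_ne' fun h5 => ?_⟩,
      fun m => ⟨fun j => ?_, fun l h2 h3 h4 h5 => ?_⟩⟩, S0_sub (h.zero_Ab ∅),
    fun m h1 h2 => ⟨⟨⟨le_rfl, dl_le h.pos (Or.inl (by simpa [xm] using h.pos.le))⟩,
      0, le_rfl, zero_le_one, ?_⟩, fun l h3 h4 h5 => ?_⟩, h.nz hN hz hz'⟩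
  · rintro p hp ⟨κ, h1, h2⟩
    refine ⟨⟨hp, dl_le h.pos (Or.inl ?_)⟩, 1, zero_le_one, le_rfl, κ, 0, h1, le_rfl,
      fun _ => le_rfl, ?_⟩
    · exact (Finset.sum_nonneg fun i _ => mul_nonneg (h1 i) (Nat.cast_nonneg _)).trans (h2 none).ge
    · rw [one_smul, ← qv_eq]
      exact funext fun o => by simp [h2, hv]
  · obtain ⟨h1, h2, h3⟩ := Finset.mem_filter.1 hl
    exact ⟨h1, h2, fun p hp => (hP.key hp h1 h2 h3).imp_right fun h h' => (h h').2.2⟩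
  · obtain ⟨h6, -, h7⟩ := (hP.key hp' h2 h3 h4).2 h5
    exact (hp.2 l h2 h3 h4 h6).ne' (h7 _ (m5 l h2 h3 (h0 l h2 h4)) (m6 l h2 h3 (h0 l h2 h4)))
  · simp only [pt, xm, Prod.snd_add, add_zero, Pi.zero_apply]
    positivity
  · have h6 := h0 l h2 h4
    have : 0 ≤ ∑ j, M l (some j) * m j := Finset.sum_nonneg fun j _ => by
      by_cases hj : m j < 0
      · simp [m3 l h2 h3 h6 j (h5 j (by simp [pt, xm, hj]))]
      · exact mul_nonneg (m2 l h2 h3 h6 j) (by exact_mod_cast not_lt.1 hj)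
    rw [hq]
    simp only [pt, xm, Prod.fst_add, Pi.add_apply, Option.elim_none, Option.elim_some, Pi.zero_apply,
      add_zero, zero_add, Int.cast_neg, Int.cast_one]
    linarith [m4 l h2 h3 h6]
  · rw [zero_smul, add_zero]
    exact h.cK.add ⟨0, fun o => (xm m 0).1 o, fun _ => le_rfl, by simp [xm], fun j => by
      simpa [xm] using h1 j, by simp⟩
  · obtain ⟨j, hj⟩ := Function.ne_iff.1 h2
    have h6 := (hP.val h3 h4).2.1
    have : 0 < ∑ j, l (some j) * m j := Finset.sum_pos' (fun j _ => mul_nonneg (h6 j).le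
      (by exact_mod_cast h1 j)) ⟨j, Finset.mem_univ _, mul_pos (h6 j)
        (by exact_mod_cast (h1 j).lt_of_ne' hj)⟩
    rw [show ww x β (xm m 0) = qv β (xm m 0) by simp [ww, xm], hq]
    simp only [xm, Option.elim_none, Option.elim_some, Int.cast_zero]
    linarith [h0 l h3 h5]

end RB

end

end Pool.Agent.P.MP_b91a16_ag
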