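import Pool.Agent.P.MP_b91a16_ag.GDep

/-! Line shellings of a lifted fan and the depth of its conic modules. -/

set_option linter.unusedSectionVars false

open Filter

namespace Pool.Agent.P.MP_b91a16_ag

noncomputable section

namespace RB

open RA Cv Kos

structure Fan (G γ E τ : Type) [AddCommGroup G] [AddCommGroup E] [Module ℚ E] where
  sh : γ → G
  ρ : G →+ E
  π : E →ₗ[ℚ] (τ → ℚ)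
  Ch : Set E
  Φ : Finset (τ → ℚ)
  Good : Finset (τ → ℚ) → Prop

variable {G R γ σ E τ : Type} [AddCommGroup G] [CommRing R] [Fintype γ] [DecidableEq γ]
  [DecidableEq σ] [AddCommGroup E] [Module ℚ E] [Fintype τ] [DecidableEq τ]

namespace Fan

variable (F : Fan G γ E τ)

def It (Ψ : Finset (τ → ℚ)) : Finset γ :=
  Finset.univ.filter fun g => ∀ l ∈ Ψ, l ⬝ᵥ F.π (F.ρ (F.sh g)) = 0

def Sh (Ψ : Finset (τ → ℚ)) : Submodule ℚ E := Submodule.span ℚ ((fun g => F.ρ (F.sh g)) '' F.It Ψ)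

def Sp (Ψ : Finset (τ → ℚ)) : Submodule ℚ (τ → ℚ) := (F.Sh Ψ).map F.π

def Mc (Ψ : Finset (τ → ℚ)) (c : E) : Set G :=
  {p | c + F.ρ p ∈ F.Ch ∧ ∀ l ∈ Ψ, l ⬝ᵥ F.π (c + F.ρ p) = 0}

structure Ok : Prop where
  add : ∀ x ∈ F.Ch, ∀ g, x + F.ρ (F.sh g) ∈ F.Ch
  nn : ∀ x ∈ F.Ch, ∀ l ∈ F.Φ, 0 ≤ l ⬝ᵥ F.π x
  nng : ∀ g, ∀ l ∈ F.Φ, 0 ≤ l ⬝ᵥ F.π (F.ρ (F.sh g))
  disc : ∀ c, ∃ D : ℕ, 0 < D ∧ ∀ l ∈ F.Φ, ∀ p, ∃ z : ℤ, (z : ℚ) = D * l ⬝ᵥ F.π (c + F.ρ p)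
  lift : ∀ Ψ ⊆ F.Φ, F.Good Ψ → ∀ x ∈ F.Sh Ψ, (∀ l ∈ F.Φ, 0 ≤ l ⬝ᵥ F.π x) → x ∈ F.Ch
  le : ∀ Ψ ⊆ F.Φ, F.Good Ψ → ∀ x ∈ F.Ch, (∀ l ∈ Ψ, l ⬝ᵥ F.π x = 0) → x ∈ F.Sh Ψ
  le' : ∀ Ψ ⊆ F.Φ, F.Good Ψ → ∀ y, (∀ l ∈ F.Φ, 0 ≤ l ⬝ᵥ y) → (∀ l ∈ Ψ, l ⬝ᵥ y = 0) → y ∈ F.Sp Ψ

variable {F} {Ψ : Finset (τ → ℚ)} {co : γ → σ → R} {U : Submonoid (AddMonoidAlgebra R G)}
  {L : List σ} {d : ℕ}

theorem mem_It {g : γ} : g ∈ F.It Ψ ↔ ∀ l ∈ Ψ, l ⬝ᵥ F.π (F.ρ (F.sh g)) = 0 := by simp [It]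

theorem dot_Sh {l : τ → ℚ} (h : ∀ g ∈ F.It Ψ, l ⬝ᵥ F.π (F.ρ (F.sh g)) = 0) :
    ∀ x ∈ F.Sh Ψ, l ⬝ᵥ F.π x = 0 := fun x hx => by
  induction hx using Submodule.span_induction with
  | mem y hy => exact hy.elim fun g hg => hg.2 ▸ h g hg.1
  | zero => simp
  | add y z _ _ h1 h2 => simp [h1, h2]
  | smul c y _ h1 => simp [h1]

theorem dot_Sh' {l : τ → ℚ} (h : l ∈ Ψ) : ∀ x ∈ F.Sh Ψ, l ⬝ᵥ F.π x = 0 :=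
  dot_Sh fun _ hg => mem_It.1 hg l h

theorem sh_mem {g : γ} (h : g ∈ F.It Ψ) : F.ρ (F.sh g) ∈ F.Sh Ψ := Submodule.subset_span ⟨g, h, rfl⟩

theorem Ok.mem_Mc (hF : F.Ok) (h1 : Ψ ⊆ F.Φ) (h2 : F.Good Ψ) {c : E} {p : G} : p ∈ F.Mc Ψ c ↔
    c + F.ρ p ∈ F.Sh Ψ ∧ ∀ l ∈ F.Φ, 0 ≤ l ⬝ᵥ F.π (c + F.ρ p) :=
  ⟨fun h => ⟨hF.le Ψ h1 h2 _ h.1 h.2, hF.nn _ h.1⟩, fun h =>
    ⟨hF.lift Ψ h1 h2 _ h.1 h.2, fun _ hl => dot_Sh' hl _ h.1⟩⟩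

theorem Ok.eps (hF : F.Ok) (c : E) (v : τ → ℚ) : ∃ ε : ℚ, 0 < ε ∧ ∀ l ∈ F.Φ, ∀ p,
    l ⬝ᵥ F.π (c + F.ρ p) ≠ 0 → ε * |l ⬝ᵥ v| < |l ⬝ᵥ F.π (c + F.ρ p)| := by
  obtain ⟨D, hD, h⟩ := hF.disc c
  have hD' : (0 : ℚ) < D := by exact_mod_cast hD
  obtain ⟨n, hn⟩ := ((eventually_all_finset F.Φ).2 fun l _ =>
    ev_small (1 / D) (-|l ⬝ᵥ v|) (by positivity)).exists
  refine ⟨1 / (n + 1), by positivity, fun l hl p hp => ?_⟩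
  obtain ⟨z, hz⟩ := h l hl p
  have h1 : z ≠ 0 := by
    rintro rfl
    exact mul_ne_zero hD'.ne' hp (by simpa using hz.symm)
  have h2 : (1 : ℚ) ≤ |(z : ℚ)| := by exact_mod_cast Int.one_le_abs h1
  rw [hz, abs_mul, abs_of_pos hD', ← div_le_iff₀' hD'] at h2
  linarith [hn l hl]

theorem pi_sh (c : E) (p : G) (g : γ) :
    F.π (c + F.ρ (p + F.sh g)) = F.π (c + F.ρ p) + F.π (F.ρ (F.sh g)) := by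
  rw [map_add F.ρ, ← add_assoc, map_add]

theorem pi_shift (c v : E) (p : G) : F.π (c + v + F.ρ p) = F.π (c + F.ρ p) + F.π v := by
  rw [add_right_comm, map_add]

theorem sh_shift {c v x : E} (h : v ∈ F.Sh Ψ) : c + v + x ∈ F.Sh Ψ ↔ c + x ∈ F.Sh Ψ := by
  rw [add_right_comm, (F.Sh Ψ).add_mem_iff_left h]

theorem Ok.shell (hF : F.Ok) (hU : Pres F.sh U) (hΨ : Ψ ⊆ F.Φ) {p₀ q : τ → ℚ} (Q : (τ → ℚ) → Prop)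
    (h0 : ∀ l ∈ F.Φ, 0 ≤ l ⬝ᵥ p₀) (h1 : ∀ l ∈ Ψ, l ⬝ᵥ p₀ = 0 ∧ l ⬝ᵥ q = 0)
    (h2 : ∀ l ∈ F.Φ, l ⬝ᵥ p₀ = 0 → 0 ≤ l ⬝ᵥ q)
    (hQ : ∀ l ∈ F.Φ, ∀ l' ∈ F.Φ, 0 < l ⬝ᵥ p₀ → 0 < l' ⬝ᵥ p₀ → Q l →
      l' ⬝ᵥ q / l' ⬝ᵥ p₀ ≤ l ⬝ᵥ q / l ⬝ᵥ p₀ → Q l')
    (g1 : ∀ l ∈ F.Φ, ∀ l' ∈ F.Φ, 0 < l ⬝ᵥ p₀ → 0 < l' ⬝ᵥ p₀ →
      l' ⬝ᵥ q / l' ⬝ᵥ p₀ = l ⬝ᵥ q / l ⬝ᵥ p₀ → ∀ x ∈ F.Ch, (∀ l ∈ Ψ, l ⬝ᵥ F.π x = 0) →
        l ⬝ᵥ F.π x = 0 → l' ⬝ᵥ F.π x = 0)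
    (hc : ∀ Ψ' ⊆ F.Φ, Ψ ⊆ Ψ' → (∃ l ∈ Ψ', 0 < l ⬝ᵥ p₀) → F.Good Ψ')
    (g2 : ∀ Ψ' ⊆ F.Φ, Ψ ⊆ Ψ' → (∃ l ∈ Ψ', 0 < l ⬝ᵥ p₀) → ∀ r : ℚ, q - r • p₀ ∈ F.Sp Ψ' → ∀ c,
      Dep F.sh co U L (F.Mc Ψ' c) d) (c : E) :
    Dep F.sh co U L {p | p ∈ F.Mc Ψ c ∧ ∃ l ∈ F.Φ, 0 < l ⬝ᵥ p₀ ∧ l ⬝ᵥ F.π (c + F.ρ p) = 0 ∧ Q l} d := by
  classical
  let V := (F.Φ.filter fun l => 0 < l ⬝ᵥ p₀ ∧ Q l).image fun l => l ⬝ᵥ q / l ⬝ᵥ p₀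
  have hV : ∀ v, v ∈ V ↔ ∃ l ∈ F.Φ, 0 < l ⬝ᵥ p₀ ∧ Q l ∧ l ⬝ᵥ q / l ⬝ᵥ p₀ = v := by
    simp [V, and_assoc]
  refine Dep.congr (dep_biUnion hU V (fun v => {p | p ∈ F.Mc Ψ c ∧ ∃ l ∈ F.Φ, 0 < l ⬝ᵥ p₀ ∧
    l ⬝ᵥ F.π (c + F.ρ p) = 0 ∧ l ⬝ᵥ q / l ⬝ᵥ p₀ = v}) ?_ ?_) fun p => ?_
  rotate_right
  · constructor
    · rintro ⟨h3, l, h4, h5, h6, h7⟩
      exact ⟨_, (hV _).2 ⟨l, h4, h5, h7, rfl⟩, h3, l, h4, h5, h6, rfl⟩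
    · rintro ⟨v, h3, h4, l, h5, h6, h7, h8⟩
      obtain ⟨l', h9, h10, h11, h12⟩ := (hV v).1 h3
      exact ⟨h4, l, h5, h6, h7, hQ l' h9 l h5 h10 h6 h11 (h8.trans h12.symm).le⟩
  · rintro v - v' - p ⟨h3, -⟩ g ⟨h4, l, h5, h6, h7, h8⟩
    refine ⟨h3, l, h5, h6, ?_, h8⟩
    rw [pi_sh, dotProduct_add] at h7
    linarith [hF.nn _ h3.1 l h5, hF.nng g l h5]
  intro r hr
  obtain ⟨l₀, e1, e2, e3, e4⟩ := (hV r).1 hr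
  let Ψ' := Ψ ∪ F.Φ.filter fun l => 0 < l ⬝ᵥ p₀ ∧ l ⬝ᵥ q / l ⬝ᵥ p₀ = r
  have hΨ' : Ψ' ⊆ F.Φ := Finset.union_subset hΨ (Finset.filter_subset _ _)
  have hl₀ : l₀ ∈ Ψ' := Finset.mem_union_right _ (Finset.mem_filter.2 ⟨e1, e2, e4⟩)
  obtain ⟨ε, hε, hε'⟩ := hF.eps c (q - r • p₀)
  have hv : ∀ l, l ⬝ᵥ (q - r • p₀) = l ⬝ᵥ q - r * l ⬝ᵥ p₀ := fun l => by simp
  have hv0 : ∀ l ∈ Ψ', l ⬝ᵥ (q - r • p₀) = 0 := fun l hl => by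
    rw [hv]
    rcases Finset.mem_union.1 hl with hl | hl
    · simp [h1 l hl]
    · obtain ⟨-, h3, h4⟩ := Finset.mem_filter.1 hl
      rw [← h4, div_mul_cancel₀ _ h3.ne', sub_self]
  have hneg : ∀ l ∈ F.Φ, l ⬝ᵥ (q - r • p₀) < 0 ↔ 0 < l ⬝ᵥ p₀ ∧ l ⬝ᵥ q / l ⬝ᵥ p₀ < r := fun l hl => by
    rw [hv, sub_neg]
    rcases (h0 l hl).lt_or_eq with h | h
    · simp [h, div_lt_iff₀ h]
    · simpa [← h] using h2 l hl h.symm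
  refine Dep.congr (D := {p | p ∈ F.Mc Ψ' c ∧ ∀ l ∈ F.Φ,
    0 ≤ l ⬝ᵥ F.π (c + F.ρ p) + ε * l ⬝ᵥ (q - r • p₀)}) ?_ fun p => ⟨?_, ?_⟩
  rotate_left
  · rintro ⟨⟨h4, l, h5, h6, h7, h8⟩, h9⟩
    refine ⟨⟨h4.1, fun l' hl' => (Finset.mem_union.1 hl').elim (h4.2 l') fun h => ?_⟩,
      fun l' hl' => ?_⟩
    · obtain ⟨h10, h11, h12⟩ := Finset.mem_filter.1 h
      exact g1 l h5 l' h10 h6 h11 (h12.trans h8.symm) _ h4.1 h4.2 h7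
    by_cases h11 : l' ⬝ᵥ (q - r • p₀) < 0
    · obtain ⟨h12, h13⟩ := (hneg l' hl').1 h11
      have := hε' l' hl' p fun h => h9 _ ((hV _).2 ⟨l', hl', h12,
        hQ l₀ e1 l' hl' e2 h12 e3 (h13.trans_eq e4.symm).le, rfl⟩) h13 ⟨h4, l', hl', h12, h, rfl⟩
      rw [abs_of_neg h11, abs_of_nonneg (hF.nn _ h4.1 l' hl')] at this
      linarith
    · exact add_nonneg (hF.nn _ h4.1 l' hl') (mul_nonneg hε.le (not_lt.1 h11))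
  · rintro ⟨⟨h3, h6⟩, h4⟩
    refine ⟨⟨⟨h3, fun l hl => h6 l (Finset.mem_union_left _ hl)⟩, l₀, e1, e2, h6 _ hl₀, e4⟩, ?_⟩
    rintro v' - h7 ⟨-, l, h8, h9, h10, rfl⟩
    have := mul_neg_of_pos_of_neg hε ((hneg l h8).2 ⟨h9, h7⟩)
    linarith [h4 l h8]
  have hc' := hc Ψ' hΨ' Finset.subset_union_left ⟨l₀, hl₀, e2⟩
  by_cases h3 : q - r • p₀ ∈ F.Sp Ψ'
  swap
  · refine dep_empty.congr fun p => iff_of_false (fun ⟨h4, h5⟩ => h3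
      (((F.Sp Ψ').smul_mem_iff hε.ne').1 ?_)) id
    simpa using sub_mem (hF.le' Ψ' hΨ' hc' (F.π (c + F.ρ p) + ε • (q - r • p₀))
      (fun l hl => by simpa only [dotProduct_add, dotProduct_smul, smul_eq_mul] using h5 l hl)
      fun l hl => by rw [dotProduct_add, dotProduct_smul, h4.2 l hl, hv0 l hl]; simp)
      (hF.le' Ψ' hΨ' hc' _ (hF.nn _ h4.1) h4.2)
  have h4 := g2 Ψ' hΨ' Finset.subset_union_left ⟨l₀, hl₀, e2⟩ r h3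
  obtain ⟨v, h5, h6⟩ := h3
  refine (h4 (c + ε • v)).congr fun p => ?_
  simp only [Set.mem_ofPred_eq, hF.mem_Mc hΨ' hc', pi_shift, map_smul, h6, dotProduct_add,
    dotProduct_smul, smul_eq_mul, sh_shift (Submodule.smul_mem _ ε h5)]
  refine ⟨fun h => ⟨h.1.1, h.2⟩, fun h => ⟨⟨h.1, fun l hl => by_contra fun h7 => ?_⟩, h.2⟩⟩
  have := hε' l hl p (not_le.1 h7).ne
  rw [abs_of_neg (not_le.1 h7)] at this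
  nlinarith [h.2 l hl, le_abs_self (l ⬝ᵥ (q - r • p₀))]

theorem Ok.shell' (hF : F.Ok) (hU : Pres F.sh U) (hΨ : Ψ ⊆ F.Φ) (V : Submodule ℚ (τ → ℚ))
    {p₀ q₀ : τ → ℚ} (O : Finset (τ → ℚ)) (Q : (τ → ℚ) → Prop)
    (hV : ∀ x ∈ F.Ch, (∀ l ∈ Ψ, l ⬝ᵥ F.π x = 0) → F.π x ∈ V) (hV' : ∀ l ∈ Ψ, ∀ y ∈ V, l ⬝ᵥ y = 0)
    (hp : p₀ ∈ V) (hq : q₀ ∈ V) (hO : ∀ l ∈ O, 0 < l ⬝ᵥ q₀) (h0 : ∀ l ∈ F.Φ, 0 ≤ l ⬝ᵥ p₀)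
    (h2 : ∀ l ∈ F.Φ, l ⬝ᵥ p₀ = 0 → l ∈ O ∨ ∀ y ∈ V, l ⬝ᵥ y = 0)
    (hQ : ∀ l ∈ F.Φ, ∀ l' ∈ F.Φ, 0 < l ⬝ᵥ p₀ → 0 < l' ⬝ᵥ p₀ → Q l → ¬Q l' →
      (l ⬝ᵥ p₀) • l' - (l' ⬝ᵥ p₀) • l ∈ O)
    (hc : ∀ Ψ' ⊆ F.Φ, Ψ ⊆ Ψ' → (∃ l ∈ Ψ', 0 < l ⬝ᵥ p₀) → F.Good Ψ')
    (ih : ∀ Ψ' ⊆ F.Φ, Ψ ⊆ Ψ' → (∃ l ∈ Ψ', 0 < l ⬝ᵥ p₀) → V ≤ F.Sp Ψ' ⊔ ℚ ∙ p₀ → ∀ c,
      Dep F.sh co U L (F.Mc Ψ' c) d) (c : E) :
    Dep F.sh co U L {p | p ∈ F.Mc Ψ c ∧ ∃ l ∈ F.Φ, 0 < l ⬝ᵥ p₀ ∧ l ⬝ᵥ F.π (c + F.ρ p) = 0 ∧ Q l} d := by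
  classical
  obtain ⟨q, e1, e2, e3⟩ := exists_generic V ((F.Φ ×ˢ F.Φ).image (fun x => LinearMap.ker
    (dotProductBilin ℚ ℚ ((x.1 ⬝ᵥ p₀) • x.2 - (x.2 ⬝ᵥ p₀) • x.1))) ∪
      F.Φ.powerset.image fun Ψ' => F.Sp Ψ' ⊔ ℚ ∙ p₀) O hq hO
  refine hF.shell hU hΨ (q := q) Q h0 (fun l hl => ⟨hV' l hl _ hp, hV' l hl _ e1⟩)
    (fun l hl h => (h2 l hl h).elim (fun h => (e2 l h).le) fun h => (h q e1).ge)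
    (fun l hl l' hl' h3 h4 h5 h6 => by_contra fun h7 => ?_)
    (fun l hl l' hl' h3 h4 h5 y h6 h6' h7 => ?_)
    hc (fun Ψ' h3 h4 h5 r h6 => ih Ψ' h3 h4 h5 ?_) c
  · have := e2 _ (hQ l hl l' hl' h3 h4 h5 h7)
    rw [div_le_div_iff₀ h4 h3] at h6
    simp only [sub_dotProduct, smul_dotProduct, smul_eq_mul] at this
    linarith
  · have := e3 _ (Finset.mem_union_left _ (Finset.mem_image_of_mem _ (Finset.mk_mem_product hl hl')))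
      (by
        rw [div_eq_div_iff h4.ne' h3.ne'] at h5
        simp only [LinearMap.mem_ker, dotProductBilin_apply_apply, sub_dotProduct, smul_dotProduct,
          smul_eq_mul]
        linarith) (hV y h6 h6')
    simpa [h7, h3.ne'] using this
  · exact e3 _ (Finset.mem_union_right _ (Finset.mem_image_of_mem _
      (Finset.mem_powerset.2 h3))) (Submodule.mem_sup.2 ⟨_, h6, r • p₀,
        Submodule.smul_mem _ _ (Submodule.mem_span_singleton_self _), by abel⟩)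

theorem Ok.sum_nonneg (hF : F.Ok) (Γ : Finset γ) {l : τ → ℚ} (hl : l ∈ F.Φ) :
    0 ≤ l ⬝ᵥ F.π (F.ρ (∑ g ∈ Γ, F.sh g)) ∧
      (l ⬝ᵥ F.π (F.ρ (∑ g ∈ Γ, F.sh g)) = 0 → ∀ g ∈ Γ, l ⬝ᵥ F.π (F.ρ (F.sh g)) = 0) := by
  rw [map_sum, map_sum, dotProduct_sum]
  exact ⟨Finset.sum_nonneg fun g _ => hF.nng g l hl,
    (Finset.sum_eq_zero_iff_of_nonneg fun g _ => hF.nng g l hl).1⟩

theorem sum_mem_Sh {Γ : Finset γ} (hΓ : Γ ⊆ F.It Ψ) : F.ρ (∑ g ∈ Γ, F.sh g) ∈ F.Sh Ψ := by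
  rw [map_sum]
  exact sum_mem fun g hg => sh_mem (hΓ hg)

theorem Ok.layers (hF : F.Ok) (hU : Pres F.sh U) (hΨ : Ψ ⊆ F.Φ) {Γ : Finset γ} (hΓ : Γ ⊆ F.It Ψ)
    (hc : ∀ Ψ' ⊆ F.Φ, Ψ ⊆ Ψ' → F.Good Ψ')
    (ih : ∀ Ψ' ⊆ F.Φ, Ψ ⊆ Ψ' → (∃ l ∈ Ψ', 0 < l ⬝ᵥ F.π (F.ρ (∑ g ∈ Γ, F.sh g))) →
      F.Sp Ψ ≤ F.Sp Ψ' ⊔ ℚ ∙ F.π (F.ρ (∑ g ∈ Γ, F.sh g)) → ∀ c, Dep F.sh co U L (F.Mc Ψ' c) d)
    (c : E) : Dep F.sh co U L {p | p ∈ F.Mc Ψ c ∧ p - ∑ g ∈ Γ, F.sh g ∉ F.Mc Ψ c} d := by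
  classical
  have hG := hc Ψ hΨ subset_rfl
  have h3 := sum_mem_Sh hΓ
  have h0 := fun l hl => (hF.sum_nonneg Γ (l := l) hl).1
  set P := ∑ g ∈ Γ, F.sh g
  set p₀ := F.π (F.ρ P) with hp₀
  obtain ⟨D, hD0, hD1⟩ := hF.disc c
  have hD' : (0 : ℚ) < D := by exact_mod_cast hD0
  let V := ((F.Φ ×ˢ Finset.range (⌈D * ∑ l ∈ F.Φ, l ⬝ᵥ p₀⌉₊)).image
    fun x => (x.2 / D : ℚ) / (x.1 ⬝ᵥ p₀)).filter (· < 1)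
  have hV : ∀ l ∈ F.Φ, ∀ p ∈ F.Mc Ψ c, l ⬝ᵥ F.π (c + F.ρ p) < l ⬝ᵥ p₀ →
      l ⬝ᵥ F.π (c + F.ρ p) / l ⬝ᵥ p₀ ∈ V := by
    intro l hl p hp h
    have h4 := hF.nn _ hp.1 l hl
    obtain ⟨z, hz⟩ := hD1 l hl p
    lift z to ℕ using by exact_mod_cast hz ▸ mul_nonneg hD'.le h4
    refine Finset.mem_filter.2 ⟨Finset.mem_image.2 ⟨(l, z), Finset.mk_mem_product hl
      (Finset.mem_range.2 (Nat.lt_ceil.2 ?_)), ?_⟩, (div_lt_one (h4.trans_lt h)).2 h⟩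
    · rw [Int.cast_natCast] at hz
      rw [hz]
      exact mul_lt_mul_of_pos_left (h.trans_le (Finset.single_le_sum h0 hl)) hD'
    · rw [Int.cast_natCast] at hz
      simp only [hz, mul_div_cancel_left₀ _ hD'.ne']
  refine (dep_biUnion hU V (fun v => {p | p ∈ F.Mc Ψ c ∧ ∃ l ∈ F.Φ, 0 < l ⬝ᵥ p₀ ∧
    l ⬝ᵥ F.π (c + F.ρ p) ≤ v * l ⬝ᵥ p₀}) ?_ fun v hv => ?_).congr fun p => ?_
  · rintro v - v' - p ⟨h4, -⟩ g ⟨h5, l, h6, h7, h8⟩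
    refine ⟨h4, l, h6, h7, ?_⟩
    rw [pi_sh, dotProduct_add] at h8
    linarith [hF.nng g l h6]
  · have hv1 : v < 1 := (Finset.mem_filter.1 hv).2
    have hv0 : 0 ≤ v := by
      obtain ⟨x, hx, rfl⟩ := Finset.mem_image.1 (Finset.mem_filter.1 hv).1
      exact div_nonneg (by positivity) (h0 _ (Finset.mem_product.1 hx).1)
    refine Dep.congr (hF.shell' hU hΨ (F.Sp Ψ) (q₀ := F.π (F.ρ (∑ g ∈ F.It Ψ, F.sh g)))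
      (F.Φ.filter fun l => 0 < l ⬝ᵥ F.π (F.ρ (∑ g ∈ F.It Ψ, F.sh g))) (fun _ => True)
      (fun x h4 h5 => ⟨x, hF.le Ψ hΨ hG x h4 h5, rfl⟩)
      (fun l hl _ ⟨x, h4, h5⟩ => h5 ▸ dot_Sh' hl x h4) ⟨_, h3, rfl⟩ ⟨_, sum_mem_Sh subset_rfl, rfl⟩
      (fun l hl => (Finset.mem_filter.1 hl).2) h0 (fun l hl _ => or_iff_not_imp_left.2
        fun h _ ⟨x, h4, h5⟩ => h5 ▸ dot_Sh ((hF.sum_nonneg _ hl).2 ((hF.sum_nonneg _ hl).1.eq_of_not_lt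
          fun h' => h (Finset.mem_filter.2 ⟨hl, h'⟩)).symm) x h4)
      (by simp) (fun Ψ' h4 h5 _ => hc Ψ' h4 h5) ih (c + -v • F.ρ P)) fun p => ?_
    simp only [Set.mem_ofPred_eq, hF.mem_Mc hΨ hG, pi_shift, map_smul, dotProduct_add,
      dotProduct_smul, smul_eq_mul, ← hp₀, sh_shift (Submodule.smul_mem _ (-v) h3)]
    constructor
    · rintro ⟨⟨⟨h4, h5⟩, l, h6, h7, h8⟩, h9⟩
      have h10 : ∀ l ∈ F.Φ, 0 ≤ l ⬝ᵥ F.π (c + F.ρ p) + -v * l ⬝ᵥ p₀ := fun l hl => by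
        by_contra h
        have h10 := h5 l hl
        have h11 : 0 < l ⬝ᵥ p₀ := (h0 l hl).lt_of_ne fun e => by rw [← e] at h; exact h (by linarith)
        exact h9 _ (hV l hl p ((hF.mem_Mc hΨ hG).2 ⟨h4, h5⟩) (by nlinarith))
          ((div_lt_iff₀ h11).2 (by linarith)) ⟨⟨h4, h5⟩, l, hl, h11, (div_mul_cancel₀ _ h11.ne').ge⟩
      exact ⟨⟨h4, h10⟩, l, h6, h7, by linarith [h10 l h6], trivial⟩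
    · rintro ⟨⟨h4, h5⟩, l, h7, h8, h9, -⟩
      refine ⟨⟨⟨h4, fun l hl => by nlinarith [h5 l hl, h0 l hl]⟩, l, h7, h8, by linarith⟩, ?_⟩
      rintro v' - h10 ⟨-, l, h11, h12, h13⟩
      nlinarith [h5 l h11]
  · have e : c + F.ρ (p - P) = c + F.ρ p - F.ρ P := by rw [map_sub, add_sub_assoc]
    simp only [Set.mem_ofPred_eq, hF.mem_Mc hΨ hG (p := p - P), e, map_sub F.π, ← hp₀,
      dotProduct_sub, sub_nonneg]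
    constructor
    · rintro ⟨h4, h5⟩
      obtain ⟨l, hl, h6⟩ : ∃ l ∈ F.Φ, l ⬝ᵥ F.π (c + F.ρ p) < l ⬝ᵥ p₀ := by
        by_contra h
        push Not at h
        exact h5 ⟨sub_mem ((hF.mem_Mc hΨ hG).1 h4).1 h3, h⟩
      have h7 := (hF.nn _ h4.1 l hl).trans_lt h6
      exact ⟨_, hV l hl p h4 h6, h4, l, hl, h7, (div_mul_cancel₀ _ h7.ne').ge⟩
    · rintro ⟨v, h4, h5, l, h6, h7, h8⟩
      have h10 : v < 1 := (Finset.mem_filter.1 h4).2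
      exact ⟨h5, fun h => by nlinarith [h.2 l h6]⟩

theorem Ok.sub_eq (hF : F.Ok) (hΨ : Ψ ⊆ F.Φ) (hG : F.Good Ψ) {Γ : Finset γ} (hΓ : Γ ⊆ F.It Ψ)
    {c : E} {A B : Set G} (hA : Cd F.sh A) (hB : Cd F.sh B) (hBA : B ⊆ A) (hD : A \ B = F.Mc Ψ c) :
    (∀ p ∈ A, ∑ g ∈ Γ, F.sh g + p ∈ B → p ∈ B) ∧ Cd F.sh (B ∪ (fun p => ∑ g ∈ Γ, F.sh g + p) '' A) ∧
      B ∪ (fun p => ∑ g ∈ Γ, F.sh g + p) '' A ⊆ A ∧ A \ (B ∪ (fun p => ∑ g ∈ Γ, F.sh g + p) '' A) =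
        {p | p ∈ F.Mc Ψ c ∧ p - ∑ g ∈ Γ, F.sh g ∉ F.Mc Ψ c} := by
  have hM : ∀ p, p ∈ F.Mc Ψ c ↔ p ∈ A ∧ p ∉ B := fun p => (Set.ext_iff.1 hD p).symm
  refine ⟨fun p hp h => by_contra fun h' => ((hM _).1 ?_).2 h, ?_, ?_, Set.ext fun p => ?_⟩
  · obtain ⟨h1, h2⟩ := (hF.mem_Mc hΨ hG).1 ((hM p).2 ⟨hp, h'⟩)
    rw [hF.mem_Mc hΨ hG, add_comm _ p, map_add, ← add_assoc, map_add]
    exact ⟨add_mem h1 (sum_mem_Sh hΓ), fun l hl => dotProduct_add l _ _ ▸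
      add_nonneg (h2 l hl) (hF.sum_nonneg Γ hl).1⟩
  · rintro p (hp | ⟨p, hp, rfl⟩) g
    exacts [Or.inl (hB p hp g), Or.inr ⟨_, hA p hp g, (add_assoc _ _ _).symm⟩]
  · rintro p (hp | ⟨p, hp, rfl⟩)
    exacts [hBA hp, hA.sum Γ p hp]
  · simp only [Set.mem_sdiff, Set.mem_union, not_or, ← and_assoc, ← hM, Set.mem_ofPred_eq]
    refine and_congr_right fun h => not_congr ⟨?_, fun h' => ⟨_, ((hM _).1 h').1, by simp⟩⟩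
    rintro ⟨p, hp, rfl⟩
    simpa [hM, hp] using fun h' => ((hM _).1 h).2 (hB.sum Γ p h')

theorem Ok.ev_mem (hF : F.Ok) (hΨ : Ψ ⊆ F.Φ) (hG : F.Good Ψ) (c : E) :
    ∀ x ∈ sp R {p | c + F.ρ p ∈ F.Sh Ψ}, ∀ᶠ r : ℕ in atTop,
      ee (∑ g ∈ F.It Ψ, F.sh g) ^ r * x ∈ sp R (F.Mc Ψ c) := by
  let N : Submodule R (AddMonoidAlgebra R G) :=
    { carrier := {x | ∀ᶠ r : ℕ in atTop, ee (∑ g ∈ F.It Ψ, F.sh g) ^ r * x ∈ sp R (F.Mc Ψ c)}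
      zero_mem' := Eventually.of_forall fun _ => by simp
      add_mem' := fun h h' => (h.and h').mono fun _ h => by rw [mul_add]; exact add_mem h.1 h.2
      smul_mem' := fun c _ h => h.mono fun _ h => by
        rw [mul_smul_comm]; exact Submodule.smul_mem _ c h }
  refine sp_le (N := N) fun p hp => (((eventually_all_finset F.Φ).2 fun l hl => ?_ :
    ∀ᶠ r : ℕ in atTop, ∀ l ∈ F.Φ, 0 ≤ l ⬝ᵥ F.π (c + F.ρ p) +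
      r * l ⬝ᵥ F.π (F.ρ (∑ g ∈ F.It Ψ, F.sh g)))).mono fun r hr => ?_
  · rcases (hF.sum_nonneg (F.It Ψ) hl).1.lt_or_eq with h | h
    · exact (tendsto_atTop_add_const_left _ _ (tendsto_natCast_atTop_atTop.atTop_mul_const h)).eventually_ge_atTop 0
    · exact Eventually.of_forall fun r => by
        rw [← h, dot_Sh ((hF.sum_nonneg _ hl).2 h.symm) _ hp, mul_zero, add_zero]
  · rw [ee_pow, ee_mul]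
    refine ee_mem ((hF.mem_Mc hΨ hG).2 ?_)
    rw [add_comm _ p, map_add, ← add_assoc, map_add, map_nsmul, map_nsmul]
    exact ⟨add_mem hp (nsmul_mem (sum_mem_Sh subset_rfl) r), fun l hl => by
      rw [dotProduct_add, dotProduct_smul, nsmul_eq_mul]; exact hr l hl⟩

theorem finrank_le_succ {V W : Submodule ℚ (τ → ℚ)} {p₀ : τ → ℚ} (h : V ≤ W ⊔ ℚ ∙ p₀) :
    Module.finrank ℚ V ≤ Module.finrank ℚ W + 1 := by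
  have h7 := Submodule.finrank_mono h
  have h8 := Submodule.finrank_add_le_finrank_add_finrank W (ℚ ∙ p₀)
  have h9 : Module.finrank ℚ (ℚ ∙ p₀) ≤ 1 := by
    have := finrank_span_finset_le_card (R := ℚ) {p₀}
    rwa [Set.finrank, Finset.coe_singleton] at this
  omega

theorem Ok.depth (hF : F.Ok) (Cl : Finset (τ → ℚ) → Prop)
    (hCl : ∀ Ψ, ∀ Ψ' ⊆ F.Φ, Ψ ⊆ Ψ' → Cl Ψ → Cl Ψ') (hG : ∀ Ψ ⊆ F.Φ, Cl Ψ → F.Good Ψ)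
    (hT : ∀ Ψ ⊆ F.Φ, Cl Ψ → ∀ i : ℤ, i < Module.finrank ℚ (F.Sp Ψ) → ∃ H : AddSubgroup G,
      (∀ p, F.ρ p ∈ F.Sh Ψ → p ∈ H) ∧ Ex (FI F.sh co (F.It Ψ)) L (sa R H) ⊥ i) (d : ℕ) :
    ∀ Ψ ⊆ F.Φ, Cl Ψ → d ≤ Module.finrank ℚ (F.Sp Ψ) → ∀ c, Dep F.sh co ⊥ L (F.Mc Ψ c) d := by
  induction d with
  | zero => exact fun _ _ _ _ _ => dep_zero
  | succ d ih =>
  intro Ψ hΨ hc hd c A B hA hB hBA hD i hi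
  have hG' := hG Ψ hΨ hc
  obtain ⟨h1, h2, h3, h4⟩ := hF.sub_eq hΨ hG' subset_rfl hA hB hBA hD
  refine (ex_step'' (t := ee (∑ g ∈ F.It Ψ, F.sh g)) (hA.fi _) (hB.fi _) (ee_mul_mem (hA.sum _))
    (fun x hx => cancel_sp h1 hx) (fun x hx h5 => ?_) ?_).exL
  swap
  · rw [sp_shift]
    exact exL_bot.1 (hF.layers pres_bot hΨ subset_rfl (fun Ψ' e1 e2 => hG Ψ' e1 (hCl Ψ Ψ' e1 e2 hc))
      (fun Ψ' e1 e2 _ e3 => ih Ψ' e1 (hCl Ψ Ψ' e1 e2 hc) (by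
        have := finrank_le_succ e3
        omega)) c A _ hA h2 h3 h4 _ (by push_cast at hi; omega))
  have hM : ∀ p, p ∈ F.Mc Ψ c ↔ p ∈ A ∧ p ∉ B := fun p => (Set.ext_iff.1 hD p).symm
  have h6 : ∀ l, ∀ y ∈ sa R (F.Mc Ψ c),
      (FI F.sh co Finset.univ l - FI F.sh co (F.It Ψ) l) * y ∈ sa R B := fun l => by
    rw [FI, FI, ← Finset.sum_sdiff (Finset.subset_univ (F.It Ψ)), add_sub_cancel_right]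
    refine fi_mem (fun p hp g hg => by_contra fun h => (Finset.mem_sdiff.1 hg).2
      (mem_It.2 fun l hl => ?_)) l
    have := ((hM _).2 ⟨hA p ((hM p).1 hp).1 g, h⟩).2 l hl
    rwa [pi_sh, dotProduct_add, hp.2 l hl, zero_add] at this
  have h7 := pj_pD (F.Mc Ψ c) hx
  have h8 := sub_pj_pD hD hx
  rcases (F.Mc Ψ c).eq_empty_or_nonempty with h | ⟨p₀, h9⟩
  · exact ⟨0, 0, zero_mem _, by
      simpa using fam_mono (sp_mono (k := R) (Set.sdiff_eq_empty.1 (hD.trans h))) L i x hx⟩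
  have h10 := ((hF.mem_Mc hΨ hG').1 h9).1
  have e : {p | p - p₀ ∈ (F.Sh Ψ).toAddSubgroup.comap F.ρ} = {p | c + F.ρ p ∈ F.Sh Ψ} :=
    Set.ext fun p => by
      rw [Set.mem_ofPred_eq, Set.mem_ofPred_eq, ← (F.Sh Ψ).sub_mem_iff_left h10, add_sub_add_left_eq_sub, ← map_sub]
      rfl
  obtain ⟨H, h11, h12⟩ := hT Ψ hΨ hc i (by push_cast at hi; omega)
  obtain ⟨y, h13, h14⟩ := ex_coset (H := (F.Sh Ψ).toAddSubgroup.comap F.ρ)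
    (F := FI F.sh co (F.It Ψ)) h11 (fun l =>
    sum_mem fun g hg => Submodule.smul_mem _ _ (ee_mem (sh_mem hg))) h12 p₀ _ (fam_mono
      (sp_mono (k := R) fun p hp => e ▸ ((hF.mem_Mc hΨ hG').1 hp).1) L i _ h7) (by
    have e1 : dd (FI F.sh co (F.It Ψ)) L (pj (pD R (F.Mc Ψ c)) L x) ∈ fam (sa R B) L (i + 1) := by
      have := sub_mem (sub_mem h5 (fam_dd (hB.fi (co := co) Finset.univ) L i _ h8)) (dd_sub h6 L i _ h7)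
      simpa using this
    have e2 := fam_dd (F := FI F.sh co (F.It Ψ)) (fi_mem (B := F.Mc Ψ c) fun p hp g hg =>
      ⟨by rw [map_add, ← add_assoc]; exact hF.add _ hp.1 g, fun l hl => by
        rw [pi_sh, dotProduct_add, hp.2 l hl, mem_It.1 hg l hl, add_zero]⟩) L i _ h7
    refine fam_mono (fun z hz => ?_) L _ _ (fam_inf L _ _ e1 e2)
    have : z ∈ sp R B ⊓ sp R (F.Mc Ψ c) := hz
    rw [sp_inf] at this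
    exact sp_le (N := ⊥) (fun p hp => absurd hp.1 ((hM p).1 hp.2).2) this)
  rw [e] at h13
  obtain ⟨r, h15⟩ := (fam_ev (B := sa R (F.Mc Ψ c)) (hF.ev_mem hΨ hG' c) L _ y h13).exists
  refine ⟨r, _, fam_mono (sp_mono (k := R) fun p hp => ((hM p).1 hp).1) L _ _ h15, ?_⟩
  have h16 := dd_sub h6 L _ _ h15
  rw [sub_add_cancel, map_smul (dd (FI F.sh co (F.It Ψ)) L), ← sub_eq_zero.1 (fam_bot _ _ _ h14)] at h16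
  have := sub_mem (fam_smul (z := ee (∑ g ∈ F.It Ψ, F.sh g) ^ r) (B := sa R B) (fun z hz => by
    clear h15 h16
    induction r with
    | zero => simpa using hz
    | succ r ih => rw [pow_succ', mul_assoc]; exact ee_mul_mem (hB.sum _) _ ih) L i _ h8) h16
  convert this using 1
  rw [smul_sub]
  abel

end Fan

end RB

end

end Pool.Agent.P.MP_b91a16_ag
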