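import Pool.Agent.P.MP_b91a16_ag.GHens

/-! Sets of linear variables that are deficient on all compact faces of a face. -/

set_option linter.unusedSectionVars false

namespace Pool.Agent.P.MP_b91a16_ag

noncomputable section

namespace RB

open RA Cv

variable {σ ι Θ : Type} [Fintype σ] [DecidableEq σ] [Fintype ι] [DecidableEq ι] [Fintype Θ]
  [DecidableEq Θ]

theorem layer {C : Finset σ} {E : σ → Finset ι} {ty : ι → Θ}
    (h : ∀ V ⊆ C, V.Nonempty → V.card < ((V.biUnion E).image ty).card) (M : ℕ) :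
    ∀ (ρ : σ → ℕ) (η : Θ → ℕ), (∀ c ∈ C, ρ c ≤ M) → (∀ c ∈ C, ∀ i ∈ E c, ρ c ≤ η (ty i)) →
      (C.card + 1) * ∑ c ∈ C, ρ c ≤ C.card * ∑ t, η t := by
  induction M with
  | zero => exact fun ρ η h1 _ => by simp [Finset.sum_eq_zero fun c hc => Nat.le_zero.1 (h1 c hc)]
  | succ M ih =>
    intro ρ η h1 h2
    have h3 := ih (fun c => ρ c - 1) (fun t => η t - 1) (fun c hc => by have := h1 c hc; omega)
      fun c hc i hi => Nat.sub_le_sub_right (h2 c hc i hi) 1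
    have e : ∀ {α : Type} (s : Finset α) (f : α → ℕ),
        ∑ c ∈ s, f c = ∑ c ∈ s, (f c - 1) + (s.filter (f · ≠ 0)).card := fun s f => by
      rw [Finset.card_filter, ← Finset.sum_add_distrib]
      exact Finset.sum_congr rfl fun c _ => by split_ifs <;> omega
    rw [e C, e Finset.univ, mul_add, mul_add]
    refine add_le_add h3 ?_
    rcases (C.filter (ρ · ≠ 0)).eq_empty_or_nonempty with h4 | h4
    · simp [h4]
    have h5 := (h _ (Finset.filter_subset _ _) h4).trans_le (Finset.card_le_card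
      (t := Finset.univ.filter (η · ≠ 0)) fun t ht => by
        simp only [Finset.mem_image, Finset.mem_biUnion, Finset.mem_filter, Finset.mem_univ,
          true_and] at ht ⊢
        obtain ⟨i, ⟨c, h5, h6⟩, rfl⟩ := ht
        have := h2 c h5.1 i h6
        omega)
    nlinarith [Finset.card_filter_le C (ρ · ≠ 0)]

theorem exists_pot {C : Finset σ} {E : σ → Finset ι} {ty : ι → Θ} (b : ι → ℕ)
    (h : ∀ V ⊆ C, V.Nonempty → V.card < ((V.biUnion E).image ty).card) :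
    ∃ (ρ : σ → ℕ) (η : Θ → ℕ), (∀ c ∈ C, ∀ i ∈ E c, ρ c ≤ η (ty i) + b i) ∧ ∀ V ⊆ C, V.Nonempty →
      V.card < ((V.biUnion fun c => (E c).filter fun i => ρ c = η (ty i) + b i).image ty).card := by
  obtain ⟨_, ⟨ρ, η, h1, rfl⟩, h2⟩ := Int.exists_greatest_of_bdd (P := fun z => ∃ (ρ : σ → ℕ)
    (η : Θ → ℕ), (∀ c ∈ C, ∀ i ∈ E c, ρ c ≤ η (ty i) + b i) ∧
      z = (C.card + 1) * ∑ c ∈ C, ρ c - C.card * ∑ t, η t)
    ⟨(C.card + 1) * ∑ c ∈ C, ∑ i, b i, by
      rintro _ ⟨ρ, η, h1, rfl⟩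
      have h2 := layer h (∑ c ∈ C, ρ c) (fun c => ρ c - ∑ i, b i) η (fun c hc => (Nat.sub_le _ _).trans
        (Finset.single_le_sum (fun _ _ => Nat.zero_le _) hc)) fun c hc i hi => by
          have := h1 c hc i hi
          have := Finset.single_le_sum (f := b) (fun _ _ => Nat.zero_le _) (Finset.mem_univ i)
          omega
      have h3 : ∑ c ∈ C, ρ c ≤ ∑ c ∈ C, (ρ c - ∑ i, b i) + ∑ c ∈ C, ∑ i, b i := by
        rw [← Finset.sum_add_distrib]
        exact Finset.sum_le_sum fun c _ => by omega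
      have h4 := (Nat.mul_le_mul_left (C.card + 1) h3).trans
        ((mul_add _ _ _).trans_le (add_le_add h2 le_rfl))
      rw [sub_le_iff_le_add']
      exact_mod_cast h4⟩ ⟨_, 0, 0, by simp, rfl⟩
  refine ⟨ρ, η, h1, fun V h3 h4 => not_le.1 fun h5 => ?_⟩
  set N := (V.biUnion fun c => (E c).filter fun i => ρ c = η (ty i) + b i).image ty with hN
  have h6 := h2 _ ⟨fun c => ρ c + if c ∈ V then 1 else 0, fun t => η t + if t ∈ N then 1 else 0,
    fun c hc i hi => by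
      have h6 := h1 c hc i hi
      have h7 : c ∈ V → ρ c = η (ty i) + b i → ty i ∈ N := fun h h' => Finset.mem_image_of_mem _
        (Finset.mem_biUnion.2 ⟨c, h, Finset.mem_filter.2 ⟨hi, h'⟩⟩)
      beta_reduce
      split_ifs with e e' <;> first | omega | (have := mt (h7 e) e'; omega), rfl⟩
  simp only [Finset.sum_add_distrib, Finset.sum_ite_mem, Finset.inter_eq_right.2 h3,
    Finset.univ_inter, ← Finset.card_eq_sum_ones, Nat.cast_add] at h6
  have h7 : (0 : ℤ) < V.card := by exact_mod_cast h4.card_pos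
  have h8 : (N.card : ℤ) ≤ V.card := by exact_mod_cast h5
  nlinarith [mul_le_mul_of_nonneg_left h8 (Nat.cast_nonneg C.card)]

variable {u : ι → σ → ℕ} {I W : Finset ι} {J S T C R V : Finset σ} {i : ι} {ω : Option σ → ℚ}

variable (u) in
def ty (R : Finset σ) (i : ι) : Option σ := if h : ∃ r ∈ R, u i r ≠ 0 then some h.choose else none

theorem ty_none : ty u R i = none ↔ ∀ r ∈ R, u i r = 0 := by
  unfold ty
  split_ifs with h <;> simpa using h

theorem ty_some (h : PL u W R R) (hi : i ∈ W) {r : σ} : ty u R i = some r ↔ r ∈ R ∧ u i r ≠ 0 := by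
  unfold ty
  split_ifs with h'
  · exact Option.some_inj.trans ⟨fun e => e ▸ h'.choose_spec, fun e =>
      (h i hi _ h'.choose_spec.1 r e.1 h'.choose_spec.2 e.2).1⟩
  · exact iff_of_false (by simp) fun e => h' ⟨r, e⟩

theorem sum_ty (h : PL u W R R) (hi : i ∈ W) (f : σ → ℚ) :
    ∑ r ∈ R, f r * u i r = (ty u R i).elim 0 f := by
  rcases e : ty u R i with _ | r
  · exact Finset.sum_eq_zero fun r hr => by simp [ty_none.1 e r hr]
  · exact h.dot hi subset_rfl ((ty_some h hi).1 e).1 ((ty_some h hi).1 e).2 f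

variable (u) in
def Nr (W : Finset ι) (R V : Finset σ) : Finset σ := R.filter fun r => ∃ i ∈ Nb u W V, u i r ≠ 0

theorem mem_Nr {r : σ} : r ∈ Nr u W R V ↔ r ∈ R ∧ ∃ i ∈ W, ∃ j ∈ V, u i j ≠ 0 ∧ u i r ≠ 0 := by
  simp only [Nr, Finset.mem_filter, mem_Nb, and_assoc, ← exists_and_right]

variable (u) in
/-- Deficiency on every compact face of `W`. -/
def Dg (J : Finset σ) (W : Finset ι) (S : Finset σ) : Prop := Disjoint S J ∧ PL u W S S ∧
  ∀ I ⊆ W, Fc u I → ∃ T ⊆ S, rk (uq u) (Nb u I T) < 2 * T.card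

variable (u) in
def Mg (J : Finset σ) (W : Finset ι) (S : Finset σ) : Prop := Dg u J W S ∧ ∀ T ⊂ S, ¬Dg u J W T

variable (u) in
structure Sem (ω : Option σ → ℚ) (J : Finset σ) (W : Finset ι) : Prop where
  neg : ω none < 0
  var : ∀ j, 0 ≤ ω (some j) ∧ (ω (some j) = 0 → j ∈ J)
  mon : ∀ i, 0 ≤ ω ⬝ᵥ hv u i ∧ (i ∈ W ↔ ω ⬝ᵥ hv u i = 0)

theorem Mg.te (hω : Sem u ω J W) (hT : Mg u J W T) (hC : C ⊆ T) (hC' : C.Nonempty)
    (h1 : Disjoint R J) (h2 : Disjoint R T) (h3 : PL u W R R)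
    (h4 : ∀ i ∈ Nb u W (T \ C), ∀ r ∈ R, u i r = 0) : ∃ V ⊆ C, V.Nonempty ∧
      ((Nb u W V).image (ty u R)).card ≤ V.card := by
  classical
  by_contra h5
  push Not at h5
  obtain ⟨⟨h6, h7, h8⟩, h9⟩ := hT
  obtain ⟨I₀, h10, h11, h12⟩ : ∃ I ⊆ W, Fc u I ∧ ∀ T' ⊆ T \ C, 2 * T'.card ≤ rk (uq u) (Nb u I T') := by
    by_contra h
    push Not at h
    exact h9 _ (Finset.sdiff_ssubset hC hC') ⟨h6.mono_left Finset.sdiff_subset,
      h7.mono subset_rfl Finset.sdiff_subset Finset.sdiff_subset, h⟩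
  obtain ⟨g, N, d, g1, -, g2⟩ := fc_nat h11
  obtain ⟨ρ, η, p1, p2⟩ := exists_pot (E := fun c => Nb u W {c}) (ty := ty u R) d fun V e e' =>
    (h5 V e e').trans_le (Finset.card_le_card (Finset.image_subset_image fun i hi => by
      obtain ⟨e1, j, e2, e3⟩ := mem_Nb.1 hi
      exact Finset.mem_biUnion.2 ⟨j, e2, mem_Nb1.2 ⟨e1, e3⟩⟩))
  have hPC := h7.mono subset_rfl hC hC
  let ξ : Option σ → ℚ := fun o => o.elim (η none + 1 - N : ℚ) fun j => (g j : ℚ) +
    (if j ∈ R then (η (some j) - η none : ℚ) else 0) +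
      (if j ∈ C then (η none - ρ j : ℚ) else 0) - if j ∈ T then (η none + 1 : ℚ) else 0
  have e0 : ∀ i ∈ W, ξ ⬝ᵥ hv u i = (d i : ℚ) + (η (ty u R i) - η none : ℚ) +
      (ty u C i).elim 0 (fun j => (η none - ρ j : ℚ)) +
        if i ∈ Nb u W T then 0 else (η none + 1 : ℚ) :=
    fun i hi => by
      have e1 : ∑ j, (g j : ℚ) * u i j = N + d i := by exact_mod_cast (g2 i).1
      have e2 := h7.sum hi
      simp only [dot_hv, ξ, Option.elim_none, Option.elim_some, add_mul, sub_mul _ _ (u i _ : ℚ),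
        Finset.sum_add_distrib, Finset.sum_sub_distrib, ite_mul, zero_mul, Finset.sum_ite_mem,
        Finset.univ_inter, e1, ← Finset.mul_sum, e2, one_mul, sum_ty h3 hi, sum_ty hPC hi]
      rcases ty u R i with _ | r <;> rcases ty u C i with _ | c <;> split_ifs <;> simp <;> ring
  have e1 : ∀ c ∈ C, ∀ i ∈ Nb u W {c}, ξ ⬝ᵥ hv u i = η (ty u R i) + d i - ρ c := fun c hc i hi => by
    obtain ⟨e1, e2⟩ := mem_Nb1.1 hi
    rw [e0 i e1, (ty_some hPC e1).2 ⟨hc, e2⟩, if_pos (mem_Nb.2 ⟨e1, c, hC hc, e2⟩)]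
    simp only [Option.elim_some]
    ring
  have e2 : ∀ i ∈ Nb u W (T \ C), ∀ c ∈ C, u i c = 0 := fun i hi c hc => by_contra fun h => by
    obtain ⟨e1, j, e2, e3⟩ := mem_Nb.1 hi
    exact (Finset.mem_sdiff.1 e2).2 ((h7 i e1 j (Finset.mem_sdiff.1 e2).1 c (hC hc) e3 h).1 ▸ hc)
  have e3 : ∀ i ∈ Nb u W (T \ C), ξ ⬝ᵥ hv u i = d i := fun i hi => by
    rw [e0 i (mem_Nb.1 hi).1, ty_none.2 (h4 i hi), ty_none.2 (e2 i hi),
      if_pos (Nb_mono subset_rfl Finset.sdiff_subset hi)]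
    simp
  let I := W.filter fun i => ξ ⬝ᵥ hv u i = 0
  obtain ⟨T', t1, t2⟩ := h8 I (Finset.filter_subset _ _) (fc_of_semi (ω := ω) (η := ξ) hω.neg
    (fun j => ⟨(hω.var j).1, fun h => by
      have e4 := (hω.var j).2 h
      have e5 := Finset.disjoint_right.1 h6 e4
      simpa [ξ, Finset.disjoint_right.1 h1 e4, e5, mt (@hC j) e5] using Nat.pos_of_ne_zero (g1 j)⟩)
    (fun i => ⟨(hω.mon i).1, fun h => by
      have e4 := (hω.mon i).2.2 h
      by_cases e5 : i ∈ Nb u W T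
      · obtain ⟨-, j, e6, e7⟩ := mem_Nb.1 e5
        by_cases e8 : j ∈ C
        · rw [e1 j e8 i (mem_Nb1.2 ⟨e4, e7⟩), sub_nonneg]
          exact_mod_cast p1 j e8 i (mem_Nb1.2 ⟨e4, e7⟩)
        · rw [e3 i (mem_Nb.2 ⟨e4, j, Finset.mem_sdiff.2 ⟨e6, e8⟩, e7⟩)]
          positivity
      · rw [e0 i e4, if_neg e5, ty_none.2 fun c hc => by_contra fun h =>
          e5 (mem_Nb.2 ⟨e4, c, hC hc, h⟩), Option.elim_none]
        linarith [Nat.cast_nonneg (α := ℚ) (d i), Nat.cast_nonneg (α := ℚ) (η (ty u R i))]⟩)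
    fun i => Finset.mem_filter.trans (and_congr_left' (hω.mon i).2))
  have p3 : ∀ V ⊆ C, V.Nonempty → V.card < ((Nb u I V).image (ty u R)).card := fun V e e' =>
    (p2 V e e').trans_le (Finset.card_le_card (Finset.image_subset_image fun i hi => by
      obtain ⟨c, e4, e5⟩ := Finset.mem_biUnion.1 hi
      obtain ⟨e5, e6⟩ := Finset.mem_filter.1 e5
      refine mem_Nb.2 ⟨Finset.mem_filter.2 ⟨(mem_Nb1.1 e5).1, ?_⟩, c, e4, (mem_Nb1.1 e5).2⟩
      rw [e1 c (e e4) i e5, e6]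
      simp))
  have hI : I ⊆ W := Finset.filter_subset _ _
  obtain ⟨f, f1, f2⟩ := (Finset.all_card_le_biUnion_card_iff_exists_injective
    fun c : C => Nr u I R {c.1}).1 fun s => by
      rcases s.eq_empty_or_nonempty with rfl | h
      · simp
      have := (p3 (s.map (.subtype _)) (fun x hx => by
          obtain ⟨c, _, rfl⟩ := Finset.mem_map.1 hx
          exact c.2) h.map).trans_le
        ((Finset.card_le_card (t := insert none ((s.biUnion fun c => Nr u I R {c.1}).image some))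
          fun t ht => by
            obtain ⟨i, e4, rfl⟩ := Finset.mem_image.1 ht
            obtain ⟨e4, j, e5, e6⟩ := mem_Nb.1 e4
            obtain ⟨c, e10, rfl⟩ := Finset.mem_map.1 e5
            rcases e7 : ty u R i with _ | r
            · simp
            · obtain ⟨e8, e9⟩ := (ty_some h3 (hI e4)).1 e7
              exact Finset.mem_insert_of_mem (Finset.mem_image_of_mem _ (Finset.mem_biUnion.2
                ⟨c, e10, mem_Nr.2 ⟨e8, i, e4, c, by simp, e6, e9⟩⟩))).trans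
          (Finset.card_insert_le _ _))
      have := Finset.card_image_le (s := s.biUnion fun c => Nr u I R {c.1}) (f := some)
      rw [Finset.card_map] at *
      omega
  let m : σ → σ := fun j => if h : j ∈ C then f ⟨j, h⟩ else j
  have m1 : ∀ c ∈ C, m c ∈ R ∧ ∃ i ∈ I, u i c ≠ 0 ∧ u i (m c) ≠ 0 := fun c hc => by
    simpa [m, hc, mem_Nr] using f2 ⟨c, hc⟩
  have m2 : Set.InjOn m C := fun c hc c' hc' h => by
    simpa using f1 (a₁ := ⟨c, hc⟩) (a₂ := ⟨c', hc'⟩) (by simpa [m, show c ∈ C from hc,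
      show c' ∈ C from hc'] using h)
  have v1 : T' ∩ C ⊆ C := Finset.inter_subset_right
  have v2 : (T' ∩ C).image m ⊆ R := Finset.image_subset_iff.2 fun c hc => (m1 c (v1 hc)).1
  have v3 : T' \ C ⊆ T \ C := Finset.sdiff_subset_sdiff t1 subset_rfl
  have v4 := rk_add (u := u) (J' := Nb u I₀ (T' \ C)) (J := Nb u I T') (fun i hi => by
      obtain ⟨e4, j, e5, e6⟩ := mem_Nb.1 hi
      exact mem_Nb.2 ⟨Finset.mem_filter.2 ⟨h10 e4, by
        rw [e3 i (Nb_mono h10 v3 hi), (g2 i).2.1 e4, Nat.cast_zero]⟩, j, (Finset.mem_sdiff.1 e5).1, e6⟩)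
    (T' ∩ C ∪ (T' ∩ C).image m) (fun i hi j hj => (Finset.mem_union.1 hj).elim
      (fun h => e2 i (Nb_mono h10 v3 hi) j (v1 h)) fun h => h4 i (Nb_mono h10 v3 hi) j (v2 h))
    fun ζ z1 z2 => by
      have z3 : ∀ c ∈ T' ∩ C, ∀ i ∈ I, u i c ≠ 0 → ζ c + (ty u R i).elim 0 ζ = 0 := fun c hc i hi h => by
        refine Eq.trans ?_ (z2 i (mem_Nb.2 ⟨hi, c, (Finset.mem_inter.1 hc).1, h⟩))
        rw [← Finset.sum_subset
          (Finset.subset_univ (C ∪ R)) fun j _ hj => by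
            rw [z1 j fun h => hj (Finset.union_subset_union v1 v2 h), zero_mul],
          Finset.sum_union (h2.mono_right hC).symm, sum_ty h3 (hI hi), hPC.dot (hI hi) subset_rfl
            (v1 hc) h]
      have z4 : ∀ c ∈ T' ∩ C, ζ c + ζ (m c) = 0 := fun c hc => by
        obtain ⟨e4, i, e5, e6, e7⟩ := m1 c (v1 hc)
        simpa [(ty_some h3 (hI e5)).2 ⟨e4, e7⟩] using z3 c hc i e5 e6
      have z5 : ∀ c ∈ T' ∩ C, ζ c = 0 := by
        by_contra h
        push Not at h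
        refine (p3 ((T' ∩ C).filter (ζ · ≠ 0)) ((Finset.filter_subset _ _).trans v1)
          (Finset.filter_nonempty_iff.2 h)).not_ge ((Finset.card_le_card fun t ht => ?_).trans
            (Finset.card_image_le (f := fun c => some (m c))))
        obtain ⟨i, e4, rfl⟩ := Finset.mem_image.1 ht
        obtain ⟨e4, c, e5, e6⟩ := mem_Nb.1 e4
        obtain ⟨e5, e7⟩ := Finset.mem_filter.1 e5
        have e8 := z3 c e5 i e4 e6
        rcases e9 : ty u R i with _ | r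
        · simp [e9, e7] at e8
        have e10 : ζ r ≠ 0 := fun h => by simp [e9, e7, h] at e8
        obtain ⟨c', e11, rfl⟩ := Finset.mem_image.1 ((Finset.mem_union.1 (by_contra (mt (z1 r) e10))).resolve_left
          fun h => Finset.disjoint_left.1 h2 ((ty_some h3 (hI e4)).1 e9).1 (hC (v1 h)))
        exact Finset.mem_image_of_mem _ (Finset.mem_filter.2 ⟨e11, fun h => e10 (by
          simpa [h] using z4 c' e11)⟩)
      refine funext fun j => by_cases (fun h => (Finset.mem_union.1 h).elim (z5 j) fun h => ?_) (z1 j)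
      obtain ⟨c, e4, rfl⟩ := Finset.mem_image.1 h
      simpa [z5 c e4] using z4 c e4
  rw [Finset.card_union_of_disjoint ((h2.mono v2 (v1.trans hC)).symm),
    Finset.card_image_of_injOn (m2.mono v1)] at v4
  have := h12 _ v3
  have := Finset.card_sdiff_add_card_inter T' C
  omega

theorem Nr_sub (h : PL u W R R) : (Nr u W R V).image some ⊆ (Nb u W V).image (ty u R) := by
  intro t ht
  obtain ⟨r, h1, rfl⟩ := Finset.mem_image.1 ht
  obtain ⟨h1, i, h2, j, h3, h4, h5⟩ := mem_Nr.1 h1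
  exact Finset.mem_image.2 ⟨i, mem_Nb.2 ⟨h2, j, h3, h4⟩, (ty_some h h2).2 ⟨h1, h5⟩⟩

theorem PL.ksum (h : PL u W S S) (κ : ι → ℚ) :
    ∑ j ∈ S, ∑ i ∈ W, κ i * u i j = ∑ i ∈ Nb u W S, κ i := by
  rw [Finset.sum_comm, Nb, Finset.sum_filter]
  refine Finset.sum_congr rfl fun i hi => ?_
  rw [← Finset.mul_sum, h.sum hi]
  simp [mem_Nb, hi]

theorem Mg.pl (hω : Sem u ω J W) (hS : Mg u J W S) (hT : Mg u J W T) {κ : ι → ℚ}
    (k1 : ∀ i ∈ W, 0 < κ i) (k2 : ∀ j ∈ S, ∑ i ∈ W, κ i * u i j = 1)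
    (k3 : ∀ i ∈ W, ∀ r ∈ S, ∀ j ∉ J, j ≠ r → u i r ≠ 0 → u i j ≠ 0 → 1 < ∑ i ∈ W, κ i * u i j) :
    PL u W S T := by
  classical
  have s1 := hS.1.2.1
  have t1 := hT.1.2.1
  let C := T.filter fun t => ∃ i ∈ W, ∃ r ∈ S \ T, u i r ≠ 0 ∧ u i t ≠ 0
  have hC : C ⊆ T := Finset.filter_subset _ _
  have hR : S \ T ⊆ S := Finset.sdiff_subset
  have r1 := s1.mono subset_rfl hR hR
  have c1 : ∀ t ∈ C, t ∉ S ∧ ∃ i ∈ W, ∃ r ∈ S \ T, u i r ≠ 0 ∧ u i t ≠ 0 := fun t ht => by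
    obtain ⟨h1, i, h2, r, h3, h4, h5⟩ := Finset.mem_filter.1 ht
    exact ⟨fun h => (Finset.mem_sdiff.1 h3).2 ((s1 i h2 r (hR h3) t h h4 h5).1 ▸ h1),
      i, h2, r, h3, h4, h5⟩
  intro i₀ h1 r₀ h2 t₀ h3 h4 h5
  by_contra h6
  obtain ⟨V, v1, v2, v3⟩ := hT.te hω hC ⟨t₀, Finset.mem_filter.2 ⟨h3, i₀, h1, r₀, Finset.mem_sdiff.2
    ⟨h2, fun h => h6 (t1 i₀ h1 r₀ h t₀ h3 h4 h5)⟩, h4, h5⟩⟩ (hS.1.1.mono_left hR)
    Finset.sdiff_disjoint r1 fun i hi r hr => by_contra fun h => by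
      obtain ⟨e1, j, e2, e3⟩ := mem_Nb.1 hi
      exact (Finset.mem_sdiff.1 e2).2 (Finset.mem_filter.2 ⟨(Finset.mem_sdiff.1 e2).1, i, e1, r, hr,
        h, e3⟩)
  have v4 : (Nr u W (S \ T) V).card < V.card := by
    by_cases h : ∀ i ∈ Nb u W V, i ∈ Nb u W (Nr u W (S \ T) V)
    · have e1 : Nr u W (S \ T) V ⊆ S := (Finset.filter_subset _ _).trans hR
      have e2 := Finset.sum_le_sum_of_subset_of_nonneg (f := κ) h fun i hi _ =>
        (k1 i (mem_Nb.1 hi).1).le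
      rw [← PL.ksum (s1.mono subset_rfl e1 e1), ← PL.ksum (t1.mono subset_rfl (v1.trans hC)
        (v1.trans hC)), Finset.sum_congr rfl fun j hj => k2 j (e1 hj)] at e2
      have e3 := (Finset.sum_lt_sum_of_nonempty v2 (f := fun _ => (1 : ℚ)) fun t ht => by
        obtain ⟨e3, i, e4, r, e5, e6, e7⟩ := c1 t (v1 ht)
        exact k3 i e4 r (hR e5) t (Finset.disjoint_left.1 hT.1.1 (hC (v1 ht)))
          (fun h => e3 (h ▸ hR e5)) e6 e7).trans_le e2
      have e4 := (Finset.card_le_card (Nr_sub (V := V) r1)).trans v3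
      rw [Finset.card_image_of_injective _ (Option.some_injective _)] at e4
      simp only [Finset.sum_const, nsmul_eq_mul, mul_one, Nat.cast_lt] at e3
      omega
    · push Not at h
      obtain ⟨i, e1, e2⟩ := h
      have e3 := (Finset.card_le_card (Finset.insert_subset (a := none) (Finset.mem_image.2
        ⟨i, e1, ty_none.2 fun r hr => by_contra fun h => by
          obtain ⟨e3, j, e4, e5⟩ := mem_Nb.1 e1
          exact e2 (mem_Nb.2 ⟨e3, r, mem_Nr.2 ⟨hr, i, e3, j, e4, e5, h⟩, h⟩)⟩)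
        (Nr_sub (V := V) r1))).trans v3
      rwa [Finset.card_insert_of_notMem (by simp),
        Finset.card_image_of_injective _ (Option.some_injective _)] at e3
  obtain ⟨V₀, w1, w2⟩ := Finset.exists_min_image (C.powerset.filter fun V =>
    (Nr u W (S \ T) V).card < V.card) Finset.card ⟨V, by simpa using ⟨v1, v4⟩⟩
  simp only [Finset.mem_filter, Finset.mem_powerset] at w1 w2
  have w3 := t1.mono subset_rfl (w1.1.trans hC) (w1.1.trans hC)
  have w4 : Nr u W (S \ T) V₀ ⊆ S := (Finset.filter_subset _ _).trans hR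
  obtain ⟨R', x1, ⟨r, x2⟩, x3⟩ := hS.te hω w4 (by
      obtain ⟨t, ht⟩ := Finset.card_pos.1 ((Nat.zero_le _).trans_lt w1.2)
      obtain ⟨-, i, e1, r, e2, e3, e4⟩ := c1 t (w1.1 ht)
      exact ⟨r, mem_Nr.2 ⟨e2, i, e1, t, ht, e4, e3⟩⟩) (hT.1.1.mono_left (w1.1.trans hC))
    (Finset.disjoint_left.2 fun t ht => (c1 t (w1.1 ht)).1) w3 fun i hi t ht => by_contra fun h => by
      obtain ⟨e1, j, e2, e3⟩ := mem_Nb.1 hi
      obtain ⟨e2, e4⟩ := Finset.mem_sdiff.1 e2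
      exact e4 (mem_Nr.2 ⟨Finset.mem_sdiff.2 ⟨e2, fun h' => (c1 t (w1.1 ht)).1
        ((t1 i e1 j h' t (hC (w1.1 ht)) e3 h).1 ▸ e2)⟩, i, e1, t, ht, h, e3⟩)
  have x4 := (Finset.card_le_card (Nr_sub (V := R') w3)).trans x3
  rw [Finset.card_image_of_injective _ (Option.some_injective _)] at x4
  have x5 : (Nr u W V₀ R').Nonempty := by
    obtain ⟨-, i, e1, t, e2, e3, e4⟩ := mem_Nr.1 (x1 x2)
    exact ⟨t, mem_Nr.2 ⟨e2, i, e1, r, x2, e4, e3⟩⟩
  have x6 := Finset.card_sdiff_add_card_eq_card (show Nr u W V₀ R' ⊆ V₀ from Finset.filter_subset _ _)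
  have x7 := Finset.card_sdiff_add_card_eq_card x1
  have x8 := Finset.card_le_card (show Nr u W (S \ T) (V₀ \ Nr u W V₀ R') ⊆ Nr u W (S \ T) V₀ \ R' from
    fun r hr => by
      obtain ⟨e1, i, e2, t, e3, e4, e5⟩ := mem_Nr.1 hr
      obtain ⟨e3, e6⟩ := Finset.mem_sdiff.1 e3
      exact Finset.mem_sdiff.2 ⟨mem_Nr.2 ⟨e1, i, e2, t, e3, e4, e5⟩, fun h =>
        e6 (mem_Nr.2 ⟨e3, i, e2, r, h, e5, e4⟩)⟩)
  have := w2 (V₀ \ Nr u W V₀ R') ⟨Finset.sdiff_subset.trans w1.1, by omega⟩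
  have := x5.card_pos
  omega

theorem Dg.exists_mg (h : Dg u J W S) : ∃ T ⊆ S, Mg u J W T := by
  classical
  obtain ⟨T, h1, h2⟩ := Finset.exists_min_image (S.powerset.filter (Dg u J W)) Finset.card
    ⟨S, by simpa using h⟩
  simp only [Finset.mem_filter, Finset.mem_powerset] at h1 h2
  exact ⟨T, h1.1, h1.2, fun T' h3 h4 => (h2 T' ⟨h3.1.trans h1.1, h4⟩).not_gt (Finset.card_lt_card h3)⟩

theorem Dg.anti {J' : Finset σ} (h : Dg u J W S) (h1 : J' ⊆ J) (h2 : I ⊆ W) : Dg u J' I S :=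
  ⟨h.1.mono_right h1, h.2.1.mono h2 subset_rfl subset_rfl, fun _ h3 => h.2.2 _ (h3.trans h2)⟩

end RB

end

end Pool.Agent.P.MP_b91a16_ag
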