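import Pool.Agent.P.MP_b91a16_ag.GOps

/-! A root of every local Bernstein-Sato polynomial from a nonvanishing class, with parameters. -/

set_option linter.unusedSectionVars false

open MvPolynomial

namespace Pool.Agent.P.MP_b91a16_ag

noncomputable section

namespace RB

open RA Cv

variable {k R σ ϑ τ ι : Type} [Field k] [CharZero k] [CommRing R] [Algebra k R] [Fintype σ]
  [DecidableEq σ] [Fintype ϑ] [DecidableEq ϑ] [Fintype τ] [DecidableEq τ] [Fintype ι] [DecidableEq ι]

section

variable (u : ι → σ → ℕ) (a : ι → R) (δ : Derivation k R R)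

def dt : LR R σ →+ LR R σ :=
  AddMonoidHom.mk' (AddMonoidAlgebra.map δ.toLinearMap.toAddMonoidHom) (AddMonoidAlgebra.map_add _) +
    AddMonoidHom.mulLeft (∑ i, δ (a i) • ee (sh u (.inr i)))

theorem dt_smul (r : R) (x : LR R σ) : dt u a δ (r • x) = δ r • x + r • dt u a δ x := by
  have : AddMonoidAlgebra.map δ.toLinearMap.toAddMonoidHom (r • x) =
      δ r • x + r • AddMonoidAlgebra.map δ.toLinearMap.toAddMonoidHom x := by
    ext p
    simp [add_comm, mul_comm]
  simp only [dt, AddMonoidHom.add_apply, AddMonoidHom.mk'_apply, this, AddMonoidHom.coe_mulLeft,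
    mul_smul_comm, smul_add, add_assoc]

theorem dt_smul' (c : k) (x : LR R σ) : dt u a δ (c • x) = c • dt u a δ x := by
  rw [← algebraMap_smul R c x, dt_smul, δ.map_algebraMap, zero_smul, zero_add, algebraMap_smul]

theorem dt_ee (p : Pt σ) : dt u a δ (ee p) = ∑ i, δ (a i) • ee (p + sh u (.inr i)) := by
  have : AddMonoidAlgebra.map δ.toLinearMap.toAddMonoidHom (ee p : LR R σ) = 0 := by
    simp [ee, AddMonoidAlgebra.map_single]
  simp only [dt, AddMonoidHom.add_apply, AddMonoidHom.mk'_apply, this, AddMonoidHom.coe_mulLeft,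
    zero_add, Finset.sum_mul, smul_mul_assoc, ee_mul, add_comm p]

theorem dt_comm (v : Module.End R (LR R σ)) (h : ∀ p, dt u a δ (v (ee p)) = v (dt u a δ (ee p)))
    (x : LR R σ) : dt u a δ (v x) = v (dt u a δ x) := by
  let N : Submodule R (LR R σ) :=
    { carrier := {x | dt u a δ (v x) = v (dt u a δ x)}
      zero_mem' := by simp
      add_mem' := fun h h' => by simp only [Set.mem_ofPred_eq, map_add] at h h' ⊢; rw [h, h']
      smul_mem' := fun r x h => by
        simp only [Set.mem_ofPred_eq, map_add, map_smul, dt_smul] at h ⊢; rw [h] }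
  exact sp_le (N := N) (fun p _ => h p) (mem_sp_univ x)

def dN (N : Submodule R (LR R σ)) : Submodule R (LR R σ) where
  carrier := {x | x ∈ N ∧ dt u a δ x ∈ N}
  zero_mem' := by simp
  add_mem' := fun h h' => ⟨add_mem h.1 h'.1, map_add (dt u a δ) _ _ ▸ add_mem h.2 h'.2⟩
  smul_mem' := fun r x h => ⟨N.smul_mem r h.1, dt_smul u a δ r x ▸
    add_mem (N.smul_mem _ h.1) (N.smul_mem r h.2)⟩

theorem dt_mul (p : Pt σ) (x : LR R σ) : dt u a δ (ee p * x) = ee p * dt u a δ x :=
  dt_comm u a δ (LinearMap.mulLeft R (ee p)) (fun q => by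
    simp only [LinearMap.mulLeft_apply, ee_mul, dt_ee, Finset.mul_sum, mul_smul_comm, add_assoc]) x

variable {u a} {β : Option σ → ℚ} {A B : Set (Pt σ)}

theorem dt_PP {v : Module.End R (LR R σ)} (hv : v ∈ PP k u a β) (x : LR R σ) :
    dt u a δ (v x) = v (dt u a δ x) := by
  induction hv using Algebra.adjoin_induction generalizing x with
  | mem v hv =>
    obtain ⟨⟨ξ, η⟩, rfl⟩ := hv
    refine dt_comm u a δ _ (fun p => ?_) x
    simp only [Op_ee, map_add, map_sum, dt_smul', dt_smul, dt_ee, map_smul, qv_sh, dotProduct_add,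
      Rat.cast_add, add_smul, smul_add, Finset.sum_add_distrib, Finset.smul_sum, add_assoc]
    congr 1
    · exact Finset.sum_congr rfl fun i _ => smul_comm _ _ _
    congr 1
    · simp [cb, cq, smul_comm (δ _)]
    · rw [Finset.sum_comm]
      refine Finset.sum_congr rfl fun i _ => Finset.sum_congr rfl fun g _ => ?_
      rw [smul_comm (δ _), smul_comm (δ _), add_comm (sh u g)]
  | algebraMap c => exact dt_smul' u a δ c x
  | add v w _ _ hv hw => simp only [LinearMap.add_apply, map_add, hv, hw]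
  | mul v w _ _ hv hw => simp only [Module.End.mul_apply, hv, hw]

theorem Cd.dt (h : Cd (sh u) A) : ∀ x ∈ sp R A, dt u a δ x ∈ sp R A := fun _ hx =>
  (sp_le (N := dN u a δ (sp R A)) (fun p hp => ⟨ee_mem hp, by
    rw [dt_ee]
    exact sum_mem fun i _ => Submodule.smul_mem _ _ (ee_mem (h p hp _))⟩) hx).2

theorem Setup.dt (h : Setup k u a β A B) {x : LR R σ} (hx : x ∈ h.NN) : dt u a δ x ∈ h.NN := by
  obtain ⟨v, h1, h2⟩ := hx
  refine ⟨v, h1, dt_PP δ h1.1 x ▸ (sup_le (c := dN u a δ (JJ' k u a β A B))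
    (Im_le.2 fun l hl x hx => ⟨Submodule.mem_sup_left (mem_Im hl hx), ?_⟩)
    (fun x hx => ⟨Submodule.mem_sup_right hx, Submodule.mem_sup_right (h.cB.dt δ x hx)⟩) h2).2⟩
  rw [dt_PP δ (v := Dl k u a β l) (Op_mem k u a β _ _)]
  exact Submodule.mem_sup_left (mem_Im hl (h.cA.dt δ x hx))

end

variable (e : σ ⊕ ϑ ≃ τ) (Y : ϑ → R) (u : ι → σ → ℕ) (a : ι → R) (β : Option σ → ℚ)
  (δ : ϑ → Derivation k R R)

def xv (j : τ) : LR R σ :=
  Sum.elim (fun j => ee (xm (Pi.single j 1) 0)) (fun t => algebraMap R _ (Y t)) (e.symm j)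

theorem xv_inl (j : σ) : xv e Y (e (.inl j)) = ee (xm (Pi.single j 1) 0) := by simp [xv]

theorem xv_inr (t : ϑ) (x : LR R σ) : xv e Y (e (.inr t)) * x = Y t • x := by
  simp [xv, Algebra.smul_def]

theorem xv_mem (g : MvPolynomial τ k) : aeval (xv e Y) g ∈ sp R {p : Pt σ | p.1 none = 0} := by
  induction g using MvPolynomial.induction_on with
  | C c =>
    rw [aeval_C, Algebra.algebraMap_eq_smul_one]
    exact Submodule.smul_of_tower_mem _ _ (ee_mem (p := 0) rfl)
  | add p q hp hq => exact map_add (aeval (xv e Y)) p q ▸ add_mem hp hq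
  | mul_X p j hp =>
    rw [map_mul, aeval_X, mul_comm]
    obtain ⟨j | t, rfl⟩ := e.surjective j
    · exact xv_inl e Y j ▸ ee_mul_mem (fun p hp => by simpa [xm] using hp) _ hp
    · exact xv_inr e Y t _ ▸ Submodule.smul_mem _ _ hp

variable (k) in
def act' : MvPolynomial τ (Polynomial k) →+* Module.End R (LR R σ) :=
  AddMonoidAlgebra.liftNCRingHom (Polynomial.aeval (sop k u a β)).toRingHom
    (((Algebra.lmul R (LR R σ)).toRingHom.toMonoidHom.comp
      (aeval (R := k) (xv e Y)).toRingHom.toMonoidHom).comp (AddMonoidAlgebra.of k (τ →₀ ℕ)))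
    fun p _ => (comm_aeval (comm_sop (xv_mem e Y _)) p).symm

theorem act'_monomial (m : τ →₀ ℕ) (p : Polynomial k) (x : LR R σ) :
    act' k e Y u a β (monomial m p) x =
      Polynomial.aeval (sop k u a β) p (aeval (xv e Y) (monomial m (1 : k)) * x) :=
  LinearMap.congr_fun (AddMonoidAlgebra.liftNCRingHom_single _ _ _ m p) x

theorem act'_C (p : Polynomial k) : act' k e Y u a β (C p) = Polynomial.aeval (sop k u a β) p :=
  LinearMap.ext fun x => by rw [C_apply, act'_monomial, ← C_apply, C_1, map_one, one_mul]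

theorem act'_lift (g : MvPolynomial τ k) (x : LR R σ) :
    act' k e Y u a β (map Polynomial.C g) x = aeval (xv e Y) g * x := by
  induction g using MvPolynomial.induction_on' with
  | monomial m c =>
    rw [map_monomial, act'_monomial, Polynomial.aeval_C, Module.algebraMap_end_apply,
      ← smul_mul_assoc, ← map_smul, smul_monomial, smul_eq_mul, mul_one]
  | add p q hp hq => simp only [map_add, LinearMap.add_apply, hp, hq, add_mul]

theorem act'_X (j : τ) (x : LR R σ) : act' k e Y u a β (X j) x = xv e Y j * x := by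
  simpa using act'_lift (k := k) e Y u a β (X j) x

variable (k) in
def der' (j : σ) : Module.End R (LR R σ) := LinearMap.mulLeft R (ee (xm (-Pi.single j 1) 0)) *
  (Op k u a β (Pi.single (some j) 1) 0 - algebraMap k _ (β (some j) : k))

theorem der'_apply (j : σ) (x : LR R σ) : der' k u a β j x = ee (xm (-Pi.single j 1) 0) *
    (Op k u a β (Pi.single (some j) 1) 0 x - (β (some j) : k) • x) := rfl

def der (j : τ) : LR R σ →+ LR R σ :=
  Sum.elim (fun j => (der' k u a β j).toAddMonoidHom) (fun t => dt u a (δ t)) (e.symm j)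

theorem der_inl (j : σ) (x : LR R σ) : der e u a β δ (e (.inl j)) x = der' k u a β j x := by
  simp [der]

theorem der_inr (t : ϑ) : der e u a β δ (e (.inr t)) = dt u a (δ t) := by simp [der]

variable {Y δ}

theorem der_act (hδ : ∀ t t', δ t (Y t') = if t' = t then 1 else 0) (j : τ)
    (g : MvPolynomial τ (Polynomial k)) (x : LR R σ) : der e u a β δ j (act' k e Y u a β g x) =
      act' k e Y u a β (pderiv j g) x + act' k e Y u a β g (der e u a β δ j x) := by
  induction g using MvPolynomial.induction_on generalizing x with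
  | C p =>
    rw [act'_C, pderiv_C, map_zero, LinearMap.zero_apply, zero_add]
    obtain ⟨j | t, rfl⟩ := e.surjective j
    · have : Commute (der' k u a β j) (sop k u a β) := (comm_sop (ee_mem rfl)).mul_left
        (PP_comm (sub_mem (Op_mem k u a β _ _) ((PP k u a β).algebraMap_mem _)) sop_mem)
      simpa only [der_inl, Module.End.mul_apply] using LinearMap.congr_fun (comm_aeval this p).eq x
    · exact der_inr e u a β δ t ▸ dt_PP _ (aeval_sop_mem p) x
  | add p q hp hq => simp only [map_add, LinearMap.add_apply, hp, hq]; abel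
  | mul_X p j' hp =>
    have h1 : der e u a β δ j (act' k e Y u a β (X j') x) =
        act' k e Y u a β (pderiv j (X j')) x + act' k e Y u a β (X j') (der e u a β δ j x) := by
      rw [act'_X, act'_X, pderiv_X, Pi.single_apply]
      obtain ⟨j | t, rfl⟩ := e.surjective j <;> obtain ⟨j' | t', rfl⟩ := e.surjective j'
      · simp only [der_inl, der'_apply, xv_inl, Op_mul, mul_sub, mul_add, mul_smul_comm,
          mul_left_comm (ee (xm (-Pi.single j 1) 0)), single_one_dotProduct]
        by_cases h : j' = j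
        · subst h
          rw [← mul_assoc _ _ x, ee_mul, xm_add, add_neg_cancel, add_zero, xm_zero]
          simp [xm, ee_zero]
          abel
        · simp [xm, h, Ne.symm h]
      · simp [der_inl, xv_inr]
      · simp [der_inr, xv_inl, dt_mul]
      · by_cases h : t' = t <;> simp [der_inr, xv_inr, dt_smul, hδ, h]
    rw [map_mul, Module.End.mul_apply, hp, h1, Derivation.leibniz]
    rw [smul_eq_mul, smul_eq_mul, mul_comm (X j')]
    simp only [map_add, map_mul, LinearMap.add_apply, Module.End.mul_apply]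
    abel

variable {u a} {U : ι → τ → ℕ} {a₀ : ι → k}

theorem xv_f (Y : ϑ → R) (K : ℤ) : aeval (xv e Y) (fpoly U a₀) * ee (xm 0 K) =
    ∑ i, (a₀ i • ∏ t, Y t ^ U i (e (.inr t))) • ee (xm (fun j => uS e U i j) K) := by
  simp only [fpoly, map_sum, Finset.sum_mul, map_mul, aeval_C, map_prod, map_pow, aeval_X,
    ← e.prod_comp, Fintype.prod_sum_type, xv_inl, ee_pow]
  refine Finset.sum_congr rfl fun i _ => ?_
  have h1 : ∀ s : Finset σ, ∏ j ∈ s, (ee (U i (e (.inl j)) • xm (Pi.single j 1) 0) : LR R σ) =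
      ee (xm (∑ j ∈ s, Pi.single j (U i (e (.inl j)) : ℤ)) 0) := fun s => by
    induction s using Finset.induction_on with
    | empty => simp [xm_zero, ee_zero]
    | insert j s hj ih =>
      rw [Finset.prod_insert hj, Finset.sum_insert hj, ih, ee_mul]
      congr 1
      refine Prod.ext (funext fun o => ?_) (by simp [xm])
      rcases o with _ | j' <;> simp [xm, Pi.single_apply]
  rw [h1, Finset.univ_sum_single, ← Algebra.smul_def, smul_mul_assoc, smul_assoc, mul_right_comm,
    ee_mul, xm_add, add_zero, zero_add, mul_comm]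
  simp [xv, Algebra.smul_def, uS]

theorem f_eps (ha : ∀ i, a i = a₀ i • ∏ t, Y t ^ U i (e (.inr t))) (K : ℤ) :
    act' k e Y (uS e U) a β (map Polynomial.C (fpoly U a₀)) (ee (xm 0 (K + 1))) =
      Polynomial.aeval (sop k (uS e U) a β) (Polynomial.X - (K : Polynomial k)) (ee (xm 0 K)) := by
  simp only [act'_lift, xv_f, ← ha, map_sub, Polynomial.aeval_X, map_intCast, sop, LinearMap.sub_apply,
    Op_ee, Fintype.sum_sum_type, cq, cb, sh_inr, xm_add, Module.algebraMap_end_apply,
    Module.End.intCast_apply]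
  simp [qv, xm, add_smul, Int.cast_smul_eq_zsmul]
  abel

theorem der_eps (hδ : ∀ t t', δ t (Y t') = if t' = t then 1 else 0)
    (ha : ∀ i, a i = a₀ i • ∏ t, Y t ^ U i (e (.inr t))) (j : τ) (K : ℤ) :
    der e (uS e U) a β δ j (ee (xm 0 K)) = act' k e Y (uS e U) a β
      (pderiv j (map Polynomial.C (fpoly U a₀))) (ee (xm 0 (K + 1))) := by
  have := der_act e (uS e U) 0 β hδ j (map Polynomial.C (fpoly U a₀)) (ee (xm 0 (K + 1)))
  rw [pderiv_map, act'_lift, act'_lift, act'_lift, xv_f] at this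
  rw [pderiv_map, act'_lift, ← sub_eq_iff_eq_add.2 this]
  obtain ⟨j | t, rfl⟩ := e.surjective j
  · simp only [der_inl, map_sum, map_smul, der'_apply, Op_ee, ← ha, Fintype.sum_sum_type, cq, cb,
      sh_inr, xm_add]
    simp [qv, xm, add_smul, Finset.mul_sum, smul_comm (a _)]
  · simp [der_inr, dt_smul, dt_ee, ← ha, sh_inr, xm_add]

theorem Setup.root {n : ℕ} (e : σ ⊕ ϑ ≃ Fin n) {U : ι → Fin n → ℕ} {β : Option σ → ℚ}
    {A B : Set (Pt σ)} (h : Setup k (uS e U) a β A B)
    (hδ : ∀ t t', δ t (Y t') = if t' = t then 1 else 0)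
    (ha : ∀ i, a i = a₀ i • ∏ t, Y t ^ U i (e (.inr t)))
    (hY : ∀ q : MvPolynomial ϑ k, constantCoeff q ≠ 0 → IsUnit (aeval Y q))
    (hf : fpoly U a₀ ≠ 0) {b : Polynomial k} (hb : LocalBernsteinEq (fpoly U a₀) b) :
    b.eval (-(β none : k)) = 0 := by
  set u := uS e U
  let P : LR R σ → Prop := fun z =>
    z ∈ sp R {p : Pt σ | 0 ≤ p.2} ∧ ∀ m, ee (pt ∅ m) * z ∈ h.NN
  have hpos := fun (v : Module.End R (LR R σ)) (hv : v ∈ PP k u a β) => PP_stab cd_pos.op hv
  have hxm : ∀ (p : Pt σ) (z : LR R σ), 0 ≤ p.2 → z ∈ sp R {p : Pt σ | 0 ≤ p.2} →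
      ee p * z ∈ sp R {p : Pt σ | 0 ≤ p.2} := fun p z hp =>
    ee_mul_mem (fun a ha => show (0 : σ → ℤ) ≤ p.2 + a.2 from add_nonneg hp ha) z
  have hpt : ∀ m : σ → ℤ, 0 ≤ (pt ∅ m).2 := fun m j => by
    simp only [pt]
    split_ifs <;> simp
  have PC : ∀ (q : Polynomial k) z, P z → P (Polynomial.aeval (sop k u a β) q z) :=
    fun q z hz => ⟨hpos _ (aeval_sop_mem q) z hz.1, fun m => by
      have := LinearMap.congr_fun (comm_aeval (comm_sop (k := k) (u := u) (a := a) (β := β)
        (ee_mem (p := pt ∅ m) rfl)) q).eq z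
      simp only [Module.End.mul_apply, LinearMap.mulLeft_apply] at this
      exact this ▸ h.NN_stab (aeval_sop_mem q) (hz.2 m)⟩
  have PX : ∀ j z, P z → P (xv e Y j * z) := fun j z hz => by
    obtain ⟨j | t, rfl⟩ := e.surjective j
    swap
    · rw [xv_inr]
      exact ⟨Submodule.smul_mem _ _ hz.1, fun m => by
        rw [mul_smul_comm]; exact Submodule.smul_mem _ _ (hz.2 m)⟩
    rw [xv_inl]
    refine ⟨hxm _ _ le_rfl hz.1, fun m => ?_⟩
    rw [← mul_assoc, ee_mul]
    by_cases h1 : m j = -1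
    · have : pt ∅ m + xm (Pi.single j 1) 0 = sh u (Sum.inl j) + pt ∅ (m + Pi.single j 1) := by
        refine Prod.ext (funext fun o => ?_) (funext fun j' => ?_)
        · rcases o with _ | j <;> simp [pt, xm, sh]
        · by_cases e : j' = j <;> simp [pt, xm, sh, e, h1]
      rw [this, ← ee_mul, mul_assoc, ← Op_y k u a β]
      exact h.NN_stab (Op_mem k u a β _ _) (hz.2 _)
    · have : pt ∅ m + xm (Pi.single j 1) 0 = pt ∅ (m + Pi.single j 1) := by
        refine Prod.ext (funext fun o => ?_) (funext fun j' => ?_)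
        · rcases o with _ | j <;> simp [pt, xm]
        · by_cases e : j' = j
          · simp [pt, xm, e, show m j + 1 < 0 ↔ m j < 0 by omega]
          · simp [pt, xm, e]
      rw [this]
      exact hz.2 _
  have PD : ∀ j z, P z → P (der e u a β δ j z) := fun j z hz => by
    obtain ⟨j | t, rfl⟩ := e.surjective j
    swap
    · rw [der_inr]
      exact ⟨cd_pos.dt _ z hz.1, fun m => dt_mul u a (δ t) _ z ▸ h.dt _ (hz.2 m)⟩
    rw [der_inl]
    have hv := sub_mem (Op_mem k u a β (Pi.single (some j) 1) 0)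
      ((PP k u a β).algebraMap_mem (β (some j) : k))
    refine ⟨hxm _ _ le_rfl (hpos _ hv z hz.1), fun m => ?_⟩
    have e1 := Op_mul k u a β (Pi.single (some j) 1) 0 (pt ∅ m + xm (-Pi.single j 1) 0) z
    rw [der'_apply, ← mul_assoc, ee_mul, mul_sub, ← sub_eq_iff_eq_add.2 e1, mul_smul_comm]
    by_cases h1 : m j = 0
    · have e2 : pt ∅ (m - Pi.single j 1) =
          sh u (Sum.inl j) + (pt ∅ m + xm (-Pi.single j 1) 0) := by
        refine Prod.ext (funext fun o => ?_) (funext fun j' => ?_)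
        · rcases o with _ | j <;> simp [pt, xm, sh, sub_eq_add_neg]
        · by_cases e : j' = j <;> simp [pt, xm, sh, e, h1]
      have e3 := hz.2 (m - Pi.single j 1)
      rw [e2, ← ee_mul, mul_assoc, ← Op_y k u a β] at e3
      have e4 := h.dl_mem j (hxm (pt ∅ m + xm (-Pi.single j 1) 0) z (by simpa [xm] using hpt m) hz.1)
      have e5 := Op_add k u a β (Pi.single (some j) 1) 0 0 (Pi.single j 1)
      rw [add_zero, zero_add] at e5
      rw [Dl, e5] at e4
      convert sub_mem e4 e3 using 1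
      simp [pt, xm, h1, h.one j]
    · have e2 : pt ∅ m + xm (-Pi.single j 1) 0 = pt ∅ (m - Pi.single j 1) := by
        refine Prod.ext (funext fun o => ?_) (funext fun j' => ?_)
        · rcases o with _ | j <;> simp [pt, xm, sub_eq_add_neg]
        · by_cases e : j' = j
          · simp [pt, xm, e, show m j < 1 ↔ m j < 0 by omega]
          · simp [pt, xm, e]
      rw [e2]
      exact sub_mem (sub_mem (h.NN_stab (Op_mem k u a β _ _) (hz.2 _))
        (Submodule.smul_of_tower_mem _ _ (hz.2 _))) (Submodule.smul_of_tower_mem _ _ (hz.2 _))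
  have hcomm : ∀ (g g' : MvPolynomial (Fin n) (Polynomial k)) x, act' k e Y u a β (g * g') x =
      act' k e Y u a β g' (act' k e Y u a β g x) := fun g g' x => by
    rw [mul_comm, map_mul, Module.End.mul_apply]
  have hf1 : ∀ (K : ℕ) g, act' k e Y u a β (lift (fpoly U a₀) * g) (ee (xm 0 (K + 1 : ℕ))) =
      Polynomial.aeval (sop k u a β) (Polynomial.X - (K : Polynomial k))
        (act' k e Y u a β g (ee (xm 0 K))) := fun K g => by
    rw [hcomm, Nat.cast_succ, lift, f_eps e β ha, ← act'_C e Y, ← act'_C e Y, ← hcomm, ← hcomm,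
      mul_comm, Int.cast_natCast]
  obtain ⟨K, g, hg, -, H⟩ := bern_closure_loc hf hb (fun K g => P (act' k e Y u a β g (ee (xm 0 K))))
    (by
      have := f_eps e β ha (-1)
      rw [neg_add_cancel] at this
      rw [Nat.cast_zero, lift, this]
      refine PC _ _ ⟨ee_mem (show (0 : σ → ℤ) ≤ 0 from le_rfl), fun m => ?_⟩
      obtain ⟨C, h1, h2, h3, h4⟩ := h.base
      rw [ee_mul]
      exact h.mov h1 h2 h.NN (fun v hv x => h.NN_cancel hv)
        (fun p hp hp' => h.le_NN (Submodule.mem_sup_right (ee_mem (h3 p hp hp')))) _ (h4 m))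
    (fun K g g' h1 h2 => by
      rw [map_add, LinearMap.add_apply]
      exact ⟨add_mem h1.1 h2.1, fun m => by rw [mul_add]; exact add_mem (h1.2 m) (h2.2 m)⟩)
    (fun K p g h1 => by rw [map_mul, Module.End.mul_apply, act'_C]; exact PC _ _ h1)
    (fun K j g h1 => by rw [map_mul, Module.End.mul_apply, act'_X]; exact PX _ _ h1)
    (fun K g h1 => by rw [hf1]; exact PC _ _ h1)
    (fun K j g h1 => by
      have := PC (Polynomial.X - (K : Polynomial k)) _ (PD j _ h1)
      rwa [der_act e u a β hδ, der_eps e β hδ ha, map_add, ← hf1, ← act'_C e Y, ← Nat.cast_succ,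
        ← Module.End.mul_apply, ← Module.End.mul_apply, ← map_mul, ← map_mul, ← LinearMap.add_apply,
        ← map_add] at this)
  by_contra hb0
  have h1 : ∀ (K : ℕ) g, act' k e Y u a β (g * lift (fpoly U a₀) ^ K) (ee (xm 0 K)) ∈ h.NN →
      act' k e Y u a β g (ee (xm 0 0)) ∈ h.NN := by
    intro K
    induction K with
    | zero => simp
    | succ K ih =>
      intro g hg
      rw [pow_succ, ← mul_assoc, mul_comm, hf1] at hg
      refine ih g (h.NN_cancel (h.unit' ?_) hg)
      have : (-β none - K : ℚ) ≠ 0 := by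
        have := h.pos
        have : (0 : ℚ) ≤ K := Nat.cast_nonneg K
        linarith
      simpa using (Rat.cast_ne_zero (α := k)).2 this
  have h2 := H 0
  rw [show pt ∅ (0 : σ → ℤ) = 0 by simp [pt, ← xm_zero, xm]; rfl, ee_zero, one_mul] at h2
  have h3 := h1 _ _ h2
  rw [map_mul, Module.End.mul_apply, act'_C, xm_zero] at h3
  have h4 := h.NN_cancel (h.unit' hb0) h3
  rw [lift, act'_lift] at h4
  let x0 : Fin n → MvPolynomial ϑ k := fun j => Sum.elim 0 X (e.symm j)
  have h5 : aeval (xv e Y) g * ee 0 - aeval Y (aeval x0 g) • ee 0 ∈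
      sp R {p | ∃ m, 0 ≤ m ∧ m ≠ 0 ∧ p = xm m 0} := by
    clear hg H h2 h3 h4
    induction g using MvPolynomial.induction_on with
    | C c => simp [Algebra.smul_def]
    | add p q hp hq =>
      convert add_mem hp hq using 1
      simp only [map_add, add_mul, add_smul]
      abel
    | mul_X p j hp =>
      rw [map_mul, map_mul, map_mul, aeval_X, aeval_X, mul_comm _ (xv e Y j), mul_assoc]
      obtain ⟨j | t, rfl⟩ := e.surjective j
      · have e1 : (0 : σ → ℤ) ≤ Pi.single j 1 := Pi.single_nonneg.2 zero_le_one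
        have := add_mem (ee_mul_mem (t := xm (Pi.single j 1) 0)
          (B := {p | ∃ m, 0 ≤ m ∧ m ≠ 0 ∧ p = xm m 0}) (by
          rintro _ ⟨m, e2, e3, rfl⟩
          exact ⟨_, add_nonneg e1 e2, fun h => e3 ((add_eq_zero_iff_of_nonneg e1 e2).1 h).2,
            xm_add _ _ 0 0⟩) _ hp) (Submodule.smul_mem _ (aeval Y (aeval x0 p))
          (ee_mem ⟨_, e1, by simp, rfl⟩))
        simpa [xv_inl, x0, mul_sub, ee_zero] using this
      · simpa [xv_inr, x0, smul_sub, smul_smul, mul_comm] using Submodule.smul_mem _ (Y t) hp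
  obtain ⟨v, hv⟩ := hY (aeval x0 g) (ne_of_eq_of_ne (RingHom.congr_fun (ringHom_ext (by simp) fun j => by
    obtain ⟨j | j, rfl⟩ := e.surjective j <;> simp [x0] : constantCoeff.comp
      (aeval x0 : MvPolynomial (Fin n) k →ₐ[k] _).toRingHom = constantCoeff) g) hg)
  have h6 := Submodule.smul_mem _ v⁻¹.1 (sub_mem h4 (h.le_NN (Submodule.mem_sup_right
    (sp_mono (by rintro _ ⟨m, e1, e2, rfl⟩; exact h.loc m e1 e2) h5))))
  rw [sub_sub_cancel, smul_smul, ← hv, Units.inv_mul, one_smul] at h6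
  obtain ⟨v, hv, h7⟩ := h6
  exact h.nz (hv.2.2 _ (ee_mem h.zero) h7)

theorem exists_der (M : Submonoid (MvPolynomial ϑ k)) [Algebra (MvPolynomial ϑ k) R]
    [IsScalarTower k (MvPolynomial ϑ k) R] [IsLocalization M R] (t : ϑ) : ∃ δ : Derivation k R R,
    ∀ t', δ (algebraMap (MvPolynomial ϑ k) R (X t')) = if t' = t then 1 else 0 := by
  let φ : MvPolynomial ϑ k →ₐ[k] TrivSqZeroExt R R := aeval fun t' => TrivSqZeroExt.inl
    (algebraMap (MvPolynomial ϑ k) R (X t')) + TrivSqZeroExt.inr (if t' = t then (1 : R) else 0)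
  have h1 : ∀ q, (φ q).fst = algebraMap _ _ q := fun q => DFunLike.congr_fun (algHom_ext fun t' => by
    simp [φ, apply_ite] : (TrivSqZeroExt.fstHom k _ _).comp φ = IsScalarTower.toAlgHom k _ R) q
  let ψ : R →ₐ[k] TrivSqZeroExt R R := IsLocalization.liftAlgHom (M := M) (f := φ) fun q =>
    TrivSqZeroExt.isUnit_iff_isUnit_fst.2 (h1 q ▸ IsLocalization.map_units _ q)
  have h2 : ∀ q, ψ (algebraMap _ _ q) = φ q := fun q => IsLocalization.lift_eq _ q
  have h3 : ∀ r, (ψ r).fst = r := fun r => DFunLike.congr_fun (IsLocalization.ringHom_ext M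
    (j := ((TrivSqZeroExt.fstHom k _ _).comp ψ).toRingHom) (k := RingHom.id _)
    (RingHom.ext fun q => (congrArg _ (h2 q)).trans (h1 q))) r
  refine ⟨Derivation.mk' ((TrivSqZeroExt.sndHom _ _).restrictScalars k ∘ₗ ψ.toLinearMap)
    fun r s => by simp [h3, mul_comm], fun t' => ?_⟩
  by_cases h : t' = t <;> simp [h2, φ, h]

theorem aeval_XU (q : MvPolynomial ϑ k) :
    aeval (fun t => (XU k t : RL k ϑ)) q = algebraMap _ (RL k ϑ) q := by
  have : aeval (fun t => (XU k t : RL k ϑ)) = IsScalarTower.toAlgHom k (MvPolynomial ϑ k) (RL k ϑ) :=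
    algHom_ext fun t => by simp [XU_coe]
  rw [this, IsScalarTower.toAlgHom_apply]

theorem Setup.root' {n : ℕ} (e : σ ⊕ ϑ ≃ Fin n) {U : ι → Fin n → ℕ} {β : Option σ → ℚ}
    {A B : Set (Pt σ)} (h : Setup k (uS e U) (aR e U a₀) β A B) (hf : fpoly U a₀ ≠ 0)
    {b : Polynomial k} (hb : LocalBernsteinEq (fpoly U a₀) b) : b.eval (-(β none : k)) = 0 := by
  choose δ hδ using exists_der (R := RL k ϑ) (MM k ϑ)
  exact h.root e hδ (fun _ => rfl) (fun q hq => aeval_XU q ▸ IsLocalization.map_units (RL k ϑ)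
    (⟨q, Submonoid.subset_closure (Or.inr hq)⟩ : MM k ϑ)) hf hb

end RB

end

end Pool.Agent.P.MP_b91a16_ag
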