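import Pool.Agent.P.MP_b91a16_ag.GStruct

/-! Cancellation of the candidate poles that are not allowed. -/

set_option linter.unusedSectionVars false

namespace Pool.Agent.P.MP_b91a16_ag

noncomputable section

namespace RB

open RA Cv

variable {σ ι G : Type} [Fintype σ] [DecidableEq σ] [Fintype ι] [DecidableEq ι] [Fintype G]
  [DecidableEq G] {u : ι → σ → ℕ}

variable (u) in
def Gd' (J : Finset σ) (I : Finset ι) : Prop := ∃ S, Mg u J I S ∧ ∀ T, Mg u J I T → PL u I S T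

theorem exists_lab' (J : Finset G → Finset σ) (W : Finset G → Finset ι) (hJ : Monotone J)
    (hW : Monotone W) {δ : ℤ} (hδ : 0 ≤ δ) :
    ∃ (B : ℤ) (lab : (G → ℤ) → Finset σ), ∀ z z', (∀ Y, At z δ ⊆ Y → Y ⊆ At z B → Gd' u (J Y) (W Y)) →
      (∀ Y, At z' δ ⊆ Y → Y ⊆ At z' B → Gd' u (J Y) (W Y)) → (∀ g, |z g - z' g| ≤ δ) →
      Dg u (J (At z δ)) (W (At z δ)) (lab z) ∧ PL u (W (At z δ)) (lab z) (lab z') := by
  classical
  let B : ℤ := 3 * (2 ^ (Fintype.card G + 1) * δ)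
  let P : ℕ → Finset G → (G → ℤ) → Prop := fun s Y z => s ≤ Y.card ∧ At z δ ⊆ Y ∧
    Y ⊆ At z (3 * (2 ^ s * δ)) ∧ ∀ Y, At z δ ⊆ Y → Y ⊆ At z B → Gd' u (J Y) (W Y)
  suffices ∀ s ≤ Fintype.card G + 1, ∃ L : Finset G → (G → ℤ) → Finset σ, ∀ Y z Y' z', P s Y z →
      P s Y' z' → (∀ g, |z g - z' g| ≤ δ) → Dg u (J (Y ∪ Y')) (W (Y ∪ Y')) (L Y z) ∧ Dg u (J (Y ∪ Y')) (W (Y ∪ Y')) (L Y' z') ∧
        PL u (W (Y ∪ Y')) (L Y z) (L Y' z') by
    obtain ⟨L, hL⟩ := this 0 (Nat.zero_le _)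
    have h0 : ∀ z : G → ℤ, At z δ ⊆ At z (3 * (2 ^ 0 * δ)) := fun z =>
      At_mono (δ := 0) (by simp) (by linarith)
    refine ⟨B, fun z => L (At z δ) z, fun z z' h1 h2 h3 => ⟨?_, ?_⟩⟩
    · simpa using (hL _ z _ z ⟨Nat.zero_le _, subset_rfl, h0 z, h1⟩ ⟨Nat.zero_le _, subset_rfl, h0 z, h1⟩
        (by simpa using fun _ => hδ)).1
    · exact (hL _ z _ z' ⟨Nat.zero_le _, subset_rfl, h0 z, h1⟩ ⟨Nat.zero_le _, subset_rfl, h0 z', h2⟩
        h3).2.2.mono (hW Finset.subset_union_left) subset_rfl subset_rfl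
  intro s hs
  induction hs using Nat.decreasingInduction with
  | self => exact ⟨fun _ _ => ∅, fun Y z _ _ h => absurd (h.1.trans (Finset.card_le_univ _)) (by omega)⟩
  | of_succ s hs ih =>
  obtain ⟨L, hL⟩ := ih
  have : ∀ J I, Gd' u J I → ∃ S, Mg u J I S ∧ ∀ T, Mg u J I T → PL u I S T := fun _ _ h => h
  choose! S₀ s1 s2 using this
  have : ∀ J I S, Dg u J I S → ∃ T ⊆ S, Mg u J I T := fun _ _ _ h => h.exists_mg
  choose! φ f1 f2 using this
  set τ : ℤ := 2 ^ s * δ with hτ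
  have t1 : δ ≤ τ := le_mul_of_one_le_left hδ (one_le_pow₀ one_le_two)
  have t2 : 2 ^ (s + 1) * δ = 2 * τ := by rw [hτ]; ring
  have t3 : 3 * τ ≤ B := by
    have := mul_le_mul_of_nonneg_right (pow_le_pow_right₀ (one_le_two (α := ℤ)) hs.le) hδ
    linarith
  have mono : ∀ (z : G → ℤ) {t t'}, t ≤ t' → At z t ⊆ At z t' := fun z _ _ h =>
    At_mono (δ := 0) (by simp) (by linarith)
  have gd : ∀ Y z, P s Y z → Gd' u (J Y) (W Y) := fun Y z h => h.2.2.2 Y h.2.1 (h.2.2.1.trans (mono z t3))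
  have up : ∀ Y z t, P s Y z → 3 * τ ≤ t → t ≤ 6 * τ → At z t ≠ Y →
      Y ⊆ At z t ∧ P (s + 1) (At z t) z := fun Y z t h h1 h2 h3 => by
    have h4 := h.2.2.1.trans (mono z h1)
    exact ⟨h4, h.1.trans_lt (Finset.card_lt_card (h4.ssubset_of_ne h3.symm)), h.2.1.trans h4,
      mono z (by linarith), h.2.2.2⟩
  let lo : Finset G → (G → ℤ) → Prop := fun Y z => Y.card ≤ s ∧ At z (4 * τ) = Y
  let L' : Finset G → (G → ℤ) → Finset σ := fun Y z => if lo Y z then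
    (if At z (6 * τ) = Y then S₀ (J Y) (W Y) else φ (J Y) (W Y) (L (At z (6 * τ)) z))
    else L (if Y.card ≤ s then At z (4 * τ) else Y) z
  have hi : ∀ Y z, P s Y z → ¬lo Y z → ∃ Z, Y ⊆ Z ∧ P (s + 1) Z z ∧ L' Y z = L Z z ∧
      (Y.card ≤ s → Z = At z (4 * τ)) := fun Y z h h1 => by
    refine ⟨_, ?_, ?_, if_neg h1, fun h => if_pos h⟩ <;> split_ifs with h2
    exacts [(up Y z _ h (by linarith) (by linarith) fun h => h1 ⟨h2, h⟩).1, subset_rfl,
      (up Y z _ h (by linarith) (by linarith) fun h => h1 ⟨h2, h⟩).2,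
      ⟨by omega, h.2.1, h.2.2.1.trans (mono z (by linarith)), h.2.2.2⟩]
  have lw : ∀ Y z, P s Y z → lo Y z → Mg u (J Y) (W Y) (L' Y z) ∧ (At z (6 * τ) = Y ∧ L' Y z = S₀ (J Y) (W Y) ∨
      ∃ Z, Y ⊆ Z ∧ P (s + 1) Z z ∧ L' Y z ⊆ L Z z) := fun Y z h h1 => by
    simp only [L', if_pos h1]
    split_ifs with h2
    · exact ⟨s1 _ _ (gd Y z h), Or.inl ⟨h2, rfl⟩⟩
    · obtain ⟨h3, h4⟩ := up Y z _ h (by linarith) le_rfl h2
      have h5 := (hL _ z _ z h4 h4 (by simpa using fun _ => hδ)).1.anti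
        (hJ (h3.trans Finset.subset_union_left)) (hW (h3.trans Finset.subset_union_left))
      exact ⟨f2 _ _ _ h5, Or.inr ⟨_, h3, h4, f1 _ _ _ h5⟩⟩
  have key : ∀ Y z Y' z', P s Y z → P s Y' z' → (∀ g, |z g - z' g| ≤ δ) → lo Y z →
      Dg u (J (Y ∪ Y')) (W (Y ∪ Y')) (L' Y z) ∧ Dg u (J (Y ∪ Y')) (W (Y ∪ Y')) (L' Y' z') ∧
        PL u (W (Y ∪ Y')) (L' Y z) (L' Y' z') := fun Y z Y' z' h h' h1 h2 => by
    obtain rfl : Y' = Y := Finset.eq_of_subset_of_card_le (h2.2 ▸ h'.2.2.1.trans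
      (At_mono (fun g => (abs_le.1 (h1 g)).2) (by linarith))) (h2.1.trans h'.1)
    rw [Finset.union_self]
    obtain ⟨h3, h4⟩ := lw _ z h h2
    by_cases h5 : lo Y' z'
    · obtain ⟨h6, h7⟩ := lw _ z' h' h5
      refine ⟨h3.1, h6.1, ?_⟩
      rcases h4 with ⟨-, h4⟩ | ⟨Z, e1, e2, e3⟩
      · exact h4 ▸ s2 _ _ (gd _ z h) _ h6
      rcases h7 with ⟨-, h7⟩ | ⟨Z', e4, e5, e6⟩
      · exact h7 ▸ (s2 _ _ (gd _ z h) _ h3).symm
      · exact (hL _ z _ z' e2 e5 h1).2.2.mono (hW (e1.trans Finset.subset_union_left)) e3 e6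
    · obtain ⟨Z', e4, e5, e6, e7⟩ := hi _ z' h' h5
      obtain ⟨Z, e1, e2, e3⟩ := h4.resolve_left fun h4 => h5 ⟨h2.1, Finset.Subset.antisymm
        (h4.1 ▸ At_mono (fun g => (abs_le.1 (h1 g)).2) (by linarith)) (e7 h2.1 ▸ e4)⟩
      obtain ⟨-, h6, h7⟩ := hL _ z _ z' e2 e5 h1
      have h8 := e1.trans (Finset.subset_union_left (s₂ := Z'))
      exact ⟨h3.1, e6 ▸ h6.anti (hJ h8) (hW h8), e6 ▸ h7.mono (hW h8) e3 subset_rfl⟩
  refine ⟨L', fun Y z Y' z' h h' h1 => ?_⟩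
  by_cases h2 : lo Y z
  · exact key Y z Y' z' h h' h1 h2
  by_cases h3 : lo Y' z'
  · obtain ⟨h4, h5, h6⟩ := key Y' z' Y z h' h (fun g => abs_sub_comm (z g) _ ▸ h1 g) h3
    exact Finset.union_comm Y Y' ▸ ⟨h5, h4, h6.symm⟩
  obtain ⟨Z, e1, e2, e3, -⟩ := hi Y z h h2
  obtain ⟨Z', e4, e5, e6, -⟩ := hi Y' z' h' h3
  obtain ⟨h4, h5, h6⟩ := hL _ z _ z' e2 e5 h1
  have h7 := hW (Finset.union_subset_union e1 e4)
  have h8 := hJ (Finset.union_subset_union e1 e4)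
  exact e3 ▸ e6 ▸ ⟨h4.anti h8 h7, h5.anti h8 h7, h6.mono h7 subset_rfl subset_rfl⟩

variable {x : ℝ} {θ : Finset ι → ℝ} {z : σ ⊕ ι → ℤ} {Z Y : Finset (σ ⊕ ι)} {S T : Finset σ}
  {α : Type} [DecidableEq α] {β : α → σ ⊕ ι → ℤ} {A : Finset α} {Al : ℕ × ℕ → Prop}

variable (u) in
def Loc' (Z : Finset (σ ⊕ ι)) (z : σ ⊕ ι → ℤ) : Prop :=
  ∀ g ∉ Z, 0 < z g ∧ ∀ l, zl u (Pi.single l 1) 0 g ≤ z g

theorem Loc'.sub (h : Loc' u Z z) : Tz z ⊆ Z.toRight := fun i hi => by_contra fun h' =>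
  (h (Sum.inr i) (mt Finset.mem_toRight.2 h')).1.ne' (mem_Tz.1 hi)

theorem fc_Tz (h : ∀ g, 0 ≤ z g) {n : ℤ} (hn : 0 < n)
    (e : ∀ i, z (Sum.inr i) = ∑ j, (z (Sum.inl j) + 1) * u i j - n) : Fc u (Tz z) := by
  have e' : ∀ i, (fun o => o.elim (-n : ℚ) fun j => (z (Sum.inl j) + 1 : ℚ)) ⬝ᵥ hv u i =
      z (Sum.inr i) := fun i => by simp [dot_hv, e, neg_add_eq_sub]
  refine ⟨fun o => o.elim (-n : ℚ) fun j => (z (Sum.inl j) + 1 : ℚ), ⟨by simpa using hn,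
    fun j => ?_, fun i => by rw [e']; exact_mod_cast h _⟩, fun i => by
      rw [e', mem_Tz, Int.cast_eq_zero]⟩
  simp only [Option.elim_some]
  exact_mod_cast Int.lt_add_one_iff.2 (h (Sum.inl j))

theorem ps_step' (hx : 1 - x ≠ 0) (hL : Loc' u Z z) (hP : PL u Z.toRight T T) {l : σ}
    (hl : l ∉ Z.toLeft) (h1 : insert l S ⊆ T) (h2 : l ∉ S) : ps (PS u (x / (1 - x)) θ S) z = (1 - x)⁻¹ *
      (ps (fun I => PS u (x / (1 - x)) θ S (Nc u I {l})) (z - zl u (Pi.single l 1) 0) -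
        x * ps (fun I => PS u (x / (1 - x)) θ S (Nc u I {l})) z) +
      ps (PS u (x / (1 - x)) θ (insert l S)) z := by
  have h3 := zl_single_nonneg u l
  by_cases h4 : ∀ g, 0 ≤ z g
  swap
  · simp only [ps, if_neg h4, if_neg fun h : ∀ g, 0 ≤ (z - zl u (Pi.single l 1) 0) g =>
      h4 fun g => (h3 g).trans (sub_nonneg.1 (h g))]
    simp
  simp only [ps, if_pos h4]
  by_cases h5 : l ∈ supp u (Tz z)
  · obtain ⟨i, h6, h7⟩ := (mem_supp u).1 h5
    rw [if_neg fun h => h7 (by simpa [zl_single_inr, mem_Tz.1 h6] using h (Sum.inr i))]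
    have : S ⊆ supp u (Nc u (Tz z) {l}) ↔ S ⊆ supp u (Tz z) := ⟨fun h => h.trans supp_Nc,
      (hP.mono hL.sub subset_rfl subset_rfl).subset_supp ((Finset.subset_insert _ _).trans h1)
        (by simpa using h1 (Finset.mem_insert_self _ _)) (by simpa using h2)⟩
    simp only [PS, this, Finset.insert_subset_iff, h5, true_and, ES_insert h2]
    split_ifs
    · field_simp
      ring
    · simp
  · have h6 : ∀ g, 0 ≤ (z - zl u (Pi.single l 1) 0) g := fun g => sub_nonneg.2 (by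
      by_cases h : g ∈ Z
      swap
      · exact (hL g h).2 l
      rcases g with j | i
      · rw [zl_single_inl, if_neg fun e : j = l => hl (Finset.mem_toLeft.2 (e ▸ h))]
        exact h4 _
      replace h := Finset.mem_toRight.2 h
      rw [zl_single_inr]
      by_cases h' : u i l = 0
      · simpa [h'] using h4 _
      · have := h1 (Finset.mem_insert_self _ _)
        have := (h4 _).lt_of_ne' fun h => h5 ((mem_supp u).2 ⟨i, mem_Tz.2 h, h'⟩)
        rw [(hP i h l ‹_› l ‹_› h' h').2]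
        omega)
    have h7 : Nc u (Tz (z - zl u (Pi.single l 1) 0)) {l} = Nc u (Tz z) {l} := by
      ext i
      simp only [mem_Nc, mem_Tz, Finset.mem_singleton, forall_eq, Pi.sub_apply, zl_single_inr]
      exact and_congr_left fun h => by simp [h]
    rw [if_pos h6, h7, Nc_eq (by simpa using h5), PS.eq_1 _ _ _ (insert l S),
      if_neg fun h => h5 (h (Finset.mem_insert_self _ _))]
    field_simp
    ring

theorem class_sum' (hx : 1 - x ≠ 0) (hθ : ∀ I, Rel u (x / (1 - x)) θ I)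
    (hβ : ∀ Y ∈ A, ∀ g, 0 ≤ β Y g) (hD : Dg u Z.toLeft Z.toRight S) (C : Finset (σ → ℕ)) (N : ℕ)
    (hL : ∀ w ∈ C, ∀ T ⊆ A, Loc' u Z (zz u w N - ∑ Y ∈ T, β Y))
    (hF : ∀ w, ∀ T ⊆ A, (∀ g, 0 ≤ (zz u w N - ∑ Y ∈ T, β Y) g) →
      Fc u (Tz (zz u w N - ∑ Y ∈ T, β Y)))
    (hC : ∀ l ∈ S, ∀ η w, QQ β A (ps η) (zz u w N) ≠ 0 → (w ∈ C ↔ w + Pi.single l 1 ∈ C)) :
    ∑ w ∈ C, x ^ (∑ j, w j) * QQ β A (ps θ) (zz u w N) = 0 := by
  have key : ∀ S' ⊆ S, ∑ w ∈ C, x ^ (∑ j, w j) * QQ β A (ps θ) (zz u w N) =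
      ∑ w ∈ C, x ^ (∑ j, w j) * QQ β A (ps (PS u (x / (1 - x)) θ S')) (zz u w N) := by
    intro S' hS'
    induction S' using Finset.induction_on with
    | empty => rw [show PS u (x / (1 - x)) θ ∅ = θ from funext fun I => by simp [PS, ES, Nc_empty]]
    | insert l S' hl ih =>
      rw [ih ((Finset.subset_insert _ _).trans hS')]
      set η := fun I => PS u (x / (1 - x)) θ S' (Nc u I {l})
      have h1 : ∑ w ∈ C, x ^ (∑ j, w j) * QQ β A (ps η) (zz u w N - zl u (Pi.single l 1) 0) =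
          ∑ w ∈ C, x ^ (∑ j, w j) * (x * QQ β A (ps η) (zz u w N)) := by
        have e : ∀ w, zz u (w + Pi.single l 1) N - zl u (Pi.single l 1) 0 = zz u w N := fun w =>
          funext fun g => by simpa [sub_eq_iff_eq_add] using zz_add u w (Pi.single l 1) N 0 g
        have h1 := hC l (hS' (Finset.mem_insert_self _ _)) η
        rw [Finset.sum_congr_of_eq_on_inter (s₂ := C.image (· + Pi.single l 1))
          (fun w h2 h3 => by_contra fun h4 => ?_) (fun w h2 h3 => by_contra fun h4 => ?_)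
          fun _ _ _ => rfl, Finset.sum_image (add_left_injective _).injOn]
        · refine Finset.sum_congr rfl fun w _ => ?_
          simp [e, Finset.sum_add_distrib, pow_succ, mul_assoc]
        · have h5 := (bd_ps.qq hβ).2 _ (right_ne_zero_of_mul h4) (Sum.inl l)
          obtain ⟨w, rfl⟩ : ∃ w', w = w' + Pi.single l 1 := ⟨w - Pi.single l 1, funext fun j => by
            simp only [Pi.sub_apply, zl_single_inl, if_true, zz, Sum.elim_inl] at h5
            by_cases e : j = l <;> simp [e]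
            omega⟩
          exact h3 (Finset.mem_image_of_mem _ ((h1 w (e w ▸ right_ne_zero_of_mul h4)).2 h2))
        · obtain ⟨w, h5, rfl⟩ := Finset.mem_image.1 h2
          exact h3 ((h1 w (e w ▸ right_ne_zero_of_mul h4)).1 h5)
      rw [← add_zero (∑ w ∈ C, _ * QQ β A (ps (PS u _ θ (insert l S'))) _), ← mul_zero (1 - x)⁻¹,
        ← sub_eq_zero.2 h1, ← Finset.sum_sub_distrib, Finset.mul_sum, ← Finset.sum_add_distrib]
      refine Finset.sum_congr rfl fun w hw => ?_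
      simp only [QQ, Finset.mul_sum, ← Finset.sum_sub_distrib, ← Finset.sum_add_distrib]
      refine Finset.sum_congr rfl fun T hT => ?_
      rw [ps_step' hx (hL w hw T (Finset.mem_powerset.1 hT)) hD.2.1 (Finset.disjoint_left.1 hD.1
        (hS' (Finset.mem_insert_self _ _))) hS' hl, sub_right_comm]
      ring
  rw [key S subset_rfl]
  refine Finset.sum_eq_zero fun w hw => mul_eq_zero_of_right _ (Finset.sum_eq_zero fun T hT =>
    mul_eq_zero_of_right _ (ite_eq_right_iff.2 fun h' => ite_eq_right_iff.2 fun h => ?_))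
  have h1 := (hL w hw T (Finset.mem_powerset.1 hT)).sub
  obtain ⟨S', h2, h3⟩ := hD.2.2 _ h1 (hF w T (Finset.mem_powerset.1 hT) h')
  have h4 := hD.2.1.mono h1 h2 h2
  rw [ES_ext (fun J _ => hθ J) h (hD.2.1.mono h1 subset_rfl subset_rfl) h2 ⟨h2.trans h, h4, h3⟩]
  exact hθ _ S' h4 (by rwa [Finset.inter_eq_left.2 (h2.trans h)])

theorem diam' {N : ℕ} {b : ℤ} (hb : 0 ≤ b) {Ω : (σ → ℕ) → Prop} {lab : (σ → ℕ) → Finset σ}
    (h1 : ∀ w, Ω w → (∀ g, 0 ≤ zz u w N g) ∧ ∀ l, (w l : ℤ) ≤ b ∨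
      ∃ i, zz u w N (Sum.inr i) ≤ b ∧ u i l ≠ 0)
    (h2 : ∀ w w', Ω w → Ω w' → Cs (4 * b + 8) w w' → ∀ i,
      zz u w N (Sum.inr i) ≤ b + kap u * (3 * b + 6) → PL u {i} (lab w) (lab w'))
    {St : (σ → ℕ) → (σ → ℕ) → Prop} (h3 : ∀ w w', St w w' → Ω w ∧ ∃ l, w' = w + Pi.single l 1 ∧
      ∃ v, Ω v ∧ Cs (b + 2) w v ∧ l ∈ lab v) {w₀ w : σ → ℕ} (h4 : Ω w₀)
    (h : Relation.ReflTransGen (fun w w' => St w w' ∨ St w' w) w₀ w) : Cs (b + 1) w₀ w := by
  let L : σ → Prop := fun l => ∃ v, Ω v ∧ Cs (2 * b + 4) w₀ v ∧ l ∈ lab v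
  have key : ∀ w w', Ω w → Ω w' → Cs (b + 2) w₀ w → (∀ j, ¬L j → w j = w' j) → ∀ l, L l →
      (w l : ℤ) - w' l ≤ b := by
    rintro w w' e1 e2 e3 e4 l ⟨v, e5, e6, e7⟩
    obtain e8 | ⟨i, e8, e9⟩ := (h1 w e1).2 l
    · omega
    have e10 := (abs_le.1 ((e3.symm.trans e6 (ρ'' := 3 * b + 6) (by linarith)).zz (u := u)
      (by linarith) N (Sum.inr i))).1
    have e11 := fun v' e (e' : Cs (2 * b + 4) w₀ v') =>
      h2 v v' e5 e (e6.symm.trans e' (by linarith)) i (by linarith)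
    have := zz_sub (u := u) w w' N i
    rw [Finset.sum_eq_single l (fun j _ hj => ?_) (by simp),
      (e11 v e5 e6 i (by simp) l e7 l e7 e9 e9).2] at this
    · have := (h1 w' e2).1 (Sum.inr i)
      omega
    · by_cases e : L j
      · obtain ⟨v', e12, e13, e14⟩ := e
        simp [(e11 v' e12 e13).eq (Finset.mem_singleton_self i) e7 e9 e14, hj]
      · simp [e4 j e]
  suffices (∀ j, ¬L j → w j = w₀ j) ∧ Cs (b + 1) w₀ w from this.2
  have e0 : Cs (b + 1) w₀ w₀ := fun j => by simpa using by linarith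
  induction h with
  | refl => exact ⟨fun _ _ => rfl, e0⟩
  | @tail w w' _ h ih =>
    have aux : ∀ y l, Ω y → Cs (b + 2) w₀ y → (∀ j, ¬L j → y j = w₀ j) → L l →
        |(w₀ l : ℤ) - y l| ≤ b := fun y l e1 e2 e3 e4 => abs_le.2 ⟨by
      linarith [key y w₀ e1 h4 e2 e3 l e4], key w₀ y h4 e1 (fun j => (e0 j).trans (by linarith))
        (fun j hj => (e3 j hj).symm) l e4⟩
    rcases h with h | h
    · obtain ⟨e1, l, rfl, v, e2, e3, e4⟩ := h3 _ _ h
      have e5 : L l := ⟨v, e2, ih.2.trans e3 (by linarith), e4⟩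
      have e6 := aux w l e1 (fun j => (ih.2 j).trans (by linarith)) ih.1 e5
      refine ⟨fun j hj => by simp [show j ≠ l from fun e => hj (e ▸ e5), ih.1 j hj], fun j => ?_⟩
      by_cases e : j = l
      · simp only [e, Pi.add_apply, Pi.single_eq_same, abs_le] at e6 ⊢
        omega
      · simpa [e] using ih.2 j
    · obtain ⟨e1, l, rfl, v, e2, e3, e4⟩ := h3 _ _ h
      have e7 : Cs (b + 2) w₀ w' := ih.2.trans (cs_single w' l).symm (by linarith)
      have e5 : L l := ⟨v, e2, e7.trans e3 (by linarith), e4⟩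
      have e8 : ∀ j, ¬L j → w' j = w₀ j := fun j hj => by
        simpa [show j ≠ l from fun e => hj (e ▸ e5)] using ih.1 j hj
      refine ⟨e8, fun j => ?_⟩
      by_cases e : j = l
      · exact e ▸ (aux w' l e1 e7 e8 e5).trans (by linarith)
      · simpa [e] using ih.2 j

variable (u Al) in
def RootHyp3 : Prop :=
  ∀ (Z : Finset (σ ⊕ ι)) (w₀ : σ → ℕ) (N₀ : ℕ), InC u Z w₀ N₀ → (∀ g, g ∉ Z → 0 < zl u w₀ N₀ g) →
    0 < N₀ → (∀ w N, InC u Z w N → (∑ j, w j) * N₀ = (∑ j, w₀ j) * N) →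
    Al (∑ j, w₀ j, N₀) ∨ Gd' u Z.toLeft Z.toRight

theorem good3 {m : Ideal (Polynomial ℝ)} [m.IsPrime] (h0 : 0 < x) (h1 : x < 1) (hR : RootHyp3 u Al)
    (h : Crit u x Al m Y) {v : σ → ℕ} {M : ℕ} (hM : 0 < M) (hv : InC u Y v M) :
    (∀ l, Sum.inl l ∈ Y ∨ ∃ i, Sum.inr i ∈ Y ∧ u i l ≠ 0) ∧
      Gd' u (cl u Y).toLeft (cl u Y).toRight := by
  refine ⟨fun l => by_contra fun h3 => ?_, ?_⟩
  · push Not at h3
    have := (h (Pi.single l 1) 0 ⟨zl_single_nonneg u l, by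
      rintro (j | i) hg
      exacts [by rw [zl_single_inl, if_neg fun e : j = l => h3.1 (e ▸ hg)],
        by simp [zl_single_inr, h3.2 i hg]]⟩).1
    refine Ideal.IsPrime.ne_top ‹_› (m.eq_top_of_isUnit_mem this ?_)
    simpa [fac] using Polynomial.isUnit_C.2 (sub_pos.2 h1).ne'.isUnit
  obtain ⟨w₂, N₂, hv₂, hint⟩ := exists_interior u Y
  have hv₀ : InC u Y (w₂ + v) (N₂ + M) := ⟨fun g => by
      rw [zl_add]; exact add_nonneg (hv₂.1 g) (hv.1 g),
    fun g hg => by rw [zl_add, hv₂.2 g hg, hv.2 g hg, add_zero]⟩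
  refine (hR (cl u Y) _ _ ((inC_cl u).2 hv₀) (fun g hg => ?_) (by omega)
    fun w N hv => ratio_eq h0 h1 (h w N ((inC_cl u).1 hv)).1 (h _ _ hv₀).1).resolve_left (h _ _ hv₀).2
  rw [zl_add]
  exact add_pos_of_pos_of_nonneg (hint g hg) (hv.1 g)

theorem exists_series3 (h0 : 0 < x) (h1 : x < 1) (hR : RootHyp3 u Al)
    (hθ : ∀ I, Rel u (x / (1 - x)) θ I) : ∃ F : PowerSeries ℝ,
      (∀ N, HasSum (fun w : σ → ℕ => x ^ (∑ j, w j) * th2 u θ N w) (PowerSeries.coeff N F)) ∧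
      ∃ D ∈ AlM x Al, (D : PowerSeries ℝ) * F ∈ PolyS := by
  classical
  refine ⟨SF u x (ps θ), fun N => by simpa [ps_zz] using (bd_ps (θ := θ)).hasSum (u := u) h0.le h1 0 N,
    exists_AlM_of_forall fun m _ => ?_⟩
  have : ∀ Y, ¬Crit u x Al m Y → ∃ w N, InC u Y w N ∧ (fac x (∑ j, w j, N) ∉ m ∨ Al (∑ j, w j, N)) :=
    fun Y h => by simpa only [Crit, not_forall, not_and_or, not_not, exists_prop] using h
  choose! v M hv hM using this
  let A := Finset.univ.filter fun Y => ¬Crit u x Al m Y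
  let β := fun Y => zl u (v Y) (M Y)
  have hβ : ∀ Y ∈ A, ∀ g, 0 ≤ β Y g := fun Y hY => (hv Y (Finset.mem_filter.1 hY).2).1
  refine bd_ps.mem_RR h0.le h1 (A := A) (β := β) (fun Y hY => ⟨hβ Y hY, _, _, rfl,
    hM Y (Finset.mem_filter.1 hY).2⟩) (mem_RR_of_PolyS (mem_PolyS_iff.2 ?_))
  let b : ℤ := ∑ g, ∑ Y ∈ A, β Y g
  have hA : ∀ g, 0 ≤ ∑ Y ∈ A, β Y g := fun g => Finset.sum_nonneg fun Y hY => hβ Y hY g
  have hb : 0 ≤ b := Finset.sum_nonneg fun g _ => hA g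
  have hb' : ∀ T ⊆ A, ∀ g, ∑ Y ∈ T, β Y g ≤ b := fun T hT g =>
    (Finset.sum_le_sum_of_subset_of_nonneg hT fun Y hY _ => hβ Y hY g).trans
      (Finset.single_le_sum (fun g _ => hA g) (Finset.mem_univ g))
  have hκ := one_le_kap (u := u)
  have hκ' : 0 ≤ kap u * b := mul_nonneg (by linarith) hb
  let δ := kap u * (4 * b + 8) + b
  have hδ : b ≤ δ := by simp only [δ]; nlinarith
  obtain ⟨B, lab, hlab⟩ := exists_lab' (u := u) (fun Y => (cl u Y).toLeft)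
    (fun Y => (cl u Y).toRight) (fun _ _ h => Finset.toLeft_subset_toLeft (cl_mono u h))
    (fun _ _ h => Finset.toRight_subset_toRight (cl_mono u h)) (hb.trans hδ)
  obtain ⟨N₀, hN₀⟩ := dickson (u := u) (max B δ)
  refine ⟨N₀ + (∑ Y ∈ A, M Y + 1), fun N hN => ?_⟩
  let Ω : (σ → ℕ) → Prop := fun w => (∀ g, 0 ≤ zz u w N g) ∧ Crit u x Al m (At (zz u w N) b)
  have sup : ∀ η w, QQ β A (ps η) (zz u w N) ≠ 0 → Ω w := fun η w h =>
    ⟨(bd_ps.qq hβ).2 _ h, by_contra fun h' => h (QQ_eq_zero (Finset.mem_filter.2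
      ⟨Finset.mem_univ _, h'⟩) hb' fun g hg => (hv _ h').2 g (mem_At.2 hg))⟩
  have mono : ∀ (z : σ ⊕ ι → ℤ) {t t'}, t ≤ t' → At z t ⊆ At z t' := fun z _ _ h =>
    At_mono (δ := 0) (by simp) (by linarith)
  have gd := fun w (h : Ω w) Y (h2 : At (zz u w N) b ⊆ Y) (h3 : Y ⊆ At (zz u w N) (max B δ)) =>
    (hN₀ N (by omega) w h.1).elim fun v h4 => h4.elim fun M h4 => good3 h0 h1 hR (Y := Y)
      (fun w N h5 => h.2 w N (inC_anti h2 h5)) h4.1 (inC_anti h3 h4.2)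
  have g1 : ∀ w, Ω w → ∀ l, (w l : ℤ) ≤ b ∨ ∃ i, zz u w N (Sum.inr i) ≤ b ∧ u i l ≠ 0 :=
    fun w h l => ((gd w h _ subset_rfl (mono _ (hδ.trans (le_max_right _ _)))).1 l).imp
      (fun h => (mem_At (z := zz u w N) (g := .inl l)).1 h) fun h => h.imp fun i hi => ⟨mem_At.1 hi.1, hi.2⟩
  have g2 := fun w w' (h : Ω w) (h' : Ω w') (e : Cs (4 * b + 8) w w') => hlab _ _
    (fun Y e e' => (gd w h Y ((mono _ hδ).trans e) (e'.trans (mono _ (le_max_left _ _)))).2)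
    (fun Y e e' => (gd w' h' Y ((mono _ hδ).trans e) (e'.trans (mono _ (le_max_left _ _)))).2)
    fun g => (e.zz (by linarith) N g).trans (le_add_of_nonneg_right hb)
  let St : (σ → ℕ) → (σ → ℕ) → Prop := fun w w' => Ω w ∧ ∃ l, w' = w + Pi.single l 1 ∧
    ∃ v, Ω v ∧ Cs (b + 2) w v ∧ l ∈ lab (zz u v N)
  let R : Setoid (σ → ℕ) := ⟨Relation.ReflTransGen fun w w' => St w w' ∨ St w' w,
    fun _ => .refl, fun h => (@Relation.ReflTransGen.stdSymm _ _ ⟨fun _ _ => Or.symm⟩).symm _ _ h,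
    .trans⟩
  let s := Fintype.piFinset fun _ : σ => Finset.range (N + b.toNat + 1)
  have hs : ∀ w, Ω w → w ∈ s ∧ ∀ l, w + Pi.single l 1 ∈ s := fun w h => by
    have : ∀ l, w l + 1 ≤ N + b.toNat := fun l => by
      obtain h2 | ⟨i, h2, h3⟩ := g1 w h l
      · omega
      have := (Finset.mem_filter.1 (mem_JJ_of_le u (i := i) (w := w) le_rfl h3)).2
      simp only [zz, Sum.elim_inr] at h2
      omega
    simp only [s, Fintype.mem_piFinset, Finset.mem_range]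
    refine ⟨fun j => by have := this j; omega, fun l j => ?_⟩
    have := this j
    by_cases e : j = l <;> simp [e] at this ⊢ <;> omega
  rw [SF, PowerSeries.coeff_mk, tsum_eq_sum (s := s) fun w hw => by_contra fun h =>
    hw (hs w (sup _ w (right_ne_zero_of_mul h))).1]
  refine Finset.sum_cancels_of_partition_cancels R fun y _ => by_contra fun h => ?_
  obtain ⟨w₀, h2, h3⟩ := Finset.exists_ne_zero_of_sum_ne_zero h
  have h4 := sup _ w₀ (right_ne_zero_of_mul h3)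
  have h5 : ∀ w ∈ s.filter (R · y), Cs (b + 1) w₀ w := fun w hw => diam' hb (fun w h => ⟨h.1, g1 w h⟩)
    (fun w w' h h' e i hi => (g2 w w' h h' e).2.mono (Finset.singleton_subset_iff.2
      (Finset.mem_toRight.2 (subset_cl u _ (mem_At.2 (by simp only [δ]; nlinarith))))) subset_rfl
      subset_rfl) (fun _ _ => id) h4 (R.trans (Finset.mem_filter.1 h2).2
        (R.symm (Finset.mem_filter.1 hw).2))
  refine h (class_sum' (sub_pos.2 h1).ne' hθ hβ (g2 w₀ w₀ h4 h4 fun j => by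
    simpa using by linarith).1 _ N (fun w hw T hT g hg => ?_) (fun w T hT h => ?_)
      fun l hl η w hw => ?_)
  · have h6 : δ < zz u w₀ N g := not_le.1 fun h => hg (subset_cl u _ (mem_At.2 h))
    have h7 := (abs_le.1 ((h5 w hw).zz (u := u) (by linarith) N g)).2
    have h8 := hb' T hT g
    have h9 : kap u ≤ (zz u w N - ∑ Y ∈ T, β Y) g := by
      simp only [Pi.sub_apply, Finset.sum_apply, δ] at h6 ⊢
      nlinarith
    refine ⟨by linarith, fun l => le_trans ?_ h9⟩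
    rcases g with j | i
    · rw [zl_single_inl]
      split_ifs <;> linarith
    · exact (zl_single_inr u l i).trans_le ((Finset.single_le_sum (f := fun j => (u i j : ℤ))
        (fun _ _ => Nat.cast_nonneg _) (Finset.mem_univ l)).trans (le_kap i).le)
  · refine fc_Tz h (n := N - ∑ Y ∈ T, M Y) (by
      have := Finset.sum_le_sum_of_subset (f := M) hT
      omega) fun i => ?_
    simp only [zz, zl, β, oo, Pi.sub_apply, Finset.sum_apply, Sum.elim_inl, Sum.elim_inr, add_mul,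
      sub_mul, Finset.sum_add_distrib, Finset.sum_sub_distrib, Finset.sum_mul, Nat.cast_sum,
      Nat.cast_add, Nat.cast_mul, Nat.cast_one]
    rw [Finset.sum_comm (s := T)]
    ring
  · have h6 := sup _ w hw
    have h7 : Cs (b + 2) w w₀ → R w (w + Pi.single l 1) := fun e =>
      .single (Or.inl ⟨h6, l, rfl, w₀, h4, e, hl⟩)
    exact ⟨fun e => Finset.mem_filter.2 ⟨(hs w h6).2 l, R.trans (R.symm (h7 fun j =>
      ((h5 w e).symm j).trans (by linarith))) (Finset.mem_filter.1 e).2⟩, fun e => Finset.mem_filter.2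
        ⟨(hs w h6).1, R.trans (h7 ((cs_single w l).trans (h5 _ e).symm (by linarith)))
          (Finset.mem_filter.1 e).2⟩⟩

end RB

end

end Pool.Agent.P.MP_b91a16_ag
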