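import Pool.Agent.P.MP_b91a16_ag.Bern

/-! Formal multinomial expansions of the powers `f^(s+k)`. -/

set_option linter.unusedSectionVars false

open MvPolynomial

namespace Pool.Agent.P.MP_b91a16_ag

noncomputable section

variable {F : Type} [Field F] {σ ι : Type} [Fintype σ] [DecidableEq σ] [Fintype ι] [DecidableEq ι]

/-- Falling factorials of integer length. -/
def rho (x : F) (c : ℤ) : F :=
  if 0 ≤ c then ∏ l ∈ Finset.range c.toNat, (x - l)
  else (∏ l ∈ Finset.range (-c).toNat, (x + l + 1))⁻¹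

theorem rho_zero (x : F) : rho x 0 = 1 := by simp [rho]

theorem rho_succ {x : F} (hx : ∀ c : ℤ, x - c ≠ 0) (c : ℤ) :
    rho x (c + 1) = (x - c) * rho x c := by
  rcases le_or_gt 0 c with h | h
  · obtain ⟨l, rfl⟩ := Int.eq_ofNat_of_zero_le h
    have : ((l : ℤ) + 1).toNat = l + 1 := by omega
    simp only [rho, if_pos h, if_pos (show (0 : ℤ) ≤ l + 1 by omega), this, Int.toNat_natCast,
      Finset.prod_range_succ, Int.cast_natCast]
    ring
  · obtain ⟨l, hl⟩ := Int.eq_ofNat_of_zero_le (show 0 ≤ -c - 1 by omega)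
    obtain rfl : c = -(l : ℤ) - 1 := by omega
    have h1 := hx (-(l : ℤ) - 1)
    have e1 : x - ((-(l : ℤ) - 1 : ℤ) : F) = x + l + 1 := by push_cast; ring
    have e2 : (-(-(l : ℤ) - 1)).toNat = l + 1 := by omega
    have e3 : rho x (-(l : ℤ) - 1 + 1) = (∏ l ∈ Finset.range l, (x + l + 1))⁻¹ := by
      rcases l with _ | l
      · simp [rho]
      · have : (-(-((l + 1 : ℕ) : ℤ) - 1 + 1)).toNat = l + 1 := by omega
        rw [rho, if_neg (by omega), this]
    rw [e1] at h1
    rw [e3, rho, if_neg (by omega), e1, e2, Finset.prod_range_succ, mul_inv, mul_comm _ (x + l + 1)⁻¹,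
      ← mul_assoc, mul_inv_cancel₀ h1, one_mul]

theorem rho_ne_zero {x : F} (hx : ∀ c : ℤ, x - c ≠ 0) (c : ℤ) : rho x c ≠ 0 := by
  induction c using Int.induction_on with
  | zero => simp [rho_zero]
  | succ l ih => rw [rho_succ hx]; exact mul_ne_zero (hx _) ih
  | pred l ih =>
    intro h
    have := rho_succ hx (-(l : ℤ) - 1)
    rw [h, mul_zero, sub_add_cancel] at this
    exact ih this

def shift (e : σ → ℤ) : Module.End F ((σ → ℤ) → F) := LinearMap.funLeft F F fun m => m + e

/-- Polynomials act on formal series by shifts. -/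
def act : MvPolynomial σ F →ₐ[F] Module.End F ((σ → ℤ) → F) :=
  AddMonoidAlgebra.lift F _ (σ →₀ ℕ)
    { toFun := fun e => shift fun j => (e.toAdd j : ℤ)
      map_one' := by
        ext G m
        simp [shift, LinearMap.funLeft, show (fun _ : σ => (0 : ℤ)) = 0 from rfl]
      map_mul' := fun e e' => by
        refine LinearMap.ext fun G => funext fun m => ?_
        simp only [shift, Module.End.mul_apply, LinearMap.funLeft_apply]
        congr 1
        ext j
        simp [add_assoc] }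

theorem act_monomial (e : σ →₀ ℕ) (c : F) (G : (σ → ℤ) → F) (m : σ → ℤ) :
    act (monomial e c) G m = c * G (m + fun j => (e j : ℤ)) := by
  have : act (monomial e c) = c • shift (F := F) fun j => (e j : ℤ) :=
    AddMonoidAlgebra.lift_single _ _ _
  rw [this]
  rfl

theorem act_X (j : σ) (G : (σ → ℤ) → F) (m : σ → ℤ) :
    act (X j : MvPolynomial σ F) G m = G (m + Pi.single j 1) := by
  rw [X, act_monomial, one_mul]
  congr 2
  ext j'
  simp only [Finsupp.single_apply, Pi.single_apply, eq_comm]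
  split_ifs <;> rfl

theorem act_C (c : F) (G : (σ → ℤ) → F) : act (C c : MvPolynomial σ F) G = c • G := by
  rw [← algebraMap_eq, AlgHom.commutes, Module.algebraMap_end_apply]

theorem act_prod (e : σ → ℕ) (G : (σ → ℤ) → F) (m : σ → ℤ) :
    act (∏ j, X j ^ e j : MvPolynomial σ F) G m = G (m + fun j => (e j : ℤ)) := by
  have : (∏ j, X j ^ e j : MvPolynomial σ F) =
      monomial (Finsupp.equivFunOnFinite.symm e) 1 := by
    rw [monomial_eq, C_1, one_mul, Finsupp.prod_fintype _ _ fun _ => pow_zero _]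
    rfl
  rw [this, act_monomial, one_mul]
  rfl

/-- The derivative on formal series `∑ G(m) x^(ℓ - m)`. -/
def der (ℓ : σ → F) (j : σ) : Module.End F ((σ → ℤ) → F) where
  toFun G m := (ℓ j + 1 - m j) * G (m - Pi.single j 1)
  map_add' G G' := by ext m; simp [mul_add]
  map_smul' c G := by ext m; simp [mul_left_comm]

theorem der_apply (ℓ : σ → F) (j : σ) (G : (σ → ℤ) → F) (m : σ → ℤ) :
    der ℓ j G m = (ℓ j + 1 - m j) * G (m - Pi.single j 1) := rfl

theorem der_act (ℓ : σ → F) (j : σ) (g : MvPolynomial σ F) (G : (σ → ℤ) → F) :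
    der ℓ j (act g G) = act (pderiv j g) G + act g (der ℓ j G) := by
  induction g using MvPolynomial.induction_on generalizing G with
  | C c => simp
  | add p q hp hq => simp only [map_add, LinearMap.add_apply, hp, hq]; abel
  | mul_X p j' hp =>
    have h1 : der ℓ j (act (X j' : MvPolynomial σ F) G) =
        act (pderiv j (X j' : MvPolynomial σ F)) G + act (X j' : MvPolynomial σ F) (der ℓ j G) := by
      ext m
      simp only [der_apply, act_X, Pi.add_apply, pderiv_X]
      by_cases h : j' = j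
      · subst h
        simp
        ring
      · simp [h, Ne.symm h, sub_add_eq_add_sub]
    rw [map_mul, Module.End.mul_apply, hp, h1, Derivation.leibniz]
    rw [smul_eq_mul, smul_eq_mul, mul_comm (X j')]
    simp only [map_add, map_mul, LinearMap.add_apply, Module.End.mul_apply]
    abel

variable (u : ι → σ → ℕ) (a θ : ι → F)

def ell (c : ι → ℤ) : σ → ℤ := fun j => ∑ i, u i j * c i

def Gam (c : ι → ℤ) : F :=
  (∏ i, rho (θ i) (c i) * a i ^ (-c i)) / rho (∑ i, θ i) (∑ i, c i)

open Classical in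
/-- The coefficients of `f^(s+κ)`. -/
def gam (κ : ℤ) (m : σ → ℤ) : F :=
  if h : ∃ c, ell u c = m ∧ ∑ i, c i = -κ then Gam a θ h.choose else 0

theorem ell_inj (hu : Dual u) {c c' : ι → ℤ} (h : ell u c = ell u c')
    (h' : ∑ i, c i = ∑ i, c' i) : c = c' := by
  ext i
  obtain ⟨ξ, ξ₀, hξ⟩ := hu i
  have key : ∀ d : ι → ℤ, (d i : ℚ) = ∑ j, ξ j * (ell u d j : ℚ) + ξ₀ * ((∑ i, d i : ℤ) : ℚ) := by
    intro d
    have : ∑ i', (if i' = i then 1 else 0) * (d i' : ℚ) = d i := by simp
    rw [← this]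
    simp only [← hξ, ell, add_mul, Finset.sum_add_distrib, Finset.sum_mul]
    push_cast
    simp only [Finset.mul_sum]
    rw [Finset.sum_comm]
    simp only [mul_assoc]
  have := key c
  rw [h, h', ← key c'] at this
  exact_mod_cast this

theorem gam_eq (hu : Dual u) (c : ι → ℤ) {κ : ℤ} (hc : ∑ i, c i = -κ) :
    gam u a θ κ (ell u c) = Gam a θ c := by
  have h : ∃ c', ell u c' = ell u c ∧ ∑ i, c' i = -κ := ⟨c, rfl, hc⟩
  rw [gam, dif_pos h, ell_inj u hu h.choose_spec.1 (h.choose_spec.2.trans hc.symm)]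

theorem ell_add_single (c : ι → ℤ) (i : ι) (t : ℤ) :
    ell u (c + Pi.single i t) = ell u c + fun j => t * (u i j : ℤ) := by
  ext j
  simp [ell, mul_add, Finset.sum_add_distrib, Pi.single_apply, mul_comm]

variable {u a θ}

theorem Gam_succ (ha : ∀ i, a i ≠ 0) (hθ : ∀ i (c : ℤ), θ i - c ≠ 0)
    (hs : ∀ c : ℤ, ∑ i, θ i - c ≠ 0) (c : ι → ℤ) (i : ι) :
    (∑ i, θ i - (∑ i, c i : ℤ)) * a i * Gam a θ (c + Pi.single i 1) =
      (θ i - c i) * Gam a θ c := by
  have e1 : ∑ i', (c + Pi.single i 1 : ι → ℤ) i' = ∑ i', c i' + 1 := by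
    simp [Finset.sum_add_distrib]
  have e2 : ∏ i' ∈ Finset.univ.erase i, rho (θ i') ((c + Pi.single i 1 : ι → ℤ) i') *
      a i' ^ (-(c + Pi.single i 1 : ι → ℤ) i') =
      ∏ i' ∈ Finset.univ.erase i, rho (θ i') (c i') * a i' ^ (-c i') :=
    Finset.prod_congr rfl fun i' hi' => by simp [Finset.ne_of_mem_erase hi']
  rw [Gam, Gam, e1, rho_succ hs, ← Finset.mul_prod_erase _ _ (Finset.mem_univ i),
    ← Finset.mul_prod_erase _ (fun i' => rho (θ i') (c i') * a i' ^ (-c i')) (Finset.mem_univ i),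
    e2]
  simp only [Pi.add_apply, Pi.single_eq_same]
  rw [rho_succ (hθ i), neg_add, zpow_add₀ (ha i), zpow_neg_one]
  have h1 := ha i
  have h2 := hs (∑ i, c i)
  have h3 := rho_ne_zero hs (∑ i, c i)
  field_simp

theorem gam_step (hu : Dual u) (ha : ∀ i, a i ≠ 0) (hθ : ∀ i (c : ℤ), θ i - c ≠ 0)
    (hs : ∀ c : ℤ, ∑ i, θ i - c ≠ 0) (κ : ℤ) (m : σ → ℤ) (v : ι → ℤ) (t : ℤ)
    (ht : ∀ c, ell u c = m → ∑ i, c i = -κ → ∑ i, v i * c i = t) :
    (∑ i, θ i + κ) * ∑ i, v i * a i * gam u a θ (κ - 1) (m + fun j => (u i j : ℤ)) =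
      (∑ i, v i * θ i - t) * gam u a θ κ m := by
  by_cases h : ∃ c, ell u c = m ∧ ∑ i, c i = -κ
  · obtain ⟨c, rfl, hc⟩ := h
    have e : ∀ i, gam u a θ (κ - 1) (ell u c + fun j => (u i j : ℤ)) =
        Gam a θ (c + Pi.single i 1) := by
      intro i
      rw [← gam_eq u a θ hu (c + Pi.single i 1) (κ := κ - 1)
        (by simp [Finset.sum_add_distrib, hc]; ring), ell_add_single]
      simp
    rw [gam_eq u a θ hu c hc, ← ht c rfl hc, Finset.mul_sum]
    push_cast
    rw [← Finset.sum_sub_distrib, Finset.sum_mul]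
    refine Finset.sum_congr rfl fun i _ => ?_
    have := Gam_succ ha hθ hs c i
    rw [hc] at this
    push_cast at this
    rw [e]
    linear_combination (v i) * this
  · have e : ∀ i, gam u a θ (κ - 1) (m + fun j => (u i j : ℤ)) = 0 := by
      intro i
      refine dif_neg ?_
      rintro ⟨c, h1, h2⟩
      refine h ⟨c + Pi.single i (-1), ?_, by simp [Finset.sum_add_distrib, h2]; ring⟩
      rw [ell_add_single, h1]
      ext j
      simp
    rw [show gam u a θ κ m = 0 from dif_neg h]
    simp [e]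

theorem act_fpoly (hu : Dual u) (ha : ∀ i, a i ≠ 0) (hθ : ∀ i (c : ℤ), θ i - c ≠ 0)
    (hs : ∀ c : ℤ, ∑ i, θ i - c ≠ 0) (κ : ℤ) :
    act (fpoly u a) (gam u a θ (κ - 1)) = gam u a θ κ := by
  ext m
  have h := gam_step hu ha hθ hs κ m 1 (-κ) fun c _ hc => by simpa using hc
  simp only [Pi.one_apply, Int.cast_one, one_mul, Int.cast_neg, sub_neg_eq_add] at h
  have h2 : ∑ i, θ i + κ ≠ 0 := by simpa using hs (-κ)
  rw [← mul_left_cancel₀ h2 h]
  simp [fpoly, map_sum, act_prod, Finset.sum_apply]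

theorem X_mul_pderiv_fpoly (j : σ) :
    X j * pderiv j (fpoly u a) = fpoly u fun i => u i j * a i := by
  simp only [fpoly, map_sum, Finset.mul_sum]
  refine Finset.sum_congr rfl fun i _ => ?_
  have : (∏ j, X j ^ u i j : MvPolynomial σ F) =
      monomial (Finsupp.equivFunOnFinite.symm (u i)) 1 := by
    rw [monomial_eq, C_1, one_mul, Finsupp.prod_fintype _ _ fun _ => pow_zero _]
    rfl
  rw [this, C_mul_monomial, C_mul_monomial, X_mul_pderiv_monomial, smul_monomial]
  simp

theorem der_gam (hu : Dual u) (ha : ∀ i, a i ≠ 0) (hθ : ∀ i (c : ℤ), θ i - c ≠ 0)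
    (hs : ∀ c : ℤ, ∑ i, θ i - c ≠ 0) (κ : ℤ) (j : σ) :
    der (fun j => ∑ i, u i j * θ i) j (gam u a θ κ) =
      (∑ i, θ i + κ) • act (pderiv j (fpoly u a)) (gam u a θ (κ - 1)) := by
  ext m
  obtain ⟨m, rfl⟩ : ∃ m', m = m' + Pi.single j 1 := ⟨m - Pi.single j 1, by simp⟩
  have h := gam_step hu ha hθ hs κ m (fun i => u i j) (m j) fun c hc _ => by rw [← hc]; rfl
  rw [Pi.smul_apply, ← act_X j (act _ _), ← Module.End.mul_apply, ← map_mul, X_mul_pderiv_fpoly,
    der_apply, add_sub_cancel_right]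
  simp only [Int.cast_natCast] at h
  simp only [fpoly, map_sum, map_mul act, act_C, act_prod, Finset.sum_apply, LinearMap.sum_apply,
    Module.End.mul_apply, Pi.smul_apply, smul_eq_mul, h, Pi.add_apply, Pi.single_eq_same]
  push_cast
  ring

/-- The factor produced by differentiating `x^(ℓ - m)` down to the exponent `ℓ`. -/
def mult (ℓ : σ → F) (m : σ → ℤ) : F :=
  ∏ j, ∏ l ∈ Finset.range (-m j).toNat, (ℓ j + l + 1)

theorem mult_sub (ℓ : σ → F) (m : σ → ℤ) (j : σ) :
    mult ℓ (m - Pi.single j 1) = (if m j ≤ 0 then ℓ j + 1 - m j else 1) * mult ℓ m := by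
  rw [mult, mult, ← Finset.mul_prod_erase _ _ (Finset.mem_univ j),
    ← Finset.mul_prod_erase _ (fun j => ∏ l ∈ Finset.range (-m j).toNat, (ℓ j + l + 1))
      (Finset.mem_univ j), ← mul_assoc]
  congr 1
  · simp only [Pi.sub_apply, Pi.single_eq_same]
    split_ifs with h
    · obtain ⟨l, hl⟩ := Int.eq_ofNat_of_zero_le (show 0 ≤ -m j by omega)
      rw [show (-(m j - 1)).toNat = l + 1 by omega, show (-m j).toNat = l by omega,
        Finset.prod_range_succ, show m j = -(l : ℤ) by omega]
      push_cast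
      ring
    · rw [show (-(m j - 1)).toNat = 0 by omega, show (-m j).toNat = 0 by omega, one_mul]
  · exact Finset.prod_congr rfl fun j' hj' => by simp [Finset.ne_of_mem_erase hj']

theorem mem_of_bernstein {k R : Type} [Field k] [CharZero k] [CommRing R] [Algebra k R]
    [Algebra R F] [Algebra k F] [IsScalarTower k R F] {n : ℕ} {u : ι → Fin n → ℕ} {a : ι → k}
    {θ : ι → R} (hu : Dual u) (ha : ∀ i, a i ≠ 0) (hf : fpoly u a ≠ 0)
    (hθ : ∀ i (c : ℤ), algebraMap R F (θ i) - c ≠ 0)
    (hs : ∀ c : ℤ, ∑ i, algebraMap R F (θ i) - c ≠ 0) (J : Submodule R F)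
    (hJ : ∀ c : ι → ℤ, ∑ i, c i = -1 →
      mult (fun j => ∑ i, u i j * algebraMap R F (θ i)) (ell u c) *
        Gam (fun i => algebraMap k F (a i)) (fun i => algebraMap R F (θ i)) c ∈ J)
    {b : Polynomial k} (hb : BernsteinEq (fpoly u a) b) :
    algebraMap R F (Polynomial.aeval (∑ i, θ i) b) ∈ J := by
  set θ' : ι → F := fun i => algebraMap R F (θ i) with hθ'
  set a' : ι → F := fun i => algebraMap k F (a i) with ha'
  set ℓ : Fin n → F := fun j => ∑ i, u i j * θ' i with hℓ
  have ha'' : ∀ i, a' i ≠ 0 := fun i => (map_ne_zero _).2 (ha i)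
  let φ : Polynomial k →+* F := (algebraMap R F).comp (Polynomial.aeval (∑ i, θ i)).toRingHom
  have hφ : ∀ p, φ p = algebraMap R F (Polynomial.aeval (∑ i, θ i) p) := fun _ => rfl
  have hlift : map φ (lift (fpoly u a)) = fpoly u a' := by
    simp [lift, fpoly, hφ, ha', ← IsScalarTower.algebraMap_apply]
  have hJm : ∀ (r : R) x, x ∈ J → algebraMap R F r * x ∈ J := fun r x hx => by
    rw [← Algebra.smul_def]
    exact J.smul_mem r hx
  have hℓR : ∀ j (t : ℤ), ∃ r : R, algebraMap R F r = ℓ j + 1 - t := fun j t =>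
    ⟨∑ i, u i j * θ i + 1 - t, by simp [hℓ, hθ']⟩
  have hstep : ∀ κ, act (fpoly u a') (gam u a' θ' (κ - 1)) = gam u a' θ' κ :=
    act_fpoly hu ha'' hθ hs
  obtain ⟨K, hK⟩ := bern_closure hf hb
    (fun K g => ∀ m, mult ℓ m * act (map φ g) (gam u a' θ' (-K)) m ∈ J)
    (fun m => by
      have := hstep 1
      simp only [sub_self] at this
      rw [hlift, Nat.cast_zero, neg_zero, this]
      by_cases h : ∃ c, ell u c = m ∧ ∑ i, c i = -1
      · obtain ⟨c, rfl, hc⟩ := h
        rw [gam_eq u a' θ' hu c hc]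
        exact hJ c hc
      · rw [gam, dif_neg h, mul_zero]
        exact J.zero_mem)
    (fun K g g' h h' m => by
      simp only [map_add, LinearMap.add_apply, Pi.add_apply, mul_add]
      exact J.add_mem (h m) (h' m))
    (fun K p g h m => by
      rw [map_mul, map_C, map_mul, Module.End.mul_apply, act_C, Pi.smul_apply, smul_eq_mul,
        mul_left_comm]
      exact hJm _ _ (h m))
    (fun K j g h m => by
      rw [map_mul, map_X, map_mul, Module.End.mul_apply, act_X]
      have e := mult_sub ℓ (m + Pi.single j 1) j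
      rw [add_sub_cancel_right] at e
      rw [e, mul_assoc]
      split_ifs
      · obtain ⟨r, hr⟩ := hℓR j ((m + Pi.single j 1 : Fin n → ℤ) j)
        rw [← hr]
        exact hJm _ _ (h _)
      · rw [one_mul]
        exact h _)
    (fun K g h m => by
      rw [map_mul, hlift, mul_comm (fpoly u a'), map_mul, Module.End.mul_apply,
        show (-((K + 1 : ℕ) : ℤ)) = -K - 1 by push_cast; ring, hstep]
      exact h m)
    (fun K j g h m => by
      have e : act (map φ (lift (fpoly u a) * pderiv j g +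
          C (Polynomial.X - (K : Polynomial k)) * g * pderiv j (lift (fpoly u a))))
          (gam u a' θ' (-((K + 1 : ℕ) : ℤ))) = der ℓ j (act (map φ g) (gam u a' θ' (-K))) := by
        rw [der_act, der_gam (θ := θ') hu ha'' hθ hs, map_add, map_mul, map_mul, map_mul, ← pderiv_map,
          ← pderiv_map, hlift, map_C, mul_comm (fpoly u a'),
          show (-((K + 1 : ℕ) : ℤ)) = -K - 1 by push_cast; ring]
        simp only [map_add, map_mul, LinearMap.add_apply, Module.End.mul_apply, hstep, act_C,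
          map_smul]
        congr 2
        rw [hφ]
        simp [hθ', sub_eq_add_neg]
      rw [e, der_apply]
      have e2 := mult_sub ℓ m j
      split_ifs at e2
      · rw [← mul_assoc, mul_comm (mult ℓ m), ← e2]
        exact h _
      · obtain ⟨r, hr⟩ := hℓR j (m j)
        rw [one_mul] at e2
        rw [← hr, mul_left_comm, ← e2]
        exact hJm _ _ (h _))
  have e : ∀ L : ℕ, act (fpoly u a' ^ L) (gam u a' θ' (-L)) = gam u a' θ' 0 := by
    intro L
    induction L with
    | zero => simp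
    | succ L ih =>
      rw [pow_succ, map_mul, Module.End.mul_apply,
        show (-((L + 1 : ℕ) : ℤ)) = -L - 1 by push_cast; ring, hstep, ih]
  have h0 := hK 0
  rw [map_mul, map_pow, hlift, map_C, map_mul, Module.End.mul_apply, e, act_C, Pi.smul_apply] at h0
  have e0 : gam u a' θ' 0 0 = 1 := by
    have := gam_eq u a' θ' hu 0 (κ := 0) (by simp)
    rw [show ell u 0 = 0 by ext j; simp [ell]] at this
    simp [this, Gam, rho_zero]
  simpa [e0, mult, hφ] using h0

end

end Pool.Agent.P.MP_b91a16_ag
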