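import Pool.Agent.P.MP_b91a16_ag.Tau

/-! The real polyhedron dual to the Newton polyhedron. -/

set_option linter.unusedSectionVars false

open Filter Topology

namespace Pool.Agent.P.MP_b91a16_ag

noncomputable section

variable {σ ι : Type} [Fintype σ] [DecidableEq σ] [Fintype ι] [DecidableEq ι]
variable (u : ι → σ → ℕ)

/-- Normal vectors of the constraints. -/
def nn : σ ⊕ ι → σ → ℕ := Sum.elim (fun j' j => if j = j' then 1 else 0) u

def lin (g : σ ⊕ ι) : (σ → ℝ) →L[ℝ] ℝ := ∑ j, (nn u g j : ℝ) • ContinuousLinearMap.proj j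

/-- Slack of a real point. -/
def zr (g : σ ⊕ ι) (ω : σ → ℝ) : ℝ := lin u g ω - Sum.elim (fun _ => 0) (fun _ => 1) g

theorem lin_apply (g : σ ⊕ ι) (v : σ → ℝ) : lin u g v = ∑ j, (nn u g j : ℝ) * v j := by
  simp [lin]

theorem lin_single (g : σ ⊕ ι) (c : σ) (s : ℝ) : lin u g (Pi.single c s) = nn u g c * s := by
  simp [lin_apply, Pi.single_apply]

theorem zr_inl (j : σ) (ω : σ → ℝ) : zr u (Sum.inl j) ω = ω j := by
  simp [zr, lin_apply, nn]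

theorem zr_inr (i : ι) (ω : σ → ℝ) : zr u (Sum.inr i) ω = ∑ j, (u i j : ℝ) * ω j - 1 := by
  simp [zr, lin_apply, nn]

theorem zr_add (g : σ ⊕ ι) (ω v : σ → ℝ) : zr u g (ω + v) = zr u g ω + lin u g v := by
  simp only [zr, map_add]
  ring

@[fun_prop] theorem zr_continuous (g : σ ⊕ ι) : Continuous (zr u g) :=
  (lin u g).continuous.sub continuous_const

theorem zr_hasFDerivAt (g : σ ⊕ ι) (ω : σ → ℝ) : HasFDerivAt (zr u g) (lin u g) ω :=
  (lin u g).hasFDerivAt.sub_const _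

def Near (δ : ℝ) (Y : Finset (σ ⊕ ι)) (ω : σ → ℝ) : Prop :=
  (∀ g, -δ ≤ zr u g ω) ∧ ∀ g ∈ Y, zr u g ω ≤ δ

def Face (Y : Finset (σ ⊕ ι)) : Prop := ∃ ω, Near u 0 Y ω

/-- Every variable occurs in one of the constraints. -/
def Bdd (Y : Finset (σ ⊕ ι)) : Prop := ∀ j, ∃ g ∈ Y, nn u g j ≠ 0

def tot : ℝ := ∑ g, ∑ j, (nn u g j : ℝ)

variable {u}

theorem Near.mono {δ δ' : ℝ} {Y Y' : Finset (σ ⊕ ι)} {ω : σ → ℝ} (h : Near u δ Y ω) (hδ : δ ≤ δ')
    (hY : Y' ⊆ Y) : Near u δ' Y' ω :=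
  ⟨fun g => by linarith [h.1 g], fun g hg => (h.2 g (hY hg)).trans hδ⟩

theorem Near.eq_zero {Y : Finset (σ ⊕ ι)} {ω : σ → ℝ} (h : Near u 0 Y ω) {g : σ ⊕ ι}
    (hg : g ∈ Y) : zr u g ω = 0 :=
  le_antisymm (h.2 g hg) (by simpa using h.1 g)

theorem Near.nonneg {Y : Finset (σ ⊕ ι)} {ω : σ → ℝ} (h : Near u 0 Y ω) (g : σ ⊕ ι) :
    0 ≤ zr u g ω := by simpa using h.1 g

theorem Bdd.mono {Y Y' : Finset (σ ⊕ ι)} (h : Bdd u Y) (hY : Y ⊆ Y') : Bdd u Y' := fun j =>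
  (h j).imp fun _ hg => ⟨hY hg.1, hg.2⟩

theorem sum_nn_le (g : σ ⊕ ι) : ∑ j, (nn u g j : ℝ) ≤ tot u :=
  Finset.single_le_sum (f := fun g => ∑ j, (nn u g j : ℝ))
    (fun _ _ => Finset.sum_nonneg fun _ _ => Nat.cast_nonneg _) (Finset.mem_univ g)

theorem sum_nn_le' (j : σ) : ∑ g, (nn u g j : ℝ) ≤ tot u :=
  Finset.sum_le_sum fun g _ => Finset.single_le_sum (f := fun j => (nn u g j : ℝ))
    (fun _ _ => Nat.cast_nonneg _) (Finset.mem_univ j)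

theorem nn_le (g : σ ⊕ ι) (j : σ) : (nn u g j : ℝ) ≤ tot u :=
  (Finset.single_le_sum (f := fun j => (nn u g j : ℝ)) (fun _ _ => Nat.cast_nonneg _)
    (Finset.mem_univ j)).trans (sum_nn_le g)

theorem tot_nonneg : 0 ≤ tot u :=
  Finset.sum_nonneg fun _ _ => Finset.sum_nonneg fun _ _ => Nat.cast_nonneg _

theorem Bdd.norm_le {Y : Finset (σ ⊕ ι)} (h : Bdd u Y) {ω : σ → ℝ} (hω : Near u 1 Y ω) :
    ‖ω‖ ≤ 2 + tot u := by
  have ht := tot_nonneg (u := u)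
  have h1 : ∀ j, -1 ≤ ω j := fun j => by simpa [zr_inl] using hω.1 (Sum.inl j)
  refine (pi_norm_le_iff_of_nonneg (by linarith)).2 fun j => ?_
  rw [Real.norm_eq_abs, abs_le]
  refine ⟨by linarith [h1 j], ?_⟩
  obtain ⟨g, hg, hj⟩ := h j
  have h2 : lin u g ω ≤ 2 := by
    have := hω.2 g hg
    rcases g with j | i <;> simp only [zr, Sum.elim_inl, Sum.elim_inr] at this <;> linarith
  have h3 : (nn u g j : ℝ) * (ω j + 1) ≤ ∑ j, (nn u g j : ℝ) * (ω j + 1) :=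
    Finset.single_le_sum (f := fun j => (nn u g j : ℝ) * (ω j + 1))
      (fun j _ => mul_nonneg (Nat.cast_nonneg _) (by linarith [h1 j])) (Finset.mem_univ j)
  simp only [mul_add, Finset.sum_add_distrib, mul_one, ← lin_apply] at h3
  have h4 : (1 : ℝ) ≤ nn u g j := by exact_mod_cast Nat.one_le_iff_ne_zero.2 hj
  nlinarith [sum_nn_le (u := u) g, h1 j]

theorem isClosed_near (δ : ℝ) (Y : Finset (σ ⊕ ι)) : IsClosed {ω | Near u δ Y ω} := by
  simp only [Near, Set.ofPred_and, Set.ofPred_forall]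
  exact (isClosed_iInter fun g => isClosed_le continuous_const (zr_continuous u g)).inter
    (isClosed_iInter fun g => isClosed_iInter fun _ =>
      isClosed_le (zr_continuous u g) continuous_const)

theorem Bdd.isCompact {Y : Finset (σ ⊕ ι)} (h : Bdd u Y) {δ : ℝ} (hδ : δ ≤ 1) :
    IsCompact {ω | Near u δ Y ω} :=
  (isCompact_closedBall 0 (2 + tot u)).of_isClosed_subset (isClosed_near δ Y) fun _ hω =>
    mem_closedBall_zero_iff.2 (h.norm_le (hω.mono hδ subset_rfl))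

theorem Bdd.exists_eta {Y₀ : Finset (σ ⊕ ι)} (h : Bdd u Y₀) :
    ∃ η : ℝ, 0 < η ∧ η ≤ 1 ∧ ∀ Y ω, Near u η (Y₀ ∪ Y) ω → Face u (Y₀ ∪ Y) := by
  have key : ∀ Y, ∀ᶠ δ in 𝓝 (0 : ℝ), ∀ ω ∈ {ω | Near u 1 Y₀ ω},
      Near u δ (Y₀ ∪ Y) ω → Face u (Y₀ ∪ Y) := by
    intro Y
    refine (h.isCompact le_rfl).eventually_forall_of_forall_eventually fun ω _ => ?_
    by_cases hF : Face u (Y₀ ∪ Y)
    · exact Eventually.of_forall fun _ _ => hF
    have h1 : ¬Near u 0 (Y₀ ∪ Y) ω := fun h => hF ⟨ω, h⟩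
    rw [Near, not_and_or] at h1
    push Not at h1
    rcases h1 with ⟨g, hg⟩ | ⟨g, hg, hg'⟩
    · have : ∀ᶠ z : ℝ × (σ → ℝ) in 𝓝 (0, ω), zr u g z.2 < -z.1 :=
        ContinuousAt.eventually_lt (by fun_prop) (by fun_prop) hg
      exact this.mono fun z hz h => absurd (h.1 g) (not_le.2 hz)
    · have : ∀ᶠ z : ℝ × (σ → ℝ) in 𝓝 (0, ω), z.1 < zr u g z.2 :=
        ContinuousAt.eventually_lt (by fun_prop) (by fun_prop) hg'
      exact this.mono fun z hz h => absurd (h.2 g hg) (not_le.2 hz)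
  have h2 := ((eventually_all.2 key).and (eventually_le_nhds (show (0 : ℝ) < 1 by norm_num))
    ).filter_mono (nhdsWithin_le_nhds (s := Set.Ioi 0))
  obtain ⟨η, ⟨h3, h4⟩, h5⟩ := (h2.and self_mem_nhdsWithin).exists
  exact ⟨η, h5, h4, fun Y ω hω => h3 Y ω (hω.mono h4 Finset.subset_union_left) hω⟩

theorem move {ω v : σ → ℝ} (hω : ∀ g, 0 ≤ zr u g ω) (hv : ∀ g, zr u g ω = 0 → 0 ≤ lin u g v) :
    ∀ᶠ s in 𝓝[>] (0 : ℝ), (∀ g, 0 ≤ zr u g (ω + s • v)) ∧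
      ∀ g, zr u g (ω + s • v) = 0 → zr u g ω = 0 ∧ lin u g v = 0 := by
  have key : ∀ g, ∀ᶠ s in 𝓝[>] (0 : ℝ), 0 ≤ zr u g (ω + s • v) ∧
      (zr u g (ω + s • v) = 0 → zr u g ω = 0 ∧ lin u g v = 0) := by
    intro g
    simp only [zr_add, map_smul, smul_eq_mul]
    by_cases h : zr u g ω = 0
    · filter_upwards [self_mem_nhdsWithin] with s hs
      have hs' : 0 < s := hs
      rw [h, zero_add]
      exact ⟨mul_nonneg hs'.le (hv g h), fun h' => ⟨rfl, (mul_eq_zero.1 h').resolve_left hs'.ne'⟩⟩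
    · have : ∀ᶠ s in 𝓝 (0 : ℝ), 0 < zr u g ω + s * lin u g v :=
        ContinuousAt.eventually_lt (by fun_prop) (by fun_prop)
          (by simpa using lt_of_le_of_ne (hω g) (Ne.symm h))
      exact (this.filter_mono nhdsWithin_le_nhds).mono fun s hs => ⟨hs.le, fun h' => absurd h' hs.ne'⟩
  exact (eventually_all.2 key).mono fun s hs => ⟨fun g => (hs g).1, fun g => (hs g).2⟩

variable (u) in
open Classical in
def tight (ω : σ → ℝ) : Finset (σ ⊕ ι) := Finset.univ.filter fun g => zr u g ω = 0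

theorem mem_tight {ω : σ → ℝ} {g : σ ⊕ ι} : g ∈ tight u ω ↔ zr u g ω = 0 := by simp [tight]

theorem Near.subset_tight {Y : Finset (σ ⊕ ι)} {ω : σ → ℝ} (h : Near u 0 Y ω) : Y ⊆ tight u ω :=
  fun _ hg => mem_tight.2 (h.eq_zero hg)

theorem Near.tight {Y : Finset (σ ⊕ ι)} {ω : σ → ℝ} (h : Near u 0 Y ω) : Near u 0 (tight u ω) ω :=
  ⟨h.1, fun _ hg => (mem_tight.1 hg).le⟩

theorem Apex.nn_eq {Z : Finset (σ ⊕ ι)} {i : ι} {j : σ} (h : Apex u Z i j) {g : σ ⊕ ι}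
    (hg : g ∈ Z) : nn u g j = if g = Sum.inr i then 1 else 0 := by
  rcases g with j' | i'
  · have : j ≠ j' := fun e => h.1 (e ▸ hg)
    simp [nn, this]
  · by_cases e : i' = i
    · simp [nn, e, h.2.1]
    · simp [nn, e, h.2.2 i' hg e]

theorem apex_of_nn {Z : Finset (σ ⊕ ι)} {i : ι} {j : σ} (h1 : u i j = 1)
    (h : ∀ g ∈ Z, g ≠ Sum.inr i → nn u g j = 0) : Apex u Z i j :=
  ⟨fun hj => by simpa [nn] using h _ hj, h1, fun i' hi' e => h _ hi' (by simpa using e)⟩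

def dir (c' c : σ) : σ → ℝ := Pi.single c' 1 - Pi.single c 1

theorem lin_dir (g : σ ⊕ ι) (c' c : σ) : lin u g (dir c' c) = nn u g c' - nn u g c := by
  simp [dir, lin_single]

theorem Apex.lin_dir_nonneg {Z : Finset (σ ⊕ ι)} {i : ι} {c c' : σ} (h : Apex u Z i c)
    (h1 : u i c' = 1) {g : σ ⊕ ι} (hg : g ∈ Z) : 0 ≤ lin u g (dir c' c) := by
  rw [lin_dir, h.nn_eq hg]
  split_ifs with e
  · simp [e, nn, h1]
  · simp

/-- Exchanging an apex variable against another variable leaves some tight constraint. -/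
theorem shrink {Y : Finset (σ ⊕ ι)} {ω : σ → ℝ} (hω : Near u 0 Y ω) {i : ι} {c c' : σ}
    (h : Apex u (tight u ω) i c) (h1 : u i c' = 1) (h2 : ¬Apex u (tight u ω) i c')
    (hY : ∀ g ∈ Y, nn u g c' = nn u g c) :
    ∃ s : ℝ, Near u 0 Y (ω + s • dir c' c) ∧
      (tight u (ω + s • dir c' c)).card < (tight u ω).card := by
  obtain ⟨s, h3, h4⟩ := (move (v := dir c' c) hω.nonneg
    fun g hg => h.lin_dir_nonneg h1 (mem_tight.2 hg)).exists
  refine ⟨s, ⟨fun g => by simpa using h3 g, fun g hg => ?_⟩, Finset.card_lt_card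
    ⟨fun g hg => mem_tight.2 (h4 g (mem_tight.1 hg)).1, fun h5 => h2 (apex_of_nn h1 ?_)⟩⟩
  · simp [zr_add, lin_dir, hY g hg, hω.eq_zero hg]
  · intro g hg e
    have := (h4 g (mem_tight.1 (h5 hg))).2
    rw [lin_dir, h.nn_eq hg, if_neg e] at this
    simpa using this

theorem exists_min_tight {P : (σ → ℝ) → Prop} (h : ∃ ω, P ω) :
    ∃ ω, P ω ∧ ∀ ω', P ω' → (tight u ω).card ≤ (tight u ω').card := by
  exact ⟨_, Function.argminOn_mem (fun ω => (tight u ω).card) {ω | P ω} h,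
    fun ω' hω' => Function.argminOn_le (fun ω => (tight u ω).card) {ω | P ω} hω'⟩

variable (u) in
def Good (Z : Finset (σ ⊕ ι)) : Prop := ∀ i j, Apex u Z i j → ∃ j', j' ≠ j ∧ Apex u Z i j'

variable (u) in
/-- The apices of the face `Z` come with two variables, and on every proper subface one of these
pairs is split. -/
structure Pairs (Z Bs : Finset (σ ⊕ ι)) (a b : Bs → σ) : Prop where
  sub : Bs ⊆ Z
  ha : ∀ x, ∀ g ∈ Z, nn u g (a x) = if g = x.1 then 1 else 0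
  hb : ∀ x, ∀ g ∈ Z, nn u g (b x) = if g = x.1 then 1 else 0
  ne : ∀ x, a x ≠ b x
  inr : ∀ x : Bs, ∃ i, x.1 = Sum.inr i
  lab : ∀ Y : Finset (σ ⊕ ι), Y.Nonempty → (∀ g ∈ Y, g ∉ Z) → Face u (Z ∪ Y) →
    ∃ x, ((∀ g ∈ Y, nn u g (a x) = 0) ∧ ∃ g ∈ Y, nn u g (b x) ≠ 0) ∨
      ((∀ g ∈ Y, nn u g (b x) = 0) ∧ ∃ g ∈ Y, nn u g (a x) ≠ 0)

theorem exists_pairs {Z₀ : Finset (σ ⊕ ι)} (hF : Face u Z₀) (hG : Good u Z₀) (hB : Bdd u Z₀)
    (hin : ∀ i j, Apex u Z₀ i j → Sum.inr i ∈ Z₀) :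
    ∃ (Z Bs : Finset (σ ⊕ ι)) (a b : Bs → σ), Z₀ ⊆ Z ∧ Face u Z ∧
      (∀ g, g ∈ Bs ↔ ∃ i j, g = Sum.inr i ∧ Apex u Z i j) ∧ Pairs u Z Bs a b := by
  classical
  obtain ⟨Z, hZ, hmax⟩ := Finset.exists_max_image
    (Finset.univ.filter fun Z => Z₀ ⊆ Z ∧ Face u Z ∧ Good u Z) Finset.card
    ⟨Z₀, by simp [hF, hG]⟩
  obtain ⟨h0, hF, hG⟩ := (Finset.mem_filter.1 hZ).2
  replace hin : ∀ i j, Apex u Z i j → Sum.inr i ∈ Z := fun i j h => h0 (hin i j (h.mono u h0))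
  have hbad : ∀ ω, Near u 0 Z ω → tight u ω ≠ Z →
      ∃ i j, Apex u (tight u ω) i j ∧ ∀ j', j' ≠ j → ¬Apex u (tight u ω) i j' := by
    intro ω hω hne
    by_contra h
    push Not at h
    exact hne (Finset.eq_of_subset_of_card_le hω.subset_tight (hmax _ (Finset.mem_filter.2
      ⟨Finset.mem_univ _, h0.trans hω.subset_tight, ⟨ω, hω.tight⟩, h⟩))).symm
  have huniq : ∀ i i' j, Apex u Z i j → Apex u Z i' j → i = i' := by
    intro i i' j h h'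
    by_contra e
    exact one_ne_zero (h.2.1.symm.trans (h'.2.2 i (hin i j h) e))
  have hthree : ∀ i a b c, Apex u Z i a → Apex u Z i b → Apex u Z i c → a ≠ b →
      c = a ∨ c = b := by
    intro i a b c ha hb hc hab
    by_contra hne
    push Not at hne
    obtain ⟨ω₁, h1, h2⟩ := ((hB.mono h0).isCompact zero_le_one).exists_isMinOn hF
      (continuous_apply c).continuousOn
    obtain ⟨ω, ⟨h3, h4⟩, h5⟩ := exists_min_tight (u := u)
      (P := fun ω => Near u 0 Z ω ∧ ω c = ω₁ c) ⟨ω₁, h1, rfl⟩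
    have h6 : ¬Apex u (tight u ω) i c := by
      intro h
      obtain ⟨s, ⟨h7, -⟩, hs⟩ := ((move (v := dir a c) h3.nonneg fun g hg =>
        h.lin_dir_nonneg ha.2.1 (mem_tight.2 hg)).and self_mem_nhdsWithin).exists
      have h8 : Near u 0 Z (ω + s • dir a c) := ⟨fun g => by simpa using h7 g, fun g hg => by
        simp [zr_add, lin_dir, ha.nn_eq hg, hc.nn_eq hg, h3.eq_zero hg]⟩
      have h9 : ω₁ c ≤ (ω + s • dir a c) c := h2 h8
      have hs' : 0 < s := hs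
      simp [dir, hne.1, h4] at h9
      linarith
    obtain ⟨i', d, h7, h8⟩ := hbad ω h3 fun e => h6 (e ▸ hc)
    have h9 := h7.mono u h3.subset_tight
    have hdc : d ≠ c := by
      rintro rfl
      exact h6 (huniq _ _ _ h9 hc ▸ h7)
    obtain ⟨d', h10, h11, h12⟩ : ∃ d', d' ≠ d ∧ d' ≠ c ∧ Apex u Z i' d' := by
      by_cases e : i' = i
      · subst e
        by_cases e' : a = d
        · exact ⟨b, fun e => hab (e'.trans e.symm), hne.2.symm, hb⟩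
        · exact ⟨a, e', hne.1.symm, ha⟩
      · obtain ⟨d', h10, h11⟩ := hG i' d h9
        exact ⟨d', h10, fun e' => e (huniq _ _ _ h11 (e' ▸ hc)), h11⟩
    obtain ⟨s, h13, h14⟩ := shrink h3 h7 h12.2.1 (h8 d' h10)
      fun g hg => by rw [h12.nn_eq hg, h9.nn_eq hg]
    exact (h5 _ ⟨h13, by simp [dir, h11.symm, hdc.symm, h4]⟩).not_gt h14
  let Bs : Finset (σ ⊕ ι) := Finset.univ.filter fun g => ∃ i j, g = Sum.inr i ∧ Apex u Z i j
  have hBs : ∀ g, g ∈ Bs ↔ ∃ i j, g = Sum.inr i ∧ Apex u Z i j := by simp [Bs]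
  have hch : ∀ x : Bs, ∃ i a b, x.1 = Sum.inr i ∧ Apex u Z i a ∧ Apex u Z i b ∧ a ≠ b := by
    intro x
    obtain ⟨i, j, e, h⟩ := (hBs x.1).1 x.2
    obtain ⟨j', h1, h2⟩ := hG i j h
    exact ⟨i, j', j, e, h2, h, h1⟩
  choose e a b he ha hb hab using hch
  refine ⟨Z, Bs, a, b, h0, hF, hBs, fun g hg => ?_, fun x g hg => he x ▸ (ha x).nn_eq hg,
    fun x g hg => he x ▸ (hb x).nn_eq hg, hab, fun x => ⟨_, he x⟩, fun Y hY hYZ hFY => ?_⟩
  · obtain ⟨i, j, rfl, h⟩ := (hBs g).1 hg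
    exact hin i j h
  obtain ⟨ω, h1, h2⟩ := exists_min_tight (u := u) hFY
  have h3 := h1.mono le_rfl Finset.subset_union_left
  have hYt : Y ⊆ tight u ω := Finset.subset_union_right.trans h1.subset_tight
  obtain ⟨i, d, h4, h5⟩ := hbad ω h3 fun e => hY.elim fun g hg => hYZ g hg (e ▸ hYt hg)
  have h6 := h4.mono u h3.subset_tight
  obtain ⟨x, rfl⟩ : ∃ x, i = e x :=
    ⟨⟨Sum.inr i, (hBs _).2 ⟨i, d, rfl, h6⟩⟩, Sum.inr_injective (he ⟨Sum.inr i, _⟩)⟩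
  have hmiss : ∀ g ∈ Y, nn u g d = 0 := fun g hg => by
    rw [h4.nn_eq (hYt hg), if_neg]
    rintro rfl
    exact hYZ _ hg (hin _ _ h6)
  have key : ∀ d', d' ≠ d → Apex u Z (e x) d' → ∃ g ∈ Y, nn u g d' ≠ 0 := by
    intro d' h7 h8
    by_contra h9
    push Not at h9
    obtain ⟨s, h10, h11⟩ := shrink h1 h4 h8.2.1 (h5 d' h7) fun g hg => by
      rcases Finset.mem_union.1 hg with hg | hg
      · rw [h8.nn_eq hg, h6.nn_eq hg]
      · rw [h9 g hg, hmiss g hg]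
    exact (h2 _ h10).not_gt h11
  rcases hthree _ _ _ _ (ha x) (hb x) h6 (hab x) with h7 | h7
  · exact ⟨x, Or.inl ⟨h7 ▸ hmiss, key _ (h7 ▸ (hab x).symm) (hb x)⟩⟩
  · exact ⟨x, Or.inr ⟨h7 ▸ hmiss, key _ (h7 ▸ hab x) (ha x)⟩⟩

end

end Pool.Agent.P.MP_b91a16_ag
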