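import Pool.Agent.P.MP_b91a16_ag.Series

/-! Cancellation of the candidate poles that are not allowed. -/

set_option linter.unusedSectionVars false

open MvPolynomial

namespace Pool.Agent.P.MP_b91a16_ag

noncomputable section

variable {σ ι : Type} [Fintype σ] [DecidableEq σ] [Fintype ι] [DecidableEq ι]

def fac (x : ℝ) (p : ℕ × ℕ) : Polynomial ℝ := 1 - Polynomial.C (x ^ p.1) * Polynomial.X ^ p.2

def AlM (x : ℝ) (Al : ℕ × ℕ → Prop) : Submonoid (Polynomial ℝ) :=
  Submonoid.closure (fac x '' {p | Al p})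

/-- Series that become polynomials after multiplication by allowed factors and a polynomial
outside the prime `m`. -/
def RR (x : ℝ) (Al : ℕ × ℕ → Prop) (m : Ideal (Polynomial ℝ)) [m.IsPrime] :
    Submodule (Polynomial ℝ) (PowerSeries ℝ) where
  carrier := {F | ∃ β ∈ m.primeCompl, ∃ D ∈ AlM x Al,
    ((β * D : Polynomial ℝ) : PowerSeries ℝ) * F ∈ PolyS}
  zero_mem' := ⟨1, one_mem _, 1, one_mem _, by rw [mul_zero]; exact zero_mem _⟩
  add_mem' := by
    rintro F F' ⟨β, hβ, D, hD, h⟩ ⟨β', hβ', D', hD', h'⟩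
    refine ⟨β * β', mul_mem hβ hβ', D * D', mul_mem hD hD', ?_⟩
    have := add_mem (mul_mem (coe_mem_PolyS (β' * D')) h) (mul_mem (coe_mem_PolyS (β * D)) h')
    simp only [Polynomial.coe_mul] at this ⊢
    convert this using 1
    ring
  smul_mem' := by
    rintro c F ⟨β, hβ, D, hD, h⟩
    refine ⟨β, hβ, D, hD, ?_⟩
    have := mul_mem (coe_mem_PolyS c) h
    rw [Algebra.smul_def, PowerSeries.algebraMap_apply', Algebra.algebraMap_self,
      PowerSeries.map_id]
    convert this using 1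
    simp only [id]
    ring

variable {x : ℝ} {Al : ℕ × ℕ → Prop} {m : Ideal (Polynomial ℝ)} [m.IsPrime]

theorem mem_RR_of_PolyS {F : PowerSeries ℝ} (h : F ∈ PolyS) : F ∈ RR x Al m :=
  ⟨1, one_mem _, 1, one_mem _, by simpa using h⟩

theorem mem_RR_of_fac {F : PowerSeries ℝ} {p : ℕ × ℕ} (hp : fac x p ∉ m ∨ Al p)
    (h : (fac x p : PowerSeries ℝ) * F ∈ RR x Al m) : F ∈ RR x Al m := by
  obtain ⟨β, hβ, D, hD, h⟩ := h
  rcases hp with hp | hp
  · refine ⟨β * fac x p, mul_mem hβ hp, D, hD, ?_⟩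
    simp only [Polynomial.coe_mul] at h ⊢
    convert h using 1
    ring
  · refine ⟨β, hβ, D * fac x p, mul_mem hD (Submonoid.subset_closure ⟨p, hp, rfl⟩), ?_⟩
    simp only [Polynomial.coe_mul] at h ⊢
    convert h using 1
    ring

variable (u : ι → σ → ℕ)

def GI (x : ℝ) (Al : ℕ × ℕ → Prop) (m : Ideal (Polynomial ℝ)) [m.IsPrime] :
    Ideal (MvPolynomial (σ ⊕ ι) ℝ) where
  carrier := {p | ∀ q, SS u x (q * p) ∈ RR x Al m}
  zero_mem' := fun q => by rw [mul_zero, map_zero]; exact zero_mem _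
  add_mem' := fun hp hp' q => by rw [mul_add, map_add]; exact add_mem (hp q) (hp' q)
  smul_mem' := fun c p hp q => by rw [smul_eq_mul, ← mul_assoc]; exact hp _

theorem one_sub_prod_mul_mem {A G : Type*} [CommRing A] (J : Ideal A) (p : A) (s : Finset G)
    (y : G → A) (n : G → ℕ) (h : ∀ g ∈ s, n g ≠ 0 → (1 - y g) * p ∈ J) :
    (1 - ∏ g ∈ s, y g ^ n g) * p ∈ J := by
  classical
  induction s using Finset.induction_on with
  | empty => simp
  | insert g s hg ih =>
    have h1 := ih fun g' hg' => h g' (Finset.mem_insert_of_mem hg')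
    have h2 : (1 - y g ^ n g) * p ∈ J := by
      by_cases hn : n g = 0
      · simp [hn]
      · rw [← mul_neg_geom_sum, mul_right_comm]
        exact J.mul_mem_right _ (h g (Finset.mem_insert_self _ _) hn)
    rw [Finset.prod_insert hg]
    have := J.add_mem h2 (J.mul_mem_left (y g ^ n g) h1)
    convert this using 1
    ring

def toFs (z : σ ⊕ ι → ℤ) : σ ⊕ ι →₀ ℕ := Finsupp.equivFunOnFinite.symm fun g => (z g).toNat

theorem toFs_apply (z : σ ⊕ ι → ℤ) (g : σ ⊕ ι) : toFs z g = (z g).toNat := rfl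

theorem monomial_eq_prod (β : σ ⊕ ι →₀ ℕ) :
    (monomial β (1 : ℝ) : MvPolynomial (σ ⊕ ι) ℝ) = ∏ g, X g ^ β g := by
  rw [monomial_eq, C_1, one_mul, Finsupp.prod_fintype _ _ fun _ => pow_zero _]

theorem rule_c {w : σ → ℕ} {N : ℕ} (hv : ∀ g, 0 ≤ zl u w N g)
    (hf : fac x (∑ j, w j, N) ∉ m ∨ Al (∑ j, w j, N)) {p : MvPolynomial (σ ⊕ ι) ℝ}
    (h : ∀ g, zl u w N g ≠ 0 → (1 - X g) * p ∈ GI u x Al m) : p ∈ GI u x Al m := by
  have hβ : ∀ g, (toFs (zl u w N) g : ℤ) = zl u w N g := fun g => Int.toNat_of_nonneg (hv g)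
  have h1 := one_sub_prod_mul_mem (GI u x Al m) p Finset.univ X (toFs (zl u w N))
    fun g _ hg => h g fun h0 => hg (by rw [toFs_apply, h0]; rfl)
  rw [← monomial_eq_prod] at h1
  intro q
  refine mem_RR_of_fac hf ?_
  have h2 := add_mem (h1 q) (mem_RR_of_PolyS (SS_shift u (x := x) w N _ hβ (q * p)))
  convert h2 using 1
  rw [show q * ((1 - monomial (toFs (zl u w N)) 1) * p) =
    q * p - q * p * monomial (toFs (zl u w N)) 1 by ring, map_sub]
  simp only [fac, Polynomial.coe_sub, Polynomial.coe_one, Polynomial.coe_mul, Polynomial.coe_C,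
    Polynomial.coe_pow, Polynomial.coe_X]
  ring

theorem zl_single_inl (j j' : σ) : zl u (Pi.single j 1) 0 (Sum.inl j') = if j' = j then 1 else 0 := by
  simp only [zl, Sum.elim_inl, Pi.single_apply]
  split_ifs <;> rfl

theorem zl_single_inr (j : σ) (i : ι) : zl u (Pi.single j 1) 0 (Sum.inr i) = u i j := by
  simp [zl, Pi.single_apply]

theorem zl_single_nonneg (j : σ) (g : σ ⊕ ι) : 0 ≤ zl u (Pi.single j 1) 0 g := by
  rcases g with j' | i
  · rw [zl_single_inl]
    split_ifs <;> simp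
  · rw [zl_single_inr]
    simp

theorem rule_b {i : ι} {j : σ} (hij : u i j = 1) {p : MvPolynomial (σ ⊕ ι) ℝ}
    (h : ∀ g, g ≠ Sum.inr i → zl u (Pi.single j 1) 0 g ≠ 0 → (1 - X g) * p ∈ GI u x Al m) :
    (X (Sum.inr i) - C x) * p ∈ GI u x Al m := by
  set z := zl u (Pi.single j 1) 0 with hz
  have hβ : ∀ g, (toFs z g : ℤ) = z g := fun g => Int.toNat_of_nonneg (zl_single_nonneg u j g)
  have h1 := one_sub_prod_mul_mem (GI u x Al m) p (Finset.univ.erase (Sum.inr i)) X (toFs z)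
    fun g hg hg' => h g (Finset.ne_of_mem_erase hg) fun h0 => hg' (by rw [toFs_apply, h0]; rfl)
  have h2 : monomial (toFs z) 1 - C x ∈ GI u x Al m := by
    intro q
    refine mem_RR_of_PolyS ?_
    have := SS_shift u (x := x) (Pi.single j 1) 0 _ hβ q
    rw [mul_sub, map_sub, mul_comm q (C x), ← smul_eq_C_mul, map_smul, PowerSeries.smul_eq_C_mul]
    simpa using this
  have h3 : toFs z (Sum.inr i) = 1 := by
    rw [toFs_apply, hz, zl_single_inr, hij]
    rfl
  rw [monomial_eq_prod, ← Finset.mul_prod_erase _ _ (Finset.mem_univ (Sum.inr i)), h3,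
    pow_one] at h2
  have := add_mem ((GI u x Al m).mul_mem_left (X (Sum.inr i)) h1)
    ((GI u x Al m).mul_mem_right p h2)
  convert this using 1
  ring

open Classical in
/-- The constraints that are tight on the whole face defined by `Z`. -/
def cl (Z : Finset (σ ⊕ ι)) : Finset (σ ⊕ ι) :=
  Finset.univ.filter fun g => ∀ w N, InC u Z w N → zl u w N g = 0

theorem mem_cl {Z : Finset (σ ⊕ ι)} {g : σ ⊕ ι} :
    g ∈ cl u Z ↔ ∀ w N, InC u Z w N → zl u w N g = 0 := by
  simp [cl]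

theorem subset_cl (Z : Finset (σ ⊕ ι)) : Z ⊆ cl u Z := fun g hg =>
  (mem_cl u).2 fun _ _ h => h.2 g hg

theorem cl_mono {Z Z' : Finset (σ ⊕ ι)} (h : Z ⊆ Z') : cl u Z ⊆ cl u Z' := fun _ hg =>
  (mem_cl u).2 fun w N hv => (mem_cl u).1 hg w N ⟨hv.1, fun g' hg' => hv.2 g' (h hg')⟩

theorem inC_cl {Z : Finset (σ ⊕ ι)} {w : σ → ℕ} {N : ℕ} : InC u (cl u Z) w N ↔ InC u Z w N :=
  ⟨fun h => ⟨h.1, fun g hg => h.2 g (subset_cl u Z hg)⟩,
    fun h => ⟨h.1, fun _ hg => (mem_cl u).1 hg w N h⟩⟩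

/-- The monomial `i` is linear in the variable `j`, which is free on the face `Z` and absent from
the other monomials that are tight on `Z`. -/
def Apex (Z : Finset (σ ⊕ ι)) (i : ι) (j : σ) : Prop :=
  Sum.inl j ∉ Z ∧ u i j = 1 ∧ ∀ i', Sum.inr i' ∈ Z → i' ≠ i → u i' j = 0

theorem Apex.mono {Z Z' : Finset (σ ⊕ ι)} (h : Z ⊆ Z') {i : ι} {j : σ} (ha : Apex u Z' i j) :
    Apex u Z i j :=
  ⟨fun hj => ha.1 (h hj), ha.2.1, fun i' hi' => ha.2.2 i' (h hi')⟩

theorem exists_interior (Z : Finset (σ ⊕ ι)) :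
    ∃ w N, InC u Z w N ∧ ∀ g, g ∉ cl u Z → 0 < zl u w N g := by
  have : ∀ s : Finset (σ ⊕ ι), ∃ w N, InC u Z w N ∧ ∀ g ∈ s, g ∉ cl u Z → 0 < zl u w N g := by
    intro s
    induction s using Finset.induction_on with
    | empty =>
      have h0 : ∀ g, zl u 0 0 g = 0 := fun g => by rcases g with j | i <;> simp [zl]
      exact ⟨0, 0, ⟨fun g => (h0 g).ge, fun g _ => h0 g⟩, by simp⟩
    | insert g s _ ih =>
      obtain ⟨w, N, h1, h2⟩ := ih
      by_cases hg : g ∈ cl u Z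
      · refine ⟨w, N, h1, fun g' hg' hg'' => ?_⟩
        rcases Finset.mem_insert.1 hg' with rfl | hg'
        · exact absurd hg hg''
        · exact h2 g' hg' hg''
      · rw [mem_cl] at hg
        push Not at hg
        obtain ⟨w', N', h3, h4⟩ := hg
        refine ⟨w + w', N + N', ⟨fun g' => ?_, fun g' hg' => ?_⟩, fun g' hg' hg'' => ?_⟩
        · rw [zl_add]
          exact add_nonneg (h1.1 g') (h3.1 g')
        · rw [zl_add, h1.2 g' hg', h3.2 g' hg', add_zero]
        · rw [zl_add]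
          rcases Finset.mem_insert.1 hg' with rfl | hg'
          · exact add_pos_of_nonneg_of_pos (h1.1 _) (lt_of_le_of_ne (h3.1 _) h4.symm)
          · exact add_pos_of_pos_of_nonneg (h2 g' hg' hg'') (h3.1 _)
  obtain ⟨w, N, h1, h2⟩ := this Finset.univ
  exact ⟨w, N, h1, fun g => h2 g (Finset.mem_univ g)⟩

/-- The faces all of whose apices have two linear variables give allowed poles. -/
def RootHyp (Al : ℕ × ℕ → Prop) : Prop :=
  ∀ (Z : Finset (σ ⊕ ι)) (w₀ : σ → ℕ) (N₀ : ℕ), InC u Z w₀ N₀ → (∀ g, g ∉ Z → 0 < zl u w₀ N₀ g) →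
    0 < N₀ → (∀ w N, InC u Z w N → (∑ j, w j) * N₀ = (∑ j, w₀ j) * N) →
    (∀ i j, Apex u Z i j → ∃ j', j' ≠ j ∧ Apex u Z i j') → Al (∑ j, w₀ j, N₀)

theorem ratio_eq (h0 : 0 < x) (h1 : x < 1) {p q : ℕ × ℕ} (hp : fac x p ∈ m) (hq : fac x q ∈ m) :
    p.1 * q.2 = q.1 * p.2 := by
  have e : ∀ r : ℕ × ℕ, fac x r ∈ m → Ideal.Quotient.mk m (Polynomial.C x) ^ r.1 *
      Ideal.Quotient.mk m Polynomial.X ^ r.2 = 1 := by
    intro r hr
    have := Ideal.Quotient.eq_zero_iff_mem.2 hr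
    simp only [fac, map_sub, map_one, map_mul, map_pow] at this
    exact (sub_eq_zero.1 this).symm
  have e1 := congrArg (· ^ q.2) (e p hp)
  have e2 := congrArg (· ^ p.2) (e q hq)
  simp only [mul_pow, ← pow_mul, one_pow] at e1 e2
  have e3 : Ideal.Quotient.mk m (Polynomial.C x) ^ (p.1 * q.2) =
      Ideal.Quotient.mk m (Polynomial.C x) ^ (q.1 * p.2) := by
    rw [mul_comm q.2 p.2] at e2
    linear_combination (Ideal.Quotient.mk m (Polynomial.C x) ^ (q.1 * p.2)) * e1 -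
      (Ideal.Quotient.mk m (Polynomial.C x) ^ (p.1 * q.2)) * e2
  have hinj : Function.Injective ((Ideal.Quotient.mk m).comp (Polynomial.C (R := ℝ))) :=
    RingHom.injective _
  have e4 : x ^ (p.1 * q.2) = x ^ (q.1 * p.2) := hinj (by simpa using e3)
  exact pow_right_injective₀ h0 h1.ne e4

theorem good_main (h0 : 0 < x) (h1 : x < 1) (hR : RootHyp u Al) (Z : Finset (σ ⊕ ι))
    (S : Finset ι) (hS : ∀ i j, Apex u (cl u Z) i j → i ∈ S) :
    xZ Z * ∏ i ∈ S, (X (Sum.inr i) - C x) ∈ GI u x Al m := by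
  induction hn : (cl u Z)ᶜ.card using Nat.strong_induction_on generalizing Z S with
  | _ n ih =>
  have step : ∀ g, g ∉ cl u Z → ∀ S' : Finset ι,
      (∀ i j, Apex u (cl u (insert g Z)) i j → i ∈ S') →
      (1 - X g) * (xZ Z * ∏ i ∈ S', (X (Sum.inr i) - C x)) ∈ GI u x Al m := by
    intro g hg S' hS'
    have hlt : (cl u (insert g Z))ᶜ.card < n := by
      rw [← hn]
      refine Finset.card_lt_card (Finset.compl_ssubset_compl.2 ⟨cl_mono u (Finset.subset_insert _ _),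
        fun h => hg (h (subset_cl u _ (Finset.mem_insert_self _ _)))⟩)
    have := ih _ hlt (insert g Z) S' hS' rfl
    rwa [xZ, Finset.prod_insert fun h => hg (subset_cl u Z h), mul_assoc] at this
  by_cases hA : ∀ w N, InC u Z w N → N = 0
  · intro q
    rw [mul_comm (xZ Z), ← mul_assoc]
    exact mem_RR_of_PolyS (SS_base u h0.le h1 Z hA _)
  by_cases hB : ∃ w N, InC u Z w N ∧ (fac x (∑ j, w j, N) ∉ m ∨ Al (∑ j, w j, N))
  · obtain ⟨w, N, hv, hf⟩ := hB
    exact rule_c u hv.1 hf fun g hg => step g (fun h => hg ((mem_cl u).1 h w N hv)) S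
      fun i j ha => hS i j (ha.mono u (cl_mono u (Finset.subset_insert _ _)))
  push Not at hA hB
  by_cases hC : ∃ i j, Apex u (cl u Z) i j ∧ ∀ j', Apex u (cl u Z) i j' → j' = j
  · obtain ⟨i, j, ha, huniq⟩ := hC
    rw [← Finset.mul_prod_erase _ _ (hS i j ha), mul_left_comm]
    refine rule_b u ha.2.1 fun g hg hg' => ?_
    have hbad : ∀ Z' : Finset (σ ⊕ ι), g ∈ Z' → ¬ Apex u Z' i j := by
      intro Z' hZ' ha'
      rcases g with j' | i'
      · rw [zl_single_inl] at hg'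
        obtain rfl : j' = j := by
          by_contra h
          exact hg' (if_neg h)
        exact ha'.1 hZ'
      · rw [zl_single_inr] at hg'
        exact hg' (by rw [ha'.2.2 i' hZ' fun h => hg (by rw [h])]; rfl)
    refine step g (fun h => hbad _ h ha) _ fun i' j' ha' => ?_
    have ha'' := ha'.mono u (cl_mono u (Finset.subset_insert g Z))
    refine Finset.mem_erase.2 ⟨?_, hS i' j' ha''⟩
    rintro rfl
    rw [huniq j' ha''] at ha'
    exact hbad _ (subset_cl u _ (Finset.mem_insert_self _ _)) ha'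
  · exfalso
    push Not at hC
    obtain ⟨w₁, N₁, hv₁, hN₁⟩ := hA
    obtain ⟨w₂, N₂, hv₂, hint⟩ := exists_interior u Z
    have hv₀ : InC u Z (w₂ + w₁) (N₂ + N₁) := ⟨fun g => by
        rw [zl_add]; exact add_nonneg (hv₂.1 g) (hv₁.1 g),
      fun g hg => by rw [zl_add, hv₂.2 g hg, hv₁.2 g hg, add_zero]⟩
    refine (hB _ _ hv₀).2 (hR (cl u Z) _ _ ((inC_cl u).2 hv₀) (fun g hg => ?_) (by omega)
      (fun w N hv => ?_) fun i j ha => ?_)
    · rw [zl_add]
      exact add_pos_of_pos_of_nonneg (hint g hg) (hv₁.1 g)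
    · exact ratio_eq h0 h1 (hB w N ((inC_cl u).1 hv)).1 (hB _ _ hv₀).1
    · obtain ⟨j', h1, h2⟩ := hC i j ha
      exact ⟨j', h2, h1⟩

theorem exists_AlM_of_forall {F : PowerSeries ℝ}
    (h : ∀ (m : Ideal (Polynomial ℝ)) [m.IsPrime], F ∈ RR x Al m) :
    ∃ D ∈ AlM x Al, (D : PowerSeries ℝ) * F ∈ PolyS := by
  let Ann : Ideal (Polynomial ℝ) :=
    { carrier := {β | ∃ D ∈ AlM x Al, ((β * D : Polynomial ℝ) : PowerSeries ℝ) * F ∈ PolyS}
      zero_mem' := ⟨1, one_mem _, by simp⟩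
      add_mem' := by
        rintro β β' ⟨D, hD, h⟩ ⟨D', hD', h'⟩
        refine ⟨D * D', mul_mem hD hD', ?_⟩
        have := add_mem (mul_mem (coe_mem_PolyS D') h) (mul_mem (coe_mem_PolyS D) h')
        simp only [Polynomial.coe_mul, Polynomial.coe_add] at this ⊢
        convert this using 1
        ring
      smul_mem' := by
        rintro c β ⟨D, hD, h⟩
        refine ⟨D, hD, ?_⟩
        have := mul_mem (coe_mem_PolyS c) h
        simp only [Polynomial.coe_mul, smul_eq_mul] at this ⊢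
        convert this using 1
        ring }
  have : Ann = ⊤ := by
    by_contra hne
    obtain ⟨m, hm, hle⟩ := Ideal.exists_le_maximal Ann hne
    have := hm.isPrime
    obtain ⟨β, hβ, D, hD, h⟩ := h m
    exact hβ (hle ⟨D, hD, h⟩)
  obtain ⟨D, hD, h⟩ : (1 : Polynomial ℝ) ∈ Ann := this ▸ Submodule.mem_top
  exact ⟨D, hD, by simpa using h⟩

end

end Pool.Agent.P.MP_b91a16_ag
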