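import Pool.Agent.P.MP_b91a16_ag.KeyLemma

/-! Classes of constructible sets, described through their points in field extensions. -/

open TensorProduct MvPolynomial

namespace Pool.Agent.P.MP_b91a16_ag

noncomputable section

variable {k : Type} [Field k] {ι ι' : Type}

abbrev Pred (k : Type) [Field k] (ι : Type) : Type 1 :=
  ∀ (K : Type) [Field K] [Algebra k K], (ι → K) → Prop

def Represents {A : Type} [CommRing A] [Algebra k A] (a : ι → A) (P : Pred k ι) : Prop :=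
  ∀ (K : Type) [Field K] [Algebra k K],
    (∀ ψ ψ' : A →ₐ[k] K, (∀ i, ψ (a i) = ψ' (a i)) → ψ = ψ') ∧
      ∀ x : ι → K, P K x ↔ ∃ ψ : A →ₐ[k] K, ∀ i, ψ (a i) = x i

def HasClass (P : Pred k ι) (c : K0 k) : Prop :=
  ∃ (A : Type) (_ : CommRing A) (_ : Algebra k A) (_ : Algebra.FiniteType k A) (a : ι → A),
    Represents a P ∧ cls k A = c

theorem Represents.cls_eq {A B : Type} [CommRing A] [Algebra k A] [Algebra.FiniteType k A]
    [CommRing B] [Algebra k B] [Algebra.FiniteType k B] {a : ι → A} {b : ι → B} {P : Pred k ι}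
    (ha : Represents a P) (hb : Represents b P) : cls k A = cls k B := by
  let I : Ideal (A ⊗[k] B) := Ideal.span (Set.range fun i => a i ⊗ₜ[k] (1 : B) - (1 : A) ⊗ₜ[k] b i)
  let mk : A ⊗[k] B →ₐ[k] (A ⊗[k] B) ⧸ I := Ideal.Quotient.mkₐ k I
  have hrel : ∀ i, mk (a i ⊗ₜ[k] (1 : B)) = mk ((1 : A) ⊗ₜ[k] b i) := fun i =>
    Ideal.Quotient.eq.2 (Ideal.subset_span ⟨i, rfl⟩)
  have hext : ∀ (K : Type) [Field K] [Algebra k K] (θ θ' : ((A ⊗[k] B) ⧸ I) →ₐ[k] K),
      (∀ i, θ (mk (a i ⊗ₜ[k] (1 : B))) = θ' (mk (a i ⊗ₜ[k] (1 : B)))) → θ = θ' := by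
    intro K _ _ θ θ' h
    apply Ideal.Quotient.algHom_ext
    apply Algebra.TensorProduct.ext
    · exact (ha K).1 _ _ h
    · refine (hb K).1 ((θ.comp mk).comp Algebra.TensorProduct.includeRight)
        ((θ'.comp mk).comp Algebra.TensorProduct.includeRight) fun i => ?_
      change θ (mk ((1 : A) ⊗ₜ[k] b i)) = θ' (mk ((1 : A) ⊗ₜ[k] b i))
      rw [← hrel, h]
  have hlift : ∀ (K : Type) [Field K] [Algebra k K] (ψ : A →ₐ[k] K) (ψ' : B →ₐ[k] K),
      (∀ i, ψ (a i) = ψ' (b i)) → ∃ θ : ((A ⊗[k] B) ⧸ I) →ₐ[k] K,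
        (∀ x, θ (mk (x ⊗ₜ[k] (1 : B))) = ψ x) ∧ ∀ y, θ (mk ((1 : A) ⊗ₜ[k] y)) = ψ' y := by
    intro K _ _ ψ ψ' h
    let θ₀ : A ⊗[k] B →ₐ[k] K := Algebra.TensorProduct.lift ψ ψ' fun _ _ => Commute.all _ _
    refine ⟨Ideal.Quotient.liftₐ I θ₀ ?_, ?_, ?_⟩
    · intro z hz
      have : I ≤ RingHom.ker θ₀.toRingHom := by
        rw [Ideal.span_le]
        rintro _ ⟨i, rfl⟩
        simp [θ₀, h]
      exact this hz
    · intro x
      change θ₀ (x ⊗ₜ[k] (1 : B)) = _
      simp [θ₀]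
    · intro y
      change θ₀ ((1 : A) ⊗ₜ[k] y) = _
      simp [θ₀]
  have h1 : PtBij (mk.comp (Algebra.TensorProduct.includeLeft : A →ₐ[k] A ⊗[k] B)) := by
    intro K _ _
    constructor
    · intro θ θ' e
      exact hext K θ θ' fun i => DFunLike.congr_fun e (a i)
    · intro ψ
      obtain ⟨ψ', hψ'⟩ := ((hb K).2 fun i => ψ (a i)).1 (((ha K).2 _).2 ⟨ψ, fun _ => rfl⟩)
      obtain ⟨θ, hθ, -⟩ := hlift K ψ ψ' fun i => (hψ' i).symm
      exact ⟨θ, AlgHom.ext hθ⟩
  have h2 : PtBij (mk.comp (Algebra.TensorProduct.includeRight : B →ₐ[k] A ⊗[k] B)) := by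
    intro K _ _
    constructor
    · intro θ θ' e
      refine hext K θ θ' fun i => ?_
      rw [hrel]
      exact DFunLike.congr_fun e (b i)
    · intro ψ'
      obtain ⟨ψ, hψ⟩ := ((ha K).2 fun i => ψ' (b i)).1 (((hb K).2 _).2 ⟨ψ', fun _ => rfl⟩)
      obtain ⟨θ, -, hθ⟩ := hlift K ψ ψ' hψ
      exact ⟨θ, AlgHom.ext hθ⟩
  rw [← cls_eq_of_ptBij _ h1, cls_eq_of_ptBij _ h2]

theorem HasClass.unique {P : Pred k ι} {c c' : K0 k} (h : HasClass P c) (h' : HasClass P c') :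
    c = c' := by
  obtain ⟨A, _, _, _, a, ha, rfl⟩ := h
  obtain ⟨B, _, _, _, b, hb, rfl⟩ := h'
  exact ha.cls_eq hb

theorem HasClass.congr {P Q : Pred k ι} {c : K0 k} (h : HasClass P c)
    (e : ∀ (K : Type) [Field K] [Algebra k K] (x : ι → K), P K x ↔ Q K x) : HasClass Q c := by
  obtain ⟨A, _, _, _, a, ha, rfl⟩ := h
  exact ⟨A, _, _, _, a, fun K _ _ => ⟨(ha K).1, fun x => (e K x).symm.trans ((ha K).2 x)⟩, rfl⟩

theorem algHom_aeval {A K : Type} [CommRing A] [Algebra k A] [CommRing K] [Algebra k K]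
    (ψ : A →ₐ[k] K) (a : ι → A) (x : ι → K) (h : ∀ i, ψ (a i) = x i) (E : MvPolynomial ι k) :
    ψ (aeval a E) = aeval x E := by
  have : x = fun i => ψ (a i) := funext fun i => (h i).symm
  rw [this, ← AlgHom.comp_apply, MvPolynomial.comp_aeval]

theorem HasClass.map {P : Pred k ι} {Q : Pred k ι'} {c : K0 k} (h : HasClass P c)
    (g : ι' → MvPolynomial ι k)
    (hg : ∀ (K : Type) [Field K] [Algebra k K],
      Set.BijOn (fun (x : ι → K) (j : ι') => aeval x (g j)) {x | P K x} {y | Q K y}) :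
    HasClass Q c := by
  obtain ⟨A, _, _, _, a, ha, rfl⟩ := h
  refine ⟨A, _, _, _, fun j => aeval a (g j), fun K _ _ => ⟨?_, ?_⟩, rfl⟩
  · intro ψ ψ' e
    apply (ha K).1
    have h1 : P K fun i => ψ (a i) := ((ha K).2 _).2 ⟨ψ, fun _ => rfl⟩
    have h2 : P K fun i => ψ' (a i) := ((ha K).2 _).2 ⟨ψ', fun _ => rfl⟩
    have := (hg K).injOn h1 h2 (funext fun j => by
      rw [← algHom_aeval ψ a _ (fun _ => rfl), ← algHom_aeval ψ' a _ (fun _ => rfl), e])
    exact fun i => congrFun this i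
  · intro y
    constructor
    · intro hy
      obtain ⟨x, hx, rfl⟩ := (hg K).surjOn hy
      obtain ⟨ψ, hψ⟩ := ((ha K).2 x).1 hx
      exact ⟨ψ, fun j => algHom_aeval ψ a x hψ _⟩
    · rintro ⟨ψ, hψ⟩
      have h1 : P K fun i => ψ (a i) := ((ha K).2 _).2 ⟨ψ, fun _ => rfl⟩
      have h2 := (hg K).mapsTo h1
      have : y = fun j => aeval (fun i => ψ (a i)) (g j) := funext fun j => by
        rw [← hψ j, algHom_aeval ψ a _ (fun _ => rfl)]
      rw [this]
      exact h2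

theorem HasClass.split {P : Pred k ι} {c : K0 k} (h : HasClass P c) (E : MvPolynomial ι k) :
    ∃ c₁ c₂, HasClass (fun K _ _ x => P K x ∧ aeval x E = 0) c₁ ∧
      HasClass (fun K _ _ x => P K x ∧ aeval x E ≠ 0) c₂ ∧ c = c₁ + c₂ := by
  obtain ⟨A, _, _, _, a, ha, rfl⟩ := h
  let g : A := aeval a E
  refine ⟨_, _, ⟨A ⧸ Ideal.span {g}, _, _, inferInstance, fun i => Ideal.Quotient.mk _ (a i),
    fun K _ _ => ⟨?_, ?_⟩, rfl⟩, ⟨Localization.Away g, _, _, inferInstance,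
      fun i => algebraMap A _ (a i), fun K _ _ => ⟨?_, ?_⟩, rfl⟩, cls_split g⟩
  · intro ψ ψ' e
    exact Ideal.Quotient.algHom_ext k ((ha K).1 _ _ e)
  · intro x
    constructor
    · rintro ⟨hx, hE⟩
      obtain ⟨ψ, hψ⟩ := ((ha K).2 x).1 hx
      refine ⟨Ideal.Quotient.liftₐ _ ψ ?_, hψ⟩
      intro z hz
      obtain ⟨e, rfl⟩ := Ideal.mem_span_singleton.1 hz
      rw [map_mul, algHom_aeval ψ a x hψ, hE, zero_mul]
    · rintro ⟨ψ, hψ⟩
      refine ⟨((ha K).2 x).2 ⟨ψ.comp (Ideal.Quotient.mkₐ k _), hψ⟩, ?_⟩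
      rw [← algHom_aeval (ψ.comp (Ideal.Quotient.mkₐ k _)) a x hψ]
      change ψ (Ideal.Quotient.mk _ g) = 0
      rw [Ideal.Quotient.eq_zero_iff_mem.2 (Ideal.mem_span_singleton_self g), map_zero]
  · intro ψ ψ' e
    have : ψ.comp (IsScalarTower.toAlgHom k A _) = ψ'.comp (IsScalarTower.toAlgHom k A _) :=
      (ha K).1 _ _ e
    apply AlgHom.coe_ringHom_injective
    apply IsLocalization.ringHom_ext (Submonoid.powers g)
    ext z
    exact DFunLike.congr_fun this z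
  · intro x
    constructor
    · rintro ⟨hx, hE⟩
      obtain ⟨ψ, hψ⟩ := ((ha K).2 x).1 hx
      have hu : IsUnit (ψ g) := IsUnit.mk0 _ (by rw [algHom_aeval ψ a x hψ]; exact hE)
      refine ⟨IsLocalization.Away.liftAlgHom g (f := ψ) hu, fun i => ?_⟩
      rw [← hψ i]
      exact IsLocalization.Away.lift_eq g (g := ψ.toRingHom) hu _
    · rintro ⟨ψ, hψ⟩
      refine ⟨((ha K).2 x).2 ⟨ψ.comp (IsScalarTower.toAlgHom k A _), hψ⟩, ?_⟩
      rw [← algHom_aeval (ψ.comp (IsScalarTower.toAlgHom k A _)) a x hψ]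
      exact ((IsLocalization.Away.algebraMap_isUnit (S := Localization.Away g) g).map ψ).ne_zero

theorem hasClass_false : HasClass (fun _ _ _ (_ : ι → _) => False : Pred k ι) 0 := by
  refine ⟨PUnit, inferInstance, inferInstance, inferInstance, fun _ => 0, fun K _ _ => ?_,
    cls_trivial _⟩
  have : IsEmpty (PUnit →ₐ[k] K) := ⟨fun ψ => one_ne_zero (α := K) (by
    rw [← map_one ψ, Subsingleton.elim (1 : PUnit) 0, map_zero])⟩
  exact ⟨fun ψ => isEmptyElim ψ, fun x => ⟨False.elim, fun ⟨ψ, _⟩ => isEmptyElim ψ⟩⟩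

theorem cls_prod (A B : Type) [CommRing A] [Algebra k A] [Algebra.FiniteType k A]
    [CommRing B] [Algebra k B] [Algebra.FiniteType k B] : cls k (A × B) = cls k A + cls k B := by
  rw [cls_split (k := k) ((0, 1) : A × B)]
  congr 1
  · refine cls_nil (Ideal.Quotient.liftₐ _ (AlgHom.fst k A B) ?_) ?_ ?_
    · intro z hz
      obtain ⟨e, rfl⟩ := Ideal.mem_span_singleton.1 hz
      simp
    · intro x
      exact ⟨Ideal.Quotient.mk _ (x, 0), rfl⟩
    · intro z hz
      obtain ⟨⟨x, y⟩, rfl⟩ := Ideal.Quotient.mk_surjective z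
      have hx : x = 0 := hz
      have : Ideal.Quotient.mk (Ideal.span {((0, 1) : A × B)}) (x, y) = 0 :=
        Ideal.Quotient.eq_zero_iff_mem.2 (Ideal.mem_span_singleton.2 ⟨(0, y), by simp [hx]⟩)
      rw [this]
      exact IsNilpotent.zero
  · refine cls_away_of_hom (AlgHom.snd k A B) _ isUnit_one (fun d => ⟨0, (0, d), by simp⟩) ?_
    rintro ⟨x, y⟩ h
    have : y = 0 := h
    exact ⟨1, by simp [this]⟩

theorem algHom_prod_cases {A B K : Type} [CommRing A] [Algebra k A] [CommRing B] [Algebra k B]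
    [Field K] [Algebra k K] (ψ : (A × B) →ₐ[k] K) :
    (∃ ψ₁ : A →ₐ[k] K, ψ = ψ₁.comp (AlgHom.fst k A B)) ∨
      ∃ ψ₂ : B →ₐ[k] K, ψ = ψ₂.comp (AlgHom.snd k A B) := by
  have h0 : ψ (1, 0) * ψ (0, 1) = 0 := by rw [← map_mul]; simp [← Prod.zero_eq_mk]
  rcases mul_eq_zero.1 h0 with h | h
  · right
    have hk : ∀ z : A × B, AlgHom.snd k A B z = 0 → ψ z = 0 := by
      rintro ⟨x, y⟩ hz
      have hy : y = 0 := hz
      have : ((x, y) : A × B) = (x, 0) * (1, 0) := by simp [hy]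
      rw [this, map_mul, h, mul_zero]
    exact ⟨AlgHom.liftOfSurjective (AlgHom.snd k A B) Prod.snd_surjective ψ hk,
      (AlgHom.liftOfSurjective_comp _ _ _ _).symm⟩
  · left
    have hk : ∀ z : A × B, AlgHom.fst k A B z = 0 → ψ z = 0 := by
      rintro ⟨x, y⟩ hz
      have hx : x = 0 := hz
      have : ((x, y) : A × B) = (0, y) * (0, 1) := by simp [hx]
      rw [this, map_mul, h, mul_zero]
    exact ⟨AlgHom.liftOfSurjective (AlgHom.fst k A B) Prod.fst_surjective ψ hk,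
      (AlgHom.liftOfSurjective_comp _ _ _ _).symm⟩

theorem HasClass.union {P Q : Pred k ι} {c c' : K0 k} (h : HasClass P c) (h' : HasClass Q c')
    (hd : ∀ (K : Type) [Field K] [Algebra k K] (x : ι → K), P K x → Q K x → False) :
    HasClass (fun K _ _ x => P K x ∨ Q K x) (c + c') := by
  obtain ⟨A, _, _, _, a, ha, rfl⟩ := h
  obtain ⟨B, _, _, _, b, hb, rfl⟩ := h'
  refine ⟨A × B, _, _, inferInstance, fun i => (a i, b i), fun K _ _ => ⟨?_, ?_⟩, cls_prod A B⟩
  · intro ψ ψ' e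
    rcases algHom_prod_cases ψ with ⟨ψ, rfl⟩ | ⟨ψ, rfl⟩ <;>
      rcases algHom_prod_cases ψ' with ⟨ψ', rfl⟩ | ⟨ψ', rfl⟩
    · rw [(ha K).1 ψ ψ' e]
    · exact (hd K _ (((ha K).2 _).2 ⟨ψ, e⟩) (((hb K).2 _).2 ⟨ψ', fun _ => rfl⟩)).elim
    · exact (hd K _ (((ha K).2 _).2 ⟨ψ', fun _ => rfl⟩) (((hb K).2 _).2 ⟨ψ, e⟩)).elim
    · rw [(hb K).1 ψ ψ' e]
  · intro x
    constructor
    · rintro (hx | hx)
      · obtain ⟨ψ, hψ⟩ := ((ha K).2 x).1 hx
        exact ⟨ψ.comp (AlgHom.fst k A B), hψ⟩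
      · obtain ⟨ψ, hψ⟩ := ((hb K).2 x).1 hx
        exact ⟨ψ.comp (AlgHom.snd k A B), hψ⟩
    · rintro ⟨ψ, hψ⟩
      rcases algHom_prod_cases ψ with ⟨ψ, rfl⟩ | ⟨ψ, rfl⟩
      · exact Or.inl (((ha K).2 x).2 ⟨ψ, hψ⟩)
      · exact Or.inr (((hb K).2 x).2 ⟨ψ, hψ⟩)

/-- Freeing one coordinate multiplies the class by `L`. -/
theorem HasClass.free [DecidableEq ι] {P : Pred k ι} {c : K0 k} (h : HasClass P c) (i : ι)
    (hi : ∀ (K : Type) [Field K] [Algebra k K] (x : ι → K), P K x → x i = 0) :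
    HasClass (fun K _ _ x => P K (Function.update x i 0)) (c * cls k (Polynomial k)) := by
  obtain ⟨A, _, _, _, a, ha, rfl⟩ := h
  refine ⟨Polynomial A, _, _, inferInstance,
    Function.update (fun j => Polynomial.C (a j)) i Polynomial.X, fun K _ _ => ⟨?_, ?_⟩, ?_⟩
  · intro ψ ψ' e
    have hz : ∀ χ : A →ₐ[k] K, χ (a i) = 0 := fun χ =>
      hi K _ (((ha K).2 fun j => χ (a j)).2 ⟨χ, fun _ => rfl⟩)
    apply Polynomial.algHom_ext'
    · apply (ha K).1
      intro j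
      by_cases hj : j = i
      · rw [hj, hz, hz]
      · have := e j
        rw [Function.update_of_ne hj] at this
        exact this
    · have := e i
      rwa [Function.update_self] at this
  · intro x
    constructor
    · intro hx
      obtain ⟨ψ, hψ⟩ := ((ha K).2 _).1 hx
      refine ⟨Polynomial.eval₂AlgHom ψ (x i) fun _ => Commute.all _ _, fun j => ?_⟩
      by_cases hj : j = i
      · subst hj
        simp
      · have := hψ j
        rw [Function.update_of_ne hj] at this ⊢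
        simp [this]
    · rintro ⟨ψ, hψ⟩
      let χ : A →ₐ[k] K := ψ.comp Polynomial.CAlgHom
      have h1 : P K fun j => χ (a j) := ((ha K).2 _).2 ⟨χ, fun _ => rfl⟩
      have : Function.update x i 0 = fun j => χ (a j) := by
        funext j
        by_cases hj : j = i
        · subst hj
          rw [Function.update_self, hi K _ h1]
        · have := hψ j
          rw [Function.update_of_ne hj] at this ⊢
          exact this.symm
      rw [this]
      exact h1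
  · rw [← cls_tensor]
    exact cls_congr (polyEquivTensor k A)

/-- The closed subvariety of affine space cut out by a family of polynomials. -/
theorem hasClass_quotient [Finite ι] (E : ι' → MvPolynomial ι k) :
    HasClass (fun _ _ _ x => ∀ p, aeval x (E p) = 0)
      (cls k (MvPolynomial ι k ⧸ Ideal.span (Set.range E))) := by
  refine ⟨_, _, _, inferInstance, fun i => Ideal.Quotient.mk _ (X i), fun K _ _ => ⟨?_, ?_⟩, rfl⟩
  · intro ψ ψ' e
    exact Ideal.Quotient.algHom_ext k (MvPolynomial.algHom_ext e)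
  · intro x
    constructor
    · intro hx
      refine ⟨Ideal.Quotient.liftₐ _ (aeval x) ?_, fun i => aeval_X x i⟩
      intro z hz
      have : Ideal.span (Set.range E) ≤ RingHom.ker (aeval x : _ →ₐ[k] K).toRingHom := by
        rw [Ideal.span_le]
        rintro _ ⟨p, rfl⟩
        exact hx p
      exact this hz
    · rintro ⟨ψ, hψ⟩ p
      rw [← algHom_aeval (ψ.comp (Ideal.Quotient.mkₐ k _)) X x hψ, aeval_X_left_apply]
      change ψ (Ideal.Quotient.mk _ (E p)) = 0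
      rw [Ideal.Quotient.eq_zero_iff_mem.2 (Ideal.subset_span (Set.mem_range_self p)), map_zero]

theorem hasClass_point : HasClass (fun _ _ _ (x : ι → _) => ∀ i, x i = 0 : Pred k ι) 1 := by
  refine ⟨k, _, _, inferInstance, fun _ => 0, fun K _ _ => ⟨?_, ?_⟩, cls_self⟩
  · intro ψ ψ' _
    exact Subsingleton.elim _ _
  · intro x
    exact ⟨fun h => ⟨Algebra.ofId k K, fun i => by rw [map_zero, h]⟩,
      fun ⟨ψ, h⟩ i => by rw [← h, map_zero]⟩

end

end Pool.Agent.P.MP_b91a16_ag
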