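import Pool.Agent.P.MP_b91a16_ag.HasClass

/-! Motivic volumes of cylinders in an infinite dimensional affine space. -/

open MvPolynomial

namespace Pool.Agent.P.MP_b91a16_ag

noncomputable section

variable {k : Type} [Field k] {ι ι' : Type}

theorem L_mul_Linv : algebraMap (K0 k) (Mot k) (cls k (Polynomial k)) * Linv k = 1 :=
  IsLocalization.Away.mul_invSelf _

def DepOn (P : Pred k ι) (F : Finset ι) : Prop :=
  ∀ (K : Type) [Field K] [Algebra k K] (x y : ι → K), (∀ i ∈ F, x i = y i) → P K x → P K y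

def Cut (P : Pred k ι) (F : Finset ι) : Pred k ι :=
  fun K _ _ x => P K x ∧ ∀ i, i ∉ F → x i = 0

def HasVol (P : Pred k ι) (v : Mot k) : Prop :=
  ∃ (F : Finset ι) (c : K0 k), DepOn P F ∧ HasClass (Cut P F) c ∧
    v = algebraMap (K0 k) (Mot k) c * Linv k ^ F.card

theorem DepOn.mono {P : Pred k ι} {F G : Finset ι} (h : DepOn P F) (hFG : F ⊆ G) : DepOn P G :=
  fun K _ _ x y e => h K x y fun i hi => e i (hFG hi)

theorem hasClass_cut_insert [DecidableEq ι] {P : Pred k ι} {F : Finset ι} {c : K0 k}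
    (hd : DepOn P F) (h : HasClass (Cut P F) c) {i : ι} (hi : i ∉ F) :
    HasClass (Cut P (insert i F)) (c * cls k (Polynomial k)) := by
  refine (h.free i fun K _ _ x hx => hx.2 i hi).congr fun K _ _ x => ?_
  have e : ∀ j ∈ F, Function.update x i 0 j = x j := fun j hj =>
    Function.update_of_ne (ne_of_mem_of_not_mem hj hi) _ _
  constructor
  · rintro ⟨h1, h2⟩
    refine ⟨hd K _ _ e h1, fun j hj => ?_⟩
    rw [Finset.mem_insert, not_or] at hj
    have := h2 j hj.2
    rwa [Function.update_of_ne hj.1] at this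
  · rintro ⟨h1, h2⟩
    refine ⟨hd K _ _ (fun j hj => (e j hj).symm) h1, fun j hj => ?_⟩
    by_cases hji : j = i
    · rw [hji, Function.update_self]
    · rw [Function.update_of_ne hji]
      exact h2 j (by rw [Finset.mem_insert, not_or]; exact ⟨hji, hj⟩)

theorem hasClass_cut_mono {P : Pred k ι} {F : Finset ι} {c : K0 k}
    (hd : DepOn P F) (h : HasClass (Cut P F) c) {G : Finset ι} (hFG : F ⊆ G) :
    ∃ c', HasClass (Cut P G) c' ∧ algebraMap (K0 k) (Mot k) c * Linv k ^ F.card =
      algebraMap (K0 k) (Mot k) c' * Linv k ^ G.card := by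
  classical
  obtain ⟨D, hD, rfl⟩ : ∃ D : Finset ι, Disjoint F D ∧ G = F ∪ D :=
    ⟨G \ F, Finset.disjoint_sdiff, (Finset.union_sdiff_of_subset hFG).symm⟩
  clear hFG
  induction D using Finset.induction_on with
  | empty => exact ⟨c, by simpa using h, by simp⟩
  | insert i D hi ih =>
    obtain ⟨c', hc', e⟩ := ih (Finset.disjoint_of_subset_right (Finset.subset_insert _ _) hD)
    have hiF : i ∉ F ∪ D := by
      rw [Finset.mem_union, not_or]
      exact ⟨fun hF => Finset.disjoint_left.1 hD hF (Finset.mem_insert_self _ _), hi⟩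
    rw [Finset.union_insert]
    refine ⟨_, hasClass_cut_insert (hd.mono Finset.subset_union_left) hc' hiF, ?_⟩
    rw [e, Finset.card_insert_of_notMem hiF, map_mul, pow_succ]
    have := L_mul_Linv (k := k)
    linear_combination (-(algebraMap (K0 k) (Mot k) c' * Linv k ^ (F ∪ D).card)) * this

theorem HasVol.exists_superset {P : Pred k ι} {v : Mot k} (h : HasVol P v) (G : Finset ι) :
    ∃ (F : Finset ι) (c : K0 k), G ⊆ F ∧ DepOn P F ∧ HasClass (Cut P F) c ∧
      v = algebraMap (K0 k) (Mot k) c * Linv k ^ F.card := by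
  classical
  obtain ⟨F, c, hd, hc, rfl⟩ := h
  obtain ⟨c', hc', e⟩ := hasClass_cut_mono hd hc (Finset.subset_union_left (s₂ := G))
  exact ⟨F ∪ G, c', Finset.subset_union_right, hd.mono Finset.subset_union_left, hc', e⟩

theorem HasVol.unique {P : Pred k ι} {v v' : Mot k} (h : HasVol P v) (h' : HasVol P v') :
    v = v' := by
  obtain ⟨F, c, hd, hc, rfl⟩ := h
  obtain ⟨G, c', hFG, -, hc', rfl⟩ := h'.exists_superset F
  obtain ⟨c'', hc'', e⟩ := hasClass_cut_mono hd hc hFG
  rw [e, hc''.unique hc']

theorem HasVol.congr {P Q : Pred k ι} {v : Mot k} (h : HasVol P v)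
    (e : ∀ (K : Type) [Field K] [Algebra k K] (x : ι → K), P K x ↔ Q K x) : HasVol Q v := by
  obtain ⟨F, c, hd, hc, rfl⟩ := h
  exact ⟨F, c, fun K _ _ x y hxy hx => (e K y).1 (hd K x y hxy ((e K x).2 hx)),
    hc.congr fun K _ _ x => and_congr_left' (e K x), rfl⟩

theorem aeval_eq_of_vars {K : Type} [CommRing K] [Algebra k K] (E : MvPolynomial ι k)
    {x y : ι → K} (h : ∀ i ∈ E.vars, x i = y i) : aeval x E = aeval y E := by
  classical
  exact MvPolynomial.hom_congr_vars (f₁ := (aeval x : _ →ₐ[k] K).toRingHom)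
    (f₂ := (aeval y : _ →ₐ[k] K).toRingHom) (by ext; simp) (fun i hi _ => by simpa using h i hi) rfl

theorem HasVol.split {P : Pred k ι} {v : Mot k} (h : HasVol P v) (E : MvPolynomial ι k) :
    ∃ v₁ v₂, HasVol (fun K _ _ x => P K x ∧ aeval x E = 0) v₁ ∧
      HasVol (fun K _ _ x => P K x ∧ aeval x E ≠ 0) v₂ ∧ v = v₁ + v₂ := by
  obtain ⟨F, c, hF, hd, hc, rfl⟩ := h.exists_superset E.vars
  obtain ⟨c₁, c₂, h₁, h₂, rfl⟩ := hc.split E
  refine ⟨_, _, ⟨F, c₁, ?_, h₁.congr fun K _ _ x => ?_, rfl⟩,
    ⟨F, c₂, ?_, h₂.congr fun K _ _ x => ?_, rfl⟩, by rw [map_add, add_mul]⟩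
  · intro K _ _ x y e hx
    exact ⟨hd K x y e hx.1, by rw [← aeval_eq_of_vars E fun i hi => e i (hF hi)]; exact hx.2⟩
  · simp only [Cut]
    tauto
  · intro K _ _ x y e hx
    exact ⟨hd K x y e hx.1, by rw [← aeval_eq_of_vars E fun i hi => e i (hF hi)]; exact hx.2⟩
  · simp only [Cut]
    tauto

theorem hasVol_false : HasVol (fun _ _ _ (_ : ι → _) => False : Pred k ι) 0 :=
  ⟨∅, 0, fun _ _ _ _ _ _ h => h, hasClass_false.congr fun K _ _ x => by simp [Cut], by simp⟩

theorem hasVol_true : HasVol (fun _ _ _ (_ : ι → _) => True : Pred k ι) 1 :=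
  ⟨∅, 1, fun _ _ _ _ _ _ h => h, hasClass_point.congr fun K _ _ x => by simp [Cut], by simp⟩

theorem HasVol.union {P Q : Pred k ι} {v v' : Mot k} (h : HasVol P v) (h' : HasVol Q v')
    (hd : ∀ (K : Type) [Field K] [Algebra k K] (x : ι → K), P K x → Q K x → False) :
    HasVol (fun K _ _ x => P K x ∨ Q K x) (v + v') := by
  obtain ⟨F, c, hF, hc, rfl⟩ := h
  obtain ⟨G, c', hFG, hG, hc', rfl⟩ := h'.exists_superset F
  obtain ⟨c'', hc'', e⟩ := hasClass_cut_mono hF hc hFG
  refine ⟨G, c'' + c', ?_, (hc''.union hc' fun K _ _ x h1 h2 => hd K x h1.1 h2.1).congr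
    fun K _ _ x => ?_, by rw [e, map_add, add_mul]⟩
  · intro K _ _ x y hxy hx
    exact hx.imp (hF.mono hFG K x y hxy) (hG K x y hxy)
  · simp only [Cut]
    tauto

theorem hasVol_sum {α : Type} (s : Finset α) (P : α → Pred k ι) (v : α → Mot k)
    (h : ∀ a ∈ s, HasVol (P a) (v a))
    (hd : ∀ (K : Type) [Field K] [Algebra k K] (x : ι → K), ∀ a ∈ s, ∀ b ∈ s,
      P a K x → P b K x → a = b) :
    HasVol (fun K _ _ x => ∃ a ∈ s, P a K x) (∑ a ∈ s, v a) := by
  classical
  induction s using Finset.induction_on with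
  | empty => simpa using hasVol_false
  | insert a s ha ih =>
    rw [Finset.sum_insert ha]
    have h1 := ih (fun b hb => h b (Finset.mem_insert_of_mem hb))
      fun K _ _ x b hb c hc => hd K x b (Finset.mem_insert_of_mem hb) c (Finset.mem_insert_of_mem hc)
    refine ((h a (Finset.mem_insert_self _ _)).union h1 ?_).congr fun K _ _ x => by simp
    rintro K _ _ x h1 ⟨b, hb, h2⟩
    exact ha (hd K x a (Finset.mem_insert_self _ _) b (Finset.mem_insert_of_mem hb) h1 h2 ▸ hb)

/-- Solving one equation for one coordinate divides the volume by `L`. -/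
theorem HasVol.elim [DecidableEq ι] {P : Pred k ι} {v : Mot k} (h : HasVol P v) (i : ι)
    (E : MvPolynomial ι k)
    (hi : ∀ (K : Type) [Field K] [Algebra k K] (x : ι → K) (c : K),
      P K x → P K (Function.update x i c))
    (hE : ∀ (K : Type) [Field K] [Algebra k K] (x : ι → K), P K x →
      ∃! c : K, aeval (Function.update x i c) E = 0) :
    HasVol (fun K _ _ x => P K x ∧ aeval x E = 0) (Linv k * v) := by
  obtain ⟨F, c, hF, hd, hc, rfl⟩ := h.exists_superset (insert i E.vars)
  have hiF : i ∈ F := hF (Finset.mem_insert_self _ _)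
  have hd₀ : DepOn P (F.erase i) := by
    intro K _ _ x y e hx
    refine hd K _ y (fun j hj => ?_) (hi K x (y i) hx)
    by_cases hji : j = i
    · rw [hji, Function.update_self]
    · rw [Function.update_of_ne hji]
      exact e j (Finset.mem_erase.2 ⟨hji, hj⟩)
  obtain ⟨c₁, -, h₁, -, -⟩ := hc.split E
  have h₀ : HasClass (Cut P (F.erase i)) c₁ := by
    refine h₁.map (Function.update X i 0) fun K _ _ => ?_
    have hmap : (fun (x : ι → K) (j : ι) => aeval x (Function.update X i (0 : MvPolynomial ι k) j))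
        = fun x => Function.update x i 0 := by
      funext x j
      by_cases hj : j = i
      · rw [hj, Function.update_self, Function.update_self, map_zero]
      · rw [Function.update_of_ne hj, Function.update_of_ne hj, aeval_X]
    rw [hmap]
    refine ⟨?_, ?_, ?_⟩
    · rintro x ⟨⟨h1, h2⟩, -⟩
      refine ⟨hi K x 0 h1, fun j hj => ?_⟩
      beta_reduce
      by_cases hji : j = i
      · rw [hji, Function.update_self]
      · rw [Function.update_of_ne hji]
        exact h2 j fun hjF => hj (Finset.mem_erase.2 ⟨hji, hjF⟩)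
    · rintro x ⟨⟨h1, -⟩, h3⟩ y ⟨-, h4⟩ e
      have e' : Function.update x i (y i) = y := by
        have := congrArg (fun z => Function.update z i (y i)) e
        simpa using this
      have := (hE K x h1).unique (y₁ := x i) (y₂ := y i) (by simpa using h3) (by rw [e']; exact h4)
      rw [← e', ← this, Function.update_eq_self]
    · rintro y ⟨h1, h2⟩
      obtain ⟨c, hc, -⟩ := hE K y h1
      refine ⟨Function.update y i c, ⟨⟨hi K y c h1, fun j hj => ?_⟩, hc⟩, ?_⟩
      · rw [Function.update_of_ne (ne_of_mem_of_not_mem hiF hj).symm]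
        exact h2 j fun hjF => hj (Finset.mem_of_mem_erase hjF)
      · simp only [Function.update_idem]
        rw [← h2 i (Finset.notMem_erase _ _), Function.update_eq_self]
  have h₂ := hasClass_cut_insert hd₀ h₀ (Finset.notMem_erase i F)
  rw [Finset.insert_erase hiF] at h₂
  refine ⟨F, c₁, ?_, h₁.congr fun K _ _ x => ?_, ?_⟩
  · intro K _ _ x y e hx
    exact ⟨hd K x y e hx.1, by
      rw [← aeval_eq_of_vars E fun j hj => e j (hF (Finset.mem_insert_of_mem hj))]; exact hx.2⟩
  · simp only [Cut]
    tauto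
  · rw [hc.unique h₂, map_mul]
    have := L_mul_Linv (k := k)
    linear_combination (algebraMap (K0 k) (Mot k) c₁ * Linv k ^ F.card) * this

theorem HasVol.and_zero [DecidableEq ι] {P : Pred k ι} {v : Mot k} (h : HasVol P v) (i : ι)
    (hi : ∀ (K : Type) [Field K] [Algebra k K] (x : ι → K) (c : K),
      P K x → P K (Function.update x i c)) :
    HasVol (fun K _ _ x => P K x ∧ x i = 0) (Linv k * v) :=
  (h.elim i (X i) hi fun K _ _ x _ => ⟨0, by simp, fun c hc => by simpa using hc⟩).congr
    fun K _ _ x => by simp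

theorem HasVol.and_ne [DecidableEq ι] {P : Pred k ι} {v : Mot k} (h : HasVol P v) (i : ι)
    (hi : ∀ (K : Type) [Field K] [Algebra k K] (x : ι → K) (c : K),
      P K x → P K (Function.update x i c)) :
    HasVol (fun K _ _ x => P K x ∧ x i ≠ 0) ((1 - Linv k) * v) := by
  obtain ⟨v₁, v₂, h₁, h₂, e⟩ := h.split (X i)
  have e₁ : v₁ = Linv k * v := (h₁.congr fun K _ _ x => by simp).unique (h.and_zero i hi)
  have e₂ : (1 - Linv k) * v = v₂ := by linear_combination e + e₁
  rw [e₂]
  exact h₂.congr fun K _ _ x => by simp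

theorem HasVol.and_forall_zero [DecidableEq ι] {P : Pred k ι} {v : Mot k} (h : HasVol P v)
    (s : Finset ι) (hs : ∀ i ∈ s, ∀ (K : Type) [Field K] [Algebra k K] (x : ι → K) (c : K),
      P K x → P K (Function.update x i c)) :
    HasVol (fun K _ _ x => P K x ∧ ∀ i ∈ s, x i = 0) (Linv k ^ s.card * v) := by
  induction s using Finset.induction_on with
  | empty => simpa using h
  | insert i s hi ih =>
    have h1 := (ih fun j hj => hs j (Finset.mem_insert_of_mem hj)).and_zero i
      fun K _ _ x c hx => ⟨hs i (Finset.mem_insert_self _ _) K x c hx.1, fun j hj => by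
        rw [Function.update_of_ne (ne_of_mem_of_not_mem hj hi)]; exact hx.2 j hj⟩
    rw [Finset.card_insert_of_notMem hi, pow_succ', mul_assoc]
    exact h1.congr fun K _ _ x => by simp only [Finset.forall_mem_insert]; tauto

theorem HasVol.and_forall_ne [DecidableEq ι] {P : Pred k ι} {v : Mot k} (h : HasVol P v)
    (s : Finset ι) (hs : ∀ i ∈ s, ∀ (K : Type) [Field K] [Algebra k K] (x : ι → K) (c : K),
      P K x → P K (Function.update x i c)) :
    HasVol (fun K _ _ x => P K x ∧ ∀ i ∈ s, x i ≠ 0) ((1 - Linv k) ^ s.card * v) := by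
  induction s using Finset.induction_on with
  | empty => simpa using h
  | insert i s hi ih =>
    have h1 := (ih fun j hj => hs j (Finset.mem_insert_of_mem hj)).and_ne i
      fun K _ _ x c hx => ⟨hs i (Finset.mem_insert_self _ _) K x c hx.1, fun j hj => by
        rw [Function.update_of_ne (ne_of_mem_of_not_mem hj hi)]; exact hx.2 j hj⟩
    rw [Finset.card_insert_of_notMem hi, pow_succ', mul_assoc]
    exact h1.congr fun K _ _ x => by simp only [Finset.forall_mem_insert]; tauto

/-- Pulling back along an injection of coordinates preserves the volume. -/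
theorem HasVol.comap {P : Pred k ι} {v : Mot k} (h : HasVol P v) (e : ι ↪ ι') :
    HasVol (fun K _ _ (x : ι' → K) => P K (x ∘ e)) v := by
  classical
  obtain ⟨F, c, hd, hc, rfl⟩ := h
  refine ⟨F.map e, c, ?_, ?_, by rw [Finset.card_map]⟩
  · intro K _ _ x y hxy hx
    exact hd K _ _ (fun i hi => hxy _ (Finset.mem_map_of_mem e hi)) hx
  · refine hc.map (Function.extend e X 0) fun K _ _ => ?_
    have hmap : (fun (x : ι → K) (j : ι') =>
        aeval x (Function.extend e X (0 : ι' → MvPolynomial ι k) j))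
        = fun x => Function.extend e x 0 := by
      funext x j
      by_cases hj : ∃ i, e i = j
      · obtain ⟨i, rfl⟩ := hj
        rw [e.injective.extend_apply, e.injective.extend_apply, aeval_X]
      · rw [Function.extend_apply' _ _ _ hj, Function.extend_apply' _ _ _ hj]
        simp
    rw [hmap]
    have hc : ∀ x : ι → K, Function.extend e x 0 ∘ e = x := fun x =>
      Function.extend_comp e.injective _ _
    refine ⟨?_, ?_, ?_⟩
    · rintro x ⟨h1, h2⟩
      refine ⟨by simpa only [hc] using h1, fun j hj => ?_⟩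
      beta_reduce
      by_cases hj' : ∃ i, e i = j
      · obtain ⟨i, rfl⟩ := hj'
        rw [e.injective.extend_apply]
        exact h2 i fun hi => hj (Finset.mem_map_of_mem e hi)
      · rw [Function.extend_apply' _ _ _ hj']
        rfl
    · intro x _ y _ hxy
      rw [← hc x, ← hc y]
      exact congrArg (· ∘ e) hxy
    · rintro y ⟨h1, h2⟩
      refine ⟨y ∘ e, ⟨h1, fun i hi => h2 _ fun h => hi ((Finset.mem_map' e).1 h)⟩, ?_⟩
      funext j
      by_cases hj' : ∃ i, e i = j
      · obtain ⟨i, rfl⟩ := hj'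
        exact e.injective.extend_apply _ _ _
      · change Function.extend e (y ∘ e) 0 j = y j
        rw [Function.extend_apply' _ _ _ hj']
        refine (h2 j fun h => hj' ?_).symm
        obtain ⟨i, -, hi⟩ := Finset.mem_map.1 h
        exact ⟨i, hi⟩

theorem hasVol_quotient [Fintype ι] (E : ι' → MvPolynomial ι k) :
    HasVol (fun _ _ _ x => ∀ p, aeval x (E p) = 0)
      (algebraMap (K0 k) (Mot k) (cls k (MvPolynomial ι k ⧸ Ideal.span (Set.range E))) *
        Linv k ^ Fintype.card ι) := by
  refine ⟨Finset.univ, _, ?_, (hasClass_quotient E).congr ?_, rfl⟩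
  · intro K _ _ x y e hx
    rwa [show y = x from funext fun i => (e i (Finset.mem_univ i)).symm]
  · intro K _ _ x
    exact ⟨fun h => ⟨h, fun i hi => absurd (Finset.mem_univ i) hi⟩, fun h => h.1⟩

theorem HasVol.and_forall_eq {P : Pred k ι} {v : Mot k} (h : HasVol P v) {α : Type}
    (s : Finset α) (E : α → MvPolynomial ι k) :
    ∃ v', HasVol (k := k) (fun K _ _ x => P K x ∧ ∀ a ∈ s, aeval x (E a) = 0) v' := by
  classical
  induction s using Finset.induction_on with
  | empty => exact ⟨v, by simpa using h⟩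
  | insert a s _ ih =>
    obtain ⟨v', h'⟩ := ih
    obtain ⟨v₁, -, h₁, -, -⟩ := h'.split (E a)
    exact ⟨v₁, h₁.congr fun K _ _ x => by simp only [Finset.forall_mem_insert]; tauto⟩

end

end Pool.Agent.P.MP_b91a16_ag
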