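import Pool.Agent.P.MP_b91a16_ag.Defs

open CategoryTheory AlgebraicGeometry TensorProduct

namespace Pool.Agent.P.MP_b91a16_ag

noncomputable section

variable {k : Type} [Field k]

theorem rel_eq_zero {r : MvPolynomial (Var k) ℤ} (h : r ∈ relations k) :
    (Ideal.Quotient.mk (Ideal.span (relations k)) r : K0 k) = 0 :=
  Ideal.Quotient.eq_zero_iff_mem.2 (Ideal.subset_span h)

theorem spec_comp_str {A B : Type} [CommRing A] [Algebra k A] [CommRing B] [Algebra k B]
    (φ : A →ₐ[k] B) :
    Spec.map (CommRingCat.ofHom φ.toRingHom) ≫ Spec.map (CommRingCat.ofHom (algebraMap k A)) =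
      Spec.map (CommRingCat.ofHom (algebraMap k B)) := by
  rw [← Spec.map_comp, ← CommRingCat.ofHom_comp]
  congr 2
  ext x
  simp

/-- General scissor relation for affine varieties. -/
theorem cls_scissor {A Z U : Type} [CommRing A] [Algebra k A] [Algebra.FiniteType k A]
    [CommRing Z] [Algebra k Z] [Algebra.FiniteType k Z]
    [CommRing U] [Algebra k U] [Algebra.FiniteType k U]
    (i : A →ₐ[k] Z) (j : A →ₐ[k] U) (hi : Function.Surjective i)
    (hj : IsOpenImmersion (Spec.map (CommRingCat.ofHom j.toRingHom)))
    (h : IsCompl (Set.range (PrimeSpectrum.comap i.toRingHom))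
      (Set.range (PrimeSpectrum.comap j.toRingHom))) :
    cls k A = cls k Z + cls k U := by
  have := rel_eq_zero (k := k)
    (r := MvPolynomial.X (affineVar k A) - MvPolynomial.X (affineVar k Z) -
      MvPolynomial.X (affineVar k U))
    (Or.inl (Or.inl (Or.inr ⟨affineVar k A, affineVar k Z, affineVar k U,
      Spec.map (CommRingCat.ofHom i.toRingHom), Spec.map (CommRingCat.ofHom j.toRingHom),
      spec_comp_str i, spec_comp_str j,
      IsClosedImmersion.spec_of_surjective _ hi, hj, h, rfl⟩)))
  simp only [map_sub] at this
  unfold cls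
  linear_combination this

theorem cls_congr {A B : Type} [CommRing A] [Algebra k A] [Algebra.FiniteType k A]
    [CommRing B] [Algebra k B] [Algebra.FiniteType k B] (e : A ≃ₐ[k] B) :
    cls k A = cls k B := by
  have := rel_eq_zero (k := k)
    (r := MvPolynomial.X (affineVar k B) - MvPolynomial.X (affineVar k A))
    (Or.inl (Or.inl (Or.inl ⟨affineVar k B, affineVar k A,
      Scheme.Spec.mapIso (e.toRingEquiv.toCommRingCatIso.op), spec_comp_str e.toAlgHom, rfl⟩)))
  simp only [map_sub] at this
  unfold cls
  linear_combination -this

theorem cls_self : cls k k = 1 := by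
  have := rel_eq_zero (k := k) (r := MvPolynomial.X (affineVar k k) - 1)
    (Or.inr ⟨affineVar k k, by
      change IsIso (Spec.map (CommRingCat.ofHom (algebraMap k k)))
      have : CommRingCat.ofHom (algebraMap k k) = 𝟙 _ := rfl
      rw [this]
      infer_instance, rfl⟩)
  simp only [map_sub, map_one] at this
  unfold cls
  linear_combination this

instance finiteType_tensor (A B : Type) [CommRing A] [Algebra k A] [Algebra.FiniteType k A]
    [CommRing B] [Algebra k B] [Algebra.FiniteType k B] : Algebra.FiniteType k (A ⊗[k] B) :=
  Algebra.FiniteType.trans (S := A) inferInstance inferInstance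

theorem cls_tensor (A B : Type) [CommRing A] [Algebra k A] [Algebra.FiniteType k A]
    [CommRing B] [Algebra k B] [Algebra.FiniteType k B] :
    cls k (A ⊗[k] B) = cls k A * cls k B := by
  have := rel_eq_zero (k := k)
    (r := MvPolynomial.X (affineVar k (A ⊗[k] B)) -
      MvPolynomial.X (affineVar k A) * MvPolynomial.X (affineVar k B))
    (Or.inl (Or.inr ⟨affineVar k A, affineVar k B, affineVar k (A ⊗[k] B), _, _,
      isPullback_SpecMap_of_isPushout _ _ _ _ (CommRingCat.isPushout_tensorProduct k A B),
      spec_comp_str (Algebra.TensorProduct.includeLeft : A →ₐ[k] A ⊗[k] B), rfl⟩))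
  simp only [map_sub, map_mul] at this
  unfold cls
  linear_combination this

theorem cls_split {A : Type} [CommRing A] [Algebra k A] [Algebra.FiniteType k A] (g : A) :
    cls k A = cls k (A ⧸ Ideal.span {g}) + cls k (Localization.Away g) := by
  refine cls_scissor (Ideal.Quotient.mkₐ k _) (IsScalarTower.toAlgHom k A (Localization.Away g))
    Ideal.Quotient.mk_surjective ?_ ?_
  · exact Scheme.isOpenImmersion_SpecMap_localizationAway (R := CommRingCat.of A) g
  · have h1 := range_comap_of_surjective (A ⧸ Ideal.span {g})
      (Ideal.Quotient.mk (Ideal.span {g})) Ideal.Quotient.mk_surjective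
    have h2 := PrimeSpectrum.localization_away_comap_range (Localization.Away g) g
    change IsCompl (Set.range (PrimeSpectrum.comap (Ideal.Quotient.mk (Ideal.span {g}))))
      (Set.range (PrimeSpectrum.comap (algebraMap A (Localization.Away g))))
    rw [h1, h2, Ideal.mk_ker, PrimeSpectrum.zeroLocus_span, PrimeSpectrum.basicOpen_eq_zeroLocus_compl]
    exact isCompl_compl

theorem cls_trivial (A : Type) [CommRing A] [Algebra k A] [Algebra.FiniteType k A]
    [Subsingleton A] : cls k A = 0 := by
  have h : cls k A = cls k A + cls k A := by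
    refine cls_scissor (AlgHom.id k A) (AlgHom.id k A) Function.surjective_id ?_ ?_
    · have : CommRingCat.ofHom (AlgHom.id k A).toRingHom = 𝟙 _ := rfl
      rw [this]
      infer_instance
    · have : IsEmpty (PrimeSpectrum A) := inferInstance
      constructor
      · simp [Set.eq_empty_of_isEmpty]
      · rw [codisjoint_iff]
        exact Subsingleton.elim _ _
  linear_combination -h

/-- A surjection with nil kernel does not change the class. -/
theorem cls_nil {A B : Type} [CommRing A] [Algebra k A] [Algebra.FiniteType k A]
    [CommRing B] [Algebra k B] [Algebra.FiniteType k B] (φ : A →ₐ[k] B)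
    (hφ : Function.Surjective φ) (hn : ∀ a, φ a = 0 → IsNilpotent a) : cls k A = cls k B := by
  have h : cls k A = cls k B + cls k (Localization.Away (0 : A)) := by
    refine cls_scissor φ (IsScalarTower.toAlgHom k A (Localization.Away (0 : A))) hφ ?_ ?_
    · exact Scheme.isOpenImmersion_SpecMap_localizationAway (R := CommRingCat.of A) 0
    · have h1 := range_comap_of_surjective B φ.toRingHom hφ
      have h2 := PrimeSpectrum.localization_away_comap_range (Localization.Away (0 : A)) (0 : A)
      change IsCompl (Set.range (PrimeSpectrum.comap φ.toRingHom))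
        (Set.range (PrimeSpectrum.comap (algebraMap A (Localization.Away (0 : A)))))
      rw [h1, h2, PrimeSpectrum.basicOpen_zero]
      have : PrimeSpectrum.zeroLocus (RingHom.ker φ.toRingHom : Set A) = Set.univ := by
        ext p
        simp only [PrimeSpectrum.mem_zeroLocus, Set.mem_univ, iff_true]
        intro a ha
        obtain ⟨n, hn⟩ := hn a ha
        exact p.isPrime.mem_of_pow_mem n (by rw [hn]; exact p.asIdeal.zero_mem)
      rw [this]
      exact isCompl_top_bot
  have : Subsingleton (Localization.Away (0 : A)) :=
    IsLocalization.subsingleton (M := Submonoid.powers (0 : A)) (Submonoid.mem_powers _)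
  rw [h, cls_trivial (Localization.Away (0 : A)), add_zero]

end

end Pool.Agent.P.MP_b91a16_ag
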