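import Pool.Agent.P.MP_b91a16_ag.K0Basic

/-! A morphism of affine varieties that is bijective on points in every field identifies the
classes in the Grothendieck ring. -/

namespace Pool.Agent.P.MP_b91a16_ag

noncomputable section

variable {k : Type} [Field k]

theorem cls_away_of_hom {C D : Type} [CommRing C] [Algebra k C] [Algebra.FiniteType k C]
    [CommRing D] [Algebra k D] [Algebra.FiniteType k D] (χ : C →ₐ[k] D) (g : C)
    (hu : IsUnit (χ g)) (hs : ∀ d, ∃ (n : ℕ) (c : C), d * χ g ^ n = χ c)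
    (hn : ∀ c, χ c = 0 → IsNilpotent (g * c)) :
    cls k (Localization.Away g) = cls k D := by
  let Ψ : Localization.Away g →ₐ[k] D := IsLocalization.Away.liftAlgHom g (f := χ) hu
  have hΨ : ∀ c, Ψ (algebraMap C _ c) = χ c := fun c =>
    IsLocalization.Away.lift_eq g (g := χ.toRingHom) hu c
  refine cls_nil Ψ ?_ ?_
  · intro d
    obtain ⟨n, c, h⟩ := hs d
    refine ⟨algebraMap C _ c * IsLocalization.Away.invSelf g ^ n, ?_⟩
    have h1 : χ g * Ψ (IsLocalization.Away.invSelf g) = 1 := by
      rw [← hΨ, ← map_mul, IsLocalization.Away.mul_invSelf, map_one]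
    rw [map_mul, map_pow, hΨ, ← h, mul_assoc, ← mul_pow, h1, one_pow, mul_one]
  · intro z hz
    obtain ⟨n, c, h⟩ := IsLocalization.Away.surj g z
    have hc : χ c = 0 := by rw [← hΨ, ← h, map_mul, hz, zero_mul]
    have h2 := (hn c hc).map (algebraMap C (Localization.Away g))
    rw [map_mul, ← h] at h2
    have h3 : IsUnit (algebraMap C (Localization.Away g) g ^ (n + 1)) :=
      IsLocalization.Away.algebraMap_pow_isUnit g (n + 1)
    have h4 : algebraMap C (Localization.Away g) g * (z * algebraMap C (Localization.Away g) g ^ n)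
        = z * algebraMap C (Localization.Away g) g ^ (n + 1) := by ring
    rw [h4] at h2
    exact (IsUnit.isNilpotent_mul_unit_of_commute_iff h3 (Commute.all _ _)).1 h2

theorem cls_away_of_mul_eq_zero {C : Type} [CommRing C] [Algebra k C] [Algebra.FiniteType k C]
    (g h : C) (hgh : g * h = 0) :
    cls k (Localization.Away g) =
      cls k (Localization.Away (Ideal.Quotient.mk (Ideal.span {h}) g)) := by
  let χ : C →ₐ[k] Localization.Away (Ideal.Quotient.mk (Ideal.span {h}) g) :=
    (IsScalarTower.toAlgHom k (C ⧸ Ideal.span {h}) _).comp (Ideal.Quotient.mkₐ k _)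
  have hχ : ∀ c, χ c = algebraMap (C ⧸ Ideal.span {h}) _ (Ideal.Quotient.mk _ c) := fun _ => rfl
  refine cls_away_of_hom χ g ?_ ?_ ?_
  · rw [hχ]
    exact IsLocalization.Away.algebraMap_isUnit _
  · intro d
    obtain ⟨n, c, hc⟩ := IsLocalization.Away.surj (Ideal.Quotient.mk (Ideal.span {h}) g) d
    obtain ⟨c, rfl⟩ := Ideal.Quotient.mk_surjective c
    exact ⟨n, c, hc⟩
  · intro c hc
    rw [hχ, ← map_zero (algebraMap (C ⧸ Ideal.span {h}) _)] at hc
    obtain ⟨n, hn⟩ := IsLocalization.Away.exists_of_eq (Ideal.Quotient.mk (Ideal.span {h}) g) hc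
    rw [mul_zero, ← map_pow, ← map_mul, Ideal.Quotient.eq_zero_iff_mem,
      Ideal.mem_span_singleton] at hn
    obtain ⟨e, he⟩ := hn
    refine ⟨n + 1, ?_⟩
    calc (g * c) ^ (n + 1) = g * c ^ n * (g ^ n * c) := by ring
      _ = (g * h) * (c ^ n * e) := by rw [he]; ring
      _ = 0 := by rw [hgh, zero_mul]

/-- Bijective on points with values in every field. -/
def PtBij {B A : Type} [CommRing B] [Algebra k B] [CommRing A] [Algebra k A]
    (φ : B →ₐ[k] A) : Prop :=
  ∀ (K : Type) [Field K] [Algebra k K], Function.Bijective (fun ψ : A →ₐ[k] K => ψ.comp φ)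

def quotHom {B A : Type} [CommRing B] [Algebra k B] [CommRing A] [Algebra k A]
    (φ : B →ₐ[k] A) (g : B) : (B ⧸ Ideal.span {g}) →ₐ[k] (A ⧸ Ideal.span {φ g}) :=
  Ideal.quotientMapₐ _ φ (by
    rw [Ideal.span_le, Set.singleton_subset_iff]
    exact Ideal.mem_comap.2 (Ideal.mem_span_singleton_self _))

theorem quotHom_mk {B A : Type} [CommRing B] [Algebra k B] [CommRing A] [Algebra k A]
    (φ : B →ₐ[k] A) (g b : B) :
    quotHom φ g (Ideal.Quotient.mk _ b) = Ideal.Quotient.mk _ (φ b) := rfl

theorem PtBij.quot {B A : Type} [CommRing B] [Algebra k B] [CommRing A] [Algebra k A]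
    {φ : B →ₐ[k] A} (h : PtBij φ) (g : B) : PtBij (quotHom φ g) := by
  intro K _ _
  constructor
  · intro ψ ψ' e
    have : ψ.comp (Ideal.Quotient.mkₐ k _) = ψ'.comp (Ideal.Quotient.mkₐ k _) := by
      apply (h K).1
      ext b
      exact DFunLike.congr_fun e (Ideal.Quotient.mk _ b)
    exact Ideal.Quotient.algHom_ext k this
  · intro η
    obtain ⟨ψ, hψ⟩ := (h K).2 (η.comp (Ideal.Quotient.mkₐ k _))
    have hψ' : ∀ b, ψ (φ b) = η (Ideal.Quotient.mk _ b) := fun b => DFunLike.congr_fun hψ b
    refine ⟨Ideal.Quotient.liftₐ _ ψ ?_, ?_⟩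
    · intro a ha
      obtain ⟨c, rfl⟩ := Ideal.mem_span_singleton.1 ha
      rw [map_mul, hψ', Ideal.Quotient.eq_zero_iff_mem.2 (Ideal.mem_span_singleton_self g),
        map_zero, zero_mul]
    · apply Ideal.Quotient.algHom_ext
      ext b
      exact hψ' b

theorem nilpotent_of_points {A : Type} [CommRing A] [Algebra k A] (a : A)
    (h : ∀ (K : Type) [Field K] [Algebra k K] (ψ : A →ₐ[k] K), ψ a = 0) : IsNilpotent a := by
  rw [nilpotent_iff_mem_prime]
  intro p hp
  have := h p.ResidueField (IsScalarTower.toAlgHom k A p.ResidueField)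
  exact Ideal.algebraMap_residueField_eq_zero.1 this

theorem exists_away_eq_of_domain {B A : Type} [CommRing B] [Algebra k B] [Algebra.FiniteType k B]
    [CommRing A] [Algebra k A] [Algebra.FiniteType k A] [IsDomain B]
    {φ : B →ₐ[k] A} (h : PtBij φ) :
    ∃ g : B, g ≠ 0 ∧ cls k (Localization.Away (φ g)) = cls k (Localization.Away g) := by
  classical
  let K := FractionRing B
  let η : B →ₐ[k] K := IsScalarTower.toAlgHom k B K
  have hη : Function.Injective η := IsFractionRing.injective B K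
  obtain ⟨ψ, hψ⟩ := (h K).2 η
  have hψ' : ∀ b, ψ (φ b) = algebraMap B K b := fun b => DFunLike.congr_fun hψ b
  -- every element of the kernel of `ψ` is nilpotent after multiplying by a nonzero element of `B`
  have hker : ∀ q : A, ψ q = 0 → ∃ g : B, g ≠ 0 ∧ IsNilpotent (φ g * q) := by
    intro q hq
    by_contra hcon
    push Not at hcon
    let S : Submonoid A :=
      { carrier := {x | ∃ (g : B) (n : ℕ), g ≠ 0 ∧ x = φ g * q ^ n}
        mul_mem' := by
          rintro _ _ ⟨g, n, hg, rfl⟩ ⟨g', n', hg', rfl⟩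
          exact ⟨g * g', n + n', mul_ne_zero hg hg', by rw [map_mul]; ring⟩
        one_mem' := ⟨1, 0, one_ne_zero, by simp⟩ }
    have hS : Disjoint ((⊥ : Ideal A) : Set A) (S : Set A) := by
      rw [Set.disjoint_left]
      rintro x hx ⟨g, n, hg, rfl⟩
      apply hcon g hg
      refine ⟨n + 1, ?_⟩
      have hx' : φ g * q ^ n = 0 := hx
      calc (φ g * q) ^ (n + 1) = (φ g * q ^ n) * (φ g ^ n * q) := by ring
        _ = 0 := by rw [hx', zero_mul]
    obtain ⟨p, hp, -, hpS⟩ := Ideal.exists_le_prime_disjoint (⊥ : Ideal A) S hS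
    let ψ' : A →ₐ[k] p.ResidueField := IsScalarTower.toAlgHom k A p.ResidueField
    have hinj : Function.Injective (ψ'.comp φ) := by
      rw [injective_iff_map_eq_zero]
      intro b hb
      by_contra hb0
      have : φ b ∈ p := Ideal.algebraMap_residueField_eq_zero.1 hb
      exact Set.disjoint_left.1 hpS this ⟨b, 0, hb0, by simp⟩
    let ι : K →ₐ[k] p.ResidueField := IsFractionRing.liftAlgHom (K := K) hinj
    have hι : ∀ b, ι (algebraMap B K b) = ψ' (φ b) := fun b =>
      IsFractionRing.lift_algebraMap (g := (ψ'.comp φ).toRingHom) hinj b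
    have e : ι.comp ψ = ψ' := by
      apply (h p.ResidueField).1
      ext b
      simp only [AlgHom.comp_apply, hψ', hι]
    have hq' : ψ' q = 0 := by rw [← e, AlgHom.comp_apply, hq, map_zero]
    have : q ∈ p := Ideal.algebraMap_residueField_eq_zero.1 hq'
    exact Set.disjoint_left.1 hpS this ⟨1, 1, one_ne_zero, by simp⟩
  -- a common nonzero multiplier for the kernel
  have hnoeth : IsNoetherianRing A := Algebra.FiniteType.isNoetherianRing k A
  obtain ⟨t, ht⟩ : (RingHom.ker ψ.toRingHom).FG := IsNoetherian.noetherian _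
  have hker' : ∀ q : A, ∃ g : B, g ≠ 0 ∧ (ψ q = 0 → IsNilpotent (φ g * q)) := by
    intro q
    by_cases hq : ψ q = 0
    · obtain ⟨g, hg, hn⟩ := hker q hq
      exact ⟨g, hg, fun _ => hn⟩
    · exact ⟨1, one_ne_zero, fun h => absurd h hq⟩
  choose g₁ hg₁ hg₁' using hker'
  -- denominators of the generators
  obtain ⟨s, hs⟩ := (inferInstance : Algebra.FiniteType k A).out
  have hden : ∀ a : A, ∃ d b : B, d ≠ 0 ∧ ψ a * algebraMap B K d = algebraMap B K b := by
    intro a
    obtain ⟨⟨b, d⟩, hbd⟩ := IsLocalization.surj (nonZeroDivisors B) (ψ a)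
    exact ⟨d, b, nonZeroDivisors.coe_ne_zero d, hbd⟩
  choose g₂ b₂ hg₂ hg₂' using hden
  let g : B := (∏ q ∈ t, g₁ q) * ∏ a ∈ s, g₂ a
  have hg : g ≠ 0 := mul_ne_zero (Finset.prod_ne_zero_iff.2 fun q _ => hg₁ q)
    (Finset.prod_ne_zero_iff.2 fun a _ => hg₂ a)
  have hgK : algebraMap B K g ≠ 0 := fun h0 => hg (hη (by rw [map_zero]; exact h0))
  let ρ : Localization.Away g →ₐ[k] K :=
    IsLocalization.Away.liftAlgHom g (f := η) (IsUnit.mk0 _ hgK)
  have hρ : ∀ b, ρ (algebraMap B _ b) = algebraMap B K b := fun b =>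
    IsLocalization.Away.lift_eq g (g := η.toRingHom) (IsUnit.mk0 _ hgK) b
  have hρinj : Function.Injective ρ := by
    rw [injective_iff_map_eq_zero]
    intro z hz
    obtain ⟨n, b, hb⟩ := IsLocalization.Away.surj g z
    have : algebraMap B K b = 0 := by rw [← hρ, ← hb, map_mul, hz, zero_mul]
    have hb0 : b = 0 := hη (by rw [map_zero]; exact this)
    rw [hb0, map_zero] at hb
    exact (IsLocalization.Away.algebraMap_pow_isUnit g n).mul_left_eq_zero.1 hb
  have hrange : ∀ a, ψ a ∈ ρ.range := by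
    intro a
    have : Algebra.adjoin k (s : Set A) ≤ ρ.range.comap ψ := by
      rw [Algebra.adjoin_le_iff]
      intro a ha
      obtain ⟨e, he⟩ : g₂ a ∣ g := Dvd.dvd.mul_left (Finset.dvd_prod_of_mem _ ha) _
      refine ⟨algebraMap B _ (b₂ a * e) * IsLocalization.Away.invSelf g, ?_⟩
      have h1 : algebraMap B K g * ρ (IsLocalization.Away.invSelf g) = 1 := by
        rw [← hρ, ← map_mul, IsLocalization.Away.mul_invSelf, map_one]
      change ρ _ = ψ a
      rw [map_mul, hρ, map_mul, ← hg₂' a]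
      have h2 : algebraMap B K g = algebraMap B K (g₂ a) * algebraMap B K e := by
        rw [← map_mul, ← he]
      rw [h2] at h1
      linear_combination (ψ a) * h1
    rw [hs] at this
    exact this Algebra.mem_top
  let χ : A →ₐ[k] Localization.Away g :=
    (AlgEquiv.ofInjective ρ hρinj).symm.toAlgHom.comp (ψ.codRestrict ρ.range hrange)
  have hχ : ∀ a, ρ (χ a) = ψ a := by
    intro a
    have := (AlgEquiv.ofInjective ρ hρinj).apply_symm_apply (ψ.codRestrict ρ.range hrange a)
    exact congrArg Subtype.val this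
  have hχφ : ∀ b, χ (φ b) = algebraMap B _ b := fun b => hρinj (by rw [hχ, hρ, hψ'])
  refine ⟨g, hg, cls_away_of_hom χ (φ g) ?_ ?_ ?_⟩
  · rw [hχφ]
    exact IsLocalization.Away.algebraMap_isUnit _
  · intro d
    obtain ⟨n, b, hb⟩ := IsLocalization.Away.surj g d
    exact ⟨n, φ b, by rw [hχφ, hχφ, hb]⟩
  · intro c hc
    have hc' : c ∈ RingHom.ker ψ.toRingHom := by
      rw [RingHom.mem_ker]
      change ψ c = 0
      rw [← hχ, hc, map_zero]
    rw [← ht] at hc'
    refine Submodule.span_induction (p := fun c _ => IsNilpotent (φ g * c)) ?_ ?_ ?_ ?_ hc'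
    · intro q hq
      have hq0 : ψ q = 0 := by
        have : q ∈ RingHom.ker ψ.toRingHom := ht ▸ Ideal.subset_span hq
        exact this
      obtain ⟨e, he⟩ : g₁ q ∣ g := Dvd.dvd.mul_right (Finset.dvd_prod_of_mem _ hq) _
      rw [he, map_mul, mul_right_comm]
      exact (Commute.all _ _).isNilpotent_mul_right (hg₁' q hq0)
    · simp
    · intro x y _ _ hx hy
      rw [mul_add]
      exact (Commute.all _ _).isNilpotent_add hx hy
    · intro a x _ hx
      rw [smul_eq_mul, mul_left_comm]
      exact (Commute.all _ _).isNilpotent_mul_left hx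

theorem cls_eq_of_ptBij_aux (B₀ : Type) [CommRing B₀] [IsNoetherianRing B₀] (I : Ideal B₀) :
    ∀ (B A : Type) [CommRing B] [Algebra k B] [Algebra.FiniteType k B]
      [CommRing A] [Algebra k A] [Algebra.FiniteType k A] (π : B₀ →+* B) (φ : B →ₐ[k] A),
      Function.Surjective π → RingHom.ker π = I → PtBij φ → cls k A = cls k B := by
  induction I using IsNoetherian.induction with
  | _ I ih =>
  intro B A _ _ _ _ _ _ π φ hπ hI hφ
  -- the statement for every proper quotient of `B`
  have ih' : ∀ (B' A' : Type) [CommRing B'] [Algebra k B'] [Algebra.FiniteType k B']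
      [CommRing A'] [Algebra k A'] [Algebra.FiniteType k A'] (π' : B →+* B') (φ' : B' →ₐ[k] A')
      (g : B), Function.Surjective π' → g ≠ 0 → π' g = 0 → PtBij φ' → cls k A' = cls k B' := by
    intro B' A' _ _ _ _ _ _ π' φ' g hπ' hg hg' hφ'
    refine ih (RingHom.ker (π'.comp π)) ?_ B' A' (π'.comp π) φ' (hπ'.comp hπ) rfl hφ'
    rw [← hI]
    refine lt_of_le_of_ne ?_ ?_
    · intro x hx
      rw [RingHom.mem_ker] at hx ⊢
      rw [RingHom.comp_apply, hx, map_zero]
    · intro e
      obtain ⟨x, rfl⟩ := hπ g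
      have : x ∈ RingHom.ker (π'.comp π) := hg'
      rw [← e] at this
      exact hg this
  have hq : ∀ g : B, g ≠ 0 → cls k (A ⧸ Ideal.span {φ g}) = cls k (B ⧸ Ideal.span {g}) :=
    fun g hg => ih' _ _ (Ideal.Quotient.mk _) (quotHom φ g) g Ideal.Quotient.mk_surjective hg
      (Ideal.Quotient.eq_zero_iff_mem.2 (Ideal.mem_span_singleton_self g)) (hφ.quot g)
  suffices hsuff : Subsingleton B ∨
      ∃ g : B, g ≠ 0 ∧ cls k (Localization.Away (φ g)) = cls k (Localization.Away g) by
    rcases hsuff with hB | ⟨g, hg, e⟩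
    · have hA : Subsingleton A := by
        have : (0 : A) = 1 := by rw [← map_one φ, Subsingleton.elim (1 : B) 0, map_zero]
        exact subsingleton_of_zero_eq_one this
      rw [cls_trivial, cls_trivial]
    · rw [cls_split (φ g), cls_split g, hq g hg, e]
  rcases subsingleton_or_nontrivial B with hB | hB
  · exact Or.inl hB
  right
  by_cases hdom : ∀ g h : B, g * h = 0 → g = 0 ∨ h = 0
  · have : NoZeroDivisors B := ⟨fun {a b} => hdom a b⟩
    have : IsDomain B := NoZeroDivisors.to_isDomain B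
    exact exists_away_eq_of_domain hφ
  · push Not at hdom
    obtain ⟨g, h, hgh, hg, hh⟩ := hdom
    refine ⟨g, hg, ?_⟩
    have hgh' : φ g * φ h = 0 := by rw [← map_mul, hgh, map_zero]
    rw [cls_away_of_mul_eq_zero g h hgh, cls_away_of_mul_eq_zero (φ g) (φ h) hgh']
    have e1 := cls_split (k := k) (Ideal.Quotient.mk (Ideal.span {h}) g)
    have e2 := cls_split (k := k) (Ideal.Quotient.mk (Ideal.span {φ h}) (φ g))
    have e3 := hq h hh
    have e4 := ih' _ _ ((Ideal.Quotient.mk _).comp (Ideal.Quotient.mk (Ideal.span {h})))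
      (quotHom (quotHom φ h) (Ideal.Quotient.mk _ g)) h
      (Ideal.Quotient.mk_surjective.comp Ideal.Quotient.mk_surjective) hh
      (by rw [RingHom.comp_apply,
        Ideal.Quotient.eq_zero_iff_mem.2 (Ideal.mem_span_singleton_self h), map_zero])
      ((hφ.quot h).quot _)
    change cls k ((A ⧸ Ideal.span {φ h}) ⧸
      Ideal.span {Ideal.Quotient.mk (Ideal.span {φ h}) (φ g)}) = _ at e4
    linear_combination -e2 + e1 + e3 - e4

theorem cls_eq_of_ptBij {B A : Type} [CommRing B] [Algebra k B] [Algebra.FiniteType k B]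
    [CommRing A] [Algebra k A] [Algebra.FiniteType k A] (φ : B →ₐ[k] A) (h : PtBij φ) :
    cls k A = cls k B :=
  haveI : IsNoetherianRing B := Algebra.FiniteType.isNoetherianRing k B
  cls_eq_of_ptBij_aux B _ B A (RingHom.id B) φ Function.surjective_id rfl h

end

end Pool.Agent.P.MP_b91a16_ag
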