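import Mathlib

/-! A relative Koszul complex: depth forces a system of parameters to be a regular sequence. -/

set_option linter.unusedSectionVars false

namespace Pool.Agent.P.MP_b91a16_ag

noncomputable section

namespace Kos

variable {Λ σ : Type} [CommRing Λ]

def KK (Λ : Type) {σ : Type} : List σ → Type
  | [] => Λ
  | _ :: L => KK Λ L × KK Λ L

instance instAdd : ∀ L : List σ, AddCommGroup (KK Λ L)
  | [] => inferInstanceAs (AddCommGroup Λ)
  | _ :: L => letI := instAdd L; inferInstanceAs (AddCommGroup (KK Λ L × KK Λ L))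

instance instMod : ∀ L : List σ, Module Λ (KK Λ L)
  | [] => inferInstanceAs (Module Λ Λ)
  | _ :: L => letI := instMod L; inferInstanceAs (Module Λ (KK Λ L × KK Λ L))

def dd (F : σ → Λ) : ∀ L : List σ, KK Λ L →ₗ[Λ] KK Λ L
  | [] => 0
  | a :: L => LinearMap.prod (dd F L ∘ₗ LinearMap.fst Λ _ _)
      (F a • LinearMap.fst Λ _ _ - dd F L ∘ₗ LinearMap.snd Λ _ _)

def fam (A : AddSubgroup Λ) : ∀ L : List σ, ℤ → AddSubgroup (KK Λ L)
  | [], i => if i = 0 then A else ⊥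
  | _ :: L, i => (fam A L i).prod (fam A L (i - 1))

def top : ∀ L : List σ, Λ →ₗ[Λ] KK Λ L
  | [] => LinearMap.id
  | _ :: L => LinearMap.inr Λ _ _ ∘ₗ top L

def pj (π : Λ →+ Λ) : ∀ L : List σ, KK Λ L →+ KK Λ L
  | [] => π
  | _ :: L => AddMonoidHom.prodMap (pj π L) (pj π L)

def pr (a : σ) {L : List σ} (x y : KK Λ L) : KK Λ (a :: L) := (x, y)

def em (σ : Type) (x : Λ) : KK Λ ([] : List σ) := x

def vl (c : KK Λ ([] : List σ)) : Λ := c

variable {F : σ → Λ} {A B : AddSubgroup Λ} {a : σ} {L : List σ}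

theorem ex_pr (c : KK Λ (a :: L)) : ∃ x y, c = pr a x y := ⟨c.1, c.2, rfl⟩

theorem pr_add (x y x' y' : KK Λ L) : pr a x y + pr a x' y' = pr a (x + x') (y + y') := rfl

theorem pr_sub (x y x' y' : KK Λ L) : pr a x y - pr a x' y' = pr a (x - x') (y - y') := rfl

theorem pr_smul (z : Λ) (x y : KK Λ L) : z • pr a x y = pr a (z • x) (z • y) := rfl

theorem pr_zero : pr a (0 : KK Λ L) 0 = 0 := rfl

theorem dd_pr (x y : KK Λ L) :
    dd F (a :: L) (pr a x y) = pr a (dd F L x) (F a • x - dd F L y) := rfl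

theorem mem_pr {i : ℤ} {x y : KK Λ L} :
    pr a x y ∈ fam A (a :: L) i ↔ x ∈ fam A L i ∧ y ∈ fam A L (i - 1) := Iff.rfl

theorem pj_pr (π : Λ →+ Λ) (x y : KK Λ L) :
    pj π (a :: L) (pr a x y) = pr a (pj π L x) (pj π L y) := rfl

theorem top_cons (x : Λ) : top (a :: L) x = pr a 0 (top L x) := rfl

theorem vl_sub (x y : KK Λ ([] : List σ)) : vl (x - y) = vl x - vl y := rfl

theorem vl_smul (z : Λ) (x : KK Λ ([] : List σ)) : vl (z • x) = z * vl x := rfl

theorem vl_em (x : Λ) : vl (em σ x) = x := rfl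

theorem vl_pj (π : Λ →+ Λ) (x : KK Λ ([] : List σ)) : vl (pj π [] x) = π (vl x) := rfl

theorem mem_nil {i : ℤ} {x : KK Λ ([] : List σ)} :
    x ∈ fam A [] i ↔ vl x ∈ A ∧ (i = 0 ∨ x = 0) := by
  by_cases h : i = 0
  · subst h
    simp only [true_or, and_true]
    rfl
  · have : fam A ([] : List σ) i = ⊥ := if_neg h
    rw [this, AddSubgroup.mem_bot]
    exact ⟨fun h' => ⟨h' ▸ A.zero_mem, Or.inr h'⟩, fun h' => h'.2.resolve_left h⟩

theorem dd_dd (L : List σ) (c : KK Λ L) : dd F L (dd F L c) = 0 := by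
  induction L with
  | nil => rfl
  | cons a L ih =>
    obtain ⟨x, y, rfl⟩ := ex_pr c
    rw [dd_pr, dd_pr, map_sub, map_smul, ih, ih, sub_zero, sub_self, pr_zero]

theorem fam_smul {z : Λ} (h : ∀ x ∈ A, z * x ∈ B) (L : List σ) (i : ℤ) (c : KK Λ L)
    (hc : c ∈ fam A L i) : z • c ∈ fam B L i := by
  induction L generalizing i with
  | nil =>
    rw [mem_nil] at *
    exact ⟨h _ hc.1, hc.2.imp_right fun h => by simp [h]⟩
  | cons a L ih =>
    obtain ⟨x, y, rfl⟩ := ex_pr c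
    rw [pr_smul, mem_pr] at *
    exact ⟨ih _ _ hc.1, ih _ _ hc.2⟩

theorem fam_mono (h : A ≤ B) (L : List σ) (i : ℤ) (c : KK Λ L) (hc : c ∈ fam A L i) :
    c ∈ fam B L i := by
  simpa using fam_smul (z := 1) (fun x hx => by simpa using h hx) L i c hc

theorem fam_dd (h : ∀ l, ∀ x ∈ A, F l * x ∈ A) (L : List σ) (i : ℤ) (c : KK Λ L)
    (hc : c ∈ fam A L i) : dd F L c ∈ fam A L (i + 1) := by
  induction L generalizing i with
  | nil => exact zero_mem _
  | cons a L ih =>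
    obtain ⟨x, y, rfl⟩ := ex_pr c
    rw [dd_pr, mem_pr] at *
    refine ⟨ih _ _ hc.1, ?_⟩
    have := ih _ _ hc.2
    rw [sub_add_cancel] at this
    rw [add_sub_cancel_right]
    exact sub_mem (fam_smul (h a) L i x hc.1) this

theorem fam_eq_zero (L : List σ) (i : ℤ) (hi : i < 0 ∨ (L.length : ℤ) < i) (c : KK Λ L)
    (hc : c ∈ fam A L i) : c = 0 := by
  induction L generalizing i with
  | nil =>
    exact (mem_nil.1 hc).2.resolve_left (by simp at hi; omega)
  | cons a L ih =>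
    obtain ⟨x, y, rfl⟩ := ex_pr c
    simp only [List.length_cons] at hi
    rw [ih i (by omega) _ (mem_pr.1 hc).1, ih (i - 1) (by omega) _ (mem_pr.1 hc).2, pr_zero]

theorem fam_cancel {t : Λ} (h : ∀ x ∈ A, t * x ∈ B → x ∈ B) (L : List σ) (i : ℤ) (c : KK Λ L)
    (hc : c ∈ fam A L i) (h' : t • c ∈ fam B L i) : c ∈ fam B L i := by
  induction L generalizing i with
  | nil =>
    rw [mem_nil] at *
    exact ⟨h _ hc.1 h'.1, hc.2⟩
  | cons a L ih =>
    obtain ⟨x, y, rfl⟩ := ex_pr c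
    rw [pr_smul, mem_pr] at *
    exact ⟨ih _ _ hc.1 h'.1, ih _ _ hc.2 h'.2⟩

theorem fam_sup {t : Λ} (L : List σ) (i : ℤ) (c : KK Λ L)
    (hc : c ∈ fam (B ⊔ A.map (AddMonoidHom.mulLeft t)) L i) :
    ∃ e ∈ fam A L i, c - t • e ∈ fam B L i := by
  induction L generalizing i with
  | nil =>
    obtain ⟨h1, h2 | rfl⟩ := mem_nil.1 hc
    · obtain ⟨b, hb, _, ⟨e, he, rfl⟩, h3⟩ := AddSubgroup.mem_sup.1 h1
      refine ⟨em σ e, mem_nil.2 ⟨he, Or.inl h2⟩, ?_⟩
      rw [mem_nil, vl_sub, vl_smul, vl_em, ← h3]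
      exact ⟨by simpa using hb, Or.inl h2⟩
    · exact ⟨0, zero_mem _, by simp⟩
  | cons a L ih =>
    obtain ⟨x, y, rfl⟩ := ex_pr c
    obtain ⟨e, he, h⟩ := ih _ _ (mem_pr.1 hc).1
    obtain ⟨e', he', h'⟩ := ih _ _ (mem_pr.1 hc).2
    exact ⟨pr a e e', mem_pr.2 ⟨he, he'⟩, by rw [pr_smul, pr_sub, mem_pr]; exact ⟨h, h'⟩⟩

theorem exists_htp (L : List σ) (l : σ) (hl : l ∈ L) : ∃ h : KK Λ L →ₗ[Λ] KK Λ L,
    (∀ (A : AddSubgroup Λ) i c, c ∈ fam A L (i + 1) → h c ∈ fam A L i) ∧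
      ∀ c, dd F L (h c) + h (dd F L c) = F l • c := by
  induction L with
  | nil => simp at hl
  | cons a L ih =>
    rcases List.mem_cons.1 hl with rfl | hl
    · obtain ⟨h, hh⟩ : ∃ h : KK Λ (l :: L) →ₗ[Λ] KK Λ (l :: L), ∀ x y, h (pr l x y) = pr l y 0 :=
        ⟨LinearMap.inl Λ (KK Λ L) (KK Λ L) ∘ₗ LinearMap.snd Λ (KK Λ L) (KK Λ L), fun _ _ => rfl⟩
      refine ⟨h, fun A i c hc => ?_, fun c => ?_⟩ <;> obtain ⟨x, y, rfl⟩ := ex_pr c
      · rw [hh, mem_pr]
        exact ⟨by simpa using (mem_pr.1 hc).2, zero_mem _⟩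
      · simp [hh, dd_pr, pr_add, pr_smul]
    · obtain ⟨h, h1, h2⟩ := ih hl
      obtain ⟨h', hh⟩ : ∃ h' : KK Λ (a :: L) →ₗ[Λ] KK Λ (a :: L),
          ∀ x y, h' (pr a x y) = pr a (h x) (-h y) := ⟨LinearMap.prodMap h (-h), fun _ _ => rfl⟩
      refine ⟨h', fun A i c hc => ?_, fun c => ?_⟩ <;> obtain ⟨x, y, rfl⟩ := ex_pr c
      · rw [hh, mem_pr]
        exact ⟨h1 A i _ (mem_pr.1 hc).1, neg_mem (h1 A _ _ (by simpa using (mem_pr.1 hc).2))⟩
      · rw [hh, dd_pr, dd_pr, hh, pr_add, pr_smul, h2 x, ← h2 y]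
        congr 1
        simp only [map_neg, map_sub, map_smul]
        abel

def Ex (F : σ → Λ) (L : List σ) (A B : AddSubgroup Λ) (i : ℤ) : Prop :=
  ∀ c ∈ fam A L i, dd F L c ∈ fam B L (i + 1) → ∃ c' ∈ fam A L (i - 1), c - dd F L c' ∈ fam B L i

def WReg (A : AddSubgroup Λ) : List Λ → AddSubgroup Λ → Prop
  | [], _ => True
  | t :: ts, B => (∀ x ∈ A, t * x ∈ B → x ∈ B) ∧ WReg A ts (B ⊔ A.map (AddMonoidHom.mulLeft t))

/-- A power of `t` acts on `A / B` through the ideal generated by the `F l`. -/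
def Nil [DecidableEq σ] (F : σ → Λ) (J : Finset σ) (A B : AddSubgroup Λ) (t : Λ) : Prop :=
  (∀ x ∈ A, t * x ∈ A) ∧ (∀ x ∈ B, t * x ∈ B) ∧ ∃ (r : ℕ) (s : σ → Λ),
    (∀ l, ∀ x ∈ A, s l * x ∈ A) ∧ (∀ l, ∀ x ∈ B, s l * x ∈ B) ∧
      ∀ x ∈ A, (t ^ r - ∑ l ∈ J, s l * F l) * x ∈ B

theorem stab_sup {z t : Λ} (hA : ∀ x ∈ A, z * x ∈ A) (hB : ∀ x ∈ B, z * x ∈ B) :
    ∀ x ∈ B ⊔ A.map (AddMonoidHom.mulLeft t), z * x ∈ B ⊔ A.map (AddMonoidHom.mulLeft t) := by
  intro x hx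
  obtain ⟨b, hb, _, ⟨e, he, rfl⟩, rfl⟩ := AddSubgroup.mem_sup.1 hx
  rw [mul_add]
  exact AddSubgroup.add_mem_sup (hB b hb) ⟨z * e, hA e he, by simp [mul_left_comm]⟩

theorem ex_of_wreg [DecidableEq σ] (L : List σ) (hA : ∀ l, ∀ x ∈ A, F l * x ∈ A) (ts : List Λ)
    (B : AddSubgroup Λ) (hB : ∀ l, ∀ x ∈ B, F l * x ∈ B) (hw : WReg A ts B)
    (hn : ∀ t ∈ ts, Nil F L.toFinset A B t) (i : ℤ) (hi : i < ts.length) : Ex F L A B i := by
  induction ts generalizing B i with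
  | nil =>
    intro c hc _
    rw [fam_eq_zero L i (Or.inl (by simpa using hi)) c hc]
    exact ⟨0, zero_mem _, by simp⟩
  | cons t ts ih =>
    obtain ⟨tA, tB, r, s, sA, sB, hs⟩ := hn t List.mem_cons_self
    have h1 := ih _ (fun l => stab_sup (hA l) (hB l)) hw.2 (fun t' ht' => by
      obtain ⟨tA', tB', r, s, sA, sB, hs⟩ := hn t' (List.mem_cons_of_mem _ ht')
      exact ⟨tA', stab_sup tA' tB', r, s, sA, fun l => stab_sup (sA l) (sB l),
        fun x hx => AddSubgroup.mem_sup_left (hs x hx)⟩) (i - 1)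
      (by simp only [List.length_cons] at hi; omega)
    have key : ∀ c ∈ fam A L i, (∃ c' ∈ fam A L (i - 1), t • c - dd F L c' ∈ fam B L i) →
        ∃ c' ∈ fam A L (i - 1), c - dd F L c' ∈ fam B L i := by
      rintro c hc ⟨c', hc', h⟩
      obtain ⟨c'', -, h2⟩ := h1 c' hc' (by
        rw [sub_add_cancel, show dd F L c' = t • c - (t • c - dd F L c') by abel]
        exact sub_mem (fam_smul (fun x hx => AddSubgroup.mem_sup_right
          (AddSubgroup.mem_map.2 ⟨x, hx, rfl⟩)) L i c hc) (fam_mono le_sup_left L i _ h))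
      obtain ⟨e, he, h3⟩ := fam_sup L _ _ h2
      have h4 := fam_dd hB L _ _ h3
      have h5 := fam_dd hA L _ _ he
      rw [sub_add_cancel] at h4 h5
      refine ⟨e, he, fam_cancel hw.1 L i _ (sub_mem hc h5) ?_⟩
      have := add_mem h h4
      simp only [map_sub, map_smul, dd_dd] at this
      convert this using 1
      rw [smul_sub]
      abel
    intro c hc hd
    have hr : ∃ c' ∈ fam A L (i - 1), t ^ r • c - dd F L c' ∈ fam B L i := by
      have : ∀ J ⊆ L.toFinset, ∃ c' ∈ fam A L (i - 1),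
          (∑ l ∈ J, s l * F l) • c - dd F L c' ∈ fam B L i := by
        intro J hJ
        induction J using Finset.induction_on with
        | empty => exact ⟨0, zero_mem _, by simp⟩
        | insert l J hl ih' =>
          obtain ⟨c', hc', h⟩ := ih' ((Finset.subset_insert _ _).trans hJ)
          obtain ⟨h0, h2, h3⟩ := exists_htp (F := F) L l
            (List.mem_toFinset.1 (hJ (Finset.mem_insert_self _ _)))
          refine ⟨s l • h0 c + c', add_mem (fam_smul (sA l) L _ _ (h2 A _ _ (by simpa using hc)))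
            hc', ?_⟩
          have := add_mem (fam_smul (sB l) L _ _ (h2 B _ _ hd)) h
          convert this using 1
          rw [Finset.sum_insert hl, add_smul, mul_smul, ← h3 c, map_add, map_smul, smul_add]
          abel
      obtain ⟨c', hc', h⟩ := this _ subset_rfl
      refine ⟨c', hc', ?_⟩
      have := add_mem (fam_smul hs L i c hc) h
      convert this using 1
      rw [sub_smul]
      abel
    clear hs
    induction r with
    | zero => simpa using hr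
    | succ r ih' =>
      refine ih' (key _ (fam_smul (fun x hx => ?_) L i c hc) (by rwa [← mul_smul, ← pow_succ']))
      clear hr ih'
      induction r with
      | zero => simpa using hx
      | succ r ih'' => rw [pow_succ', mul_assoc]; exact tA _ ih''

/-- A grading of `Λ`, bounded below on `A`, for which the `F l` have degree one. -/
structure Grd (F : σ → Λ) (A B : AddSubgroup Λ) (π : ℤ → Λ →+ Λ) (d₀ : ℤ) : Prop where
  mul : ∀ l e x, π (e + 1) (F l * x) = F l * π e x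
  memA : ∀ e, ∀ x ∈ A, π e x ∈ A
  memB : ∀ e, ∀ x ∈ B, π e x ∈ B
  low : ∀ e < d₀, ∀ x ∈ A, π e x = 0
  fin : ∀ x, ∃ s : Finset ℤ, ∀ s', s ⊆ s' → ∑ e ∈ s', π e x = x

theorem pj_mem {π : Λ →+ Λ} (h : ∀ x ∈ A, π x ∈ B) (L : List σ) (i : ℤ) (c : KK Λ L)
    (hc : c ∈ fam A L i) : pj π L c ∈ fam B L i := by
  induction L generalizing i with
  | nil =>
    rw [mem_nil] at *
    exact ⟨h _ hc.1, hc.2.imp_right fun h => by simp [h]⟩
  | cons a L ih =>
    obtain ⟨x, y, rfl⟩ := ex_pr c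
    rw [pj_pr, mem_pr] at *
    exact ⟨ih _ _ hc.1, ih _ _ hc.2⟩

theorem pj_smul {π π' : Λ →+ Λ} {z : Λ} (h : ∀ x, π' (z * x) = z * π x) (L : List σ)
    (c : KK Λ L) : pj π' L (z • c) = z • pj π L c := by
  induction L with
  | nil => exact h c
  | cons a L ih =>
    obtain ⟨x, y, rfl⟩ := ex_pr c
    rw [pr_smul, pj_pr, pj_pr, pr_smul, ih, ih]

theorem pj_dd {π π' : Λ →+ Λ} (h : ∀ l x, π' (F l * x) = F l * π x) (L : List σ)
    (c : KK Λ L) : pj π' L (dd F L c) = dd F L (pj π L c) := by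
  induction L with
  | nil => exact map_zero π'
  | cons a L ih =>
    obtain ⟨x, y, rfl⟩ := ex_pr c
    rw [dd_pr, pj_pr, pj_pr, dd_pr, map_sub, ih, ih, pj_smul (h a)]

theorem fam_bot (L : List σ) (i : ℤ) (c : KK Λ L) (hc : c ∈ fam ⊥ L i) : c = 0 := by
  induction L generalizing i with
  | nil =>
    exact AddSubgroup.mem_bot.1 (mem_nil.1 hc).1
  | cons a L ih =>
    obtain ⟨x, y, rfl⟩ := ex_pr c
    rw [ih _ _ (mem_pr.1 hc).1, ih _ _ (mem_pr.1 hc).2, pr_zero]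

theorem pj_fin {π : ℤ → Λ →+ Λ} (h : ∀ x, ∃ s : Finset ℤ, ∀ s', s ⊆ s' → ∑ e ∈ s', π e x = x)
    (L : List σ) (c : KK Λ L) : ∃ s : Finset ℤ, ∀ s', s ⊆ s' → ∑ e ∈ s', pj (π e) L c = c := by
  induction L with
  | nil => exact h c
  | cons a L ih =>
    obtain ⟨x, y, rfl⟩ := ex_pr c
    obtain ⟨s₁, h₁⟩ := ih x
    obtain ⟨s₂, h₂⟩ := ih y
    refine ⟨s₁ ∪ s₂, fun s' hs => ?_⟩
    have : ∀ s' : Finset ℤ, ∑ e ∈ s', pj (π e) (a :: L) (pr a x y) =
        pr a (∑ e ∈ s', pj (π e) L x) (∑ e ∈ s', pj (π e) L y) := by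
      intro s'
      induction s' using Finset.induction_on with
      | empty => rfl
      | insert e s he ih => rw [Finset.sum_insert he, Finset.sum_insert he, Finset.sum_insert he, ih, pj_pr, pr_add]
    rw [this, h₁ s' (Finset.subset_union_left.trans hs), h₂ s' (Finset.subset_union_right.trans hs)]

theorem ex_tail {π : ℤ → Λ →+ Λ} {d₀ : ℤ} (hG : Grd F A B π d₀)
    (hA : ∀ l, ∀ x ∈ A, F l * x ∈ A) (hB : ∀ l, ∀ x ∈ B, F l * x ∈ B) {i : ℤ}
    (h : Ex F (a :: L) A B (i + 1)) : Ex F L A B i := by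
  have low : ∀ e < d₀, ∀ c ∈ fam A L i,
      ∃ c' ∈ fam A L (i - 1), pj (π e) L c - dd F L c' ∈ fam B L i := by
    intro e he c hc
    rw [fam_bot L i _ (pj_mem (fun x hx => AddSubgroup.mem_bot.2 (hG.low _ he x hx)) L i c hc)]
    exact ⟨0, zero_mem _, by simp⟩
  have key : ∀ e, d₀ - 1 ≤ e → ∀ c ∈ fam A L i, dd F L c ∈ fam B L (i + 1) →
      ∃ c' ∈ fam A L (i - 1), pj (π e) L c - dd F L c' ∈ fam B L i := by
    intro e he
    induction e, he using Int.leInduction with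
    | base => exact fun c hc _ => low _ (by omega) c hc
    | succ e _ ih =>
      intro c hc hd
      obtain ⟨c₀, h0, h1⟩ := h (pr a 0 c) (mem_pr.2 ⟨zero_mem _, by simpa using hc⟩)
        (by rw [dd_pr, mem_pr]; exact ⟨by simp, by simpa using hd⟩)
      obtain ⟨x, y, rfl⟩ := ex_pr c₀
      rw [dd_pr, pr_sub, mem_pr] at h1
      rw [mem_pr] at h0
      simp only [add_sub_cancel_right, zero_sub, neg_mem_iff] at h0 h1
      obtain ⟨c', hc', h3⟩ := ih x h0.1 h1.1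
      refine ⟨F a • c' - pj (π e) L y, sub_mem (fam_smul (hA a) L _ _ hc')
        (pj_mem (hG.memA e) L _ _ h0.2), ?_⟩
      have h4 := pj_mem (hG.memB (e + 1)) L _ _ h1.2
      rw [map_sub, map_sub, pj_smul (hG.mul a e), pj_dd (fun l => hG.mul l e)] at h4
      have := add_mem h4 (fam_smul (hB a) L _ _ h3)
      convert this using 1
      rw [map_sub, map_smul, smul_sub]
      abel
  intro c hc hd
  obtain ⟨s, hs⟩ := pj_fin hG.fin L c
  have : ∀ s : Finset ℤ, ∃ c' ∈ fam A L (i - 1),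
      ∑ e ∈ s, pj (π e) L c - dd F L c' ∈ fam B L i := by
    intro s
    induction s using Finset.induction_on with
    | empty => exact ⟨0, zero_mem _, by simp⟩
    | insert e s he ih =>
      obtain ⟨c₁, h₁, h₁'⟩ := ih
      obtain ⟨c₂, h₂, h₂'⟩ : ∃ c' ∈ fam A L (i - 1), pj (π e) L c - dd F L c' ∈ fam B L i := by
        by_cases he : d₀ - 1 ≤ e
        · exact key e he c hc hd
        · exact low e (by omega) c hc
      refine ⟨c₂ + c₁, add_mem h₂ h₁, ?_⟩
      have := add_mem h₂' h₁'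
      convert this using 1
      rw [Finset.sum_insert he, map_add]
      abel
  simpa only [hs s subset_rfl] using this s

theorem dd_top (L : List σ) (x : Λ) : dd F L (top L x) = 0 := by
  induction L with
  | nil => rfl
  | cons a L ih => rw [top_cons, dd_pr, ih]; simp [pr_zero]

theorem top_mem (L : List σ) {x : Λ} : top L x ∈ fam A L L.length ↔ x ∈ A := by
  induction L with
  | nil => exact mem_nil.trans ⟨fun h => h.1, fun h => ⟨h, Or.inl rfl⟩⟩
  | cons a L ih => rw [top_cons, mem_pr]; simp [ih]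

theorem exists_top (L : List σ) (c : KK Λ L) (hc : c ∈ fam A L L.length) :
    ∃ x ∈ A, c = top L x := by
  induction L with
  | nil => exact ⟨vl c, (mem_nil.1 hc).1, rfl⟩
  | cons a L ih =>
    obtain ⟨x, y, rfl⟩ := ex_pr c
    obtain ⟨z, hz, rfl⟩ := ih y (by simpa using (mem_pr.1 hc).2)
    exact ⟨z, hz, by rw [top_cons, fam_eq_zero L _ (Or.inr (by simp)) x (mem_pr.1 hc).1]⟩

/-- The sums `∑ F l * m l` with `l` in the list and `m l ∈ A`. -/
def Sm (F : σ → Λ) (A : AddSubgroup Λ) : List σ → AddSubgroup Λ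
  | [] => ⊥
  | a :: L => A.map (AddMonoidHom.mulLeft (F a)) ⊔ Sm F A L

theorem mem_Sm_iff (L : List σ) {z : Λ} :
    z ∈ Sm F A L ↔ ∃ c ∈ fam A L (L.length - 1), dd F L c = top L z := by
  induction L generalizing z with
  | nil =>
    refine ⟨fun h => ⟨0, zero_mem _, by rw [AddSubgroup.mem_bot.1 h]; rfl⟩, ?_⟩
    rintro ⟨c, -, h⟩
    exact AddSubgroup.mem_bot.2 (Eq.symm h)
  | cons a L ih =>
    constructor
    · intro h
      obtain ⟨_, ⟨m, hm, rfl⟩, z', hz', rfl⟩ := AddSubgroup.mem_sup.1 h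
      obtain ⟨c, hc, h⟩ := ih.1 hz'
      refine ⟨pr a (top L m) (-c), mem_pr.2 ⟨by simpa using (top_mem L).2 hm,
        neg_mem (by simpa using hc)⟩, ?_⟩
      rw [dd_pr, dd_top, top_cons, map_neg, h, sub_neg_eq_add, ← map_smul, ← map_add]
      rfl
    · rintro ⟨c, hc, h⟩
      obtain ⟨x, y, rfl⟩ := ex_pr c
      rw [mem_pr] at hc
      obtain ⟨m, hm, rfl⟩ := exists_top L x (by simpa using hc.1)
      have h2 : F a • top L m - dd F L y = top L z := congrArg Prod.snd h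
      have : z - F a * m ∈ Sm F A L := ih.2 ⟨-y, neg_mem (by simpa using hc.2), by
        rw [map_neg, map_sub, ← h2, ← smul_eq_mul, map_smul]
        abel⟩
      exact AddSubgroup.mem_sup.2 ⟨_, AddSubgroup.mem_map.2 ⟨m, hm, rfl⟩, _, this, by simp⟩

theorem inj_of_ex (h : Ex F (a :: L) A B L.length) {x : Λ} (hx : x ∈ A)
    (h1 : F a * x ∈ Sm F A L ⊔ B) : x ∈ Sm F A L ⊔ B := by
  obtain ⟨z, hz, b, hb, e⟩ := AddSubgroup.mem_sup.1 h1
  obtain ⟨c, hc, h2⟩ := (mem_Sm_iff L).1 hz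
  obtain ⟨c₀, h0, h3⟩ := h (pr a (top L x) c) (mem_pr.2 ⟨(top_mem L).2 hx, hc⟩) (by
    rw [dd_pr, dd_top, mem_pr, h2, ← map_smul, ← map_sub, smul_eq_mul, ← e, add_sub_cancel_left,
      add_sub_cancel_right]
    exact ⟨zero_mem _, (top_mem L).2 hb⟩)
  obtain ⟨x', y', rfl⟩ := ex_pr c₀
  rw [dd_pr, pr_sub, mem_pr] at h3
  obtain ⟨b', hb', h4⟩ := exists_top L _ h3.1
  have : x - b' ∈ Sm F A L := (mem_Sm_iff L).2 ⟨x', (mem_pr.1 h0).1, by
    rw [map_sub, ← h4]
    abel⟩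
  simpa using AddSubgroup.add_mem_sup this hb'

theorem regular [DecidableEq σ] {π : ℤ → Λ →+ Λ} {d₀ : ℤ} (hG : Grd F A B π d₀)
    (hA : ∀ l, ∀ x ∈ A, F l * x ∈ A) (hB : ∀ l, ∀ x ∈ B, F l * x ∈ B) (L' : List σ)
    (ts : List Λ) (hw : WReg A ts B) (hn : ∀ t ∈ ts, Nil F (L' ++ a :: L).toFinset A B t)
    (hl : (L' ++ a :: L).length ≤ ts.length) {x : Λ} (hx : x ∈ A)
    (h1 : F a * x ∈ Sm F A L ⊔ B) : x ∈ Sm F A L ⊔ B := by
  have key : ∀ L' : List σ, (∀ i < ((L' ++ a :: L).length : ℤ), Ex F (L' ++ a :: L) A B i) →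
      Ex F (a :: L) A B L.length := by
    intro L'
    induction L' with
    | nil => exact fun h => h _ (by simp)
    | cons b L' ih =>
      exact fun h => ih fun i hi => ex_tail hG hA hB (h (i + 1) (by
        simp only [List.cons_append, List.length_cons] at hi ⊢
        omega))
  exact inj_of_ex (key L' fun i hi => ex_of_wreg _ hA ts B hB hw hn i (by omega)) hx h1

end Kos

end

end Pool.Agent.P.MP_b91a16_ag
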