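import Pool.Agent.P.MP_b91a16_ag.RegAlg

/-! Spans of sets of monomials in a group algebra, and the moving lemma. -/

set_option linter.unusedSectionVars false

namespace Pool.Agent.P.MP_b91a16_ag

noncomputable section

namespace RA

variable {k G : Type} [CommRing k] [AddCommGroup G]

def ee (p : G) : AddMonoidAlgebra k G := AddMonoidAlgebra.single p 1

def sp (k : Type) [CommRing k] (A : Set G) : Submodule k (AddMonoidAlgebra k G) :=
  AddMonoidAlgebra.supported k k A

def lin' {M : Type} [AddCommGroup M] [Module k M] (φ : G → M) : AddMonoidAlgebra k G →ₗ[k] M :=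
  (AddMonoidAlgebra.basis G k).constr k φ

theorem lin'_ee {M : Type} [AddCommGroup M] [Module k M] (φ : G → M) (p : G) :
    lin' φ (ee p : AddMonoidAlgebra k G) = φ p :=
  (AddMonoidAlgebra.basis G k).constr_basis k φ p

theorem ee_mul (p q : G) : (ee p * ee q : AddMonoidAlgebra k G) = ee (p + q) := by
  simp [ee, AddMonoidAlgebra.single_mul_single]

theorem ee_zero : (ee 0 : AddMonoidAlgebra k G) = 1 := rfl

theorem ee_pow (p : G) (n : ℕ) : (ee p ^ n : AddMonoidAlgebra k G) = ee (n • p) := by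
  simp [ee, AddMonoidAlgebra.single_pow]

theorem mem_sp {A : Set G} {x : AddMonoidAlgebra k G} :
    x ∈ sp k A ↔ ∀ p, x.coeff p ≠ 0 → p ∈ A :=
  AddMonoidAlgebra.mem_supported'.trans (forall_congr' fun _ => not_imp_comm)

theorem ee_mem {A : Set G} {p : G} (h : p ∈ A) : ee p ∈ sp k A := mem_sp.2 fun q hq => by
  classical
  by_contra h'
  have : p ≠ q := fun e => h' (e ▸ h)
  simp [ee, this] at hq

theorem sp_eq (A : Set G) : sp k A = Submodule.span k (ee '' A) :=
  AddMonoidAlgebra.supported_eq_span_single k A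

theorem sp_le {A : Set G} {N : Submodule k (AddMonoidAlgebra k G)} (h : ∀ p ∈ A, ee p ∈ N) :
    sp k A ≤ N := by
  rw [sp_eq, Submodule.span_le]
  rintro _ ⟨p, hp, rfl⟩
  exact h p hp

theorem sp_map {M : Type} [AddCommGroup M] [Module k M] {A : Set G} {N : Submodule k M}
    (φ : AddMonoidAlgebra k G →ₗ[k] M) (h : ∀ p ∈ A, φ (ee p) ∈ N) {x : AddMonoidAlgebra k G}
    (hx : x ∈ sp k A) : φ x ∈ N := sp_le (N := N.comap φ) h hx

theorem mem_sp_univ (x : AddMonoidAlgebra k G) : x ∈ sp k Set.univ := mem_sp.2 fun _ _ => trivial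

theorem hom_ext {M : Type} [AddCommGroup M] [Module k M] {φ ψ : AddMonoidAlgebra k G →ₗ[k] M}
    (h : ∀ p, φ (ee p) = ψ (ee p)) : φ = ψ := (AddMonoidAlgebra.basis G k).ext h

theorem sp_mono {A B : Set G} (h : A ⊆ B) : sp k A ≤ sp k B := sp_le fun _ hp => ee_mem (h hp)

theorem sp_inf (A B : Set G) : sp k A ⊓ sp k B = sp k (A ∩ B) := by
  ext x
  simp only [Submodule.mem_inf, mem_sp, Set.mem_inter_iff]
  exact ⟨fun h p hp => ⟨h.1 p hp, h.2 p hp⟩, fun h => ⟨fun p hp => (h p hp).1, fun p hp => (h p hp).2⟩⟩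

theorem sp_union (A B : Set G) : sp k (A ∪ B) = sp k A ⊔ sp k B := by
  rw [sp_eq, sp_eq, sp_eq, Set.image_union, Submodule.span_union]

theorem mul_mem_sp {A B C : Set G} (h : ∀ c ∈ C, ∀ a ∈ A, c + a ∈ B)
    {z x : AddMonoidAlgebra k G} (hz : z ∈ sp k C) (hx : x ∈ sp k A) : z * x ∈ sp k B :=
  sp_map (LinearMap.mulRight k x) (fun c hc => sp_map (LinearMap.mulLeft k (ee c))
    (fun a ha => by rw [LinearMap.mulLeft_apply, ee_mul]; exact ee_mem (h c hc a ha)) hx) hz

theorem coeff_ee_mul (t p : G) (x : AddMonoidAlgebra k G) :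
    (ee t * x).coeff (t + p) = x.coeff p := by
  simp [ee]

theorem cancel_sp {A B : Set G} {t : G} (h : ∀ p ∈ A, t + p ∈ B → p ∈ B)
    {x : AddMonoidAlgebra k G} (hx : x ∈ sp k A) (h' : ee t * x ∈ sp k B) : x ∈ sp k B :=
  mem_sp.2 fun p hp => h p (mem_sp.1 hx p hp) (mem_sp.1 h' _ (by rwa [coeff_ee_mul]))

theorem sp_shift (A B : Set G) (t : G) :
    (sp k B).toAddSubgroup ⊔ (sp k A).toAddSubgroup.map (AddMonoidHom.mulLeft (ee t)) =
      (sp k (B ∪ (fun p => t + p) '' A)).toAddSubgroup := by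
  have : (sp k A).map (LinearMap.mulLeft k (ee t)) = sp k ((fun p => t + p) '' A) := by
    rw [sp_eq, sp_eq, Submodule.map_span, Set.image_image, Set.image_image]
    simp only [LinearMap.mulLeft_apply, ee_mul]
  rw [sp_union, Submodule.sup_toAddSubgroup, ← this]
  rfl

def diag (c : G → k) : Module.End k (AddMonoidAlgebra k G) := lin' fun p => c p • ee p

theorem diag_ee (c : G → k) (p : G) : diag c (ee p) = c p • ee p := lin'_ee _ _

theorem diag_mem (c : G → k) {A : Set G} {x : AddMonoidAlgebra k G} (hx : x ∈ sp k A) :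
    diag c x ∈ sp k A :=
  sp_map _ (fun p hp => by rw [diag_ee]; exact Submodule.smul_mem _ _ (ee_mem hp)) hx

theorem diag_comm (c c' : G → k) : Commute (diag c) (diag c') := hom_ext fun p => by
  simp only [Module.End.mul_apply, diag_ee, map_smul, smul_comm (c p)]

theorem diag_mul_of_sp {H : AddSubgroup G} {c : G → k} (hc : ∀ h ∈ H, ∀ p, c (h + p) = c p)
    {z : AddMonoidAlgebra k G} (hz : z ∈ sp k H) (x : AddMonoidAlgebra k G) :
    diag c (z * x) = z * diag c x := by
  have : sp k (H : Set G) ≤ LinearMap.eqLocus (diag c ∘ₗ LinearMap.mulRight k x)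
      (LinearMap.mulRight k (diag c x)) := sp_le fun h hh => by
    have : diag c ∘ₗ LinearMap.mulLeft k (ee h) = LinearMap.mulLeft k (ee h) ∘ₗ diag c :=
      hom_ext fun p => by simp [ee_mul, diag_ee, hc h hh]
    exact LinearMap.congr_fun this x
  exact this hz

def pi (deg : G → ℤ) (e : ℤ) : Module.End k (AddMonoidAlgebra k G) :=
  diag fun p => if deg p = e then 1 else 0

theorem pi_ee (deg : G → ℤ) (e : ℤ) (p : G) :
    pi deg e (ee p : AddMonoidAlgebra k G) = if deg p = e then ee p else 0 := by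
  rw [pi, diag_ee]
  split_ifs <;> simp

theorem gr_pi (deg : G → ℤ) : Gr (pi (k := k) deg) := by
  refine ⟨fun e e' x => ?_, fun x => ?_⟩
  · have : pi (k := k) deg e ∘ₗ pi deg e' = if e = e' then pi deg e else 0 := hom_ext fun p => by
      by_cases h : e = e' <;> by_cases h' : deg p = e' <;> simp [pi_ee, h, h', Ne.symm]
    have := LinearMap.congr_fun this x
    split_ifs at this ⊢ <;> exact this
  · classical
    refine ⟨x.coeff.support.image deg, fun s hs => ?_⟩
    have : sp k (x.coeff.support : Set G) ≤ LinearMap.eqLocus (∑ e ∈ s, pi deg e) LinearMap.id :=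
      sp_le fun p hp => by
        have : deg p ∈ s := hs (Finset.mem_image_of_mem _ hp)
        simp [LinearMap.mem_eqLocus, pi_ee, this]
    simpa using this (mem_sp.2 fun p hp => Finsupp.mem_support_iff.2 hp)

theorem pi_mul {deg : G →+ ℤ} {z : AddMonoidAlgebra k G} (hz : z ∈ sp k {p | deg p = 1}) (e : ℤ)
    (x : AddMonoidAlgebra k G) : pi deg (e + 1) (z * x) = z * pi deg e x := by
  have : sp k {p | deg p = 1} ≤ LinearMap.eqLocus (pi deg (e + 1) ∘ₗ LinearMap.mulRight k x)
      (LinearMap.mulRight k (pi deg e x)) := sp_le fun h hh => by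
    have : pi deg (e + 1) ∘ₗ LinearMap.mulLeft k (ee h) =
        LinearMap.mulLeft k (ee h) ∘ₗ pi deg e := hom_ext fun p => by
      have hh' : deg h = 1 := hh
      by_cases h' : deg p = e <;> simp [ee_mul, pi_ee, hh', h', add_comm (1 : ℤ)]
    exact LinearMap.congr_fun this x
  exact this hz

theorem pi_low {deg : G → ℤ} {A : Set G} {d₀ : ℤ} (h : ∀ p ∈ A, d₀ ≤ deg p) :
    ∀ e < d₀, ∀ x ∈ sp k A, pi deg e x = 0 := fun e he _ hx =>
  (Submodule.mem_bot k).1 (sp_map _ (fun p hp => by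
    rw [pi_ee, if_neg (by have := h p hp; omega)]
    exact zero_mem _) hx)

/-- The vectors that some element of `S` moves into `N`. -/
def sat {M : Type} [AddCommGroup M] [Module k M] (S : Submonoid (Module.End k M))
    (hS : ∀ u ∈ S, ∀ v ∈ S, Commute u v) (N : Submodule k M) (hN : ∀ u ∈ S, ∀ x ∈ N, u x ∈ N) :
    Submodule k M where
  carrier := {x | ∃ u ∈ S, u x ∈ N}
  zero_mem' := ⟨1, one_mem _, zero_mem _⟩
  add_mem' := by
    rintro x y ⟨u, hu, hx⟩ ⟨v, hv, hy⟩
    refine ⟨u * v, mul_mem hu hv, ?_⟩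
    rw [map_add]
    refine add_mem ?_ (hN u hu _ hy)
    rw [(hS u hu v hv).eq]
    exact hN v hv _ hx
  smul_mem' := by
    rintro c x ⟨u, hu, hx⟩
    exact ⟨u, hu, by rw [map_smul]; exact N.smul_mem c hx⟩

theorem closed_sum {γ : Type} [Fintype γ] (sh : γ → G) {C : Set G}
    (hC : ∀ p ∈ C, ∀ g, p + sh g ∈ C) : ∀ p ∈ C, ∀ c : γ → ℕ, p + ∑ g, c g • sh g ∈ C := by
  intro p hp c
  refine Finset.sum_induction _ (fun z => ∀ p ∈ C, p + z ∈ C) (fun a b ha hb p hp => ?_)
    (by simp) (fun g _ => ?_) p hp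
  · rw [← add_assoc]
    exact hb _ (ha p hp)
  · induction c g with
    | zero => simp
    | succ n ih =>
      intro p hp
      rw [succ_nsmul, ← add_assoc]
      exact hC _ (ih p hp) g

theorem moving {γ : Type} [Fintype γ] [DecidableEq γ] (sh : γ → G) {C : Set G}
    (N : Submodule k (AddMonoidAlgebra k G)) (hC : ∀ p ∈ C, ∀ g, p + sh g ∈ C)
    (h : ∀ p ∈ C, ∀ I : Finset γ, ((∀ g ∉ I, ee (p + sh g) ∈ N) → ee p ∈ N) ∨
      ∃ M : ℕ, ∀ c : γ → ℕ, (∀ g ∈ I, M ≤ c g) → ee (p + ∑ g, c g • sh g) ∈ N) :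
    ∀ p ∈ C, ee p ∈ N := by
  have hC' := closed_sum sh hC
  have e : ∀ (c : γ → ℕ) g, ∑ g', (c + Pi.single g 1 : γ → ℕ) g' • sh g' =
      sh g + ∑ g', c g' • sh g' := by
    intro c g
    simp [add_smul, Finset.sum_add_distrib, Pi.single_apply, add_comm]
  have key : ∀ I : Finset γ, ∀ p ∈ C,
      (∀ g ∉ I, ∀ c : γ → ℕ, ee (p + (sh g + ∑ g, c g • sh g)) ∈ N) → ee p ∈ N := by
    intro I
    induction I using Finset.strongInduction with
    | H I ih =>
    intro p hp H
    rcases h p hp I with h1 | ⟨M, hM⟩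
    · exact h1 fun g hg => by simpa using H g hg 0
    have : ∀ (n : ℕ) (c : γ → ℕ), ∑ g ∈ I, (M - c g) ≤ n → ee (p + ∑ g, c g • sh g) ∈ N := by
      intro n
      induction n with
      | zero =>
        exact fun c hc => hM c fun g hg =>
          Nat.sub_eq_zero_iff_le.1 (Finset.sum_eq_zero_iff.1 (Nat.le_zero.1 hc) g hg)
      | succ n ih' =>
        intro c hc
        by_cases h2 : ∀ g ∈ I, M ≤ c g
        · exact hM c h2
        refine ih (I.filter fun g => M ≤ c g) (Finset.filter_ssubset.2 (by simpa using h2)) _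
          (hC' p hp c) fun g hg c' => ?_
        have e2 : p + ∑ g, c g • sh g + (sh g + ∑ g, c' g • sh g) =
            p + (sh g + ∑ g, (c + c') g • sh g) := by
          simp only [Pi.add_apply, add_smul, Finset.sum_add_distrib]
          abel
        rw [e2]
        by_cases hI : g ∈ I
        · rw [← e]
          refine ih' _ (Nat.lt_succ_iff.1 (lt_of_lt_of_le (Finset.sum_lt_sum (fun g' _ => ?_)
            ⟨g, hI, ?_⟩) hc))
          · simp only [Pi.add_apply]
            omega
          · have : ¬M ≤ c g := fun h => hg (Finset.mem_filter.2 ⟨hI, h⟩)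
            simp only [Pi.add_apply, Pi.single_eq_same]
            omega
        · exact H g hI _
    simpa using this _ 0 le_rfl
  exact fun p hp => key Finset.univ p hp fun g hg => absurd (Finset.mem_univ g) hg

end RA

end

end Pool.Agent.P.MP_b91a16_ag
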