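import Pool.Agent.P.MP_b91a16_ag.Gamma

/-! A root of every Bernstein-Sato polynomial from a non-membership in a polynomial ideal. -/

set_option linter.unusedSectionVars false

open MvPolynomial

namespace Pool.Agent.P.MP_b91a16_ag

noncomputable section

variable {k : Type} [Field k] [CharZero k]
variable {σ ι : Type} [Fintype σ] [DecidableEq σ] [Fintype ι] [DecidableEq ι]

/-- The linear forms attached to the constraints. -/
def yy (k : Type) [Field k] (u : ι → σ → ℕ) : σ ⊕ ι → MvPolynomial ι k :=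
  Sum.elim (fun j => ∑ i, (u i j : MvPolynomial ι k) * X i) X

def AA (k : Type) [Field k] (u : ι → σ → ℕ) (NF : Finset (σ ⊕ ι) → Prop) :
    Ideal (MvPolynomial ι k) :=
  Ideal.span {p | ∃ Y, NF Y ∧ p = ∏ g ∈ Y, yy k u g}

attribute [local instance] MvPolynomial.gradedAlgebra in
theorem mem_AA_of_mul {u : ι → σ → ℕ} {NF : Finset (σ ⊕ ι) → Prop} {V : MvPolynomial ι k}
    (hV : constantCoeff V ≠ 0) (I : Finset ι) (h : V * ∏ i ∈ I, X i ∈ AA k u NF) :
    ∏ i ∈ I, X i ∈ AA k u NF := by
  have hy : ∀ g, (yy k u g).IsHomogeneous 1 := by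
    rintro (j | i)
    · refine IsHomogeneous.sum _ _ _ fun i _ => ?_
      simpa using (isHomogeneous_C ι (u i j : k)).mul (isHomogeneous_X k i)
    · exact isHomogeneous_X k i
  have hA : (AA k u NF).IsHomogeneous (homogeneousSubmodule ι k) := by
    refine Ideal.homogeneous_span _ _ ?_
    rintro _ ⟨Y, -, rfl⟩
    exact ⟨_, IsHomogeneous.prod Y _ (fun _ => 1) fun g _ => hy g⟩
  have hD : (∏ i ∈ I, X i : MvPolynomial ι k) ∈ homogeneousSubmodule ι k (∑ _i ∈ I, 1) :=
    IsHomogeneous.prod I _ (fun _ => 1) fun i _ => isHomogeneous_X k i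
  have h1 := hA.mem_iff.1 h (0 + ∑ _i ∈ I, 1)
  rw [DirectSum.coe_decompose_mul_add_of_right_mem _ hD] at h1
  have h2 : ((DirectSum.decompose (homogeneousSubmodule ι k) V 0 : homogeneousSubmodule ι k 0) :
      MvPolynomial ι k) = C (constantCoeff V) :=
    (decomposition.decompose'_apply V 0).trans (homogeneousComponent_zero V)
  have := (AA k u NF).mul_mem_left (C (constantCoeff V)⁻¹) h1
  rwa [h2, ← mul_assoc, ← C_mul, inv_mul_cancel₀ hV, C_1, one_mul] at this

abbrev Frac (ι k : Type) [Field k] : Type := FractionRing (MvPolynomial ι k)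

abbrev am : MvPolynomial ι k →+* Frac ι k := algebraMap _ _

/-- `φ` is a multiple of `y` in the local ring at the origin. -/
def Loc (φ : FractionRing (MvPolynomial ι k)) (y : MvPolynomial ι k) : Prop :=
  ∃ U p : MvPolynomial ι k, constantCoeff U ≠ 0 ∧
    φ * algebraMap _ _ U = algebraMap _ _ (p * y)

theorem Loc.mul {φ φ' : FractionRing (MvPolynomial ι k)} {y y' : MvPolynomial ι k}
    (h : Loc φ y) (h' : Loc φ' y') : Loc (φ * φ') (y * y') := by
  obtain ⟨U, p, hU, e⟩ := h
  obtain ⟨U', p', hU', e'⟩ := h'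
  refine ⟨U * U', p * p', by rw [map_mul]; exact mul_ne_zero hU hU', ?_⟩
  simp only [map_mul] at e e' ⊢
  linear_combination (φ' * algebraMap _ _ U') * e +
    (algebraMap _ _ p * algebraMap _ _ y) * e'

theorem Loc.of_mul (p y : MvPolynomial ι k) : Loc (algebraMap _ _ (p * y)) y :=
  ⟨1, p, by simp, by simp⟩

theorem Loc.of_one (p : MvPolynomial ι k) :
    Loc (algebraMap _ _ p) (1 : MvPolynomial ι k) := by
  simpa using Loc.of_mul p 1

theorem Loc.prod {α : Type} (s : Finset α) (φ : α → FractionRing (MvPolynomial ι k))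
    (y : α → MvPolynomial ι k) (h : ∀ x, Loc (φ x) (y x)) :
    Loc (∏ x ∈ s, φ x) (∏ x ∈ s, y x) :=
  Finset.prod_hom_rel (by simpa using Loc.of_one (1 : MvPolynomial ι k))
    fun x _ _ h' => (h x).mul h'

/-- The constraints that are forced to be tight by the exponent `c`. -/
def Pat (u : ι → σ → ℕ) (Z : Finset (σ ⊕ ι)) (Im : Finset ι) (lam : ι → ℚ) (c : ι → ℤ) :
    σ ⊕ ι → Prop :=
  Sum.elim (fun j => Sum.inl j ∉ Z ∧ ell u c j < 0)
    fun i => (Sum.inr i ∉ Z ∧ 0 < c i) ∨ (i ∈ Im ∧ -lam i < c i)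

theorem loc_rho (i : ι) (lam : ℚ) (c : ℤ) (M P : Prop) [Decidable M] [Decidable P]
    (hM : M ↔ ∃ l : ℕ, lam = l + 1) (h1 : P → (lam = 0 ∧ 0 < c) ∨ (M ∧ -lam < c))
    (h2 : M → -lam < c → P) :
    Loc (rho (algebraMap _ _ (X i - C (lam : k) : MvPolynomial ι k)) c *
      algebraMap _ _ (if M then X i else 1 : MvPolynomial ι k))
      (if P then X i else 1 : MvPolynomial ι k) := by
  rcases le_or_gt 0 c with hc | hc
  · have e : rho (algebraMap _ (FractionRing (MvPolynomial ι k))
        (X i - C (lam : k) : MvPolynomial ι k)) c = algebraMap _ _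
          (∏ l ∈ Finset.range c.toNat, (X i - C (lam : k) - (l : MvPolynomial ι k))) := by
      simp [rho, hc]
    rw [e, ← map_mul]
    by_cases hP : P
    · rw [if_pos hP]
      rcases h1 hP with ⟨rfl, h⟩ | ⟨h, -⟩
      · obtain ⟨l, hl⟩ : ∃ l, c.toNat = l + 1 := ⟨c.toNat - 1, by omega⟩
        rw [hl, Finset.prod_range_succ', mul_right_comm]
        rw [show (X i - C ((0 : ℚ) : k) - ((0 : ℕ) : MvPolynomial ι k)) = X i by simp]
        exact Loc.of_mul _ _
      · rw [if_pos h]
        exact Loc.of_mul _ _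
    · rw [if_neg hP]
      exact Loc.of_one _
  · have hne : ∀ l : ℕ, (algebraMap _ (FractionRing (MvPolynomial ι k))
        (X i - C (lam : k) + (l : MvPolynomial ι k) + 1)) ≠ 0 := by
      intro l
      rw [map_ne_zero_iff _ (IsFractionRing.injective _ _)]
      intro h
      simpa using congrArg (pderiv i) h
    have e : rho (algebraMap _ (FractionRing (MvPolynomial ι k))
        (X i - C (lam : k) : MvPolynomial ι k)) c = (∏ l ∈ Finset.range (-c).toNat, algebraMap _ _
          (X i - C (lam : k) + (l : MvPolynomial ι k) + 1))⁻¹ := by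
      simp [rho, hc.not_ge]
    have hcc : ∀ l : ℕ, lam ≠ l + 1 →
        constantCoeff (X i - C (lam : k) + (l : MvPolynomial ι k) + 1) ≠ 0 := by
      intro l hl h
      simp only [map_add, map_sub, constantCoeff_X, constantCoeff_C, map_natCast, map_one] at h
      refine hl (Rat.cast_injective (α := k) ?_)
      push_cast
      linear_combination -h
    rw [e]
    by_cases hl : ∃ l ∈ Finset.range (-c).toNat, lam = (l : ℕ) + 1
    · obtain ⟨l, hl, hlam⟩ := hl
      have hl' := Finset.mem_range.1 hl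
      have hP : ¬P := fun hP => by
        rcases h1 hP with ⟨-, h⟩ | ⟨-, h⟩
        · omega
        · rw [hlam] at h
          have : -((l : ℤ) + 1) < c := by exact_mod_cast h
          omega
      rw [if_neg hP, if_pos (hM.2 ⟨l, hlam⟩)]
      refine ⟨∏ l ∈ (Finset.range (-c).toNat).erase l, (X i - C (lam : k) + (l : MvPolynomial ι k) + 1), 1, ?_, ?_⟩
      · rw [map_prod]
        refine Finset.prod_ne_zero_iff.2 fun l' hl' => hcc l' fun h => ?_
        rw [hlam] at h
        exact Finset.ne_of_mem_erase hl' (by exact_mod_cast (add_right_cancel h).symm)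
      · have e2 : (X i : MvPolynomial ι k) = X i - C (lam : k) + (l : MvPolynomial ι k) + 1 := by
          rw [hlam]
          simp only [Rat.cast_add, Rat.cast_natCast, Rat.cast_one, map_add, map_natCast, map_one]
          ring
        rw [mul_assoc, ← map_mul]
        conv_lhs => rw [e2]
        rw [← e2, mul_one, map_one, inv_mul_eq_one₀ (Finset.prod_ne_zero_iff.2 fun l _ => hne l),
          ← map_prod, ← Finset.mul_prod_erase _ _ hl, ← e2]
    · push Not at hl
      refine ⟨∏ l ∈ Finset.range (-c).toNat, (X i - C (lam : k) + (l : MvPolynomial ι k) + 1),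
        if P then 1 else if M then X i else 1, ?_, ?_⟩
      · rw [map_prod]
        exact Finset.prod_ne_zero_iff.2 fun l' hl' => hcc l' (hl l' hl')
      · rw [map_prod, mul_right_comm,
          inv_mul_cancel₀ (Finset.prod_ne_zero_iff.2 fun l _ => hne l), one_mul]
        congr 1
        by_cases hP : P
        · rcases h1 hP with ⟨-, h⟩ | ⟨h, -⟩
          · omega
          · simp [hP, h]
        · simp [hP]

theorem root_of_notMem {n : ℕ} {u : ι → Fin n → ℕ} {a : ι → k} [Nonempty ι] (hu : Dual u)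
    (ha : ∀ i, a i ≠ 0) (hf : fpoly u a ≠ 0) (Z : Finset (Fin n ⊕ ι)) (Im : Finset ι)
    (lam : ι → ℚ) (NF : Finset (Fin n ⊕ ι) → Prop) (hIm : ∀ i, i ∈ Im ↔ ∃ l : ℕ, lam i = l + 1)
    (h1 : ∀ i, Sum.inr i ∉ Z → lam i = 0) (h2 : ∀ j, Sum.inl j ∉ Z → ∑ i, lam i * u i j = 1)
    (h3 : ∀ (c : ι → ℤ) (Y : Finset (Fin n ⊕ ι)), ∑ i, c i = -1 →
      (∀ g, g ∈ Y ↔ Pat u Z Im lam c g) → NF Y)
    (h4 : ∏ i ∈ Im, X i ∉ AA k u NF) {b : Polynomial k} (hb : BernsteinEq (fpoly u a) b) :
    b.eval (-((∑ i, lam i : ℚ) : k)) = 0 := by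
  classical
  by_contra hb0
  have hinj : Function.Injective (am (ι := ι) (k := k)) := IsFractionRing.injective _ _
  let θ : ι → MvPolynomial ι k := fun i => X i - C (lam i : k)
  let D : MvPolynomial ι k := ∏ i ∈ Im, X i
  let J : Submodule (MvPolynomial ι k) (Frac ι k) :=
    { carrier := {φ | ∃ U : MvPolynomial ι k, constantCoeff U ≠ 0 ∧ ∃ q ∈ AA k u NF,
        φ * am D * am U = am q}
      zero_mem' := ⟨1, by simp, 0, zero_mem _, by simp⟩
      add_mem' := by
        rintro φ φ' ⟨U, hU, q, hq, e⟩ ⟨U', hU', q', hq', e'⟩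
        refine ⟨U * U', by rw [map_mul]; exact mul_ne_zero hU hU', U' * q + U * q',
          add_mem (Ideal.mul_mem_left _ _ hq) (Ideal.mul_mem_left _ _ hq'), ?_⟩
        simp only [map_mul, map_add]
        linear_combination am U' * e + am U * e'
      smul_mem' := by
        rintro r φ ⟨U, hU, q, hq, e⟩
        refine ⟨U, hU, r * q, Ideal.mul_mem_left _ _ hq, ?_⟩
        rw [Algebra.smul_def, map_mul]
        linear_combination am r * e }
  have hθ : ∀ i (c : ℤ), am (θ i) - c ≠ 0 := by
    intro i c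
    rw [← map_intCast (am (ι := ι) (k := k)), ← map_sub, map_ne_zero_iff _ hinj]
    intro h
    simpa [θ] using congrArg (pderiv i) h
  have hs : ∀ c : ℤ, ∑ i, am (θ i) - c ≠ 0 := by
    intro c
    rw [← map_intCast (am (ι := ι) (k := k)), ← map_sum, ← map_sub, map_ne_zero_iff _ hinj]
    intro h
    simpa [θ, pderiv_X, Pi.single_apply] using congrArg (pderiv (Classical.arbitrary ι)) h
  refine Exists.elim (mem_of_bernstein hu ha hf hθ hs J (fun c hc => ?_) hb) ?_
  swap
  · rintro U ⟨hU, q, hq, e⟩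
    rw [← map_mul, ← map_mul] at e
    refine h4 (mem_AA_of_mul (V := Polynomial.aeval (∑ i, θ i) b * U) ?_ Im ?_)
    · rw [map_mul]
      refine mul_ne_zero ?_ hU
      have : constantCoeff (Polynomial.aeval (∑ i, θ i) b) =
          b.eval (-((∑ i, lam i : ℚ) : k)) := by
        rw [Polynomial.aeval_def, Polynomial.hom_eval₂]
        have e1 : (constantCoeff (σ := ι) (R := k)).comp (algebraMap k (MvPolynomial ι k)) = RingHom.id k :=
          constantCoeff_comp_algebraMap _ _
        rw [e1, Polynomial.eval₂_id]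
        simp [θ]
      rwa [this]
    · rw [mul_right_comm]
      exact hinj e ▸ hq
  · let Y : Finset (Fin n ⊕ ι) := Finset.univ.filter (Pat u Z Im lam c)
    have hY : NF Y := h3 c Y hc (by simp [Y])
    have l1 : ∀ j, Loc (∏ l ∈ Finset.range (-ell u c j).toNat,
        (∑ i, (u i j : Frac ι k) * am (θ i) + (l : Frac ι k) + 1))
        (if Pat u Z Im lam c (Sum.inl j) then yy k u (Sum.inl j) else 1) := by
      intro j
      have e : ∏ l ∈ Finset.range (-ell u c j).toNat,
          (∑ i, (u i j : Frac ι k) * am (θ i) + (l : Frac ι k) + 1) = am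
          (∏ l ∈ Finset.range (-ell u c j).toNat, (∑ i, (u i j : MvPolynomial ι k) * θ i +
            (l : MvPolynomial ι k) + 1)) := by
        simp
      rw [e]
      split_ifs with h
      · obtain ⟨l, hl⟩ : ∃ l, (-ell u c j).toNat = l + 1 :=
          ⟨(-ell u c j).toNat - 1, by have := h.2; omega⟩
        have e2 : ∑ i, (u i j : MvPolynomial ι k) * θ i + (0 : ℕ) + 1 = yy k u (Sum.inl j) := by
          have := congrArg (fun x : ℚ => (C (x : k) : MvPolynomial ι k)) (h2 j h.1)
          simp only [Rat.cast_sum, Rat.cast_mul, Rat.cast_natCast, map_sum, map_mul, map_natCast,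
            Rat.cast_one, map_one] at this
          simp only [θ, yy, Sum.elim_inl, mul_sub, Finset.sum_sub_distrib, ← this, mul_comm]
          ring
        rw [hl, Finset.prod_range_succ', e2]
        exact Loc.of_mul _ _
      · exact Loc.of_one _
    have l2 : ∀ i, Loc (rho (am (θ i)) (c i) *
        am (if i ∈ Im then X i else 1) * algebraMap k (Frac ι k) (a i) ^ (-c i))
        (if Pat u Z Im lam c (Sum.inr i) then yy k u (Sum.inr i) else 1) := by
      intro i
      have := (loc_rho (k := k) i (lam i) (c i) (i ∈ Im) (Pat u Z Im lam c (Sum.inr i)) (hIm i)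
        (fun h => h.imp_left fun h => ⟨h1 i h.1, h.2⟩) fun h h' => Or.inr ⟨h, h'⟩).mul
        (Loc.of_one (C (a i ^ (-c i))))
      rw [mul_one] at this
      rw [← map_zpow₀, IsScalarTower.algebraMap_apply k (MvPolynomial ι k) (Frac ι k)]
      exact this
    have l3 : Loc (rho (∑ i, am (θ i)) (-1))⁻¹ 1 := by
      convert Loc.of_one (∑ i, θ i + 1) using 1
      simp [rho]
    obtain ⟨U, p, hU, e⟩ := ((Loc.prod Finset.univ _ _ l1).mul (Loc.prod Finset.univ _ _ l2)).mul l3
    refine ⟨U, hU, p * ∏ g ∈ Y, yy k u g,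
      Ideal.mul_mem_left _ _ (Ideal.subset_span ⟨Y, hY, rfl⟩), ?_⟩
    rw [Finset.prod_filter, Fintype.prod_sum_type, ← mul_one (_ * _ : MvPolynomial ι k), mul_assoc p, ← e]
    congr 1
    have eD : am D = ∏ i, am (if i ∈ Im then X i else 1) := by
      rw [← map_prod, Finset.prod_ite_mem_eq]
    simp only [mult, Gam, hc, eD, Finset.prod_mul_distrib]
    ring

end

end Pool.Agent.P.MP_b91a16_ag
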