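import Pool.Agent.P.MP_b91a16_ag.Core

/-! The motivic zeta function has only allowed poles. -/

set_option linter.unusedSectionVars false

open MvPolynomial

namespace Pool.Agent.P.MP_b91a16_ag

noncomputable section

variable {k : Type} [Field k]

def poleRing (k : Type) [Field k] (S : Finset (ℕ × ℕ)) :
    Subalgebra (Mot k) (PowerSeries (Mot k)) :=
  Algebra.adjoin (Mot k) ({PowerSeries.X} ∪
    {g | ∃ p ∈ S, g * (1 - PowerSeries.C (Linv k ^ p.1) * PowerSeries.X ^ p.2) = 1})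

theorem poleRing_mono {S S' : Finset (ℕ × ℕ)} (h : S ⊆ S') : poleRing k S ≤ poleRing k S' :=
  Algebra.adjoin_mono (Set.union_subset_union_right _ fun _ ⟨p, hp, e⟩ => ⟨p, h hp, e⟩)

theorem X_mem_poleRing (S : Finset (ℕ × ℕ)) : PowerSeries.X ∈ poleRing k S :=
  Algebra.subset_adjoin (Or.inl rfl)

theorem mem_poleRing_of_eventually (S : Finset (ℕ × ℕ)) {F : PowerSeries (Mot k)} (M : ℕ)
    (h : ∀ N, M ≤ N → PowerSeries.coeff N F = 0) : F ∈ poleRing k S := by
  have : F = ∑ N ∈ Finset.range M, PowerSeries.coeff N F • PowerSeries.X ^ N := by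
    ext N
    simp only [map_sum, map_smul, PowerSeries.coeff_X_pow, smul_eq_mul, mul_ite, mul_one, mul_zero,
      Finset.sum_ite_eq, Finset.mem_range]
    split_ifs with hN
    · rfl
    · exact h N (by omega)
  rw [this]
  exact Subalgebra.sum_mem _ fun N _ =>
    Subalgebra.smul_mem _ (Subalgebra.pow_mem _ (X_mem_poleRing S) _) _

abbrev evM (k : Type) [Field k] : Polynomial ℤ →+* Mot k :=
  (Polynomial.aeval (Linv k) : Polynomial ℤ →ₐ[ℤ] Mot k).toRingHom

abbrev evR (x : ℝ) : Polynomial ℤ →+* ℝ := (Polynomial.aeval x : Polynomial ℤ →ₐ[ℤ] ℝ).toRingHom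

theorem transfer {x : ℝ} (hx : Transcendental ℤ x) {Al : ℕ × ℕ → Prop}
    (hAl : ∀ p, Al p → 0 < p.2) (Φ : PowerSeries (Polynomial ℤ))
    (h : ∃ D ∈ AlM x Al, (D : PowerSeries ℝ) * PowerSeries.map (evR x) Φ ∈ PolyS) :
    ∃ S : Finset (ℕ × ℕ), (∀ p ∈ S, Al p) ∧ PowerSeries.map (evM k) Φ ∈ poleRing k S := by
  obtain ⟨D, hD, h⟩ := h
  have key : ∃ S : Finset (ℕ × ℕ), (∀ p ∈ S, Al p) ∧ ∃ D' : PowerSeries (Polynomial ℤ),
      PowerSeries.map (evR x) D' = D ∧ ∃ g ∈ poleRing k S, g * PowerSeries.map (evM k) D' = 1 := by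
    clear h
    induction hD using Submonoid.closure_induction with
    | mem D hD =>
      obtain ⟨p, hp, rfl⟩ := hD
      let D₀ : PowerSeries (Mot k) := 1 - PowerSeries.C (Linv k ^ p.1) * PowerSeries.X ^ p.2
      have h1 : PowerSeries.constantCoeff D₀ = (1 : (Mot k)ˣ) := by
        simp [D₀, (hAl p hp).ne']
      have h2 : PowerSeries.invOfUnit D₀ 1 * D₀ = 1 := by
        rw [mul_comm]
        exact PowerSeries.mul_invOfUnit D₀ 1 h1
      refine ⟨{p}, by simpa using hp,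
        1 - PowerSeries.C (Polynomial.X ^ p.1) * PowerSeries.X ^ p.2, by simp [fac],
        PowerSeries.invOfUnit D₀ 1, Algebra.subset_adjoin (Or.inr ⟨p, by simp, h2⟩), ?_⟩
      rw [← h2]
      simp [D₀]
    | one => exact ⟨∅, by simp, 1, by simp, 1, one_mem _, by simp⟩
    | mul D₁ D₂ _ _ h₁ h₂ =>
      obtain ⟨S₁, hS₁, D₁', e₁, g₁, hg₁, e₁'⟩ := h₁
      obtain ⟨S₂, hS₂, D₂', e₂, g₂, hg₂, e₂'⟩ := h₂
      refine ⟨S₁ ∪ S₂, fun p hp => (Finset.mem_union.1 hp).elim (hS₁ p) (hS₂ p), D₁' * D₂',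
        by rw [map_mul, e₁, e₂, Polynomial.coe_mul], g₁ * g₂,
        mul_mem (poleRing_mono Finset.subset_union_left hg₁)
          (poleRing_mono Finset.subset_union_right hg₂), ?_⟩
      rw [map_mul]
      linear_combination (g₂ * PowerSeries.map (evM k) D₂') * e₁' + e₂'
  obtain ⟨S, hS, D', e, g, hg, e'⟩ := key
  refine ⟨S, hS, ?_⟩
  rw [← e, ← map_mul] at h
  obtain ⟨M, hM⟩ := mem_PolyS_iff.1 h
  have h3 : PowerSeries.map (evM k) (D' * Φ) ∈ poleRing k S := by
    refine mem_poleRing_of_eventually S M fun N hN => ?_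
    have h4 := hM N hN
    rw [PowerSeries.coeff_map] at h4 ⊢
    rw [(transcendental_iff.1 hx) _ h4, map_zero]
  have := mul_mem hg h3
  rwa [map_mul, ← mul_assoc, e', one_mul] at this

theorem exists_transcendental : ∃ x : ℝ, 0 < x ∧ x < 1 ∧ Transcendental ℤ x := by
  by_contra h
  push Not at h
  have h1 : Set.Ioo (0 : ℝ) 1 ⊆ {x | IsAlgebraic ℤ x} := fun x hx => not_not.1 (h x hx.1 hx.2)
  have h2 := (Algebraic.countable ℤ ℝ).mono h1
  have h3 := h2.measure_zero MeasureTheory.volume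
  simp at h3

variable {σ ι : Type} [Fintype σ] [DecidableEq σ] [Fintype ι] [DecidableEq ι]
variable (u : ι → σ → ℕ)

def cc (R : Finset ι) (m N : ℕ) : Polynomial ℤ :=
  ∑ w ∈ Fintype.piFinset fun _ : σ => Finset.range (m + 1),
    if (∀ i, N ≤ oo u w i) ∧ core u (II u w N) = R then Polynomial.X ^ (∑ j, w j) *
      ((1 - Polynomial.X) ^ (JJ m w \ supp u (II u w N)).card *
        ((-Polynomial.X) ^ (II u w N \ R).card * (1 - Polynomial.X) ^ ex u (II u w N))) else 0

theorem evR_cc {x : ℝ} (h0 : 0 < x) (h1 : x < 1) (R : Finset ι) {m N : ℕ} (hN : N ≤ m) {c : ℝ}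
    (hc : HasSum (fun w : σ → ℕ => x ^ (∑ j, w j) * th u x R N w) c) :
    evR x (cc u R m N) = ((1 - x) ^ Fintype.card σ /
      ((1 - x) ^ ((supp u R).card + Rᶜ.card) * (-x) ^ R.card)) * c := by
  have hne : (1 - x) ^ ((supp u R).card + Rᶜ.card) * (-x) ^ R.card ≠ 0 :=
    mul_ne_zero (pow_ne_zero _ (sub_pos.2 h1).ne') (pow_ne_zero _ (neg_ne_zero.2 h0.ne'))
  rw [div_mul_eq_mul_div, eq_div_iff hne,
    (hc.mul_left _).unique (hasSum_cap h0.le h1 m _ (th_cap u x R hN)), cc, map_sum, Finset.sum_mul]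
  refine Finset.sum_congr rfl fun w _ => ?_
  unfold th
  split_ifs with h
  · have e1 : supp u (II u w N) ⊆ JJ m w := fun j hj => by
      obtain ⟨i, hi, h⟩ := (mem_supp u).1 hj
      exact mem_JJ_of_le u (((Finset.mem_filter.1 hi).2.trans_le hN)) h
    have e2 := Finset.card_sdiff_add_card_eq_card e1
    have e3 := card_supp_eq u (II u w N)
    have e4 := Finset.card_sdiff_add_card_eq_card (core_subset u (II u w N))
    have e5 := Finset.card_add_card_compl (II u w N)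
    have e6 := Finset.card_add_card_compl R
    rw [h.2] at e3 e4
    have e7 : Rᶜ.card = (II u w N \ R).card + (II u w N)ᶜ.card := by omega
    rw [← e2, e3, e7]
    conv_rhs => rw [← e4]
    simp only [map_mul, map_pow, map_sub, map_one, map_neg, AlgHom.toRingHom_eq_coe,
      RingHom.coe_coe, Polynomial.aeval_X]
    ring
  · simp

theorem evM_cc (a : ι → k) (ha : ∀ i, a i ≠ 0) (m N : ℕ) (d : k) :
    (∑ w ∈ Fintype.piFinset fun _ : σ => Finset.range (m + 1),
      if ∀ i, N ≤ oo u w i then Linv k ^ (∑ j, w j) *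
        ((1 - Linv k) ^ (JJ m w \ supp u (II u w N)).card * pp u a (II u w N) d) else 0) =
      ∑ R, pp u a R d * evM k (cc u R m N) := by
  simp only [cc, map_sum, Finset.mul_sum]
  rw [Finset.sum_comm]
  refine Finset.sum_congr rfl fun w _ => ?_
  rw [Finset.sum_eq_single (core u (II u w N))]
  · by_cases h : ∀ i, N ≤ oo u w i
    · rw [if_pos h, if_pos ⟨h, rfl⟩, pp_core u a ha (II u w N)]
      simp only [map_mul, map_pow, map_sub, map_one, map_neg, AlgHom.toRingHom_eq_coe,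
        RingHom.coe_coe, Polynomial.aeval_X]
      ring
    · rw [if_neg h, if_neg fun h' => h h'.1, map_zero, mul_zero]
  · intro R _ hR
    rw [if_neg fun h' => hR h'.2.symm, map_zero, mul_zero]
  · simp

theorem exists_finset_sum {α : Type} (s : Finset α) {Al : ℕ × ℕ → Prop}
    (F : α → PowerSeries (Mot k))
    (h : ∀ b ∈ s, ∃ S : Finset (ℕ × ℕ), (∀ p ∈ S, Al p) ∧ F b ∈ poleRing k S) :
    ∃ S : Finset (ℕ × ℕ), (∀ p ∈ S, Al p) ∧ ∑ b ∈ s, F b ∈ poleRing k S := by
  choose! S hS hF using h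
  refine ⟨s.biUnion S, fun p hp => ?_, Subalgebra.sum_mem _ fun b hb =>
    poleRing_mono (Finset.subset_biUnion_of_mem S hb) (hF b hb)⟩
  obtain ⟨b, hb, hp⟩ := Finset.mem_biUnion.1 hp
  exact hS b hb p hp

theorem cls_contact_zero {n : ℕ} (u : ι → Fin n → ℕ) (a : ι → k) (hu0 : ∀ i, ∃ j, u i j ≠ 0) :
    cls k (MvPolynomial (Fin n × Fin 0) k ⧸ contactIdeal (fpoly u a) 0) = 0 := by
  have h1 : contactIdeal (fpoly u a) 0 = ⊤ := by
    rw [Ideal.eq_top_iff_one, ← neg_mem_iff]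
    refine Ideal.subset_span ⟨0, ?_⟩
    have : MvPolynomial.aeval (jet k n 0) (fpoly u a) = 0 := by
      simp only [fpoly, map_sum, map_mul, map_prod, map_pow, aeval_X]
      refine Finset.sum_eq_zero fun i _ => ?_
      obtain ⟨j, hj⟩ := hu0 i
      rw [Finset.prod_eq_zero (Finset.mem_univ j) (by simp [jet, hj]), mul_zero]
    simp [this]
  have : Subsingleton (MvPolynomial (Fin n × Fin 0) k ⧸ contactIdeal (fpoly u a) 0) :=
    Ideal.Quotient.subsingleton_iff.2 h1
  exact cls_trivial _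

theorem coeff_zeta {n : ℕ} (u : ι → Fin n → ℕ) (a : ι → k) (hu0 : ∀ i, ∃ j, u i j ≠ 0)
    (hu : ∀ w i₀, (∀ i, oo u w i₀ ≤ oo u w i) → NDI u a (II u w (oo u w i₀))) (m : ℕ) :
    PowerSeries.coeff m (zeta (fpoly u a)) = rhs u a m := by
  rw [← contact_formula a u hu m, zeta, series, PowerSeries.coeff_mk]
  split_ifs with hm
  · subst hm
    rw [cls_contact_zero u a hu0, map_zero, zero_mul]
  · rfl

theorem zeta_mem' {n : ℕ} (u : ι → Fin n → ℕ) (a : ι → k) (ha : ∀ i, a i ≠ 0)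
    {Z : PowerSeries (Mot k)} (hZ : ∀ m, PowerSeries.coeff m Z = rhs u a m)
    {Al : ℕ × ℕ → Prop} (hR : RootHyp u Al) (h11 : Al (1, 1)) (hAl : ∀ p, Al p → 0 < p.2) :
    ∃ S : Finset (ℕ × ℕ), (∀ p ∈ S, Al p) ∧ Z ∈ poleRing k S := by
  obtain ⟨x, h0, h1, hx⟩ := exists_transcendental
  let Φ₀ : PowerSeries (Polynomial ℤ) := PowerSeries.mk fun m => Polynomial.X ^ (m + 1)
  let ΦP : Finset ι → PowerSeries (Polynomial ℤ) := fun R => PowerSeries.mk fun m => cc u R m m
  let ΦQ : Finset ι → PowerSeries (Polynomial ℤ) := fun R => PowerSeries.mk fun m =>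
    ∑ N ∈ Finset.range m, Polynomial.X ^ (m - N) * cc u R m N
  have hz : Z = PowerSeries.map (evM k) Φ₀ +
      ∑ R, (pp u a R 1 • PowerSeries.map (evM k) (ΦP R) +
        pp u a R 0 • PowerSeries.map (evM k) (ΦQ R)) := by
    ext m
    rw [hZ, rhs]
    simp only [evM_cc u a ha, Finset.sum_range_succ, if_true, map_add, map_sum, map_smul,
      PowerSeries.coeff_map, PowerSeries.coeff_mk, Φ₀, ΦP, ΦQ, smul_eq_mul, Nat.sub_self, pow_zero,
      one_mul, Finset.sum_add_distrib, map_mul, map_pow]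
    simp only [AlgHom.toRingHom_eq_coe, RingHom.coe_coe, Polynomial.aeval_X, add_right_inj,
      Finset.mul_sum]
    rw [add_comm, add_right_inj, Finset.sum_comm]
    refine Finset.sum_congr rfl fun R _ => Finset.sum_congr rfl fun N hN => ?_
    rw [if_neg (Finset.mem_range.1 hN).ne]
    ring
  have hf : fac x (1, 1) ∈ AlM x Al := Submonoid.subset_closure ⟨_, h11, rfl⟩
  have hfac : ((fac x (1, 1) : Polynomial ℝ) : PowerSeries ℝ) =
      1 - PowerSeries.C x * PowerSeries.X := by simp [fac]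
  have g₀ := transfer (k := k) hx hAl Φ₀ ⟨_, hf, mem_PolyS_iff.2 ⟨1, fun N hN => by
    obtain ⟨N, rfl⟩ := Nat.exists_eq_add_of_le' hN
    rw [hfac, sub_mul, one_mul, mul_assoc, map_sub, PowerSeries.coeff_C_mul,
      PowerSeries.coeff_succ_X_mul]
    simp [Φ₀, pow_succ']⟩⟩
  have g₁ : ∀ R ∈ (Finset.univ : Finset (Finset ι)), ∃ S : Finset (ℕ × ℕ), (∀ p ∈ S, Al p) ∧
      pp u a R 1 • PowerSeries.map (evM k) (ΦP R) +
        pp u a R 0 • PowerSeries.map (evM k) (ΦQ R) ∈ poleRing k S := by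
    intro R _
    obtain ⟨F, hF, D, hD, hDF⟩ := exists_series u h0 h1 hR R
    set κ := (1 - x) ^ Fintype.card (Fin n) /
      ((1 - x) ^ ((supp u R).card + Rᶜ.card) * (-x) ^ R.card) with hκ
    have e : ∀ m N, N ≤ m → evR x (cc u R m N) = κ * PowerSeries.coeff N F := fun m N hN =>
      evR_cc u h0 h1 R hN (hF N)
    have eP : PowerSeries.map (evR x) (ΦP R) = κ • F := by
      ext m
      simp only [PowerSeries.coeff_map, ΦP, PowerSeries.coeff_mk, e m m le_rfl, map_smul,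
        smul_eq_mul]
    have eQ : (1 - PowerSeries.C x * PowerSeries.X) * PowerSeries.map (evR x) (ΦQ R) =
        (x * κ) • (PowerSeries.X * F) := by
      have c : ∀ m, PowerSeries.coeff m (PowerSeries.map (evR x) (ΦQ R)) =
          ∑ N ∈ Finset.range m, x ^ (m - N) * (κ * PowerSeries.coeff N F) := by
        intro m
        simp only [PowerSeries.coeff_map, ΦQ, PowerSeries.coeff_mk, map_sum, map_mul, map_pow]
        refine Finset.sum_congr rfl fun N hN => ?_
        rw [e m N (Finset.mem_range.1 hN).le]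
        simp
      ext m
      rw [sub_mul, one_mul, mul_assoc, map_sub, PowerSeries.coeff_C_mul, map_smul, c]
      rcases m with _ | m
      · simp
      · rw [PowerSeries.coeff_succ_X_mul, PowerSeries.coeff_succ_X_mul, c, Finset.sum_range_succ,
          Finset.mul_sum, Finset.sum_congr rfl fun N hN => by
            rw [show m + 1 - N = m - N + 1 by rw [Finset.mem_range] at hN; omega, pow_succ',
              mul_assoc]]
        simp only [Nat.add_sub_cancel_left, pow_one, smul_eq_mul]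
        ring
    obtain ⟨S₁, hS₁, h₁⟩ := transfer (k := k) hx hAl (ΦP R) ⟨D, hD, by
      rw [eP, mul_smul_comm]
      exact PolyS.smul_mem hDF _⟩
    obtain ⟨S₂, hS₂, h₂⟩ := transfer (k := k) hx hAl (ΦQ R) ⟨D * fac x (1, 1), mul_mem hD hf, by
      rw [Polynomial.coe_mul, mul_assoc, hfac, eQ, mul_smul_comm, mul_left_comm]
      refine PolyS.smul_mem (mul_mem ?_ hDF) _
      simpa using coe_mem_PolyS Polynomial.X⟩
    exact ⟨S₁ ∪ S₂, fun p hp => (Finset.mem_union.1 hp).elim (hS₁ p) (hS₂ p),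
      add_mem (Subalgebra.smul_mem _ (poleRing_mono Finset.subset_union_left h₁) _)
        (Subalgebra.smul_mem _ (poleRing_mono Finset.subset_union_right h₂) _)⟩
  obtain ⟨S₀, hS₀, h₀⟩ := g₀
  obtain ⟨S₁, hS₁, h₁⟩ := exists_finset_sum _ _ g₁
  refine ⟨S₀ ∪ S₁, fun p hp => (Finset.mem_union.1 hp).elim (hS₀ p) (hS₁ p), ?_⟩
  rw [hz]
  exact add_mem (poleRing_mono Finset.subset_union_left h₀)
    (poleRing_mono Finset.subset_union_right h₁)

theorem zeta_mem [CharZero k] {n : ℕ} (u : ι → Fin n → ℕ) (a : ι → k) (hu : Dual u)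
    (ha : ∀ i, a i ≠ 0) (hu0 : ∀ i, ∃ j, u i j ≠ 0) {Al : ℕ × ℕ → Prop} (hR : RootHyp u Al)
    (h11 : Al (1, 1)) (hAl : ∀ p, Al p → 0 < p.2) :
    ∃ S : Finset (ℕ × ℕ), (∀ p ∈ S, Al p) ∧ zeta (fpoly u a) ∈ poleRing k S :=
  zeta_mem' u a ha (coeff_zeta u a hu0 fun _ i₀ _ _ _ _ y =>
    nondeg u a hu ha _ ⟨i₀, by simp [II]⟩ y) hR h11 hAl

end

end Pool.Agent.P.MP_b91a16_ag
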