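import Pool.Agent.P.MP_b91a16_ag.Sub

/-! The class of the critical monomial does not vanish. -/

set_option linter.unusedSectionVars false

open Filter Topology

namespace Pool.Agent.P.MP_b91a16_ag

noncomputable section

namespace RA

variable {k σ ι : Type} [Field k] [CharZero k] [Fintype σ] [DecidableEq σ] [Fintype ι]
  [DecidableEq ι]
variable {u : ι → σ → ℕ} {a : ι → k} {V : Finset (σ ⊕ ι)} {β : Option σ → ℚ} {lam : σ ⊕ ι → ℝ}
  {ω₀ : σ → ℝ}

theorem Geo.def_Dl (hG : Geo u V) {A B : Set (Pt σ)} (hA : KC u V A) (hB : KC u V B) (h : B ⊆ A) :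
    Def (pi deg) (fun l => LinearMap.mulLeft k (Fl u a l)) (Dl u a β) (sp k A) (sp k B) where
  gr := gr_pi deg
  hF := pi_Fl
  hD := fun l e x => by
    simpa [Dl, Op, Fl, dg, pi] using LinearMap.congr_fun (diag_comm _ _).eq x
  comm := fun _ _ => Op_comm u a β _ _ _ _
  pA := fun _ _ => diag_mem _
  pB := fun _ _ => diag_mem _
  sA := fun _ => (hG.closed hA).op a β _ _
  sB := fun _ => (hG.closed hB).op a β _ _
  le := sp_mono h

variable (u V lam ω₀)

def S0 : Finset σ := Finset.univ.filter fun j => ∀ g ∈ Zf u V lam ω₀, nn u g j = 0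

def G1 : Finset (σ ⊕ ι) :=
  Finset.univ.filter fun g => 0 < lam g ∧ ∀ j ∈ S0 u V lam ω₀, nn u g j = 0

def SB (P : (σ ⊕ ι → ℝ) → Prop) : Set (Pt σ) := Sub u V (Zf u V lam ω₀) (pl lam) P

def c2 (e : σ ⊕ ι → ℝ) : Prop := ∀ g ∈ G1 u V lam ω₀, lam g ≤ e g

def tw (e : σ ⊕ ι → ℝ) (j : σ) : ℝ := ∑ g, e g * nn u g j

def Ab (T : Finset σ) : Set (Pt σ) :=
  SB u V lam ω₀ fun e => c2 u V lam ω₀ e ∧ ∀ j ∈ T, 1 ≤ tw u e j

def Bs (S : Finset σ) : Set (Pt σ) :=
  SB u V lam ω₀ fun e => c2 u V lam ω₀ e ∧ ∃ j ∈ S, 1 ≤ tw u e j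

variable {u V lam ω₀}

theorem mem_S0 {j : σ} : j ∈ S0 u V lam ω₀ ↔ ∀ g ∈ Zf u V lam ω₀, nn u g j = 0 := by simp [S0]

theorem mem_G1 {g : σ ⊕ ι} :
    g ∈ G1 u V lam ω₀ ↔ 0 < lam g ∧ ∀ j ∈ S0 u V lam ω₀, nn u g j = 0 := by simp [G1]

theorem tw_add (e e' : σ ⊕ ι → ℝ) (j : σ) : tw u (e + e') j = tw u e j + tw u e' j := by
  simp [tw, add_mul, Finset.sum_add_distrib]

theorem tw_nonneg {e : σ ⊕ ι → ℝ} (h : ∀ g, 0 ≤ e g) (j : σ) : 0 ≤ tw u e j :=
  Finset.sum_nonneg fun g _ => mul_nonneg (h g) (Nat.cast_nonneg _)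

theorem tw_eq_zero {e : σ ⊕ ι → ℝ} (h : ∀ g, 0 ≤ e g) {j : σ} :
    tw u e j = 0 ↔ ∀ g, e g ≠ 0 → nn u g j = 0 := by
  rw [tw, Finset.sum_eq_zero_iff_of_nonneg fun g _ => mul_nonneg (h g) (Nat.cast_nonneg _)]
  simp [or_iff_not_imp_left]

theorem c2.add {e ζ : σ ⊕ ι → ℝ} (h : c2 u V lam ω₀ e) (h' : ∀ g, 0 ≤ ζ g) :
    c2 u V lam ω₀ (e + ζ) := fun g hg => (h g hg).trans (le_add_of_nonneg_right (h' g))

theorem Geo.kc_Ab (hG : Geo u V) (T : Finset σ) : KC u V (Ab u V lam ω₀ T) :=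
  hG.kc_sub fun e ζ _ h2 h => ⟨h.1.add h2, fun j hj => by
    linarith [h.2 j hj, tw_add (u := u) e ζ j, tw_nonneg (u := u) h2 j]⟩

theorem Geo.kc_Bs (hG : Geo u V) (S : Finset σ) : KC u V (Bs u V lam ω₀ S) :=
  hG.kc_sub fun e ζ _ h2 h => ⟨h.1.add h2, h.2.imp fun j hj => ⟨hj.1, by
    linarith [hj.2, tw_add (u := u) e ζ j, tw_nonneg (u := u) h2 j]⟩⟩

theorem Bs_empty : Bs u V lam ω₀ ∅ = SB u V lam ω₀ fun _ => False := by simp [Bs]

theorem Dat.tw_pl (h : Dat u a V β lam ω₀) {j : σ} (hj : j ∈ S0 u V lam ω₀) :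
    tw u (pl lam) j = 1 := by
  have h1 := h.rep (some j)
  rw [h.one j fun h' => by
    simpa [nn] using mem_S0.1 hj (Sum.inl j) (by simp [mem_Zf, h.geo.inl, zr_inl, h', h.inl])] at h1
  have h2 : tw u (pl lam) j = tw u lam j := Finset.sum_congr rfl fun g _ => by
    by_cases hg : pl lam g = lam g
    · rw [hg]
    · simp [mem_S0.1 hj g (h.neg hg)]
  rw [h2]
  simpa [tw, WW, Fintype.sum_sum_type, h.inl, hat] using h1.symm

theorem Dat.lv_zero (h : Dat u a V β lam ω₀) : Lv u V (pl lam) (Zf u V lam ω₀) ∅ 0 (pl lam) :=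
  ⟨h.rp_zero, ω₀, h.near, fun g hg => ⟨(h.supp g fun h => by simp [pl, h] at hg).2, by simp⟩⟩

theorem Dat.zero_Ab (h : Dat u a V β lam ω₀) : 0 ∈ Ab u V lam ω₀ (S0 u V lam ω₀) :=
  (h.geo.mem_sub h.lv_zero).2 ⟨fun _ _ => le_max_left _ _, fun _ hj => (h.tw_pl hj).ge⟩

theorem Ab_anti {T T' : Finset σ} (h : T ⊆ T') : Ab u V lam ω₀ T' ⊆ Ab u V lam ω₀ T :=
  sub_mono fun _ he => ⟨he.1, fun j hj => he.2 j (h hj)⟩

theorem Dat.step1 (h : Dat u a V β lam ω₀)
    (h1 : ee 0 ∈ JJ' u a β (Amb u V (pl lam)) (SB u V lam ω₀ fun _ => False)) :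
    ee 0 ∈ JJ' u a β (SB u V lam ω₀ fun e => ∀ g ∈ G1 u V lam ω₀, e g ≠ 0)
      (SB u V lam ω₀ fun _ => False) := by
  have hG := h.geo
  have hA : KC u V (SB u V lam ω₀ fun e => ∀ g ∈ G1 u V lam ω₀, e g ≠ 0) :=
    hG.kc_sub fun e ζ h1 h2 h g hg => (ne_zero_add h1 h2).2 (Or.inl (h g hg))
  have hD := hG.def_Dl (a := a) (β := β) (kc_amb (ρ := pl lam)) hA fun _ h => h.1
  have hR := hD.reg (hG.shell h.nd (G₁ := G1 u V lam ω₀) (Y₀ := Zf u V lam ω₀) (S := ∅) False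
    (fun g hg => ⟨(mem_Zf.1 hg).1.1, by simp⟩) (fun g hg => ⟨fun h => (mem_Zf.1 h).2.not_gt
      (mem_G1.1 hg).1, fun j hj => by
        simpa only [mem_S0, not_forall, exists_prop] using mt ((mem_G1.1 hg).2 j) hj⟩)
    (ρ := pl lam) kc_amb hA (fun _ h => h.1) deg_low (fun p hp hp' => by
      obtain ⟨e, h1, -, h2⟩ := of_notMem_sub (P := fun _ => True) ⟨hp, fun _ _ => trivial⟩ hp'
      exact ⟨e, h1, Or.inr (by simpa only [not_forall, exists_prop, not_not] using h2)⟩)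
    fun p e h1 h2 => ⟨⟨_, _, h1.1⟩, fun h => (h2.resolve_left id).elim fun g hg =>
      h.2 e h1 g hg.1 hg.2⟩) (pi_low deg_low)
  obtain ⟨x, h2, y, h3, h4⟩ := Submodule.mem_sup.1 h1
  refine Submodule.mem_sup.2 ⟨x, hR.inter hD.comm hD.sA hD.sB (by simp) h2 ?_, y, h3, h4⟩
  rw [← eq_sub_iff_add_eq.2 h4.symm.symm |>.symm]
  exact sub_mem (ee_mem ((hG.mem_sub h.lv_zero).2 fun g hg =>
    (lt_max_of_lt_left (mem_G1.1 hg).1).ne')) (sp_mono (sub_mono fun _ => False.elim) h3)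

theorem Dat.step2 (h : Dat u a V β lam ω₀)
    (h1 : ee 0 ∈ JJ' u a β (SB u V lam ω₀ fun e => ∀ g ∈ G1 u V lam ω₀, e g ≠ 0)
      (SB u V lam ω₀ fun _ => False)) :
    ee 0 ∈ JJ' u a β (Ab u V lam ω₀ ∅) (SB u V lam ω₀ fun _ => False) := by
  have hG := h.geo
  have hA := hG.closed (hG.kc_Ab (lam := lam) (ω₀ := ω₀) ∅)
  have hJ := fun v => JJ_stab (a := a) (β := β) (v := v) (B := SB u V lam ω₀ fun _ => False) hA
    (hG.closed (hG.kc_sub fun _ _ _ _ => id))
  let U : Submonoid (Module.End k (Lm k σ)) :=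
    { carrier := {v | v ∈ PP u a β ∧ ∃ c : k, c ≠ 0 ∧ ∀ x ∈ sp k (Ab u V lam ω₀ ∅),
        v x - c • x ∈ JJ' u a β (Ab u V lam ω₀ ∅) (SB u V lam ω₀ fun _ => False)}
      one_mem' := ⟨one_mem _, 1, one_ne_zero, fun x _ => by simp⟩
      mul_mem' := by
        rintro v w ⟨h1, c, h2, h3⟩ ⟨h4, c', h5, h6⟩
        refine ⟨mul_mem h1 h4, c' * c, mul_ne_zero h5 h2, fun x hx => ?_⟩
        convert add_mem (hJ v h1 _ (h6 x hx)) (Submodule.smul_mem _ c' (h3 x hx)) using 1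
        rw [map_sub, map_smul, smul_sub, mul_smul, Module.End.mul_apply]
        abel }
  have hU : ∀ v ∈ U, ∀ w ∈ U, Commute v w := fun _ hv _ hw => PP_comm hv.1 hw.1
  let N := sat U hU (sp k (Ab u V lam ω₀ ∅)) fun _ hv => PP_stab (hA.op a β) hv.1
  choose κ ν hκ using hG.sh_mem
  have key := moving (sh u) N (hG.closed (hG.kc_sub (Y := Zf u V lam ω₀) (ρ := pl lam)
    (P := fun e => ∀ g ∈ G1 u V lam ω₀, e g ≠ 0)
    fun e ζ h1 h2 h g hg => (ne_zero_add h1 h2).2 (Or.inl (h g hg)))) fun p hp I => by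
    rcases exists_xi (fun g j => (nn u g j : ℚ)) I fun j => qv β p (some j) with
      ⟨ξ, h1, h2⟩ | ⟨r, h1, h2⟩
    · refine Or.inl fun h3 => ?_
      have h4 : Op u a β (ext0 ξ) ξ - algebraMap k _ ((∑ j, ξ j * qv β p (some j) : ℚ) : k) ∈ U :=
        ⟨sub_mem (Op_mem u a β _ _) (Subalgebra.algebraMap_mem _ _), _,
          neg_ne_zero.2 ((Rat.cast_ne_zero (α := k)).2 h2), fun x hx => by
            rw [LinearMap.sub_apply, Module.algebraMap_end_apply, neg_smul, sub_neg_eq_add,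
              sub_add_cancel]
            exact Op_ext0_mem ξ hx⟩
      obtain ⟨v, h5, h6⟩ : (Op u a β (ext0 ξ) ξ -
          algebraMap k (Module.End k (Lm k σ)) ((∑ j, ξ j * qv β p (some j) : ℚ) : k)) (ee p) ∈ N := by
        rw [LinearMap.sub_apply, Op_ee, Module.algebraMap_end_apply, Fintype.sum_option]
        simp only [ext0, Option.elim_none, Option.elim_some, zero_mul, zero_add, add_sub_cancel_left]
        refine sum_mem fun g _ => ?_
        by_cases hg : g ∈ I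
        · change cf u a (ext0 ξ) ξ g • _ ∈ _
          simp only [cf_eq, chi_ext0, h1 g hg, Rat.cast_zero, mul_zero, zero_smul, zero_mem]
        · exact N.smul_mem _ (h3 g hg)
      exact ⟨_, mul_mem h5 h4, h6⟩
    · obtain ⟨M, hM, hM'⟩ := ((eventually_ge_atTop 1).and (eventually_all.2 fun g =>
        eventually_all.2 fun g' => (tendsto_natCast_atTop_atTop (R := ℝ)).eventually_ge_atTop
          (lam g' / κ g g'))).exists
      refine Or.inr ⟨M, fun c hc => ⟨1, one_mem _, ee_mem ?_⟩⟩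
      have h3 : Rp u V 0 (∑ g, c g • sh u g) (∑ g, c g • κ g) (∑ g, c g • ν g) := by
        refine Finset.sum_induction (fun g => (c g • sh u g, c g • κ g, c g • ν g))
          (fun x => Rp u V 0 x.1 x.2.1 x.2.2) (fun _ _ h h' => h.add' h') RA.rp_zero
          (s := Finset.univ) (fun g _ => ?_) |>.elim fun h1 h2 => ?_
        · induction c g with
          | zero => simpa using RA.rp_zero
          | succ n ih => simpa only [succ_nsmul] using ih.add' (hκ g)
        · simp only [Prod.fst_sum, Prod.snd_sum] at h1 h2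
          exact ⟨h1, h2⟩
      obtain ⟨⟨e, μ, h4⟩, h5⟩ := hp
      refine ⟨⟨_, _, h4.add' h3⟩, fun e' h6 => ⟨fun g hg => ?_, by simp⟩⟩
      obtain ⟨h7, rfl, rfl, h8⟩ := hG.lv_add h4 h3 h6
      obtain ⟨ω, h9, h10⟩ := h6.2
      have hle : ∀ g g', c g * κ g g' ≤ (∑ g, c g • κ g) g' := fun g g' => by
        rw [Finset.sum_apply]
        simpa using Finset.single_le_sum (f := fun g => (c g • κ g) g')
          (fun g _ => nsmul_nonneg ((hκ g).1.1 g') _) (Finset.mem_univ g)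
      have hI : ∀ g, r g ≠ 0 → (1 : ℝ) ≤ c g := fun g hg => by
        exact_mod_cast hM.trans (hc g (by_contra fun h => hg (h1 g h)))
      have h11 := congrFun (hG.s2 ω h9.nonneg ((Sum.elim (0 : σ → ℝ) fun i =>
        (e + lam - pl lam) (Sum.inr i)) -
        ∑ g, (r g : ℝ) • κ g) (fun g' hg' => ?_) fun j => ?_) g
      · obtain ⟨i, rfl⟩ : ∃ i, g = Sum.inr i := by
          rcases g with j | i
          exacts [absurd (h.inl j) (mem_G1.1 hg).1.ne', ⟨i, rfl⟩]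
        simp only [Pi.sub_apply, Sum.elim_inr, Pi.add_apply, pl, max_eq_left (mem_G1.1 hg).1.le,
          add_sub_cancel_right, Pi.zero_apply, sub_eq_zero, Finset.sum_apply] at h11
        obtain ⟨g', -, h12⟩ := Finset.exists_ne_zero_of_sum_ne_zero (h11 ▸ h5 e h7 _ hg)
        have h13 := (right_ne_zero_of_mul h12).symm.lt_of_le ((hκ g').1.1 _)
        have h14 : (M : ℝ) ≤ c g' := by
          exact_mod_cast hc g' (by_contra fun h => left_ne_zero_of_mul h12 (by simp [h1 g' h]))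
        have := (div_le_iff₀ h13).1 ((hM' g' _).trans h14)
        linarith [hle g' (Sum.inr i), h4.1.1 (Sum.inr i), Pi.add_apply e (∑ g, c g • κ g) (Sum.inr i)]
      · by_contra h12
        have h13 : (e + ∑ g, c g • κ g) g' = 0 := by_contra fun h => h12 ⟨h6.1.1.mem h, (h10 g' h).1⟩
        have h14 := not_or.1 (mt (ne_zero_add h4.1.1 h3.1.1).2 (not_not.2 h13))
        have h15 : pl lam g' = lam g' := by_contra fun h' =>
          h12 ⟨(mem_Zf.1 (h.neg h')).1.1, h9.eq_zero (h.neg h')⟩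
        refine hg' ?_
        rw [Pi.sub_apply, Finset.sum_apply, Finset.sum_eq_zero fun g _ => ?_]
        · rcases g' with j | i <;> simp [h15, not_not.1 h14.1]
        · by_cases h16 : r g = 0
          · simp [h16]
          · have := hle g g'
            rw [not_not.1 h14.2] at this
            have h17 : κ g g' = 0 := by nlinarith [hI g h16, (hκ g).1.1 g']
            simp [h17]
      · have h12 := h.qv_eq h7.1 (some j)
        rw [h2 j] at h12
        simp only [Pi.sub_apply, sub_mul, Finset.sum_sub_distrib, sub_eq_zero, Finset.sum_apply,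
          Finset.sum_mul]
        rw [Finset.sum_comm (f := fun g g' => ((r g' : ℝ) • κ g') g * _)]
        refine Eq.trans (by simp [WW, hat]) (h12.symm.trans ?_)
        push_cast
        refine Finset.sum_congr rfl fun g _ => ?_
        by_cases h16 : r g = 0
        · simp [h16]
        · have h17 := Finset.single_le_sum (f := fun g => (c g • ν g) j)
            (fun g _ => nsmul_nonneg ((hκ g).2.1 j) _) (Finset.mem_univ g)
          rw [← Finset.sum_apply, h8] at h17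
          have h18 : ν g j = 0 := by
            simp only [Pi.smul_apply, nsmul_eq_mul, Pi.zero_apply] at h17
            nlinarith [hI g h16, (hκ g).2.1 j]
          rw [(hκ g).nn_eq, h18, add_zero, Finset.mul_sum]
          simp only [Pi.smul_apply, smul_eq_mul, mul_assoc]
  have h2 : JJ' u a β (SB u V lam ω₀ fun e => ∀ g ∈ G1 u V lam ω₀, e g ≠ 0)
      (SB u V lam ω₀ fun _ => False) ≤ sat U hU _ fun v hv => hJ v hv.1 :=
    sup_le (Im_le.2 fun l hl x hx => by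
      obtain ⟨v, h2, h3⟩ := sp_le key hx
      refine ⟨v, h2, ?_⟩
      rw [← Module.End.mul_apply, (PP_comm h2.1 (w := Dl u a β l) (Op_mem u a β _ _)).eq]
      exact Submodule.mem_sup_left (mem_Im hl h3))
      fun x hx => ⟨1, one_mem _, Submodule.mem_sup_right hx⟩
  obtain ⟨v, ⟨-, c, h3, h4⟩, h5⟩ := h2 h1
  simpa [smul_smul, inv_mul_cancel₀ h3, SB] using Submodule.smul_mem _ c⁻¹
    (sub_mem h5 (h4 _ (ee_mem (Ab_anti (Finset.empty_subset _) h.zero_Ab))))

theorem Dat.reg_slice (h : Dat u a V β lam ω₀) {S : Finset σ} (hS : S ⊆ S0 u V lam ω₀) :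
    Reg (fun l => LinearMap.mulLeft k (Fl u a l)) Sᶜ (sp k (Ab u V lam ω₀ ∅))
      (sp k (Bs u V lam ω₀ S)) := by
  have hG := h.geo
  let δ : σ ⊕ ι → ℝ := fun g => if g ∈ G1 u V lam ω₀ then lam g else 0
  have hδ : Cn V δ := ⟨fun g => by
    by_cases hg : g ∈ G1 u V lam ω₀
    · simpa [δ, hg] using (mem_G1.1 hg).1.le
    · simp [δ, hg], fun g hg => if_neg fun h' => hg (h.supp g (mem_G1.1 h').1.ne').1⟩
  have hδ' : ∀ g, δ g ≠ 0 → g ∈ G1 u V lam ω₀ := fun g hg => by_contra fun h => hg (if_neg h)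
  have hY : ∀ g ∈ Zf u V lam ω₀ ∪ G1 u V lam ω₀, g ∈ V ∧ ∀ j ∈ S, nn u g j = 0 := fun g hg =>
    (Finset.mem_union.1 hg).elim (fun h => ⟨(mem_Zf.1 h).1.1, fun j hj => mem_S0.1 (hS hj) g h⟩)
      fun h' => ⟨(h.supp g (mem_G1.1 h').1.ne').1, fun j hj => (mem_G1.1 h').2 j (hS hj)⟩
  refine hG.shell h.nd (G₁ := ∅) True hY (by simp) (ρ := pl lam - δ) (hG.kc_Ab ∅) (hG.kc_Bs S)
    (sub_mono fun e he => ⟨he.1, by simp⟩) (fun p hp => deg_low p hp.1) (fun p hp hp' => ?_) ?_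
  · obtain ⟨e, ⟨h1, ω, h2, h3⟩, ⟨h4, -⟩, h5⟩ := of_notMem_sub hp hp'
    have h6 : ∀ g, (e - δ) g ≠ 0 → e g ≠ 0 := fun g hg h => hg (by
      by_cases h' : g ∈ G1 u V lam ω₀
      · linarith [h4 g h', (mem_G1.1 h').1]
      · simp [δ, h, h'])
    refine ⟨e - δ, ⟨⟨⟨fun g => ?_, fun g hg => by simp [h1.1.2 g hg, hδ.2 g hg]⟩, h1.2.1, ?_⟩, ω,
      near_of h2.nonneg fun g hg => (Finset.mem_union.1 hg).elim h2.eq_zero fun h =>
        (h3 g ((mem_G1.1 h).1.trans_le (h4 g h)).ne').1,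
      fun g hg => ⟨(h3 g (h6 g hg)).1, fun j hj => (tw_eq_zero h1.1.1).1 ?_ g (h6 g hg)⟩⟩,
      Or.inl trivial⟩
    · by_cases h' : g ∈ G1 u V lam ω₀
      · simpa [δ, h'] using h4 g h'
      · simpa [δ, h'] using h1.1.1 g
    · rw [map_sub, map_sub, ← add_sub_assoc, h1.2.2, sub_add_eq_add_sub]
    · have h7 := h1.tt_eq j
      have h8 := tw_nonneg (u := u) h1.1.1 j
      have h9 : tw u e j < 1 := not_le.1 fun h => h5 ⟨h4, j, hj, h⟩
      change _ + tw u _ j = tw u e j + 0 at h7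
      rw [h.tw_pl (hS hj), add_zero] at h7
      rw [← h7] at h8 h9 ⊢
      norm_cast at h8 h9 ⊢
      omega
  · rintro p e ⟨h1, ω, h2, h3⟩ -
    have h4 : ∀ g, (e + δ) g ≠ 0 → zr u g ω = 0 ∧ ∀ j ∈ S, nn u g j = 0 := fun g hg =>
      ((ne_zero_add h1.1.1 hδ.1).1 hg).elim (h3 g) fun h => ⟨h2.eq_zero
        (Finset.mem_union_right _ (hδ' g h)), (hY g (Finset.mem_union_right _ (hδ' g h))).2⟩
    have h5 : Lv u V (pl lam) (Zf u V lam ω₀) ∅ p (e + δ) :=
      ⟨⟨h1.1.add hδ, h1.2.1, by rw [map_add, add_right_comm, ← h1.2.2, map_sub]; abel⟩, ω,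
        h2.mono le_rfl Finset.subset_union_left, fun g hg => ⟨(h4 g hg).1, by simp⟩⟩
    refine ⟨(hG.mem_sub h5).2 ⟨fun g hg => by simpa [δ, hg] using h1.1.1 g, by simp⟩, fun h6 => ?_⟩
    obtain ⟨-, j, h7, h8⟩ := h6.2 _ h5
    rw [(tw_eq_zero h5.1.1.1).2 fun g hg => (h4 g hg).2 j h7] at h8
    norm_num at h8

theorem Geo.up (hG : Geo u V) {T : Finset σ} {l : σ} {p : Pt σ} (hp : p ∈ Ab u V lam ω₀ (T.erase l))
    {g : σ ⊕ ι} (hg : nn u g l ≠ 0) : p + sh u g ∈ Ab u V lam ω₀ T := by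
  have h1 := hG.closed (hG.kc_Ab _) p hp g
  refine ⟨h1.1, fun e h2 => ⟨(h1.2 e h2).1, fun j hj => ?_⟩⟩
  by_cases h3 : j = l
  · obtain ⟨κ, ν, h4⟩ := hG.sh_mem g
    obtain ⟨e, ν', h5⟩ := hp.1
    obtain ⟨-, rfl, -, rfl⟩ := hG.lv_add h5 h4 h2
    have h6 : (1 : ℝ) ≤ nn u g l := by exact_mod_cast Nat.one_le_iff_ne_zero.2 hg
    have h7 : (nn u g l : ℝ) = tw u κ l + 0 := h4.nn_eq g l
    rw [tw_add, h3]
    linarith [tw_nonneg (u := u) h5.1.1 l]
  · exact (h1.2 e h2).2 j (Finset.mem_erase.2 ⟨h3, hj⟩)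

theorem Fl_mul (l : σ) (p : Pt σ) :
    Fl u a l * ee p = ∑ g, (ca a g * nn u g l) • ee (p + sh u g) := by
  simp only [Fl_eq, FS, Finset.sum_mul, smul_mul_assoc, ee_mul, add_comm p]

theorem Dat.step3 (h : Dat u a V β lam ω₀)
    (h1 : ee 0 ∈ JJ' u a β (Ab u V lam ω₀ ∅) (SB u V lam ω₀ fun _ => False)) :
    ee 0 ∈ Im (fun l => LinearMap.mulLeft k (Fl u a l)) Finset.univ (fun l => sp k
      (Ab u V lam ω₀ ((S0 u V lam ω₀).erase l))) ⊔ sp k (Bs u V lam ω₀ ∅) := by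
  have hG := h.geo
  have hW : Walls (fun l => LinearMap.mulLeft k (Fl u a l)) Finset.univ (S0 u V lam ω₀)
      (fun T => sp k (Ab u V lam ω₀ T)) fun S => sp k (Bs u V lam ω₀ S) :=
    { comm := fun _ _ => LinearMap.ext fun _ => mul_left_comm _ _ _
      le := fun T => sp_mono (Ab_anti (Finset.empty_subset T))
      up := fun T _ l x hx => sp_map _ (fun p hp => by
        rw [LinearMap.mulLeft_apply, Fl_mul]
        refine sum_mem fun g _ => ?_
        by_cases hg : nn u g l = 0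
        · simp [hg]
        · exact Submodule.smul_mem _ _ (ee_mem (hG.up hp hg))) hx
      sB := fun S l => (hG.closed (hG.kc_Bs S)).fx a _ _
      mono := fun S j => sp_mono (sub_mono fun e he =>
        ⟨he.1, he.2.imp fun j h => ⟨Finset.mem_insert_of_mem h.1, h.2⟩⟩)
      wall := fun S j hj => sp_mono (sub_mono fun e he => ⟨he.1, j, hj, he.2 j (by simp)⟩)
      anti := fun _ _ h => sp_mono (Ab_anti h)
      cut := fun S T j => by
        rw [sp_inf, ← sp_union]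
        refine sp_mono fun p hp => or_iff_not_imp_right.2 fun h2 => ?_
        obtain ⟨e, h3, h4, h5⟩ := of_notMem_sub hp.2 h2
        refine (hG.mem_sub h3).2 ⟨h4.1, Finset.forall_mem_insert _ _ _ |>.2 ⟨?_, (hp.1.2 e h3).2⟩⟩
        obtain ⟨j', h6, h7⟩ := h4.2
        exact (Finset.mem_insert.1 h6).resolve_right (fun h => h5 ⟨h4.1, j', h, h7⟩) ▸ h7
      reg := fun S hS => h.reg_slice hS }
  rw [← Bs_empty] at h1
  refine hW.main _ ∅ (by simp) _ subset_rfl le_rfl _ (by simp) _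
    (Submodule.mem_sup_left (ee_mem h.zero_Ab)) ((hG.def_Dl (hG.kc_Ab ∅) (hG.kc_Bs ∅)
      (sub_mono fun e he => ⟨he.1, by simp⟩)).gr_mem ?_ (e := 0) h1 (by simp [pi_ee]))
  simpa using h.reg_slice (Finset.empty_subset _)

theorem exists_phi {α γ : Type} [Fintype α] [DecidableEq α] (I : Finset α) (κ : α → γ)
    (hκ : Set.InjOn κ I) (w : α → k) (hw : ∀ g, w g ≠ 0) (t : γ)
    (h : ∀ g ∈ I, κ g = t → ∃ g' ∈ I, g' ≠ g) :
    ∃ φ : γ → k, φ t ≠ 0 ∧ ∑ g ∈ I, w g * φ (κ g) = 0 := by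
  classical
  by_cases h1 : ∃ g ∈ I, κ g = t
  · obtain ⟨g, h1, rfl⟩ := h1
    obtain ⟨g', h2, h3⟩ := h g h1 rfl
    refine ⟨fun x => if x = κ g then w g' else if x = κ g' then -w g else 0, by simp [hw], ?_⟩
    rw [Finset.sum_eq_add_of_mem g' g h2 h1 h3 fun g'' h4 h5 => by
      simp [mt (hκ h4 h1) h5.2, mt (hκ h4 h2) h5.1]]
    simp [mt (hκ h2 h1) h3, mul_comm]
  · exact ⟨fun x => if x = t then 1 else 0, by simp, Finset.sum_eq_zero fun g hg => by
      simp [show κ g ≠ t from fun h => h1 ⟨g, hg, h⟩]⟩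

theorem Dat.nz (h : Dat u a V β lam ω₀) :
    ee 0 ∉ JJ' u a β (Amb u V (pl lam)) (SB u V lam ω₀ fun _ => False) := by
  classical
  intro h0
  replace h0 := h.step3 (h.step2 (h.step1 h0))
  have hG := h.geo
  choose κ ν hκ using hG.sh_mem
  have hs : ∀ g, ∑ g', κ g g' = 1 := fun g => by simpa [deg_sh] using (hκ g).deg_eq.symm
  let S := S0 u V lam ω₀
  let D : σ → Finset (σ ⊕ ι) := fun l => Finset.univ.filter fun g =>
    0 < lam g ∧ ∀ j ∈ S, nn u g j = if j = l then 1 else 0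
  have hD : ∀ l g, g ∈ D l ↔ 0 < lam g ∧ ∀ j ∈ S, nn u g j = if j = l then 1 else 0 := by simp [D]
  have hDt : ∀ l, ∀ g ∈ D l, g ∈ V ∧ zr u g ω₀ = 0 := fun l g hg => h.supp g ((hD l g).1 hg).1.ne'
  let I : σ → Finset (σ ⊕ ι) := fun l => Finset.univ.filter fun g => Cn (D l) (κ g) ∧ ν g = 0
  have hI : ∀ l g, g ∈ I l ↔ Cn (D l) (κ g) ∧ ν g = 0 := by simp [I]
  have htw : ∀ l, ∀ g ∈ I l, ∀ j ∈ S, tw u (κ g) j = if j = l then 1 else 0 := by
    intro l g hg j hj
    refine (Finset.sum_congr rfl fun g' _ => ?_).trans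
      ((Finset.sum_mul _ _ _).symm.trans (by rw [hs g, one_mul]))
    by_cases h1 : κ g g' = 0
    · simp [h1]
    · simp [((hD l g').1 (((hI l g).1 hg).1.mem h1)).2 j hj]
  let res : σ → (σ ⊕ ι → ℝ) → σ ⊕ ι → ℝ := fun l e g => if g ∈ D l then e g else 0
  have hφ : ∀ l ∈ S, ∃ φ : (σ ⊕ ι → ℝ) → k, φ (res l (pl lam)) ≠ 0 ∧
      ∑ g ∈ I l, ca a g * φ (κ g) = 0 := by
    intro l hl
    refine exists_phi _ _ (fun g h1 g' h2 h3 => ?_) _ (fun g => by cases g <;> simp [ca, h.ne]) _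
      fun g h1 h2 => ?_
    · have h4 : rc (sh u g) = rc (sh u g') := by
        refine add_right_cancel ((hκ g).2.2.trans (Eq.trans ?_ (hκ g').2.2.symm))
        rw [h3, ((hI l g).1 h1).2, ((hI l g').1 h2).2]
      have h5 := congrFun (congrArg Prod.fst h4)
      rcases g with j | i <;> rcases g' with j' | i'
      · simpa [rc, sh, Pi.single_apply] using congrFun (congrArg Prod.snd h4) j
      · simpa [rc, sh, hat] using h5 none
      · simpa [rc, sh, hat] using h5 none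
      · exact congrArg _ (h.inj (funext fun j => by simpa [rc, sh, hat, nn] using h5 (some j)))
    by_contra h3
    push Not at h3
    have h4 : ∀ g' ∈ D l, g' = g := fun g' hg' => h3 g' (by
      obtain ⟨h4, h5⟩ := hG.rigid (hκ g') (rp_sh (hDt l g' hg').1) h.feas fun g'' h'' => by
        rw [not_not.1 (mt (Pi.single_eq_of_ne · _) h'')]
        exact (hDt l g' hg').2
      exact (hI l g').2 ⟨h4 ▸ cn_single hg', h5⟩)
    have h5 := hs g
    rw [Finset.sum_eq_single g (fun g' _ h => ((hI l g).1 h1).1.2 g' (mt (h4 g') h)) (by simp)] at h5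
    have h6 : g ∈ D l := ((hI l g).1 h1).1.mem (h5 ▸ one_ne_zero)
    have h7 := ((hD l g).1 h6).2
    have h8 : pl lam g = 1 := by simpa [h2, res, h6] using h5
    have h9 : tw u (pl lam - Pi.single g 1) l = 0 := by
      have := tw_add (u := u) (pl lam - Pi.single g 1) (Pi.single g 1) l
      rw [sub_add_cancel, h.tw_pl hl] at this
      simpa [tw, Pi.single_apply, h7 l hl, -Pi.sub_apply] using this
    rw [tw_eq_zero fun g' => by
      by_cases e : g' = g
      exacts [by simp [e, h8], by simp [e, pl]]] at h9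
    obtain ⟨i, rfl⟩ : ∃ i, g = Sum.inr i := by
      rcases g with j | i
      exacts [absurd (h.inl j) ((hD l _).1 h6).1.ne', ⟨i, rfl⟩]
    obtain ⟨j, h10, h11, h12⟩ := h.good i l (hDt l _ h6).1 (by simpa [nn] using h7 l hl)
      fun g h10 h11 h12 => by
      by_cases h13 : 0 < lam g
      · exact h9 g (by simp [h12, pl, h13])
      · exact mem_S0.1 hl g (mem_Zf.2 ⟨⟨h10, h11⟩, not_lt.1 h13⟩)
    refine h11 (by simpa [nn, h10] using h7 j (mem_S0.2 fun g hg => h12 g (mem_Zf.1 hg).1.1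
      (mem_Zf.1 hg).1.2 fun e => (e ▸ (mem_Zf.1 hg).2).not_gt ((hD l _).1 h6).1))
  choose! φ h1 h2 using hφ
  let Adm : Pt σ → (σ ⊕ ι → ℝ) → Prop := fun p e => Rp u V (pl lam) p e 0 ∧
    (∀ g, (∀ l ∈ S, g ∉ D l) → e g = pl lam g) ∧ ∀ l ∈ S, tw u e l = 1
  have hlv : ∀ p e, Adm p e → Lv u V (pl lam) (Zf u V lam ω₀) ∅ p e := fun p e he =>
    ⟨he.1, ω₀, h.near, fun g hg => ⟨by
      by_cases h3 : ∀ l ∈ S, g ∉ D l
      · exact (h.supp g fun h => by simp [he.2.1 g h3, pl, h] at hg).2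
      · push Not at h3
        exact h3.elim fun l hl => (hDt l g hl.2).2, by simp⟩⟩
  let θ : Pt σ → k := fun p => if h : ∃ e, Adm p e then ∏ l ∈ S, φ l (res l h.choose) else 0
  have hθ : ∀ p e, Adm p e → θ p = ∏ l ∈ S, φ l (res l e) := fun p e he => by
    have : ∃ e, Adm p e := ⟨e, he⟩
    simp only [θ, dif_pos this, (hG.lv_eq this.choose_spec.1 (hlv p e he)).1]
  have h3 : (lin' θ : Lm k σ →ₗ[k] k) (ee 0) = 0 := by
    refine (sup_le (c := LinearMap.ker (lin' θ)) (Im_le.2 fun l _ x hx => sp_map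
      (N := ⊥) (lin' θ ∘ₗ LinearMap.mulLeft k (Fl u a l)) (fun p hp => ?_) hx) (sp_le fun p hp =>
        (lin'_ee θ p).trans (dif_neg fun ⟨e, he⟩ => by simpa using (hp.2 e (hlv p e he)).2))) h0
    simp only [LinearMap.comp_apply, LinearMap.mulLeft_apply, Fl_mul, map_sum, map_smul, lin'_ee,
      Submodule.mem_bot, smul_eq_mul]
    obtain ⟨⟨e, μ, h3⟩, h4⟩ := hp
    have key : ∀ g, nn u g l ≠ 0 → ∀ e', Adm (p + sh u g) e' →
        l ∈ S ∧ g ∈ I l ∧ tw u e l = 0 ∧ μ = 0 ∧ e' = e + κ g := by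
      intro g h5 e' h6
      obtain ⟨h7, rfl, rfl, h8⟩ := hG.lv_add h3 (hκ g) (hlv _ _ h6)
      obtain ⟨h9, h10⟩ := h4 e h7
      have hk := (hκ g).1.1
      have h11 : ∀ j ∈ S, j ≠ l → ∀ g', κ g g' ≠ 0 → nn u g' j = 0 := fun j hj hl =>
        (tw_eq_zero hk).1 (by
          linarith [h6.2.2 j hj, h10 j (Finset.mem_erase.2 ⟨hl, hj⟩), tw_add (u := u) e (κ g) j,
            tw_nonneg (u := u) hk j])
      have h12 : ∀ g', κ g g' ≠ 0 → 0 < lam g' ∧ l ∈ S ∧ nn u g' l ≠ 0 := fun g' hg' => by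
        have : 0 < lam g' ∧ g' ∉ G1 u V lam ω₀ := by
          by_cases h12 : ∀ l ∈ S, g' ∉ D l
          · have h13 := h6.2.1 g' h12
            have h14 := hg'.symm.lt_of_le (hk g')
            have h15 : 0 < lam g' := by
              simpa [pl] using (add_pos_of_nonneg_of_pos (h3.1.1 g') h14).trans_eq h13
            rw [pl, max_eq_left h15.le, Pi.add_apply] at h13
            exact ⟨h15, fun h => by linarith [h9 g' h]⟩
          · push Not at h12
            obtain ⟨l', h12, h13⟩ := h12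
            exact ⟨((hD l' g').1 h13).1, fun h => by
              simpa [(mem_G1.1 h).2 l' h12] using ((hD l' g').1 h13).2 l' h12⟩
        obtain ⟨j, h12, h13⟩ : ∃ j ∈ S, nn u g' j ≠ 0 := by
          simpa [mem_G1, this.1] using this.2
        obtain rfl : j = l := by_contra fun h => h13 (h11 j h12 h g' hg')
        exact ⟨this.1, h12, h13⟩
      obtain ⟨g₀, -, h13⟩ := Finset.exists_ne_zero_of_sum_ne_zero (hs g ▸ one_ne_zero)
      have h14 : ∀ g' ∈ Finset.univ, 0 ≤ κ g g' * ((nn u g' l : ℝ) - 1) := fun g' _ => by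
        by_cases h : κ g g' = 0
        · simp [h]
        · exact mul_nonneg (hk g') (sub_nonneg.2 (by
            exact_mod_cast Nat.one_le_iff_ne_zero.2 (h12 g' h).2.2))
      have h15 : ∑ g', κ g g' * ((nn u g' l : ℝ) - 1) = tw u (κ g) l - 1 := by
        simp only [mul_sub, Finset.sum_sub_distrib, mul_one, hs, tw]
      have h16 := Finset.sum_nonneg h14
      have h17 := h6.2.2 l (h12 g₀ h13).2.1
      have h18 := tw_nonneg (u := u) h3.1.1 l
      rw [tw_add] at h17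
      refine ⟨(h12 g₀ h13).2.1, (hI l g).2 ⟨⟨hk, fun g' hg' => by_contra fun h => hg' ((hD l g').2
        ⟨(h12 g' h).1, fun j hj => ?_⟩)⟩, h8⟩, by linarith, rfl, rfl⟩
      split_ifs with h19
      · have := (mul_eq_zero.1 ((Finset.sum_eq_zero_iff_of_nonneg h14).1 (by linarith) g'
          (Finset.mem_univ _))).resolve_left h
        exact_mod_cast h19 ▸ sub_eq_zero.1 this
      · exact h11 j hj h19 g' h
    by_cases h5 : ∃ g, nn u g l ≠ 0 ∧ ∃ e', Adm (p + sh u g) e'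
    · obtain ⟨g₀, h5, e', h6⟩ := h5
      obtain ⟨h7, h8, h9, rfl, rfl⟩ := key g₀ h5 e' h6
      rw [← Finset.sum_subset (Finset.subset_univ (I l)) fun g _ hg => ?_,
        ← zero_mul (∏ l' ∈ S.erase l, φ l' (res l' e)), ← h2 l h7, Finset.sum_mul]
      · refine Finset.sum_congr rfl fun g hg => ?_
        obtain ⟨h10, h11⟩ := (hI l g).1 hg
        have h12 : (nn u g l : ℝ) = tw u (κ g) l + ν g l := (hκ g).nn_eq g l
        rw [htw l g hg l h7, h11, if_pos rfl, Pi.zero_apply, add_zero, Nat.cast_eq_one] at h12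
        rw [hθ _ (e + κ g) ⟨by simpa [h11] using h3.add' (hκ g), fun g' h => by
          simpa [h10.2 g' (h l h7), ((hI l g₀).1 h8).1.2 g' (h l h7)] using h6.2.1 g' h,
          fun j hj => by simpa [tw_add, htw l g hg j hj, htw l g₀ h8 j hj] using h6.2.2 j hj⟩,
          ← Finset.mul_prod_erase _ _ h7, h12, Nat.cast_one, mul_one, mul_assoc]
        refine congrArg _ (congrArg₂ _ (congrArg _ (funext fun g' => ?_)) ?_)
        · by_cases h : g' ∈ D l
          · have : e g' = 0 := by_contra fun h' => by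
              simpa [(tw_eq_zero h3.1.1).1 h9 g' h'] using ((hD l g').1 h).2 l h7
            simp [res, h, this]
          · simp [res, h, h10.2 g' h]
        · refine Finset.prod_congr rfl fun l' hl' => congrArg _ (funext fun g' => ?_)
          by_cases h : g' ∈ D l'
          · have : g' ∉ D l := fun h' => by
              simpa [((hD l g').1 h').2 l h7, (Finset.ne_of_mem_erase hl').symm] using
                ((hD l' g').1 h).2 l h7
            simp [res, h, h10.2 g' this]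
          · simp [res, h]
      · by_cases h : nn u g l = 0
        · simp [h]
        · simp only [θ, dif_neg fun h' : ∃ e, Adm _ e => h'.elim fun e' h' => hg (key g h e' h').2.1,
            mul_zero]
    · refine Finset.sum_eq_zero fun g _ => ?_
      by_cases h : nn u g l = 0
      · simp [h]
      · simp only [θ, dif_neg fun h' => h5 ⟨g, h, h'⟩, mul_zero]
  rw [lin'_ee, hθ 0 (pl lam) ⟨h.rp_zero, fun _ _ => rfl, fun _ => h.tw_pl⟩] at h3
  exact Finset.prod_ne_zero_iff.2 h1 h3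

theorem Dat.root {n : ℕ} {u : ι → Fin n → ℕ} {V : Finset (Fin n ⊕ ι)} {β : Option (Fin n) → ℚ}
    {lam : Fin n ⊕ ι → ℝ} {ω₀ : Fin n → ℝ} (h : Dat u a V β lam ω₀) (hf : fpoly u a ≠ 0)
    {b : Polynomial k} (hb : LocalBernsteinEq (fpoly u a) b) : b.eval (-(β none : k)) = 0 :=
  (h.setup h.nz).root hf hb

end RA

end

end Pool.Agent.P.MP_b91a16_ag
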