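import Pool.Agent.P.MP_b91a16_ag.Lam
import Pool.Agent.P.MP_b91a16_ag.Geom
import Pool.Agent.P.MP_b91a16_ag.BernLoc

/-! The twisted Euler operators on the Laurent module. -/

set_option linter.unusedSectionVars false

open MvPolynomial

namespace Pool.Agent.P.MP_b91a16_ag

noncomputable section

namespace RA

variable {k σ ι : Type} [Field k] [CharZero k] [Fintype σ] [DecidableEq σ] [Fintype ι]
  [DecidableEq ι]

abbrev Pt (σ : Type) : Type := (Option σ → ℤ) × (σ → ℤ)

abbrev Lm (k σ : Type) [Field k] : Type := AddMonoidAlgebra k (Pt σ)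

variable (u : ι → σ → ℕ) (a : ι → k) (β : Option σ → ℚ)

def hat (g : σ ⊕ ι) (o : Option σ) : ℕ := o.elim (Sum.elim (fun _ => 0) (fun _ => 1) g) (nn u g)

def sh : σ ⊕ ι → Pt σ :=
  Sum.elim (fun j => (0, Pi.single j 1)) fun i => (fun o => hat u (Sum.inr i) o, 0)

def qv (p : Pt σ) (o : Option σ) : ℚ := β o + p.1 o

def cf (ξ : Option σ → ℚ) (η : σ → ℚ) : σ ⊕ ι → k :=
  Sum.elim (fun j => (η j : k)) fun i => a i * ((∑ o, ξ o * hat u (Sum.inr i) o : ℚ) : k)

def dg (ξ : Option σ → ℚ) : Module.End k (Lm k σ) := diag fun p => ((∑ o, ξ o * qv β p o : ℚ) : k)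

def FX (ξ : Option σ → ℚ) (η : σ → ℚ) : Lm k σ := ∑ g, cf u a ξ η g • ee (sh u g)

def Op (ξ : Option σ → ℚ) (η : σ → ℚ) : Module.End k (Lm k σ) :=
  dg β ξ + LinearMap.mulLeft k (FX u a ξ η)

theorem qv_add (p p' : Pt σ) (o : Option σ) : qv β (p + p') o = qv β p o + p'.1 o := by
  simp [qv, add_assoc]

theorem FX_mul (ξ : Option σ → ℚ) (η : σ → ℚ) (p : Pt σ) :
    FX u a ξ η * ee p = ∑ g, cf u a ξ η g • ee (p + sh u g) := by
  simp only [FX, Finset.sum_mul, smul_mul_assoc, ee_mul, add_comm p]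

theorem Op_ee (ξ : Option σ → ℚ) (η : σ → ℚ) (p : Pt σ) : Op u a β ξ η (ee p) =
    ((∑ o, ξ o * qv β p o : ℚ) : k) • ee p + ∑ g, cf u a ξ η g • ee (p + sh u g) := by
  simp only [Op, dg, LinearMap.add_apply, diag_ee, LinearMap.mulLeft_apply, FX_mul]

theorem dg_mul (ξ : Option σ → ℚ) (p : Pt σ) (x : Lm k σ) :
    dg β ξ (ee p * x) = ee p * dg β ξ x + ((∑ o, ξ o * p.1 o : ℚ) : k) • (ee p * x) := by
  have : dg β ξ ∘ₗ LinearMap.mulLeft k (ee p) = LinearMap.mulLeft k (ee p) ∘ₗ dg β ξ +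
      ((∑ o, ξ o * p.1 o : ℚ) : k) • LinearMap.mulLeft k (ee p) := hom_ext fun p' => by
    simp only [dg, LinearMap.comp_apply, LinearMap.mulLeft_apply, ee_mul, diag_ee,
      LinearMap.add_apply, LinearMap.smul_apply, mul_smul_comm, ← add_smul, add_comm p p', qv_add,
      mul_add, Finset.sum_add_distrib, Rat.cast_add]
  exact LinearMap.congr_fun this x

theorem Op_mul (ξ : Option σ → ℚ) (η : σ → ℚ) (p : Pt σ) (x : Lm k σ) :
    Op u a β ξ η (ee p * x) =
      ee p * Op u a β ξ η x + ((∑ o, ξ o * p.1 o : ℚ) : k) • (ee p * x) := by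
  simp only [Op, LinearMap.add_apply, dg_mul, LinearMap.mulLeft_apply, mul_add]
  rw [mul_left_comm]
  abel

theorem Op_comm (ξ ξ' : Option σ → ℚ) (η η' : σ → ℚ) :
    Commute (Op u a β ξ η) (Op u a β ξ' η') := by
  have key : ∀ (ξ ξ' : Option σ → ℚ) (η' : σ → ℚ) (x : Lm k σ), dg β ξ (FX u a ξ' η' * x) =
      FX u a ξ' η' * dg β ξ x + (∑ i, (a i * ((∑ o, ξ o * hat u (Sum.inr i) o : ℚ) *
        (∑ o, ξ' o * hat u (Sum.inr i) o : ℚ))) • ee (sh u (Sum.inr i))) * x := by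
    intro ξ ξ' η' x
    simp only [FX, Finset.sum_mul, map_sum, smul_mul_assoc, map_smul, dg_mul, smul_add,
      Finset.sum_add_distrib, add_right_inj, smul_smul]
    rw [Fintype.sum_sum_type, Finset.sum_eq_zero fun j _ => by simp [sh], zero_add]
    refine Finset.sum_congr rfl fun i _ => ?_
    simp only [cf, sh, Sum.elim_inr, Int.cast_natCast]
    congr 1
    ring
  refine LinearMap.ext fun x => ?_
  have := LinearMap.congr_fun (diag_comm (k := k) (fun p : Pt σ => ((∑ o, ξ o * qv β p o : ℚ) : k))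
    fun p => ((∑ o, ξ' o * qv β p o : ℚ) : k)).eq x
  simp only [Op, Module.End.mul_apply, LinearMap.add_apply, LinearMap.mulLeft_apply, key, mul_add]
  simp only [dg, Module.End.mul_apply] at this ⊢
  rw [this, mul_left_comm (FX u a ξ η)]
  simp only [mul_comm ((∑ o, ξ o * hat u (Sum.inr _) o : ℚ) : k)]
  abel

theorem Op_add (ξ ξ' : Option σ → ℚ) (η η' : σ → ℚ) :
    Op u a β (ξ + ξ') (η + η') = Op u a β ξ η + Op u a β ξ' η' := hom_ext fun p => by
  have : ∀ g, cf u a (ξ + ξ') (η + η') g = cf u a ξ η g + cf u a ξ' η' g := by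
    rintro (j | i) <;> simp [cf, add_mul, mul_add, Finset.sum_add_distrib]
  simp only [LinearMap.add_apply, Op_ee, this, Pi.add_apply, add_mul, Finset.sum_add_distrib,
    Rat.cast_add, add_smul]
  abel

theorem Op_smul (c : ℚ) (ξ : Option σ → ℚ) (η : σ → ℚ) :
    Op u a β (c • ξ) (c • η) = (c : k) • Op u a β ξ η := hom_ext fun p => by
  have : ∀ g, cf u a (c • ξ) (c • η) g = c * cf u a ξ η g := by
    rintro (j | i) <;> simp [cf, mul_assoc, ← Finset.mul_sum, mul_left_comm]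
  simp only [LinearMap.smul_apply, Op_ee, this, Pi.smul_apply, smul_eq_mul, mul_assoc,
    ← Finset.mul_sum, Rat.cast_mul, smul_add, Finset.smul_sum, smul_smul]

theorem Op_zero : Op u a β 0 0 = 0 := by simpa using Op_smul u a β 0 0 0

/-- The operator `∂_j x_j` coupled to the formal variable of the direction `j`. -/
def Dl (j : σ) : Module.End k (Lm k σ) := Op u a β (Pi.single (some j) 1) (Pi.single j 1)

def Fl (j : σ) : Lm k σ := FX u a (Pi.single (some j) 1) (Pi.single j 1)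

def ext0 (ξ : σ → ℚ) : Option σ → ℚ := fun o => o.elim 0 ξ

theorem Op_ext0 (ξ : σ → ℚ) : Op u a β (ext0 ξ) ξ = ∑ j, (ξ j : k) • Dl u a β j := by
  have : ∀ s : Finset σ, Op u a β (∑ j ∈ s, ξ j • Pi.single (some j) 1)
      (∑ j ∈ s, ξ j • Pi.single j 1) = ∑ j ∈ s, (ξ j : k) • Dl u a β j := by
    intro s
    induction s using Finset.induction_on with
    | empty => simpa using Op_zero u a β
    | insert j s hj ih => simp only [Finset.sum_insert hj, Op_add, Op_smul, ih, Dl]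
  rw [← this]
  congr 1
  · ext (_ | j) <;> simp [ext0, Pi.single_apply]
  · ext j
    simp [Pi.single_apply]

theorem Op_y (j : σ) (x : Lm k σ) :
    Op u a β 0 (Pi.single j 1) x = ee (sh u (Sum.inl j)) * x := by
  have : Op u a β 0 (Pi.single j 1) = LinearMap.mulLeft k (ee (sh u (Sum.inl j))) :=
    hom_ext fun p => by
      simp [Op_ee, cf, Pi.single_apply, ee_mul, add_comm, apply_ite]
  rw [this]
  rfl

def Closed (A : Set (Pt σ)) : Prop := ∀ p ∈ A, ∀ g, p + sh u g ∈ A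

variable {u} in
theorem Closed.op {A : Set (Pt σ)} (h : Closed u A) (ξ : Option σ → ℚ) (η : σ → ℚ) :
    ∀ x ∈ sp k A, Op u a β ξ η x ∈ sp k A := fun _ hx => sp_map _ (fun p hp => by
  rw [Op_ee]
  exact add_mem (Submodule.smul_mem _ _ (ee_mem hp))
    (Submodule.sum_mem _ fun g _ => Submodule.smul_mem _ _ (ee_mem (h p hp g)))) hx

variable {u} in
theorem Closed.fx {A : Set (Pt σ)} (h : Closed u A) (ξ : Option σ → ℚ) (η : σ → ℚ) :
    ∀ x ∈ sp k A, FX u a ξ η * x ∈ sp k A := fun _ hx =>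
  sp_map (LinearMap.mulLeft k (FX u a ξ η)) (fun p hp => by
    rw [LinearMap.mulLeft_apply, FX_mul]
    exact Submodule.sum_mem _ fun g _ => Submodule.smul_mem _ _ (ee_mem (h p hp g))) hx

/-- The commutative algebra of operators. -/
def PP : Subalgebra k (Module.End k (Lm k σ)) :=
  Algebra.adjoin k (Set.range fun x : (Option σ → ℚ) × (σ → ℚ) => Op u a β x.1 x.2)

theorem Op_mem (ξ : Option σ → ℚ) (η : σ → ℚ) : Op u a β ξ η ∈ PP u a β :=
  Algebra.subset_adjoin ⟨(ξ, η), rfl⟩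

variable {u a β}

theorem PP_comm {v w : Module.End k (Lm k σ)} (hv : v ∈ PP u a β) (hw : w ∈ PP u a β) :
    Commute v w :=
  Algebra.commute_of_mem_adjoin_of_forall_mem_commute hw fun _ ⟨_, hx⟩ =>
    (Algebra.commute_of_mem_adjoin_of_forall_mem_commute hv fun _ ⟨_, hy⟩ =>
      hx ▸ hy ▸ Op_comm u a β _ _ _ _).symm

theorem PP_stab {N : Submodule k (Lm k σ)} (h : ∀ ξ η, ∀ x ∈ N, Op u a β ξ η x ∈ N)
    {v : Module.End k (Lm k σ)} (hv : v ∈ PP u a β) : ∀ x ∈ N, v x ∈ N := by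
  induction hv using Algebra.adjoin_induction with
  | mem v hv =>
    obtain ⟨x, rfl⟩ := hv
    exact h _ _
  | algebraMap c => exact fun x hx => N.smul_mem c hx
  | add v w _ _ hv hw => exact fun x hx => add_mem (hv x hx) (hw x hx)
  | mul v w _ _ hv hw => exact fun x hx => hv _ (hw x hx)

variable (u a β) in
def JJ' (A B : Set (Pt σ)) : Submodule k (Lm k σ) :=
  Im (Dl u a β) Finset.univ (fun _ => sp k A) ⊔ sp k B

theorem JJ_stab {A B : Set (Pt σ)} (hA : Closed u A) (hB : Closed u B)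
    {v : Module.End k (Lm k σ)} (hv : v ∈ PP u a β) : ∀ x ∈ JJ' u a β A B, v x ∈ JJ' u a β A B :=
  fun _ hx => map_sup v (fun _ hx => map_Im v (fun l hl x hx => by
    rw [← Module.End.mul_apply, (PP_comm hv (w := Dl u a β l) (Op_mem u a β _ _)).eq]
    exact Submodule.mem_sup_left (mem_Im hl (PP_stab (hA.op a β) hv x hx))) hx)
    (fun x hx => Submodule.mem_sup_right (PP_stab (hB.op a β) hv x hx)) hx

theorem Op_ext0_mem {A B : Set (Pt σ)} (ξ : σ → ℚ) {x : Lm k σ} (hx : x ∈ sp k A) :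
    Op u a β (ext0 ξ) ξ x ∈ JJ' u a β A B := by
  rw [Op_ext0, LinearMap.sum_apply]
  exact Submodule.sum_mem _ fun j _ => Submodule.smul_mem _ _
    (Submodule.mem_sup_left (mem_Im (Finset.mem_univ j) hx))

theorem exists_xi {K τ γ : Type} [Field K] [Fintype τ] [DecidableEq τ] [Fintype γ] [DecidableEq γ]
    (v : γ → τ → K) (I : Finset γ) (q : τ → K) :
    (∃ ξ : τ → K, (∀ g ∈ I, ∑ o, ξ o * v g o = 0) ∧ ∑ o, ξ o * q o ≠ 0) ∨
      ∃ r : γ → K, (∀ g ∉ I, r g = 0) ∧ ∀ o, q o = ∑ g, r g * v g o := by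
  by_cases h : q ∈ Submodule.span K (Set.range fun g => if g ∈ I then v g else 0)
  · obtain ⟨r, hr⟩ := (Submodule.mem_span_range_iff_exists_fun K).1 h
    refine Or.inr ⟨fun g => if g ∈ I then r g else 0, fun g hg => if_neg hg, fun o => ?_⟩
    rw [← hr, Finset.sum_apply]
    exact Finset.sum_congr rfl fun g _ => by by_cases hg : g ∈ I <;> simp [hg]
  · obtain ⟨φ, h1, h2⟩ := Submodule.exists_le_ker_of_notMem h
    have e : ∀ w : τ → K, ∑ o, φ (Pi.single o 1) * w o = φ w := fun w => by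
      rw [LinearMap.pi_apply_eq_sum_univ φ w]
      exact Finset.sum_congr rfl fun o _ => by
        rw [smul_eq_mul, mul_comm]
        congr 2
        ext o'
        simp [Pi.single_apply, eq_comm]
    refine Or.inl ⟨fun o => φ (Pi.single o 1), fun g hg => ?_, by rwa [e]⟩
    rw [e]
    simpa [hg] using h2 (Submodule.subset_span ⟨g, rfl⟩)

theorem prescribe {K τ γ : Type} [Field K] [Fintype τ] [DecidableEq τ] [Fintype γ] [DecidableEq γ]
    (v : γ → τ → K) (I : Finset γ)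
    (h : ∀ c : γ → K, (∀ g ∉ I, c g = 0) → (∀ o, ∑ g, c g * v g o = 0) → c = 0) (r : γ → K) :
    ∃ ξ : τ → K, ∀ g ∈ I, ∑ o, ξ o * v g o = r g := by
  have : ∀ g ∈ I, ∃ ξ : τ → K, ∀ g' ∈ I, ∑ o, ξ o * v g' o = if g' = g then r g else 0 := by
    intro g hg
    rcases exists_xi v (I.erase g) (v g) with ⟨ξ, h1, h2⟩ | ⟨c, h1, h2⟩
    · refine ⟨fun o => r g / (∑ o, ξ o * v g o) * ξ o, fun g' hg' => ?_⟩
      simp only [mul_assoc, ← Finset.mul_sum]
      split_ifs with e
      · rw [e, div_mul_cancel₀ _ h2]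
      · rw [h1 g' (Finset.mem_erase.2 ⟨e, hg'⟩), mul_zero]
    · have := congrFun (h (c - Pi.single g 1) (fun g' hg' => by
        have : g' ≠ g := fun e => hg' (e ▸ hg)
        simp [h1 g' fun h => hg' (Finset.mem_of_mem_erase h), this]) fun o => by
          simp [sub_mul, Finset.sum_sub_distrib, ← h2, Pi.single_apply]) g
      simp [h1 g (Finset.notMem_erase g I)] at this
  choose! ξ hξ using this
  refine ⟨∑ g ∈ I, ξ g, fun g' hg' => ?_⟩
  simp only [Finset.sum_apply, Finset.sum_mul]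
  rw [Finset.sum_comm, Finset.sum_congr rfl fun g hg => hξ g hg g' hg']
  simp [hg']

end RA

end

end Pool.Agent.P.MP_b91a16_ag
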