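import Pool.Agent.P.MP_b91a16_ag.Cone

/-! The logarithmic derivatives form a regular sequence on a half open simplicial cone. -/

set_option linter.unusedSectionVars false

open Filter Topology

namespace Pool.Agent.P.MP_b91a16_ag

noncomputable section

namespace RA

variable {k σ ι : Type} [Field k] [CharZero k] [Fintype σ] [DecidableEq σ] [Fintype ι]
  [DecidableEq ι]
variable (u : ι → σ → ℕ) (a : ι → k)

def ca : σ ⊕ ι → k := Sum.elim (fun _ => 1) a

def FS (I : Finset (σ ⊕ ι)) (l : σ) : Lm k σ := ∑ g ∈ I, (ca a g * nn u g l) • ee (sh u g)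

theorem Fl_eq (l : σ) : Fl u a l = FS u a Finset.univ l := by
  refine Finset.sum_congr rfl ?_
  rintro (j | i) -
  · by_cases h : l = j <;> simp [cf, ca, nn, Pi.single_apply, eq_comm, h]
  · simp [cf, ca, nn, hat, Pi.single_apply]

/-- Nondegeneracy along the compact faces. -/
def ND : Prop := ∀ ω, (∀ g, 0 ≤ zr u g ω) → (∀ j, zr u (Sum.inl j) ω ≠ 0) →
  (tight u ω).Nonempty → ∃ h : σ → Lm k σ, ∑ l, h l * FS u a (tight u ω) l = 1

def CC (G : Finset (σ ⊕ ι)) : AddSubmonoid (Pt σ) where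
  carrier := {z | ∃ ζ, Rp u G 0 z ζ 0}
  zero_mem' := ⟨0, rp_zero⟩
  add_mem' := fun ⟨_, h⟩ ⟨_, h'⟩ => ⟨_, by simpa using h.add' h'⟩

open Classical in
def TG (G : Finset (σ ⊕ ι)) : Finset (σ ⊕ ι) := Finset.univ.filter fun g => sh u g ∈ CC u G

variable {u a} {V G : Finset (σ ⊕ ι)}

theorem mem_TG {g : σ ⊕ ι} : g ∈ TG u G ↔ ∃ ζ, Cn G ζ ∧ WW u (Pi.single g 1) = WW u ζ := by
  simp [TG, CC, Rp, rc_sh]

theorem rp_iff {z : Pt σ} {ζ : σ ⊕ ι → ℝ} : Rp u G 0 z ζ 0 ↔ Cn G ζ ∧ rc z = WW u ζ := by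
  simp [Rp]

theorem cc_mul {x y : Lm k σ} (hx : x ∈ sp k (CC u G)) (hy : y ∈ sp k (CC u G)) :
    x * y ∈ sp k (CC u G) := mul_mem_sp (fun _ h _ h' => add_mem h h') hx hy

theorem mem_TG' {g : σ ⊕ ι} : g ∈ TG u G ↔ sh u g ∈ CC u G := by simp [TG]

theorem FS_mem (l : σ) : FS u a (TG u G) l ∈ sp k (CC u G) :=
  Submodule.sum_mem _ fun _ hg => Submodule.smul_mem _ _ (ee_mem (mem_TG'.1 hg))

theorem Geo.face_of (hG : Geo u V) {T : Finset (σ ⊕ ι)} (hT : T ⊆ V) (hF : Face u T)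
    (hl : ∀ j, Sum.inl j ∉ T) : ∃ ω, (∀ g, 0 ≤ zr u g ω) ∧ tight u ω = TG u T := by
  obtain ⟨ω, hω⟩ := hF
  obtain ⟨d, hd⟩ := hG.dual hω.nonneg fun g => if g ∈ T then 0 else 1
  obtain ⟨s, -, h1, h2⟩ := hG.go hω.nonneg (d := d) fun g hg hg' => by
    rw [hd g hg hg']
    positivity
  have h3 : ∀ g ∈ V, zr u g (ω + s • d) = 0 → g ∈ T := fun g hg hg' => by
    have := h2 g hg'
    simpa [hd g hg this.1] using this.2
  refine ⟨_, h1, Finset.ext fun g => ?_⟩
  rw [mem_tight, mem_TG]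
  constructor
  · intro hg
    obtain ⟨κ, ν, h4, h5, -⟩ := hG.zr_eq g
    obtain ⟨h6, h7⟩ := tight_of_lv h1 h4.1.1 h4.2.1 (h5 _ ▸ hg)
    obtain rfl : ν = 0 := funext fun j => by
      by_contra h
      exact hl j (h3 _ (hG.inl j) (h7 j h))
    refine ⟨κ, ⟨h4.1.1, fun g hg => ?_⟩, by simpa [rc_sh] using h4.2.2⟩
    by_contra h
    exact hg (h3 g (h4.1.mem h) (h6 g h))
  · rintro ⟨κ, h4, h5⟩
    have := congrArg (lv (ω + s • d)) h5
    rw [lv_eq_zero (e := κ) fun g hg => by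
      simp [zr_add, hω.eq_zero (h4.mem hg), hd g (hT (h4.mem hg)) (hω.eq_zero (h4.mem hg)),
        h4.mem hg]] at this
    simpa [lv_WW, Pi.single_apply] using this

theorem exists_shift {T : Finset (σ ⊕ ι)} {x : Lm k σ}
    (hx : x ∈ sp k {z | ∃ ζ, (∀ g ∉ T, ζ g = 0) ∧ rc z = WW u ζ}) :
    ∀ᶠ M : ℕ in atTop, ee (M • ∑ g ∈ T, sh u g) * x ∈ sp k (CC u T) := by
  let N : Submodule k (Lm k σ) :=
    { carrier := {x | ∀ᶠ M : ℕ in atTop, ee (M • ∑ g ∈ T, sh u g) * x ∈ sp k (CC u T)}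
      zero_mem' := Eventually.of_forall fun _ => by simp
      add_mem' := fun h h' => (h.and h').mono fun _ h => by rw [mul_add]; exact add_mem h.1 h.2
      smul_mem' := fun c _ h => h.mono fun _ h => by
        rw [mul_smul_comm]; exact Submodule.smul_mem _ c h }
  refine sp_le (N := N) ?_ hx
  rintro z ⟨ζ, h1, h2⟩
  have : ∀ᶠ M : ℕ in atTop, ∀ g, -ζ g ≤ M := eventually_all.2 fun g =>
    tendsto_natCast_atTop_atTop.eventually_ge_atTop _
  refine this.mono fun M hM => ?_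
  rw [ee_mul]
  refine ee_mem ⟨M • ∑ g ∈ T, Pi.single g 1 + ζ, rp_iff.2 ⟨⟨fun g => ?_, fun g hg => ?_⟩, ?_⟩⟩
  · by_cases hg : g ∈ T
    · simpa [Pi.single_apply, hg, neg_le_iff_add_nonneg] using hM g
    · simp [Pi.single_apply, hg, h1 g hg]
  · simp [Pi.single_apply, hg, h1 g hg]
  · simp only [map_add, map_nsmul, map_sum, rc_sh, h2]

theorem Geo.prime (hG : Geo u V) (hN : ND u a) (hV : G ⊆ V) (hF : Face u G)
    (N : Submodule k (Lm k σ)) (hm : ∀ r ∈ sp k (CC u G), ∀ x ∈ N, r * x ∈ N)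
    (hp : ∀ x ∈ sp k (CC u G), ∀ y ∈ sp k (CC u G), x * y ∈ N → x ∈ N ∨ y ∈ N) (h1 : 1 ∉ N)
    (h2 : ∀ l, FS u a (TG u G) l ∈ N) : ∀ g ∈ G, ee (sh u g) ∈ N := by
  classical
  have hpow : ∀ z ∈ CC u G, ∀ M : ℕ, ee (M • z) ∈ N → ee z ∈ N := by
    intro z hz M
    induction M with
    | zero => exact fun h => absurd (by simpa [ee_zero] using h) h1
    | succ M ih =>
      rw [succ_nsmul, ← ee_mul]
      exact fun h => (hp _ (ee_mem (nsmul_mem hz M)) _ (ee_mem hz) h).elim ih id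
  let T := G.filter fun g => ee (sh u g) ∉ N
  have hTG : T ⊆ G := Finset.filter_subset _ _
  have hCC : sp k (CC u T : Set (Pt σ)) ≤ sp k (CC u G) := sp_mono fun z ⟨ζ, h⟩ => ⟨ζ, h.mono hTG⟩
  have h3 : ∀ l, FS u a (TG u T) l ∈ N := fun l => by
    have : TG u T ⊆ TG u G := fun g hg => (mem_TG.1 hg).elim fun ζ h => mem_TG.2 ⟨ζ, h.1.mono hTG, h.2⟩
    have h4 := h2 l
    rw [FS, ← Finset.sum_sdiff this] at h4
    refine (add_mem_cancel_left (Submodule.sum_mem _ fun g hg => N.smul_mem _ ?_)).1 h4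
    obtain ⟨ζ, h5, h6⟩ := mem_TG.1 (Finset.mem_sdiff.1 hg).1
    obtain ⟨g', h7, h8⟩ : ∃ g' ∉ T, ζ g' ≠ 0 := by
      by_contra h
      push Not at h
      exact (Finset.mem_sdiff.1 hg).2 (mem_TG.2 ⟨ζ, ⟨h5.1, h⟩, h6⟩)
    have h9 : ee (sh u g') ∈ N := by simpa [T, h5.mem h8] using h7
    obtain ⟨M, hM⟩ := exists_nat_ge (ζ g')⁻¹
    refine hpow _ ⟨ζ, rp_iff.2 ⟨h5, by rwa [rc_sh]⟩⟩ M ?_
    rw [← sub_add_cancel (M • sh u g) (sh u g'), ← ee_mul]
    refine hm _ (ee_mem ⟨M • ζ - Pi.single g' 1, rp_iff.2 ⟨⟨fun g'' => ?_, fun g'' hg => ?_⟩, ?_⟩⟩) _ h9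
    · by_cases e : g'' = g'
      · simpa [e] using (inv_le_iff_one_le_mul₀ (lt_of_le_of_ne (h5.1 g') h8.symm)).1 hM
      · simpa [e] using mul_nonneg (Nat.cast_nonneg M) (h5.1 g'')
    · simp [h5.2 g'' hg, (ne_of_mem_of_not_mem (h5.mem h8) hg).symm]
    · simp only [map_sub, map_nsmul, rc_sh, h6]
  obtain ⟨ω, hω⟩ := hF
  have h4 : ∀ j, Sum.inl j ∉ T := fun j hj => by
    obtain ⟨ξ, hξ⟩ := hG.dualQ hω.nonneg (Pi.single (Sum.inl j) 1)
    have h5 : ∀ g ∈ TG u T, ∑ l, (ξ l : k) * nn u g l = if g = Sum.inl j then 1 else 0 := by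
      intro g hg
      obtain ⟨κ, h5, h6⟩ := mem_TG.1 hg
      have h7 := congrArg (ld fun l => (ξ l : ℝ)) h6
      rw [ld_WW, ld_WW, Finset.sum_eq_single (Sum.inl j) (s := Finset.univ) (f := fun g => κ g * _)
        (fun g _ e => ?_) (by simp)] at h7
      · have h8 := congrFun (congrArg Prod.snd h6) j
        have h9 := hξ _ (hG.inl j) (hω.eq_zero (hTG hj))
        simp only [WW, LinearMap.coe_mk, AddHom.coe_mk, Pi.single_apply, eq_comm] at h8
        have : ∑ l, ξ l * nn u g l = if g = Sum.inl j then 1 else 0 := by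
          simp only [Pi.single_apply, ite_mul, one_mul, zero_mul, Finset.sum_ite_eq',
            Finset.mem_univ, if_true, lin_apply, mul_comm _ (ξ _ : ℝ), h8] at h7 h9
          have h10 : (∑ l, (ξ l : ℝ) * nn u (Sum.inl j) l) = 1 := by exact_mod_cast h9
          rw [h10] at h7
          split_ifs at h7 ⊢ <;> exact_mod_cast h7
        split_ifs at this ⊢ <;> exact_mod_cast this
      · by_cases h : κ g = 0
        · rw [h, zero_mul]
        · have := hξ g (hV (hTG (h5.mem h))) (hω.eq_zero (hTG (h5.mem h)))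
          rw [Pi.single_eq_of_ne e] at this
          rw [lin_apply, mul_eq_zero_of_right]
          simp only [mul_comm _ (ξ _ : ℝ)]
          exact_mod_cast this
    have h6 := N.sum_mem (t := Finset.univ) fun l _ => N.smul_mem (ξ l : k) (h3 l)
    simp only [FS, Finset.smul_sum, smul_smul] at h6
    rw [Finset.sum_comm, Finset.sum_eq_single (Sum.inl j) (fun g hg e => ?_) fun h => absurd
      (mem_TG.2 ⟨_, cn_single hj, rfl⟩) h] at h6
    · refine (Finset.mem_filter.1 hj).2 ?_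
      simpa [← Finset.sum_smul, ca, h5 _ (mem_TG.2 ⟨_, cn_single hj, rfl⟩)] using h6
    · simp [← Finset.sum_smul, mul_left_comm _ (ca a g), ← Finset.mul_sum, h5 g hg, e]
  by_contra h5
  push Not at h5
  obtain ⟨g₀, h5, h6⟩ := h5
  obtain ⟨ω', h7, h8⟩ := hG.face_of (hTG.trans hV) ⟨ω, hω.mono le_rfl hTG⟩ h4
  obtain ⟨h, h9⟩ := hN ω' h7 (fun j hj => by
    obtain ⟨κ, h9, h10⟩ := mem_TG.1 (h8 ▸ mem_tight.2 hj)
    simpa [WW, h9.2 _ (h4 j)] using congrFun (congrArg Prod.snd h10) j)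
    ⟨g₀, h8 ▸ mem_TG.2 ⟨_, cn_single (Finset.mem_filter.2 ⟨h5, h6⟩), rfl⟩⟩
  let H : AddSubgroup (Pt σ) :=
    { carrier := {z | ∃ ζ, (∀ g ∉ T, ζ g = 0) ∧ rc z = WW u ζ}
      zero_mem' := ⟨0, fun _ _ => rfl, by simp⟩
      add_mem' := fun ⟨ζ, h, e⟩ ⟨ζ', h', e'⟩ =>
        ⟨ζ + ζ', fun g hg => by simp [h g hg, h' g hg], by simp [e, e']⟩
      neg_mem' := fun ⟨ζ, h, e⟩ => ⟨-ζ, fun g hg => by simp [h g hg], by simp [e]⟩ }
  let π : Module.End k (Lm k σ) := diag fun p => if p ∈ H then 1 else 0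
  have h10 : ∀ x, π x ∈ sp k H := fun x => sp_map π (fun p _ => by
    rw [diag_ee]
    split_ifs with h
    · simpa using ee_mem h
    · simp) (mem_sp_univ x)
  have h11 : ∑ l, π (h l) * FS u a (TG u T) l = 1 := by
    have := congrArg π h9
    rw [h8, map_sum, ← ee_zero, diag_ee, if_pos (zero_mem H), one_smul, ee_zero] at this
    rw [← this]
    refine Finset.sum_congr rfl fun l _ => ?_
    have : (CC u T : Set (Pt σ)) ⊆ H := by
      rintro z ⟨ζ, h⟩
      exact ⟨ζ, h.1.2, (rp_iff.1 h).2⟩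
    rw [mul_comm, mul_comm (h l)]
    exact (diag_mul_of_sp (H := H) (c := fun p => if p ∈ H then (1 : k) else 0) (fun z hz p =>
      if_congr (add_mem_cancel_left hz) rfl rfl) (sp_mono this (FS_mem l)) _).symm
  obtain ⟨M, hM⟩ := (eventually_all.2 fun l => exists_shift (h10 (h l))).exists
  have h12 : ee (M • ∑ g ∈ T, sh u g) ∈ N := by
    rw [← mul_one (ee _), ← h11, Finset.mul_sum]
    exact N.sum_mem fun l _ => by rw [← mul_assoc]; exact hm _ (hCC (hM l)) _ (h3 l)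
  have h13 : ∀ T' ⊆ T, ee (∑ g ∈ T', sh u g) ∉ N := by
    intro T' hT'
    induction T' using Finset.induction_on with
    | empty => exact h1
    | insert g T' hg ih =>
      have h13 := Finset.insert_subset_iff.1 hT'
      rw [Finset.sum_insert hg, ← ee_mul]
      exact fun h => (hp _ (ee_mem ⟨_, rp_sh (hTG h13.1)⟩) _ (ee_mem (sum_mem fun g hg =>
        ⟨_, rp_sh (hTG (h13.2 hg))⟩)) h).elim (Finset.mem_filter.1 h13.1).2 (ih h13.2)
  exact h13 T subset_rfl (hpow _ (sum_mem fun g hg => ⟨_, rp_sh (hTG hg)⟩) M h12)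

theorem Geo.radical (hG : Geo u V) (hN : ND u a) (hV : G ⊆ V) (hF : Face u G) {g : σ ⊕ ι}
    (hg : g ∈ G) : ∃ (r : ℕ) (s : σ → Lm k σ), (∀ l, s l ∈ sp k (CC u G)) ∧
      ee (sh u g) ^ r = ∑ l, s l * FS u a (TG u G) l := by
  let R : Subalgebra k (Lm k σ) := (sp k (CC u G : Set (Pt σ))).toSubalgebra
    (ee_mem (zero_mem (CC u G))) fun _ _ => cc_mul
  let t : R := ⟨ee (sh u g), ee_mem ⟨_, rp_sh hg⟩⟩
  have : t ∈ (Ideal.span (Set.range fun l => (⟨_, FS_mem (a := a) l⟩ : R))).radical := by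
    rw [Ideal.radical_eq_sInf, Submodule.mem_sInf]
    rintro P ⟨h1, h2⟩
    have e : ∀ x : R, x.1 ∈ (P.restrictScalars k).map R.val.toLinearMap ↔ x ∈ P := fun x =>
      ⟨fun ⟨y, h, e⟩ => (Subtype.ext e : y = x) ▸ h, fun h => ⟨x, h, rfl⟩⟩
    have e' : ∀ x y : R, x.1 * y.1 ∈ (P.restrictScalars k).map R.val.toLinearMap ↔ x * y ∈ P :=
      fun x y => by rw [← e, Subalgebra.coe_mul]
    refine (e t).1 (hG.prime hN hV hF _ ?_ (fun x hx y hy h => ?_) (fun h => ?_)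
      (fun l => (e ⟨_, FS_mem l⟩).2 (h1 (Ideal.subset_span ⟨l, rfl⟩))) g hg)
    · rintro r hr _ ⟨x, hx, rfl⟩
      exact (e' ⟨r, hr⟩ x).2 (Ideal.mul_mem_left P _ hx)
    · exact (h2.mem_or_mem ((e' ⟨x, hx⟩ ⟨y, hy⟩).1 h)).imp (e ⟨x, hx⟩).2 (e ⟨y, hy⟩).2
    · exact h2.ne_top ((Ideal.eq_top_iff_one P).2 ((e 1).1 h))
  obtain ⟨r, hr⟩ := this
  obtain ⟨c, hc⟩ := Ideal.mem_span_range_iff_exists_fun.1 hr
  exact ⟨r, fun l => c l, fun l => (c l).2, by simpa using congrArg Subtype.val hc.symm⟩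

def deg : Pt σ →+ ℤ where
  toFun p := p.1 none + ∑ j, p.2 j
  map_zero' := by simp
  map_add' := fun p q => by simp [Finset.sum_add_distrib, add_add_add_comm]

theorem deg_sh (g : σ ⊕ ι) : deg (sh u g) = 1 := by
  rcases g with j | i <;> simp [deg, sh, hat]

theorem pi_Fl (l : σ) (e : ℤ) (x : Lm k σ) :
    pi deg (e + 1) (Fl u a l * x) = Fl u a l * pi deg e x :=
  pi_mul (Submodule.sum_mem _ fun g _ => Submodule.smul_mem _ _ (ee_mem (deg_sh g))) e x

theorem Geo.reg_piece (hG : Geo u V) (hN : ND u a) (hV : G ⊆ V) (hF : Face u G) {J R : Finset _}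
    (hJ : ∀ l ∉ J, ∀ g ∈ G, nn u g l = 0) (hc : J.card ≤ G.card) {ρ : σ ⊕ ι → ℝ}
    {A B : Set (Pt σ)} (hA : KC u V A) (hB : KC u V B) {d₀ : ℤ} (h0 : ∀ p ∈ A, d₀ ≤ deg p)
    (h1 : ∀ p ∈ A, p ∉ B → ∃ e, Rp u G ρ p e 0 ∧ ∀ g ∈ R, e g ≠ 0)
    (h2 : ∀ p e, Rp u G ρ p e 0 → (∀ g ∈ R, e g ≠ 0) → p ∈ A ∧ p ∉ B) :
    Reg (fun l => LinearMap.mulLeft k (Fl u a l)) J (sp k A) (sp k B) := by
  obtain ⟨ω, hω⟩ := hF
  have ht : ∀ {e}, Cn G e → ∀ g, e g ≠ 0 → zr u g ω = 0 := fun h g hg => hω.eq_zero (h.mem hg)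
  have hCC : ∀ {A}, KC u V A → ∀ z ∈ sp k (CC u G), ∀ x ∈ sp k A, z * x ∈ sp k A :=
    fun hA z hz x hx => mul_mem_sp (by
      rintro c ⟨ζ, hc⟩ p hp
      exact add_comm p c ▸ hA p hp c ⟨_, _, hc.mono hV⟩) hz hx
  have hsh : ∀ g ∈ G, (ee (sh u g) : Lm k σ) ∈ sp k (CC u G) := fun g hg => ee_mem ⟨_, rp_sh hg⟩
  refine reg_of_koszul (gr_pi deg) pi_Fl (fun _ _ => diag_mem _) (fun _ _ => diag_mem _) (pi_low h0)
    (fun l => (hG.closed hA).fx a _ _) (fun l => (hG.closed hB).fx a _ _)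
    (G.toList.map fun g => ee (sh u g)) ?_ ?_ (by simpa using hc)
  · have key : ∀ L : List (σ ⊕ ι), L.Nodup → (∀ g ∈ L, g ∈ G) → ∀ D ⊆ G, (∀ g ∈ L, g ∉ D) →
        Kos.WReg (sp k A).toAddSubgroup (L.map fun g => ee (sh u g))
          (sp k (B ∪ {p | ∃ g ∈ D, ∃ q ∈ A, sh u g + q = p})).toAddSubgroup := by
      intro L
      induction L with
      | nil => exact fun _ _ _ _ _ => trivial
      | cons g L ih =>
        intro hL hLG D hD hLD
        have hg := hLG g List.mem_cons_self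
        refine ⟨fun x hx h => cancel_sp (fun p hp h => ?_) hx h, ?_⟩
        · by_cases hp' : p ∈ B
          · exact Or.inl hp'
          obtain ⟨e, h3, h4⟩ := h1 p hp hp'
          have h5 := h3.add' (rp_sh hg)
          rw [add_zero, add_comm] at h5
          have h6 := (h2 _ _ h5 fun g hg => (ne_zero_add h3.1.1 (cn_single ‹_›).1).2 (Or.inl (h4 g hg))).2
          obtain ⟨g', h7, q, h8, h9⟩ := h.resolve_left h6
          obtain ⟨e', h10, h11⟩ := h1 q h8 fun h => h6 (by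
            rw [← h9, add_comm]; exact hG.closed hB q h g')
          have h12 := (hG.rigid' (h10.mono hV) (rp_sh (hV (hD h7)))
            (by rw [add_comm, h9]; exact h5.mono hV) hω.nonneg (ht h5.1)).1
          have h13 : g ≠ g' := (ne_of_mem_of_not_mem h7 (hLD g List.mem_cons_self)).symm
          have h14 : ∀ g'', (e' - Pi.single g 1 : σ ⊕ ι → ℝ) g'' = if g'' = g then e g else e' g'' := by
            intro g''
            split_ifs with h
            · have := congrFun h12 g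
              simp [h13] at this
              simp [h, ← this]
            · simp [h]
          refine Or.inr ⟨g', h7, q - sh u g, (h2 _ (e' - Pi.single g 1) (⟨⟨fun g'' => ?_,
            fun g'' h => ?_⟩, h10.2.1, ?_⟩) fun g'' h => ?_).1, by
              rw [← add_sub_assoc, h9, add_sub_cancel_left]⟩
          · rw [h14]
            split_ifs
            exacts [h3.1.1 _, h10.1.1 _]
          · rw [h14, if_neg (ne_of_mem_of_not_mem hg h).symm, h10.1.2 _ h]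
          · rw [map_sub, map_sub, rc_sh, sub_add_eq_add_sub, h10.2.2, sub_add_eq_add_sub]
          · rw [h14]
            split_ifs with e
            exacts [h4 _ (e ▸ h), h11 _ h]
        · rw [sp_shift]
          refine (congrArg (fun S => Kos.WReg (sp k A).toAddSubgroup (L.map fun g => ee (sh u g))
            (sp k S).toAddSubgroup) ?_).mpr
            (ih (List.nodup_cons.1 hL).2 (fun g h => hLG g (List.mem_cons_of_mem _ h))
            (insert g D) (Finset.insert_subset hg hD) fun g' h => by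
              simp [hLD g' (List.mem_cons_of_mem _ h),
                ne_of_mem_of_not_mem h (List.nodup_cons.1 hL).1])
          ext p
          simp only [Set.mem_union, Set.mem_ofPred_eq, Set.mem_image, Finset.mem_insert,
            exists_eq_or_imp, or_assoc, or_comm]
    simpa using key G.toList G.nodup_toList (by simp) ∅ (by simp) (by simp)
  · intro t ht'
    obtain ⟨g, hg, rfl⟩ := List.mem_map.1 ht'
    rw [Finset.mem_toList] at hg
    obtain ⟨r, s, h3, h4⟩ := hG.radical hN hV ⟨ω, hω⟩ hg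
    refine ⟨hCC hA _ (hsh g hg), hCC hB _ (hsh g hg), r, s, fun l => hCC hA _ (h3 l),
      fun l => hCC hB _ (h3 l), fun x hx => ?_⟩
    rw [h4, ← Finset.sum_subset (Finset.subset_univ J) fun l _ hl => ?_, ← Finset.sum_sub_distrib,
      Finset.sum_mul]
    · refine sum_mem fun l _ => ?_
      rw [← mul_sub, mul_assoc, Fl_eq, FS, FS, ← Finset.sum_sdiff (Finset.subset_univ (TG u G)),
        sub_add_cancel_right, neg_mul, Finset.sum_mul]
      refine hCC hB _ (h3 l) _ (neg_mem (sum_mem fun g' hg' => ?_))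
      rw [smul_mul_assoc]
      refine Submodule.smul_mem _ _ (mul_mem_sp (C := {sh u g'}) ?_ (ee_mem rfl) hx)
      rintro _ rfl p hp
      rw [add_comm]
      by_cases hp' : p ∈ B
      · exact hG.closed hB p hp' g'
      by_contra h5
      obtain ⟨e, h6, -⟩ := h1 p hp hp'
      obtain ⟨e', h7, -⟩ := h1 _ (hG.closed hA p hp g') h5
      obtain ⟨κ, ν, h8⟩ := hG.sh_mem g'
      obtain ⟨h9, -, rfl⟩ := hG.rigid' (h6.mono hV) h8 (h7.mono hV) hω.nonneg (ht h7.1)
      refine (Finset.mem_sdiff.1 hg').2 (mem_TG'.2 ⟨κ, ⟨h8.1.1, fun g hg => ?_⟩, h8.2⟩)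
      by_contra h
      exact hg (h7.1.mem (h9 ▸ (ne_zero_add h6.1.1 h8.1.1).2 (Or.inr h)))
    · rw [FS, Finset.sum_eq_zero fun g' hg' => ?_, mul_zero]
      obtain ⟨κ, h5, h6⟩ := mem_TG.1 hg'
      have := congrArg (tt l) h6
      rw [tt_WW, tt_WW, Finset.sum_eq_zero (f := fun g => κ g * _) fun g _ => by
        by_cases h : κ g = 0
        · simp [h]
        · simp [hJ l hl g (h5.mem h)]] at this
      simp [show nn u g' l = 0 by simpa [Pi.single_apply] using this]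

end RA

end

end Pool.Agent.P.MP_b91a16_ag
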