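import Pool.Agent.P.MP_b91a16_ag.Koszul

/-! Regular sequences of commuting operators on subquotients, and their filtered deformations. -/

set_option linter.unusedSectionVars false

namespace Pool.Agent.P.MP_b91a16_ag

noncomputable section

namespace RA

variable {k M σ : Type} [CommRing k] [AddCommGroup M] [Module k M] [DecidableEq σ]

def Im (F : σ → Module.End k M) (I : Finset σ) (A : σ → Submodule k M) : Submodule k M :=
  I.sup fun l => (A l).map (F l)

def Stab (F : σ → Module.End k M) (A : Submodule k M) : Prop := ∀ l, ∀ x ∈ A, F l x ∈ A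

def Reg (F : σ → Module.End k M) (J : Finset σ) (A B : Submodule k M) : Prop :=
  ∀ I ⊆ J, ∀ a ∈ J, a ∉ I → ∀ x ∈ A, F a x ∈ Im F I (fun _ => A) ⊔ B → x ∈ Im F I (fun _ => A) ⊔ B

variable {F Δ : σ → Module.End k M} {I J : Finset σ} {A B A' : Submodule k M}

theorem Im_empty (A : σ → Submodule k M) : Im F ∅ A = ⊥ := Finset.sup_empty

theorem Im_insert (a : σ) (A : σ → Submodule k M) :
    Im F (insert a I) A = (A a).map (F a) ⊔ Im F I A := Finset.sup_insert

theorem Im_le {A : σ → Submodule k M} {N : Submodule k M} :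
    Im F I A ≤ N ↔ ∀ l ∈ I, ∀ x ∈ A l, F l x ∈ N := by
  simp only [Im, Finset.sup_le_iff, Submodule.map_le_iff_le_comap]
  rfl

theorem mem_Im {A : σ → Submodule k M} {l : σ} (hl : l ∈ I) {x : M} (hx : x ∈ A l) :
    F l x ∈ Im F I A := Im_le.1 le_rfl l hl x hx

theorem Im_mono {A A' : σ → Submodule k M} (h : ∀ l ∈ I, A l ≤ A' l) : Im F I A ≤ Im F I A' :=
  Im_le.2 fun l hl _ hx => mem_Im hl (h l hl hx)

theorem map_Im {A : σ → Submodule k M} {N : Submodule k M} (φ : Module.End k M)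
    (h : ∀ l ∈ I, ∀ x ∈ A l, φ (F l x) ∈ N) {x : M} (hx : x ∈ Im F I A) : φ x ∈ N :=
  (Im_le (N := N.comap φ)).2 h hx

theorem map_sup {A B N : Submodule k M} (φ : Module.End k M) (hA : ∀ x ∈ A, φ x ∈ N)
    (hB : ∀ x ∈ B, φ x ∈ N) {x : M} (hx : x ∈ A ⊔ B) : φ x ∈ N :=
  (sup_le (c := N.comap φ) hA hB) hx

theorem Stab.im (hc : ∀ l l', Commute (F l) (F l')) {A : σ → Submodule k M}
    (h : ∀ l, Stab F (A l)) : Stab F (Im F I A) := fun l _ hx =>
  map_Im (F l) (fun l' hl' x hx => by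
    rw [← Module.End.mul_apply, (hc l l').eq]
    exact mem_Im hl' (h l' l x hx)) hx

theorem Stab.sup (h : Stab F A) (h' : Stab F B) : Stab F (A ⊔ B) := fun l _ hx =>
  map_sup (F l) (fun x hx => Submodule.mem_sup_left (h l x hx))
    (fun x hx => Submodule.mem_sup_right (h' l x hx)) hx

theorem Stab.im_le (h : Stab F A) : Im F I (fun _ => A) ≤ A := Im_le.2 fun l _ => h l

theorem Reg.inter (hc : ∀ l l', Commute (F l) (F l')) (hA : Stab F A) (hA' : Stab F A')
    (h : Reg F J A A') (hI : I ⊆ J) {x : M} (hx : x ∈ Im F I fun _ => A) (hx' : x ∈ A') :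
    x ∈ Im F I fun _ => A' := by
  induction I using Finset.induction_on generalizing x with
  | empty => exact hx
  | insert a I ha ih =>
    rw [Im_insert] at hx ⊢
    obtain ⟨_, ⟨m, hm, rfl⟩, y, hy, rfl⟩ := Submodule.mem_sup.1 hx
    have hI' := (Finset.subset_insert a I).trans hI
    obtain ⟨z, hz, m', hm', rfl⟩ := Submodule.mem_sup.1 (h I hI' a (hI (Finset.mem_insert_self _ _))
      ha m hm (Submodule.mem_sup.2 ⟨-y, neg_mem hy, _, hx', by abel⟩))
    refine Submodule.mem_sup.2 ⟨_, ⟨m', hm', rfl⟩, F a z + y, ih hI'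
      (add_mem (Stab.im hc (fun _ => hA) a z hz) hy) ?_, by rw [map_add]; abel⟩
    have := sub_mem hx' (hA' a m' hm')
    convert this using 1
    rw [map_add]
    abel

theorem Reg.trans (hc : ∀ l l', Commute (F l) (F l')) (hA : Stab F A) (hA' : Stab F A')
    (hB : B ≤ A') (hle : A' ≤ A) (h : Reg F J A A') (h' : Reg F J A' B) : Reg F J A B := by
  intro I hI a ha haI x hx h1
  obtain ⟨y, hy, x', hx', rfl⟩ := Submodule.mem_sup.1
    (h I hI a ha haI x hx (sup_le_sup_left hB _ h1))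
  obtain ⟨z, hz, b, hb, e⟩ := Submodule.mem_sup.1 h1
  have h2 : z - F a y ∈ Im F I fun _ => A' :=
    h.inter hc hA hA' hI (sub_mem hz (Stab.im hc (fun _ => hA) a y hy)) (by
      have := sub_mem (hA' a x' hx') (hB hb)
      convert this using 1
      rw [map_add] at e
      rw [sub_eq_sub_iff_add_eq_add, e, add_comm])
  refine add_mem (Submodule.mem_sup_left hy) (sup_le_sup_right (Im_mono fun _ _ => hle) _
    (h' I hI a ha haI x' hx' (Submodule.mem_sup.2 ⟨_, h2, b, hb, ?_⟩)))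
  rw [map_add] at e
  rw [sub_add_eq_add_sub, e, add_sub_cancel_left]

theorem reg_self : Reg F J A A := fun _ _ _ _ _ _ hx _ => Submodule.mem_sup_right hx

/-- A family of orthogonal projections that decomposes every vector. -/
structure Gr (π : ℤ → Module.End k M) : Prop where
  orth : ∀ e e' x, π e (π e' x) = if e = e' then π e x else 0
  fin : ∀ x, ∃ s : Finset ℤ, ∀ s', s ⊆ s' → ∑ e ∈ s', π e x = x

def Fil (π : ℤ → Module.End k M) (d : ℤ) : Submodule k M :=
  ⨅ e, ⨅ (_ : d < e), LinearMap.ker (π e)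

variable {π : ℤ → Module.End k M}

theorem mem_Fil {d : ℤ} {x : M} : x ∈ Fil π d ↔ ∀ e, d < e → π e x = 0 := by simp [Fil]

theorem Fil_mono {d d' : ℤ} (h : d ≤ d') : Fil π d ≤ Fil π d' := fun _ hx =>
  mem_Fil.2 fun e he => mem_Fil.1 hx e (by omega)

theorem Gr.sub_mem (hG : Gr π) {d : ℤ} {x : M} (hx : x ∈ Fil π (d + 1)) :
    x - π (d + 1) x ∈ Fil π d := mem_Fil.2 fun e he => by
  rw [map_sub, hG.orth]
  split_ifs with h
  · exact sub_self _
  · rw [mem_Fil.1 hx e (by omega), sub_zero]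

theorem Gr.proj_mem (hG : Gr π) (d : ℤ) (x : M) : π d x ∈ Fil π d := mem_Fil.2 fun e he => by
  rw [hG.orth, if_neg he.ne']

theorem Gr.exists_fil (hG : Gr π) (x : M) (d₀ : ℤ) : ∃ d, d₀ ≤ d ∧ x ∈ Fil π d := by
  obtain ⟨s, hs⟩ := hG.fin x
  obtain ⟨d, hd⟩ := (insert d₀ s).exists_le
  refine ⟨d, hd _ (Finset.mem_insert_self _ _), mem_Fil.2 fun e he => ?_⟩
  rw [← hs s subset_rfl, map_sum]
  refine Finset.sum_eq_zero fun e' he' => ?_
  rw [hG.orth, if_neg]
  have := hd e' (Finset.mem_insert_of_mem he')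
  omega

/-- `Δ` is a filtered deformation of the homogeneous operators `F`. -/
structure Def (π : ℤ → Module.End k M) (F Δ : σ → Module.End k M) (A B : Submodule k M) :
    Prop where
  gr : Gr π
  hF : ∀ l e x, π (e + 1) (F l x) = F l (π e x)
  hD : ∀ l e x, π e (Δ l x - F l x) = Δ l (π e x) - F l (π e x)
  comm : ∀ l l', Commute (Δ l) (Δ l')
  pA : ∀ e, ∀ x ∈ A, π e x ∈ A
  pB : ∀ e, ∀ x ∈ B, π e x ∈ B
  sA : Stab Δ A
  sB : Stab Δ B
  le : B ≤ A

theorem Def.top (h : Def π F Δ A B) (l : σ) {d : ℤ} {x : M} (hx : x ∈ Fil π d) :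
    π (d + 1) (Δ l x) = F l (π d x) := by
  have := h.hD l (d + 1) x
  rw [map_sub, mem_Fil.1 hx (d + 1) (by omega), h.hF] at this
  simpa [sub_eq_zero] using this

theorem Def.fil (h : Def π F Δ A B) (l : σ) {d : ℤ} {x : M} (hx : x ∈ Fil π d) :
    Δ l x ∈ Fil π (d + 1) := mem_Fil.2 fun e he => by
  have := h.hD l e x
  obtain ⟨e, rfl⟩ : ∃ e', e = e' + 1 := ⟨e - 1, by ring⟩
  rw [map_sub, mem_Fil.1 hx (e + 1) (by omega), h.hF, mem_Fil.1 hx e (by omega)] at this
  simpa using this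

theorem Def.proj (h : Def π F Δ A B) {d : ℤ} {x : M}
    (hx : x ∈ Im Δ I (fun _ => A ⊓ Fil π d) ⊔ B) : π (d + 1) x ∈ Im F I (fun _ => A) ⊔ B :=
  map_sup (π (d + 1)) (fun _ hx => map_Im _ (fun l hl x hx => by
    rw [h.top l hx.2]
    exact Submodule.mem_sup_left (mem_Im hl (h.pA _ _ hx.1))) hx)
    (fun x hx => Submodule.mem_sup_right (h.pB _ x hx)) hx

theorem Def.lift (h : Def π F Δ A B) {d : ℤ} {x : M} (hx : x ∈ Im F I (fun _ => A) ⊔ B) :
    ∃ w ∈ Im Δ I (fun _ => A) ⊔ B, π (d + 1) x - w ∈ Fil π d := by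
  let N : Submodule k M := ((Im Δ I (fun _ => A) ⊔ B) ⊔ Fil π d).comap (π (d + 1))
  have : Im F I (fun _ => A) ⊔ B ≤ N := by
    refine sup_le (Im_le.2 fun l hl x hx => ?_) fun x hx =>
      Submodule.mem_sup_left (Submodule.mem_sup_right (h.pB _ x hx))
    refine Submodule.mem_sup.2 ⟨Δ l (π d x), Submodule.mem_sup_left (mem_Im hl (h.pA _ _ hx)),
      -(Δ l (π d x) - F l (π d x)), neg_mem ?_, by rw [h.hF]; abel⟩
    rw [← h.hD]
    exact h.gr.proj_mem _ _
  obtain ⟨w, hw, y, hy, e⟩ := Submodule.mem_sup.1 (this hx)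
  exact ⟨w, hw, by rwa [← e, add_sub_cancel_left]⟩

theorem Def.step (h : Def π F Δ A B) (hR : Reg F J A B) (hI : I ⊆ J) {a : σ} (ha : a ∈ J)
    (haI : a ∉ I) {d : ℤ} {m : M} (hm : m ∈ A) (hm' : m ∈ Fil π (d + 1))
    (h1 : F a (π (d + 1) m) ∈ Im F I (fun _ => A) ⊔ B) :
    ∃ w ∈ Im Δ I (fun _ => A) ⊔ B, m - w ∈ A ∧ m - w ∈ Fil π d := by
  obtain ⟨w, hw, h2⟩ := h.lift (d := d) (hR I hI a ha haI _ (h.pA _ _ hm) h1)
  rw [h.gr.orth, if_pos rfl] at h2
  refine ⟨w, hw, sub_mem hm (sup_le h.sA.im_le h.le hw), ?_⟩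
  simpa using add_mem (h.gr.sub_mem hm') h2

theorem Def.strict (h : Def π F Δ A B) (hR : Reg F J A B) (hI : I ⊆ J) {e : ℤ} {x : M}
    (hx : x ∈ Im Δ I (fun _ => A) ⊔ B) (hx' : x ∈ Fil π (e + 1)) :
    x ∈ Im Δ I (fun _ => A ⊓ Fil π e) ⊔ B := by
  induction I using Finset.induction_on generalizing x e with
  | empty => exact hx
  | insert a I ha ih =>
    have hI' := (Finset.subset_insert a I).trans hI
    have hS : Stab Δ (Im Δ I (fun _ => A) ⊔ B) := (Stab.im h.comm fun _ => h.sA).sup h.sB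
    rw [Im_insert, sup_assoc] at hx ⊢
    obtain ⟨_, ⟨m, hm, rfl⟩, y, hy, e1⟩ := Submodule.mem_sup.1 hx
    obtain ⟨d, hd, hm'⟩ := h.gr.exists_fil m e
    have key : ∀ d, e ≤ d → ∀ m ∈ A, m ∈ Fil π d → x - Δ a m ∈ Im Δ I (fun _ => A) ⊔ B →
        ∃ m ∈ A, m ∈ Fil π e ∧ x - Δ a m ∈ Im Δ I (fun _ => A) ⊔ B := by
      intro d hd
      induction d, hd using Int.leInduction with
      | base => exact fun m h1 h2 h3 => ⟨m, h1, h2, h3⟩
      | succ d hd ih' =>
        intro m h1 h2 h3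
        have h4 := h.proj (ih hI' (e := d + 1) h3
          (sub_mem (Fil_mono (by omega) hx') (h.fil a h2)))
        rw [map_sub, mem_Fil.1 hx' _ (by omega), h.top a h2, zero_sub, neg_mem_iff] at h4
        obtain ⟨w, hw, h5, h6⟩ := h.step hR hI' (hI (Finset.mem_insert_self _ _)) ha h1 h2 h4
        refine ih' _ h5 h6 ?_
        have := add_mem h3 (hS a w hw)
        convert this using 1
        rw [map_sub]
        abel
    obtain ⟨m, h1, h2, h3⟩ := key d hd m hm hm' (by rwa [← e1, add_sub_cancel_left])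
    exact Submodule.mem_sup.2 ⟨_, ⟨m, ⟨h1, h2⟩, rfl⟩, _,
      ih hI' h3 (sub_mem hx' (h.fil a h2)), by abel⟩

theorem Def.reg (h : Def π F Δ A B) (hR : Reg F J A B) {d₀ : ℤ}
    (h0 : ∀ e < d₀, ∀ x ∈ A, π e x = 0) : Reg Δ J A B := by
  intro I hI a ha haI x hx h1
  have hS : Stab Δ (Im Δ I (fun _ => A) ⊔ B) := (Stab.im h.comm fun _ => h.sA).sup h.sB
  obtain ⟨d, hd, hx'⟩ := h.gr.exists_fil x (d₀ - 1)
  induction d, hd using Int.leInduction generalizing x with
  | base =>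
    obtain ⟨s, hs⟩ := h.gr.fin x
    rw [← hs s subset_rfl, Finset.sum_eq_zero fun e _ => ?_]
    · exact zero_mem _
    · by_cases he : e < d₀
      · exact h0 e he x hx
      · exact mem_Fil.1 hx' e (by omega)
  | succ d hd ih =>
    have h4 := h.proj (h.strict hR hI h1 (h.fil a hx'))
    rw [h.top a hx'] at h4
    obtain ⟨w, hw, h5, h6⟩ := h.step hR hI ha haI hx hx' h4
    simpa using add_mem (ih _ h5 (by rw [map_sub]; exact sub_mem h1 (hS a w hw)) h6) hw

theorem Def.gr_mem (h : Def π F Δ A B) (hR : Reg F J A B) {e : ℤ} {x : M}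
    (hx : x ∈ Im Δ J (fun _ => A) ⊔ B) (hx' : π e x = x) : x ∈ Im F J (fun _ => A) ⊔ B := by
  obtain ⟨e, rfl⟩ : ∃ e', e = e' + 1 := ⟨e - 1, by ring⟩
  rw [← hx']
  exact h.proj (h.strict hR subset_rfl hx (hx' ▸ h.gr.proj_mem _ _))

/-- The data of the passage from logarithmic forms to ordinary forms along the walls `S₀`. -/
structure Walls (F : σ → Module.End k M) (J S₀ : Finset σ) (Ab Bs : Finset σ → Submodule k M) :
    Prop where
  comm : ∀ l l', Commute (F l) (F l')
  le : ∀ T, Ab T ≤ Ab ∅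
  up : ∀ T ⊆ S₀, ∀ l, ∀ x ∈ Ab (T.erase l), F l x ∈ Ab T
  sB : ∀ S, Stab F (Bs S)
  mono : ∀ S j, Bs S ≤ Bs (insert j S)
  wall : ∀ S, ∀ j ∈ S, Ab {j} ≤ Bs S
  anti : ∀ T T', T ⊆ T' → Ab T' ≤ Ab T
  cut : ∀ S T j, Ab T ⊓ Bs (insert j S) ≤ Ab (insert j T) ⊔ Bs S
  reg : ∀ S ⊆ S₀, Reg F (J \ S) (Ab ∅) (Bs S)

theorem Walls.main {S₀ : Finset σ} {Ab Bs : Finset σ → Submodule k M} (h : Walls F J S₀ Ab Bs)
    (n : ℕ) : ∀ S ⊆ S₀, ∀ T ⊆ S₀, T.card ≤ n → ∀ I ⊆ J \ S, ∀ x ∈ Ab T ⊔ Bs S,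
      x ∈ Im F I (fun _ => Ab ∅) ⊔ Bs S → x ∈ Im F I (fun l => Ab (T.erase l)) ⊔ Bs S := by
  induction n with
  | zero =>
    intro S _ T _ hT I _ x _ hx
    obtain rfl := Finset.card_eq_zero.1 (Nat.le_zero.1 hT)
    simpa using hx
  | succ n ih =>
    have syz : ∀ S ⊆ S₀, ∀ T ⊆ S₀, T.card ≤ n → ∀ I ⊆ J \ S,
        ∀ x ∈ Im F I fun l => Ab (T.erase l), x ∈ Bs S →
          x ∈ Im F I fun l => Ab (T.erase l) ⊓ Bs S := by
      intro S hS T hT hn I hI
      induction I using Finset.induction_on with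
      | empty => exact fun x hx _ => hx
      | insert a I ha ih' =>
        intro x hx hx'
        have hI' := (Finset.subset_insert a I).trans hI
        rw [Im_insert] at hx ⊢
        obtain ⟨_, ⟨m, hm, rfl⟩, y, hy, rfl⟩ := Submodule.mem_sup.1 hx
        have h1 := h.reg S hS I hI' a (hI (Finset.mem_insert_self _ _)) ha m (h.le _ hm)
          (Submodule.mem_sup.2 ⟨-y, neg_mem (Im_mono (fun _ _ => h.le _) hy), _, hx', by abel⟩)
        have hT' := (Finset.erase_subset a T).trans hT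
        obtain ⟨z, hz, b, hb, rfl⟩ := Submodule.mem_sup.1 (ih S hS (T.erase a) hT'
          ((Finset.card_erase_le).trans hn) I hI' m (Submodule.mem_sup_left hm) h1)
        have h2 : z ∈ Ab (T.erase a) := Im_le.2 (fun l _ => h.up _ hT' l) hz
        have h3 : F a z ∈ Im F I fun l => Ab (T.erase l) := map_Im (F a) (fun l hl x hx => by
          rw [← Module.End.mul_apply, (h.comm a l).eq]
          refine mem_Im hl (h.up _ ((Finset.erase_subset l T).trans hT) a x ?_)
          rwa [Finset.erase_right_comm]) hz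
        refine Submodule.mem_sup.2 ⟨_, ⟨b, ⟨by simpa using sub_mem hm h2, hb⟩, rfl⟩, F a z + y,
          ih' hI' _ (add_mem h3 hy) ?_, by rw [map_add]; abel⟩
        have := sub_mem hx' (h.sB S a b hb)
        convert this using 1
        rw [map_add]
        abel
    intro S hS T hT hn I hI x hx hx'
    rcases T.eq_empty_or_nonempty with rfl | ⟨j, hj⟩
    · simpa using hx'
    have hT' := (Finset.erase_subset j T).trans hT
    have hn' : (T.erase j).card ≤ n := by rw [Finset.card_erase_of_mem hj]; omega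
    obtain ⟨z, hz, b, hb, rfl⟩ := Submodule.mem_sup.1 (ih S hS (T.erase j) hT' hn' I hI x
      (sup_le_sup_right (h.anti _ _ (Finset.erase_subset j T)) _ hx) hx')
    have hjS : Ab {j} ≤ Bs (insert j S) := h.wall _ j (Finset.mem_insert_self _ _)
    obtain ⟨m, hm, y, hy, rfl⟩ : ∃ m ∈ (if j ∈ I then (Ab (T.erase j)).map (F j) else ⊥),
        ∃ y ∈ Im F (I.erase j) fun l => Ab ((T.erase j).erase l), m + y = z := by
      split_ifs with hjI
      · rw [← Finset.insert_erase hjI, Im_insert, Finset.erase_idem] at hz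
        exact Submodule.mem_sup.1 hz
      · exact ⟨0, zero_mem _, z, by rwa [Finset.erase_eq_of_notMem hjI], zero_add _⟩
    have hm1 : m ∈ Bs (insert j S) ∧ m ∈ Im F I fun l => Ab (T.erase l) := by
      split_ifs at hm with hjI
      · obtain ⟨m, hm, rfl⟩ := hm
        exact ⟨hjS (h.up {j} (by simpa using hT hj) j m (by simpa using h.le _ hm)), mem_Im hjI hm⟩
      · rw [(Submodule.mem_bot k).1 hm]
        exact ⟨zero_mem _, zero_mem _⟩
    have h1 : y ∈ Bs (insert j S) := by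
      have := sub_mem (sub_mem (sup_le ((h.anti _ _ (by simpa using hj)).trans hjS) (h.mono S j) hx)
        hm1.1) (h.mono S j hb)
      convert this using 1
      abel
    have h2 := syz (insert j S) (Finset.insert_subset (hT hj) hS) (T.erase j) hT' hn' (I.erase j)
      (fun l hl => by
        have := Finset.mem_sdiff.1 (hI (Finset.mem_of_mem_erase hl))
        simp [this, Finset.ne_of_mem_erase hl]) y hy h1
    refine add_mem (add_mem (Submodule.mem_sup_left hm1.2) (Im_le.2 (fun l hl x hx => ?_) h2))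
      (Submodule.mem_sup_right hb)
    refine map_sup (F l) (fun x hx => Submodule.mem_sup_left (mem_Im (Finset.mem_of_mem_erase hl) ?_))
      (fun x hx => Submodule.mem_sup_right (h.sB S l x hx)) (h.cut S _ j hx)
    rwa [Finset.erase_right_comm, Finset.insert_erase
      (Finset.mem_erase.2 ⟨(Finset.ne_of_mem_erase hl).symm, hj⟩)] at hx

theorem reg_of_koszul {Λ : Type} [CommRing Λ] [Algebra k Λ] {F : σ → Λ} {A B : Submodule k Λ}
    {π : ℤ → Module.End k Λ} {d₀ : ℤ} (hG : Gr π) (hF : ∀ l e x, π (e + 1) (F l * x) = F l * π e x)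
    (pA : ∀ e, ∀ x ∈ A, π e x ∈ A) (pB : ∀ e, ∀ x ∈ B, π e x ∈ B)
    (h0 : ∀ e < d₀, ∀ x ∈ A, π e x = 0) (hA : ∀ l, ∀ x ∈ A, F l * x ∈ A)
    (hB : ∀ l, ∀ x ∈ B, F l * x ∈ B) (ts : List Λ)
    (hw : Kos.WReg A.toAddSubgroup ts B.toAddSubgroup)
    (hn : ∀ t ∈ ts, Kos.Nil F J A.toAddSubgroup B.toAddSubgroup t) (hl : J.card ≤ ts.length) :
    Reg (fun l => LinearMap.mulLeft k (F l)) J A B := by
  intro I hI a ha haI x hx h1
  have e : ∀ L : List σ, Kos.Sm F A.toAddSubgroup L =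
      (Im (fun l => LinearMap.mulLeft k (F l)) L.toFinset fun _ => A).toAddSubgroup := by
    intro L
    induction L with
    | nil => rfl
    | cons a L ih =>
      rw [List.toFinset_cons, Im_insert, Kos.Sm, ih, Submodule.sup_toAddSubgroup]
      rfl
  have e2 : ((J \ insert a I).toList ++ a :: I.toList).toFinset = J := by
    simp only [List.toFinset_append, Finset.toList_toFinset, List.toFinset_cons]
    exact Finset.sdiff_union_of_subset (Finset.insert_subset ha hI)
  have := Kos.regular (F := F) (A := A.toAddSubgroup) (B := B.toAddSubgroup) (a := a)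
    (L := I.toList) (π := fun e => (π e).toAddMonoidHom) (d₀ := d₀) ⟨hF, pA, pB, h0, hG.fin⟩ hA hB
    (J \ insert a I).toList ts hw (by rwa [e2]) (by
      have := Finset.card_sdiff_add_card_eq_card (Finset.insert_subset ha hI)
      rw [Finset.card_insert_of_notMem haI] at this
      simp only [List.length_append, Finset.length_toList, List.length_cons]
      omega) hx (by rwa [e, Finset.toList_toFinset, ← Submodule.sup_toAddSubgroup])
  rwa [e, Finset.toList_toFinset, ← Submodule.sup_toAddSubgroup] at this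

end RA

end

end Pool.Agent.P.MP_b91a16_ag
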