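import Pool.Agent.P.MP_b91a16_ag.Eval

/-! The candidate poles that survive are roots of every Bernstein-Sato polynomial. -/

set_option linter.unusedSectionVars false

open MvPolynomial

namespace Pool.Agent.P.MP_b91a16_ag

noncomputable section

variable {k : Type} [Field k] [CharZero k]
variable {σ ι : Type} [Fintype σ] [DecidableEq σ] [Fintype ι] [DecidableEq ι]
variable {u : ι → σ → ℕ}

theorem prod_X_eq {G : Type} [Fintype G] [DecidableEq G] (Y : Finset G) :
    (∏ g ∈ Y, X g : MvPolynomial G k) =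
      monomial (Finsupp.equivFunOnFinite.symm fun g => if g ∈ Y then 1 else 0) 1 := by
  rw [monomial_eq, C_1, one_mul, Finsupp.prod_fintype _ _ fun _ => pow_zero _]
  simp

theorem notMem_AA {Z Bs Zf : Finset (σ ⊕ ι)} {a b : Bs → σ} {Im : Finset ι}
    (hP : Pairs u Z Bs a b) (hF : Face u Z) (h1 : Bs ⊆ Zf) (h2 : Zf ⊆ Z) (hB : Bdd u Zf)
    (h3 : ∀ g, bst Z Bs g =
      (if g ∈ Zf then 1 else 0) + if g ∈ Im.map Function.Embedding.inr then 1 else 0) :
    ∏ i ∈ Im, X i ∉ AA k u fun Y => ¬Face u (Zf ∪ Y) := by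
  obtain ⟨η, hη, hη', hface⟩ := hB.exists_eta
  obtain ⟨ε, ⟨h4, h5⟩, hε⟩ := (((Ji_ne_zero hP (hB.mono h2) hF).and
    (eventually_mul_lt 2 hη)).and self_mem_nhdsWithin).exists
  replace hε : 0 < ε := hε
  obtain ⟨π, hπ⟩ := Module.Projective.exists_dual_eq_one ℚ (one_ne_zero (α := k))
  let J : (σ ⊕ ι →₀ ℕ) → ℝ := fun β => Ji u Bs ε fun g => (if g ∈ Zf then 1 else 0) + β g
  let Ξ : MvPolynomial (σ ⊕ ι) k →+ ℝ := (Finsupp.liftAddHom fun β =>
    (AddMonoidHom.mulRight (J β)).comp ((Rat.castHom ℝ).toAddMonoidHom.comp π.toAddMonoidHom)).comp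
    (basisMonomials (σ ⊕ ι) k).repr.toLinearMap.toAddMonoidHom
  have hΞ : ∀ β c, Ξ (monomial β c) = π c * J β := by
    intro β c
    have : (basisMonomials (σ ⊕ ι) k).repr (monomial β c) = Finsupp.single β c := rfl
    simp [Ξ, this]
  let T : Ideal (MvPolynomial (σ ⊕ ι) k) :=
    { carrier := {p | ∀ q, Ξ (q * p) = 0}
      zero_mem' := fun q => by simp
      add_mem' := fun hp hp' q => by rw [mul_add, map_add, hp q, hp' q, add_zero]
      smul_mem' := fun c p hp q => by rw [smul_eq_mul, ← mul_assoc]; exact hp _ }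
  have hT : ∀ p, (∀ β c, Ξ (monomial β c * p) = 0) → p ∈ T := by
    intro p hp q
    induction q using MvPolynomial.induction_on' with
    | monomial β c => exact hp β c
    | add q q' h h' => rw [add_mul, map_add, h, h', add_zero]
  have hL : ∀ j, ∑ g, (nn u g j : MvPolynomial (σ ⊕ ι) k) * X g ∈ T := fun j => hT _ fun β c => by
    have := Ji_rel hε (by linarith) (β := fun g => (if g ∈ Zf then 1 else 0) + β g)
      (fun g hg => by simp [hg]) h1 hB j
    rw [Finset.mul_sum, map_sum, ← mul_zero (π c : ℝ), ← this, Finset.mul_sum]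
    refine Finset.sum_congr rfl fun g _ => ?_
    rw [mul_left_comm, ← nsmul_eq_mul, map_nsmul, X, monomial_mul, mul_one, hΞ, nsmul_eq_mul,
      mul_left_comm]
    simp only [J]
    congr 3
    ext g'
    simp [Finsupp.single_apply, Pi.single_apply, add_assoc, eq_comm]
  have hN : ∀ Y, ¬Face u (Zf ∪ Y) → ∏ g ∈ Y, X g ∈ T := fun Y hY => hT _ fun β c => by
    rw [prod_X_eq, monomial_mul, hΞ]
    refine mul_eq_zero_of_right _ (MeasureTheory.integral_eq_zero_of_ae
      (Filter.Eventually.of_forall fun p => ?_))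
    by_contra h
    refine hY (hface Y p.2 ((Fi_support hε (fun g hg => ?_)
      (h1.trans Finset.subset_union_left) h).2.mono (by linarith) subset_rfl))
    rcases Finset.mem_union.1 hg with hg | hg <;> simp [hg]
  intro hmem
  have h6 : AA k u (fun Y => ¬Face u (Zf ∪ Y)) ≤ T.comap (rename Sum.inr) := by
    refine Ideal.span_le.2 ?_
    rintro _ ⟨Y, hY, rfl⟩
    have e : ∀ g, Ideal.Quotient.mk T (rename Sum.inr (yy k u g)) =
        Sum.elim (fun _ => -1) (fun _ => 1) g * Ideal.Quotient.mk T (X g) := by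
      rintro (j | i)
      · have := Ideal.Quotient.eq_zero_iff_mem.2 (hL j)
        simp only [Fintype.sum_sum_type, nn, Sum.elim_inl, Sum.elim_inr, Nat.cast_ite, Nat.cast_one,
          Nat.cast_zero, ite_mul, one_mul, zero_mul, Finset.sum_ite_eq, Finset.mem_univ, if_true,
          map_add] at this
        simp only [yy, Sum.elim_inl, map_sum (rename _), map_mul (rename _), map_natCast, rename_X]
        linear_combination this
      · simp [yy]
    rw [SetLike.mem_coe, Ideal.mem_comap, ← Ideal.Quotient.eq_zero_iff_mem, map_prod, map_prod,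
      Finset.prod_congr rfl fun g _ => e g, Finset.prod_mul_distrib, ← map_prod,
      Ideal.Quotient.eq_zero_iff_mem.2 (hN Y hY), mul_zero]
  have h7 : Ξ (1 * rename Sum.inr (∏ i ∈ Im, X i : MvPolynomial ι k)) = 0 := h6 hmem 1
  have h8 : rename Sum.inr (∏ i ∈ Im, X i : MvPolynomial ι k) =
      ∏ g ∈ Im.map (Function.Embedding.inr (α := σ)), X g := by
    simp
  rw [one_mul, h8, prod_X_eq, hΞ, hπ, Rat.cast_one, one_mul] at h7
  exact h4 (by rw [funext h3]; exact h7)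

theorem exists_lam {Z : Finset (σ ⊕ ι)} {w₀ : σ → ℕ} {N₀ : ℕ} (h0 : InC u Z w₀ N₀)
    (h1 : ∀ g, g ∉ Z → 0 < zl u w₀ N₀ g) (hN : 0 < N₀)
    (h2 : ∀ w N, InC u Z w N → (∑ j, w j) * N₀ = (∑ j, w₀ j) * N) :
    ∃ lam : ι → ℚ, (∀ i, Sum.inr i ∉ Z → lam i = 0) ∧
      (∀ j, Sum.inl j ∉ Z → ∑ i, lam i * u i j = 1) ∧
      ∑ i, lam i = ((∑ j, w₀ j : ℕ) : ℚ) / N₀ := by
  let zq : σ ⊕ ι → ((σ → ℚ) × ℚ) →ₗ[ℚ] ℚ := fun g =>
    (∑ j, (nn u g j : ℚ) • LinearMap.proj j) ∘ₗ LinearMap.fst ℚ (σ → ℚ) ℚ -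
      Sum.elim (fun _ => (0 : ℚ)) (fun _ => 1) g • LinearMap.snd ℚ (σ → ℚ) ℚ
  have hzq : ∀ g x, zq g x = ∑ j, nn u g j * x.1 j -
      Sum.elim (fun _ => (0 : ℚ)) (fun _ => 1) g * x.2 := fun g x => by simp [zq]
  have hzl : ∀ (w : σ → ℕ) (N : ℕ) g, (zl u w N g : ℚ) = zq g (fun j => w j, N) := by
    rintro w N (j | i) <;> simp [hzq, zl, nn, mul_comm]
  let K : ((σ → ℚ) × ℚ) →ₗ[ℚ] ℚ :=
    (N₀ : ℚ) • (∑ j, LinearMap.proj j) ∘ₗ LinearMap.fst ℚ (σ → ℚ) ℚ -
      ((∑ j, w₀ j : ℕ) : ℚ) • LinearMap.snd ℚ (σ → ℚ) ℚ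
  have hK : ∀ x, K x = N₀ * ∑ j, x.1 j - ((∑ j, w₀ j : ℕ) : ℚ) * x.2 := fun x => by simp [K]
  have hker : ⨅ g, LinearMap.ker (if g ∈ Z then zq g else 0) ≤ LinearMap.ker K := by
    intro x hx
    have hx' : ∀ g ∈ Z, zq g x = 0 := fun g hg => by
      simpa [hg] using (Submodule.mem_iInf _).1 hx g
    obtain ⟨d, hd⟩ := IsLocalization.exist_integer_multiples_of_finite (nonZeroDivisors ℤ)
      (fun o : Option σ => o.elim x.2 x.1)
    choose z hz using hd
    obtain ⟨M, hM⟩ := exists_nat_ge (∑ g, |zq g ((d.1 : ℚ) • x)| + |(d.1 : ℚ) * x.2|)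
    have hM1 : ∀ g, |zq g ((d.1 : ℚ) • x)| ≤ M := fun g =>
      ((Finset.single_le_sum (f := fun g => |zq g ((d.1 : ℚ) • x)|) (fun _ _ => abs_nonneg _)
        (Finset.mem_univ g)).trans (le_add_of_nonneg_right (abs_nonneg _))).trans hM
    have hM2 : |(d.1 : ℚ) * x.2| ≤ M :=
      (le_add_of_nonneg_left (Finset.sum_nonneg fun _ _ => abs_nonneg _)).trans hM
    let y : (σ → ℚ) × ℚ := (M : ℚ) • (fun j => (w₀ j : ℚ), (N₀ : ℚ)) + (d.1 : ℚ) • x
    have hM0 : (0 : ℚ) ≤ M := Nat.cast_nonneg _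
    have hy : ∀ g, 0 ≤ zq g y ∧ (g ∈ Z → zq g y = 0) := by
      intro g
      rw [map_add, map_smul, ← hzl, smul_eq_mul]
      by_cases hg : g ∈ Z
      · simp [h0.2 g hg, hx' g hg]
      · have : (1 : ℚ) ≤ zl u w₀ N₀ g := by exact_mod_cast h1 g hg
        exact ⟨by nlinarith [(abs_le.1 (hM1 g)).1], fun h => absurd h hg⟩
    have hnat : ∀ (q : ℚ) (m : ℕ) (n : ℤ), 0 ≤ q → q = m + n → ∃ l : ℕ, (l : ℚ) = q := by
      intro q m n hq e
      have : 0 ≤ (m : ℤ) + n := by exact_mod_cast (e ▸ hq : (0 : ℚ) ≤ m + n)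
      obtain ⟨l, hl⟩ := Int.eq_ofNat_of_zero_le this
      exact ⟨l, by rw [e]; exact_mod_cast hl.symm⟩
    have hw : ∀ j, ∃ l : ℕ, (l : ℚ) = y.1 j := fun j =>
      hnat _ (M * w₀ j) (z (some j)) (by simpa [hzq, nn] using (hy (Sum.inl j)).1)
        (by simpa [y] using (hz (some j)).symm)
    have hN' : ∃ l : ℕ, (l : ℚ) = y.2 :=
      hnat _ (M * N₀) (z none) (by
        have : (1 : ℚ) ≤ N₀ := by exact_mod_cast hN
        simp only [y, Prod.snd_add, Prod.smul_snd, smul_eq_mul]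
        nlinarith [(abs_le.1 hM2).1]) (by simpa [y] using (hz none).symm)
    choose w hw using hw
    obtain ⟨N, hN'⟩ := hN'
    have e : ((fun j => (w j : ℚ)), (N : ℚ)) = y := Prod.ext (funext hw) hN'
    have h3 := h2 w N ⟨fun g => by
        have := (hy g).1
        rw [← e, ← hzl] at this
        exact_mod_cast this, fun g hg => by
        have := (hy g).2 hg
        rw [← e, ← hzl] at this
        exact_mod_cast this⟩
    have h4 : K y = 0 := by
      rw [← e, hK, sub_eq_zero, mul_comm]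
      dsimp only
      exact_mod_cast h3
    have h5 : K (fun j => (w₀ j : ℚ), (N₀ : ℚ)) = 0 := by
      rw [hK]
      push_cast
      ring
    rw [map_add, map_smul, map_smul, h5, smul_zero, zero_add, smul_eq_mul] at h4
    exact (mul_eq_zero.1 h4).resolve_left (by exact_mod_cast nonZeroDivisors.coe_ne_zero d)
  obtain ⟨c, hc⟩ := (Submodule.mem_span_range_iff_exists_fun ℚ).1
    (mem_span_of_iInf_ker_le_ker hker)
  have hN' : (N₀ : ℚ) ≠ 0 := by exact_mod_cast hN.ne'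
  refine ⟨fun i => if Sum.inr i ∈ Z then c (Sum.inr i) / N₀ else 0, fun i hi => if_neg hi,
    fun j hj => ?_, ?_⟩
  · have := LinearMap.congr_fun hc (Pi.single j 1, 0)
    rw [hK, LinearMap.sum_apply, Fintype.sum_sum_type, Finset.sum_eq_zero fun j' _ => by
      by_cases h : Sum.inl j' ∈ Z
      · have : j' ≠ j := fun e => hj (e ▸ h)
        simp [h, hzq, nn, this]
      · simp [h]] at this
    simp only [Finset.sum_pi_single', Finset.mem_univ, if_true, mul_one, mul_zero, sub_zero,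
      zero_add] at this
    refine Eq.trans ?_ ((congrArg (· / (N₀ : ℚ)) this).trans (div_self hN'))
    rw [Finset.sum_div]
    refine Finset.sum_congr rfl fun i _ => ?_
    by_cases h : Sum.inr i ∈ Z
    · simp [h, hzq, nn, Pi.single_apply]
      ring
    · simp [h]
  · have := LinearMap.congr_fun hc (0, -1)
    rw [hK, LinearMap.sum_apply, Fintype.sum_sum_type, Finset.sum_eq_zero fun j' _ => by
      by_cases h : Sum.inl j' ∈ Z <;> simp [h, hzq]] at this
    simp only [Pi.zero_apply, Finset.sum_const_zero, mul_zero, mul_neg, mul_one, zero_add,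
      sub_neg_eq_add] at this
    rw [← this, Finset.sum_div]
    refine Finset.sum_congr rfl fun i _ => ?_
    by_cases h : Sum.inr i ∈ Z <;> simp [h, hzq]

theorem not_face {Z Zf Y : Finset (σ ⊕ ι)} {Im : Finset ι} {lam : ι → ℚ} {c : ι → ℤ}
    (hIm : ∀ i ∈ Im, 0 ≤ lam i) (h1 : ∀ j, Sum.inl j ∈ Z → Sum.inl j ∈ Zf)
    (h2 : ∀ i, Sum.inr i ∈ Z → i ∉ Im → Sum.inr i ∈ Zf) (hc : ∑ i, c i = -1)
    (hY : ∀ g, g ∈ Y ↔ Pat u Z Im lam c g) : ¬Face u (Zf ∪ Y) := by
  rintro ⟨ω, hω⟩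
  have e : ∑ j, zr u (Sum.inl j) ω * ell u c j = ∑ i, zr u (Sum.inr i) ω * c i + -1 := by
    have : (-1 : ℝ) = ∑ i, (c i : ℝ) := by exact_mod_cast hc.symm
    simp only [this, zr_inl, zr_inr, ell, ← Finset.sum_add_distrib, sub_mul, one_mul,
      sub_add_cancel, Finset.sum_mul]
    push_cast
    simp only [Finset.mul_sum]
    rw [Finset.sum_comm]
    exact Finset.sum_congr rfl fun i _ => Finset.sum_congr rfl fun j _ => by ring
  have e1 : 0 ≤ ∑ j, zr u (Sum.inl j) ω * ell u c j := Finset.sum_nonneg fun j _ => by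
    rcases le_or_gt 0 (ell u c j) with h | h
    · exact mul_nonneg (hω.nonneg _) (by exact_mod_cast h)
    · rw [hω.eq_zero, zero_mul]
      by_cases hj : Sum.inl j ∈ Z
      · exact Finset.mem_union_left _ (h1 j hj)
      · exact Finset.mem_union_right _ ((hY _).2 ⟨hj, h⟩)
  have e2 : ∑ i, zr u (Sum.inr i) ω * c i ≤ 0 := Finset.sum_nonpos fun i _ => by
    rcases le_or_gt (c i) 0 with h | h
    · exact mul_nonpos_of_nonneg_of_nonpos (hω.nonneg _) (by exact_mod_cast h)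
    · rw [hω.eq_zero, zero_mul]
      by_cases hi : i ∈ Im
      · refine Finset.mem_union_right _ ((hY _).2 (Or.inr ⟨hi, ?_⟩))
        have : (0 : ℚ) < c i := by exact_mod_cast h
        linarith [hIm i hi]
      · by_cases hi' : Sum.inr i ∈ Z
        · exact Finset.mem_union_left _ (h2 i hi' hi)
        · exact Finset.mem_union_right _ ((hY _).2 (Or.inl ⟨hi', h⟩))
  linarith

theorem apex_of_sum {Z : Finset (σ ⊕ ι)} {lam : ι → ℚ} {j : σ}
    (h1 : ∀ i, Sum.inr i ∉ Z → lam i = 0) (hj : Sum.inl j ∉ Z) (h2 : ∑ i, lam i * u i j = 1)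
    (h3 : ∀ i, Sum.inr i ∈ Z → u i j ≠ 0 → ∃ l : ℕ, lam i = l + 1) :
    ∃ i, Sum.inr i ∈ Z ∧ u i j ≠ 0 ∧ Apex u Z i j := by
  have hpos : ∀ i, Sum.inr i ∈ Z → u i j ≠ 0 → (u i j : ℚ) ≤ lam i * u i j := fun i hi h => by
    obtain ⟨l, hl⟩ := h3 i hi h
    rw [hl]
    nlinarith [(Nat.cast_nonneg l : (0 : ℚ) ≤ l), (Nat.cast_nonneg (u i j) : (0 : ℚ) ≤ u i j)]
  have hnn : ∀ i, 0 ≤ lam i * u i j := fun i => by
    by_cases hi : Sum.inr i ∈ Z
    · by_cases h : u i j = 0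
      · simp [h]
      · exact (Nat.cast_nonneg _).trans (hpos i hi h)
    · simp [h1 i hi]
  obtain ⟨i, -, hi⟩ := Finset.exists_ne_zero_of_sum_ne_zero (h2 ▸ one_ne_zero :
    ∑ i, lam i * u i j ≠ 0)
  have hiZ : Sum.inr i ∈ Z := by
    by_contra h
    simp [h1 i h] at hi
  have hu : u i j ≠ 0 := fun h => by simp [h] at hi
  have h4 : (1 : ℚ) ≤ u i j := by exact_mod_cast Nat.one_le_iff_ne_zero.2 hu
  refine ⟨i, hiZ, hu, hj, ?_, fun i' hi' e => ?_⟩
  · have : (u i j : ℚ) ≤ 1 := (hpos i hiZ hu).trans (h2 ▸ Finset.single_le_sum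
      (f := fun i => lam i * u i j) (fun i _ => hnn i) (Finset.mem_univ i))
    exact_mod_cast le_antisymm this h4
  · by_contra h
    have h5 : (1 : ℚ) ≤ u i' j := by exact_mod_cast Nat.one_le_iff_ne_zero.2 h
    have := Finset.add_le_sum (f := fun i => lam i * u i j) (fun i _ => hnn i)
      (Finset.mem_univ i') (Finset.mem_univ i) e
    linarith [hpos i hiZ hu, hpos i' hi' h]

theorem rootHyp {n : ℕ} {u : ι → Fin n → ℕ} {a : ι → k} [Nonempty ι] (hu : Dual u)
    (ha : ∀ i, a i ≠ 0) (hf : fpoly u a ≠ 0) :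
    RootHyp u fun p => 0 < p.1 ∧ 0 < p.2 ∧
      ∀ b, BernsteinEq (fpoly u a) b → b.eval (-(p.1 : k) / p.2) = 0 := by
  classical
  intro Z₀ w₀ N₀ h0 h1 hN h2 hG
  refine ⟨?_, hN, fun b hb => ?_⟩
  · by_contra h
    have h3 : ∀ j, w₀ j = 0 := fun j =>
      Finset.sum_eq_zero_iff.1 (Nat.eq_zero_of_not_pos h) j (Finset.mem_univ j)
    have := h0.1 (Sum.inr (Classical.arbitrary ι))
    simp [zl, h3] at this
    omega
  obtain ⟨lam, l1, l2, l3⟩ := exists_lam h0 h1 hN h2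
  have hF : Face u Z₀ := by
    have hN' : (0 : ℝ) < N₀ := by exact_mod_cast hN
    have e : ∀ g, zr u g (fun j => w₀ j / N₀) = zl u w₀ N₀ g / N₀ := by
      rintro (j | i)
      · simp [zr_inl, zl]
      · simp [zr_inr, zl, sub_div, hN'.ne', Finset.sum_div, mul_div_assoc, mul_comm]
    refine ⟨fun j => w₀ j / N₀, fun g => ?_, fun g hg => by simp [e, h0.2 g hg]⟩
    rw [e, neg_zero]
    exact div_nonneg (by exact_mod_cast h0.1 g) hN'.le
  have hlam : ∀ {Z}, Z₀ ⊆ Z → ∀ i j, Apex u Z i j → lam i = 1 := by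
    intro Z hZ i j h
    have h' := h.mono u hZ
    have := l2 j h'.1
    rw [Finset.sum_eq_single i (fun i' _ e => ?_) (by simp), h'.2.1] at this
    · simpa using this
    · by_cases hi' : Sum.inr i' ∈ Z₀
      · simp [h'.2.2 i' hi' e]
      · simp [l1 i' hi']
  have hin : ∀ i, lam i ≠ 0 → Sum.inr i ∈ Z₀ := fun i h => by
    by_contra h'
    exact h (l1 i h')
  have hB : Bdd u Z₀ := fun j => by
    by_cases hj : Sum.inl j ∈ Z₀
    · exact ⟨_, hj, by simp [nn]⟩
    · obtain ⟨i, -, hi⟩ := Finset.exists_ne_zero_of_sum_ne_zero (l2 j hj ▸ one_ne_zero :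
        ∑ i, lam i * u i j ≠ 0)
      exact ⟨_, hin i (left_ne_zero_of_mul hi), fun h => by
        simp [show u i j = 0 from h] at hi⟩
  obtain ⟨Z, Bs, a', b', hZ, hF', hBs, hP⟩ := exists_pairs hF hG hB
    fun i j h => hin i (by rw [hlam subset_rfl i j h]; exact one_ne_zero)
  let Im : Finset ι := Finset.univ.filter fun i => ∃ l : ℕ, lam i = l + 1
  have hIm : ∀ i, i ∈ Im ↔ ∃ l : ℕ, lam i = l + 1 := by simp [Im]
  let Zf : Finset (Fin n ⊕ ι) := Z.filter fun g => g ∈ Bs ∨ g ∉ Im.map Function.Embedding.inr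
  have hZf : ∀ g, g ∈ Zf ↔ g ∈ Z ∧ (g ∈ Bs ∨ g ∉ Im.map Function.Embedding.inr) :=
    fun g => Finset.mem_filter
  have l1' : ∀ i, Sum.inr i ∉ Z → lam i = 0 := fun i h => l1 i fun h' => h (hZ h')
  have l2' : ∀ j, Sum.inl j ∉ Z → ∑ i, lam i * u i j = 1 := fun j h => l2 j fun h' => h (hZ h')
  have hnot : ∏ i ∈ Im, X i ∉ AA k u fun Y => ¬Face u (Zf ∪ Y) := by
    refine notMem_AA hP hF' (fun g hg => (hZf g).2 ⟨hP.sub hg, Or.inl hg⟩)
      (Finset.filter_subset _ _) (fun j => ?_) fun g => ?_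
    · by_cases hj : Sum.inl j ∈ Z
      · exact ⟨_, (hZf _).2 ⟨hj, Or.inr (by simp)⟩, by simp [nn]⟩
      by_contra h
      push Not at h
      obtain ⟨i, h3, h4, h5⟩ := apex_of_sum l1' hj (l2' j hj) fun i hi hu => by
        by_contra h'
        exact hu (h _ ((hZf _).2 ⟨hi, Or.inr (by simpa [hIm] using h')⟩))
      exact h4 (h _ ((hZf _).2 ⟨h3, Or.inl ((hBs _).2 ⟨i, j, rfl, h5⟩)⟩))
    · have e1 : g ∈ Bs → g ∈ Im.map Function.Embedding.inr := fun hg => by
        obtain ⟨i, j, rfl, h⟩ := (hBs g).1 hg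
        exact Finset.mem_map_of_mem _ ((hIm i).2 ⟨0, by simp [hlam hZ i j h]⟩)
      have e2 : g ∈ Im.map Function.Embedding.inr → g ∈ Z := fun hg => by
        obtain ⟨i, hi, rfl⟩ := Finset.mem_map.1 hg
        obtain ⟨l, hl⟩ := (hIm i).1 hi
        exact hZ (hin i (by rw [hl]; positivity))
      simp only [bst, hZf]
      by_cases h3 : g ∈ Bs <;> by_cases h4 : g ∈ Im.map Function.Embedding.inr <;>
        by_cases h5 : g ∈ Z <;> simp_all
  have := root_of_notMem hu ha hf Z Im lam _ hIm l1' l2' (fun c Y hc hY => not_face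
    (fun i hi => by obtain ⟨l, hl⟩ := (hIm i).1 hi; rw [hl]; positivity)
    (fun j hj => (hZf _).2 ⟨hj, Or.inr (by simp)⟩)
    (fun i hi hi' => (hZf _).2 ⟨hi, Or.inr (by simpa using hi')⟩) hc hY) hnot hb
  rw [l3] at this
  simpa [neg_div] using this

theorem dual_of_affineIndependent
    (h : AffineIndependent ℚ fun (i : ι) (j : σ) => (u i j : ℚ)) : Dual u := by
  intro i
  let L : Option σ → (ι → ℚ) →ₗ[ℚ] ℚ := fun o =>
    ∑ i', o.elim 1 (fun j => (u i' j : ℚ)) • LinearMap.proj i'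
  have hker : ⨅ o, LinearMap.ker (L o) ≤ LinearMap.ker (LinearMap.proj i) := by
    intro w hw
    have hw' := fun o => (Submodule.mem_iInf _).1 hw o
    refine affineIndependent_iff.1 h Finset.univ w (by simpa [L] using hw' none) ?_ i
      (Finset.mem_univ i)
    ext j
    simpa [L, mul_comm] using hw' (some j)
  obtain ⟨c, hc⟩ := (Submodule.mem_span_range_iff_exists_fun ℚ).1
    (mem_span_of_iInf_ker_le_ker hker)
  refine ⟨fun j => c (some j), c none, fun i' => ?_⟩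
  have := LinearMap.congr_fun hc (Pi.single i' 1)
  simpa [L, Pi.single_apply, add_comm, eq_comm] using this

theorem main_thm {n : ℕ} (f : MvPolynomial (Fin n) k) (hf : f ≠ 0) (h0 : constantCoeff f = 0)
    (h : AffineIndependent ℚ fun (v : f.support) (j : Fin n) => (v.1 j : ℚ)) :
    ∃ S : Finset (ℕ × ℕ), zeta f ∈ poleRing k S ∧ ∀ p ∈ S, 0 < p.1 ∧ 0 < p.2 ∧
      ∀ b, BernsteinEq f b → b.eval (-(p.1 : k) / p.2) = 0 := by
  let u : f.support → Fin n → ℕ := fun v j => v.1 j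
  let a : f.support → k := fun v => coeff v.1 f
  have e : fpoly u a = f := by
    conv_rhs => rw [f.as_sum, ← Finset.sum_coe_sort]
    refine Finset.sum_congr rfl fun v _ => ?_
    rw [monomial_eq, Finsupp.prod_fintype _ _ fun _ => pow_zero _]
  have : Nonempty f.support := (support_nonempty.2 hf).to_subtype
  have hu : Dual u := dual_of_affineIndependent h
  have ha : ∀ v, a v ≠ 0 := fun v => mem_support_iff.1 v.2
  have hu0 : ∀ v, ∃ j, u v j ≠ 0 := fun v => by
    by_contra h'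
    push Not at h'
    have : v.1 = 0 := Finsupp.ext h'
    exact ha v (by simp only [a, this]; exact h0)
  obtain ⟨S, h1, h2⟩ := zeta_mem u a hu ha hu0 (rootHyp hu ha (e.symm ▸ hf))
    ⟨one_pos, one_pos, fun b hb => by
      simpa using root_neg_one (f := fpoly u a) (e.symm ▸ hf) (e.symm ▸ h0) hb⟩ fun p hp => hp.2.1
  rw [e] at h1 h2
  exact ⟨S, h2, h1⟩

end

end Pool.Agent.P.MP_b91a16_ag
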