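import Pool.Agent.P.MP_b91a16_ag.Nz
import Pool.Agent.P.MP_b91a16_ag.Root

/-! Nondegeneracy as an ideal membership, and restriction to the compact faces. -/

set_option linter.unusedSectionVars false

open MvPolynomial

namespace Pool.Agent.P.MP_b91a16_ag

noncomputable section

namespace RA

variable {k σ ι : Type} [Field k] [CharZero k] [Fintype σ] [DecidableEq σ] [Fintype ι]
  [DecidableEq ι]
variable (u : ι → σ → ℕ) (a : ι → k)

def EU (I : Finset ι) (l : σ) : MvPolynomial σ k := ∑ i ∈ I, C (a i * u i l) * ∏ j, X j ^ u i j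

def NDP : Prop := ∀ (ω : σ → ℝ) (I : Finset ι), (∀ g, 0 ≤ zr u g ω) → (∀ j, ω j ≠ 0) →
  (∀ i, i ∈ I ↔ zr u (Sum.inr i) ω = 0) → I.Nonempty →
    ∃ (r : ℕ) (h : σ → MvPolynomial σ k), ∑ l, h l * EU u a I l = (∏ j, X j) ^ r

variable {u a}

theorem NDP.nd (h : NDP u a) : ND u a := by
  intro ω h1 h2 ⟨g, h3⟩
  have h4 : tight u ω = (tight u ω).toRight.map Function.Embedding.inr := by
    ext (j | i)
    · simp [mem_tight, h2 j]
    · simp
  obtain ⟨r, c, h5⟩ := h ω (tight u ω).toRight h1 (fun j => zr_inl u j ω ▸ h2 j)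
    (fun i => by simp [mem_tight]) (by
      rw [h4] at h3
      exact (Finset.mem_map.1 h3).imp fun _ h => h.1)
  let φ : MvPolynomial σ k →ₐ[k] Lm k σ := aeval fun j => ee (xm (Pi.single j 1) 0)
  have e1 : ∀ e : σ → ℕ, φ (∏ j, X j ^ e j) = ee (xm (fun j => e j) 0) := fun e => by
    simp only [φ, map_prod, map_pow, aeval_X, ee_pow]
    have : ∀ (s : Finset σ) (f : σ → Pt σ), ∏ j ∈ s, (ee (f j) : Lm k σ) = ee (∑ j ∈ s, f j) := by
      intro s f
      induction s using Finset.induction_on with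
      | empty => rfl
      | insert j s hj ih => rw [Finset.prod_insert hj, Finset.sum_insert hj, ih, ee_mul]
    rw [this]
    congr 1
    refine Prod.ext (funext fun o => ?_) (by simp [xm, Prod.snd_sum])
    cases o <;> simp [xm, Prod.fst_sum, Pi.single_apply]
  have e2 : ∀ l, FS u a (tight u ω) l = ee (xm 0 1) * φ (EU u a (tight u ω).toRight l) := by
    intro l
    rw [FS, h4, Finset.sum_map, EU, map_sum, Finset.mul_sum, ← h4]
    refine Finset.sum_congr rfl fun i _ => ?_
    rw [map_mul, e1, aeval_C, ← Algebra.smul_def, mul_smul_comm, ee_mul, xm_add]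
    simp [ca, nn, sh_inr]
  refine ⟨fun l => ee (-(xm 0 1 + r • xm (fun _ => (1 : ℕ)) 0)) * φ (c l), ?_⟩
  have := congrArg φ h5
  simp only [map_sum, map_mul, map_pow] at this
  simp only [e2, mul_mul_mul_comm _ (φ _), ← Finset.mul_sum, this]
  rw [← ee_zero, show (∏ j, X j : MvPolynomial σ k) = ∏ j, X j ^ 1 by simp, e1, ee_pow, ee_mul, ee_mul]
  congr 1
  abel

theorem NDP.ndi (h : NDP u a) (hu : ∀ i, ∃ j, u i j ≠ 0) (w : σ → ℕ) (i₀ : ι)
    (h0 : ∀ i, oo u w i₀ ≤ oo u w i) : NDI u a (II u w (oo u w i₀)) := by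
  intro K _ _ y h1 _
  have hN : (0 : ℝ) < oo u w i₀ := by
    obtain ⟨j, hj⟩ := hu i₀
    exact_mod_cast (Nat.pos_of_ne_zero (mul_ne_zero (w j).succ_ne_zero hj)).trans_le
      (Finset.single_le_sum (f := fun j => (w j + 1) * u i₀ j) (fun _ _ => Nat.zero_le _)
        (Finset.mem_univ j))
  have e : ∀ i, zr u (Sum.inr i) (fun j => (w j + 1) / oo u w i₀) = oo u w i / oo u w i₀ - 1 :=
    fun i => by simp [zr_inr, oo, Finset.sum_div, mul_div_assoc', mul_comm]
  obtain ⟨r, c, h2⟩ := h (fun j => (w j + 1) / oo u w i₀) (II u w (oo u w i₀)) (by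
    rintro (j | i)
    · rw [zr_inl]
      positivity
    · rw [e, sub_nonneg, one_le_div hN]
      exact_mod_cast h0 i) (fun j => by positivity)
    (fun i => by simp [II, e, sub_eq_zero, div_eq_one_iff_eq hN.ne']) ⟨i₀, by simp [II]⟩
  generalize II u w (oo u w i₀) = I at *
  by_contra h3
  push Not at h3
  have := congrArg (aeval fun j => if j ∈ supp u I then y (j, 0) else 1) h2
  rw [map_sum, Finset.sum_eq_zero fun j _ => ?_, map_pow, map_prod] at this
  · refine pow_ne_zero r (Finset.prod_ne_zero_iff.2 fun j _ => ?_) this.symm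
    by_cases hj : j ∈ supp u I <;> simp [hj, h1 j]
  rw [map_mul, mul_eq_zero_of_right]
  simp only [EU, map_sum, map_mul, map_prod, map_pow, aeval_X, aeval_C, map_natCast]
  by_cases hj : j ∈ supp u I
  · have h4 := h3 j hj
    simp only [DD, map_sum, map_mul, map_natCast, map_pow, aeval_X, map_prod, aeval_C] at h4
    rw [← mul_zero (y (j, 0)), ← h4, Finset.mul_sum]
    refine Finset.sum_congr rfl fun i hi => ?_
    rw [Finset.prod_congr rfl (g := fun j => y (j, 0) ^ u i j) fun j _ => by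
      by_cases h : u i j = 0
      · simp [h]
      · rw [if_pos ((mem_supp u).2 ⟨i, hi, h⟩)], ← Finset.mul_prod_erase _ _ (Finset.mem_univ j)]
    rcases Nat.eq_zero_or_pos (u i j) with h | h
    · simp [h]
    · obtain ⟨d, hd⟩ : ∃ d, u i j = d + 1 := ⟨u i j - 1, by omega⟩
      rw [hd, Nat.add_sub_cancel]
      ring
  · exact Finset.sum_eq_zero fun i hi => by
      simp [show u i j = 0 from by_contra fun h => hj ((mem_supp u).2 ⟨i, hi, h⟩)]

theorem rhs_eq {ι' : Type} [Fintype ι'] [DecidableEq ι'] (c : ι' ↪ ι)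
    (h : ∀ w N, (∀ i, N ≤ oo u w (c i)) → ∀ i, N ≤ oo u w i ∧ (oo u w i = N → ∃ i', c i' = i))
    (m : ℕ) : rhs u a m = rhs (fun i => u (c i)) (fun i => a (c i)) m := by
  rw [rhs, rhs, add_right_inj]
  refine Finset.sum_congr rfl fun N _ => congrArg _ (Finset.sum_congr rfl fun w _ => ?_)
  refine if_ctx_congr ⟨fun h i => h _, fun h' i => (h w N h' i).1⟩ (fun h' => ?_) fun _ => rfl
  have h1 : II u w N = (II (fun i => u (c i)) w N).map c := by
    ext i
    simp only [II, Finset.mem_map, Finset.mem_filter, Finset.mem_univ, true_and]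
    exact ⟨fun hi => ((h w N h' i).2 hi).imp fun i' (e : c i' = i) => ⟨(e ▸ hi : oo u w (c i') = N), e⟩,
      fun ⟨i', h1, h2⟩ => h2 ▸ h1⟩
  have h2 : ∀ I : Finset ι', supp u (I.map c) = supp (fun i => u (c i)) I := fun I => by
    ext j
    simp [mem_supp]
  have h3 : ∀ (I : Finset ι') d, tvol u a (I.map c) d =
      tvol (fun i => u (c i)) (fun i => a (c i)) I d := fun I d =>
    (hasVol_tvol u a _ d).unique ((hasVol_tvol _ _ I d).congr fun K _ _ y => by
      simp only [TP, h2, FF, Finset.sum_map])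
  simp only [h1, pp, h2, h3]

variable {V : Finset (σ ⊕ ι)}

theorem Geo.oo_le (hG : Geo u V) {w : σ → ℕ} {N : ℕ}
    (h : ∀ i, Sum.inr i ∈ V → N ≤ oo u w i) (i : ι) :
    N ≤ oo u w i ∧ (oo u w i = N → ∃ κ, Rp u V 0 (sh u (Sum.inr i)) κ 0) := by
  obtain ⟨κ, ν, h1, -, h2⟩ := hG.zr_eq (Sum.inr i)
  have e : ∀ i, lin u (Sum.inr i) (fun j => w j + 1) = oo u w i := fun i => by
    simp [lin_apply, oo, nn, mul_comm]
  have h3 := h2 fun j => w j + 1
  have h4 : ∀ j, κ (Sum.inl j) = 0 := fun j => by simpa [sh] using (h1.snd j).symm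
  have h5 : ∑ i, κ (Sum.inr i) = 1 := by
    simpa [deg_sh, Fintype.sum_sum_type, h4] using h1.deg_eq.symm
  rw [e, map_add, ld_WW, ld_ev, Fintype.sum_sum_type] at h3
  simp only [h4, zero_mul, Finset.sum_const_zero, zero_add, e] at h3
  have h6 : (N : ℝ) ≤ ∑ i, κ (Sum.inr i) * oo u w i := by
    rw [← one_mul (N : ℝ), ← h5, Finset.sum_mul]
    refine Finset.sum_le_sum fun i _ => ?_
    by_cases hi : κ (Sum.inr i) = 0
    · simp [hi]
    · exact mul_le_mul_of_nonneg_left (by exact_mod_cast h i (h1.1.mem hi)) (h1.1.1 _)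
  have h7 : ∀ j ∈ Finset.univ, 0 ≤ ν j * ((w j : ℝ) + 1) := fun j _ =>
    mul_nonneg (h1.2.1 j) (by positivity)
  have h8 := Finset.sum_nonneg h7
  refine ⟨by exact_mod_cast (by linarith : (N : ℝ) ≤ oo u w i), fun h9 => ⟨κ, ?_⟩⟩
  rw [h9] at h3
  obtain rfl : ν = 0 := funext fun j => (mul_eq_zero.1 ((Finset.sum_eq_zero_iff_of_nonneg h7).1
    (by linarith) j (Finset.mem_univ j))).resolve_right (by positivity)
  exact h1

theorem Geo.rootHyp {n : ℕ} {u : ι → Fin n → ℕ} {V : Finset (Fin n ⊕ ι)} [Nonempty ι]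
    (hG : Geo u V) (hN : ND u a) (hu : Function.Injective u) (ha : ∀ i, a i ≠ 0)
    (hf : fpoly u a ≠ 0) {ι' : Type} [Fintype ι'] [DecidableEq ι'] (c : ι' ↪ ι)
    (hc : ∀ i, (∃ i', c i' = i) ↔ ∃ κ, Rp u V 0 (sh u (Sum.inr i)) κ 0) :
    RootHyp (fun i => u (c i)) fun p => 0 < p.1 ∧ 0 < p.2 ∧
      ∀ b, LocalBernsteinEq (fpoly u a) b → b.eval (-(p.1 : k) / p.2) = 0 := by
  intro Z w₀ N₀ h0 h1 hN₀ h2 h3
  obtain ⟨lam, l1, l2, l3⟩ := exists_lam h0 h1 hN₀ h2
  have hV : ∀ i, Sum.inr i ∈ V → ∃ i', c i' = i := fun i hi => (hc i).2 ⟨_, rp_sh hi⟩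
  choose κ hκ using fun i => (hc (c i)).1 ⟨i, rfl⟩
  have hN' : (0 : ℝ) < N₀ := by exact_mod_cast hN₀
  let ω : Fin n → ℝ := fun j => w₀ j / N₀
  have e : ∀ g, zr u (g.map id c) ω = zl (fun i => u (c i)) w₀ N₀ g / N₀ := by
    rintro (j | i)
    · simp [ω, zr_inl, zl]
    · simp [ω, zr_inr, zl, sub_div, hN'.ne', Finset.sum_div, mul_comm, div_mul_eq_mul_div]
  have hV' : ∀ g ∈ V, ∃ g' : Fin n ⊕ ι', g'.map id c = g := by
    rintro (j | i) hg
    exacts [⟨Sum.inl j, rfl⟩, (hV i hg).elim fun i' h => ⟨Sum.inr i', congrArg _ h⟩]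
  have feas : ∀ g, 0 ≤ zr u g ω := hG.nonneg fun g hg => by
    obtain ⟨g, rfl⟩ := hV' g hg
    rw [e]
    exact div_nonneg (by exact_mod_cast h0.1 g) hN'.le
  have hZ : ∀ g, g ∈ Z ↔ zr u (g.map id c) ω = 0 := fun g => by
    rw [e, div_eq_zero_iff, or_iff_left hN'.ne', Int.cast_eq_zero]
    exact ⟨h0.2 g, fun h => by_contra fun h' => (h1 g h').ne' h⟩
  have hκ' : ∀ i, WW u (κ i) = rc (sh u (Sum.inr (c i))) := fun i => by simpa using (hκ i).2.2.symm
  have ht : ∀ i, Sum.inr i ∈ Z → ∀ g, κ i g ≠ 0 → zr u g ω = 0 := fun i hi =>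
    (tight_of_lv (ν := 0) feas (hκ i).1.1 (fun _ => le_rfl) (by
      simpa [hκ', rc_sh, lv_WW, Pi.single_apply] using (hZ (Sum.inr i)).1 hi)).1
  have hw : 0 < ∑ j, w₀ j := by
    by_contra h
    have h3 : ∀ j, w₀ j = 0 := fun j =>
      Finset.sum_eq_zero_iff.1 (Nat.eq_zero_of_not_pos h) j (Finset.mem_univ j)
    have := feas (Sum.inr (Classical.arbitrary ι))
    norm_num [zr_inr, ω, h3] at this
  have hD : Dat u a V (fun o => ∑ i, lam i * hat u (Sum.inr (c i)) o) (∑ i, (lam i : ℝ) • κ i) ω :=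
    { geo := hG
      nd := hN
      inj := hu
      ne := ha
      feas := feas
      supp := fun g hg => by
        rw [Finset.sum_apply] at hg
        obtain ⟨i, -, hi⟩ := Finset.exists_ne_zero_of_sum_ne_zero hg
        exact ⟨(hκ i).1.mem (right_ne_zero_of_mul hi), ht i (by_contra fun h => by
          simp [l1 i h] at hi) g (right_ne_zero_of_mul hi)⟩
      inl := fun j => by
        rw [Finset.sum_apply]
        exact Finset.sum_eq_zero fun i _ => by simp [← (hκ i).snd j, sh]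
      rep := fun o => by simp [hκ', rc, sh, Prod.fst_sum]
      one := fun j hj => l2 j fun h => hj (by simpa [zr_inl] using (hZ (Sum.inl j)).1 h)
      pos := by
        have : (0 : ℚ) < ((∑ j, w₀ j : ℕ) : ℚ) / N₀ := by positivity
        simpa [hat, l3] using this
      good := fun i l h4 h5 h6 => by
        obtain ⟨i, rfl⟩ := hV i h4
        obtain ⟨j, h7, h8⟩ := h3 i l ⟨fun h => by
          simpa [nn] using h6 _ (hG.inl l) ((hZ (Sum.inl l)).1 h),
          h5, fun i' h7 h8 => by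
          have h9 := (hκ i').nn_eq _
          have h10 : ∀ g, g ≠ Sum.inr (c i) → κ i' g * nn u g l = 0 := fun g hg => by
            by_cases h : κ i' g = 0
            · simp [h]
            · simp [h6 g ((hκ i').1.mem h) (ht i' h7 g h) hg]
          have h11 := h9 l
          rw [Finset.sum_eq_single _ (fun g _ => h10 g) (by simp)] at h11
          have h12 : ∑ g, κ i' g = 1 := by simpa [deg_sh, -Fintype.sum_sum_type] using
            (hκ i').deg_eq.symm
          rw [← Finset.add_sum_erase _ _ (Finset.mem_univ (Sum.inr (c i)))] at h12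
          have h13 := fun g (_ : g ∈ Finset.univ.erase (Sum.inr (c i))) => (hκ i').1.1 g
          have h14 := Finset.sum_nonneg h13
          simp only [nn, Sum.elim_inr, h5, Nat.cast_one, mul_one, Pi.zero_apply, add_zero] at h11
          by_contra h15
          have h16 : (1 : ℝ) ≤ u (c i') l := by exact_mod_cast Nat.one_le_iff_ne_zero.2 h15
          refine h8 (c.injective (hu (funext fun j => ?_)))
          have := h9 j
          rw [Finset.sum_eq_single (Sum.inr (c i)) (fun g _ hg => by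
            rw [(Finset.sum_eq_zero_iff_of_nonneg h13).1 (by linarith) g (by simpa using hg),
              zero_mul]) (by simp), show κ i' (Sum.inr (c i)) = 1 by linarith] at this
          simpa [nn] using this⟩
        refine ⟨j, h7, by simp [h8.2.1], fun g h9 h10 h11 => ?_⟩
        obtain ⟨g, rfl⟩ := hV' g h9
        have := h8.nn_eq ((hZ g).2 h10)
        rw [if_neg fun h => h11 (by simp [h])] at this
        rcases g with j | i <;> exact this }
  refine ⟨hw, hN₀, fun b hb => ?_⟩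
  simpa [hat, l3, neg_div] using hD.root hf hb

end RA

end

end Pool.Agent.P.MP_b91a16_ag
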