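import Pool.Agent.P.MP_b91a16_ag.Contact

/-! Generating series of lattice points, with a real parameter in place of `L⁻¹`. -/

set_option linter.unusedSectionVars false

open MvPolynomial

namespace Pool.Agent.P.MP_b91a16_ag

noncomputable section

theorem hasSum_prod_fin (n : ℕ) (φ : Fin n → ℕ → ℝ) (s : Fin n → ℝ) (h0 : ∀ j l, 0 ≤ φ j l)
    (h : ∀ j, HasSum (φ j) (s j)) : HasSum (fun w : Fin n → ℕ => ∏ j, φ j (w j)) (∏ j, s j) := by
  induction n with
  | zero => simp
  | succ n ih =>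
    have h1 := ih (fun j => φ j.succ) (fun j => s j.succ) (fun j l => h0 _ l) fun j => h _
    have h3 : Summable fun p : ℕ × (Fin n → ℕ) => φ 0 p.1 * ∏ j : Fin n, φ j.succ (p.2 j) :=
      Summable.mul_of_nonneg (f := φ 0) (g := fun w : Fin n → ℕ => ∏ j : Fin n, φ j.succ (w j))
        (h 0).summable h1.summable (h0 0) fun w => Finset.prod_nonneg fun j _ => h0 _ _
    have h2 := HasSum.mul (f := φ 0) (g := fun w : Fin n → ℕ => ∏ j : Fin n, φ j.succ (w j))
      (h 0) h1 h3
    rw [Fin.prod_univ_succ, ← (Fin.consEquiv fun _ : Fin (n + 1) => ℕ).hasSum_iff]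
    have e : ((fun w : Fin (n + 1) → ℕ => ∏ j, φ j (w j)) ∘
        (Fin.consEquiv fun _ : Fin (n + 1) => ℕ)) =
        fun p : ℕ × (Fin n → ℕ) => φ 0 p.1 * ∏ j : Fin n, φ j.succ (p.2 j) := by
      funext p
      simp [Fin.prod_univ_succ, Fin.consEquiv]
    rw [e]
    exact h2

variable {σ ι : Type} [Fintype σ] [DecidableEq σ] [Fintype ι] [DecidableEq ι]

theorem hasSum_prod_pi (φ : σ → ℕ → ℝ) (s : σ → ℝ) (h0 : ∀ j l, 0 ≤ φ j l)
    (h : ∀ j, HasSum (φ j) (s j)) : HasSum (fun w : σ → ℕ => ∏ j, φ j (w j)) (∏ j, s j) := by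
  let e := (Fintype.equivFin σ).symm
  have h1 := hasSum_prod_fin _ (fun j => φ (e j)) (fun j => s (e j)) (fun j l => h0 _ l)
    fun j => h _
  rw [e.prod_comp s] at h1
  rw [← (Equiv.arrowCongr e (Equiv.refl ℕ)).hasSum_iff]
  convert h1 using 1
  funext w
  rw [Function.comp_apply, ← e.prod_comp]
  simp

theorem summable_pow_sum {x : ℝ} (h0 : 0 ≤ x) (h1 : x < 1) :
    Summable fun w : σ → ℕ => x ^ ∑ j, w j := by
  have := (hasSum_prod_pi (σ := σ) (fun _ l => x ^ l) (fun _ => (1 - x)⁻¹)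
    (fun _ _ => pow_nonneg h0 _) fun _ => hasSum_geometric_of_lt_one h0 h1).summable
  simpa only [Finset.prod_pow_eq_pow_sum] using this

variable (u : ι → σ → ℕ)

/-- Affine slack vector of a lattice point. -/
def zz (w : σ → ℕ) (N : ℕ) : σ ⊕ ι → ℤ :=
  Sum.elim (fun j => (w j : ℤ)) fun i => (oo u w i : ℤ) - N

/-- Linear slack vector of a lattice point. -/
def zl (w : σ → ℕ) (N : ℕ) : σ ⊕ ι → ℤ :=
  Sum.elim (fun j => (w j : ℤ)) fun i => ∑ j, (w j : ℤ) * u i j - N

theorem zz_add (w w' : σ → ℕ) (N N' : ℕ) (g : σ ⊕ ι) :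
    zz u (w + w') (N + N') g = zz u w N g + zl u w' N' g := by
  rcases g with j | i
  · simp [zz, zl]
  · simp only [zz, zl, oo, Sum.elim_inr, Pi.add_apply]
    push_cast
    simp only [add_mul, Finset.sum_add_distrib]
    ring

theorem zl_add (w w' : σ → ℕ) (N N' : ℕ) (g : σ ⊕ ι) :
    zl u (w + w') (N + N') g = zl u w N g + zl u w' N' g := by
  rcases g with j | i
  · simp [zl]
  · simp only [zl, Sum.elim_inr, Pi.add_apply]
    push_cast
    simp only [add_mul, Finset.sum_add_distrib]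
    ring

def eta {G : Type} [Fintype G] (z : G → ℤ) : MvPolynomial G ℝ →ₗ[ℝ] ℝ :=
  (basisMonomials G ℝ).constr ℝ fun β => if ∀ g, (β g : ℤ) ≤ z g then 1 else 0

theorem eta_monomial {G : Type} [Fintype G] (z : G → ℤ) (β : G →₀ ℕ) :
    eta z (monomial β 1) = if ∀ g, (β g : ℤ) ≤ z g then 1 else 0 := by
  have := (basisMonomials G ℝ).constr_basis ℝ
    (fun β : G →₀ ℕ => if ∀ g, (β g : ℤ) ≤ z g then (1 : ℝ) else 0) β
  rwa [coe_basisMonomials] at this

theorem mvPolynomial_induction_one {G : Type} {P : MvPolynomial G ℝ → Prop}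
    (h1 : ∀ β, P (monomial β 1)) (h2 : ∀ p q, P p → P q → P (p + q))
    (h3 : ∀ (c : ℝ) p, P p → P (c • p)) (p : MvPolynomial G ℝ) : P p := by
  induction p using MvPolynomial.induction_on' with
  | monomial β c =>
    have := h3 c _ (h1 β)
    rwa [smul_monomial, smul_eq_mul, mul_one] at this
  | add p q hp hq => exact h2 p q hp hq

theorem eta_prod {G : Type} [Fintype G] [DecidableEq G] (z : G → ℤ) (A B : G → ℝ) (s : Finset G)
    (β : G →₀ ℕ) :
    eta z (monomial β 1 * ∏ g ∈ s, (C (A g) + C (B g) * X g)) =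
      ∏ g, if g ∈ s then (A g * (if (β g : ℤ) ≤ z g then 1 else 0) +
        B g * if (β g : ℤ) + 1 ≤ z g then 1 else 0) else if (β g : ℤ) ≤ z g then 1 else 0 := by
  induction s using Finset.induction_on generalizing β with
  | empty => simp [eta_monomial, Finset.prod_boole]
  | insert g s hg ih =>
    have e : monomial β (1 : ℝ) * ∏ g ∈ insert g s, (C (A g) + C (B g) * X g) =
        A g • (monomial β 1 * ∏ g ∈ s, (C (A g) + C (B g) * X g)) +
        B g • (monomial (β + Finsupp.single g 1) 1 * ∏ g ∈ s, (C (A g) + C (B g) * X g)) := by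
      rw [Finset.prod_insert hg, monomial_add_single, smul_eq_C_mul, smul_eq_C_mul]
      ring
    rw [e, map_add, map_smul, map_smul, ih, ih, smul_eq_mul, smul_eq_mul,
      ← Finset.mul_prod_erase _ _ (Finset.mem_univ g),
      ← Finset.mul_prod_erase _ _ (Finset.mem_univ g),
      ← Finset.mul_prod_erase _ _ (Finset.mem_univ g)]
    have e1 : ∀ g' ∈ Finset.univ.erase g, (β + Finsupp.single g 1 : G →₀ ℕ) g' = β g' :=
      fun g' hg' => by simp [Finsupp.single_eq_of_ne (Finset.ne_of_mem_erase hg')]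
    have e2 : ∀ g' ∈ Finset.univ.erase g, g' ∈ insert g s ↔ g' ∈ s := fun g' hg' => by
      simp [Finset.ne_of_mem_erase hg']
    rw [Finset.prod_congr (s₁ := Finset.univ.erase g)
        (f := fun g' => if g' ∈ s then (A g' * (if ((β + Finsupp.single g 1 : G →₀ ℕ) g' : ℤ) ≤ z g'
          then 1 else 0) + B g' * if ((β + Finsupp.single g 1 : G →₀ ℕ) g' : ℤ) + 1 ≤ z g'
          then 1 else 0) else if ((β + Finsupp.single g 1 : G →₀ ℕ) g' : ℤ) ≤ z g' then 1 else 0)
        rfl fun g' hg' => by rw [e1 g' hg'],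
      Finset.prod_congr (s₁ := Finset.univ.erase g)
        (f := fun g' => if g' ∈ insert g s then _ else _) rfl fun g' hg' => by
          simp only [e2 g' hg']; rfl]
    simp only [if_neg hg, if_pos (Finset.mem_insert_self g s), Finsupp.add_apply,
      Finsupp.single_eq_same, Nat.cast_add, Nat.cast_one]
    ring

variable (x : ℝ)

def SS : MvPolynomial (σ ⊕ ι) ℝ →ₗ[ℝ] PowerSeries ℝ :=
  (basisMonomials (σ ⊕ ι) ℝ).constr ℝ fun β => PowerSeries.mk fun N =>
    ∑' w : σ → ℕ, x ^ (∑ j, w j) * if ∀ g, (β g : ℤ) ≤ zz u w N g then 1 else 0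

theorem coeff_SS_monomial (β : σ ⊕ ι →₀ ℕ) (N : ℕ) :
    PowerSeries.coeff N (SS u x (monomial β 1)) =
      ∑' w : σ → ℕ, x ^ (∑ j, w j) * if ∀ g, (β g : ℤ) ≤ zz u w N g then 1 else 0 := by
  have := (basisMonomials (σ ⊕ ι) ℝ).constr_basis ℝ
    (fun β : σ ⊕ ι →₀ ℕ => PowerSeries.mk fun N =>
      ∑' w : σ → ℕ, x ^ (∑ j, w j) * if ∀ g, (β g : ℤ) ≤ zz u w N g then (1 : ℝ) else 0) β
  rw [coe_basisMonomials] at this
  rw [SS, this, PowerSeries.coeff_mk]

variable {x}

theorem hasSum_SS (h0 : 0 ≤ x) (h1 : x < 1) (p : MvPolynomial (σ ⊕ ι) ℝ) (N : ℕ) :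
    HasSum (fun w : σ → ℕ => x ^ (∑ j, w j) * eta (zz u w N) p)
      (PowerSeries.coeff N (SS u x p)) := by
  induction p using mvPolynomial_induction_one with
  | h1 β =>
    rw [coeff_SS_monomial]
    simp only [eta_monomial]
    refine (Summable.of_nonneg_of_le (fun w => ?_) (fun w => ?_) (summable_pow_sum h0 h1)).hasSum
    · split_ifs <;> simp [pow_nonneg h0]
    · split_ifs <;> simp [pow_nonneg h0]
  | h2 p q hp hq => simpa only [map_add, mul_add] using hp.add hq
  | h3 c p hp => simpa only [map_smul, smul_eq_mul, mul_left_comm] using hp.mul_left c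

def PolyS : Subalgebra ℝ (PowerSeries ℝ) := (Polynomial.coeToPowerSeries.algHom ℝ).range

theorem coe_mem_PolyS (p : Polynomial ℝ) : (p : PowerSeries ℝ) ∈ PolyS := ⟨p, by simp⟩

theorem mem_PolyS_iff {F : PowerSeries ℝ} :
    F ∈ PolyS ↔ ∃ M, ∀ N, M ≤ N → PowerSeries.coeff N F = 0 := by
  constructor
  · rintro ⟨p, rfl⟩
    refine ⟨p.natDegree + 1, fun N hN => ?_⟩
    simpa using Polynomial.coeff_eq_zero_of_natDegree_lt (p := p) (n := N) (by omega)
  · rintro ⟨M, hM⟩
    have : F = (PowerSeries.trunc M F : Polynomial ℝ) := by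
      ext N
      rw [Polynomial.coeff_coe, PowerSeries.coeff_trunc]
      split_ifs with h
      · rfl
      · exact hM N (by omega)
    rw [this]
    exact coe_mem_PolyS _

theorem SS_shift (w' : σ → ℕ) (N' : ℕ) (β' : σ ⊕ ι →₀ ℕ) (hβ : ∀ g, (β' g : ℤ) = zl u w' N' g)
    (q : MvPolynomial (σ ⊕ ι) ℝ) :
    SS u x (q * monomial β' 1) -
      PowerSeries.C (x ^ ∑ j, w' j) * PowerSeries.X ^ N' * SS u x q ∈ PolyS := by
  induction q using mvPolynomial_induction_one with
  | h1 β =>
    refine mem_PolyS_iff.2 ⟨N', fun N hN => ?_⟩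
    obtain ⟨N, rfl⟩ := Nat.exists_eq_add_of_le' hN
    rw [monomial_mul, mul_one, map_sub, mul_assoc, PowerSeries.coeff_C_mul,
      PowerSeries.coeff_X_pow_mul, coeff_SS_monomial, coeff_SS_monomial, sub_eq_zero,
      ← tsum_mul_left, ← (add_left_injective w').tsum_eq]
    · refine tsum_congr fun w => ?_
      simp only [zz_add, ← hβ, Finsupp.add_apply, Nat.cast_add, add_le_add_iff_right, Pi.add_apply,
        Finset.sum_add_distrib, pow_add]
      ring
    · intro w hw
      have h : ∀ g, ((β + β' : σ ⊕ ι →₀ ℕ) g : ℤ) ≤ zz u w (N + N') g := by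
        by_contra h
        exact hw (by simp only [if_neg h, mul_zero])
      refine ⟨w - w', funext fun j => ?_⟩
      have h1 := h (Sum.inl j)
      have h2 := hβ (Sum.inl j)
      simp only [zz, zl, Sum.elim_inl, Finsupp.add_apply, Nat.cast_add] at h1 h2
      simp only [Pi.add_apply, Pi.sub_apply]
      omega
  | h2 p q hp hq =>
    have := PolyS.add_mem hp hq
    rw [add_mul, map_add, map_add]
    convert this using 1
    ring
  | h3 c p hp =>
    have := PolyS.smul_mem hp c
    rw [smul_mul_assoc, map_smul, map_smul, mul_smul_comm, ← smul_sub]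
    exact this

/-- Lattice points of the face of the cone on which the constraints in `Z` are tight. -/
def InC (Z : Finset (σ ⊕ ι)) (w : σ → ℕ) (N : ℕ) : Prop :=
  (∀ g, 0 ≤ zl u w N g) ∧ ∀ g ∈ Z, zl u w N g = 0

def xZ {G : Type} (Z : Finset G) : MvPolynomial G ℝ := ∏ g ∈ Z, (1 - X g)

theorem SS_base (h0 : 0 ≤ x) (h1 : x < 1) (Z : Finset (σ ⊕ ι))
    (hZ : ∀ w N, InC u Z w N → N = 0) (q : MvPolynomial (σ ⊕ ι) ℝ) :
    SS u x (q * xZ Z) ∈ PolyS := by
  induction q using mvPolynomial_induction_one with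
  | h1 β =>
    let T : ℕ → Prop := fun N => ∃ w, (∀ g, (β g : ℤ) ≤ zz u w N g) ∧ ∀ g ∈ Z, zz u w N g = β g
    have hT : {N | T N}.Finite := by
      by_contra hinf
      have hinf' : {N | T N}.Infinite := hinf
      obtain ⟨Nn, hmono, hmem⟩ : ∃ Nn : ℕ → ℕ, StrictMono Nn ∧ ∀ t, T (Nn t) :=
        ⟨Nat.nth T, Nat.nth_strictMono hinf', Nat.nth_mem_of_infinite hinf'⟩
      choose w hw hw' using hmem
      obtain ⟨s, t, hst, hle⟩ := wellQuasiOrdered_le
        (fun t g => (zz u (w t) (Nn t) g - β g).toNat : ℕ → σ ⊕ ι → ℕ)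
      have hle' : ∀ g, zz u (w s) (Nn s) g ≤ zz u (w t) (Nn t) g := fun g => by
        have := hle g
        have := hw s g
        have := hw t g
        simp only at *
        omega
      have hN := hmono hst
      have hw1 : w s + (w t - w s) = w t := funext fun j => by
        have := hle' (Sum.inl j)
        simp only [zz, Sum.elim_inl] at this
        simp only [Pi.add_apply, Pi.sub_apply]
        omega
      have hadd := zz_add u (w s) (w t - w s) (Nn s) (Nn t - Nn s)
      rw [hw1, Nat.add_sub_cancel' hN.le] at hadd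
      have := hZ (w t - w s) (Nn t - Nn s) ⟨fun g => by
        have := hadd g; have := hle' g; omega, fun g hg => by
        have := hadd g; have := hw' s g hg; have := hw' t g hg; omega⟩
      omega
    obtain ⟨M, hM⟩ := hT.bddAbove
    refine mem_PolyS_iff.2 ⟨M + 1, fun N hN => ?_⟩
    refine (hasSum_SS u h0 h1 _ N).unique ?_
    convert hasSum_zero with w
    have e : xZ Z = ∏ g ∈ Z, (C (1 : ℝ) + C (-1 : ℝ) * X g) :=
      Finset.prod_congr rfl fun g _ => by simp [sub_eq_add_neg]
    rw [e, eta_prod, mul_eq_zero]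
    right
    by_contra hne
    have hne' := Finset.prod_ne_zero_iff.1 hne
    have : T N := ⟨w, fun g => ?_, fun g hg => ?_⟩
    · have := hM this
      omega
    · have := hne' g (Finset.mem_univ g)
      by_contra h
      rw [if_neg h, if_neg (show ¬ (β g : ℤ) + 1 ≤ _ by omega)] at this
      simp at this
    · have := hne' g (Finset.mem_univ g)
      rw [if_pos hg] at this
      by_contra h
      split_ifs at this <;> first | omega | simp at this
  | h2 p q hp hq =>
    rw [add_mul, map_add]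
    exact PolyS.add_mem hp hq
  | h3 c p hp =>
    rw [smul_mul_assoc, map_smul]
    exact PolyS.smul_mem hp c

end

end Pool.Agent.P.MP_b91a16_ag
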