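import Pool.Agent.P.MP_b91a16_ag.Piece

/-! Shelling the dual polyhedron along a generic linear function. -/

set_option linter.unusedSectionVars false

open Filter Topology

namespace Pool.Agent.P.MP_b91a16_ag

noncomputable section

namespace RA

variable {k σ ι : Type} [Field k] [CharZero k] [Fintype σ] [DecidableEq σ] [Fintype ι]
  [DecidableEq ι]
variable {u : ι → σ → ℕ} {a : ι → k} {V : Finset (σ ⊕ ι)}

theorem near_of {Y : Finset (σ ⊕ ι)} {ω : σ → ℝ} (h : ∀ g, 0 ≤ zr u g ω)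
    (h' : ∀ g ∈ Y, zr u g ω = 0) : Near u 0 Y ω :=
  ⟨fun g => by simpa using h g, fun g hg => (h' g hg).le⟩

variable (u V) in
structure Vx (γ : σ → ℝ) (Y₀ : Finset (σ ⊕ ι)) (S : Finset σ) (G : Finset (σ ⊕ ι))
    (m : σ ⊕ ι → ℝ) : Prop where
  sub : Y₀ ⊆ G
  vs : ∀ g ∈ G, g ∈ V ∧ ∀ j ∈ S, nn u g j = 0
  card : Sᶜ.card ≤ G.card
  face : Face u G
  rep : ∀ j, γ j = ∑ g, m g * nn u g j
  supp : ∀ g, m g ≠ 0 ↔ g ∈ G

variable {γ : σ → ℝ} {Y₀ G G' : Finset (σ ⊕ ι)} {S : Finset σ} {m m' : σ ⊕ ι → ℝ}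

theorem sum_rep (h : ∀ j, γ j = ∑ g, m g * nn u g j) (d : σ → ℝ) :
    ∑ j, γ j * d j = ∑ g, m g * lin u g d := by
  rw [← ld_WW]
  simp [ld, tt_WW, h, mul_comm]

theorem Vx.val (h : Vx u V γ Y₀ S G m) (ω : σ → ℝ) :
    ∑ j, γ j * ω j = ∑ i, m (Sum.inr i) + ∑ g, m g * zr u g ω := by
  simp [sum_rep h.rep, zr, mul_sub, Fintype.sum_sum_type]

theorem Vx.eq (hG : Geo u V) (h : Vx u V γ Y₀ S G m) (h' : Vx u V γ Y₀ S G' m') {ω : σ → ℝ}
    (h1 : Near u 0 G ω) (h2 : Near u 0 G' ω) : m = m' :=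
  sub_eq_zero.1 (hG.s2 ω h1.nonneg _ (fun g hg => by
    by_cases h3 : m g = 0
    · have := (h'.supp g).1 fun h4 => hg (by simp [h3, h4])
      exact ⟨(h'.vs g this).1, h2.eq_zero this⟩
    · exact ⟨(h.vs g ((h.supp g).1 h3)).1, h1.eq_zero ((h.supp g).1 h3)⟩) fun j => by
      simp [sub_mul, ← h.rep, ← h'.rep])

theorem Vx.lt (hG : Geo u V) (h : Vx u V γ Y₀ S G m) (h' : Vx u V γ Y₀ S G' m')
    (h1 : ∀ g ∈ G, g ∉ G' → 0 < m g) : ∑ i, m (Sum.inr i) < ∑ i, m' (Sum.inr i) ∨ G = G' := by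
  obtain ⟨ω, hω⟩ := h'.face
  have h2 := (h.val ω).symm.trans (h'.val ω)
  rw [← lv_WW, ← lv_WW u ω m', lv_eq_zero fun g hg => hω.eq_zero ((h'.supp g).1 hg), lv_WW] at h2
  have h3 : ∀ g ∈ Finset.univ, 0 ≤ m g * zr u g ω := fun g _ => by
    by_cases h3 : g ∈ G'
    · rw [hω.eq_zero h3, mul_zero]
    by_cases h4 : m g = 0
    · rw [h4, zero_mul]
    · exact mul_nonneg (h1 g ((h.supp g).1 h4) h3).le (hω.nonneg g)
  rcases (Finset.sum_nonneg h3).lt_or_eq with h4 | h4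
  · exact Or.inl (by linarith)
  · have := h.eq hG h' ⟨hω.1, fun g hg => ((mul_eq_zero.1 ((Finset.sum_eq_zero_iff_of_nonneg h3).1
      h4.symm g (Finset.mem_univ g))).resolve_left ((h.supp g).2 hg)).le⟩ hω
    exact Or.inr (Finset.ext fun g => by rw [← h.supp, ← h'.supp, this])

variable (u) in
def Gen (γ : σ → ℝ) (S : Finset σ) : Prop := ∀ G : Finset (σ ⊕ ι), G.card < Sᶜ.card →
  ∀ m : σ ⊕ ι → ℝ, (∀ g ∉ G, m g = 0) → ¬∀ j, γ j = ∑ g, m g * nn u g j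

def cut (S : Finset σ) (d : σ → ℝ) : σ → ℝ := fun j => if j ∈ S then 0 else d j

theorem lin_cut {g : σ ⊕ ι} (h : ∀ j ∈ S, nn u g j = 0) (d : σ → ℝ) :
    lin u g (cut S d) = lin u g d := by
  rw [lin_apply, lin_apply]
  exact Finset.sum_congr rfl fun j _ => by by_cases hj : j ∈ S <;> simp [cut, hj, h j]

theorem exists_gen (S : Finset σ) {O : Set (σ → ℝ)} (hO : IsOpen O) (hO' : O.Nonempty) :
    ∃ γ ∈ O, Gen u (cut S γ) S := by
  let T : Finset (σ ⊕ ι) → Submodule ℝ (σ → ℝ) := fun G => Submodule.span ℝ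
    ((G ∪ S.map Function.Embedding.inl).image fun g j => (nn u g j : ℝ) : Finset (σ → ℝ))
  have h1 : ∀ G : Finset (σ ⊕ ι), G.card < Sᶜ.card → Dense (T G : Set (σ → ℝ))ᶜ := fun G hG => by
    rw [← interior_eq_empty_iff_dense_compl]
    by_contra h
    have h2 := (T G).eq_top_of_nonempty_interior' (Set.nonempty_iff_ne_empty.2 h)
    have h3 : Module.finrank ℝ (T G) ≤ _ := finrank_span_finset_le_card _
    rw [h2, finrank_top, Module.finrank_fintype_fun_eq_card] at h3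
    have h4 := (h3.trans Finset.card_image_le).trans (Finset.card_union_le _ _)
    have := Finset.card_add_card_compl S
    rw [Finset.card_map] at h4
    omega
  obtain ⟨γ, h2, h3⟩ := (dense_iInter_of_isOpen (f := fun G : {G : Finset (σ ⊕ ι) //
    G.card < Sᶜ.card} => (T G : Set (σ → ℝ))ᶜ)
    (fun G => (Submodule.closed_of_finiteDimensional _).isOpen_compl)
    fun G => h1 G G.2).inter_open_nonempty O hO hO'
  refine ⟨γ, h2, fun G hG m h4 h5 => Set.mem_iInter.1 h3 ⟨G, hG⟩ ?_⟩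
  have : γ = ∑ g, m g • (fun j => (nn u g j : ℝ)) +
      ∑ j ∈ S, γ j • fun j' => (nn u (Sum.inl j) j' : ℝ) := by
    ext j
    simp only [Pi.add_apply, Finset.sum_apply, Pi.smul_apply, smul_eq_mul, ← h5]
    by_cases hj : j ∈ S <;> simp [nn, cut, hj]
  rw [this]
  refine add_mem (sum_mem fun g _ => ?_) (sum_mem fun j hj => Submodule.smul_mem _ _
    (Submodule.subset_span (Finset.mem_image_of_mem _
      (Finset.mem_union_right _ (Finset.mem_map_of_mem _ hj)))))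
  by_cases hg : g ∈ G
  · exact Submodule.smul_mem _ _
      (Submodule.subset_span (Finset.mem_image_of_mem _ (Finset.mem_union_left _ hg)))
  · simp [h4 g hg]

theorem Geo.card_le (hG : Geo u V) {ω : σ → ℝ} (hω : Near u 0 G ω)
    (h : ∀ g ∈ G, g ∈ V ∧ ∀ j ∈ S, nn u g j = 0) : G.card ≤ Sᶜ.card := by
  have : LinearIndependent ℝ fun (g : G) (j : (Sᶜ : Finset σ)) => (nn u g j : ℝ) := by
    refine Fintype.linearIndependent_iff.2 fun c hc g => ?_
    have := congrFun (hG.s2 ω hω.nonneg (fun g => if h : g ∈ G then c ⟨g, h⟩ else 0)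
      (fun g hg => by
        by_cases h' : g ∈ G
        · exact ⟨(h g h').1, hω.eq_zero h'⟩
        · simp [h'] at hg) fun j => by
      rw [← Finset.sum_subset (Finset.subset_univ G) fun g _ hg => by simp [hg],
        ← Finset.sum_coe_sort]
      by_cases hj : j ∈ S
      · exact Finset.sum_eq_zero fun g _ => by simp [(h g g.2).2 j hj]
      · simpa using congrFun hc ⟨j, Finset.mem_compl.2 hj⟩) g
    simpa using this
  simpa [Finset.card_compl] using this.fintype_card_le_finrank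

theorem Geo.exists_vx (hG : Geo u V) (hg : Gen u γ S) (h1 : ∀ j ∈ S, γ j = 0)
    (h2 : ∀ j ∉ S, (∀ g ∈ Y₀, nn u g j = 0) → 0 < γ j) {Y : Finset (σ ⊕ ι)} (h3 : Y₀ ⊆ Y)
    (h4 : ∀ g ∈ Y, g ∈ V ∧ ∀ j ∈ S, nn u g j = 0) (h5 : Face u Y) :
    ∃ G m, Vx u V γ Y₀ S G m ∧ Y ⊆ G ∧ ∀ g ∈ G, g ∉ Y → 0 < m g := by
  have hpos : ∀ {ω}, (∀ g, 0 ≤ zr u g ω) → ∀ j, 0 ≤ ω j := fun h j => by
    simpa only [zr_inl] using h (Sum.inl j)
  have hle : ∀ {ω : σ → ℝ}, (∀ j, 0 ≤ ω j) → ∀ g j, nn u g j ≠ 0 → ω j ≤ zr u g ω + 1 := by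
    intro ω h g j hj
    have e1 : (1 : ℝ) ≤ nn u g j := by exact_mod_cast Nat.one_le_iff_ne_zero.2 hj
    have e2 := Finset.single_le_sum (f := fun j => (nn u g j : ℝ) * ω j)
      (fun j _ => mul_nonneg (Nat.cast_nonneg _) (h j)) (Finset.mem_univ j)
    rw [← lin_apply] at e2
    have := h j
    rcases g with g | g <;> simp only [zr, Sum.elim_inl, Sum.elim_inr] <;> nlinarith
  obtain ⟨ω₁, h6, h7⟩ : ∃ ω, Near u 0 Y ω ∧ ∀ j ∈ S, ω j = 2 := by
    obtain ⟨ω, hω⟩ := h5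
    have e : ∀ g, (∀ j ∈ S, nn u g j = 0) →
        zr u g (fun j => if j ∈ S then 2 else ω j) = zr u g ω := fun g h => by
      rw [zr, zr, ← lin_cut h, ← lin_cut h ω]
      congr 2
      ext j
      by_cases hj : j ∈ S <;> simp [cut, hj]
    refine ⟨fun j => if j ∈ S then 2 else ω j, near_of (hG.nonneg fun g _ => ?_)
      fun g hg => (e g (h4 g hg).2).trans (hω.eq_zero hg), fun j hj => if_pos hj⟩
    by_cases h : ∀ j ∈ S, nn u g j = 0
    · exact e g h ▸ hω.nonneg g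
    · push Not at h
      obtain ⟨j, hj, h⟩ := h
      have := hle (ω := fun j => if j ∈ S then 2 else ω j) (fun j => by
        split_ifs
        exacts [zero_le_two, hpos hω.nonneg j]) g j h
      rw [if_pos hj] at this
      linarith
  let c := ∑ j, γ j * ω₁ j
  have hK : IsCompact {ω | (Near u 0 Y ω ∧ ∀ j ∈ S, ω j = 2) ∧ ∑ j, γ j * ω j ≤ c} := by
    refine (isCompact_Icc (a := 0) (b := fun j => 2 + |(c + ∑ j, |γ j|) / γ j|)).of_isClosed_subset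
      (((isClosed_near 0 Y).inter ?_).inter (isClosed_le (f := fun ω : σ → ℝ => ∑ j, γ j * ω j)
        (by fun_prop) continuous_const)) ?_
    · change IsClosed {ω : σ → ℝ | ∀ j ∈ S, ω j = 2}
      simp only [Set.ofPred_forall]
      exact isClosed_iInter fun j => isClosed_iInter fun _ =>
        isClosed_eq (continuous_apply j) continuous_const
    rintro ω ⟨⟨e1, e2⟩, e3⟩
    have e4 := hpos e1.nonneg
    have e5 : ∀ j, 0 < γ j ∨ j ∈ S ∨ ω j ≤ 1 := fun j => by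
      by_contra h
      push Not at h
      refine h.1.not_gt (h2 j h.2.1 fun g hg => ?_)
      by_contra h'
      linarith [hle e4 g j h', e1.eq_zero (h3 hg)]
    refine ⟨e4, fun j => ?_⟩
    have e6 := abs_nonneg ((c + ∑ j, |γ j|) / γ j)
    rcases e5 j with h | h | h
    · have e7 := Finset.single_le_sum (f := fun j => γ j * ω j + |γ j|) (fun j _ => by
        rcases e5 j with h | h | h
        · have := mul_nonneg h.le (e4 j)
          positivity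
        · simp [h1 j h]
        · nlinarith [neg_abs_le (γ j), e4 j, abs_nonneg (γ j)]) (Finset.mem_univ j)
      rw [Finset.sum_add_distrib] at e7
      have : ω j ≤ (c + ∑ j, |γ j|) / γ j := (le_div_iff₀ h).2 (by linarith [abs_nonneg (γ j)])
      linarith [le_abs_self ((c + ∑ j, |γ j|) / γ j)]
    · linarith [e2 j h]
    · linarith
  obtain ⟨ω, ⟨⟨h8, h9⟩, h10⟩, h11⟩ := hK.exists_isMinOn ⟨ω₁, ⟨h6, h7⟩, le_rfl⟩
    (f := fun ω => ∑ j, γ j * ω j) (by fun_prop)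
  let T := V ∩ tight u ω
  have hT : ∀ g, g ∈ T ↔ g ∈ V ∧ zr u g ω = 0 := fun g => by simp [T, mem_tight]
  have hTS : ∀ g ∈ T, g ∈ V ∧ ∀ j ∈ S, nn u g j = 0 := fun g hg => ⟨((hT g).1 hg).1, fun j hj => by
    by_contra h
    linarith [hle (hpos h8.nonneg) g j h, h9 j hj, ((hT g).1 hg).2]⟩
  have hYT : Y ⊆ T := fun g hg => (hT g).2 ⟨(h4 g hg).1, h8.eq_zero hg⟩
  have kkt : ∀ d, (∀ g ∈ T, 0 ≤ lin u g d) → (∀ g ∈ Y, lin u g d = 0) → 0 ≤ ∑ j, γ j * d j := by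
    intro d e1 e2
    obtain ⟨s, e3, e4, -⟩ := hG.go h8.nonneg (d := cut S d) fun g hg hg' => by
      rw [lin_cut (hTS g ((hT g).2 ⟨hg, hg'⟩)).2]
      exact e1 g ((hT g).2 ⟨hg, hg'⟩)
    have e5 : ∑ j, γ j * (ω + s • cut S d) j = ∑ j, γ j * ω j + s * ∑ j, γ j * d j := by
      rw [Finset.mul_sum, ← Finset.sum_add_distrib]
      refine Finset.sum_congr rfl fun j _ => ?_
      by_cases hj : j ∈ S <;> simp [cut, hj, h1 j]
      ring
    by_contra e6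
    have e7 := mul_neg_of_pos_of_neg e3 (not_le.1 e6)
    have := h11 (a := ω + s • cut S d) ⟨⟨near_of e4 fun g hg => by
      simp [zr_add, lin_cut (h4 g hg).2, e2 g hg, h8.eq_zero hg], fun j hj => by
        simp [cut, hj, h9 j]⟩, by linarith⟩
    simp only [Set.mem_ofPred_eq] at this
    linarith
  have hN : Near u 0 T ω := ⟨h8.1, fun g hg => ((hT g).1 hg).2.le⟩
  obtain ⟨m, e1, e2⟩ := (exists_xi (fun g j => (nn u g j : ℝ)) T γ).resolve_left (by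
    rintro ⟨ξ, e1, e2⟩
    have e3 : ∀ g ∈ T, lin u g ξ = 0 := fun g hg => by simpa [lin_apply, mul_comm] using e1 g hg
    have e4 := kkt (-ξ) (fun g hg => by simp [e3 g hg]) fun g hg => by simp [e3 g (hYT hg)]
    have e5 := kkt ξ (fun g hg => (e3 g hg).ge) fun g hg => e3 g (hYT hg)
    simp only [Pi.neg_apply, neg_mul, Finset.sum_neg_distrib, mul_comm (γ _)] at e4 e5
    exact e2 (by linarith))
  have e3 : ∀ g ∈ T, m g ≠ 0 := fun g h h' => hg (T.erase g)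
    ((Finset.card_erase_lt_of_mem h).trans_le (hG.card_le hN hTS)) m (fun g' hg' => by
      by_cases e : g' = g
      · rw [e, h']
      · exact e1 g' fun h => hg' (Finset.mem_erase.2 ⟨e, h⟩)) e2
  refine ⟨T, m, ⟨h3.trans hYT, hTS, not_lt.1 fun h => hg T h m e1 e2, ⟨ω, hN⟩, e2, fun g =>
    ⟨fun h => by_contra fun h' => h (e1 g h'), e3 g⟩⟩, hYT, fun g h h' => (e3 g h).symm.lt_of_le ?_⟩
  obtain ⟨d, hd⟩ := hG.dual h8.nonneg (Pi.single g 1)
  replace hd := fun g hg => hd g ((hT g).1 hg).1 ((hT g).1 hg).2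
  have := kkt d (fun g' hg' => by rw [hd g' hg', Pi.single_apply]; positivity) fun g' hg' => by
    rw [hd g' (hYT hg'), Pi.single_eq_of_ne (ne_of_mem_of_not_mem hg' h')]
  rwa [sum_rep e2, Finset.sum_eq_single g (fun g' _ e => by
    by_cases h : g' ∈ T
    · simp [hd g' h, e]
    · simp [e1 g' h]) (by simp), hd g h, Pi.single_eq_same, mul_one] at this

variable (u V) in
/-- `p + ρ` has coordinates `e` on a face that contains `Y₀` and avoids the variables in `S`. -/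
def Lv (ρ : σ ⊕ ι → ℝ) (Y₀ : Finset (σ ⊕ ι)) (S : Finset σ) (p : Pt σ) (e : σ ⊕ ι → ℝ) : Prop :=
  Rp u V ρ p e 0 ∧ ∃ ω, Near u 0 Y₀ ω ∧ ∀ g, e g ≠ 0 → zr u g ω = 0 ∧ ∀ j ∈ S, nn u g j = 0

theorem Geo.exists_gamma (hG : Geo u V) {G₁ : Finset (σ ⊕ ι)} (hY : ∀ g ∈ Y₀, ∀ j ∈ S, nn u g j = 0)
    (h₁ : ∀ g ∈ G₁, ∀ j, nn u g j ≠ 0 → ∃ g' ∈ Y₀, nn u g' j ≠ 0) :
    ∃ γ, Gen u γ S ∧ (∀ j ∈ S, γ j = 0) ∧ (∀ j ∉ S, (∀ g ∈ Y₀, nn u g j = 0) → 0 < γ j) ∧
      ∀ G m, Vx u V γ Y₀ S G m → G₁ ⊆ G → ∀ g ∈ G₁, m g < 0 := by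
  have : ∀ G g, Face u G → ∃ d, ∀ g' ∈ G, g' ∈ V → lin u g' d = (Pi.single g 1 : _ → ℝ) g' := by
    rintro G g ⟨ω, hω⟩
    exact (hG.dual hω.nonneg _).imp fun d hd g' h h' => hd g' h' (hω.eq_zero h)
  choose! d hd using this
  have hc : ∀ G g, Continuous fun γ : σ → ℝ => ∑ j, cut S γ j * d G g j := fun G g =>
    continuous_finsetSum _ fun j _ => Continuous.mul (by
      by_cases hj : j ∈ S <;> simp only [cut, hj, if_true, if_false] <;> fun_prop) continuous_const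
  obtain ⟨γ, ⟨h2, h3⟩, h4⟩ := exists_gen (u := u) S (O := {γ | (∀ j, (∀ g ∈ Y₀, nn u g j = 0) →
    0 < γ j) ∧ ∀ G g, Face u G → G₁ ⊆ G → G ⊆ V → g ∈ G₁ → ∑ j, cut S γ j * d G g j < 0}) (by
      simp only [Set.ofPred_and, Set.ofPred_forall]
      exact (isOpen_iInter_of_finite fun j => isOpen_iInter_of_finite fun _ =>
        isOpen_lt continuous_const (continuous_apply j)).inter
        (isOpen_iInter_of_finite fun G => isOpen_iInter_of_finite fun g =>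
          isOpen_iInter_of_finite fun _ => isOpen_iInter_of_finite fun _ =>
            isOpen_iInter_of_finite fun _ => isOpen_iInter_of_finite fun _ =>
              isOpen_lt (hc G g) continuous_const)) (by
      let γ₀ : σ → ℝ := fun j => -∑ g ∈ G₁, (nn u g j : ℝ)
      have e : ∀ j, (∀ g ∈ Y₀, nn u g j = 0) → γ₀ j = 0 := fun j h =>
        neg_eq_zero.2 (Finset.sum_eq_zero fun g hg => by
          by_contra h'
          obtain ⟨g', h1, h2⟩ := h₁ g hg j (by simpa using h')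
          exact h2 (h g' h1))
      have : ∀ G g, ∀ᶠ ε in 𝓝 (0 : ℝ), Face u G → G₁ ⊆ G → G ⊆ V → g ∈ G₁ →
          ∑ j, cut S (fun j => γ₀ j + ε) j * d G g j < 0 := fun G g => by
        simp only [eventually_imp_distrib_left]
        intro h1 h2 h3 h4
        refine ContinuousAt.eventually_lt ((hc G g).comp (by fun_prop)).continuousAt
          continuousAt_const ?_
        have : ∀ j, cut S (fun j => γ₀ j + 0) j = γ₀ j := fun j => by
          by_cases hj : j ∈ S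
          · simp [cut, hj, e j fun g hg => hY g hg j hj]
          · simp [cut, hj]
        simp only [this, γ₀, neg_mul, Finset.sum_neg_distrib, Finset.sum_mul]
        rw [Finset.sum_comm, Finset.sum_congr rfl fun g' hg' =>
          (lin_apply u g' _).symm.trans (hd G g h1 g' (h2 hg') (h3 (h2 hg')))]
        simp [h4]
      obtain ⟨ε, h1, h2⟩ := (((eventually_all.2 fun G => eventually_all.2 (this G)).filter_mono
        (nhdsWithin_le_nhds (s := Set.Ioi 0))).and self_mem_nhdsWithin).exists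
      exact ⟨_, fun j h => by simpa [e j h] using h2, h1⟩)
  refine ⟨cut S γ, h4, fun j hj => if_pos hj, fun j hj h => by simpa [cut, hj] using h2 j h,
    fun G m h h5 g hg => ?_⟩
  have := h3 G g h.face h5 (fun g hg => (h.vs g hg).1) hg
  rwa [sum_rep h.rep, Finset.sum_eq_single g (fun g' _ e => by
    by_cases h' : g' ∈ G
    · simp [hd G g h.face g' h' (h.vs g' h').1, e]
    · simp [not_not.1 (mt (h.supp g').1 h')]) (by simp),
    hd G g h.face g (h5 hg) (h.vs g (h5 hg)).1, Pi.single_eq_same, mul_one] at this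

theorem Geo.shell (hG : Geo u V) (hN : ND u a) {G₁ : Finset (σ ⊕ ι)} (b : Prop)
    (hY : ∀ g ∈ Y₀, g ∈ V ∧ ∀ j ∈ S, nn u g j = 0)
    (h₁ : ∀ g ∈ G₁, g ∉ Y₀ ∧ ∀ j, nn u g j ≠ 0 → ∃ g' ∈ Y₀, nn u g' j ≠ 0) {ρ : σ ⊕ ι → ℝ}
    {A B : Set (Pt σ)} (hA : KC u V A) (hB : KC u V B) (hBA : B ⊆ A) {d₀ : ℤ}
    (h0 : ∀ p ∈ A, d₀ ≤ deg p)
    (h1 : ∀ p ∈ A, p ∉ B → ∃ e, Lv u V ρ Y₀ S p e ∧ (b ∨ ∃ g ∈ G₁, e g = 0))
    (h2 : ∀ p e, Lv u V ρ Y₀ S p e → (b ∨ ∃ g ∈ G₁, e g = 0) → p ∈ A ∧ p ∉ B) :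
    Reg (fun l => LinearMap.mulLeft k (Fl u a l)) Sᶜ (sp k A) (sp k B) := by
  classical
  obtain ⟨γ, g1, g2, g3, g4⟩ := hG.exists_gamma (fun g hg => (hY g hg).2) fun g hg => (h₁ g hg).2
  let W := Finset.univ.filter fun G => (∃ m, Vx u V γ Y₀ S G m) ∧ (b ∨ ¬G₁ ⊆ G)
  have : ∀ G ∈ W, ∃ m, Vx u V γ Y₀ S G m := fun G h => (Finset.mem_filter.1 h).2.1
  choose! mm hm using this
  let R := fun G : Finset (σ ⊕ ι) => G.filter fun g => g ∉ Y₀ ∧ mm G g < 0
  let Pc := fun G p => ∃ e, Rp u G ρ p e 0 ∧ ∀ g ∈ R G, e g ≠ 0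
  let φ := fun G => ∑ i, mm G (Sum.inr i)
  have hV : ∀ G ∈ W, G ⊆ V := fun G h g hg => ((hm G h).vs g hg).1
  have F1 : ∀ G ∈ W, ∀ p, Pc G p → p ∈ A ∧ p ∉ B := by
    rintro G h p ⟨e, h3, -⟩
    obtain ⟨ω, hω⟩ := (hm G h).face
    refine h2 p e ⟨h3.mono (hV G h), ω, hω.mono le_rfl (hm G h).sub, fun g hg =>
      ⟨hω.eq_zero (h3.1.mem hg), ((hm G h).vs g (h3.1.mem hg)).2⟩⟩
      ((Finset.mem_filter.1 h).2.2.imp_right fun h => ?_)
    exact (Finset.not_subset.1 h).imp fun g hg => ⟨hg.1, h3.1.2 g hg.2⟩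
  have F2 : ∀ p ∈ A, p ∉ B → ∃ G ∈ W, Pc G p := by
    intro p hp hp'
    obtain ⟨e, ⟨h3, ω, h4, h5⟩, h6⟩ := h1 p hp hp'
    have hY' : ∀ g, g ∈ Y₀ ∪ Finset.univ.filter (e · ≠ 0) ↔ g ∈ Y₀ ∨ e g ≠ 0 := by simp
    obtain ⟨G, m, h7, h8, h9⟩ := hG.exists_vx g1 g2 g3 Finset.subset_union_left
      (fun g hg => ((hY' g).1 hg).elim (hY g) fun h => ⟨h3.1.mem h, (h5 g h).2⟩)
      ⟨ω, near_of h4.nonneg fun g hg => ((hY' g).1 hg).elim h4.eq_zero fun h => (h5 g h).1⟩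
    have h10 : G ∈ W := Finset.mem_filter.2 ⟨Finset.mem_univ _, ⟨m, h7⟩, h6.imp_right
      fun ⟨g, h, h'⟩ h'' => (g4 G m h7 h'' g h).not_gt (h9 g (h'' h) (by simp [h', (h₁ g h).1]))⟩
    obtain ⟨ω', hω'⟩ := h7.face
    obtain rfl := h7.eq hG (hm G h10) hω' hω'
    refine ⟨G, h10, e, ⟨⟨h3.1.1, fun g hg => by_contra fun h => hg (h8 ((hY' g).2 (Or.inr h)))⟩,
      h3.2⟩, fun g hg h => ?_⟩
    obtain ⟨h11, h12, h13⟩ := Finset.mem_filter.1 hg
    exact h13.not_gt (h9 g h11 (by simp [h, h12]))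
  have F3 : ∀ G ∈ W, ∀ G' ∈ W, ∀ p, ∀ z ∈ Amb u V 0, Pc G p → Pc G' (p + z) →
      φ G < φ G' ∨ G = G' := by
    rintro G h G' h' p z ⟨ζ, ν, hz⟩ ⟨e, h3, h4⟩ ⟨e', h5, -⟩
    obtain ⟨ω, hω⟩ := (hm G' h').face
    refine (hm G h).lt hG (hm G' h') fun g hg hg' => by_contra fun h6 => hg' (h5.1.mem ?_)
    rw [(hG.rigid' (h3.mono (hV G h)) hz (h5.mono (hV G' h')) hω.nonneg
      fun g hg => hω.eq_zero (h5.1.mem hg)).1, ne_zero_add h3.1.1 hz.1.1]
    exact Or.inl (h4 g (Finset.mem_filter.2 ⟨hg, fun h => hg' ((hm G' h').sub h),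
      (((hm G h).supp g).2 hg).lt_of_le (not_lt.1 h6)⟩))
  let Up := fun U : Finset (Finset (σ ⊕ ι)) => U ⊆ W ∧ ∀ G ∈ U, ∀ G' ∈ W, φ G < φ G' → G' ∈ U
  have F4 : ∀ U, Up U → KC u V (B ∪ {p | ∃ G ∈ U, Pc G p}) := by
    rintro U hU p (hp | ⟨G, h, hp⟩) z hz
    · exact Or.inl (hB p hp z hz)
    · refine or_iff_not_imp_left.2 fun h3 => ?_
      obtain ⟨G', h4, h5⟩ := F2 _ (hA p (F1 G (hU.1 h) p hp).1 z hz) h3
      exact ⟨G', (F3 G (hU.1 h) G' h4 p z hz hp h5).elim (hU.2 G h G' h4) (· ▸ h), h5⟩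
  have hS : ∀ {A}, KC u V A → Stab (fun l => LinearMap.mulLeft k (Fl u a l)) (sp k A) :=
    fun h l => (hG.closed h).fx a _ _
  have key : ∀ U, Up U → Reg (fun l => LinearMap.mulLeft k (Fl u a l)) Sᶜ
      (sp k (B ∪ {p | ∃ G ∈ U, Pc G p})) (sp k B) := by
    intro U
    induction U using Finset.induction_on_min_value φ with
    | empty => exact fun _ => by simpa using reg_self
    | insert G U h3 h4 ih =>
      intro hU
      have h5 := Finset.insert_subset_iff.1 hU.1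
      have hU' : Up U := ⟨h5.2, fun G' h G'' h' h'' => (Finset.mem_insert.1 (hU.2 G'
        (Finset.mem_insert_of_mem h) G'' h' h'')).resolve_left fun e => (h4 G' h).not_gt (e ▸ h'')⟩
      refine Reg.trans (fun _ _ => LinearMap.ext fun _ => mul_left_comm _ _ _) (hS (F4 _ hU))
        (hS (F4 _ hU')) (sp_mono Set.subset_union_left) (sp_mono (Set.union_subset_union_right _
          fun p ⟨G, h, h'⟩ => ⟨G, Finset.mem_insert_of_mem h, h'⟩))
        (hG.reg_piece hN (hV G h5.1) (hm G h5.1).face (fun l hl g hg => ((hm G h5.1).vs g hg).2 l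
          (by simpa using hl)) (hm G h5.1).card (R := R G) (ρ := ρ) (F4 _ hU) (F4 _ hU') (d₀ := d₀)
          ?_ ?_ fun p e h6 h7 => ⟨Or.inr ⟨G, Finset.mem_insert_self _ _, e, h6, h7⟩, ?_⟩) (ih hU')
      · rintro p (hp | ⟨G', h, hp⟩)
        exacts [h0 p (hBA hp), h0 p (F1 G' (hU.1 h) p hp).1]
      · rintro p (hp | ⟨G', h, hp⟩) hp'
        · exact absurd (Or.inl hp) hp'
        · obtain rfl := (Finset.mem_insert.1 h).resolve_right fun h => hp' (Or.inr ⟨G', h, hp⟩)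
          exact hp
      · rintro (hp | ⟨G', h, hp⟩)
        · exact (F1 G h5.1 p ⟨e, h6, h7⟩).2 hp
        · rcases F3 G' (h5.2 h) G h5.1 p 0 ⟨_, _, rp_zero⟩ hp ⟨e, by rwa [add_zero], h7⟩ with h8 | h8
          exacts [(h4 G' h).not_gt h8, h3 (h8 ▸ h)]
  convert key W ⟨subset_rfl, fun _ _ _ h _ => h⟩ using 2
  exact Set.ext fun p => ⟨fun hp => or_iff_not_imp_left.2 (F2 p hp),
    fun hp => hp.elim (@hBA p) fun ⟨G, h, hp⟩ => (F1 G h p hp).1⟩

end RA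

end

end Pool.Agent.P.MP_b91a16_ag
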