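import Pool.Agent.P.MP_b91a16_ag.Arcs

/-! The volume of one stratum of the contact locus. -/

set_option linter.unusedSectionVars false

open MvPolynomial

namespace Pool.Agent.P.MP_b91a16_ag

noncomputable section

variable {k : Type} [Field k] {σ ι : Type} [Fintype σ] [DecidableEq σ] [Fintype ι] [DecidableEq ι]
variable (u : ι → σ → ℕ) (a : ι → k)

/-- The hypersurface `f_I = d` in the torus of the variables occurring in `f_I`. -/
def TP (I : Finset ι) (d : k) : Pred k (σ × ℕ) := fun K _ _ y =>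
  (∀ j ∈ supp u I, y (j, 0) ≠ 0) ∧ aeval y (FF u a I) = algebraMap k K d

def lev0 : σ ↪ σ × ℕ := ⟨fun j => (j, 0), fun _ _ h => (Prod.mk.inj h).1⟩

theorem HasVol.and_units {P : Pred k (σ × ℕ)} {v : Mot k} (h : HasVol P v) (s : Finset σ)
    (hs : ∀ j ∈ s, ∀ (K : Type) [Field K] [Algebra k K] (x : σ × ℕ → K) (c : K),
      P K x → P K (Function.update x (j, 0) c)) :
    HasVol (fun K _ _ x => P K x ∧ ∀ j ∈ s, x (j, 0) ≠ 0) ((1 - Linv k) ^ s.card * v) := by
  have := h.and_forall_ne (s.map lev0) fun i hi => by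
    obtain ⟨j, hj, rfl⟩ := Finset.mem_map.1 hi
    exact hs j hj
  rw [Finset.card_map] at this
  exact this.congr fun K _ _ x => and_congr_right fun _ => Finset.forall_mem_map

theorem hasVol_units (s : Finset σ) :
    HasVol (k := k) (fun _ _ _ (x : σ × ℕ → _) => ∀ j ∈ s, x (j, 0) ≠ 0) ((1 - Linv k) ^ s.card) := by
  have := (hasVol_true (k := k) (ι := σ × ℕ)).and_units s fun _ _ _ _ _ _ _ h => h
  rw [mul_one] at this
  exact this.congr fun K _ _ x => by simp

theorem exists_hasVol_TP (I : Finset ι) (d : k) : ∃ v, HasVol (TP u a I d) v := by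
  obtain ⟨v, -, h, -, -⟩ := (hasVol_units (k := k) (supp u I)).split (FF u a I - C d)
  exact ⟨v, h.congr fun K _ _ x => by simp [TP, sub_eq_zero]⟩

def tvol (I : Finset ι) (d : k) : Mot k := (exists_hasVol_TP u a I d).choose

theorem hasVol_tvol (I : Finset ι) (d : k) : HasVol (TP u a I d) (tvol u a I d) :=
  (exists_hasVol_TP u a I d).choose_spec

theorem mem_supp {I : Finset ι} {j : σ} : j ∈ supp u I ↔ ∃ i ∈ I, u i j ≠ 0 := by
  simp [supp]

theorem aeval_FF {K : Type} [CommRing K] [Algebra k K] (I : Finset ι) (y : σ × ℕ → K) :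
    aeval y (FF u a I) = ∑ i ∈ I, algebraMap k K (a i) * ∏ j, y (j, 0) ^ u i j := by
  simp [FF]

theorem aeval_FF_congr {K : Type} [CommRing K] [Algebra k K] (I : Finset ι) {y y' : σ × ℕ → K}
    (h : ∀ j ∈ supp u I, y (j, 0) = y' (j, 0)) : aeval y (FF u a I) = aeval y' (FF u a I) := by
  rw [aeval_FF, aeval_FF]
  refine Finset.sum_congr rfl fun i hi => ?_
  congr 1
  refine Finset.prod_congr rfl fun j _ => ?_
  by_cases hj : u i j = 0
  · rw [hj, pow_zero, pow_zero]
  · rw [h j ((mem_supp u).2 ⟨i, hi, hj⟩)]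

theorem TP_congr {K : Type} [Field K] [Algebra k K] (I : Finset ι) (d : k) {y y' : σ × ℕ → K}
    (h : ∀ j ∈ supp u I, y (j, 0) = y' (j, 0)) (hy : TP u a I d K y) : TP u a I d K y' :=
  ⟨fun j hj => h j hj ▸ hy.1 j hj, aeval_FF_congr u a I h ▸ hy.2⟩

theorem TP_update {K : Type} [Field K] [Algebra k K] (I : Finset ι) (d : k) {y : σ × ℕ → K}
    {j : σ} (hj : j ∉ supp u I) (c : K) (hy : TP u a I d K y) :
    TP u a I d K (Function.update y (j, 0) c) :=
  TP_congr u a I d (fun j' hj' => by
    rw [Function.update_of_ne]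
    intro h
    exact hj ((Prod.mk.inj h).1 ▸ hj')) hy

theorem tvol_empty_one : tvol u a ∅ 1 = 0 :=
  (hasVol_tvol u a ∅ 1).unique (hasVol_false.congr fun K _ _ x => by simp [TP, FF])

theorem supp_empty : supp u (∅ : Finset ι) = ∅ := by simp [supp]

theorem tvol_empty_zero : tvol u a ∅ 0 = 1 :=
  (hasVol_tvol u a ∅ 0).unique (hasVol_true.congr fun K _ _ x => by simp [TP, FF, supp_empty])

/-- Removing a monomial that is linear in a variable absent from the others. -/
theorem tvol_insert (ha : ∀ i, a i ≠ 0) {I : Finset ι} {i : ι} (hi : i ∉ I) {j : σ}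
    (hij : u i j = 1) (hI : ∀ i' ∈ I, u i' j = 0) (d : k) :
    ∃ e, (supp u (insert i I)).card = (supp u I).card + 1 + e ∧
      tvol u a (insert i I) d = Linv k * (1 - Linv k) ^ ((supp u I).card + e) -
        Linv k * (1 - Linv k) ^ e * tvol u a I d := by
  have hjI : j ∉ supp u I := fun h => by
    obtain ⟨i', hi', h⟩ := (mem_supp u).1 h
    exact h (hI i' hi')
  have hj : j ∈ supp u (insert i I) :=
    (mem_supp u).2 ⟨i, Finset.mem_insert_self _ _, by rw [hij]; exact one_ne_zero⟩
  let S := (supp u (insert i I)).erase j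
  have hsub : supp u I ⊆ S := fun j' hj' => by
    obtain ⟨i', hi', h⟩ := (mem_supp u).1 hj'
    exact Finset.mem_erase.2 ⟨ne_of_mem_of_not_mem hj' hjI,
      (mem_supp u).2 ⟨i', Finset.mem_insert_of_mem hi', h⟩⟩
  have hS : S.card = (supp u I).card + (S \ supp u I).card := by
    rw [← Finset.card_sdiff_add_card_eq_card hsub, add_comm]
  refine ⟨(S \ supp u I).card, ?_, ?_⟩
  · rw [← Finset.card_erase_add_one hj]
    change S.card + 1 = _
    omega
  have hF : ∀ (K : Type) [Field K] [Algebra k K] (y : σ × ℕ → K),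
      aeval y (FF u a (insert i I)) = aeval y (FF u a I) + y (j, 0) *
        (algebraMap k K (a i) * ∏ j' ∈ Finset.univ.erase j, y (j', 0) ^ u i j') := by
    intro K _ _ y
    rw [aeval_FF, aeval_FF, Finset.sum_insert hi, ← Finset.mul_prod_erase _ _ (Finset.mem_univ j),
      hij]
    ring
  have hupd : ∀ (K : Type) [Field K] (y : σ × ℕ → K) (c : K) (j' : σ), j' ≠ j →
      Function.update y (j, 0) c (j', 0) = y (j', 0) := fun K _ y c j' hj' =>
    Function.update_of_ne (by simpa using hj') _ _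
  have h1 := (hasVol_units (k := k) S).elim (j, 0) (FF u a (insert i I) - C d)
    (fun K _ _ y c hy j' hj' => by rw [hupd K y c j' (Finset.ne_of_mem_erase hj')]; exact hy j' hj')
    (fun K _ _ y hy => by
      have hne : algebraMap k K (a i) * ∏ j' ∈ Finset.univ.erase j, y (j', 0) ^ u i j' ≠ 0 := by
        refine mul_ne_zero ((map_ne_zero _).2 (ha i)) (Finset.prod_ne_zero_iff.2 fun j' hj' => ?_)
        by_cases h : u i j' = 0
        · simp [h]
        · exact pow_ne_zero _ (hy j' (Finset.mem_erase.2 ⟨Finset.ne_of_mem_erase hj',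
            (mem_supp u).2 ⟨i, Finset.mem_insert_self _ _, h⟩⟩))
      have hval : ∀ c : K, aeval (Function.update y (j, 0) c) (FF u a (insert i I) - C d) =
          aeval y (FF u a I) + c * (algebraMap k K (a i) *
            ∏ j' ∈ Finset.univ.erase j, y (j', 0) ^ u i j') - algebraMap k K d := by
        intro c
        rw [map_sub, aeval_C, hF, Function.update_self,
          aeval_FF_congr u a I (y' := y) fun j' hj' => hupd K y c j' (ne_of_mem_of_not_mem hj' hjI),
          Finset.prod_congr rfl fun j' hj' => by rw [hupd K y c j' (Finset.ne_of_mem_erase hj')]]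
      generalize algebraMap k K (a i) * ∏ j' ∈ Finset.univ.erase j, y (j', 0) ^ u i j' = M
        at hne hval
      refine ⟨(algebraMap k K d - aeval y (FF u a I)) / M, ?_, fun c hc => ?_⟩
      · beta_reduce
        rw [hval]
        field_simp
        ring
      · beta_reduce at hc
        rw [hval] at hc
        field_simp
        linear_combination hc)
  obtain ⟨v₁, v₂, h₂, h₃, e⟩ := h1.split (X (j, 0))
  have e₂ : v₂ = tvol u a (insert i I) d := by
    refine (h₃.congr fun K _ _ y => ?_).unique (hasVol_tvol u a _ d)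
    simp only [TP, map_sub, aeval_C, sub_eq_zero, aeval_X]
    constructor
    · rintro ⟨⟨h1, h2⟩, h3⟩
      refine ⟨fun j' hj' => ?_, h2⟩
      by_cases h : j' = j
      · rwa [h]
      · exact h1 j' (Finset.mem_erase.2 ⟨h, hj'⟩)
    · rintro ⟨h1, h2⟩
      exact ⟨⟨fun j' hj' => h1 j' (Finset.mem_of_mem_erase hj'), h2⟩, h1 j hj⟩
  have h4 := ((hasVol_tvol u a I d).and_units (S \ supp u I) fun j' hj' K _ _ y c hy =>
    TP_update u a I d (Finset.mem_sdiff.1 hj').2 c hy).and_zero (j, 0) fun K _ _ y c hy =>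
      ⟨TP_update u a I d hjI c hy.1, fun j' hj' => by
        rw [hupd K y c j' (Finset.ne_of_mem_erase (Finset.mem_sdiff.1 hj').1)]
        exact hy.2 j' hj'⟩
  have e₁ : v₁ = Linv k * ((1 - Linv k) ^ (S \ supp u I).card * tvol u a I d) := by
    refine (h₂.congr fun K _ _ y => ?_).unique h4
    simp only [TP, map_sub, aeval_C, sub_eq_zero, aeval_X]
    refine and_congr_left fun h0 => ?_
    rw [hF, h0, zero_mul, add_zero]
    constructor
    · rintro ⟨h1, h2⟩
      exact ⟨⟨fun j' hj' => h1 j' (hsub hj'), h2⟩, fun j' hj' => h1 j' (Finset.mem_sdiff.1 hj').1⟩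
    · rintro ⟨⟨h1, h2⟩, h3⟩
      refine ⟨fun j' hj' => ?_, h2⟩
      by_cases h : j' ∈ supp u I
      · exact h1 j' h
      · exact h3 j' (Finset.mem_sdiff.2 ⟨hj', h⟩)
  rw [← hS, ← e₂]
  linear_combination -e - e₁

/-- Arcs whose leading coefficients in `J` are nonzero and on which the twisted polynomial is
congruent to `t^m`. -/
def YP (e : ι → ℕ) (J : Finset σ) (m : ℕ) : Pred k (σ × ℕ) := fun _ _ _ y =>
  (∀ j ∈ J, y (j, 0) ≠ 0) ∧
    ∀ p ≤ m, PowerSeries.coeff p (GG u a e (ser y)) = if p = m then 1 else 0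

theorem hasVol_YP_of_lt (e : ι → ℕ) (J : Finset σ) (m : ℕ) (h : ∀ i, m < e i) :
    HasVol (YP u a e J m) 0 := by
  refine hasVol_false.congr fun K _ _ y => ⟨False.elim, fun hy => ?_⟩
  have h1 := hy.2 m le_rfl
  rw [coeff_GG_of_le u a e (m + 1) h y m (Nat.le_succ m), if_neg (by omega), if_pos rfl] at h1
  exact zero_ne_one h1

theorem aeval_DD_update {K : Type} [CommRing K] [Algebra k K] (I : Finset ι) (y : σ × ℕ → K)
    (j j' : σ) (l : ℕ) (t : K) :
    aeval (Function.update y (j, l + 1) t) (DD u a I j') = aeval y (DD u a I j') := by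
  simp [DD]

/-- The face polynomial has no singular point in the torus. -/
def NDI (I : Finset ι) : Prop := ∀ (K : Type) [Field K] [Algebra k K] (y : σ × ℕ → K),
  (∀ j ∈ supp u I, y (j, 0) ≠ 0) → aeval y (FF u a I) = 0 → ∃ j ∈ supp u I, aeval y (DD u a I j) ≠ 0

theorem hasVol_levels (e : ι → ℕ) (N : ℕ)
    (hN : ∀ i, N ≤ e i) (hI : NDI u a (Finset.univ.filter fun i => e i = N)) (J : Finset σ)
    (hJ : supp u (Finset.univ.filter fun i => e i = N) ⊆ J) (dp : ℕ → k) (l : ℕ)
    (h0 : 0 < l → dp N = 0) :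
    HasVol (k := k) (fun K _ _ (y : σ × ℕ → K) => (∀ j ∈ J, y (j, 0) ≠ 0) ∧ ∀ p, N ≤ p → p ≤ N + l →
      PowerSeries.coeff p (GG u a e (ser y)) = algebraMap k K (dp p))
      (Linv k ^ l * ((1 - Linv k) ^ (J \ supp u (Finset.univ.filter fun i => e i = N)).card *
        tvol u a (Finset.univ.filter fun i => e i = N) (dp N))) := by
  set I := Finset.univ.filter fun i => e i = N with hIdef
  induction l with
  | zero =>
    rw [pow_zero, one_mul]
    refine ((hasVol_tvol u a I (dp N)).and_units (J \ supp u I) fun j hj K _ _ y c hy =>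
      TP_update u a I _ (Finset.mem_sdiff.1 hj).2 c hy).congr fun K _ _ y => ?_
    have h1 := coeff_GG_of_le u a e N hN y N le_rfl
    rw [if_pos rfl] at h1
    constructor
    · rintro ⟨⟨h2, h3⟩, h4⟩
      refine ⟨fun j hj => ?_, fun p hp hp' => ?_⟩
      · by_cases h : j ∈ supp u I
        · exact h2 j h
        · exact h4 j (Finset.mem_sdiff.2 ⟨hj, h⟩)
      · rw [show p = N by omega, h1, h3]
    · rintro ⟨h2, h3⟩
      exact ⟨⟨fun j hj => h2 j (hJ hj), by rw [← h1, h3 N le_rfl le_rfl]⟩,
        fun j hj => h2 j (Finset.mem_sdiff.1 hj).1⟩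
  | succ l ih =>
    have hN0 : dp N = 0 := h0 (Nat.succ_pos l)
    have := HasVol.elim_multi (supp u I) (fun j => (j, l + 1))
      (EE u a e (N + (l + 1)) - C (dp (N + (l + 1)))) (DD u a I)
      (fun K _ _ y t j _ j' _ => aeval_DD_update u a I y j j' l t)
      (fun K _ _ y t j _ => by
        rw [map_sub, map_sub, aeval_EE, aeval_EE, aeval_C, aeval_C,
          coeff_GG_update u a e N hN y j (l + 1) (Nat.succ_pos l) t _ le_rfl, if_pos rfl]
        ring)
      (ih fun _ => hN0)
      (fun K _ _ y t j _ hy => ⟨fun j' hj' => by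
          rw [Function.update_of_ne (by simp)]; exact hy.1 j' hj', fun p hp hp' => by
        rw [coeff_GG_update u a e N hN y j (l + 1) (Nat.succ_pos l) t p (by omega),
          if_neg (by omega), add_zero, hy.2 p hp hp']⟩)
      (fun K _ _ y hy => hI K y (fun j hj => hy.1 j (hJ hj)) (by
        have h1 := coeff_GG_of_le u a e N hN y N le_rfl
        rw [if_pos rfl, hy.2 N le_rfl (by omega), hN0, map_zero] at h1
        exact h1.symm))
    rw [pow_succ', mul_assoc]
    refine this.congr fun K _ _ y => ?_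
    rw [map_sub, aeval_EE, aeval_C, sub_eq_zero, and_assoc]
    refine and_congr_right fun _ => ⟨fun ⟨h1, h2⟩ p hp hp' => ?_, fun h =>
      ⟨fun p hp hp' => h p hp (by omega), h _ (by omega) le_rfl⟩⟩
    by_cases h : p = N + (l + 1)
    · rw [h, h2]
    · exact h1 p hp (by omega)

theorem hasVol_YP (e : ι → ℕ) (N m : ℕ)
    (hNm : N ≤ m) (hN : ∀ i, N ≤ e i) (hI : NDI u a (Finset.univ.filter fun i => e i = N))
    (J : Finset σ) (hJ : supp u (Finset.univ.filter fun i => e i = N) ⊆ J) :
    HasVol (YP u a e J m)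
      (Linv k ^ (m - N) * ((1 - Linv k) ^ (J \ supp u (Finset.univ.filter fun i => e i = N)).card *
        tvol u a (Finset.univ.filter fun i => e i = N) (if N = m then 1 else 0))) := by
  refine (hasVol_levels u a e N hN hI J hJ (fun p => if p = m then 1 else 0) (m - N)
    fun h => if_neg (by omega)).congr fun K _ _ y => and_congr_right fun _ => ?_
  constructor
  · intro h p hp
    by_cases hp' : N ≤ p
    · rw [h p hp' (by omega)]
      split_ifs <;> simp
    · rw [coeff_GG_of_le u a e N hN y p (by omega), if_neg (by omega), if_neg (by omega)]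
  · intro h p _ hp
    rw [h p (by omega)]
    split_ifs <;> simp

/-- The normalised exponential sum attached to a face. -/
def pp (I : Finset ι) (d : k) : Mot k :=
  tvol u a I d - Linv k * (1 - Linv k) ^ (supp u I).card

theorem pp_insert (ha : ∀ i, a i ≠ 0) {I : Finset ι} {i : ι} (hi : i ∉ I) {j : σ}
    (hij : u i j = 1) (hI : ∀ i' ∈ I, u i' j = 0) :
    ∃ e, (supp u (insert i I)).card = (supp u I).card + 1 + e ∧
      ∀ d, pp u a (insert i I) d = -Linv k * (1 - Linv k) ^ e * pp u a I d := by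
  obtain ⟨e, he, -⟩ := tvol_insert u a ha hi hij hI 0
  refine ⟨e, he, fun d => ?_⟩
  obtain ⟨e', he', h⟩ := tvol_insert u a ha hi hij hI d
  obtain rfl : e' = e := by omega
  rw [pp, pp, h, he]
  ring

theorem geom_aux (x : Mot k) (m : ℕ) : ∀ N ≤ m,
    ∑ M ∈ Finset.range N, x ^ (m - M) * (1 - x) = x ^ (m - N + 1) - x ^ (m + 1) := by
  intro N
  induction N with
  | zero => simp
  | succ N ih =>
    intro h
    rw [Finset.sum_range_succ, ih (by omega), show m - N = m - (N + 1) + 1 by omega]
    ring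

/-- The volume of a stratum in terms of exponential sums. -/
theorem hasVol_YP' (e : ι → ℕ) (hu : ∀ i₀, (∀ i, e i₀ ≤ e i) →
    NDI u a (Finset.univ.filter fun i => e i = e i₀)) (m : ℕ)
    (J : Finset σ) (hJ : ∀ i, e i ≤ m → ∀ j, u i j ≠ 0 → j ∈ J) :
    HasVol (YP u a e J m) ((1 - Linv k) ^ J.card * Linv k ^ (m + 1) +
      ∑ N ∈ Finset.range (m + 1), if ∀ i, N ≤ e i then Linv k ^ (m - N) *
        ((1 - Linv k) ^ (J \ supp u (Finset.univ.filter fun i => e i = N)).card *
          pp u a (Finset.univ.filter fun i => e i = N) (if N = m then 1 else 0)) else 0) := by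
  have hempty : ∀ N, (∀ i, N < e i) → (Finset.univ.filter fun i => e i = N) = ∅ := fun N h =>
    Finset.filter_eq_empty_iff.2 fun i _ => (h i).ne'
  have hlow : ∀ N, N < m → (∀ i, N < e i) → (if ∀ i, N ≤ e i then Linv k ^ (m - N) *
      ((1 - Linv k) ^ (J \ supp u (Finset.univ.filter fun i => e i = N)).card *
        pp u a (Finset.univ.filter fun i => e i = N) (if N = m then 1 else 0)) else 0) =
      (1 - Linv k) ^ J.card * (Linv k ^ (m - N) * (1 - Linv k)) := by
    intro N hN h
    rw [if_pos fun i => (h i).le, hempty N h, if_neg hN.ne, pp, tvol_empty_zero, supp_empty]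
    simp only [Finset.sdiff_empty, Finset.card_empty, pow_zero]
    ring
  by_cases h : ∀ i, m < e i
  · convert hasVol_YP_of_lt u a e J m h using 1
    rw [Finset.sum_range_succ, Finset.sum_congr rfl fun N hN =>
      hlow N (Finset.mem_range.1 hN) fun i => (Finset.mem_range.1 hN).trans (h i),
      ← Finset.mul_sum, geom_aux _ m m le_rfl, if_pos fun i => (h i).le, hempty m h, if_pos rfl, pp,
      tvol_empty_one, supp_empty]
    simp only [Finset.sdiff_empty, Finset.card_empty, pow_zero, Nat.sub_self]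
    ring
  · push Not at h
    obtain ⟨i₁, hi₁⟩ := h
    obtain ⟨i₀, -, hi₀⟩ := Finset.exists_min_image Finset.univ e ⟨i₁, Finset.mem_univ _⟩
    have hN : ∀ i, e i₀ ≤ e i := fun i => hi₀ i (Finset.mem_univ i)
    have hNm : e i₀ ≤ m := (hN i₁).trans hi₁
    have hsub : supp u (Finset.univ.filter fun i => e i = e i₀) ⊆ J := fun j hj => by
      obtain ⟨i, hi, h⟩ := (mem_supp u).1 hj
      exact hJ i ((Finset.mem_filter.1 hi).2 ▸ hNm) j h
    convert hasVol_YP u a e (e i₀) m hNm hN (hu i₀ hN) J hsub using 1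
    rw [← Finset.sum_subset (s₁ := Finset.range (e i₀ + 1))
      (Finset.range_subset_range.2 (by omega)) fun N _ hN' => if_neg fun h' => by
        have := h' i₀
        rw [Finset.mem_range] at hN'
        omega]
    rw [Finset.sum_range_succ, Finset.sum_congr rfl fun N hN' =>
      hlow N (by rw [Finset.mem_range] at hN'; omega)
        fun i => (Finset.mem_range.1 hN').trans_le (hN i),
      ← Finset.mul_sum, geom_aux _ m _ hNm, if_pos hN, pp,
      ← Finset.card_sdiff_add_card_eq_card hsub]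
    ring

end

end Pool.Agent.P.MP_b91a16_ag
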