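import Pool.Agent.P.MP_b91a16_ag.Shell

/-! The modules attached to a critical face. -/

set_option linter.unusedSectionVars false

open Filter Topology

namespace Pool.Agent.P.MP_b91a16_ag

noncomputable section

namespace RA

variable {k σ ι : Type} [Field k] [CharZero k] [Fintype σ] [DecidableEq σ] [Fintype ι]
  [DecidableEq ι]
variable {u : ι → σ → ℕ} {a : ι → k} {V Y : Finset (σ ⊕ ι)} {S : Finset σ}
  {ρ e e' ζ : σ ⊕ ι → ℝ} {ν ν' : σ → ℝ} {p z : Pt σ}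

theorem Geo.lv_add (hG : Geo u V) (h : Rp u V ρ p e ν) (hz : Rp u V 0 z ζ ν')
    (h' : Lv u V ρ Y S (p + z) e') : Lv u V ρ Y S p e ∧ e' = e + ζ ∧ ν = 0 ∧ ν' = 0 := by
  obtain ⟨h1, ω, h2, h3⟩ := h'
  obtain ⟨rfl, rfl, rfl⟩ := hG.rigid' h hz h1 h2.nonneg fun g hg => (h3 g hg).1
  exact ⟨⟨h, ω, h2, fun g hg => h3 g ((ne_zero_add h.1.1 hz.1.1).2 (Or.inl hg))⟩, rfl, rfl, rfl⟩

theorem Geo.lv_eq (hG : Geo u V) (h : Rp u V ρ p e ν) (h' : Lv u V ρ Y S p e') : e = e' ∧ ν = 0 :=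
  h'.2.elim fun _ h2 => hG.rigid h h'.1 h2.1.nonneg fun g hg => (h2.2 g hg).1

variable (u V ρ Y) in
/-- The points that are dead or whose coordinates satisfy `P`. -/
def Sub (P : (σ ⊕ ι → ℝ) → Prop) : Set (Pt σ) :=
  {p | p ∈ Amb u V ρ ∧ ∀ e, Lv u V ρ Y ∅ p e → P e}

variable {P P' : (σ ⊕ ι → ℝ) → Prop}

theorem Geo.kc_sub (hG : Geo u V) (hP : ∀ e ζ, (∀ g, 0 ≤ e g) → (∀ g, 0 ≤ ζ g) → P e → P (e + ζ)) :
    KC u V (Sub u V Y ρ P) := by
  rintro p ⟨⟨e, ν, h⟩, h1⟩ z ⟨ζ, ν', hz⟩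
  refine ⟨⟨_, _, h.add' hz⟩, fun e' h2 => ?_⟩
  obtain ⟨h3, rfl, -⟩ := hG.lv_add h hz h2
  exact hP _ _ h.1.1 hz.1.1 (h1 e h3)

theorem sub_mono (h : ∀ e, P e → P' e) : Sub u V Y ρ P ⊆ Sub u V Y ρ P' :=
  fun _ hp => ⟨hp.1, fun e he => h e (hp.2 e he)⟩

theorem Geo.mem_sub (hG : Geo u V) (h : Lv u V ρ Y ∅ p e) : p ∈ Sub u V Y ρ P ↔ P e :=
  ⟨fun h' => h'.2 e h, fun h' => ⟨⟨_, _, h.1⟩, fun _ he => (hG.lv_eq h.1 he).1 ▸ h'⟩⟩

theorem of_notMem_sub (h : p ∈ Sub u V Y ρ P) (h' : p ∉ Sub u V Y ρ P') :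
    ∃ e, Lv u V ρ Y ∅ p e ∧ P e ∧ ¬P' e := by
  by_contra h1
  exact h' ⟨h.1, fun e he => by_contra fun h2 => h1 ⟨e, he, h.2 e he, h2⟩⟩

def dgr : EV σ →ₗ[ℝ] ℝ where
  toFun x := x.1 none + ∑ j, x.2 j
  map_add' := fun p q => by simp [Finset.sum_add_distrib, add_add_add_comm]
  map_smul' := fun c p => by simp [Finset.mul_sum, mul_add]

theorem dgr_WW (e : σ ⊕ ι → ℝ) : dgr (WW u e) = ∑ g, e g := by
  simp [dgr, WW, hat, Fintype.sum_sum_type, add_comm]

theorem Rp.deg_eq (h : Rp u V ρ p e ν) : (deg p : ℝ) + ∑ g, ρ g = ∑ g, e g := by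
  have := congrArg dgr h.2.2
  rw [map_add, map_add, dgr_WW, dgr_WW] at this
  simpa [dgr, ev, rc, deg] using this

theorem deg_low : ∀ p ∈ Amb u V ρ, -⌈∑ g, ρ g⌉ ≤ deg p := by
  rintro p ⟨e, ν, h⟩
  have := Finset.sum_nonneg (s := Finset.univ) fun g _ => h.1.1 g
  have h2 : (-⌈∑ g, ρ g⌉ : ℝ) ≤ deg p := by linarith [h.deg_eq, Int.le_ceil (∑ g, ρ g)]
  exact_mod_cast h2

theorem Rp.snd (h : Rp u V ρ p e ν) (j : σ) : p.2 j + ρ (Sum.inl j) = e (Sum.inl j) := by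
  simpa [rc, WW, ev] using congrFun (congrArg Prod.snd h.2.2) j

theorem Rp.tt_eq (h : Rp u V ρ p e ν) (j : σ) : (p.1 (some j) + p.2 j : ℤ) + ∑ g, ρ g * nn u g j =
    ∑ g, e g * nn u g j + ν j := by
  have := congrArg (tt j) h.2.2
  rw [map_add, map_add, tt_WW, tt_WW, tt_ev] at this
  simpa [tt, rc] using this

theorem Rp.nn_eq (g : σ ⊕ ι) (h : Rp u V 0 (sh u g) e ν) (j : σ) :
    (nn u g j : ℝ) = ∑ g, e g * nn u g j + ν j := by
  have := congrArg (tt j) h.2.2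
  simpa [rc_sh, tt_WW, tt_ev, Pi.single_apply] using this

theorem Geo.exists_rp (hG : Geo u V) {c : σ ⊕ ι → ℝ} (hc : ∀ g, 0 ≤ c g) :
    ∃ e ν, Cn V e ∧ (∀ j, 0 ≤ ν j) ∧ WW u c = WW u e + ev ν := by
  choose κ ν h using hG.sh_mem
  refine ⟨∑ g, c g • κ g, ∑ g, c g • ν g, ⟨fun g' => ?_, fun g' hg' => ?_⟩, fun j => ?_, ?_⟩
  · rw [Finset.sum_apply]
    exact Finset.sum_nonneg fun g _ => mul_nonneg (hc g) ((h g).1.1 g')
  · simp [fun g => (h g).1.2 g' hg']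
  · rw [Finset.sum_apply]
    exact Finset.sum_nonneg fun g _ => mul_nonneg (hc g) ((h g).2.1 j)
  · have := fun g => (h g).2.2
    simp only [map_zero, add_zero, rc_sh] at this
    simp only [map_sum, map_smul, ← Finset.sum_add_distrib, ← smul_add, ← this]
    simp only [← map_smul, ← map_sum]
    congr 1
    ext g
    simp [Pi.single_apply]

variable (u) in
def chi (ξ : Option σ → ℚ) (η : σ → ℚ) : σ ⊕ ι → ℚ :=
  Sum.elim η fun i => ∑ o, ξ o * hat u (Sum.inr i) o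

theorem cf_eq (ξ : Option σ → ℚ) (η : σ → ℚ) (g : σ ⊕ ι) :
    cf u a ξ η g = ca a g * chi u ξ η g := by
  rcases g with j | i <;> simp [cf, ca, chi]

theorem chi_ext0 (ξ : σ → ℚ) (g : σ ⊕ ι) : chi u (ext0 ξ) ξ g = ∑ j, ξ j * nn u g j := by
  rcases g with j | i <;> simp [chi, ext0, hat, nn]

def Lf (ξ : Option σ → ℚ) (η : σ → ℚ) : EV σ →ₗ[ℝ] ℝ where
  toFun x := ∑ o, ξ o * x.1 o + ∑ j, η j * x.2 j
  map_add' := fun p q => by simp [mul_add, Finset.sum_add_distrib, add_add_add_comm]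
  map_smul' := fun c p => by simp [Finset.mul_sum, mul_add, mul_left_comm]

theorem Lf_WW (ξ : Option σ → ℚ) (η : σ → ℚ) (e : σ ⊕ ι → ℝ) :
    Lf ξ η (WW u e) = ∑ g, e g * chi u ξ η g := by
  simp only [Lf, WW, chi, LinearMap.coe_mk, AddHom.coe_mk, Fintype.sum_sum_type, Sum.elim_inl,
    Sum.elim_inr, Finset.mul_sum, Rat.cast_sum, Rat.cast_mul, Rat.cast_natCast]
  rw [add_comm, Finset.sum_comm]
  simp only [mul_comm, mul_left_comm]

variable (u a V) in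
structure Dat (β : Option σ → ℚ) (lam : σ ⊕ ι → ℝ) (ω₀ : σ → ℝ) : Prop where
  geo : Geo u V
  nd : ND u a
  inj : Function.Injective u
  ne : ∀ i, a i ≠ 0
  feas : ∀ g, 0 ≤ zr u g ω₀
  supp : ∀ g, lam g ≠ 0 → g ∈ V ∧ zr u g ω₀ = 0
  inl : ∀ j, lam (Sum.inl j) = 0
  rep : ∀ o, (β o : ℝ) = (WW u lam).1 o
  one : ∀ j, ω₀ j ≠ 0 → β (some j) = 1
  pos : 0 < β none
  good : ∀ i l, Sum.inr i ∈ V → u i l = 1 → (∀ g ∈ V, zr u g ω₀ = 0 → g ≠ Sum.inr i → nn u g l = 0) →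
    ∃ j ≠ l, u i j ≠ 0 ∧ ∀ g ∈ V, zr u g ω₀ = 0 → g ≠ Sum.inr i → nn u g j = 0

variable {β : Option σ → ℚ} {lam : σ ⊕ ι → ℝ} {ω₀ : σ → ℝ}

variable (u V lam ω₀) in
def Zf : Finset (σ ⊕ ι) := (V ∩ tight u ω₀).filter fun g => lam g ≤ 0

theorem mem_Zf {g : σ ⊕ ι} : g ∈ Zf u V lam ω₀ ↔ (g ∈ V ∧ zr u g ω₀ = 0) ∧ lam g ≤ 0 := by
  simp [Zf, mem_tight]

def pl (lam : σ ⊕ ι → ℝ) (g : σ ⊕ ι) : ℝ := max (lam g) 0

theorem Dat.cn (h : Dat u a V β lam ω₀) : Cn V (pl lam) :=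
  ⟨fun _ => le_max_right _ _, fun g hg => by
    simp [pl, not_not.1 (mt (fun h' => (h.supp g h').1) hg)]⟩

theorem Dat.neg (h : Dat u a V β lam ω₀) {g : σ ⊕ ι} (hg : pl lam g ≠ lam g) :
    g ∈ Zf u V lam ω₀ := by
  have : lam g < 0 := not_le.1 fun h => hg (max_eq_left h)
  exact mem_Zf.2 ⟨h.supp g this.ne, this.le⟩

theorem Dat.near (h : Dat u a V β lam ω₀) : Near u 0 (Zf u V lam ω₀) ω₀ :=
  near_of h.feas fun _ hg => (mem_Zf.1 hg).1.2

theorem Dat.rp_zero (h : Dat u a V β lam ω₀) : Rp u V (pl lam) 0 (pl lam) 0 :=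
  ⟨h.cn, fun _ => le_rfl, by simp⟩

theorem Dat.qv_eq (h : Dat u a V β lam ω₀) (hp : Rp u V (pl lam) p e 0) (o : Option σ) :
    (qv β p o : ℝ) = (WW u (Sum.elim 0 fun i => (e + lam - pl lam) (Sum.inr i))).1 o := by
  have := congrFun (congrArg Prod.fst hp.2.2) o
  simp only [qv, Rat.cast_add, h.rep]
  simp [WW, rc, add_mul, sub_mul, Finset.sum_add_distrib] at this ⊢
  linarith

theorem Dat.nil (h : Dat u a V β lam ω₀) (ξ : Option σ → ℚ) : ∃ r, ∀ x ∈ sp k (Amb u V (pl lam)),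
    (Op u a β ξ 0 ^ r) x ∈ JJ' u a β (Amb u V (pl lam))
      (Sub u V (Zf u V lam ω₀) (pl lam) fun _ => False) := by
  classical
  have hG := h.geo
  have hA := hG.closed (kc_amb (ρ := pl lam))
  have hJ := JJ_stab hA (hG.closed (hG.kc_sub (Y := Zf u V lam ω₀) (ρ := pl lam)
    (P := fun _ => False) fun _ _ _ _ => id)) (Op_mem u a β ξ 0)
  let Ys := fun e : σ ⊕ ι → ℝ => Zf u V lam ω₀ ∪ Finset.univ.filter (e · ≠ 0)
  have hY : ∀ e g, g ∈ Ys e ↔ g ∈ Zf u V lam ω₀ ∨ e g ≠ 0 := by simp [Ys]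
  have key : ∀ r : ℕ, ∀ x ∈ sp k (Amb u V (pl lam)), (Op u a β ξ 0 ^ r) x ∈
      sp k (Sub u V (Zf u V lam ω₀) (pl lam) fun e => r ≤ (Ys e).card) ⊔
      JJ' u a β (Amb u V (pl lam)) (Sub u V (Zf u V lam ω₀) (pl lam) fun _ => False) := by
    intro r x hx
    induction r with
    | zero => exact Submodule.mem_sup_left (sp_mono (fun p hp =>
        And.intro hp fun _ _ => Nat.zero_le _) hx)
    | succ r ih =>
      rw [pow_succ', Module.End.mul_apply]
      refine map_sup _ (fun x hx => sp_map _ (fun p hp => ?_) hx)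
        (fun x hx => Submodule.mem_sup_right (hJ x hx)) ih
      by_cases hp' : p ∈ Sub u V (Zf u V lam ω₀) (pl lam) fun _ => False
      · exact Submodule.mem_sup_right (hJ _ (Submodule.mem_sup_right (ee_mem hp')))
      obtain ⟨e, h1, h2, -⟩ := of_notMem_sub hp hp'
      obtain ⟨ω, h3, h4⟩ := h1.2
      obtain ⟨ξ', h5⟩ := hG.dualQ h3.nonneg fun g => if g ∈ Ys e then chi u ξ 0 g else 0
      have h6 : ∀ g ∈ Ys e, chi u (ξ - ext0 ξ') (-ξ') g = 0 := fun g hg => by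
        have := h5 g (((hY e g).1 hg).elim (fun h => (mem_Zf.1 h).1.1) h1.1.1.mem)
          (((hY e g).1 hg).elim h3.eq_zero fun h => (h4 g h).1)
        rw [if_pos hg, ← chi_ext0] at this
        rcases g with j | i
        · simpa [chi] using this
        · simpa [chi, sub_mul, sub_eq_zero] using this.symm
      have h7 := Op_add u a β (ξ - ext0 ξ') (ext0 ξ') (-ξ') ξ'
      rw [sub_add_cancel, neg_add_cancel] at h7
      rw [h7, LinearMap.add_apply]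
      refine add_mem (Submodule.mem_sup_left ?_)
        (Submodule.mem_sup_right (Op_ext0_mem ξ' (ee_mem hp.1)))
      have h8 : ∑ o, (ξ - ext0 ξ') o * qv β p o = 0 := by
        have := Lf_WW (u := u) (ξ - ext0 ξ') (-ξ')
          (Sum.elim 0 fun i => (e + lam - pl lam) (Sum.inr i))
        rw [Finset.sum_eq_zero fun g _ => ?_] at this
        · simp only [Lf, LinearMap.coe_mk, AddHom.coe_mk, ← h.qv_eq h1.1] at this
          simp only [WW, LinearMap.coe_mk, AddHom.coe_mk, Sum.elim_inl, Pi.zero_apply, mul_zero,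
            Finset.sum_const_zero, add_zero] at this
          exact_mod_cast this
        by_cases hg : g ∈ Ys e
        · simp [h6 g hg]
        · rw [hY, not_or, not_not] at hg
          rcases g with j | i <;> simp [hg.2, not_not.1 (mt h.neg hg.1)]
      rw [Op_ee, h8, Rat.cast_zero, zero_smul, zero_add]
      refine sum_mem fun g _ => ?_
      by_cases h9 : chi u (ξ - ext0 ξ') (-ξ') g = 0
      · simp [cf_eq, h9]
      refine Submodule.smul_mem _ _ (ee_mem ⟨hA p hp.1 g, fun e' h10 => ?_⟩)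
      obtain ⟨κ, ν, h11⟩ := hG.sh_mem g
      obtain ⟨-, rfl, -, rfl⟩ := hG.lv_add h1.1 h11 h10
      refine h2.trans_lt (Finset.card_lt_card ⟨fun g hg => (hY _ g).2 (((hY e g).1 hg).imp_right
        fun h => (ne_zero_add h1.1.1.1 h11.1.1).2 (Or.inl h)), fun h12 => h9 ?_⟩)
      have := congrArg (Lf (ξ - ext0 ξ') (-ξ')) h11.2.2
      rw [map_zero, map_zero, add_zero, add_zero, rc_sh, Lf_WW, Lf_WW,
        Finset.sum_eq_zero (f := fun g => κ g * _) fun g _ => ?_] at this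
      · simpa [Pi.single_apply] using this
      by_cases hg : κ g = 0
      · simp [hg]
      · simp [h6 g (h12 ((hY _ g).2 (Or.inr ((ne_zero_add h1.1.1.1 h11.1.1).2 (Or.inr hg)))))]
  refine ⟨Fintype.card (σ ⊕ ι) + 1, fun x hx => ?_⟩
  have := key (Fintype.card (σ ⊕ ι) + 1) x hx
  rwa [sup_eq_right.2 ((sp_mono (sub_mono fun e he => by
    have := Finset.card_le_univ (Ys e)
    omega)).trans le_sup_right)] at this

theorem Dat.setup (h : Dat u a V β lam ω₀) (hz : ee 0 ∉ JJ' u a β (Amb u V (pl lam))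
    (Sub u V (Zf u V lam ω₀) (pl lam) fun _ => False)) :
    Setup u a β (Amb u V (pl lam)) (Sub u V (Zf u V lam ω₀) (pl lam) fun _ => False)
      (Finset.univ.filter fun j => Sum.inl j ∈ Zf u V lam ω₀) where
  cA := h.geo.closed kc_amb
  cB := h.geo.closed (h.geo.kc_sub fun _ _ _ _ => id)
  cone := by
    rintro p hp ⟨c, h1, h2⟩
    obtain ⟨e, ν, h3, h4, h5⟩ := h.geo.exists_rp (c := Sum.elim (fun j => p.2 j) fun i => c i) (by
      rintro (j | i)
      exacts [by simpa using hp j, by simpa using h1 i])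
    have h6 : rc p + WW u lam = WW u (Sum.elim (fun j => p.2 j) fun i => c i) := by
      refine Prod.ext (funext fun o => ?_) (funext fun j => by simp [rc, WW, h.inl])
      have := congrArg (Rat.cast : ℚ → ℝ) (h2 o)
      rw [Prod.fst_add, Pi.add_apply, ← h.rep]
      simpa [qv, rc, WW, add_comm] using this
    refine ⟨e + (pl lam - lam), ν, h3.add ⟨fun g => sub_nonneg.2 (le_max_left _ _),
      fun g hg => sub_eq_zero.2 (by_contra fun h' => hg (mem_Zf.1 (h.neg h')).1.1)⟩, h4, ?_⟩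
    rw [map_add, map_sub]
    linear_combination (norm := abel) h6 + h5
  nil := h.nil
  one := fun j hj => h.one j fun h' => hj (by simp [mem_Zf, h.geo.inl, zr_inl, h', h.inl])
  pos := h.pos
  base := by
    refine ⟨{p | 0 ≤ p.2 ∧ ∀ ω, Near u 0 (Zf u V lam ω₀) ω → (∀ j, p.2 j ≠ 0 → ω j = 0) →
      0 < lv ω (rc p + WW u (pl lam))}, fun p hp i => ⟨by simpa [sh] using hp.1,
        fun ω h1 h2 => ?_⟩, fun p hp => hp.1, fun p hp hp' => ⟨hp', fun e ⟨h1, ω, h2, h3⟩ => ?_⟩,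
      fun m => ⟨fun j => ?_, fun ω h1 h2 => ?_⟩⟩
    · have := hp.2 ω h1 (by simpa [sh] using h2)
      rw [map_add rc, add_right_comm, map_add, rc_sh, lv_WW]
      simpa [Pi.single_apply] using add_pos_of_pos_of_nonneg this (h1.nonneg (Sum.inr i))
    · have := hp.2 ω h2 fun j hj => zr_inl u j ω ▸ (h3 _ (by
        simpa [← h1.snd, pl, h.inl] using hj)).1
      rw [h1.2.2, map_zero, add_zero, lv_eq_zero fun g hg => (h3 g hg).1] at this
      exact this.false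
    · simp only [pt, xm, Prod.snd_add, add_zero, Pi.zero_apply]
      positivity
    · rw [map_add, lv_WW]
      refine add_pos_of_pos_of_nonneg ?_ (Finset.sum_nonneg fun g _ =>
        mul_nonneg (h.cn.1 g) (h1.nonneg g))
      simp only [lv, ld, tt, rc, pt, xm, LinearMap.sub_apply, LinearMap.sum_apply,
        LinearMap.smul_apply]
      simp only [pt, xm, Prod.snd_add, add_zero] at h2
      suffices 0 < ∑ x, ω x * (m x + if Sum.inl x ∉ Zf u V lam ω₀ ∧ m x < 0 then 1 else 0) + 1 by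
        simpa using this
      refine add_pos_of_nonneg_of_pos (Finset.sum_nonneg fun j _ => ?_) one_pos
      have := zr_inl u j ω ▸ h1.nonneg (Sum.inl j)
      by_cases h3 : 0 ≤ m j
      · have : (0 : ℝ) ≤ m j := by exact_mod_cast h3
        positivity
      by_cases h4 : Sum.inl j ∈ Zf u V lam ω₀
      · rw [← zr_inl u j ω, h1.eq_zero h4, zero_mul]
      · rw [h2 j (by simp [h4, not_le.1 h3]), zero_mul]
  zero := ⟨_, _, h.rp_zero⟩
  loc := fun m h1 h2 => by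
    have : Rp u V (pl lam) (xm m 0) (pl lam) fun j => m j :=
      ⟨h.cn, fun j => by simpa using h1 j, by
        rw [add_comm, add_right_inj]
        exact Prod.ext (funext fun o => by cases o <;> simp [rc, xm, ev]) (by ext; simp [rc, xm, ev])⟩
    exact ⟨⟨_, _, this⟩, fun e he => h2 (funext fun j => by
      simpa using congrFun (h.geo.lv_eq this he).2 j)⟩
  nz := hz

end RA

end

end Pool.Agent.P.MP_b91a16_ag
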