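import Pool.Agent.P.MP_b91a16_ag.Local

/-! A smooth step function and its derivatives. -/

open MeasureTheory

namespace Pool.Agent.P.MP_b91a16_ag

noncomputable section

def bmp : ContDiffBump (0 : ℝ) := ⟨1 / 2, 1, by norm_num, by norm_num⟩

/-- `tau 0` is a smooth step function and `tau (l + 1)` is the derivative of `tau l`. -/
def tau : ℕ → ℝ → ℝ
  | 0 => fun x => ∫ t in (-1 : ℝ)..x, bmp.normed volume t
  | l + 1 => iteratedDeriv l (bmp.normed volume)

theorem tau_one (x : ℝ) : tau 1 x = bmp.normed volume x := by simp [tau]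

theorem tau_hasDerivAt (l : ℕ) (x : ℝ) : HasDerivAt (tau l) (tau (l + 1) x) x := by
  rcases l with _ | l
  · rw [tau_one]
    exact (bmp.continuous_normed.integral_hasStrictDerivAt _ _).hasDerivAt
  · have h : Differentiable ℝ (iteratedDeriv l (bmp.normed volume)) :=
      (bmp.contDiff_normed (n := ⊤)).differentiable_iteratedDeriv l
        (by exact_mod_cast ENat.natCast_lt_top l)
    have : tau (l + 1 + 1) x = deriv (iteratedDeriv l (bmp.normed volume)) x := by
      simp [tau, iteratedDeriv_succ]
    rw [this]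
    exact (h x).hasDerivAt

@[fun_prop] theorem tau_continuous (l : ℕ) : Continuous (tau l) :=
  continuous_iff_continuousAt.2 fun x => (tau_hasDerivAt l x).continuousAt

theorem tau_one_nonneg (x : ℝ) : 0 ≤ tau 1 x := by
  rw [tau_one]
  exact bmp.nonneg_normed x

theorem tau_one_pos : 0 < tau 1 0 := by
  refine lt_of_le_of_ne (tau_one_nonneg 0) (Ne.symm ?_)
  rw [tau_one, ← Function.mem_support, bmp.support_normed_eq]
  simp [bmp]

theorem tau_succ_eq_zero (l : ℕ) {x : ℝ} (hx : 1 < |x|) : tau (l + 1) x = 0 := by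
  induction l generalizing x with
  | zero =>
    rw [zero_add, tau_one, ← Function.notMem_support, bmp.support_normed_eq]
    simpa [bmp] using hx.le
  | succ l ih =>
    have h : tau (l + 1) =ᶠ[nhds x] fun _ => 0 :=
      ((isOpen_lt continuous_const continuous_abs).eventually_mem hx).mono fun y hy => ih hy
    exact (tau_hasDerivAt (l + 1) x).unique ((hasDerivAt_const x (0 : ℝ)).congr_of_eventuallyEq h)

theorem abs_le_of_tau_ne {l : ℕ} (hl : l ≠ 0) {x : ℝ} (hx : tau l x ≠ 0) : |x| ≤ 1 := by
  obtain ⟨l, rfl⟩ := Nat.exists_eq_succ_of_ne_zero hl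
  by_contra h
  exact hx (tau_succ_eq_zero l (not_le.1 h))

theorem tau_compact (l : ℕ) : HasCompactSupport (tau (l + 1)) :=
  HasCompactSupport.intro (isCompact_Icc (a := -1) (b := 1)) fun x hx => tau_succ_eq_zero l <| by
    by_contra h
    exact hx (abs_le.1 (not_lt.1 h))

theorem tau_integrable (l : ℕ) : Integrable (tau (l + 1)) :=
  (tau_continuous _).integrable_of_hasCompactSupport (tau_compact l)

theorem tau_zero_mono : Monotone (tau 0) :=
  monotone_of_deriv_nonneg (fun x => (tau_hasDerivAt 0 x).differentiableAt) fun x => by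
    rw [(tau_hasDerivAt 0 x).deriv]
    exact tau_one_nonneg x

theorem tau_zero_eq_zero {x : ℝ} (hx : x ≤ -1) : tau 0 x = 0 := by
  refine intervalIntegral.integral_zero_ae (Filter.Eventually.of_forall fun t ht => ?_)
  rw [← Function.notMem_support, bmp.support_normed_eq]
  rw [Set.uIoc_of_ge hx] at ht
  have := ht.2
  simp only [bmp, Metric.mem_ball, dist_zero_right, Real.norm_eq_abs, not_lt]
  rw [abs_of_neg (by linarith)]
  linarith

theorem tau_zero_eq_one {x : ℝ} (hx : 1 ≤ x) : tau 0 x = 1 := by
  rw [← bmp.integral_normed (μ := volume)]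
  refine intervalIntegral.integral_eq_integral_of_support_subset ?_
  rw [bmp.support_normed_eq]
  intro t ht
  simp only [bmp, Metric.mem_ball, dist_zero_right, Real.norm_eq_abs, abs_lt] at ht
  exact ⟨ht.1, by linarith [ht.2]⟩

theorem tau_zero_nonneg (x : ℝ) : 0 ≤ tau 0 x := by
  rw [← tau_zero_eq_zero (min_le_right x (-1))]
  exact tau_zero_mono (min_le_left _ _)

theorem tau_zero_le_one (x : ℝ) : tau 0 x ≤ 1 := by
  rw [← tau_zero_eq_one (le_max_right x 1)]
  exact tau_zero_mono (le_max_left _ _)

theorem neg_one_le_of_tau_ne (l : ℕ) {x : ℝ} (hx : tau l x ≠ 0) : -1 ≤ x := by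
  rcases l with _ | l
  · by_contra h
    exact hx (tau_zero_eq_zero (not_le.1 h).le)
  · exact (abs_le.1 (abs_le_of_tau_ne l.succ_ne_zero hx)).1

theorem tau_one_bdd : ∃ C : ℝ, 0 < C ∧ ∀ x, tau 1 x ≤ C := by
  obtain ⟨C, hC⟩ := (tau_continuous 1).bounded_above_of_compact_support (tau_compact 0)
  exact ⟨C + 1, by linarith [hC 0, norm_nonneg (tau 1 0)],
    fun x => by linarith [hC x, le_abs_self (tau 1 x), Real.norm_eq_abs (tau 1 x)]⟩

theorem integral_tau_one : ∫ x, tau 1 x = 1 := by
  simp only [tau_one]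
  exact bmp.integral_normed

theorem integral_tau_two : ∫ x, tau 2 x = 0 :=
  integral_eq_zero_of_hasDerivAt_of_integrable (tau_hasDerivAt 1) (tau_integrable 1)
    (tau_integrable 0)

theorem integrable_mul_tau (l : ℕ) : Integrable fun x => x * tau (l + 1) x :=
  (continuous_id.mul (tau_continuous _)).integrable_of_hasCompactSupport (tau_compact l).mul_left

theorem integral_mul_tau_two : ∫ x, x * tau 2 x = -1 := by
  have h := integral_eq_zero_of_hasDerivAt_of_integrable (f := fun x => x * tau 1 x)
    (f' := fun x => tau 1 x + x * tau 2 x)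
    (fun x => by simpa using (hasDerivAt_id' x).fun_mul (tau_hasDerivAt 1 x))
    ((tau_integrable 0).add (integrable_mul_tau 1)) (integrable_mul_tau 0)
  rw [integral_add (tau_integrable 0) (integrable_mul_tau 1), integral_tau_one] at h
  linarith

theorem integral_eq_zero_of_hasLineDerivAt {E : Type} [NormedAddCommGroup E] [NormedSpace ℝ E]
    [FiniteDimensional ℝ E] [MeasurableSpace E] [BorelSpace E] {μ : Measure E}
    [μ.IsAddHaarMeasure] {g g' : E → ℝ} {v : E} (hg : Integrable g μ) (hg' : Integrable g' μ)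
    (h : ∀ x, HasLineDerivAt ℝ g (g' x) x v) : ∫ x, g' x ∂μ = 0 := by
  have := integral_bilinear_hasLineDerivAt_right_eq_neg_left_of_integrable (μ := μ)
    (f := fun _ => (1 : ℝ)) (f' := fun _ => 0) (g := g) (g' := g') (v := v)
    (B := ContinuousLinearMap.mul ℝ ℝ) (by simp) (by simpa using hg') (by simpa using hg)
    (fun x _ => hasDerivAt_const _ _) fun x _ => h x
  simpa using this

end

end Pool.Agent.P.MP_b91a16_ag
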