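import Pool.Agent.P.MP_b91a16_ag.Ops

/-! A root of every local Bernstein-Sato polynomial from a nonvanishing class. -/

set_option linter.unusedSectionVars false

open MvPolynomial

namespace Pool.Agent.P.MP_b91a16_ag

noncomputable section

namespace RA

variable {k σ ι : Type} [Field k] [CharZero k] [Fintype σ] [DecidableEq σ] [Fintype ι]
  [DecidableEq ι]

def xm (m : σ → ℤ) (K : ℤ) : Pt σ := (fun o => o.elim K m, 0)

def pt (Zs : Finset σ) (m : σ → ℤ) : Pt σ :=
  (fun o => o.elim 0 m, fun j => if j ∉ Zs ∧ m j < 0 then 1 else 0)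

theorem xm_add (m m' : σ → ℤ) (K K' : ℤ) : xm m K + xm m' K' = xm (m + m') (K + K') := by
  refine Prod.ext (funext fun o => ?_) (add_zero _)
  rcases o with _ | j <;> rfl

theorem xm_zero : xm (0 : σ → ℤ) 0 = 0 := by
  refine Prod.ext (funext fun o => ?_) rfl
  rcases o with _ | j <;> rfl

variable {u : ι → σ → ℕ} {a : ι → k} {β : Option σ → ℚ} {A B : Set (Pt σ)} {Zs : Finset σ}

variable (u a β A B Zs) in
structure Setup : Prop where
  cA : Closed u A
  cB : Closed u B
  cone : ∀ p : Pt σ, 0 ≤ p.2 → (∃ c : ι → ℚ, (∀ i, 0 ≤ c i) ∧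
    ∀ o, qv β p o = ∑ i, c i * hat u (Sum.inr i) o) → p ∈ A
  nil : ∀ ξ, ∃ r, ∀ x ∈ sp k A, (Op u a β ξ 0 ^ r) x ∈ JJ' u a β A B
  one : ∀ j ∉ Zs, β (some j) = 1
  pos : 0 < β none
  base : ∃ C : Set (Pt σ), (∀ p ∈ C, ∀ i, p + sh u (Sum.inr i) ∈ C) ∧ (∀ p ∈ C, 0 ≤ p.2) ∧
    (∀ p ∈ C, p ∈ A → p ∈ B) ∧ ∀ m, pt Zs m + xm 0 (-1) ∈ C
  zero : (0 : Pt σ) ∈ A
  loc : ∀ m : σ → ℤ, 0 ≤ m → m ≠ 0 → xm m 0 ∈ B
  nz : ee 0 ∉ JJ' u a β A B

variable (u a β A B) in
def UU : Submonoid (Module.End k (Lm k σ)) where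
  carrier := {v | v ∈ PP u a β ∧ ((∀ x ∈ sp k A, v x ∈ sp k A) ∧
    ∀ x ∈ sp k A, v x ∈ JJ' u a β A B → x ∈ JJ' u a β A B)}
  one_mem' := ⟨one_mem _, fun _ h => h, fun _ _ h => h⟩
  mul_mem' := fun hv hw => ⟨mul_mem hv.1 hw.1, fun x hx => hv.2.1 _ (hw.2.1 x hx),
    fun x hx h => hw.2.2 x hx (hv.2.2 _ (hw.2.1 x hx) h)⟩

def Setup.NN (h : Setup u a β A B Zs) : Submodule k (Lm k σ) :=
  sat (UU u a β A B) (fun _ hv _ hw => PP_comm hv.1 hw.1) (JJ' u a β A B)
    fun _ hv => JJ_stab h.cA h.cB hv.1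

theorem Setup.le_NN (h : Setup u a β A B Zs) : JJ' u a β A B ≤ h.NN := fun _ hx =>
  ⟨1, one_mem _, hx⟩

theorem Setup.NN_stab (h : Setup u a β A B Zs) {v : Module.End k (Lm k σ)} (hv : v ∈ PP u a β)
    {x : Lm k σ} (hx : x ∈ h.NN) : v x ∈ h.NN := by
  obtain ⟨w, hw, hx⟩ := hx
  refine ⟨w, hw, ?_⟩
  rw [← Module.End.mul_apply, (PP_comm hw.1 hv).eq]
  exact JJ_stab h.cA h.cB hv _ hx

theorem Setup.NN_cancel (h : Setup u a β A B Zs) {v : Module.End k (Lm k σ)}
    (hv : v ∈ UU u a β A B) {x : Lm k σ} (hx : v x ∈ h.NN) : x ∈ h.NN := by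
  obtain ⟨w, hw, hx⟩ := hx
  exact ⟨w * v, mul_mem hw hv, hx⟩

theorem Setup.unit (h : Setup u a β A B Zs) (ξ : Option σ → ℚ) {ψ : Module.End k (Lm k σ)}
    (hψ : ψ ∈ PP u a β) {c : k} (hc : c ≠ 0) :
    algebraMap k _ c + ψ * Op u a β ξ 0 ∈ UU u a β A B := by
  have h1 := mul_mem hψ (Op_mem u a β ξ 0)
  have h2 := add_mem ((PP u a β).algebraMap_mem c) h1
  refine ⟨h2, PP_stab (h.cA.op a β) h2, fun x hx h3 => ?_⟩
  obtain ⟨r, hr⟩ := h.nil ξ
  have h4 : ∀ n : ℕ, (-c) ^ n • x - ((ψ * Op u a β ξ 0) ^ n) x ∈ JJ' u a β A B := by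
    intro n
    induction n with
    | zero => simp
    | succ n ih =>
      have := sub_mem (JJ_stab h.cA h.cB h1 _ ih) (Submodule.smul_mem _ ((-c) ^ n) h3)
      convert this using 1
      simp only [pow_succ', Module.End.mul_apply, LinearMap.add_apply, map_sub, map_smul,
        Module.algebraMap_end_apply, smul_add, smul_smul, neg_mul, neg_smul, mul_comm c]
      abel
  have h5 : ((ψ * Op u a β ξ 0) ^ r) x ∈ JJ' u a β A B := by
    rw [(PP_comm hψ (Op_mem u a β ξ 0)).mul_pow]
    exact JJ_stab h.cA h.cB (pow_mem hψ r) _ (hr x hx)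
  have := Submodule.smul_mem _ ((-c) ^ r)⁻¹ (add_mem (h4 r) h5)
  rwa [sub_add_cancel, smul_smul, inv_mul_cancel₀ (pow_ne_zero _ (neg_ne_zero.2 hc)),
    one_smul] at this

theorem sum_sh (c : ι → ℕ) : ∑ i, c i • sh u (Sum.inr i) =
    ((fun o => ∑ i, (c i : ℤ) * hat u (Sum.inr i) o, 0) : Pt σ) := by
  refine Prod.ext (funext fun o => ?_) ?_
  · simp [Prod.fst_sum, sh]
  · simp [Prod.snd_sum, sh]

theorem Setup.mov (h : Setup u a β A B Zs) {C : Set (Pt σ)}
    (hC : ∀ p ∈ C, ∀ i, p + sh u (Sum.inr i) ∈ C) (hC' : ∀ p ∈ C, 0 ≤ p.2)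
    (N : Submodule k (Lm k σ)) (hN : ∀ v ∈ UU u a β A B, ∀ x, v x ∈ N → x ∈ N)
    (hA : ∀ p ∈ C, p ∈ A → ee p ∈ N) : ∀ p ∈ C, ee p ∈ N := by
  refine moving (fun i => sh u (Sum.inr i)) N hC fun p hp I => ?_
  rcases exists_xi (fun i o => (hat u (Sum.inr i) o : ℚ)) I (qv β p) with
    ⟨ξ, h1, h2⟩ | ⟨r, h1, h2⟩
  · refine Or.inl fun h3 => hN _ (h.unit ξ (one_mem _)
      (c := -((∑ o, ξ o * qv β p o : ℚ) : k)) (neg_ne_zero.2 (Rat.cast_ne_zero.2 h2))) _ ?_
    rw [one_mul, LinearMap.add_apply, Op_ee, Module.algebraMap_end_apply, neg_smul,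
      neg_add_cancel_left]
    refine Submodule.sum_mem _ ?_
    rintro (j | i) -
    · simp [cf]
    · by_cases hi : i ∈ I
      · simp only [cf, Sum.elim_inr, h1 i hi, Rat.cast_zero, mul_zero, zero_smul, zero_mem]
      · exact N.smul_mem _ (h3 i hi)
  · obtain ⟨M, hM⟩ := exists_nat_ge (∑ i, |r i|)
    refine Or.inr ⟨M, fun c hc => ?_⟩
    have h3 := closed_sum _ hC p hp c
    refine hA _ h3 (h.cone _ (hC' _ h3) ⟨fun i => r i + c i, fun i => ?_, fun o => ?_⟩)
    · by_cases hi : i ∈ I
      · have h4 : (M : ℚ) ≤ c i := by exact_mod_cast hc i hi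
        have := Finset.single_le_sum (f := fun i => |r i|) (fun _ _ => abs_nonneg _)
          (Finset.mem_univ i)
        linarith [neg_abs_le (r i)]
      · simp [h1 i hi]
    · rw [qv_add, h2, sum_sh]
      simp [add_mul, Finset.sum_add_distrib]

theorem closed_pos : Closed u {p : Pt σ | 0 ≤ p.2} := by
  rintro p hp (j | i)
  · exact add_nonneg (show (0 : σ → ℤ) ≤ p.2 from hp)
      (show (0 : σ → ℤ) ≤ Pi.single j 1 from Pi.single_nonneg.2 zero_le_one)
  · simpa [sh] using hp

theorem Setup.dl_mem (h : Setup u a β A B Zs) (j : σ) {x : Lm k σ}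
    (hx : x ∈ sp k {p : Pt σ | 0 ≤ p.2}) : Dl u a β j x ∈ h.NN :=
  sp_map _ (h.mov (fun p hp i => closed_pos p hp _) (fun _ hp => hp) (h.NN.comap (Dl u a β j))
    (fun v hv x hx => h.NN_cancel hv (by
      rw [← Module.End.mul_apply, (PP_comm hv.1 (w := Dl u a β j) (Op_mem u a β _ _)).eq]
      exact hx))
    fun p _ hp => h.le_NN (Submodule.mem_sup_left (mem_Im (Finset.mem_univ j) (ee_mem hp)))) hx

variable (u a β) in
/-- The operator `s`. -/
def sop : Module.End k (Lm k σ) := Op u a β (Pi.single none 1) 0 - algebraMap k _ (β none : k)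

theorem sop_mem : sop u a β ∈ PP u a β := sub_mem (Op_mem u a β _ _) ((PP u a β).algebraMap_mem _)

theorem aeval_sop_mem (p : Polynomial k) : Polynomial.aeval (sop u a β) p ∈ PP u a β :=
  Algebra.adjoin_le (S := PP u a β) (Set.singleton_subset_iff.2 sop_mem)
    (Polynomial.aeval_mem_adjoin_singleton k _)

theorem comm_aeval {φ : Module.End k (Lm k σ)} (h : Commute φ (sop u a β)) (p : Polynomial k) :
    Commute φ (Polynomial.aeval (sop u a β) p) :=
  Algebra.commute_of_mem_adjoin_of_forall_mem_commute (Polynomial.aeval_mem_adjoin_singleton k _)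
    fun _ hb => hb ▸ h

theorem comm_sop {p : Pt σ} (hp : p.1 none = 0) :
    Commute (LinearMap.mulLeft k (ee p)) (sop u a β) := by
  refine Commute.sub_right (LinearMap.ext fun x => ?_) (Algebra.commutes _ _).symm
  simp [Op_mul, Pi.single_apply, hp]

variable (u a β) in
def act' : MvPolynomial σ (Polynomial k) →+* Module.End k (Lm k σ) :=
  AddMonoidAlgebra.liftNCRingHom (Polynomial.aeval (sop u a β)).toRingHom
    { toFun := fun e => LinearMap.mulLeft k (ee (xm (fun j => (e.toAdd j : ℤ)) 0))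
      map_one' := by
        rw [show (fun j => (((1 : Multiplicative (σ →₀ ℕ)).toAdd j : ℕ) : ℤ)) = 0 from rfl, xm_zero]
        exact LinearMap.mulLeft_one _ _
      map_mul' := fun e e' => by
        refine LinearMap.ext fun x => ?_
        simp only [Module.End.mul_apply, LinearMap.mulLeft_apply, ← mul_assoc, ee_mul, xm_add]
        congr 3 }
    fun p _ => (comm_aeval (comm_sop rfl) p).symm

theorem act'_monomial (e : σ →₀ ℕ) (p : Polynomial k) (x : Lm k σ) :
    act' u a β (monomial e p) x =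
      Polynomial.aeval (sop u a β) p (ee (xm (fun j => (e j : ℤ)) 0) * x) :=
  LinearMap.congr_fun (AddMonoidAlgebra.liftNCRingHom_single _ _ _ e p) x

theorem act'_C (p : Polynomial k) : act' u a β (C p) = Polynomial.aeval (sop u a β) p :=
  LinearMap.ext fun x => by
    rw [C_apply, act'_monomial, show (fun j => (((0 : σ →₀ ℕ) j : ℕ) : ℤ)) = 0 from rfl, xm_zero,
      ee_zero, one_mul]

theorem act'_X (j : σ) (x : Lm k σ) : act' u a β (X j) x = ee (xm (Pi.single j 1) 0) * x := by
  rw [X, act'_monomial, map_one, Module.End.one_apply]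
  congr 3
  ext j'
  simp only [Finsupp.single_apply, Pi.single_apply, eq_comm]
  split_ifs <;> rfl

theorem act'_prod (e : σ → ℕ) (c : k) (x : Lm k σ) :
    act' u a β (C (Polynomial.C c) * ∏ j, X j ^ e j) x = c • (ee (xm (fun j => e j) 0) * x) := by
  have : (∏ j, X j ^ e j : MvPolynomial σ (Polynomial k)) =
      monomial (Finsupp.equivFunOnFinite.symm e) 1 := by
    rw [monomial_eq, C_1, one_mul, Finsupp.prod_fintype _ _ fun _ => pow_zero _]
    rfl
  rw [this, C_mul_monomial, mul_one, act'_monomial, Polynomial.aeval_C]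
  rfl

variable (u a β) in
def der' (j : σ) : Module.End k (Lm k σ) := LinearMap.mulLeft k (ee (xm (-Pi.single j 1) 0)) *
  (Op u a β (Pi.single (some j) 1) 0 - algebraMap k _ (β (some j) : k))

theorem der'_apply (j : σ) (x : Lm k σ) : der' u a β j x = ee (xm (-Pi.single j 1) 0) *
    (Op u a β (Pi.single (some j) 1) 0 x - (β (some j) : k) • x) := rfl

theorem der'_act (j : σ) (g : MvPolynomial σ (Polynomial k)) (x : Lm k σ) :
    der' u a β j (act' u a β g x) =
      act' u a β (pderiv j g) x + act' u a β g (der' u a β j x) := by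
  induction g using MvPolynomial.induction_on generalizing x with
  | C p =>
    have : Commute (der' u a β j) (sop u a β) := (comm_sop rfl).mul_left
      (PP_comm (sub_mem (Op_mem u a β _ _) ((PP u a β).algebraMap_mem _)) sop_mem)
    simpa [act'_C] using LinearMap.congr_fun (comm_aeval this p).eq x
  | add p q hp hq => simp only [map_add, LinearMap.add_apply, hp, hq]; abel
  | mul_X p j' hp =>
    have h1 : der' u a β j (act' u a β (X j') x) =
        act' u a β (pderiv j (X j')) x + act' u a β (X j') (der' u a β j x) := by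
      have e : ((∑ o, (Pi.single (some j) 1 : Option σ → ℚ) o *
          ((xm (Pi.single j' 1) 0).1 o : ℚ) : ℚ) : k) • (ee (xm (Pi.single j' 1) 0) *
            (ee (xm (-Pi.single j 1) 0) * x)) = act' u a β (pderiv j (X j')) x := by
        by_cases h : j' = j
        · subst h
          rw [← mul_assoc, ee_mul, xm_add, add_neg_cancel, add_zero, xm_zero]
          simp [xm, ee_zero, Pi.single_apply]
        · simp [xm, Pi.single_apply, h, Ne.symm h]
      simp only [der'_apply, act'_X, Op_mul, mul_sub, mul_add, mul_smul_comm,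
        mul_left_comm (ee (xm (-Pi.single j 1) 0)), e]
      abel
    rw [map_mul, Module.End.mul_apply, hp, h1, Derivation.leibniz]
    rw [smul_eq_mul, smul_eq_mul, mul_comm (X j')]
    simp only [map_add, map_mul, LinearMap.add_apply, Module.End.mul_apply]
    abel

theorem act'_lift {n : ℕ} {u : ι → Fin n → ℕ} {β : Option (Fin n) → ℚ} (x : Lm k (Fin n)) :
    act' u a β (lift (fpoly u a)) x = ∑ i, a i • (ee (xm (fun j => u i j) 0) * x) := by
  simp only [lift, fpoly, map_sum, LinearMap.sum_apply]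
  refine Finset.sum_congr rfl fun i _ => ?_
  rw [← act'_prod (u := u) (a := a) (β := β)]
  simp

theorem sh_inr (i : ι) : sh u (Sum.inr i) = xm (fun j => u i j) 1 := by
  refine Prod.ext (funext fun o => ?_) rfl
  rcases o with _ | j <;> simp [sh, hat, xm, nn]

theorem f_eps {n : ℕ} {u : ι → Fin n → ℕ} {β : Option (Fin n) → ℚ} (K : ℤ) :
    act' u a β (lift (fpoly u a)) (ee (xm 0 (K + 1))) =
      Polynomial.aeval (sop u a β) (Polynomial.X - (K : Polynomial k)) (ee (xm 0 K)) := by
  simp only [act'_lift, map_sub, Polynomial.aeval_X, map_intCast, sop, LinearMap.sub_apply,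
    Op_ee, Fintype.sum_sum_type, cf, sh_inr, ee_mul, xm_add, Module.algebraMap_end_apply,
    Module.End.intCast_apply]
  simp [hat, qv, xm, Pi.single_apply, add_smul, Int.cast_smul_eq_zsmul]
  abel

theorem der'_eps {n : ℕ} {u : ι → Fin n → ℕ} {β : Option (Fin n) → ℚ} (j : Fin n) (K : ℤ) :
    der' u a β j (ee (xm 0 K)) =
      act' u a β (pderiv j (lift (fpoly u a))) (ee (xm 0 (K + 1))) := by
  have e : X j * pderiv j (lift (fpoly u a)) =
      ∑ i, C (Polynomial.C (a i * u i j)) * ∏ j, X j ^ u i j := by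
    simp only [lift, fpoly, map_sum, Finset.mul_sum]
    refine Finset.sum_congr rfl fun i _ => ?_
    have : (∏ j, X j ^ u i j : MvPolynomial (Fin n) (Polynomial k)) =
        monomial (Finsupp.equivFunOnFinite.symm (u i)) 1 := by
      rw [monomial_eq, C_1, one_mul, Finsupp.prod_fintype _ _ fun _ => pow_zero _]
      rfl
    rw [map_mul, map_C, map_prod]
    simp only [map_pow, map_X, this, C_mul_monomial, mul_one, X_mul_pderiv_monomial, smul_monomial]
    congr 1
    simp [mul_comm]
  have : ∀ x y : Lm k (Fin n), act' u a β (X j) x = act' u a β (X j) y → x = y := by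
    intro x y h
    have := congrArg (ee (xm (-Pi.single j 1) 0) * ·) h
    simpa only [act'_X, ← mul_assoc, ee_mul, xm_add, neg_add_cancel, add_zero, xm_zero, ee_zero,
      one_mul] using this
  refine this _ _ ?_
  rw [← Module.End.mul_apply (act' u a β (X j)) (act' u a β _), ← map_mul, e]
  simp only [map_sum, LinearMap.sum_apply, act'_prod, act'_X, der'_apply, ← mul_assoc, ee_mul,
    xm_add, add_neg_cancel, add_zero, xm_zero, ee_zero, one_mul, Op_ee, Fintype.sum_sum_type, cf,
    sh_inr]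
  simp [hat, qv, xm, Pi.single_apply, nn]

theorem comm_act' {p : Pt σ} (hp : p.1 none = 0) (q : Polynomial k) (x : Lm k σ) :
    ee p * Polynomial.aeval (sop u a β) q x = Polynomial.aeval (sop u a β) q (ee p * x) :=
  LinearMap.congr_fun (comm_aeval (comm_sop hp) q).eq x

theorem Setup.unit' (h : Setup u a β A B Zs) {q : Polynomial k} (hq : q.eval (-(β none : k)) ≠ 0) :
    Polynomial.aeval (sop u a β) q ∈ UU u a β A B := by
  obtain ⟨r, hr⟩ := Polynomial.X_sub_C_dvd_sub_C_eval (p := q) (a := -(β none : k))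
  have := h.unit (Pi.single none 1) (aeval_sop_mem r) hq
  convert this using 1
  rw [sub_eq_iff_eq_add.1 hr, mul_comm]
  simp [sop, add_comm]

theorem Setup.root {n : ℕ} {u : ι → Fin n → ℕ} {β : Option (Fin n) → ℚ} {A B : Set (Pt (Fin n))}
    {Zs : Finset (Fin n)} (h : Setup u a β A B Zs) (hf : fpoly u a ≠ 0) {b : Polynomial k}
    (hb : LocalBernsteinEq (fpoly u a) b) : b.eval (-(β none : k)) = 0 := by
  let P : Lm k (Fin n) → Prop := fun z =>
    z ∈ sp k {p : Pt (Fin n) | 0 ≤ p.2} ∧ ∀ m, ee (pt Zs m) * z ∈ h.NN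
  have hpos := fun (v : Module.End k (Lm k (Fin n))) (hv : v ∈ PP u a β) =>
    PP_stab (closed_pos.op a β) hv
  have hxm : ∀ (p : Pt (Fin n)) (z : Lm k (Fin n)), 0 ≤ p.2 → z ∈ sp k {p : Pt (Fin n) | 0 ≤ p.2} →
      ee p * z ∈ sp k {p : Pt (Fin n) | 0 ≤ p.2} := fun p z hp hz =>
    mul_mem_sp (C := {p : Pt (Fin n) | 0 ≤ p.2}) (fun c hc a ha =>
      show (0 : Fin n → ℤ) ≤ c.2 + a.2 from add_nonneg hc ha) (ee_mem hp) hz
  have hpt : ∀ m, 0 ≤ (pt Zs m).2 := fun m j => by
    simp only [pt]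
    split_ifs <;> simp
  have PC : ∀ (q : Polynomial k) z, P z → P (Polynomial.aeval (sop u a β) q z) :=
    fun q z hz => ⟨hpos _ (aeval_sop_mem q) z hz.1, fun m => by
      rw [comm_act' rfl]
      exact h.NN_stab (aeval_sop_mem q) (hz.2 m)⟩
  have PX : ∀ j z, P z → P (act' u a β (X j) z) := fun j z hz => by
    rw [act'_X]
    refine ⟨hxm _ _ le_rfl hz.1, fun m => ?_⟩
    rw [← mul_assoc, ee_mul]
    by_cases h1 : j ∉ Zs ∧ m j = -1
    · have : pt Zs m + xm (Pi.single j 1) 0 = sh u (Sum.inl j) + pt Zs (m + Pi.single j 1) := by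
        refine Prod.ext (funext fun o => ?_) (funext fun j' => ?_)
        · rcases o with _ | j <;> simp [pt, xm, sh]
        · by_cases e : j' = j
          · simp [pt, xm, sh, e, h1]
          · simp [pt, xm, sh, e]
      rw [this, ← ee_mul, mul_assoc, ← Op_y u a β]
      exact h.NN_stab (Op_mem u a β _ _) (hz.2 _)
    · have : pt Zs m + xm (Pi.single j 1) 0 = pt Zs (m + Pi.single j 1) := by
        refine Prod.ext (funext fun o => ?_) (funext fun j' => ?_)
        · rcases o with _ | j <;> simp [pt, xm]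
        · by_cases e : j' = j
          · subst e
            simp only [pt, xm, Prod.snd_add, Pi.add_apply, Pi.single_eq_same, Pi.zero_apply]
            grind
          · simp [pt, xm, e]
      rw [this]
      exact hz.2 _
  have PD : ∀ j z, P z → P (der' u a β j z) := fun j z hz => by
    have hv := sub_mem (Op_mem u a β (Pi.single (some j) 1) 0)
      ((PP u a β).algebraMap_mem (β (some j) : k))
    refine ⟨hxm _ _ le_rfl (hpos _ hv z hz.1), fun m => ?_⟩
    have e1 := Op_mul u a β (Pi.single (some j) 1) 0 (pt Zs m + xm (-Pi.single j 1) 0) z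
    rw [der'_apply, ← mul_assoc, ee_mul, mul_sub, ← sub_eq_iff_eq_add.2 e1, mul_smul_comm]
    by_cases h1 : j ∉ Zs ∧ m j = 0
    · have e2 : pt Zs (m - Pi.single j 1) =
          sh u (Sum.inl j) + (pt Zs m + xm (-Pi.single j 1) 0) := by
        refine Prod.ext (funext fun o => ?_) (funext fun j' => ?_)
        · rcases o with _ | j <;> simp [pt, xm, sh, sub_eq_add_neg]
        · by_cases e : j' = j
          · simp [pt, xm, sh, e, h1]
          · simp [pt, xm, sh, e]
      have e3 := hz.2 (m - Pi.single j 1)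
      rw [e2, ← ee_mul, mul_assoc, ← Op_y u a β] at e3
      have e4 := h.dl_mem j (hxm (pt Zs m + xm (-Pi.single j 1) 0) z (by simpa [xm] using hpt m) hz.1)
      have e5 := Op_add u a β (Pi.single (some j) 1) 0 0 (Pi.single j 1)
      rw [add_zero, zero_add] at e5
      rw [Dl, e5] at e4
      convert sub_mem e4 e3 using 1
      simp [pt, xm, Pi.single_apply, h1.2, h.one j h1.1]
    · have e2 : pt Zs m + xm (-Pi.single j 1) 0 = pt Zs (m - Pi.single j 1) := by
        refine Prod.ext (funext fun o => ?_) (funext fun j' => ?_)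
        · rcases o with _ | j <;> simp [pt, xm, sub_eq_add_neg]
        · by_cases e : j' = j
          · subst e
            simp only [pt, xm, Prod.snd_add, add_zero, Pi.sub_apply, Pi.single_eq_same]
            grind
          · simp [pt, xm, e]
      rw [e2]
      exact sub_mem (sub_mem (h.NN_stab (Op_mem u a β _ _) (hz.2 _))
        (Submodule.smul_mem _ _ (hz.2 _))) (Submodule.smul_mem _ _ (hz.2 _))
  have hcomm : ∀ (g g' : MvPolynomial (Fin n) (Polynomial k)) x,
      act' u a β (g * g') x = act' u a β g' (act' u a β g x) := fun g g' x => by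
    rw [mul_comm, map_mul, Module.End.mul_apply]
  have hf1 : ∀ (K : ℕ) g, act' u a β (lift (fpoly u a) * g) (ee (xm 0 (K + 1 : ℕ))) =
      Polynomial.aeval (sop u a β) (Polynomial.X - (K : Polynomial k))
        (act' u a β g (ee (xm 0 K))) := fun K g => by
    rw [hcomm, Nat.cast_succ, f_eps, ← act'_C, ← act'_C, ← hcomm, ← hcomm, mul_comm, Int.cast_natCast]
  obtain ⟨K, g, hg, -, H⟩ := bern_closure_loc hf hb (fun K g => P (act' u a β g (ee (xm 0 K))))
    (by
      have := f_eps (a := a) (u := u) (β := β) (-1)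
      rw [neg_add_cancel] at this
      rw [Nat.cast_zero, this]
      refine PC _ _ ⟨ee_mem (show (0 : Fin n → ℤ) ≤ 0 from le_rfl), fun m => ?_⟩
      obtain ⟨C, h1, h2, h3, h4⟩ := h.base
      rw [ee_mul]
      exact h.mov h1 h2 h.NN (fun v hv x => h.NN_cancel hv)
        (fun p hp hp' => h.le_NN (Submodule.mem_sup_right (ee_mem (h3 p hp hp')))) _ (h4 m))
    (fun K g g' h1 h2 => by
      rw [map_add, LinearMap.add_apply]
      exact ⟨add_mem h1.1 h2.1, fun m => by rw [mul_add]; exact add_mem (h1.2 m) (h2.2 m)⟩)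
    (fun K p g h1 => by rw [map_mul, Module.End.mul_apply, act'_C]; exact PC _ _ h1)
    (fun K j g h1 => by rw [map_mul, Module.End.mul_apply]; exact PX _ _ h1)
    (fun K g h1 => by rw [hf1]; exact PC _ _ h1)
    (fun K j g h1 => by
      have := PC (Polynomial.X - (K : Polynomial k)) _ (PD j _ h1)
      rwa [der'_act, der'_eps, map_add, ← hf1, ← act'_C, ← Nat.cast_succ, ← Module.End.mul_apply,
        ← Module.End.mul_apply, ← map_mul, ← map_mul, ← LinearMap.add_apply, ← map_add] at this)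
  by_contra hb0
  have h1 : ∀ (K : ℕ) g, act' u a β (g * lift (fpoly u a) ^ K) (ee (xm 0 K)) ∈ h.NN →
      act' u a β g (ee (xm 0 0)) ∈ h.NN := by
    intro K
    induction K with
    | zero => simp
    | succ K ih =>
      intro g hg
      rw [pow_succ, ← mul_assoc, mul_comm, hf1] at hg
      refine ih g (h.NN_cancel (h.unit' ?_) hg)
      have : (-β none - K : ℚ) ≠ 0 := by
        have := h.pos
        have : (0 : ℚ) ≤ K := Nat.cast_nonneg K
        linarith
      simpa using (Rat.cast_ne_zero (α := k)).2 this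
  have h2 := H 0
  rw [show pt Zs 0 = 0 by simp [pt, ← xm_zero, xm]; rfl, ee_zero, one_mul] at h2
  have h3 := h1 _ _ h2
  rw [map_mul, Module.End.mul_apply, act'_C, xm_zero] at h3
  have h4 := h.NN_cancel (h.unit' hb0) h3
  have h5 : act' u a β (lift g) (ee 0) - constantCoeff g • ee 0 ∈ sp k B := by
    clear hg H h2 h3 h4
    induction g using MvPolynomial.induction_on' with
    | monomial e c =>
      rw [lift, map_monomial, act'_monomial, Polynomial.aeval_C, Module.algebraMap_end_apply, ee_mul,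
        add_zero, constantCoeff_monomial]
      split_ifs with he
      · rw [he, show (fun j => (((0 : Fin n →₀ ℕ) j : ℕ) : ℤ)) = 0 from rfl, xm_zero, sub_self]
        exact zero_mem _
      · rw [zero_smul, sub_zero]
        refine Submodule.smul_mem _ _ (ee_mem (h.loc _ (fun j => by simp) fun h => he ?_))
        ext j
        simpa using congrFun h j
    | add p q hp hq =>
      convert add_mem hp hq using 1
      simp only [lift, map_add, LinearMap.add_apply, add_smul]
      abel
  have h6 := Submodule.smul_mem _ (constantCoeff g)⁻¹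
    (sub_mem h4 (h.le_NN (Submodule.mem_sup_right h5)))
  rw [sub_sub_cancel, smul_smul, inv_mul_cancel₀ hg, one_smul] at h6
  obtain ⟨v, hv, h7⟩ := h6
  exact h.nz (hv.2.2 _ (ee_mem h.zero) h7)

end RA

end

end Pool.Agent.P.MP_b91a16_ag
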